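import Pool.Agent.MP_c1dca2_ag.SC5.Defs

/-!
# [SC5-A1] primes of number fields: basic facts

All statements are standard. `bl k w` is `HeightOneSpectrum.under (𝓞 k) w`, so
`(bl k w).asIdeal = w.asIdeal.under (𝓞 k)` (`Ideal.under`, a comap). `nv w = nv (bl k w) ^ f` with `f` the
residue degree: `Ideal.absNorm_eq_pow_inertiaDeg'_of_liesOver` (Mathlib,
NumberTheory/RamificationInertia/Inertia.lean) or directly: `𝓞 L / w` is a finite extension of the field
`𝓞 k / v`, so its cardinality is a power of that of `𝓞 k / v`; then `Nat.log_pow`. Finiteness of the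
primes of bounded norm: `Ideal.finite_setOf_absNorm_le` or similar. `card_above`: the sum of the residue
degrees is at most the degree (`Ideal.sum_ramification_inertia_eq_finrank` or
`Ideal.sum_ramification_inertia`, the ramification indices are at least `1`; the finrank of
`𝓞 L` over `𝓞 k` is that of `L` over `k`); or by the Chinese remainder theorem: `𝓞 L / v 𝓞 L` has
`nv v ^ [L : k]` elements (norm of an extended ideal) and maps onto the product of the `𝓞 L / w`.
-/

set_option autoImplicit false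

open NumberField IsDedekindDomain

namespace SC5

theorem two_le_nv {K : Type} [Field K] [NumberField K] (v : Pr K) : 2 ≤ nv v := by
  have h1 : nv v ≠ 0 := fun h => v.ne_bot (Ideal.absNorm_eq_zero_iff.1 h)
  have h2 : nv v ≠ 1 := fun h => v.isPrime.ne_top (Ideal.absNorm_eq_one_iff.1 h)
  omega

theorem finite_nv (K : Type) [Field K] [NumberField K] (B : ℕ) : {v : Pr K | nv v ≤ B}.Finite := by
  have h := (Ideal.finite_setOfPred_absNorm_le (S := 𝓞 K) B)
  refine (h.preimage (f := fun v : Pr K => v.asIdeal) ?_)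
  intro a _ b _ hab
  exact HeightOneSpectrum.ext hab

/-- The primes containing a nonzero element. -/
theorem finite_mem {K : Type} [Field K] [NumberField K] (a : 𝓞 K) (ha : a ≠ 0) :
    {v : Pr K | a ∈ v.asIdeal}.Finite := by
  have h0 : Ideal.span {a} ≠ ⊥ := by
    rw [Ne, Ideal.span_singleton_eq_bot]
    exact ha
  have h := Ideal.finite_factors h0
  refine h.subset ?_
  intro v hv
  have hv' : a ∈ v.asIdeal := hv
  exact Ideal.dvd_span_singleton.2 hv'

theorem nv_mem {K : Type} [Field K] [NumberField K] (v : Pr K) : ((nv v : ℕ) : 𝓞 K) ∈ v.asIdeal :=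
  Ideal.absNorm_mem v.asIdeal

section above

variable {k L : Type} [Field k] [NumberField k] [Field L] [NumberField L] [Algebra k L]

theorem mem_bl (w : Pr L) (a : 𝓞 k) :
    a ∈ (bl k w).asIdeal ↔ algebraMap (𝓞 k) (𝓞 L) a ∈ w.asIdeal := Iff.rfl

theorem a1_liesOver (w : Pr L) : w.asIdeal.LiesOver (bl k w).asIdeal := ⟨rfl⟩

theorem a1_liesOver_of_eq {v : Pr k} {w : Pr L} (h : bl k w = v) : w.asIdeal.LiesOver v.asIdeal :=
  ⟨by rw [← h]; rfl⟩

theorem a1_nv (w : Pr L) :
    nv w = nv (bl k w) ^ ((bl k w).asIdeal.inertiaDeg' w.asIdeal) := by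
  have := a1_liesOver (k := k) w
  exact Ideal.absNorm_eq_pow_inertiaDeg'_of_liesOver w.asIdeal (bl k w).asIdeal
    (bl k w).isPrime (bl k w).ne_bot

theorem a1_dg (w : Pr L) : dg k w = (bl k w).asIdeal.inertiaDeg' w.asIdeal := by
  unfold dg
  rw [a1_nv (k := k) w]
  exact Nat.log_pow (two_le_nv (bl k w)) _

theorem nv_eq (w : Pr L) : nv w = nv (bl k w) ^ dg k w := by
  rw [a1_dg]
  exact a1_nv w

theorem dg_pos (w : Pr L) : 0 < dg k w := by
  rw [Nat.pos_iff_ne_zero]
  intro h
  have h1 := nv_eq (k := k) w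
  rw [h, pow_zero] at h1
  have h2 := two_le_nv w
  omega

theorem nv_bl_le (w : Pr L) : nv (bl k w) ≤ nv w := by
  rw [nv_eq (k := k) w]
  exact Nat.le_self_pow (dg_pos w).ne' _

theorem finite_bl (v : Pr k) : {w : Pr L | bl k w = v}.Finite := by
  obtain ⟨a, ha, ha0⟩ := Submodule.exists_mem_ne_zero_of_ne_bot v.ne_bot
  refine (finite_mem (algebraMap (𝓞 k) (𝓞 L) a) ?_).subset ?_
  · intro h
    exact ha0 ((FaithfulSMul.algebraMap_eq_zero_iff (𝓞 k) (𝓞 L)).1 h)
  · rintro w rfl
    exact ha

theorem exists_bl (v : Pr k) : ∃ w : Pr L, bl k w = v := by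
  obtain ⟨P, hP, hlo⟩ := Ideal.exists_maximal_ideal_liesOver_of_isIntegral (S := 𝓞 L) v.asIdeal
  have hne : P ≠ ⊥ := by
    intro h
    apply v.ne_bot
    rw [hlo.over, h]
    exact Ideal.under_bot _ _
  refine ⟨⟨P, hP.isPrime, hne⟩, ?_⟩
  apply HeightOneSpectrum.ext
  exact hlo.over.symm

theorem card_bl (v : Pr k) (T : Finset (Pr L)) (hT : ∀ w ∈ T, bl k w = v) :
    ∑ w ∈ T, dg k w ≤ Module.finrank k L := by
  classical
  have : v.asIdeal.IsMaximal := v.isMaximal
  rw [← Ideal.sum_ramification_inertia (𝓞 L) k L v.ne_bot]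
  have hinj : Function.Injective (fun w : Pr L => w.asIdeal) := fun a b hab => HeightOneSpectrum.ext hab
  calc ∑ w ∈ T, dg k w = ∑ P ∈ T.image (fun w : Pr L => w.asIdeal), v.asIdeal.inertiaDeg' P := by
        rw [Finset.sum_image (fun a _ b _ h => hinj h)]
        refine Finset.sum_congr rfl fun w hw => ?_
        rw [a1_dg, hT w hw]
    _ ≤ ∑ P ∈ IsDedekindDomain.primesOverFinset v.asIdeal (𝓞 L), v.asIdeal.inertiaDeg' P := by
        refine Finset.sum_le_sum_of_subset ?_
        intro P hP
        obtain ⟨w, hw, rfl⟩ := Finset.mem_image.1 hP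
        rw [IsDedekindDomain.mem_primesOverFinset_iff v.ne_bot]
        exact ⟨w.isPrime, a1_liesOver_of_eq (hT w hw)⟩
    _ ≤ _ := by
        refine Finset.sum_le_sum fun P hP => ?_
        rw [IsDedekindDomain.mem_primesOverFinset_iff v.ne_bot] at hP
        have := hP.1
        have := hP.2
        exact Nat.le_mul_of_pos_left _ (Nat.pos_of_ne_zero
          (Ideal.IsDedekindDomain.ramificationIdx'_ne_zero_of_liesOver P v.ne_bot))

theorem bl_bl {M : Type} [Field M] [NumberField M] [Algebra k M] [Algebra L M]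
    [IsScalarTower k L M] (w : Pr M) : bl k (bl L w) = bl k w := by
  apply HeightOneSpectrum.ext
  exact Ideal.under_under w.asIdeal

theorem dg_mul {M : Type} [Field M] [NumberField M] [Algebra k M] [Algebra L M]
    [IsScalarTower k L M] (w : Pr M) : dg k w = dg k (bl L w) * dg L w := by
  have h1 := nv_eq (k := k) w
  have h2 := nv_eq (k := L) w
  have h3 := nv_eq (k := k) (bl L w)
  rw [bl_bl] at h3
  rw [h3, ← pow_mul] at h2
  rw [h2] at h1
  exact (Nat.pow_right_injective (two_le_nv (bl k w)) h1).symm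

end above

end SC5
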