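import Pool.Agent.MP_c1dca2_ag.SC5.A1

/-!
# [SC5-A2] the primes with ramification

Only finitely many primes `v` of `k` ramify in `L`; for all others the residue degrees of the primes above
`v` add up to `[L : k]` (`Ideal.sum_ramification_inertia_eq_finrank` or the older
`Ideal.sum_ramification_inertia`). Finiteness of the ramified primes: the different ideal, or: let
`θ ∈ 𝓞 L` generate `L / k`, `d ∈ 𝓞 k` nonzero in the ideal generated by `m` and `m'` in
`(𝓞 k)[X]`, `m` the minimal polynomial (resultant / discriminant); if `v` does not contain `d` (and, if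
needed, finitely many other elements) then `v` is unramified.

`ev_bl`: for an unramified prime, `SC3.Ev w a ↔ SC3.Ev v a` for `a ∈ k` (with
`w.valuation L a = v.valuation k a` for ramification index one: see
`IsDedekindDomain.HeightOneSpectrum.valuation_comap` or similar in Mathlib; here
`SC3.Ev v d ↔ ∃ b, v.valuation k d = v.valuation k b ^ 2`, i.e. `d = 0` or the exponent of `v` in `d` is
even; there are elements of every valuation).
-/

set_option autoImplicit false

open NumberField IsDedekindDomain

namespace SC5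

theorem A2_under {k L : Type} [Field k] [NumberField k] [Field L] [NumberField L] [Algebra k L]
    (w : Pr L) : (bl k w).asIdeal = w.asIdeal.under (𝓞 k) := rfl

/-- the ramification index is one outside of a finite set -/
theorem A2_ram (k L : Type) [Field k] [NumberField k] [Field L] [NumberField L] [Algebra k L] :
    ∃ S : Finset (Pr k), ∀ w : Pr L, bl k w ∉ S →
      (bl k w).asIdeal.ramificationIdx' w.asIdeal = 1 := by
  classical
  let : Algebra (FractionRing (𝓞 k)) (FractionRing (𝓞 L)) := FractionRing.liftAlgebra _ _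
  have hsep : Algebra.IsSeparable (FractionRing (𝓞 k)) (FractionRing (𝓞 L)) := inferInstance
  have hne : differentIdeal (𝓞 k) (𝓞 L) ≠ ⊥ := differentIdeal_ne_bot
  have hfin : {w : Pr L | w.asIdeal ∣ differentIdeal (𝓞 k) (𝓞 L)}.Finite := Ideal.finite_factors hne
  refine ⟨hfin.toFinset.image (bl k), fun w hw => ?_⟩
  have hnd : ¬ w.asIdeal ∣ differentIdeal (𝓞 k) (𝓞 L) := by
    intro hd
    exact hw (Finset.mem_image.2 ⟨w, hfin.mem_toFinset.2 hd, rfl⟩)
  have hprime : w.asIdeal.IsPrime := w.isPrime
  have hun : Algebra.IsUnramifiedAt (𝓞 k) w.asIdeal := not_dvd_differentIdeal_iff.1 hnd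
  have hlo : w.asIdeal.LiesOver (bl k w).asIdeal := ⟨rfl⟩
  rw [Ideal.ramificationIdx'_eq_ramificationIdx _ _ (bl k w).ne_bot]
  exact Ideal.ramificationIdx_eq_one _ _

theorem unram (k L : Type) [Field k] [NumberField k] [Field L] [NumberField L] [Algebra k L] :
    ∃ S : Finset (Pr k), ∀ v, v ∉ S → (∀ T : Finset (Pr L), (∀ w, w ∈ T ↔ bl k w = v) →
      ∑ w ∈ T, dg k w = Module.finrank k L) ∧
      ∀ w : Pr L, bl k w = v → ∀ a : k, SC3.Ev w (algebraMap k L a) ↔ SC3.Ev v a := by
  classical
  obtain ⟨S, hS⟩ := A2_ram k L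
  refine ⟨S, fun v hv => ⟨fun T hT => ?_, fun w hw a => ?_⟩⟩
  · have hmax : v.asIdeal.IsMaximal := v.isMaximal
    rw [← Ideal.sum_ramification_inertia (𝓞 L) k L v.ne_bot]
    refine Finset.sum_bij (fun w _ => w.asIdeal) ?_ ?_ ?_ ?_
    · intro w hw
      rw [hT] at hw
      rw [IsDedekindDomain.mem_primesOverFinset_iff v.ne_bot]
      exact ⟨w.isPrime, ⟨by rw [← hw]; rfl⟩⟩
    · intro w _ w' _ h
      exact HeightOneSpectrum.ext h
    · intro P hP
      rw [IsDedekindDomain.mem_primesOverFinset_iff v.ne_bot] at hP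
      obtain ⟨hP1, hP2⟩ := hP
      have hPb : P ≠ ⊥ := Ideal.ne_bot_of_mem_primesOver v.ne_bot ⟨hP1, hP2⟩
      refine ⟨⟨P, hP1, hPb⟩, ?_, rfl⟩
      rw [hT]
      exact HeightOneSpectrum.ext hP2.over.symm
    · intro w hw
      rw [hT] at hw
      subst hw
      have hlo : w.asIdeal.LiesOver (bl k w).asIdeal := ⟨rfl⟩
      rw [hS w hv, one_mul]
      have h1 := Ideal.absNorm_eq_pow_inertiaDeg'_of_liesOver w.asIdeal (bl k w).asIdeal
        (bl k w).isPrime (bl k w).ne_bot
      have h2 := nv_eq (k := k) w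
      have h3 : nv (bl k w) ^ dg k w = nv (bl k w) ^ ((bl k w).asIdeal.inertiaDeg' w.asIdeal) := by
        rw [← h2]
        exact h1
      exact Nat.pow_right_injective (two_le_nv (bl k w)) h3
  · subst hw
    have hlo : w.asIdeal.LiesOver (bl k w).asIdeal := ⟨rfl⟩
    have hval : ∀ x : k, w.valuation L (algebraMap k L x) = (bl k w).valuation k x := by
      intro x
      rw [← HeightOneSpectrum.valuation_liesOver L (bl k w) w x, hS w hv, pow_one]
    constructor
    · rintro ⟨b, hb⟩
      obtain ⟨b', hb'⟩ := HeightOneSpectrum.valuation_surjective k (bl k w) (w.valuation L b)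
      exact ⟨b', by rw [hb', ← hb, hval]⟩
    · rintro ⟨b, hb⟩
      exact ⟨algebraMap k L b, by rw [hval, hval, hb]⟩

end SC5
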