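import Pool.Agent.MP_c1dca2_ag.SC5.A1

/-!
# [SC5-A3] norms and coordinates; small generators

`norm_box`: the norm of `∑ c i • b i` is the product over the `n = [K : ℚ] = card ι` embeddings `σ : K → ℂ` of
`∑ c i σ(b i)`, and `|∑ c i σ(b i)| ≤ B ∑_i |σ(b i)|`; so `C` = a natural number above
`∏_σ ∑_i |σ(b i)|` (and at least `1`). `Ideal.absNorm_span_singleton`.

`exists_gen`: pigeonhole principle. Let `v` be a prime, `n = [K : ℚ]`, and `B` the largest natural number with
`B ^ n ≤ nv v`. The `(B + 1) ^ n > nv v` elements with coordinates in `[0, B]` (with respect to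
`RingOfIntegers.basis K`) cannot be incongruent modulo `v`, so there is `a ∈ v`, `a ≠ 0`, with coordinates of
absolute value at most `B`. By `norm_box`, `N(a) ≤ C B^n ≤ C nv v`. Write `(a) = v J` (`v ∣ (a)`):
`N(J) ≤ C`. If `a ∈ w'`, then `w' = v` or `w'` divides `J`, and then `nv w' ≤ N(J) ≤ C`. If `a ∈ v^2` then `v` divides `J`, so
`nv v ≤ C`.
-/

set_option autoImplicit false

open NumberField IsDedekindDomain

namespace SC5

theorem card_basis {K : Type} [Field K] [NumberField K] {ι : Type} [Fintype ι]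
    (b : Module.Basis ι ℤ (𝓞 K)) : Fintype.card ι = Module.finrank ℚ K := by
  rw [← RingOfIntegers.rank K, Module.finrank_eq_card_basis b]

theorem norm_box {K : Type} [Field K] [NumberField K] {ι : Type} [Fintype ι]
    (b : Module.Basis ι ℤ (𝓞 K)) : ∃ C : ℕ, 0 < C ∧ ∀ (c : ι → ℤ) (B : ℕ), (∀ i, |c i| ≤ B) →
      Ideal.absNorm (Ideal.span {el b c}) ≤ C * B ^ (Fintype.card ι) := by
  classical
  refine ⟨(ClassGroup.normBound AbsoluteValue.abs b).natAbs + 1, Nat.succ_pos _, ?_⟩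
  intro c B hc
  rw [Ideal.absNorm_span_singleton]
  have hrepr : ∀ i, b.repr (el b c) i = c i := by
    intro i
    unfold el
    rw [b.repr_sum_self]
  have h := ClassGroup.norm_le AbsoluteValue.abs b (el b c) (y := (B : ℤ)) (by
    intro k
    rw [hrepr]
    exact hc k)
  have h1 : ((Algebra.norm ℤ (el b c)).natAbs : ℤ) ≤
      (((ClassGroup.normBound AbsoluteValue.abs b).natAbs + 1 : ℕ) : ℤ) *
        (B : ℤ) ^ (Fintype.card ι) := by
    rw [Int.natCast_natAbs]
    refine le_trans h ?_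
    refine mul_le_mul_of_nonneg_right ?_ (by positivity)
    push_cast
    have := le_abs_self (ClassGroup.normBound AbsoluteValue.abs b)
    linarith
  exact_mod_cast h1

theorem A3_root (n N : ℕ) (hn : 0 < n) : ∃ B : ℕ, B ^ n ≤ N ∧ N < (B + 1) ^ n := by
  classical
  have hex : ∃ m, N < (m + 1) ^ n := ⟨N, lt_of_lt_of_le (Nat.lt_succ_self N)
    (Nat.le_self_pow hn.ne' _)⟩
  refine ⟨Nat.find hex, ?_, Nat.find_spec hex⟩
  rcases Nat.eq_zero_or_pos (Nat.find hex) with h | h
  · rw [h, zero_pow hn.ne']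
    exact Nat.zero_le _
  · have h1 := Nat.find_min hex (m := Nat.find hex - 1) (by omega)
    rw [Nat.sub_add_cancel h] at h1
    exact not_lt.1 h1

theorem A3_pigeon {K : Type} [Field K] [NumberField K] (v : Pr K) :
    ∃ c : Module.Free.ChooseBasisIndex ℤ (𝓞 K) → ℤ, ∃ B : ℕ,
      B ^ (Module.finrank ℚ K) ≤ nv v ∧ (∀ i, |c i| ≤ B) ∧
      el (RingOfIntegers.basis K) c ≠ 0 ∧ el (RingOfIntegers.basis K) c ∈ v.asIdeal := by
  classical
  set b := RingOfIntegers.basis K with hb
  have hn : 0 < Module.finrank ℚ K := Module.finrank_pos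
  obtain ⟨B, hB1, hB2⟩ := A3_root (Module.finrank ℚ K) (nv v) hn
  have hcard := card_basis b
  have hfin : Finite (𝓞 K ⧸ v.asIdeal) := by
    have h1 : Ideal.absNorm v.asIdeal ≠ 0 := by
      rw [Ne, Ideal.absNorm_eq_zero_iff]
      exact v.ne_bot
    exact Ideal.finiteQuotientOfFreeOfNeBot _ v.ne_bot
  have hcq : Nat.card (𝓞 K ⧸ v.asIdeal) = nv v := by
    unfold nv
    rw [Ideal.absNorm_apply, Submodule.cardQuot_apply]
  set f : (Module.Free.ChooseBasisIndex ℤ (𝓞 K) → Fin (B + 1)) → 𝓞 K ⧸ v.asIdeal :=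
    fun c => Ideal.Quotient.mk v.asIdeal (el b fun i => ((c i : ℕ) : ℤ)) with hf
  have hninj : ¬ Function.Injective f := by
    intro hinj
    have h1 := Nat.card_le_card_of_injective f hinj
    rw [hcq, Nat.card_eq_fintype_card, Fintype.card_fun, Fintype.card_fin, hcard] at h1
    omega
  rw [Function.not_injective_iff] at hninj
  obtain ⟨c, c', hcc, hne⟩ := hninj
  refine ⟨fun i => ((c i : ℕ) : ℤ) - ((c' i : ℕ) : ℤ), B, hB1, ?_, ?_, ?_⟩
  · intro i
    have h1 := (c i).2
    have h2 := (c' i).2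
    show |((c i : ℕ) : ℤ) - ((c' i : ℕ) : ℤ)| ≤ B
    rw [abs_le]
    constructor <;> omega
  · intro h0
    apply hne
    funext i
    have h1 : b.repr (el b fun i => ((c i : ℕ) : ℤ) - ((c' i : ℕ) : ℤ)) i = 0 := by
      rw [h0]; simp
    unfold el at h1
    rw [b.repr_sum_self] at h1
    apply Fin.ext
    omega
  · have h1 : el b (fun i => ((c i : ℕ) : ℤ) - ((c' i : ℕ) : ℤ)) =
        el b (fun i => ((c i : ℕ) : ℤ)) - el b (fun i => ((c' i : ℕ) : ℤ)) := by
      unfold el
      rw [← Finset.sum_sub_distrib]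
      exact Finset.sum_congr rfl fun i _ => sub_smul _ _ _
    rw [h1, ← Ideal.Quotient.eq]
    exact hcc

theorem exists_gen (K : Type) [Field K] [NumberField K] :
    ∃ (al : Pr K → 𝓞 K) (C : ℕ), Gen al C := by
  classical
  set b := RingOfIntegers.basis K with hb
  obtain ⟨C, hC, hbox⟩ := norm_box b
  have hcard := card_basis b
  choose c B hB1 hB2 hne hmem using fun v : Pr K => A3_pigeon v
  -- the cofactor
  have hJ : ∀ v : Pr K, ∃ J : Ideal (𝓞 K), Ideal.span {el b (c v)} = v.asIdeal * J ∧ J ≠ ⊥ ∧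
      Ideal.absNorm J ≤ C := by
    intro v
    obtain ⟨J, hJ⟩ : v.asIdeal ∣ Ideal.span {el b (c v)} := by
      rw [Ideal.dvd_span_singleton]
      exact hmem v
    have hspan : Ideal.span {el b (c v)} ≠ ⊥ := by
      rw [Ne, Ideal.span_singleton_eq_bot]
      exact hne v
    refine ⟨J, hJ, ?_, ?_⟩
    · rintro rfl
      rw [Ideal.mul_bot] at hJ
      exact hspan hJ
    · have h1 := hbox (c v) (B v) (hB2 v)
      rw [hJ, map_mul, hcard] at h1
      have h2 : nv v * Ideal.absNorm J ≤ C * nv v := by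
        refine h1.trans (Nat.mul_le_mul_left _ (hB1 v))
      rw [mul_comm C] at h2
      exact Nat.le_of_mul_le_mul_left h2 (lt_of_lt_of_le (by norm_num) (two_le_nv v))
  have hle : ∀ (v w : Pr K) (J : Ideal (𝓞 K)), J ≠ ⊥ → Ideal.absNorm J ≤ C → w.asIdeal ∣ J →
      nv w ≤ C := by
    intro v w J hJ0 hJC hw
    refine le_trans (Nat.le_of_dvd ?_ (Ideal.absNorm_dvd_absNorm_of_le (Ideal.dvd_iff_le.1 hw))) hJC
    exact Nat.pos_of_ne_zero (by rw [Ne, Ideal.absNorm_eq_zero_iff]; exact hJ0)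
  refine ⟨fun v => el b (c v), C, ?_, ?_, ?_, ?_, ?_⟩
  · exact hne
  · exact hmem
  · intro w i
    have h1 : (RingOfIntegers.basis K).repr (el b (c w)) i = c w i := by
      unfold el
      rw [b.repr_sum_self]
    rw [h1]
    have h2 : |c w i| ^ Module.finrank ℚ K ≤ (B w : ℤ) ^ Module.finrank ℚ K :=
      pow_le_pow_left₀ (abs_nonneg _) (hB2 w i) _
    refine h2.trans ?_
    exact_mod_cast hB1 w
  · intro w w' hw'
    obtain ⟨J, hJ1, hJ2, hJ3⟩ := hJ w
    have h1 : w'.asIdeal ∣ w.asIdeal * J := by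
      rw [← hJ1, Ideal.dvd_span_singleton]
      exact hw'
    rcases w'.prime.dvd_or_dvd h1 with h2 | h2
    · left
      have h3 := Ideal.dvd_iff_le.1 h2
      have h4 := (w.isMaximal.eq_of_le w'.isMaximal.ne_top h3)
      exact HeightOneSpectrum.ext h4.symm
    · exact Or.inr (hle w w' J hJ2 hJ3 h2)
  · intro w hCw hsq
    obtain ⟨J, hJ1, hJ2, hJ3⟩ := hJ w
    have h1 : w.asIdeal ^ 2 ∣ w.asIdeal * J := by
      rw [← hJ1, Ideal.dvd_span_singleton]
      exact hsq
    rw [pow_two] at h1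
    have h2 : w.asIdeal ∣ J := (mul_dvd_mul_iff_left (by simpa using w.ne_bot)).1 h1
    have := hle w w J hJ2 hJ3 h2
    omega

end SC5
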