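import Pool.Agent.MP_c1dca2_ag.SC5.A3

/-!
# [SC5-A4] elements of an ideal in a box

Let `n = card ι`, `C₁` from `norm_box` (A3), `𝔞` a nonzero ideal, `N ≥ 1`. If there is a `c ≠ 0` in the box with
`el b c ∈ 𝔞` then `N(𝔞) ≤ N(el b c) ≤ C₁ N^n` (`𝔞` divides the nonzero ideal `(el b c)`); so we may assume
`N(𝔞) ≤ C₁ N^n`. Let `h` be the largest natural number with `C₁ h^n < N(𝔞)`. If `h = 0` then `N(𝔞) ≤ C₁` and
the trivial bound `(2 N + 1)^n ≤ 3^n N^n` suffices. Let `h ≥ 1`. Attach to `c` the vector of the `⌊c i / h⌋`. If `c`, `c'` have the same vector then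
`d = c - c'` has `|d i| ≤ h`, hence `N(el b d) ≤ C₁ h^n < N(𝔞)` (`norm_box` with `B = h`), and
`el b d ∈ 𝔞`, so `el b d = 0` and `c = c'`. The number of vectors is at most `(2 N / h + 2)^n ≤ (C₂ N / h)^n ≤
C N^n / N(𝔞)` (as `h ≤ N`, because `C₁ h^n < N(𝔞) ≤ C₁ N^n`; and `N(𝔞) ≤ C₁ (h + 1)^n ≤ C₁ 2^n h^n`).
-/

set_option autoImplicit false

open NumberField IsDedekindDomain

namespace SC5

theorem a4_zero {K : Type} [Field K] [NumberField K] {ι : Type} [Fintype ι]
    (b : Module.Basis ι ℤ (𝓞 K)) (d : ι → ℤ) (h : el b d = 0) : d = 0 := by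
  funext i
  exact Fintype.linearIndependent_iff.1 b.linearIndependent d h i

theorem a4_sub {K : Type} [Field K] [NumberField K] {ι : Type} [Fintype ι]
    (b : Module.Basis ι ℤ (𝓞 K)) (c d : ι → ℤ) : el b (c - d) = el b c - el b d := by
  unfold el
  rw [← Finset.sum_sub_distrib]
  refine Finset.sum_congr rfl fun i _ => ?_
  rw [Pi.sub_apply, sub_smul]

theorem a4_norm {K : Type} [Field K] [NumberField K] (x : 𝓞 K) (hx : x ≠ 0) (I : Ideal (𝓞 K))
    (hxI : x ∈ I) : Ideal.absNorm I ≤ Ideal.absNorm (Ideal.span {x}) := by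
  have hdvd : I ∣ Ideal.span {x} := Ideal.dvd_span_singleton.2 hxI
  refine Nat.le_of_dvd (Nat.pos_of_ne_zero ?_) (map_dvd Ideal.absNorm hdvd)
  intro h
  exact hx (Ideal.span_singleton_eq_bot.1 (Ideal.absNorm_eq_zero_iff.1 h))

theorem a4_div (x : ℤ) (N g : ℕ) (hg : 0 < g) (hx : |x| ≤ N) :
    -((N / g : ℕ) : ℤ) - 1 ≤ x / g ∧ x / g ≤ ((N / g : ℕ) : ℤ) := by
  have hg' : (0 : ℤ) < g := by exact_mod_cast hg
  obtain ⟨h1, h2⟩ := abs_le.1 hx
  have h3 : (N : ℤ) < (((N / g : ℕ) : ℤ) + 1) * g := by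
    have h := Nat.lt_div_mul_add (a := N) hg
    have h' : N < (N / g + 1) * g := by
      rw [add_mul, one_mul]
      exact h
    exact_mod_cast h'
  constructor
  · rw [Int.le_ediv_iff_mul_le hg']
    have : (-((N / g : ℕ) : ℤ) - 1) * g = -((((N / g : ℕ) : ℤ) + 1) * g) := by ring
    rw [this]
    linarith
  · rw [← Int.lt_add_one_iff, Int.ediv_lt_iff_lt_mul hg']
    linarith

theorem a4_close (x y : ℤ) (g : ℕ) (hg : 0 < g) (h : x / g = y / g) : |x - y| ≤ g := by
  have hg' : (0 : ℤ) < g := by exact_mod_cast hg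
  have h1 := Int.emod_add_mul_ediv x g
  have h2 := Int.emod_add_mul_ediv y g
  have h3 := Int.emod_nonneg x hg'.ne'
  have h4 := Int.emod_nonneg y hg'.ne'
  have h5 := Int.emod_lt_of_pos x hg'
  have h6 := Int.emod_lt_of_pos y hg'
  rw [h] at h1
  rw [abs_le]
  constructor <;> linarith

theorem a4_card {ι : Type} [Fintype ι] (N g : ℕ) (hg : 0 < g) (p : (ι → ℤ) → Prop)
    (h1 : ∀ c, p c → ∀ i, |c i| ≤ N)
    (h2 : ∀ c c', p c → p c' → (∀ i, c i / (g : ℤ) = c' i / (g : ℤ)) → c = c') :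
    Nat.card {c : ι → ℤ // p c} ≤ (2 * (N / g) + 2) ^ (Fintype.card ι) := by
  classical
  set F : Finset (ι → ℤ) :=
    Fintype.piFinset (fun _ : ι => Finset.Icc (-((N / g : ℕ) : ℤ) - 1) ((N / g : ℕ) : ℤ)) with hF
  have hcard : F.card = (2 * (N / g) + 2) ^ (Fintype.card ι) := by
    rw [hF, Fintype.card_piFinset, Finset.prod_const, Finset.card_univ, Int.card_Icc]
    congr 1
    omega
  have hmem : ∀ c : {c : ι → ℤ // p c}, (fun i => c.1 i / (g : ℤ)) ∈ F := by
    intro c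
    rw [hF, Fintype.mem_piFinset]
    intro i
    rw [Finset.mem_Icc]
    exact a4_div (c.1 i) N g hg (h1 c.1 c.2 i)
  let f : {c : ι → ℤ // p c} → F := fun c => ⟨fun i => c.1 i / (g : ℤ), hmem c⟩
  have hf : Function.Injective f := by
    intro c c' h
    apply Subtype.ext
    refine h2 c.1 c'.1 c.2 c'.2 ?_
    intro i
    exact congrFun (congrArg Subtype.val h) i
  have h3 := Nat.card_le_card_of_injective f hf
  rw [Nat.card_eq_fintype_card (α := F), Fintype.card_coe, hcard] at h3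
  exact h3

theorem box_ideal {K : Type} [Field K] [NumberField K] {ι : Type} [Fintype ι]
    (b : Module.Basis ι ℤ (𝓞 K)) : ∃ C : ℝ, 0 < C ∧ ∀ N : ℕ, 1 ≤ N → ∀ I : Ideal (𝓞 K), I ≠ ⊥ →
      (Nat.card {c : ι → ℤ // (∀ i, |c i| ≤ N) ∧ c ≠ 0 ∧ el b c ∈ I} : ℝ) ≤
        C * (N : ℝ) ^ (Fintype.card ι) / Ideal.absNorm I := by
  obtain ⟨C₁, hC₁, hbox⟩ := norm_box b
  have hC8 : 0 < C₁ * 8 ^ (Fintype.card ι) := Nat.mul_pos hC₁ (pow_pos (by norm_num) _)
  refine ⟨((C₁ * 8 ^ (Fintype.card ι) : ℕ) : ℝ), by exact_mod_cast hC8, ?_⟩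
  intro N hN I hI
  have hq : 0 < Ideal.absNorm I :=
    Nat.pos_of_ne_zero fun h => hI (Ideal.absNorm_eq_zero_iff.1 h)
  have hqR : (0 : ℝ) < (Ideal.absNorm I : ℝ) := by exact_mod_cast hq
  rw [le_div_iff₀ hqR]
  suffices hmain : Nat.card {c : ι → ℤ // (∀ i, |c i| ≤ N) ∧ c ≠ 0 ∧ el b c ∈ I} * Ideal.absNorm I ≤
      C₁ * 8 ^ (Fintype.card ι) * N ^ (Fintype.card ι) by
    exact_mod_cast hmain
  rcases isEmpty_or_nonempty {c : ι → ℤ // (∀ i, |c i| ≤ N) ∧ c ≠ 0 ∧ el b c ∈ I} with he | ⟨⟨c₀, hc₀⟩⟩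
  · rw [Nat.card_of_isEmpty, zero_mul]
    exact Nat.zero_le _
  · have hqN : Ideal.absNorm I ≤ C₁ * N ^ (Fintype.card ι) := by
      refine le_trans (a4_norm _ ?_ I hc₀.2.2) (hbox c₀ N hc₀.1)
      intro h
      exact hc₀.2.1 (a4_zero b c₀ h)
    have hn : Fintype.card ι ≠ 0 := by
      intro h
      have := Fintype.card_eq_zero_iff.1 h
      exact hc₀.2.1 (funext fun i => (this.elim i))
    set n := Fintype.card ι with hn_def
    set q := Ideal.absNorm I with hq_def
    have h0 : C₁ * 0 ^ n < q := by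
      rw [zero_pow hn, mul_zero]
      exact hq
    set h := Nat.findGreatest (fun h => C₁ * h ^ n < q) N with hh
    have hP : C₁ * h ^ n < q := Nat.findGreatest_spec (P := fun h => C₁ * h ^ n < q) (Nat.zero_le N) h0
    have hhN : h ≤ N := Nat.findGreatest_le N
    have hhN' : h < N := by
      rcases lt_or_eq_of_le hhN with hlt | heq
      · exact hlt
      · exfalso
        rw [heq] at hP
        exact absurd hqN (not_le.2 hP)
    have hnP : q ≤ C₁ * (h + 1) ^ n := by
      have := Nat.findGreatest_is_greatest (P := fun h => C₁ * h ^ n < q) (n := N) (k := h + 1)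
        (by rw [← hh]; exact Nat.lt_succ_self h) hhN'
      exact not_lt.1 this
    set g := max h 1 with hg
    have hg0 : 0 < g := lt_of_lt_of_le Nat.one_pos (le_max_right _ _)
    have hgN : g ≤ N := max_le hhN hN
    have hcard := a4_card N g hg0 (fun c : ι → ℤ => (∀ i, |c i| ≤ N) ∧ c ≠ 0 ∧ el b c ∈ I)
      (fun c hc => hc.1) (by
        intro c c' hc hc' hcc
        rcases Nat.eq_zero_or_pos h with hz | hpos
        · have hg1 : g = 1 := by rw [hg, hz]; rfl
          funext i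
          have := hcc i
          rw [hg1, Nat.cast_one, Int.ediv_one, Int.ediv_one] at this
          exact this
        · have hgh : g = h := max_eq_left hpos
          by_contra hne
          have hd0 : el b (c - c') ≠ 0 := by
            intro h
            exact hne (sub_eq_zero.1 (a4_zero b _ h))
          have hdI : el b (c - c') ∈ I := by
            rw [a4_sub]
            exact I.sub_mem hc.2.2 hc'.2.2
          have h4 := hbox (c - c') h (by
            intro i
            have := a4_close (c i) (c' i) g hg0 (hcc i)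
            rw [hgh] at this
            exact this)
          exact absurd (le_trans (a4_norm _ hd0 I hdI) h4) (not_le.2 hP))
    have h5 : (2 * (N / g) + 2) * g ≤ 4 * N := by
      have := Nat.div_mul_le_self N g
      nlinarith
    have h6 : h + 1 ≤ 2 * g := by
      have : h ≤ g := le_max_left _ _
      omega
    calc Nat.card {c : ι → ℤ // (∀ i, |c i| ≤ N) ∧ c ≠ 0 ∧ el b c ∈ I} * q
        ≤ (2 * (N / g) + 2) ^ n * (C₁ * (2 * g) ^ n) :=
          Nat.mul_le_mul hcard (le_trans hnP (Nat.mul_le_mul_left _ (Nat.pow_le_pow_left h6 n)))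
      _ = C₁ * 2 ^ n * ((2 * (N / g) + 2) * g) ^ n := by
          rw [mul_pow, mul_pow]
          ring
      _ ≤ C₁ * 2 ^ n * (4 * N) ^ n := Nat.mul_le_mul_left _ (Nat.pow_le_pow_left h5 n)
      _ = C₁ * 8 ^ n * N ^ n := by
          rw [mul_pow, show (8 : ℕ) = 2 * 4 by norm_num, mul_pow]
          ring

end SC5
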