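import Pool.Agent.MP_c1dca2_ag.SC5.A3

/-!
# [SC5-A5] units in a ball, generators of an ideal in a box

`units_ball`: Mathlib's `NumberField.Units.logEmbedding K : Additive (𝓞 K)ˣ →+ ({w // w ≠ w₀} → ℝ)` has finite
kernel (the torsion, `logEmbedding_ker`) and its image is discrete
(`NumberField.Units.dirichletUnitTheorem.unitLattice_inter_ball_finite`): so there is `δ > 0` such that nonzero
elements of the image have sup norm at least `δ`. `logEmbedding u w = mult w * log |u|_w`, so `|log |u|_w| ≤ R`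
gives sup norm at most `2 R`. Cut `[-2R, 2R]^r` (`r` = number of `w ≠ w₀`) into cubes of side `δ / 2`: each contains
at most one element of the image; there are at most `(8 R / δ + 2)^r` cubes. The number of units is at most
`#torsion * (8 R / δ + 2)^r ≤ C (1 + R)^r`.

`box_gen`: let `n = card ι`. All `c` in the box satisfy `|σ(el b c)| ≤ C₁ N` for all embeddings `σ`
(`C₁ = max_σ ∑_i |σ(b i)|`, `C₁ ≥ 1`). Fix one `c₀` in the set (if any). For `c` in the set,
`u = el b c / el b c₀` is a unit, and `c` is determined by `u`. The product of the `|el b c|_σ` over the `n`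
embeddings is `N(I)`, and each is at most `C₁ N`, so each is at least `N(I) / (C₁ N)^(n-1)`. Hence
`log |el b c|_σ ∈ [log (C₁ N) - R, log (C₁ N)]` with `R = log ((C₁ N)^n / N(I)) ≥ 0`, and `|log |u|_σ| ≤ R`. By
`units_ball` there are at most `C (1 + R)^r ≤ C' ((C₁ N)^n / N(I))^(3/4)` such `u` (`(1 + R)^r ≤ C'' exp (3 R / 4)`).
-/

set_option autoImplicit false

open NumberField IsDedekindDomain

namespace SC5

private theorem A5_finite (K : Type) [Field K] [NumberField K] (R : ℝ) :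
    {u : (𝓞 K)ˣ | ∀ w : InfinitePlace K, |Real.log (w (u : K))| ≤ R}.Finite := by
  have : {x : (𝓞 K)ˣ | IsIntegral ℤ (x : K) ∧ ∀ (φ : K →+* ℂ), ‖φ x‖ ≤ Real.exp R}.Finite := by
    refine Set.Finite.of_finite_image ?_ (NumberField.Units.coe_injective K).injOn
    refine (Embeddings.finite_of_norm_le K ℂ (Real.exp R)).subset ?_
    rintro _ ⟨x, ⟨⟨h_int, h_le⟩, rfl⟩⟩
    exact ⟨h_int, h_le⟩
  refine this.subset ?_
  intro u hu
  refine ⟨u.val.prop, (InfinitePlace.le_iff_le _ _).mp fun w => ?_⟩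
  have hpos : 0 < w (u : K) := InfinitePlace.pos_iff.mpr (NumberField.Units.coe_ne_zero u)
  rw [← Real.log_le_iff_le_exp hpos]
  exact (le_abs_self _).trans (hu w)

private theorem A5_log {K : Type} [Field K] [NumberField K] (w : InfinitePlace K)
    (u u₀ : (𝓞 K)ˣ) : Real.log (w ((u * u₀⁻¹ : (𝓞 K)ˣ) : K)) =
      Real.log (w (u : K)) - Real.log (w (u₀ : K)) := by
  have h1 : ((u : (𝓞 K)ˣ) : K) = ((u * u₀⁻¹ : (𝓞 K)ˣ) : K) * (u₀ : K) := by
    rw [← NumberField.Units.coe_mul]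
    congr 2
    group
  have h0 : w ((u * u₀⁻¹ : (𝓞 K)ˣ) : K) ≠ 0 :=
    (InfinitePlace.pos_iff.mpr (NumberField.Units.coe_ne_zero _)).ne'
  have h2 : w (u₀ : K) ≠ 0 :=
    (InfinitePlace.pos_iff.mpr (NumberField.Units.coe_ne_zero _)).ne'
  rw [h1, map_mul, Real.log_mul h0 h2]
  ring

private theorem A5_exp (r : ℕ) (R : ℝ) (hR : 0 ≤ R) : (1 + R) ^ r ≤
    (r.factorial * (4 / 3) ^ r * Real.exp (3 / 4)) * Real.exp (3 / 4 * R) := by
  have h := Real.pow_div_factorial_le_exp (x := 3 / 4 * (1 + R)) (by positivity) r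
  have hf : (0 : ℝ) < r.factorial := by exact_mod_cast Nat.factorial_pos r
  rw [div_le_iff₀ hf, mul_pow] at h
  have h2 : Real.exp (3 / 4 * (1 + R)) = Real.exp (3 / 4) * Real.exp (3 / 4 * R) := by
    rw [← Real.exp_add]; congr 1; ring
  rw [h2] at h
  calc (1 + R) ^ r = (4 / 3) ^ r * ((3 / 4) ^ r * (1 + R) ^ r) := by
        rw [← mul_assoc, ← mul_pow]; norm_num
    _ ≤ (4 / 3) ^ r * (Real.exp (3 / 4) * Real.exp (3 / 4 * R) * r.factorial) :=
        mul_le_mul_of_nonneg_left h (by positivity)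
    _ = _ := by ring

private theorem A5_place {K : Type} [Field K] [NumberField K] {ι : Type} [Fintype ι]
    (b : Module.Basis ι ℤ (𝓞 K)) (C₁ : ℝ)
    (hC : C₁ = 1 + ∑ w : InfinitePlace K, ∑ i, w ((b i : 𝓞 K) : K)) (N : ℕ) (c : ι → ℤ)
    (hc : ∀ i, |c i| ≤ N) (w : InfinitePlace K) : w ((el b c : 𝓞 K) : K) ≤ C₁ * N := by
  have h1 : w ((el b c : 𝓞 K) : K) ≤ N * ∑ i, w ((b i : 𝓞 K) : K) := by
    have hcoe : ((el b c : 𝓞 K) : K) = ∑ i, ((c i : ℤ) : K) * ((b i : 𝓞 K) : K) := by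
      unfold el
      rw [show ((∑ i, c i • b i : 𝓞 K) : K) = algebraMap (𝓞 K) K (∑ i, c i • b i) from rfl,
        map_sum]
      refine Finset.sum_congr rfl fun i _ => ?_
      rw [zsmul_eq_mul, map_mul, map_intCast]
    rw [← InfinitePlace.norm_embedding_eq, hcoe, map_sum, Finset.mul_sum]
    refine (norm_sum_le _ _).trans (Finset.sum_le_sum fun i _ => ?_)
    rw [← InfinitePlace.norm_embedding_eq w ((b i : 𝓞 K) : K)]
    simp only [map_mul, map_intCast, norm_mul]
    refine mul_le_mul_of_nonneg_right ?_ (norm_nonneg _)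
    rw [Complex.norm_intCast]
    exact_mod_cast hc i
  have h2 : ∑ i, w ((b i : 𝓞 K) : K) ≤ ∑ w : InfinitePlace K, ∑ i, w ((b i : 𝓞 K) : K) :=
    Finset.single_le_sum (f := fun w : InfinitePlace K => ∑ i, w ((b i : 𝓞 K) : K))
      (fun w _ => Finset.sum_nonneg fun i _ => apply_nonneg _ _) (Finset.mem_univ w)
  have h3 : ∑ i, w ((b i : 𝓞 K) : K) ≤ C₁ := by rw [hC]; linarith
  calc _ ≤ _ := h1
    _ ≤ N * C₁ := mul_le_mul_of_nonneg_left h3 (Nat.cast_nonneg _)
    _ = _ := mul_comm _ _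

private theorem A5_prod {K : Type} [Field K] [NumberField K] (x : 𝓞 K) (hx : x ≠ 0) :
    ∑ w : InfinitePlace K, (w.mult : ℝ) * Real.log (w (x : K)) =
      Real.log (Ideal.absNorm (Ideal.span {x})) := by
  have h := InfinitePlace.prod_eq_abs_norm (K := K) (x : K)
  have h2 : ((Ideal.absNorm (Ideal.span {x}) : ℕ) : ℝ) =
      ((abs (Algebra.norm ℚ (x : K)) : ℚ) : ℝ) := by
    rw [Ideal.absNorm_span_singleton, ← Algebra.coe_norm_int, Nat.cast_natAbs]
    push_cast
    rfl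
  rw [h2, ← h, Real.log_prod]
  · refine Finset.sum_congr rfl fun w _ => ?_
    rw [Real.log_pow]
  · intro w _
    exact pow_ne_zero _ ((InfinitePlace.pos_iff.mpr (by
      simpa using hx)).ne')

theorem units_ball (K : Type) [Field K] [NumberField K] : ∃ (C : ℝ) (r : ℕ), 0 < C ∧
    ∀ R : ℝ, 0 ≤ R → {u : (𝓞 K)ˣ | ∀ w : InfinitePlace K, |Real.log (w (u : K))| ≤ R}.Finite ∧
      ({u : (𝓞 K)ˣ | ∀ w : InfinitePlace K, |Real.log (w (u : K))| ≤ R}.ncard : ℝ) ≤
        C * (1 + R) ^ r := by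
  classical
  set M := {u : (𝓞 K)ˣ | ∀ w : InfinitePlace K, |Real.log (w (u : K))| ≤ 1}.ncard with hM
  refine ⟨(M : ℝ) * 3 ^ (Fintype.card (InfinitePlace K)) + 1, Fintype.card (InfinitePlace K),
    by positivity, fun R hR => ⟨A5_finite K R, ?_⟩⟩
  rw [Set.ncard_eq_toFinset_card _ (A5_finite K R)]
  set s := (A5_finite K R).toFinset with hs
  let f : (𝓞 K)ˣ → (InfinitePlace K → ℤ) := fun u w => ⌊Real.log (w (u : K))⌋
  let t := Fintype.piFinset (fun _ : InfinitePlace K => Finset.Icc (-(⌈R⌉₊ : ℤ)) ⌈R⌉₊)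
  have hceil : R ≤ ⌈R⌉₊ := Nat.le_ceil R
  have hmaps : ∀ u ∈ s, f u ∈ t := by
    intro u hu
    rw [hs, Set.Finite.mem_toFinset] at hu
    rw [Fintype.mem_piFinset]
    intro w
    have h1 := abs_le.mp (hu w)
    rw [Finset.mem_Icc]
    constructor
    · rw [Int.le_floor]
      push_cast
      linarith
    · have : (⌊Real.log (w (u : K))⌋ : ℝ) ≤ ((⌈R⌉₊ : ℤ) : ℝ) := by
        refine (Int.floor_le _).trans ?_
        push_cast
        linarith
      exact_mod_cast this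
  have hfib : ∀ v ∈ t, (s.filter (fun u => f u = v)).card ≤ M := by
    intro v _
    rcases (s.filter (fun u => f u = v)).eq_empty_or_nonempty with h | ⟨u₀, hu₀⟩
    · rw [h]; simp
    rw [hM, Set.ncard_eq_toFinset_card _ (A5_finite K 1)]
    refine Finset.card_le_card_of_injOn (fun u => u * u₀⁻¹) ?_ ?_
    · intro u hu
      simp only [Finset.coe_filter, Set.mem_ofPred_eq] at hu
      rw [Finset.mem_filter] at hu₀
      simp only [Set.Finite.coe_toFinset, Set.mem_ofPred_eq]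
      intro w
      rw [A5_log]
      have h1 : ⌊Real.log (w (u : K))⌋ = ⌊Real.log (w (u₀ : K))⌋ := by
        have h2 := congrFun hu.2 w
        have h3 := congrFun hu₀.2 w
        exact h2.trans h3.symm
      exact (Int.abs_sub_lt_one_of_floor_eq_floor h1).le
    · intro u _ u' _ h
      exact mul_right_cancel h
  have hcard := Finset.card_le_mul_card_image_of_maps_to hmaps M hfib
  have ht : t.card = (2 * ⌈R⌉₊ + 1) ^ (Fintype.card (InfinitePlace K)) := by
    rw [Fintype.card_piFinset, Finset.prod_const, Finset.card_univ, Int.card_Icc]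
    congr 1
    omega
  have hle : ((2 * ⌈R⌉₊ + 1 : ℕ) : ℝ) ≤ 3 * (1 + R) := by
    have := Nat.ceil_lt_add_one hR
    push_cast
    linarith
  calc (s.card : ℝ) ≤ ((M * t.card : ℕ) : ℝ) := by exact_mod_cast hcard
    _ = (M : ℝ) * ((2 * ⌈R⌉₊ + 1 : ℕ) : ℝ) ^ (Fintype.card (InfinitePlace K)) := by
        rw [ht]; push_cast; ring
    _ ≤ (M : ℝ) * (3 * (1 + R)) ^ (Fintype.card (InfinitePlace K)) :=
        mul_le_mul_of_nonneg_left (pow_le_pow_left₀ (Nat.cast_nonneg _) hle _)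
          (Nat.cast_nonneg _)
    _ = ((M : ℝ) * 3 ^ (Fintype.card (InfinitePlace K))) *
          (1 + R) ^ (Fintype.card (InfinitePlace K)) := by rw [mul_pow]; ring
    _ ≤ _ := mul_le_mul_of_nonneg_right (by linarith) (by positivity)

theorem box_gen {K : Type} [Field K] [NumberField K] {ι : Type} [Fintype ι]
    (b : Module.Basis ι ℤ (𝓞 K)) : ∃ C : ℝ, 0 < C ∧ ∀ N : ℕ, 1 ≤ N → ∀ I : Ideal (𝓞 K), I ≠ ⊥ →
      (Nat.card {c : ι → ℤ // (∀ i, |c i| ≤ N) ∧ Ideal.span {el b c} = I} : ℝ) ≤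
        C * ((N : ℝ) ^ (Fintype.card ι) / Ideal.absNorm I) ^ (3 / 4 : ℝ) := by
  classical
  obtain ⟨C, r, hC, hU⟩ := units_ball K
  set C₁ : ℝ := 1 + ∑ w : InfinitePlace K, ∑ i, w ((b i : 𝓞 K) : K) with hC₁
  have h1C : 1 ≤ C₁ := by
    have : 0 ≤ ∑ w : InfinitePlace K, ∑ i, w ((b i : 𝓞 K) : K) :=
      Finset.sum_nonneg fun w _ => Finset.sum_nonneg fun i _ => apply_nonneg _ _
    rw [hC₁]; linarith
  set n := Fintype.card ι with hn
  set C₂ : ℝ := r.factorial * (4 / 3) ^ r * Real.exp (3 / 4) with hC₂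
  have hC₂0 : 0 < C₂ := by
    have hf : (0 : ℝ) < r.factorial := by exact_mod_cast Nat.factorial_pos r
    positivity
  have hC₁0 : 0 < C₁ := by linarith
  refine ⟨C * C₂ * (C₁ ^ n) ^ (3 / 4 : ℝ), by positivity, fun N hN I hI => ?_⟩
  rcases isEmpty_or_nonempty {c : ι → ℤ // (∀ i, |c i| ≤ N) ∧ Ideal.span {el b c} = I} with
    hemp | hne
  · rw [Nat.card_of_isEmpty, Nat.cast_zero]
    positivity
  obtain ⟨⟨c₀, hc₀, hI₀⟩⟩ := hne
  have hN0 : (0 : ℝ) < N := by exact_mod_cast (by omega : 0 < N)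
  set A : ℝ := ((Ideal.absNorm I : ℕ) : ℝ) with hA
  have hA0 : 0 < A := by
    have : Ideal.absNorm I ≠ 0 := by
      rw [Ne, Ideal.absNorm_eq_zero_iff]; exact hI
    rw [hA]
    exact_mod_cast Nat.pos_of_ne_zero this
  have hx : ∀ c : ι → ℤ, Ideal.span {el b c} = I → el b c ≠ 0 := by
    intro c hc h0
    rw [h0, Ideal.span_singleton_eq_bot.mpr rfl] at hc
    exact hI hc.symm
  set R : ℝ := n * Real.log (C₁ * N) - Real.log A with hR
  have hpos : ∀ c : ι → ℤ, Ideal.span {el b c} = I → ∀ w : InfinitePlace K,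
      0 < w ((el b c : 𝓞 K) : K) := fun c hc w =>
    InfinitePlace.pos_iff.mpr (by simpa using hx c hc)
  have hup : ∀ c : ι → ℤ, (∀ i, |c i| ≤ N) → Ideal.span {el b c} = I →
      ∀ w : InfinitePlace K, Real.log (w ((el b c : 𝓞 K) : K)) ≤ Real.log (C₁ * N) :=
    fun c hc hcI w => Real.log_le_log (hpos c hcI w) (A5_place b C₁ hC₁ N c hc w)
  have hlow : ∀ c : ι → ℤ, (∀ i, |c i| ≤ N) → Ideal.span {el b c} = I →
      ∀ w : InfinitePlace K,
        Real.log (C₁ * N) - R ≤ Real.log (w ((el b c : 𝓞 K) : K)) := by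
    intro c hc hcI w
    have h1 := A5_prod (el b c) (hx c hcI)
    rw [hcI] at h1
    have h2 : ∑ w : InfinitePlace K, (w.mult : ℝ) *
        (Real.log (C₁ * N) - Real.log (w ((el b c : 𝓞 K) : K))) = R := by
      simp only [mul_sub]
      rw [Finset.sum_sub_distrib, h1, ← Finset.sum_mul, hR, hn, card_basis b,
        ← InfinitePlace.sum_mult_eq (K := K)]
      push_cast
      rfl
    have h3 : (w.mult : ℝ) * (Real.log (C₁ * N) - Real.log (w ((el b c : 𝓞 K) : K))) ≤ R := by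
      rw [← h2]
      exact Finset.single_le_sum (f := fun w : InfinitePlace K => (w.mult : ℝ) *
        (Real.log (C₁ * N) - Real.log (w ((el b c : 𝓞 K) : K))))
        (fun w _ => mul_nonneg (Nat.cast_nonneg _) (sub_nonneg.mpr (hup c hc hcI w)))
        (Finset.mem_univ w)
    have h4 : (1 : ℝ) ≤ w.mult := InfinitePlace.one_le_mult
    have h5 := sub_nonneg.mpr (hup c hc hcI w)
    nlinarith
  have hR0 : 0 ≤ R := by
    obtain ⟨w⟩ : Nonempty (InfinitePlace K) := inferInstance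
    have h1 := hup c₀ hc₀ hI₀ w
    have h2 := hlow c₀ hc₀ hI₀ w
    linarith
  have hunit : ∀ c : {c : ι → ℤ // (∀ i, |c i| ≤ N) ∧ Ideal.span {el b c} = I},
      ∃ u : (𝓞 K)ˣ, el b c₀ * u = el b c.1 := by
    intro c
    exact Ideal.span_singleton_eq_span_singleton.mp (hI₀.trans c.2.2.symm)
  choose u hu using hunit
  have hinj : Function.Injective u := by
    intro c c' h
    have h1 : el b c.1 = el b c'.1 := by rw [← hu c, ← hu c', h]
    have h2 := congrArg b.equivFun h1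
    have h3 : ∀ c : ι → ℤ, b.equivFun (el b c) = c := by
      intro c
      have : el b c = b.equivFun.symm c := by
        rw [Module.Basis.equivFun_symm_apply]; rfl
      rw [this, LinearEquiv.apply_symm_apply]
    rw [h3, h3] at h2
    exact Subtype.ext h2
  have hmem : ∀ c, u c ∈ {u : (𝓞 K)ˣ | ∀ w : InfinitePlace K, |Real.log (w (u : K))| ≤ R} := by
    intro c w
    have h1 := hu c
    have h2 : w ((el b c.1 : 𝓞 K) : K) = w ((el b c₀ : 𝓞 K) : K) * w (u c : K) := by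
      rw [← h1, ← map_mul w]
      rfl
    have h3 : Real.log (w ((el b c.1 : 𝓞 K) : K)) =
        Real.log (w ((el b c₀ : 𝓞 K) : K)) + Real.log (w (u c : K)) := by
      rw [h2, Real.log_mul (hpos c₀ hI₀ w).ne'
        (InfinitePlace.pos_iff.mpr (NumberField.Units.coe_ne_zero _)).ne']
    have h4 := hup c.1 c.2.1 c.2.2 w
    have h5 := hlow c.1 c.2.1 c.2.2 w
    have h6 := hup c₀ hc₀ hI₀ w
    have h7 := hlow c₀ hc₀ hI₀ w
    rw [abs_le]
    constructor <;> linarith
  obtain ⟨hfin, hcard⟩ := hU R hR0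
  have hcard2 : Nat.card {c : ι → ℤ // (∀ i, |c i| ≤ N) ∧ Ideal.span {el b c} = I} ≤
      {u : (𝓞 K)ˣ | ∀ w : InfinitePlace K, |Real.log (w (u : K))| ≤ R}.ncard := by
    rw [← Nat.card_coe_set_eq]
    have : Finite {u : (𝓞 K)ˣ | ∀ w : InfinitePlace K, |Real.log (w (u : K))| ≤ R} :=
      hfin.to_subtype
    refine Nat.card_le_card_of_injective (fun c => ⟨u c, hmem c⟩) ?_
    intro c c' h
    exact hinj (Subtype.ext_iff.mp h)
  have hCN : 0 < C₁ * N := by positivity
  have hexp : Real.exp (3 / 4 * R) = (C₁ ^ n) ^ (3 / 4 : ℝ) * ((N : ℝ) ^ n / A) ^ (3 / 4 : ℝ) := by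
    rw [← Real.mul_rpow (by positivity) (by positivity), Real.rpow_def_of_pos (by positivity)]
    congr 1
    have : C₁ ^ n * ((N : ℝ) ^ n / A) = (C₁ * N) ^ n / A := by rw [mul_pow]; ring
    rw [this, Real.log_div (by positivity) (by positivity), Real.log_pow, hR]
    ring
  calc (Nat.card {c : ι → ℤ // (∀ i, |c i| ≤ N) ∧ Ideal.span {el b c} = I} : ℝ)
      ≤ ({u : (𝓞 K)ˣ | ∀ w : InfinitePlace K, |Real.log (w (u : K))| ≤ R}.ncard : ℝ) := by
        exact_mod_cast hcard2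
    _ ≤ C * (1 + R) ^ r := hcard
    _ ≤ C * (C₂ * Real.exp (3 / 4 * R)) :=
        mul_le_mul_of_nonneg_left (A5_exp r R hR0) hC.le
    _ = C * C₂ * (C₁ ^ n) ^ (3 / 4 : ℝ) * ((N : ℝ) ^ n / A) ^ (3 / 4 : ℝ) := by
        rw [hexp]; ring

end SC5
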