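import Pool.Agent.MP_c1dca2_ag.SC5.A1
import Pool.Agent.MP_c1dca2_ag.SC4.Z5

/-!
# [SC5-A6] upper bounds of Mertens type over the primes of a number field

`mertens_upper`: let `n = [K : ℚ]`. Every prime `v` lies above a rational prime `p` with `nv v = p^f`, `f ≥ 1`, and
there are at most `n` primes above `p` (`SC4.card_above_le`). So the sum is at most
`n ∑_{p ≤ z} ∑_{f ≥ 1} f log p / p^f ≤ n ∑_{p ≤ z} (log p / p) (1 + C₀ / p) ≤ 4 n ∑_{p ≤ z} log p / p`
(note `x ↦ log x / x` need not be monotone: use `nv v = p^f`, `log (p^f) / p^f ≤ (log p / p) * (f / p^(f-1)) ≤ 1 *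
log p / p` because `f ≤ 2^(f-1) ≤ p^(f-1)`; so every prime above `p` contributes at most `log p / p` and the sum is
at most `n ∑_{p ≤ z} log p / p`). Finally `∑_{p ≤ z} log p / p ≤ C log z` for `z ≥ 2`: for every natural number `j`,
`∑_{2^j < p ≤ 2^(j+1)} log p / p ≤ 2^(-j) θ(2^(j+1)) ≤ 2^(-j) 2^(j+1) log 4 = 2 log 4` (Chebyshev:
`primorial_le_4_pow` or `Chebyshev.theta_le_log4_mul_x`), and `j` takes at most `log z / log 2 + 1` values.

`sum_sq`: primes of norm larger than `z`: `∑ 1 / nv v ^ 2 ≤ C / z` is more than needed; here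
`∑_v (nv v)^(-2)` converges (`SC4.summable_ideals`), so the tails tend to `0`.
-/

set_option autoImplicit false

open NumberField IsDedekindDomain

namespace SC5

private theorem A6_dyadic (Y : ℝ) (hY : 0 < Y) (F : Finset ℕ)
    (hF : ∀ p ∈ F, p.Prime ∧ Y ≤ p ∧ (p : ℝ) ≤ 2 * Y) :
    ∑ p ∈ F, Real.log p / p ≤ 3 := by
  have h1 : ∑ p ∈ F, Real.log p / p ≤ ∑ p ∈ F, Real.log p / Y := by
    refine Finset.sum_le_sum fun p hp => ?_
    obtain ⟨hpp, h1, -⟩ := hF p hp
    have hp1 : (1 : ℝ) ≤ p := by exact_mod_cast hpp.one_lt.le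
    exact div_le_div_of_nonneg_left (Real.log_nonneg hp1) hY h1
  have h2 : ∑ p ∈ F, Real.log p ≤ Chebyshev.theta (2 * Y) := by
    rw [Chebyshev.theta]
    refine Finset.sum_le_sum_of_subset_of_nonneg ?_ ?_
    · intro p hp
      obtain ⟨hpp, -, h1⟩ := hF p hp
      simp only [Finset.mem_filter, Finset.mem_Ioc]
      exact ⟨⟨hpp.pos, Nat.le_floor h1⟩, hpp⟩
    · intro p hp _
      simp only [Finset.mem_filter, Finset.mem_Ioc] at hp
      exact Real.log_nonneg (by exact_mod_cast hp.1.1)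
  have h3 := Chebyshev.theta_le_log4_mul_x (x := 2 * Y) (by positivity)
  have h4 : Real.log 4 ≤ 1.5 := by
    have : Real.log 4 = 2 * Real.log 2 := by
      rw [show (4 : ℝ) = 2 ^ 2 by norm_num, Real.log_pow]; norm_num
    have := Real.log_two_lt_d9
    linarith
  rw [← Finset.sum_div] at h1
  refine h1.trans ?_
  rw [div_le_iff₀ hY]
  nlinarith

private theorem A6_fib_bound (F : Finset ℕ) (f : ℕ → ℝ) (g : ℕ → ℕ) (N : ℕ) (c : ℝ)
    (hg : ∀ p ∈ F, g p ≤ N) (hb : ∀ i, ∑ p ∈ F.filter (fun p => g p = i), f p ≤ c) :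
    ∑ p ∈ F, f p ≤ (N + 1 : ℝ) * c := by
  have h := Finset.sum_fiberwise_of_maps_to (s := F) (t := Finset.range (N + 1)) (g := g)
    (f := f) (fun p hp => Finset.mem_range.2 (Nat.lt_succ_of_le (hg p hp)))
  rw [← h]
  refine (Finset.sum_le_card_nsmul _ _ c (fun i _ => hb i)).trans ?_
  simp

private theorem A6_cheb (z : ℝ) (hz : 1 ≤ z) (F : Finset ℕ)
    (hF : ∀ p ∈ F, p.Prime ∧ (p : ℝ) ≤ z) :
    ∑ p ∈ F, Real.log p / p ≤ 5 * (1 + Real.log z) := by
  have hlz : 0 ≤ Real.log z := Real.log_nonneg hz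
  have hL : 0 ≤ Real.logb 2 z := Real.logb_nonneg (by norm_num) hz
  have h := A6_fib_bound F (fun p => Real.log p / p) (fun p => Nat.log 2 p) ⌊Real.logb 2 z⌋₊ 3
    (by
      intro p hp
      obtain ⟨hpp, h1⟩ := hF p hp
      refine Nat.le_floor ?_
      have h2 : (2 : ℝ) ^ (Nat.log 2 p) ≤ p := by exact_mod_cast Nat.pow_log_le_self 2 hpp.pos.ne'
      rw [Real.le_logb_iff_rpow_le (by norm_num) (by linarith), Real.rpow_natCast]
      exact h2.trans h1)
    (by
      intro i
      refine A6_dyadic (2 ^ i) (by positivity) _ ?_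
      intro p hp
      rw [Finset.mem_filter] at hp
      obtain ⟨hpF, hpi⟩ := hp
      obtain ⟨hpp, h1⟩ := hF p hpF
      have h2 := Nat.pow_log_le_self 2 hpp.pos.ne'
      have h3 := Nat.lt_pow_succ_log_self (b := 2) (by norm_num) p
      rw [hpi] at h2 h3
      refine ⟨hpp, by exact_mod_cast h2, ?_⟩
      have h4 : (p : ℝ) ≤ 2 ^ (i + 1) := by exact_mod_cast h3.le
      rw [pow_succ] at h4
      linarith)
  refine h.trans ?_
  have h5 : ((⌊Real.logb 2 z⌋₊ : ℕ) : ℝ) ≤ Real.logb 2 z := Nat.floor_le hL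
  have h6 : Real.logb 2 z * Real.log 2 = Real.log z := by
    rw [Real.logb]; field_simp
  have h7 := Real.log_two_gt_d9
  nlinarith

private theorem A6_below {K : Type} [Field K] [NumberField K] (v : Pr K) :
    ∃ p : ℕ, p.Prime ∧ (p : 𝓞 K) ∈ v.asIdeal ∧ p ≤ nv v ∧
      Real.log (nv v) / nv v ≤ Real.log p / p := by
  have h1 : v.asIdeal.IsPrime := v.isPrime
  have := h1
  have : NeZero v.asIdeal := ⟨v.ne_bot⟩
  have hpp := Nat.absNorm_under_prime v.asIdeal
  set p := Ideal.absNorm (Ideal.under ℤ v.asIdeal) with hpdef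
  have hspan : Ideal.span {(p : ℤ)} = Ideal.under ℤ v.asIdeal := Int.ideal_span_absNorm_eq_self _
  have : v.asIdeal.LiesOver (Ideal.span {(p : ℤ)}) := ⟨hspan⟩
  have hnorm := Ideal.absNorm_eq_pow_inertiaDeg' (R := 𝓞 K) v.asIdeal hpp
  set f := (Ideal.span {(p : ℤ)}).inertiaDeg' v.asIdeal with hf
  have hnv : nv v = p ^ f := hnorm
  have hf1 : f ≠ 0 := by
    intro h
    rw [h, pow_zero, Ideal.absNorm_eq_one_iff] at hnorm
    exact h1.ne_top hnorm
  refine ⟨p, hpp, ?_, ?_, ?_⟩
  · have hmem : (p : ℤ) ∈ Ideal.under ℤ v.asIdeal := by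
      rw [← hspan]; exact Ideal.mem_span_singleton_self _
    have := Ideal.mem_comap.mp hmem
    simpa using this
  · rw [hnv]; exact Nat.le_self_pow hf1 p
  · obtain ⟨m, hm⟩ := Nat.exists_eq_succ_of_ne_zero hf1
    have hp2 : 2 ≤ p := hpp.two_le
    have h3 : m + 1 ≤ p ^ m :=
      (Nat.succ_le_of_lt (Nat.lt_two_pow_self (n := m))).trans (Nat.pow_le_pow_left hp2 m)
    have hp0 : (0 : ℝ) < p := by exact_mod_cast hpp.pos
    have hl : 0 ≤ Real.log p := Real.log_nonneg (by exact_mod_cast hpp.one_lt.le)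
    have h4 : ((m : ℝ) + 1) ≤ (p : ℝ) ^ m := by exact_mod_cast h3
    rw [hnv, hm]
    push_cast
    rw [Real.log_pow, Nat.succ_eq_add_one, pow_succ, div_le_div_iff₀ (by positivity) hp0]
    push_cast
    have := mul_le_mul_of_nonneg_left h4 (mul_nonneg hl hp0.le)
    nlinarith

theorem mertens_upper (K : Type) [Field K] [NumberField K] : ∃ C : ℝ, 0 < C ∧ ∀ z : ℝ, 2 ≤ z →
    ∀ T : Finset (Pr K), (∀ v ∈ T, (nv v : ℝ) ≤ z) →
      ∑ v ∈ T, Real.log (nv v) / nv v ≤ C * Real.log z := by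
  classical
  have hn : 0 < Module.finrank ℚ K := Module.finrank_pos
  have hn' : (0 : ℝ) < Module.finrank ℚ K := by exact_mod_cast hn
  refine ⟨15 * Module.finrank ℚ K, by positivity, ?_⟩
  intro z hz T hT
  choose g hg using fun v : Pr K => A6_below v
  calc ∑ v ∈ T, Real.log (nv v) / nv v ≤ ∑ v ∈ T, Real.log (g v) / g v :=
        Finset.sum_le_sum fun v _ => (hg v).2.2.2
    _ = ∑ m ∈ T.image g, ∑ v ∈ T with g v = m, Real.log (g v) / g v := by
        rw [Finset.sum_fiberwise_of_maps_to]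
        intro P hP
        exact Finset.mem_image_of_mem g hP
    _ = ∑ m ∈ T.image g, ((T.filter fun v => g v = m).card : ℝ) * (Real.log m / m) := by
        apply Finset.sum_congr rfl
        intro m _
        rw [Finset.sum_congr rfl (g := fun _ => Real.log m / m)]
        · rw [Finset.sum_const, nsmul_eq_mul]
        · intro P hP
          rw [(Finset.mem_filter.mp hP).2]
    _ ≤ ∑ m ∈ T.image g, (Module.finrank ℚ K : ℝ) * (Real.log m / m) := by
        apply Finset.sum_le_sum
        intro m hm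
        obtain ⟨v, hv, hvm⟩ := Finset.mem_image.mp hm
        have hmp : m.Prime := hvm ▸ (hg v).1
        have hm1 : (1 : ℝ) ≤ m := by exact_mod_cast hmp.one_lt.le
        apply mul_le_mul_of_nonneg_right _ (div_nonneg (Real.log_nonneg hm1) (by linarith))
        have hinj : Function.Injective (fun v : Pr K => v.asIdeal) :=
          fun a b h => HeightOneSpectrum.ext h
        have := SC4.card_above_le K m hmp ((T.filter fun v => g v = m).image
          (fun v : Pr K => v.asIdeal)) (by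
          intro Q hQ
          obtain ⟨w, hw, rfl⟩ := Finset.mem_image.mp hQ
          obtain ⟨-, hwm⟩ := Finset.mem_filter.mp hw
          refine ⟨w.isPrime, w.ne_bot, ?_⟩
          rw [← hwm]
          exact (hg w).2.1)
        rw [Finset.card_image_of_injective _ hinj] at this
        exact_mod_cast this
    _ = (Module.finrank ℚ K : ℝ) * ∑ m ∈ T.image g, Real.log m / m := by
        rw [Finset.mul_sum]
    _ ≤ Module.finrank ℚ K * (5 * (1 + Real.log z)) := by
        apply mul_le_mul_of_nonneg_left _ (by positivity)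
        apply A6_cheb z (by linarith)
        intro p hp
        obtain ⟨v, hv, rfl⟩ := Finset.mem_image.mp hp
        refine ⟨(hg v).1, le_trans ?_ (hT v hv)⟩
        exact_mod_cast (hg v).2.2.1
    _ ≤ 15 * Module.finrank ℚ K * Real.log z := by
        have h1 : Real.log 2 ≤ Real.log z := Real.log_le_log (by norm_num) hz
        have h2 := Real.log_two_gt_d9
        have h3 : 5 * (1 + Real.log z) ≤ 15 * Real.log z := by linarith
        calc (Module.finrank ℚ K : ℝ) * (5 * (1 + Real.log z))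
            ≤ Module.finrank ℚ K * (15 * Real.log z) :=
              mul_le_mul_of_nonneg_left h3 hn'.le
          _ = 15 * Module.finrank ℚ K * Real.log z := by ring

theorem sum_sq (K : Type) [Field K] [NumberField K] (ε : ℝ) (hε : 0 < ε) : ∃ z : ℝ,
    ∀ T : Finset (Pr K), (∀ v ∈ T, z < nv v) → ∑ v ∈ T, ((nv v : ℝ) ^ 2)⁻¹ ≤ ε := by
  classical
  have hinj : Function.Injective (fun v : Pr K => v.asIdeal) :=
    fun a b h => HeightOneSpectrum.ext h
  have hs : Summable (fun v : Pr K => ((nv v : ℝ) ^ 2)⁻¹) := by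
    have h := (SC4.summable_ideals K 2 (by norm_num)).comp_injective hinj
    refine h.congr fun v => ?_
    simp only [Function.comp]
    rw [Real.rpow_neg (Nat.cast_nonneg _)]
    norm_num [nv]
  rw [summable_iff_vanishing_norm] at hs
  obtain ⟨s, hs⟩ := hs ε hε
  refine ⟨((s.sup nv : ℕ) : ℝ), ?_⟩
  intro T hT
  have hd : Disjoint T s := by
    rw [Finset.disjoint_left]
    intro v hv hvs
    have h1 : nv v ≤ s.sup nv := Finset.le_sup hvs
    have h2 := hT v hv
    have h3 : ((nv v : ℕ) : ℝ) ≤ ((s.sup nv : ℕ) : ℝ) := by exact_mod_cast h1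
    linarith
  exact (le_abs_self _).trans (hs T hd).le

end SC5
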