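import Pool.Agent.MP_c1dca2_ag.SC5.A6
import Pool.Agent.MP_c1dca2_ag.SC4.Z5

/-!
# [SC5-A7] `∑ 1 / nv v` over the primes of norm in `(z, z']`

Let `A(z) = ∑_{nv v ≤ z} 1 / nv v` over the primes `v` with `nv v` a prime number. There is `C` with
`|A(z) - log log z| ≤ C` for `z ≥ 3/2` (for `z` in a bounded range trivial). Let `z ≥ 3`, `δ = 1 / log z`,
`s = 1 + δ ∈ (1, 2)`. `SC4.ld_P1 K : LD (P1 K) 1` says `|∑_{v ∈ P1} nv v ^ (-s) - log log z| ≤ C₁`.
(i) `nv v ^ (-1) - nv v ^ (-s) ≤ δ log (nv v) / nv v`, so by `mertens_upper`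
`A(z) ≤ ∑ nv v ^ (-s) + C₂ ≤ log log z + C₁ + C₂`.
(ii) Tail: with `s' = 1 + δ / 2`, `nv v ^ (-s') - nv v ^ (-s) ≥ (e^(1/2) - 1) nv v ^ (-s)` for `nv v > z`, so the tail
of `∑ nv v ^ (-s)` is at most `2 (S(s') - S(s)) ≤ 2 (log 2 + 2 C₁)`.
-/

set_option autoImplicit false

open NumberField IsDedekindDomain

namespace SC5

private theorem a7_sum_le_tsum {K : Type} [Field K] [NumberField K] (g : Ideal (𝓞 K) → ℝ)
    (hg : Summable fun P : SC4.P1 K => g P.1) (h0 : ∀ P ∈ SC4.P1 K, 0 ≤ g P) (T : Finset (Pr K))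
    (hT : ∀ v ∈ T, (nv v).Prime) : ∑ v ∈ T, g v.asIdeal ≤ ∑' P : SC4.P1 K, g P.1 := by
  have hinj : Function.Injective
      (fun v : {v // v ∈ T} => (⟨v.1.asIdeal, hT v.1 v.2⟩ : SC4.P1 K)) := by
    intro v w h
    have h1 : v.1.asIdeal = w.1.asIdeal := congrArg Subtype.val h
    exact Subtype.ext (HeightOneSpectrum.ext h1)
  have h1 : ∑ P ∈ T.attach.map ⟨_, hinj⟩, g P.1 = ∑ v ∈ T, g v.asIdeal := by
    rw [Finset.sum_map]
    exact Finset.sum_attach T (fun v => g v.asIdeal)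
  rw [← h1]
  exact hg.sum_le_tsum _ fun P _ => h0 P.1 P.2

/-- the prime of norm a prime number given by an element of `P1` -/
private noncomputable def a7_e {K : Type} [Field K] [NumberField K] (P : SC4.P1 K) : Pr K :=
  ⟨P.1, SC4.P1.isPrime P.2, SC4.P1.ne_bot P.2⟩

private theorem a7_e_inj {K : Type} [Field K] [NumberField K] :
    Function.Injective (a7_e (K := K)) := by
  intro P Q h
  exact Subtype.ext (congrArg HeightOneSpectrum.asIdeal h)

/-- the primes of prime norm at most `z` -/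
private noncomputable def PB (K : Type) [Field K] [NumberField K] (z : ℝ) : Finset (Pr K) := by
  classical
  exact (finite_nv K ⌊z⌋₊).toFinset.filter fun v => (nv v).Prime

private theorem mem_PB {K : Type} [Field K] [NumberField K] {z : ℝ} (hz : 0 ≤ z) (v : Pr K) :
    v ∈ PB K z ↔ (nv v).Prime ∧ (nv v : ℝ) ≤ z := by
  unfold PB
  rw [Finset.mem_filter, Set.Finite.mem_toFinset, Set.mem_ofPred_eq, Nat.le_floor_iff hz]
  exact and_comm

private theorem a7_nv {K : Type} [Field K] [NumberField K] (v : Pr K) : (2 : ℝ) ≤ nv v := by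
  exact_mod_cast two_le_nv v

/-- the tail of the series -/
private theorem a7_tail (K : Type) [Field K] [NumberField K] : ∃ C : ℝ, ∀ z : ℝ, 3 ≤ z →
    ∀ T : Finset (Pr K), (∀ v ∈ T, (nv v).Prime ∧ z < nv v) →
      ∑ v ∈ T, (nv v : ℝ) ^ (-(1 + 1 / Real.log z)) ≤ C := by
  obtain ⟨C, hC⟩ := SC4.ld_P1 K
  refine ⟨2 * (1 + 2 * C), fun z hz T hT => ?_⟩
  have hl : 1 < Real.log z := by
    rw [Real.lt_log_iff_exp_lt (by linarith)]
    linarith [Real.exp_one_lt_d9]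
  set δ : ℝ := 1 / Real.log z with hδ
  have hδ0 : 0 < δ := by positivity
  have hδ1 : δ < 1 := by rw [hδ, div_lt_one (by linarith)]; exact hl
  have hδz : δ * Real.log z = 1 := by rw [hδ]; field_simp
  have h1 := hC (1 + δ) (by linarith) (by linarith)
  have h2 := hC (1 + δ / 2) (by linarith) (by linarith)
  have e1 : Real.log (1 / (1 + δ / 2 - 1)) = Real.log 2 + Real.log (1 / (1 + δ - 1)) := by
    rw [← Real.log_mul (by norm_num) (by rw [add_sub_cancel_left]; positivity)]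
    congr 1
    field_simp
    ring
  rw [e1] at h2
  have hlog2 : Real.log 2 ≤ 1 := by linarith [Real.log_two_lt_d9]
  have h3 : SC4.S (SC4.P1 K) (1 + δ / 2) - SC4.S (SC4.P1 K) (1 + δ) ≤ 1 + 2 * C := by
    have a1 := (abs_le.1 h1).1
    have a2 := (abs_le.1 h2).2
    linarith
  have hs1 := SC4.summable_set (SC4.P1 K) (1 + δ) (by linarith)
  have hs2 := SC4.summable_set (SC4.P1 K) (1 + δ / 2) (by linarith)
  have h4 : SC4.S (SC4.P1 K) (1 + δ / 2) - SC4.S (SC4.P1 K) (1 + δ) =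
      ∑' P : SC4.P1 K, ((Ideal.absNorm P.1 : ℝ) ^ (-(1 + δ / 2)) -
        (Ideal.absNorm P.1 : ℝ) ^ (-(1 + δ))) := (hs2.tsum_sub hs1).symm
  have h5 : ∑ v ∈ T, ((nv v : ℝ) ^ (-(1 + δ / 2)) - (nv v : ℝ) ^ (-(1 + δ))) ≤ 1 + 2 * C := by
    refine le_trans ?_ h3
    rw [h4]
    refine a7_sum_le_tsum (fun P => (Ideal.absNorm P : ℝ) ^ (-(1 + δ / 2)) -
        (Ideal.absNorm P : ℝ) ^ (-(1 + δ))) (hs2.sub hs1) (fun P hP => ?_) T fun v hv => (hT v hv).1
    have hp : (1 : ℝ) ≤ Ideal.absNorm P := by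
      have : (Ideal.absNorm P).Prime := hP
      exact_mod_cast this.one_lt.le
    exact sub_nonneg.2 (Real.rpow_le_rpow_of_exponent_le hp (by linarith))
  have h6 : (1 / 2 : ℝ) * ∑ v ∈ T, (nv v : ℝ) ^ (-(1 + δ)) ≤
      ∑ v ∈ T, ((nv v : ℝ) ^ (-(1 + δ / 2)) - (nv v : ℝ) ^ (-(1 + δ))) := by
    rw [Finset.mul_sum]
    refine Finset.sum_le_sum fun v hv => ?_
    have hv0 : (0 : ℝ) < nv v := by linarith [a7_nv v]
    have hvz : z < nv v := (hT v hv).2
    have e2 : (nv v : ℝ) ^ (-(1 + δ / 2)) = (nv v : ℝ) ^ (-(1 + δ)) * (nv v : ℝ) ^ (δ / 2) := by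
      rw [← Real.rpow_add hv0]
      congr 1
      ring
    have e3 : (3 / 2 : ℝ) ≤ (nv v : ℝ) ^ (δ / 2) := by
      have a1 : z ^ (δ / 2) ≤ (nv v : ℝ) ^ (δ / 2) :=
        Real.rpow_le_rpow (by linarith) hvz.le (by positivity)
      have a2 : z ^ (δ / 2) = Real.exp (1 / 2) := by
        rw [Real.rpow_def_of_pos (by linarith)]
        congr 1
        linear_combination (1 / 2 : ℝ) * hδz
      have a3 := Real.add_one_le_exp (1 / 2 : ℝ)
      linarith
    rw [e2]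
    have e4 : 0 < (nv v : ℝ) ^ (-(1 + δ)) := Real.rpow_pos_of_pos hv0 _
    nlinarith
  linarith

/-- Mertens -/
private theorem a7_main (K : Type) [Field K] [NumberField K] : ∃ C : ℝ, ∀ z : ℝ, 3 ≤ z →
    |∑ v ∈ PB K z, ((nv v : ℝ))⁻¹ - Real.log (Real.log z)| ≤ C := by
  obtain ⟨C₁, hC₁⟩ := SC4.ld_P1 K
  obtain ⟨C₂, hC₂0, hC₂⟩ := mertens_upper K
  obtain ⟨C₅, hC₅⟩ := a7_tail K
  refine ⟨|C₁| + |C₂| + |C₅|, fun z hz => ?_⟩
  have hl : 1 < Real.log z := by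
    rw [Real.lt_log_iff_exp_lt (by linarith)]
    linarith [Real.exp_one_lt_d9]
  have htail := hC₅ z hz
  set δ : ℝ := 1 / Real.log z with hδ
  have hδ0 : 0 < δ := by positivity
  have hδ1 : δ < 1 := by rw [hδ, div_lt_one (by linarith)]; exact hl
  have hδz : δ * Real.log z = 1 := by rw [hδ]; field_simp
  have h1 := hC₁ (1 + δ) (by linarith) (by linarith)
  have e1 : Real.log (1 / (1 + δ - 1)) = Real.log (Real.log z) := by
    rw [add_sub_cancel_left, hδ, one_div_one_div]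
  rw [e1, one_mul] at h1
  have hs1 := SC4.summable_set (SC4.P1 K) (1 + δ) (by linarith)
  have hPB := mem_PB (K := K) (z := z) (by linarith)
  -- upper bound
  have u1 : ∑ v ∈ PB K z, (nv v : ℝ) ^ (-(1 + δ)) ≤ SC4.S (SC4.P1 K) (1 + δ) :=
    a7_sum_le_tsum (fun P => (Ideal.absNorm P : ℝ) ^ (-(1 + δ))) hs1
      (fun P _ => Real.rpow_nonneg (Nat.cast_nonneg _) _) _ fun v hv => ((hPB v).1 hv).1
  have u2 : ∑ v ∈ PB K z, ((nv v : ℝ))⁻¹ ≤ ∑ v ∈ PB K z, (nv v : ℝ) ^ (-(1 + δ)) +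
      δ * ∑ v ∈ PB K z, Real.log (nv v) / nv v := by
    rw [Finset.mul_sum, ← Finset.sum_add_distrib]
    refine Finset.sum_le_sum fun v _ => ?_
    have hv0 : (0 : ℝ) < nv v := by linarith [a7_nv v]
    have e2 : (nv v : ℝ) ^ (-(1 + δ)) = ((nv v : ℝ))⁻¹ * Real.exp (-(δ * Real.log (nv v))) := by
      rw [← Real.rpow_neg_one, neg_add, Real.rpow_add hv0]
      congr 1
      rw [Real.rpow_def_of_pos hv0]
      congr 1
      ring
    have e3 := Real.add_one_le_exp (-(δ * Real.log (nv v)))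
    have e4 : 0 < ((nv v : ℝ))⁻¹ := by positivity
    have e5 : δ * (Real.log (nv v) / nv v) = ((nv v : ℝ))⁻¹ * (δ * Real.log (nv v)) := by
      rw [div_eq_mul_inv]; ring
    rw [e2, e5, ← mul_add]
    nlinarith
  have u3 : δ * ∑ v ∈ PB K z, Real.log (nv v) / nv v ≤ C₂ := by
    have := hC₂ z (by linarith) (PB K z) fun v hv => ((hPB v).1 hv).2
    calc δ * ∑ v ∈ PB K z, Real.log (nv v) / nv v ≤ δ * (C₂ * Real.log z) :=
          mul_le_mul_of_nonneg_left this hδ0.le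
      _ = C₂ := by linear_combination C₂ * hδz
  -- lower bound
  have l1 : SC4.S (SC4.P1 K) (1 + δ) ≤ ∑ v ∈ PB K z, (nv v : ℝ) ^ (-(1 + δ)) + C₅ := by
    classical
    unfold SC4.S
    refine Summable.tsum_le_of_sum_le hs1 fun T => ?_
    have e2 : ∑ P ∈ T, (Ideal.absNorm P.1 : ℝ) ^ (-(1 + δ)) =
        ∑ v ∈ T.image a7_e, (nv v : ℝ) ^ (-(1 + δ)) := by
      rw [Finset.sum_image fun P _ Q _ h => a7_e_inj h]
      rfl
    rw [e2, ← Finset.sum_filter_add_sum_filter_not _ (fun v => (nv v : ℝ) ≤ z)]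
    have hpr : ∀ v ∈ T.image a7_e, (nv v).Prime := by
      intro v hv
      obtain ⟨P, _, rfl⟩ := Finset.mem_image.1 hv
      exact P.2
    refine add_le_add ?_ ?_
    · refine Finset.sum_le_sum_of_subset_of_nonneg ?_ fun v _ _ =>
        Real.rpow_nonneg (Nat.cast_nonneg _) _
      intro v hv
      rw [Finset.mem_filter] at hv
      exact (hPB v).2 ⟨hpr v hv.1, hv.2⟩
    · refine htail _ fun v hv => ?_
      rw [Finset.mem_filter] at hv
      exact ⟨hpr v hv.1, not_le.1 hv.2⟩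
  have l2 : ∑ v ∈ PB K z, (nv v : ℝ) ^ (-(1 + δ)) ≤ ∑ v ∈ PB K z, ((nv v : ℝ))⁻¹ := by
    refine Finset.sum_le_sum fun v _ => ?_
    rw [← Real.rpow_neg_one]
    exact Real.rpow_le_rpow_of_exponent_le (by linarith [a7_nv v]) (by linarith)
  have b1 := abs_le.1 h1
  have c1 := le_abs_self C₁
  have c2 := le_abs_self C₂
  have c3 := le_abs_self C₅
  have c4 := abs_nonneg C₁
  have c5 := abs_nonneg C₂
  have c6 := abs_nonneg C₅
  rw [abs_le]
  constructor <;> linarith [b1.1, b1.2]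

private theorem a7_all (K : Type) [Field K] [NumberField K] : ∃ C : ℝ, ∀ z : ℝ, 3 / 2 ≤ z →
    |∑ v ∈ PB K z, ((nv v : ℝ))⁻¹ - Real.log (Real.log z)| ≤ C := by
  obtain ⟨C, hC⟩ := a7_main K
  refine ⟨C + 2 * |Real.log (Real.log 3)| + |Real.log (Real.log (3 / 2))|, fun z hz => ?_⟩
  have c1 := abs_nonneg (Real.log (Real.log 3))
  have c2 := abs_nonneg (Real.log (Real.log (3 / 2)))
  rcases le_or_gt 3 z with h | h
  · linarith [hC z h]
  · have h3 := hC 3 le_rfl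
    have hsub : PB K z ⊆ PB K 3 := by
      intro v hv
      rw [mem_PB (by linarith)] at hv
      rw [mem_PB (by norm_num)]
      exact ⟨hv.1, hv.2.trans h.le⟩
    have h4 : ∑ v ∈ PB K z, ((nv v : ℝ))⁻¹ ≤ ∑ v ∈ PB K 3, ((nv v : ℝ))⁻¹ :=
      Finset.sum_le_sum_of_subset_of_nonneg hsub fun v _ _ => by positivity
    have h5 : 0 ≤ ∑ v ∈ PB K z, ((nv v : ℝ))⁻¹ := Finset.sum_nonneg fun v _ => by positivity
    have hp : 0 < Real.log (3 / 2) := Real.log_pos (by norm_num)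
    have h6 : Real.log (3 / 2) ≤ Real.log z := Real.log_le_log (by norm_num) hz
    have h7 : Real.log z ≤ Real.log 3 := Real.log_le_log (by linarith) h.le
    have h8 : Real.log (Real.log (3 / 2)) ≤ Real.log (Real.log z) := Real.log_le_log hp h6
    have h9 : Real.log (Real.log z) ≤ Real.log (Real.log 3) :=
      Real.log_le_log (by linarith) h7
    have a1 := abs_le.1 h3
    have a2 := neg_abs_le (Real.log (Real.log (3 / 2)))
    have a3 := le_abs_self (Real.log (Real.log 3))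
    have a4 := neg_abs_le (Real.log (Real.log 3))
    rw [abs_le]
    constructor <;> linarith [a1.1, a1.2]

private theorem a7_diff {K : Type} [Field K] [NumberField K] {C : ℝ} (hC : ∀ z : ℝ, 3 / 2 ≤ z →
    |∑ v ∈ PB K z, ((nv v : ℝ))⁻¹ - Real.log (Real.log z)| ≤ C) {z z' : ℝ} (hz : 3 / 2 ≤ z)
    (hzz : z ≤ z') [DecidableEq (Pr K)] :
    |∑ v ∈ PB K z' \ PB K z, ((nv v : ℝ))⁻¹ - Real.log (Real.log z' / Real.log z)| ≤ 2 * C := by
  have h1 := abs_le.1 (hC z hz)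
  have h2 := abs_le.1 (hC z' (hz.trans hzz))
  have hsub : PB K z ⊆ PB K z' := by
    intro v hv
    rw [mem_PB (by linarith)] at hv ⊢
    exact ⟨hv.1, hv.2.trans hzz⟩
  have h3 := Finset.sum_sdiff (f := fun v : Pr K => ((nv v : ℝ))⁻¹) hsub
  have p1 : 0 < Real.log z := Real.log_pos (by linarith)
  have p2 : 0 < Real.log z' := Real.log_pos (by linarith)
  rw [Real.log_div p2.ne' p1.ne', abs_le]
  constructor <;> linarith [h1.1, h1.2, h2.1, h2.2]

theorem sum_lower (K : Type) [Field K] [NumberField K] : ∃ C : ℝ, ∀ z z' : ℝ, 3 / 2 ≤ z → z ≤ z' →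
    ∃ T : Finset (Pr K), (∀ v ∈ T, (nv v).Prime ∧ z < nv v ∧ (nv v : ℝ) ≤ z') ∧
      Real.log (Real.log z' / Real.log z) - C ≤ ∑ v ∈ T, ((nv v : ℝ))⁻¹ := by
  classical
  obtain ⟨C, hC⟩ := a7_all K
  refine ⟨2 * C, fun z z' hz hzz => ⟨PB K z' \ PB K z, fun v hv => ?_, ?_⟩⟩
  · rw [Finset.mem_sdiff, mem_PB (by linarith), mem_PB (by linarith)] at hv
    refine ⟨hv.1.1, ?_, hv.1.2⟩
    by_contra h
    exact hv.2 ⟨hv.1.1, not_lt.1 h⟩
  · have := (abs_le.1 (a7_diff hC hz hzz)).1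
    linarith

theorem sum_upper (K : Type) [Field K] [NumberField K] : ∃ C : ℝ, ∀ z z' : ℝ, 3 / 2 ≤ z → z ≤ z' →
    ∀ T : Finset (Pr K), (∀ v ∈ T, z < nv v ∧ (nv v : ℝ) ≤ z') →
      ∑ v ∈ T, ((nv v : ℝ))⁻¹ ≤ Real.log (Real.log z' / Real.log z) + C := by
  classical
  obtain ⟨C, hC⟩ := a7_all K
  obtain ⟨C₄, hC₄⟩ := SC4.sum_nonprime_le K
  refine ⟨2 * C + C₄, fun z z' hz hzz T hT => ?_⟩
  have h1 : ∑ v ∈ T.filter (fun v => (nv v).Prime), ((nv v : ℝ))⁻¹ ≤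
      ∑ v ∈ PB K z' \ PB K z, ((nv v : ℝ))⁻¹ := by
    refine Finset.sum_le_sum_of_subset_of_nonneg ?_ fun v _ _ => by positivity
    intro v hv
    rw [Finset.mem_filter] at hv
    rw [Finset.mem_sdiff, mem_PB (by linarith), mem_PB (by linarith)]
    exact ⟨⟨hv.2, (hT v hv.1).2⟩, fun h => absurd h.2 (not_le.2 (hT v hv.1).1)⟩
  have h2 : ∑ v ∈ T.filter (fun v => ¬ (nv v).Prime), ((nv v : ℝ))⁻¹ ≤ C₄ := by
    have e1 : ∑ v ∈ T.filter (fun v => ¬ (nv v).Prime), ((nv v : ℝ))⁻¹ =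
        ∑ P ∈ (T.filter (fun v => ¬ (nv v).Prime)).image (fun v => v.asIdeal),
          ((Ideal.absNorm P : ℝ))⁻¹ := by
      rw [Finset.sum_image fun v _ w _ h => HeightOneSpectrum.ext h]
      rfl
    rw [e1]
    refine hC₄ _ fun P hP => ?_
    obtain ⟨v, hv, rfl⟩ := Finset.mem_image.1 hP
    rw [Finset.mem_filter] at hv
    exact ⟨v.isPrime, v.ne_bot, hv.2⟩
  have h3 := (abs_le.1 (a7_diff hC hz hzz)).2
  rw [← Finset.sum_filter_add_sum_filter_not T (fun v => (nv v).Prime)]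
  linarith

end SC5
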