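import Pool.Agent.MP_c1dca2_ag.SC5.A7

/-!
# [SC5-A8] the totally split primes

Let `T'` be the set of `sum_lower` for `M` (primes `W` of `M` with `nv W` a prime number, `z < nv W ≤ z'`). Put
`v = bl k W`; `nv W = nv v ^ dg k W` is a prime number, so `dg k W = 1` and `nv v = nv W`. `M / k` is Galois, so all
primes of `M` above `v` are conjugate (`Algebra.IsInvariant.exists_smul_of_under_eq`, see `SC4.Y3_conj`) and have
the same norm, hence degree `1` over `k`; so every prime `w` of `L i` above `v` has `dg k w = 1` (there is a prime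
`W'` of `M` above `w` (`exists_bl`), `dg k W' = dg k w * dg (L i) W'` by `dg_mul`, `bl_bl`). So `v` satisfies
`Spl k L v`. At most `[M : k]` primes `W` lie above a given `v` (`card_bl`). Let `T` be the set of the `v` not in
`S`: `∑_{v ∈ T} 1 / nv v ≥ (1 / [M : k]) ∑_{W ∈ T'} 1 / nv W - #S`, and `d = 1 / [M : k]`.
-/

set_option autoImplicit false

open NumberField IsDedekindDomain

namespace SC5

/-- a prime of prime norm has degree one -/
theorem a8_dg {k M : Type} [Field k] [NumberField k] [Field M] [NumberField M] [Algebra k M]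
    (W : Pr M) (hW : (nv W).Prime) : dg k W = 1 ∧ nv (bl k W) = nv W := by
  have h1 := nv_eq (k := k) W
  have h2 := two_le_nv (bl k W)
  have h3 : dg k W = 1 := by
    have h4 : (nv (bl k W) ^ dg k W).Prime := h1 ▸ hW
    exact (Nat.Prime.eq_one_of_pow h4)
  refine ⟨h3, ?_⟩
  rw [h1, h3, pow_one]

/-- conjugate primes have the same norm -/
theorem a8_nv {k M : Type} [Field k] [NumberField k] [Field M] [NumberField M] [Algebra k M]
    [IsGalois k M] (W W' : Pr M) (h : bl k W = bl k W') : nv W' = nv W := by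
  refine SC4.Y3_conj (F := k) W.asIdeal W'.asIdeal W.isPrime W'.isPrime ?_
  exact congrArg HeightOneSpectrum.asIdeal h

theorem split_lower {k : Type} [Field k] [NumberField k] {I : Type} (L : I → Type)
    [∀ i, Field (L i)] [∀ i, NumberField (L i)] [∀ i, Algebra k (L i)] (M : Type) [Field M]
    [NumberField M] [Algebra k M] [IsGalois k M] [∀ i, Algebra (L i) M]
    [∀ i, IsScalarTower k (L i) M] (S : Finset (Pr k)) : ∃ d C : ℝ, 0 < d ∧ d ≤ 1 ∧
    ∀ z z' : ℝ, 3 / 2 ≤ z → z ≤ z' →
      ∃ T : Finset (Pr k), (∀ v ∈ T, v ∉ S ∧ Spl k L v ∧ z < nv v ∧ (nv v : ℝ) ≤ z') ∧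
        d * Real.log (Real.log z' / Real.log z) - C ≤ ∑ v ∈ T, ((nv v : ℝ))⁻¹ := by
  classical
  obtain ⟨C, hC⟩ := sum_lower M
  have hn : 0 < Module.finrank k M := Module.finrank_pos
  have hn' : (0 : ℝ) < Module.finrank k M := by exact_mod_cast hn
  have hn1 : (1 : ℝ) ≤ Module.finrank k M := by exact_mod_cast hn
  refine ⟨1 / Module.finrank k M, C / Module.finrank k M + S.card, by positivity,
    (div_le_one hn').2 hn1, fun z z' hz hzz => ?_⟩
  obtain ⟨T, hT, hs⟩ := hC z z' hz hzz
  refine ⟨(T.image (bl k)) \ S, fun v hv => ?_, ?_⟩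
  · rw [Finset.mem_sdiff, Finset.mem_image] at hv
    obtain ⟨⟨W, hW, rfl⟩, hvS⟩ := hv
    obtain ⟨hp, hz1, hz2⟩ := hT W hW
    obtain ⟨h1, h2⟩ := a8_dg (k := k) W hp
    refine ⟨hvS, fun i w hw => ?_, by rw [h2]; exact hz1, by rw [h2]; exact hz2⟩
    obtain ⟨W', hW'⟩ := exists_bl (k := L i) (L := M) w
    have h3 : bl k W' = bl k W := by rw [← bl_bl (k := k) (L := L i) W', hW', hw]
    have h4 : nv W' = nv W := a8_nv (k := k) W W' h3.symm
    have h5 : dg k W' = 1 := (a8_dg (k := k) W' (h4 ▸ hp)).1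
    have h6 := dg_mul (k := k) (L := L i) W'
    rw [h5, hW'] at h6
    exact Nat.eq_one_of_mul_eq_one_right h6.symm
  · -- sums
    have h1 : ∑ W ∈ T, ((nv W : ℝ))⁻¹ ≤
        Module.finrank k M * ∑ v ∈ T.image (bl k), ((nv v : ℝ))⁻¹ := by
      rw [← Finset.sum_fiberwise_of_maps_to (t := T.image (bl k)) (g := bl k)
        (fun W hW => Finset.mem_image_of_mem _ hW), Finset.mul_sum]
      refine Finset.sum_le_sum fun v _ => ?_
      have h2 : ∀ W ∈ T.filter (fun W => bl k W = v), ((nv W : ℝ))⁻¹ = ((nv v : ℝ))⁻¹ := by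
        intro W hW
        rw [Finset.mem_filter] at hW
        rw [← hW.2, (a8_dg (k := k) W (hT W hW.1).1).2]
      rw [Finset.sum_congr rfl h2, Finset.sum_const, nsmul_eq_mul]
      have h3 : (T.filter (fun W => bl k W = v)).card ≤ Module.finrank k M := by
        refine le_trans ?_ (card_bl (k := k) v (T.filter (fun W => bl k W = v))
          (fun W hW => (Finset.mem_filter.1 hW).2))
        rw [Finset.card_eq_sum_ones]
        exact Finset.sum_le_sum fun W _ => dg_pos (k := k) W
      have h4 : ((T.filter (fun W => bl k W = v)).card : ℝ) ≤ Module.finrank k M := by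
        exact_mod_cast h3
      exact mul_le_mul_of_nonneg_right h4 (by positivity)
    have h2 : ∑ v ∈ T.image (bl k), ((nv v : ℝ))⁻¹ ≤
        ∑ v ∈ (T.image (bl k)) \ S, ((nv v : ℝ))⁻¹ + S.card := by
      rw [← Finset.sum_inter_add_sum_sdiff (T.image (bl k)) S, add_comm]
      gcongr
      calc ∑ v ∈ T.image (bl k) ∩ S, ((nv v : ℝ))⁻¹ ≤ ∑ v ∈ T.image (bl k) ∩ S, (1 : ℝ) := by
            refine Finset.sum_le_sum fun v _ => ?_
            have h3 : (1 : ℝ) ≤ nv v := by
              have := two_le_nv v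
              exact_mod_cast (by omega : 1 ≤ nv v)
            exact inv_le_one_of_one_le₀ h3
        _ = (T.image (bl k) ∩ S).card := by simp
        _ ≤ S.card := by exact_mod_cast Finset.card_le_card Finset.inter_subset_right
    have h3 : Real.log (Real.log z' / Real.log z) - C ≤ Module.finrank k M *
        (∑ v ∈ (T.image (bl k)) \ S, ((nv v : ℝ))⁻¹ + S.card) :=
      hs.trans (h1.trans (mul_le_mul_of_nonneg_left h2 hn'.le))
    have h4 : (1 / (Module.finrank k M : ℝ)) * (Real.log (Real.log z' / Real.log z) - C) ≤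
        ∑ v ∈ (T.image (bl k)) \ S, ((nv v : ℝ))⁻¹ + S.card := by
      rw [one_div, inv_mul_le_iff₀ hn']
      exact h3
    have h5 : (1 / (Module.finrank k M : ℝ)) * (Real.log (Real.log z' / Real.log z) - C) =
        1 / (Module.finrank k M : ℝ) * Real.log (Real.log z' / Real.log z) -
          C / Module.finrank k M := by ring
    linarith

end SC5
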