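import Pool.Agent.MP_c1dca2_ag.SC5.A8

/-!
# [SC5-A9] the average of `beta`

Let `l = log (log z' / log z) ≥ 0`.

`crude_sum`: `T` splits according to the index `i`; `sum_upper` for each `L i`.

`beta_sum`: all terms are nonnegative, so we may enlarge `T` to the set of all `o` with the given properties
(finite by `finite_nv`). Write `a = 1 / 2 ^ (#J - 1)`. For `o` with `Spl k L (bl k o.2)` let `β` be the value of
`beta`: `β = 1 / 2 ^ (nJ - 2)` if `J = univ`, `β = 1 / 2 ^ (nJ - 1)` otherwise; `β ≤ a` because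
`nJ - 2 ≥ 2 #J - 2 ≥ #J - 1`.
`∑_T beta / nv = a ∑_T 1 / nv - ∑_{o ∈ T split} (a - β) / nv ≤ a #J (l + C₁) - nJ (a - β) ∑_{v} 1 / nv v`, where `v` runs
over the set of `split_lower`: above such a `v ∉ S` all primes of the `L i` have degree one, there are
`finrank k (L i)` of them (`hun`), so exactly `nJ` elements `o` of `T` with `bl k o.2 = v` (and
`nv o.2 = nv v` by `nv_eq`). So the sum is at most `a #J (l + C₁) - nJ (a - β) (d l - C₂)`.
* `#J = 1`: `a = 1`; `β ≤ 1/2` (`nJ ≥ 2`; if `J = univ` then `nJ ≥ 4`), `nJ (a - β) ≥ 1`: at most `(1 - d) l + C`.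
* `#J = 2`: `a #J = 1`, `nJ ≥ 4`, `β ≤ 1/4`, `nJ (1/2 - 1/4) ≥ 1`: at most `(1 - d) l + C`.
* `#J ≥ 3`: `a #J ≤ 3/4`, the second sum is nonnegative: at most `(3/4) l + C`.
Take `η = min d (1/4)`. (There are finitely many `J`, so the constant can be chosen uniformly.)
-/

set_option autoImplicit false

open NumberField IsDedekindDomain

namespace SC5

/-- The elements of `T` with index `i`. -/
private noncomputable def part {I : Type} {L : I → Type} [∀ i, Field (L i)]
    [∀ i, NumberField (L i)] (T : Finset (PL L)) (i : I) : Finset (Pr (L i)) :=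
  T.preimage (fun w => (⟨i, w⟩ : PL L)) (by
    intro w _ w' _ h
    have h' : (⟨i, w⟩ : Σ i, Pr (L i)) = ⟨i, w'⟩ := h
    exact eq_of_heq (Sigma.mk.inj_iff.mp h').2)

private theorem mem_part {I : Type} {L : I → Type} [∀ i, Field (L i)]
    [∀ i, NumberField (L i)] (T : Finset (PL L)) (i : I) (w : Pr (L i)) :
    w ∈ part T i ↔ (⟨i, w⟩ : PL L) ∈ T := by
  unfold part
  exact Finset.mem_preimage

/-- A finite set of pairs. -/
private def sig {I : Type} {L : I → Type} [∀ i, Field (L i)]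
    [∀ i, NumberField (L i)] (J : Finset I) (F : ∀ i, Finset (Pr (L i))) : Finset (PL L) :=
  (Finset.sigma J F : Finset (Σ i, Pr (L i)))

private theorem mem_sig {I : Type} {L : I → Type} [∀ i, Field (L i)]
    [∀ i, NumberField (L i)] (J : Finset I) (F : ∀ i, Finset (Pr (L i))) (o : PL L) :
    o ∈ sig J F ↔ o.1 ∈ J ∧ o.2 ∈ F o.1 := by
  unfold sig
  exact Finset.mem_sigma

private theorem card_sig {I : Type} {L : I → Type} [∀ i, Field (L i)]
    [∀ i, NumberField (L i)] (J : Finset I) (F : ∀ i, Finset (Pr (L i))) :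
    (sig (L := L) J F).card = ∑ i ∈ J, (F i).card := by
  unfold sig
  exact Finset.card_sigma _ _

private theorem sum_sig {I : Type} {L : I → Type} [∀ i, Field (L i)]
    [∀ i, NumberField (L i)] (J : Finset I) (F : ∀ i, Finset (Pr (L i))) (f : PL L → ℝ) :
    ∑ o ∈ sig J F, f o = ∑ i ∈ J, ∑ w ∈ F i, f ⟨i, w⟩ := by
  unfold sig
  exact Finset.sum_sigma _ _ _

private theorem sum_part {I : Type} {L : I → Type} [∀ i, Field (L i)]
    [∀ i, NumberField (L i)] (T : Finset (PL L)) (J : Finset I) (hJ : ∀ o ∈ T, o.1 ∈ J)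
    (f : PL L → ℝ) :
    ∑ o ∈ T, f o = ∑ i ∈ J, ∑ w ∈ part T i, f ⟨i, w⟩ := by
  have h1 : T = sig J (fun i => part T i) := by
    ext o
    rw [mem_sig, mem_part]
    constructor
    · intro h
      exact ⟨hJ o h, h⟩
    · intro h
      exact h.2
  rw [← sum_sig, ← h1]

private theorem J_sum {I : Type} [Fintype I] (L : I → Type) [∀ i, Field (L i)]
    [∀ i, NumberField (L i)] : ∃ C : ℝ, 0 ≤ C ∧ ∀ z z' : ℝ, 3 / 2 ≤ z → z ≤ z' →
    ∀ (J : Finset I) (T : Finset (PL L)),
      (∀ o ∈ T, o.1 ∈ J ∧ z < nv o.2 ∧ (nv o.2 : ℝ) ≤ z') →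
      ∑ o ∈ T, ((nv o.2 : ℝ))⁻¹ ≤ J.card * Real.log (Real.log z' / Real.log z) + C := by
  choose C hC using fun i => sum_upper (L i)
  refine ⟨∑ i, |C i|, Finset.sum_nonneg (fun i _ => abs_nonneg _), ?_⟩
  intro z z' hz hzz J T hT
  rw [sum_part T J (fun o ho => (hT o ho).1)]
  have h1 : ∀ i ∈ J, ∑ w ∈ part T i, ((nv w : ℝ))⁻¹ ≤
      Real.log (Real.log z' / Real.log z) + |C i| := by
    intro i _
    have h2 := hC i z z' hz hzz (part T i) (by
      intro w hw
      rw [mem_part] at hw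
      exact (hT _ hw).2)
    linarith [le_abs_self (C i)]
  calc ∑ i ∈ J, ∑ w ∈ part T i, ((nv w : ℝ))⁻¹
      ≤ ∑ i ∈ J, (Real.log (Real.log z' / Real.log z) + |C i|) := Finset.sum_le_sum h1
    _ = J.card * Real.log (Real.log z' / Real.log z) + ∑ i ∈ J, |C i| := by
        rw [Finset.sum_add_distrib, Finset.sum_const, nsmul_eq_mul]
    _ ≤ _ := by
        have := Finset.sum_le_sum_of_subset_of_nonneg (Finset.subset_univ J)
          (fun i _ _ => abs_nonneg (C i))
        linarith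

theorem crude_sum {I : Type} [Fintype I] (L : I → Type) [∀ i, Field (L i)]
    [∀ i, NumberField (L i)] : ∃ C : ℝ, ∀ z z' : ℝ, 3 / 2 ≤ z → z ≤ z' →
    ∀ T : Finset (PL L), (∀ o ∈ T, z < nv o.2 ∧ (nv o.2 : ℝ) ≤ z') →
      ∑ o ∈ T, ((nv o.2 : ℝ))⁻¹ ≤ Fintype.card I * Real.log (Real.log z' / Real.log z) + C := by
  obtain ⟨C, _, hC⟩ := J_sum L
  refine ⟨C, fun z z' hz hzz T hT => ?_⟩
  exact hC z z' hz hzz Finset.univ T (fun o ho => ⟨Finset.mem_univ _, hT o ho⟩)

private theorem l_nonneg (z z' : ℝ) (hz : 3 / 2 ≤ z) (hzz : z ≤ z') :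
    0 ≤ Real.log (Real.log z' / Real.log z) := by
  have h1 : 0 < Real.log z := Real.log_pos (by linarith)
  apply Real.log_nonneg
  rw [le_div_iff₀ h1, one_mul]
  exact Real.log_le_log (by linarith) hzz

theorem beta_sum {k : Type} [Field k] [NumberField k] {I : Type} [Fintype I] (L : I → Type)
    [∀ i, Field (L i)] [∀ i, NumberField (L i)] [∀ i, Algebra k (L i)] (M : Type) [Field M]
    [NumberField M] [Algebra k M] [IsGalois k M] [∀ i, Algebra (L i) M]
    [∀ i, IsScalarTower k (L i) M] (S : Finset (Pr k)) (h2 : ∀ i, 2 ≤ Module.finrank k (L i))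
    (h4 : 4 ≤ ∑ i, Module.finrank k (L i))
    (hun : ∀ i, ∀ v, v ∉ S → ∀ T : Finset (Pr (L i)), (∀ w, w ∈ T ↔ bl k w = v) →
      ∑ w ∈ T, dg k w = Module.finrank k (L i)) :
    ∃ η C : ℝ, 0 < η ∧ η ≤ 1 ∧ ∀ J : Finset I, J.Nonempty → ∀ z z' : ℝ, 3 / 2 ≤ z → z ≤ z' →
      ∀ T : Finset (PL L), (∀ o ∈ T, o.1 ∈ J ∧ dg k o.2 = 1 ∧ bl k o.2 ∉ S ∧ z < nv o.2 ∧
        (nv o.2 : ℝ) ≤ z') →
      ∑ o ∈ T, beta k J o / nv o.2 ≤ (1 - η) * Real.log (Real.log z' / Real.log z) + C := by
  classical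
  obtain ⟨d, C₂, hd, hd1, hlow⟩ := split_lower (k := k) L M S
  obtain ⟨C₁, hC₁, hup⟩ := J_sum L
  refine ⟨min d (1 / 4), C₁ + |C₂|, lt_min hd (by norm_num),
    le_trans (min_le_left _ _) hd1, ?_⟩
  intro J hJ z z' hz hzz T hT
  set l := Real.log (Real.log z' / Real.log z) with hl
  have hl0 : 0 ≤ l := l_nonneg z z' hz hzz
  -- the full set
  have hfin : {o : PL L | o.1 ∈ J ∧ dg k o.2 = 1 ∧ bl k o.2 ∉ S ∧ z < nv o.2 ∧
      (nv o.2 : ℝ) ≤ z'}.Finite := by
    have h1 : (⋃ i : I, (fun w : Pr (L i) => (⟨i, w⟩ : PL L)) '' {w | nv w ≤ ⌊z'⌋₊}).Finite :=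
      Set.finite_iUnion (fun i => (finite_nv (L i) _).image _)
    refine h1.subset ?_
    rintro ⟨i, w⟩ ⟨_, _, _, _, h⟩
    rw [Set.mem_iUnion]
    exact ⟨i, w, Nat.le_floor h, rfl⟩
  set U : Finset (PL L) := hfin.toFinset with hU
  have hmemU : ∀ o, o ∈ U ↔ o.1 ∈ J ∧ dg k o.2 = 1 ∧ bl k o.2 ∉ S ∧ z < nv o.2 ∧
      (nv o.2 : ℝ) ≤ z' := by
    intro o
    rw [hU, Set.Finite.mem_toFinset]
    rfl
  have hbeta : ∀ o : PL L, 0 ≤ beta k J o := by
    intro o
    unfold beta
    split_ifs <;> positivity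
  have hTU : ∑ o ∈ T, beta k J o / nv o.2 ≤ ∑ o ∈ U, beta k J o / nv o.2 := by
    apply Finset.sum_le_sum_of_subset_of_nonneg
    · intro o ho
      exact (hmemU o).mpr (hT o ho)
    · intro o _ _
      exact div_nonneg (hbeta o) (Nat.cast_nonneg _)
  refine le_trans hTU ?_
  -- the parameters
  set a : ℝ := 1 / 2 ^ (J.card - 1) with ha
  set n : ℕ := nJ k L J with hn
  set β : ℝ := if J = Finset.univ then 1 / 2 ^ (n - 2) else 1 / 2 ^ (n - 1) with hβ
  have hJ1 : 1 ≤ J.card := hJ.card_pos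
  have hn2 : 2 * J.card ≤ n := by
    rw [hn, nJ]
    calc 2 * J.card = ∑ _i ∈ J, 2 := by rw [Finset.sum_const, smul_eq_mul, mul_comm]
      _ ≤ _ := Finset.sum_le_sum (fun i _ => h2 i)
  have hn4 : J = Finset.univ → 4 ≤ n := by
    intro h
    rw [hn, nJ, h]
    exact h4
  have hpow : ∀ s t : ℕ, s ≤ t → (1 : ℝ) / 2 ^ t ≤ 1 / 2 ^ s := by
    intro s t hst
    apply one_div_le_one_div_of_le (by positivity)
    exact pow_le_pow_right₀ (by norm_num) hst
  have hβa : β ≤ a := by
    rw [hβ, ha]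
    split_ifs with h
    · apply hpow
      omega
    · apply hpow
      omega
  -- upper estimate
  have hupU : ∑ o ∈ U, ((nv o.2 : ℝ))⁻¹ ≤ J.card * l + C₁ :=
    hup z z' hz hzz J U (fun o ho => by
      have := (hmemU o).mp ho
      exact ⟨this.1, this.2.2.2⟩)
  obtain ⟨V, hV, hVl⟩ := hlow z z' hz hzz
  have hsplit : (n : ℝ) * ∑ v ∈ V, ((nv v : ℝ))⁻¹ ≤
      ∑ o ∈ U.filter (fun o => Spl k L (bl k o.2)), ((nv o.2 : ℝ))⁻¹ := by
    have h1 : ∑ o ∈ U.filter (fun o => bl k o.2 ∈ V), ((nv o.2 : ℝ))⁻¹ =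
        (n : ℝ) * ∑ v ∈ V, ((nv v : ℝ))⁻¹ := by
      rw [← Finset.sum_fiberwise_of_maps_to (s := U.filter (fun o => bl k o.2 ∈ V)) (t := V)
        (g := fun o : PL L => bl k o.2) (fun o ho => (Finset.mem_filter.mp ho).2),
        Finset.mul_sum]
      refine Finset.sum_congr rfl (fun v hv => ?_)
      obtain ⟨hvS, hvSpl, hvz, hvz'⟩ := hV v hv
      have h3 : ∀ o ∈ (U.filter (fun o => bl k o.2 ∈ V)).filter (fun o => bl k o.2 = v),
          ((nv o.2 : ℝ))⁻¹ = ((nv v : ℝ))⁻¹ := by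
        intro o ho
        rw [Finset.mem_filter] at ho
        have h4 := nv_eq (k := k) o.2
        have h5 : dg k o.2 = 1 := hvSpl o.1 o.2 ho.2
        rw [h5, pow_one, ho.2] at h4
        rw [h4]
      rw [Finset.sum_congr rfl h3, Finset.sum_const, nsmul_eq_mul]
      congr 1
      -- cardinality
      have hfinv : ∀ i, {w : Pr (L i) | bl k w = v}.Finite := fun i => finite_bl v
      have h6 : (U.filter (fun o => bl k o.2 ∈ V)).filter (fun o => bl k o.2 = v) =
          sig J (fun i => (hfinv i).toFinset) := by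
        ext o
        rw [mem_sig, Finset.mem_filter, Finset.mem_filter, hmemU,
          Set.Finite.mem_toFinset]
        constructor
        · rintro ⟨⟨⟨h7, _⟩, _⟩, h8⟩
          exact ⟨h7, h8⟩
        · rintro ⟨h7, h8⟩
          have h8' : bl k o.2 = v := h8
          have h9 : dg k o.2 = 1 := hvSpl o.1 o.2 h8'
          have h10 := nv_eq (k := k) o.2
          rw [h9, pow_one, h8'] at h10
          refine ⟨⟨⟨h7, h9, ?_, ?_, ?_⟩, ?_⟩, h8'⟩
          · rw [h8']; exact hvS
          · rw [h10]; exact hvz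
          · rw [h10]; exact hvz'
          · rw [h8']; exact hv
      rw [h6, card_sig]
      have h12 : ∑ i ∈ J, (hfinv i).toFinset.card = n := by
        rw [hn, nJ]
        refine Finset.sum_congr rfl (fun i _ => ?_)
        rw [← hun i v hvS (hfinv i).toFinset (fun w => by
          rw [Set.Finite.mem_toFinset]; rfl)]
        rw [Finset.card_eq_sum_ones]
        refine Finset.sum_congr rfl (fun w hw => ?_)
        rw [Set.Finite.mem_toFinset] at hw
        exact (hvSpl i w hw).symm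
      rw [h12]
    rw [← h1]
    apply Finset.sum_le_sum_of_subset_of_nonneg
    · intro o ho
      rw [Finset.mem_filter] at ho ⊢
      exact ⟨ho.1, (hV _ ho.2).2.1⟩
    · intro o _ _
      positivity
  -- the identity
  have hid : ∑ o ∈ U, beta k J o / nv o.2 = a * ∑ o ∈ U, ((nv o.2 : ℝ))⁻¹ -
      (a - β) * ∑ o ∈ U.filter (fun o => Spl k L (bl k o.2)), ((nv o.2 : ℝ))⁻¹ := by
    rw [Finset.sum_filter, Finset.mul_sum, Finset.mul_sum, ← Finset.sum_sub_distrib]
    refine Finset.sum_congr rfl (fun o _ => ?_)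
    by_cases h : Spl k L (bl k o.2)
    · have h1 : beta k J o = β := by
        unfold beta
        rw [if_pos h]
      rw [if_pos h, h1, div_eq_mul_inv]
      ring
    · have h1 : beta k J o = a := by
        unfold beta
        rw [if_neg h]
      rw [if_neg h, h1, div_eq_mul_inv]
      ring
  rw [hid]
  set s := ∑ v ∈ V, ((nv v : ℝ))⁻¹ with hs
  have hs0 : 0 ≤ s := Finset.sum_nonneg (fun v _ => by positivity)
  have ha0 : 0 ≤ a := by rw [ha]; positivity
  have hη1 : min d (1 / 4) ≤ d := min_le_left _ _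
  have hη2 : min d (1 / 4) ≤ 1 / 4 := min_le_right _ _
  have hab : 0 ≤ a - β := by linarith
  have hsub : (a - β) * (n * s) ≤
      (a - β) * ∑ o ∈ U.filter (fun o => Spl k L (bl k o.2)), ((nv o.2 : ℝ))⁻¹ :=
    mul_le_mul_of_nonneg_left hsplit hab
  have hmain : a * ∑ o ∈ U, ((nv o.2 : ℝ))⁻¹ ≤ a * (J.card * l + C₁) :=
    mul_le_mul_of_nonneg_left hupU ha0
  have hC2 : C₂ ≤ |C₂| := le_abs_self _
  have hC2' : 0 ≤ |C₂| := abs_nonneg _
  have ha1 : a ≤ 1 := by
    rw [ha]
    have := hpow 0 (J.card - 1) (by omega)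
    simpa using this
  have hmul1 : (1 - d) * l ≤ (1 - min d (1 / 4)) * l :=
    mul_le_mul_of_nonneg_right (by linarith) hl0
  have hmul2 : (3 / 4) * l ≤ (1 - min d (1 / 4)) * l :=
    mul_le_mul_of_nonneg_right (by linarith) hl0
  have haC : a * C₁ ≤ C₁ := by nlinarith
  -- the two small cases
  have hsmall : a * J.card = 1 → 1 ≤ (a - β) * n →
      a * ∑ o ∈ U, ((nv o.2 : ℝ))⁻¹ -
      (a - β) * ∑ o ∈ U.filter (fun o => Spl k L (bl k o.2)), ((nv o.2 : ℝ))⁻¹ ≤
      (1 - min d (1 / 4)) * l + (C₁ + |C₂|) := by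
    intro e1 e2
    have e3 : s ≤ (a - β) * n * s := by nlinarith
    have e4 : a * (J.card * l + C₁) = l + a * C₁ := by
      rw [mul_add, ← mul_assoc, e1, one_mul]
    have e5 : (a - β) * n * s = (a - β) * (n * s) := by ring
    nlinarith
  rcases Nat.lt_or_ge J.card 3 with hc | hc
  · rcases Nat.lt_or_ge J.card 2 with hc2 | hc2
    · have hc1 : J.card = 1 := by omega
      apply hsmall
      · rw [ha, hc1]; norm_num
      · have hβ2 : β ≤ 1 / 2 := by
          have h5 : (1 : ℝ) / 2 ^ 1 = 1 / 2 := by norm_num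
          rw [hβ, ← h5]
          split_ifs with h
          · apply hpow
            have := hn4 h
            omega
          · apply hpow
            omega
        have ha' : a = 1 := by rw [ha, hc1]; norm_num
        have hn' : (2 : ℝ) ≤ n := by
          have : 2 ≤ n := by omega
          exact_mod_cast this
        rw [ha']
        nlinarith
    · have hc1 : J.card = 2 := by omega
      apply hsmall
      · rw [ha, hc1]; norm_num
      · have hβ2 : β ≤ 1 / 4 := by
          have h5 : (1 : ℝ) / 2 ^ 2 = 1 / 4 := by norm_num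
          rw [hβ, ← h5]
          split_ifs with h
          · apply hpow
            omega
          · apply hpow
            omega
        have ha' : a = 1 / 2 := by rw [ha, hc1]; norm_num
        have hn' : (4 : ℝ) ≤ n := by
          have : 4 ≤ n := by omega
          exact_mod_cast this
        rw [ha']
        nlinarith
  · have key : ∀ m : ℕ, 3 ≤ m → (1 : ℝ) / 2 ^ (m - 1) * m ≤ 3 / 4 := by
      intro m hm
      induction m, hm using Nat.le_induction with
      | base => norm_num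
      | succ m hm ih =>
        have e1 : m + 1 - 1 = (m - 1) + 1 := by omega
        rw [e1, pow_succ]
        have e2 : (1 : ℝ) / (2 ^ (m - 1) * 2) * ((m + 1 : ℕ) : ℝ) =
            (1 / 2 ^ (m - 1)) * ((m + 1 : ℕ) / 2 : ℝ) := by
          field_simp
        rw [e2]
        refine le_trans ?_ ih
        apply mul_le_mul_of_nonneg_left _ (by positivity)
        push_cast
        have : (3 : ℝ) ≤ m := by exact_mod_cast hm
        linarith
    have hk := key J.card hc
    rw [← ha] at hk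
    have h7 : 0 ≤ (a - β) * (n * s) := mul_nonneg hab (mul_nonneg (Nat.cast_nonneg _) hs0)
    have h8 : a * (J.card * l + C₁) = (a * J.card) * l + a * C₁ := by ring
    have h9 : (a * J.card) * l ≤ (3 / 4) * l := mul_le_mul_of_nonneg_right hk hl0
    linarith

end SC5
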