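import Pool.Agent.MP_c1dca2_ag.SC5.A1

/-!
# [SC5-B1] averages over sign changes; the primes above a prime

`avg Q g e = 2^(-#Q) ∑_{A ⊆ Q} g (e with the signs on A changed)`. All statements are elementary. `avg_union`: the subsets of
`Q ∪ Q'` are the disjoint unions of a subset of `Q` and one of `Q'`, and the sign changes compose. `avg_mul`: the
function `x` in `avg Q (...) 1` is `-1` on `A` and `1` elsewhere. `avg_count`: if the sets `A ⊆ Q` for which `g` is not zero
inject into the subsets of `Q'`, `g ≤ 1`, then the average is at most `2^#Q' / 2^#Q`.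
-/

set_option autoImplicit false

open NumberField IsDedekindDomain

noncomputable section

namespace SC5

section avg

variable {X : Type} [DecidableEq X]

theorem avg_eq (Q : Finset X) (g : (X → ℤˣ) → ℝ) (e : X → ℤˣ) :
    avg Q g e = (∑ A ∈ Q.powerset, g (fun q => if q ∈ A then -e q else e q)) / 2 ^ Q.card := by
  unfold avg
  congr 1
  refine Finset.sum_congr rfl fun A _ => ?_
  congr 1
  funext q
  split_ifs <;> rfl

theorem avg_nonneg (Q : Finset X) (g : (X → ℤˣ) → ℝ) (hg : ∀ e, 0 ≤ g e) (e : X → ℤˣ) :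
    0 ≤ avg Q g e := by
  rw [avg_eq]
  exact div_nonneg (Finset.sum_nonneg fun A _ => hg _) (by positivity)

theorem avg_mono (Q : Finset X) (g g' : (X → ℤˣ) → ℝ) (hg : ∀ e, g e ≤ g' e) (e : X → ℤˣ) :
    avg Q g e ≤ avg Q g' e := by
  rw [avg_eq, avg_eq]
  exact div_le_div_of_nonneg_right (Finset.sum_le_sum fun A _ => hg _) (by positivity)

theorem avg_const (Q : Finset X) (c : ℝ) (e : X → ℤˣ) : avg Q (fun _ => c) e = c := by
  rw [avg_eq, Finset.sum_const, Finset.card_powerset, nsmul_eq_mul]
  push_cast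
  field_simp

theorem avg_empty (g : (X → ℤˣ) → ℝ) (e : X → ℤˣ) : avg ∅ g e = g e := by
  rw [avg_eq]
  simp

theorem avg_union (Q Q' : Finset X) (h : Disjoint Q Q') (g : (X → ℤˣ) → ℝ) (e : X → ℤˣ) :
    avg (Q ∪ Q') g e = avg Q (fun e' => avg Q' g e') e := by
  rw [avg_eq, avg_eq]
  have h1 : ∀ A ∈ Q.powerset, avg Q' g (fun q => if q ∈ A then -e q else e q) =
      (∑ B ∈ Q'.powerset, g (fun q => if q ∈ A ∪ B then -e q else e q)) / 2 ^ Q'.card := by
    intro A hA
    rw [avg_eq]
    congr 1
    refine Finset.sum_congr rfl fun B hB => ?_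
    congr 1
    funext q
    rw [Finset.mem_powerset] at hA hB
    by_cases hqA : q ∈ A
    · have hqB : q ∉ B := fun hq => Finset.disjoint_left.mp h (hA hqA) (hB hq)
      simp [hqA, hqB]
    · simp [hqA]
  rw [Finset.sum_congr rfl h1, ← Finset.sum_div, div_div, ← Finset.sum_product']
  rw [Finset.card_union_of_disjoint h, pow_add, mul_comm ((2 : ℝ) ^ Q.card)]
  congr 1
  symm
  refine Finset.sum_bij' (fun p _ => p.1 ∪ p.2) (fun C _ => (C ∩ Q, C ∩ Q')) ?_ ?_ ?_ ?_ ?_
  · intro p hp
    rw [Finset.mem_product, Finset.mem_powerset, Finset.mem_powerset] at hp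
    rw [Finset.mem_powerset]
    exact Finset.union_subset_union hp.1 hp.2
  · intro C hC
    rw [Finset.mem_product, Finset.mem_powerset, Finset.mem_powerset]
    exact ⟨Finset.inter_subset_right, Finset.inter_subset_right⟩
  · intro p hp
    rw [Finset.mem_product, Finset.mem_powerset, Finset.mem_powerset] at hp
    ext q
    · simp only [Finset.mem_inter, Finset.mem_union]
      constructor
      · rintro ⟨h1 | h1, h2⟩
        · exact h1
        · exact absurd (hp.2 h1) (Finset.disjoint_left.mp h h2)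
      · intro h1
        exact ⟨Or.inl h1, hp.1 h1⟩
    · simp only [Finset.mem_inter, Finset.mem_union]
      constructor
      · rintro ⟨h1 | h1, h2⟩
        · exact absurd h2 (Finset.disjoint_left.mp h (hp.1 h1))
        · exact h1
      · intro h1
        exact ⟨Or.inr h1, hp.2 h1⟩
  · intro C hC
    rw [Finset.mem_powerset] at hC
    simp only
    rw [← Finset.inter_union_distrib_left]
    exact Finset.inter_eq_left.mpr hC
  · intro p hp
    rfl

/-- `avg Q g` is local on `U` if `g` is. -/
theorem avg_loc (Q U : Finset X) (g : (X → ℤˣ) → ℝ)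
    (hg : ∀ e e', (∀ q ∈ U, e q = e' q) → g e = g e') (e e' : X → ℤˣ)
    (he : ∀ q ∈ U, e q = e' q) : avg Q g e = avg Q g e' := by
  rw [avg_eq, avg_eq]
  congr 1
  refine Finset.sum_congr rfl fun A _ => hg _ _ fun q hq => ?_
  simp only [he q hq]

theorem avg_mul (Q : Finset X) (g : (X → ℤˣ) → ℝ) (e : X → ℤˣ) :
    avg Q (fun x => g (fun q => e q * x q)) 1 = avg Q g e := by
  rw [avg_eq, avg_eq]
  congr 1
  refine Finset.sum_congr rfl fun A _ => ?_
  congr 1
  funext q
  simp only [Pi.one_apply]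
  split_ifs <;> simp

theorem avg_congr (Q : Finset X) (g g' : (X → ℤˣ) → ℝ) (e : X → ℤˣ)
    (h : ∀ A ⊆ Q, g (fun q => if q ∈ A then -e q else e q) =
      g' (fun q => if q ∈ A then -e q else e q)) : avg Q g e = avg Q g' e := by
  rw [avg_eq, avg_eq]
  congr 1
  exact Finset.sum_congr rfl fun A hA => h A (Finset.mem_powerset.mp hA)

/-- Transport along an injection. -/
theorem avg_map {Y : Type} [DecidableEq Y] (f : Y → X) (hf : Function.Injective f)
    (Q : Finset Y) (g : (Y → ℤˣ) → ℝ) (e : X → ℤˣ) :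
    avg (Q.image f) (fun x => g (fun y => x (f y))) e = avg Q g (fun y => e (f y)) := by
  rw [avg_eq, avg_eq, Finset.card_image_of_injective Q hf]
  congr 1
  symm
  refine Finset.sum_bij' (fun A _ => A.image f) (fun C _ => Q.filter (fun y => f y ∈ C))
    ?_ ?_ ?_ ?_ ?_
  · intro A hA
    rw [Finset.mem_powerset] at hA ⊢
    exact Finset.image_subset_image hA
  · intro C hC
    rw [Finset.mem_powerset]
    exact Finset.filter_subset _ _
  · intro A hA
    rw [Finset.mem_powerset] at hA
    ext y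
    simp only [Finset.mem_filter, Finset.mem_image]
    constructor
    · rintro ⟨_, z, hz, hzy⟩
      rw [← hf hzy]
      exact hz
    · intro hy
      exact ⟨hA hy, y, hy, rfl⟩
  · intro C hC
    rw [Finset.mem_powerset] at hC
    ext x
    simp only [Finset.mem_filter, Finset.mem_image]
    constructor
    · rintro ⟨y, ⟨_, hy⟩, rfl⟩
      exact hy
    · intro hx
      obtain ⟨y, hy, rfl⟩ := Finset.mem_image.mp (hC hx)
      exact ⟨y, ⟨hy, hx⟩, rfl⟩
  · intro A hA
    congr 1
    funext y
    have : (f y ∈ A.image f) ↔ y ∈ A := by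
      rw [Finset.mem_image]
      constructor
      · rintro ⟨z, hz, hzy⟩
        rw [← hf hzy]
        exact hz
      · intro hy
        exact ⟨y, hy, rfl⟩
    simp only [this]

theorem avg_count (Q Q' : Finset X) (g : (X → ℤˣ) → ℝ) (hg : ∀ e, g e ≤ 1) (e : X → ℤˣ)
    (F : Finset X → Finset X) (hF : ∀ A ⊆ Q, F A ⊆ Q')
    (hinj : ∀ A ⊆ Q, ∀ A' ⊆ Q, 0 < g (fun q => if q ∈ A then -e q else e q) →
      0 < g (fun q => if q ∈ A' then -e q else e q) → F A = F A' → A = A') :
    avg Q g e ≤ 2 ^ Q'.card / 2 ^ Q.card := by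
  classical
  rw [avg_eq]
  refine div_le_div_of_nonneg_right ?_ (by positivity)
  set G : Finset (Finset X) := Q.powerset.filter
    (fun A => 0 < g (fun q => if q ∈ A then -e q else e q)) with hG
  have h1 : ∑ A ∈ Q.powerset, g (fun q => if q ∈ A then -e q else e q) ≤
      ∑ A ∈ Q.powerset, if A ∈ G then (1 : ℝ) else 0 := by
    refine Finset.sum_le_sum fun A hA => ?_
    by_cases hp : 0 < g (fun q => if q ∈ A then -e q else e q)
    · have hAG : A ∈ G := Finset.mem_filter.mpr ⟨hA, hp⟩
      rw [if_pos hAG]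
      exact hg _
    · have hAG : A ∉ G := fun h => hp (Finset.mem_filter.mp h).2
      rw [if_neg hAG]
      exact not_lt.mp hp
  have h2 : ∑ A ∈ Q.powerset, (if A ∈ G then (1 : ℝ) else 0) = G.card := by
    rw [Finset.sum_ite_mem, Finset.sum_const, nsmul_eq_mul, mul_one]
    congr 2
    exact Finset.inter_eq_right.mpr (Finset.filter_subset _ _)
  have h3 : G.card ≤ Q'.powerset.card := by
    refine Finset.card_le_card_of_injOn F ?_ ?_
    · intro A hA
      have hA' := Finset.mem_filter.mp (Finset.mem_coe.mp hA)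
      exact Finset.mem_coe.mpr (Finset.mem_powerset.mpr (hF A (Finset.mem_powerset.mp hA'.1)))
    · intro A hA A' hA' hAA'
      have hA1 := Finset.mem_filter.mp (Finset.mem_coe.mp hA)
      have hA2 := Finset.mem_filter.mp (Finset.mem_coe.mp hA')
      exact hinj A (Finset.mem_powerset.mp hA1.1) A' (Finset.mem_powerset.mp hA2.1) hA1.2 hA2.2
        hAA'
  rw [Finset.card_powerset] at h3
  calc _ ≤ (G.card : ℝ) := h1.trans_eq h2
    _ ≤ ((2 ^ Q'.card : ℕ) : ℝ) := by exact_mod_cast h3
    _ = 2 ^ Q'.card := by push_cast; rfl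

end avg

open scoped Classical in
/-- The elements of index in `J` above the prime of `k` below `o`. -/
def up (k : Type) [Field k] [NumberField k] {I : Type} {L : I → Type} [∀ i, Field (L i)]
    [∀ i, NumberField (L i)] [∀ i, Algebra k (L i)] (J : Finset I) (o : PL L) :
    Finset (PL L) :=
  if h : {q : PL L | q.1 ∈ J ∧ bl k q.2 = bl k o.2}.Finite then h.toFinset else ∅

theorem finite_up {k : Type} [Field k] [NumberField k] {I : Type} {L : I → Type}
    [∀ i, Field (L i)] [∀ i, NumberField (L i)] [∀ i, Algebra k (L i)] (J : Finset I)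
    (o : PL L) : {q : PL L | q.1 ∈ J ∧ bl k q.2 = bl k o.2}.Finite := by
  have h1 : (⋃ i ∈ J, (fun w : Pr (L i) => (⟨i, w⟩ : PL L)) '' {w | bl k w = bl k o.2}).Finite := by
    refine Set.Finite.biUnion J.finite_toSet fun i _ => ?_
    exact (finite_bl _).image _
  refine h1.subset ?_
  rintro ⟨i, w⟩ ⟨hi, hw⟩
  simp only [Set.mem_iUnion]
  exact ⟨i, hi, w, hw, rfl⟩

theorem mem_up {k : Type} [Field k] [NumberField k] {I : Type} {L : I → Type}
    [∀ i, Field (L i)] [∀ i, NumberField (L i)] [∀ i, Algebra k (L i)] (J : Finset I)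
    (o q : PL L) : q ∈ up k J o ↔ q.1 ∈ J ∧ bl k q.2 = bl k o.2 := by
  rw [up, dif_pos (finite_up J o), Set.Finite.mem_toFinset]
  rfl

end SC5
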