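import Pool.Agent.MP_c1dca2_ag.SC5.B1

/-!
# [SC5-B2] the proportion of the sign vectors satisfying the relation

Let `v = bl k o.2`, `f_q = dg k q.2`. Let `A, A' ⊆ up k J o` be such that the relation holds for the sign vectors `e_A`, `e_A'`
(`e` changed on `A`, resp. `A'`). For `q, q' ≠ o` above `v`, `q ≠ q'`, `m = lcm(f_q, f_q')`, the relation gives
`e_A(q)^(m/f_q) e_A(q')^(m/f_q') = e_A'(q)^(m/f_q) e_A'(q')^(m/f_q')`; so with `D` the symmetric difference of `A` and `A'`:
(*) `[q ∈ D] (m/f_q) + [q' ∈ D] (m/f_q')` is even.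
`m / f_q` is odd iff the 2-adic valuation of `f_q` is at least that of `f_q'`.
In all cases we use `avg_count` with `F A = A ∩ Q'` (or `A \ Q''`).

General case: for each `i ∈ J` choose `q_i` of index `i` above `v` with `q_i ≠ o` (the degrees of the primes of `L i` above `v`
sum up to `finrank k (L i) ≥ 2`, `hun`, `h2`, so there is at least one and, if `i = o.1`, as `dg k o.2 = 1`, one different
from `o`). Let `i₀ ∈ J` be such that the 2-adic valuation of `f_{q_i}` is minimal for `i = i₀`. Claim: if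
`q_{i₀} ∉ D` then no `q_i` (`i ∈ J`) is in `D`: (*) for `q = q_{i₀}`, `q' = q_i`, where `m / f_{q'}` is odd. So with
`Q'' = {q_i | i ∈ J, i ≠ i₀}` (of size `#J - 1`; the `q_i` have different indices) and `Q' = up k J o \ Q''` the map
`A ↦ A ∩ Q'` is injective on the good `A` (if `A ∩ Q' = A' ∩ Q'` then `D ⊆ Q''`, `q_{i₀} ∉ D`, so `D` is empty).
`avg ≤ 2^(-(#J - 1))`.

`Spl`, `J = univ`: all `f_q = 1`, (*) says: for all `q ≠ q'` different from `o`: `q ∈ D ↔ q' ∈ D`. `up k univ o` has
`nJ k L univ` elements (`hun`), at least `4` (`h4`). Fix `q₀ ≠ o`. `Q' = {o, q₀}`: `avg ≤ 2^2 / 2^nJ = 2^(-(nJ - 2))`.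

`Spl`, `J ≠ univ`: let `i' ∉ J`, `q'` above `v` of index `i'` (exists by `hun`). `q' ≠ o` (`o.1 ∈ J`), `q' ∉ D`. So (*)
gives `q ∉ D` for all `q ≠ o` in `up k J o`: `Q' = {o}`, `avg ≤ 2 / 2^nJ = 2^(-(nJ - 1))`.
-/

set_option autoImplicit false

open NumberField IsDedekindDomain

namespace SC5

theorem units_pow_odd (u : ℤˣ) (n : ℕ) (hn : Odd n) : u ^ n = u := by
  obtain ⟨m, rfl⟩ := hn
  rw [pow_succ, pow_mul, Int.units_sq, one_pow, one_mul]

theorem odd_lcm_div {f f' : ℕ} (hf : 0 < f) (hf' : 0 < f')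
    (h : padicValNat 2 f ≤ padicValNat 2 f') : Odd (Nat.lcm f f' / f') := by
  have hg : 0 < Nat.gcd f f' := Nat.gcd_pos_of_pos_left _ hf
  have h1 : Nat.lcm f f' / f' = f / Nat.gcd f f' := by
    rw [Nat.lcm, Nat.mul_div_assoc _ (Nat.gcd_dvd_right f f'), mul_comm,
      Nat.mul_comm (f' / Nat.gcd f f') f]
    obtain ⟨a, ha⟩ := Nat.gcd_dvd_left f f'
    obtain ⟨b, hb⟩ := Nat.gcd_dvd_right f f'
    have hb0 : 0 < b := by
      rcases Nat.eq_zero_or_pos b with h0 | h0
      · rw [h0, mul_zero] at hb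
        omega
      · exact h0
    have e1 : f' / Nat.gcd f f' = b := Nat.div_eq_of_eq_mul_right hg hb
    have e2 : f / Nat.gcd f f' = a := Nat.div_eq_of_eq_mul_right hg ha
    rw [e1, e2]
    refine Nat.div_eq_of_eq_mul_right hf' ?_
    nth_rewrite 1 [ha]
    nth_rewrite 2 [hb]
    ring
  rw [h1, ← Nat.not_even_iff_odd]
  intro hev
  obtain ⟨a, ha⟩ := hev.two_dvd
  have h2 : 2 ^ padicValNat 2 f ∣ Nat.gcd f f' :=
    Nat.dvd_gcd pow_padicValNat_dvd ((pow_dvd_pow 2 h).trans pow_padicValNat_dvd)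
  have h3 : f = Nat.gcd f f' * (2 * a) := by
    rw [← ha]
    exact (Nat.mul_div_cancel' (Nat.gcd_dvd_left f f')).symm
  refine pow_succ_padicValNat_not_dvd (p := 2) hf.ne' ?_
  obtain ⟨c, hc⟩ := h2
  refine ⟨c * a, ?_⟩
  nth_rewrite 1 [h3]
  rw [hc, pow_succ]
  ring

section

variable {k : Type} [Field k] [NumberField k] {I : Type} {L : I → Type}
    [∀ i, Field (L i)] [∀ i, NumberField (L i)] [∀ i, Algebra k (L i)]

theorem agree_of_rel [DecidableEq (PL L)] (o : PL L) (E : PL L → PL L → ℤˣ) (e : PL L → ℤˣ)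
    (A A' : Finset (PL L)) (hA : Rel k E o (fun q => if q ∈ A then -e q else e q))
    (hA' : Rel k E o (fun q => if q ∈ A' then -e q else e q)) (q q' : PL L)
    (hq : bl k q.2 = bl k o.2) (hq' : bl k q'.2 = bl k o.2) (hqo : q ≠ o) (hq'o : q' ≠ o)
    (hqq' : q ≠ q') (hv : padicValNat 2 (dg k q.2) ≤ padicValNat 2 (dg k q'.2))
    (h : q ∈ A ↔ q ∈ A') : q' ∈ A ↔ q' ∈ A' := by
  have h1 := (hA q q' hq hq' hqo hq'o hqq').trans (hA' q q' hq hq' hqo hq'o hqq').symm
  have hodd := odd_lcm_div (dg_pos (k := k) q.2) (dg_pos (k := k) q'.2) hv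
  simp only at h1
  rw [units_pow_odd _ _ hodd, units_pow_odd _ _ hodd] at h1
  have h2 : (if q ∈ A then -e q else e q) = (if q ∈ A' then -e q else e q) := by
    simp only [h]
  rw [h2] at h1
  have h3 := mul_left_cancel h1
  have hne : -e q' ≠ e q' := by
    intro h4
    have h5 := congrArg (fun u : ℤˣ => (u : ℤ)) h4
    rcases Int.units_eq_one_or (e q') with h6 | h6 <;> rw [h6] at h5 <;> simp at h5
  by_cases m1 : q' ∈ A <;> by_cases m2 : q' ∈ A'
  · exact ⟨fun _ => m2, fun _ => m1⟩
  · rw [if_pos m1, if_neg m2] at h3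
    exact absurd h3 hne
  · rw [if_neg m1, if_pos m2] at h3
    exact absurd h3.symm hne
  · exact ⟨fun h => absurd h m1, fun h => absurd h m2⟩

open scoped Classical in
theorem avg_rel_le (o : PL L) (J : Finset I)
    (E : PL L → PL L → ℤˣ) (e : PL L → ℤˣ) (Q' : Finset (PL L)) (hQ' : Q' ⊆ up k J o)
    (h : ∀ A ⊆ up k J o, ∀ A' ⊆ up k J o, Rel k E o (fun q => if q ∈ A then -e q else e q) →
      Rel k E o (fun q => if q ∈ A' then -e q else e q) → (∀ q ∈ Q', (q ∈ A ↔ q ∈ A')) →
      ∀ q ∈ up k J o, (q ∈ A ↔ q ∈ A')) :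
    avg (up k J o) (fun e => if Rel k E o e then (1 : ℝ) else 0) e ≤
      1 / 2 ^ ((up k J o).card - Q'.card) := by
  have h1 := avg_count (up k J o) Q' (fun e => if Rel k E o e then (1 : ℝ) else 0)
    (fun e => by split_ifs <;> norm_num) e (fun A => A ∩ Q')
    (fun A _ => Finset.inter_subset_right) (by
      intro A hA A' hA' r r' hAA'
      have r1 : Rel k E o (fun q => if q ∈ A then -e q else e q) := by
        by_contra hn
        rw [if_neg hn] at r
        exact lt_irrefl _ r
      have r2 : Rel k E o (fun q => if q ∈ A' then -e q else e q) := by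
        by_contra hn
        rw [if_neg hn] at r'
        exact lt_irrefl _ r'
      have h2 := h A hA A' hA' r1 r2 (by
        intro q hq
        have h3 : q ∈ A ∩ Q' ↔ q ∈ A' ∩ Q' := by
          rw [hAA']
        rw [Finset.mem_inter, Finset.mem_inter] at h3
        exact ⟨fun h4 => (h3.mp ⟨h4, hq⟩).1, fun h4 => (h3.mpr ⟨h4, hq⟩).1⟩)
      ext q
      by_cases hq : q ∈ up k J o
      · exact h2 q hq
      · exact ⟨fun h4 => absurd (hA h4) hq, fun h4 => absurd (hA' h4) hq⟩)
  refine h1.trans (le_of_eq ?_)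
  have hc : Q'.card ≤ (up k J o).card := Finset.card_le_card hQ'
  rw [div_eq_div_iff (by positivity) (by positivity), one_mul, ← pow_add]
  congr 1
  omega

/-- A prime of index `i` above the prime below `o`, different from `o`. -/
theorem exists_ne (S : Finset (Pr k)) (h2 : ∀ i, 2 ≤ Module.finrank k (L i))
    (hun : ∀ i, ∀ v, v ∉ S → ∀ T : Finset (Pr (L i)), (∀ w, w ∈ T ↔ bl k w = v) →
      ∑ w ∈ T, dg k w = Module.finrank k (L i))
    (o : PL L) (ho : dg k o.2 = 1) (hoS : bl k o.2 ∉ S) (i : I) :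
    ∃ q : PL L, q.1 = i ∧ bl k q.2 = bl k o.2 ∧ q ≠ o := by
  classical
  obtain ⟨i0, w0⟩ := o
  simp only at ho hoS
  set v := bl k w0 with hv
  have hT := hun i v hoS (finite_bl (L := L i) v).toFinset (fun w => by
    rw [Set.Finite.mem_toFinset]
    rfl)
  have h2i := h2 i
  by_cases hi : i = i0
  · subst hi
    by_contra hcon
    have hall : ∀ w : Pr (L i), bl k w = v → w = w0 := by
      intro w hw
      by_contra hne
      refine hcon ⟨⟨i, w⟩, rfl, hw, ?_⟩
      intro h
      exact hne (eq_of_heq (Sigma.mk.inj h).2)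
    have hle : ∑ w ∈ (finite_bl (L := L i) v).toFinset, dg k w ≤
        ∑ w ∈ ({w0} : Finset (Pr (L i))), dg k w := by
      refine Finset.sum_le_sum_of_subset ?_
      intro w hw
      rw [Set.Finite.mem_toFinset] at hw
      rw [Finset.mem_singleton]
      exact hall w hw
    rw [Finset.sum_singleton, ho, hT] at hle
    omega
  · have hne : (finite_bl (L := L i) v).toFinset.Nonempty := by
      rw [Finset.nonempty_iff_ne_empty]
      intro h0
      rw [h0, Finset.sum_empty] at hT
      omega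
    obtain ⟨w, hw⟩ := hne
    rw [Set.Finite.mem_toFinset] at hw
    refine ⟨⟨i, w⟩, rfl, hw, ?_⟩
    intro h
    exact hi (Sigma.mk.inj h).1

theorem card_up (S : Finset (Pr k))
    (hun : ∀ i, ∀ v, v ∉ S → ∀ T : Finset (Pr (L i)), (∀ w, w ∈ T ↔ bl k w = v) →
      ∑ w ∈ T, dg k w = Module.finrank k (L i))
    (o : PL L) (hoS : bl k o.2 ∉ S) (hs : Spl k L (bl k o.2)) (J : Finset I) :
    (up k J o).card = nJ k L J := by
  classical
  set v := bl k o.2 with hv
  have h1 : up k J o = (J.sigma (fun i => (finite_bl (L := L i) v).toFinset) :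
      Finset (Σ i, Pr (L i))) := by
    have hm : ∀ q : (Σ i, Pr (L i)), q ∈ J.sigma (fun i => (finite_bl (L := L i) v).toFinset) ↔
        q.1 ∈ J ∧ bl k q.2 = v := fun q => by
      rw [Finset.mem_sigma, Set.Finite.mem_toFinset]
      rfl
    ext q
    exact (mem_up J o q).trans (hm q).symm
  rw [h1]
  refine (Finset.card_sigma J (fun i => (finite_bl (L := L i) v).toFinset)).trans ?_
  unfold nJ
  refine Finset.sum_congr rfl fun i _ => ?_
  have hT := hun i v hoS (finite_bl (L := L i) v).toFinset (fun w => by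
    rw [Set.Finite.mem_toFinset]
    rfl)
  rw [← hT, Finset.card_eq_sum_ones]
  refine Finset.sum_congr rfl fun w hw => ?_
  rw [Set.Finite.mem_toFinset] at hw
  exact (hs i w hw).symm

end

open scoped Classical in
theorem rel_avg {k : Type} [Field k] [NumberField k] {I : Type} [Fintype I] {L : I → Type}
    [∀ i, Field (L i)] [∀ i, NumberField (L i)] [∀ i, Algebra k (L i)] (S : Finset (Pr k))
    (h2 : ∀ i, 2 ≤ Module.finrank k (L i)) (h4 : 4 ≤ ∑ i, Module.finrank k (L i))
    (hun : ∀ i, ∀ v, v ∉ S → ∀ T : Finset (Pr (L i)), (∀ w, w ∈ T ↔ bl k w = v) →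
      ∑ w ∈ T, dg k w = Module.finrank k (L i))
    (o : PL L) (ho : dg k o.2 = 1) (hoS : bl k o.2 ∉ S) (J : Finset I) (hJ : o.1 ∈ J)
    (E : PL L → PL L → ℤˣ) (e : PL L → ℤˣ) :
    avg (up k J o) (fun e => if Rel k E o e then (1 : ℝ) else 0) e ≤ beta k J o := by
  have hex := exists_ne (k := k) S h2 hun o ho hoS
  choose p hp1 hp2 hp3 using hex
  have hou : o ∈ up k J o := (mem_up J o o).mpr ⟨hJ, rfl⟩
  unfold beta
  by_cases hs : Spl k L (bl k o.2)
  · rw [if_pos hs]
    have hc := card_up S hun o hoS hs J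
    have hd : ∀ q : PL L, bl k q.2 = bl k o.2 → dg k q.2 = 1 := fun q hq => hs q.1 q.2 hq
    by_cases hJu : J = Finset.univ
    · rw [if_pos hJu]
      have hpu : p o.1 ∈ up k J o := (mem_up J o _).mpr ⟨by rw [hp1]; exact hJ, hp2 _⟩
      have hsub : ({o, p o.1} : Finset (PL L)) ⊆ up k J o := by
        intro q hq
        rw [Finset.mem_insert, Finset.mem_singleton] at hq
        rcases hq with rfl | rfl
        · exact hou
        · exact hpu
      have h5 := avg_rel_le o J E e {o, p o.1} hsub (by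
        intro A hA A' hA' r r' hag q hq
        have hqv := ((mem_up J o q).mp hq).2
        by_cases hqo : q = o
        · rw [hqo]
          exact hag o (Finset.mem_insert_self _ _)
        by_cases hqp : q = p o.1
        · rw [hqp]
          exact hag _ (Finset.mem_insert_of_mem (Finset.mem_singleton_self _))
        exact agree_of_rel o E e A A' r r' (p o.1) q (hp2 _) hqv (hp3 _) hqo
          (fun h => hqp h.symm) (by rw [hd _ (hp2 _), hd _ hqv])
          (hag _ (Finset.mem_insert_of_mem (Finset.mem_singleton_self _))))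
      rw [Finset.card_pair (hp3 o.1).symm, hc] at h5
      exact h5
    · rw [if_neg hJu]
      obtain ⟨i', hi'⟩ : ∃ i, i ∉ J := by
        by_contra hcon
        push Not at hcon
        exact hJu (Finset.eq_univ_iff_forall.mpr hcon)
      have hsub : ({o} : Finset (PL L)) ⊆ up k J o := Finset.singleton_subset_iff.mpr hou
      have hp' : p i' ∉ up k J o := by
        intro h
        have := ((mem_up J o _).mp h).1
        rw [hp1] at this
        exact hi' this
      have h5 := avg_rel_le o J E e {o} hsub (by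
        intro A hA A' hA' r r' hag q hq
        have hqv := ((mem_up J o q).mp hq).2
        by_cases hqo : q = o
        · rw [hqo]
          exact hag o (Finset.mem_singleton_self _)
        exact agree_of_rel o E e A A' r r' (p i') q (hp2 _) hqv (hp3 _) hqo
          (fun h => hp' (h ▸ hq)) (by rw [hd _ (hp2 _), hd _ hqv])
          ⟨fun h => absurd (hA h) hp', fun h => absurd (hA' h) hp'⟩)
      rw [Finset.card_singleton, hc] at h5
      exact h5
  · rw [if_neg hs]
    obtain ⟨i₀, hi₀, hmin⟩ := Finset.exists_min_image J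
      (fun i => padicValNat 2 (dg k (p i).2)) ⟨o.1, hJ⟩
    have hinj : Function.Injective p := by
      intro i j hij
      rw [← hp1 i, ← hp1 j, hij]
    have hpu : ∀ i ∈ J, p i ∈ up k J o := fun i hi =>
      (mem_up J o _).mpr ⟨by rw [hp1]; exact hi, hp2 _⟩
    set Q2 : Finset (PL L) := (J.erase i₀).image p with hQ2
    have hQ2s : Q2 ⊆ up k J o := by
      intro q hq
      obtain ⟨i, hi, rfl⟩ := Finset.mem_image.mp hq
      exact hpu i (Finset.mem_of_mem_erase hi)
    have hQ2c : Q2.card = J.card - 1 := by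
      rw [hQ2, Finset.card_image_of_injective _ hinj, Finset.card_erase_of_mem hi₀]
    have hp0 : p i₀ ∉ Q2 := by
      intro h
      obtain ⟨i, hi, hip⟩ := Finset.mem_image.mp h
      exact (Finset.ne_of_mem_erase hi) (hinj hip)
    have h5 := avg_rel_le o J E e (up k J o \ Q2) Finset.sdiff_subset (by
      intro A hA A' hA' r r' hag q hq
      by_cases hq2 : q ∈ Q2
      · obtain ⟨i, hi, rfl⟩ := Finset.mem_image.mp hq2
        have hiJ := Finset.mem_of_mem_erase hi
        exact agree_of_rel o E e A A' r r' (p i₀) (p i) (hp2 _) (hp2 _) (hp3 _) (hp3 _)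
          (fun h => (Finset.ne_of_mem_erase hi) (hinj h).symm) (hmin i hiJ)
          (hag _ (Finset.mem_sdiff.mpr ⟨hpu i₀ hi₀, hp0⟩))
      · exact hag q (Finset.mem_sdiff.mpr ⟨hq, hq2⟩))
    rw [Finset.card_sdiff_of_subset hQ2s, hQ2c] at h5
    have hc1 : J.card - 1 ≤ (up k J o).card := hQ2c ▸ Finset.card_le_card hQ2s
    rw [show (up k J o).card - ((up k J o).card - (J.card - 1)) = J.card - 1 by omega] at h5
    exact h5

end SC5
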