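import Pool.Agent.MP_c1dca2_ag.SC5.Fam

/-!
# [SC5-B3] the abstract summation over several slots

Slots `i ∈ Sl`, candidates `T i`, weights `ω`, the sign vector `b w` of the candidate `w`; conditions `o ∈ V` with
nonnegative functions `Γ o` of the sign vector at the positions `UU o`; slot `i` influences the positions `U i o`;
`vis o` = the slots which are equidistributed for `o`. `hbt` is equidistribution for a single slot.

`multi`, induction on `#Sl` (for all `V`, `Γ`, `T`). `Sl = ∅`: all `T i = {d}`, one term, `avg_empty`. Step: let `i₀ ∈ Sl` have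
minimal `p`. `V₀ = {o ∈ V | Sl ∩ vis o = ∅}`, `V₁ = V \ V₀`; `i₀ ∈ vis o` for `o ∈ V₁` (`hvis`), so
`V₁ = V.filter (i₀ ∈ vis o)`. For `o ∈ V₀` use `Γ o e ≤ cc o` (`hcc`, `avg_empty`). Write `w = update w' i₀ w₀`
(`w' ∈ piFinset (update T i₀ {d})`, `w₀ ∈ T i₀`), `B = ∏_{i ∈ Sl \ i₀} b (w' i)`. For fixed `w'` apply `hbt i₀` with
`g o x = Γ o (e · x' · B)`, `x' = x` on `U i₀ o` and `1` elsewhere (local on `U i₀ o`); for `x = b w₀` this is
`Γ o (e · b w₀ · B)` by `hb` and locality of `Γ o` on `UU o`. `avg (U i₀ o) (g o) 1 = avg (U i₀ o) (Γ o) (e · B)` (`avg_mul`,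
`avg_congr`). Then use the induction hypothesis for `Sl.erase i₀`, `V₁`, `update T i₀ {d}`, `Γ' o = avg (U i₀ o) (Γ o)`
(nonnegative: `avg_nonneg`; local: `avg_loc`; for `i ∈ Sl`, `V₁.filter (i ∈ vis o) = V.filter (i ∈ vis o)`; `hcc` by
`avg_union`, `hdis`: `avg (⋃_{i ∈ Sl.erase i₀ ∩ vis o} U i o) Γ' = avg (⋃_{i ∈ Sl ∩ vis o} U i o) Γ` for `o ∈ V₁`).

`multi_top`: the same first step with `i₀ = i₁`, weights `(X / ∏ nrm)^(3/4)` and `hbt₁` for
`Y = X / ∏_{i ∈ Sl.erase i₁} nrm (w' i)`: the sum over `w₀` is at most `Θ₁ Y ∏ avg`; then `multi` for `Sl.erase i₁` with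
`ω w = (nrm w)⁻¹`.
-/

set_option autoImplicit false

noncomputable section

namespace SC5

section multi

variable {I O X W : Type} [Fintype I] [DecidableEq I] [DecidableEq O] [DecidableEq X]

theorem b3_split (T : I → Finset W) (i₀ : I) (d : W) (F : (I → W) → ℝ) :
    ∑ w ∈ Fintype.piFinset T, F w =
      ∑ w' ∈ Fintype.piFinset (Function.update T i₀ {d}), ∑ w₀ ∈ T i₀,
        F (Function.update w' i₀ w₀) := by
  rw [← Finset.sum_product']
  refine Finset.sum_nbij' (fun w => (Function.update w i₀ d, w i₀))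
    (fun p => Function.update p.1 i₀ p.2) ?_ ?_ ?_ ?_ ?_
  · intro w hw
    rw [Fintype.mem_piFinset] at hw
    rw [Finset.mem_product]
    refine ⟨?_, hw i₀⟩
    rw [Fintype.mem_piFinset]
    intro i
    by_cases h : i = i₀
    · subst h
      simp
    · simp only [Function.update_of_ne h]
      exact hw i
  · intro p hp
    rw [Finset.mem_product, Fintype.mem_piFinset] at hp
    rw [Fintype.mem_piFinset]
    intro i
    by_cases h : i = i₀
    · subst h
      simp only [Function.update_self]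
      exact hp.2
    · have := hp.1 i
      simp only [Function.update_of_ne h] at this ⊢
      exact this
  · intro w _
    simp
  · intro p hp
    rw [Finset.mem_product, Fintype.mem_piFinset] at hp
    have h1 := hp.1 i₀
    simp only [Function.update_self, Finset.mem_singleton] at h1
    refine Prod.ext ?_ ?_
    · simp only [Function.update_idem]
      rw [← h1, Function.update_eq_self]
    · simp
  · intro w _
    simp

theorem b3_g_loc (U : Finset X) (Γ : (X → ℤˣ) → ℝ) (e B : X → ℤˣ) (x x' : X → ℤˣ)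
    (h : ∀ q ∈ U, x q = x' q) :
    Γ (fun q => e q * ((if q ∈ U then x q else 1) * B q)) =
      Γ (fun q => e q * ((if q ∈ U then x' q else 1) * B q)) := by
  congr 1
  funext q
  by_cases hq : q ∈ U
  · simp only [hq, if_true, h q hq]
  · simp only [hq, if_false]

theorem b3_g_b (U UU : Finset X) (Γ : (X → ℤˣ) → ℝ)
    (hloc : ∀ e e', (∀ q ∈ UU, e q = e' q) → Γ e = Γ e') (e B : X → ℤˣ) (x : X → ℤˣ)
    (hx : ∀ q ∈ UU, q ∉ U → x q = 1) :
    Γ (fun q => e q * ((if q ∈ U then x q else 1) * B q)) = Γ (fun q => e q * (x q * B q)) := by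
  apply hloc
  intro q hq
  by_cases hqU : q ∈ U
  · simp only [hqU, if_true]
  · simp only [hqU, if_false, hx q hq hqU]

theorem b3_g_avg (U : Finset X) (Γ : (X → ℤˣ) → ℝ) (e B : X → ℤˣ) :
    avg U (fun x => Γ (fun q => e q * ((if q ∈ U then x q else 1) * B q))) 1 =
      avg U Γ (fun q => e q * B q) := by
  rw [← avg_mul U Γ (fun q => e q * B q)]
  apply avg_congr
  intro A hA
  congr 1
  funext q
  by_cases hq : q ∈ U
  · simp only [hq, if_true]
    rw [mul_assoc]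
    congr 1
    exact mul_comm _ _
  · have hqA : q ∉ A := fun h => hq (hA h)
    simp only [hq, hqA, if_false, one_mul, Pi.one_apply, mul_one]

/-- the first step -/
theorem b3_first (vis : O → Finset I) (U : I → O → Finset X) (Sl : Finset I) (V : Finset O)
    (i₀ : I) (p : I → ℕ) (hi₀ : i₀ ∈ Sl) (hmin : ∀ i ∈ Sl, p i₀ ≤ p i)
    (hvis : ∀ o ∈ V, ∀ i ∈ Sl, ∀ i' ∈ Sl, i ∈ vis o → p i' ≤ p i → i' ∈ vis o)
    (Γ : O → (X → ℤˣ) → ℝ) (cc : O → ℝ)
    (hcc : ∀ o ∈ V, ∀ e, avg ((Sl ∩ vis o).biUnion (fun i => U i o)) (Γ o) e ≤ cc o) :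
    ∀ o ∈ V, i₀ ∉ vis o → ∀ e, Γ o e ≤ cc o := by
  intro o ho h e
  have h1 : Sl ∩ vis o = ∅ := by
    apply Finset.eq_empty_of_forall_notMem
    intro i hi
    rw [Finset.mem_inter] at hi
    exact h (hvis o ho i hi.1 i₀ hi₀ hi.2 (hmin i hi.1))
  have h2 := hcc o ho e
  rw [h1, Finset.biUnion_empty, avg_empty] at h2
  exact h2

theorem b3_second (vis : O → Finset I) (U : I → O → Finset X) (Sl : Finset I) (V : Finset O)
    (i₀ : I) (hi₀ : i₀ ∈ Sl)
    (hdis : ∀ o ∈ V, ∀ i i', i ≠ i' → Disjoint (U i o) (U i' o))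
    (Γ : O → (X → ℤˣ) → ℝ) (cc : O → ℝ)
    (hcc : ∀ o ∈ V, ∀ e, avg ((Sl ∩ vis o).biUnion (fun i => U i o)) (Γ o) e ≤ cc o) :
    ∀ o ∈ V.filter (fun o => i₀ ∈ vis o), ∀ e,
      avg ((Sl.erase i₀ ∩ vis o).biUnion (fun i => U i o)) (fun e => avg (U i₀ o) (Γ o) e) e ≤
        cc o := by
  intro o ho e
  rw [Finset.mem_filter] at ho
  rw [← avg_union]
  · have h1 : (Sl.erase i₀ ∩ vis o).biUnion (fun i => U i o) ∪ U i₀ o =
        (Sl ∩ vis o).biUnion (fun i => U i o) := by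
      have h2 : Sl ∩ vis o = insert i₀ (Sl.erase i₀ ∩ vis o) := by
        ext i
        simp only [Finset.mem_inter, Finset.mem_insert, Finset.mem_erase]
        constructor
        · rintro ⟨h3, h4⟩
          by_cases h5 : i = i₀
          · exact Or.inl h5
          · exact Or.inr ⟨⟨h5, h3⟩, h4⟩
        · rintro (h3 | h3)
          · rw [h3]
            exact ⟨hi₀, ho.2⟩
          · exact ⟨h3.1.2, h3.2⟩
      rw [h2, Finset.biUnion_insert, Finset.union_comm]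
    rw [h1]
    exact hcc o ho.1 e
  · rw [Finset.disjoint_biUnion_left]
    intro i hi
    rw [Finset.mem_inter, Finset.mem_erase] at hi
    exact hdis o ho.1 i i₀ hi.1.1

/-- removal of the invisible conditions -/
theorem b3_third (V : Finset O) (P : O → Prop) [DecidablePred P] (G : O → ℝ) (cc : O → ℝ)
    (hG : ∀ o, 0 ≤ G o) (h : ∀ o ∈ V, ¬ P o → G o ≤ cc o) :
    ∏ o ∈ V, G o ≤ (∏ o ∈ V.filter (fun o => ¬ P o), cc o) * ∏ o ∈ V.filter P, G o := by
  rw [← Finset.prod_filter_mul_prod_filter_not V P, mul_comm]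
  refine mul_le_mul_of_nonneg_right ?_ (Finset.prod_nonneg fun o _ => hG o)
  apply Finset.prod_le_prod (fun o _ => hG o)
  intro o ho
  rw [Finset.mem_filter] at ho
  exact h o ho.1 ho.2

theorem b3_filter (vis : O → Finset I) (Sl : Finset I) (V : Finset O) (i₀ i : I) (p : I → ℕ)
    (hi₀ : i₀ ∈ Sl) (hi : i ∈ Sl) (hmin : p i₀ ≤ p i)
    (hvis : ∀ o ∈ V, ∀ i ∈ Sl, ∀ i' ∈ Sl, i ∈ vis o → p i' ≤ p i → i' ∈ vis o) :
    (V.filter (fun o => i₀ ∈ vis o)).filter (fun o => i ∈ vis o) =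
      V.filter (fun o => i ∈ vis o) := by
  rw [Finset.filter_filter]
  apply Finset.filter_congr
  intro o ho
  exact ⟨fun h => h.2, fun h => ⟨hvis o ho i hi i₀ hi₀ h hmin, h⟩⟩

theorem multi (p : I → ℕ) (vis : O → Finset I) (U : I → O → Finset X) (UU : O → Finset X)
    (b : W → X → ℤˣ) (ω : W → ℝ) (hω : ∀ w, 0 ≤ ω w) (Θ : I → ℝ) (hΘ : ∀ i, 0 ≤ Θ i) (d : W)
    (Sl : Finset I) (T : I → Finset W) (hT : ∀ i, i ∉ Sl → T i = {d}) (V : Finset O)
    (hvis : ∀ o ∈ V, ∀ i ∈ Sl, ∀ i' ∈ Sl, i ∈ vis o → p i' ≤ p i → i' ∈ vis o)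
    (hdis : ∀ o ∈ V, ∀ i i', i ≠ i' → Disjoint (U i o) (U i' o))
    (hb : ∀ i ∈ Sl, ∀ w ∈ T i, ∀ o ∈ V, ∀ q ∈ UU o, q ∉ U i o → b w q = 1)
    (hbt : ∀ i ∈ Sl, ∀ g : O → (X → ℤˣ) → ℝ, (∀ o e, 0 ≤ g o e) →
      (∀ o e e', (∀ q ∈ U i o, e q = e' q) → g o e = g o e') →
      ∑ w ∈ T i, ω w * ∏ o ∈ V.filter (fun o => i ∈ vis o), g o (b w) ≤
        Θ i * ∏ o ∈ V.filter (fun o => i ∈ vis o), avg (U i o) (g o) 1)
    (Γ : O → (X → ℤˣ) → ℝ) (hΓ : ∀ o e, 0 ≤ Γ o e)
    (hloc : ∀ o e e', (∀ q ∈ UU o, e q = e' q) → Γ o e = Γ o e') (cc : O → ℝ)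
    (hcc : ∀ o ∈ V, ∀ e, avg ((Sl ∩ vis o).biUnion (fun i => U i o)) (Γ o) e ≤ cc o)
    (e : X → ℤˣ) :
    ∑ w ∈ Fintype.piFinset T, (∏ i ∈ Sl, ω (w i)) *
        ∏ o ∈ V, Γ o (fun q => e q * ∏ i ∈ Sl, b (w i) q) ≤
      (∏ i ∈ Sl, Θ i) * ∏ o ∈ V, cc o := by
  obtain ⟨n, hn⟩ : ∃ n, Sl.card = n := ⟨_, rfl⟩
  induction n generalizing Sl T V Γ cc with
  | zero =>
    rw [Finset.card_eq_zero] at hn
    subst hn
    have h1 : T = fun _ => {d} := by
      funext i
      exact hT i (Finset.notMem_empty i)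
    rw [h1, Fintype.piFinset_singleton, Finset.sum_singleton]
    simp only [Finset.prod_empty, one_mul, mul_one]
    apply Finset.prod_le_prod (fun o _ => hΓ o _)
    intro o ho
    have h2 := hcc o ho e
    rw [Finset.empty_inter, Finset.biUnion_empty, avg_empty] at h2
    exact h2
  | succ n ih =>
    have hne : Sl.Nonempty := by
      rw [← Finset.card_pos, hn]
      omega
    obtain ⟨i₀, hi₀, hmin⟩ := Finset.exists_min_image Sl p hne
    have hcc0 : ∀ o ∈ V, 0 ≤ cc o := fun o ho =>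
      (avg_nonneg _ _ (hΓ o) e).trans (hcc o ho e)
    have hcV0 : 0 ≤ ∏ o ∈ V.filter (fun o => ¬ i₀ ∈ vis o), cc o :=
      Finset.prod_nonneg fun o ho => hcc0 o (Finset.mem_filter.1 ho).1
    have hfirst := b3_first vis U Sl V i₀ p hi₀ hmin hvis Γ cc hcc
    -- the inner sums
    have hinner : ∀ w' ∈ Fintype.piFinset (Function.update T i₀ {d}),
        ∑ w₀ ∈ T i₀, (∏ i ∈ Sl, ω (Function.update w' i₀ w₀ i)) *
          ∏ o ∈ V, Γ o (fun q => e q * ∏ i ∈ Sl, b (Function.update w' i₀ w₀ i) q) ≤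
        (∏ o ∈ V.filter (fun o => ¬ i₀ ∈ vis o), cc o) * Θ i₀ *
          ((∏ i ∈ Sl.erase i₀, ω (w' i)) * ∏ o ∈ V.filter (fun o => i₀ ∈ vis o),
            avg (U i₀ o) (Γ o) (fun q => e q * ∏ i ∈ Sl.erase i₀, b (w' i) q)) := by
      intro w' _
      have hom : ∀ w₀, ∏ i ∈ Sl, ω (Function.update w' i₀ w₀ i) =
          ω w₀ * ∏ i ∈ Sl.erase i₀, ω (w' i) := by
        intro w₀
        rw [← Finset.mul_prod_erase Sl _ hi₀, Function.update_self]
        congr 1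
        apply Finset.prod_congr rfl
        intro i hi
        rw [Function.update_of_ne (Finset.ne_of_mem_erase hi)]
      have hbm : ∀ w₀, ∀ q, ∏ i ∈ Sl, b (Function.update w' i₀ w₀ i) q =
          b w₀ q * ∏ i ∈ Sl.erase i₀, b (w' i) q := by
        intro w₀ q
        rw [← Finset.mul_prod_erase Sl _ hi₀, Function.update_self]
        congr 1
        apply Finset.prod_congr rfl
        intro i hi
        rw [Function.update_of_ne (Finset.ne_of_mem_erase hi)]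
      have hω' : 0 ≤ ∏ i ∈ Sl.erase i₀, ω (w' i) := Finset.prod_nonneg fun i _ => hω _
      have hg := hbt i₀ hi₀ (fun o x => Γ o (fun q => e q * ((if q ∈ U i₀ o then x q else 1) *
        ∏ i ∈ Sl.erase i₀, b (w' i) q))) (fun o x => hΓ o _)
        (fun o x x' h => b3_g_loc (U i₀ o) (Γ o) e _ x x' h)
      have hg2 : ∑ w₀ ∈ T i₀, ω w₀ * ∏ o ∈ V.filter (fun o => i₀ ∈ vis o),
          Γ o (fun q => e q * (b w₀ q * ∏ i ∈ Sl.erase i₀, b (w' i) q)) ≤
          Θ i₀ * ∏ o ∈ V.filter (fun o => i₀ ∈ vis o),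
            avg (U i₀ o) (Γ o) (fun q => e q * ∏ i ∈ Sl.erase i₀, b (w' i) q) := by
        refine le_trans (le_of_eq ?_) (hg.trans (le_of_eq ?_))
        · apply Finset.sum_congr rfl
          intro w₀ hw₀
          congr 1
          apply Finset.prod_congr rfl
          intro o ho
          have hoV := (Finset.mem_filter.1 ho).1
          exact (b3_g_b (U i₀ o) (UU o) (Γ o) (hloc o) e _ (b w₀)
            (fun q hq hqU => hb i₀ hi₀ w₀ hw₀ o hoV q hq hqU)).symm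
        · congr 1
          apply Finset.prod_congr rfl
          intro o _
          exact b3_g_avg (U i₀ o) (Γ o) e _
      calc ∑ w₀ ∈ T i₀, (∏ i ∈ Sl, ω (Function.update w' i₀ w₀ i)) *
          ∏ o ∈ V, Γ o (fun q => e q * ∏ i ∈ Sl, b (Function.update w' i₀ w₀ i) q)
          ≤ ∑ w₀ ∈ T i₀, (∏ o ∈ V.filter (fun o => ¬ i₀ ∈ vis o), cc o) *
            (∏ i ∈ Sl.erase i₀, ω (w' i)) * (ω w₀ * ∏ o ∈ V.filter (fun o => i₀ ∈ vis o),
            Γ o (fun q => e q * (b w₀ q * ∏ i ∈ Sl.erase i₀, b (w' i) q))) := by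
            apply Finset.sum_le_sum
            intro w₀ _
            rw [hom w₀]
            have h3 := b3_third V (fun o => i₀ ∈ vis o)
              (fun o => Γ o (fun q => e q * (b w₀ q * ∏ i ∈ Sl.erase i₀, b (w' i) q))) cc
              (fun o => hΓ o _) (fun o ho h => hfirst o ho h _)
            have h4 : ∏ o ∈ V, Γ o (fun q => e q * ∏ i ∈ Sl, b (Function.update w' i₀ w₀ i) q) =
                ∏ o ∈ V, Γ o (fun q => e q * (b w₀ q * ∏ i ∈ Sl.erase i₀, b (w' i) q)) := by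
              apply Finset.prod_congr rfl
              intro o _
              congr 1
              funext q
              rw [hbm w₀ q]
            rw [h4]
            refine (mul_le_mul_of_nonneg_left h3 (mul_nonneg (hω w₀) hω')).trans (le_of_eq ?_)
            ring
        _ = (∏ o ∈ V.filter (fun o => ¬ i₀ ∈ vis o), cc o) *
            (∏ i ∈ Sl.erase i₀, ω (w' i)) * ∑ w₀ ∈ T i₀, (ω w₀ *
            ∏ o ∈ V.filter (fun o => i₀ ∈ vis o),
            Γ o (fun q => e q * (b w₀ q * ∏ i ∈ Sl.erase i₀, b (w' i) q))) := by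
            rw [Finset.mul_sum]
        _ ≤ (∏ o ∈ V.filter (fun o => ¬ i₀ ∈ vis o), cc o) *
            (∏ i ∈ Sl.erase i₀, ω (w' i)) * (Θ i₀ * ∏ o ∈ V.filter (fun o => i₀ ∈ vis o),
            avg (U i₀ o) (Γ o) (fun q => e q * ∏ i ∈ Sl.erase i₀, b (w' i) q)) :=
            mul_le_mul_of_nonneg_left hg2 (mul_nonneg hcV0 hω')
        _ = _ := by ring
    rw [b3_split T i₀ d]
    refine (Finset.sum_le_sum hinner).trans ?_
    rw [← Finset.mul_sum]
    have hIH := ih (Sl.erase i₀) (Function.update T i₀ {d}) (by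
        intro i hi
        by_cases h : i = i₀
        · rw [h, Function.update_self]
        · rw [Function.update_of_ne h]
          apply hT
          intro h2
          exact hi (Finset.mem_erase.2 ⟨h, h2⟩)) (V.filter (fun o => i₀ ∈ vis o))
      (fun o ho i hi i' hi' => hvis o (Finset.mem_filter.1 ho).1 i (Finset.mem_of_mem_erase hi) i'
        (Finset.mem_of_mem_erase hi'))
      (fun o ho => hdis o (Finset.mem_filter.1 ho).1)
      (by
        intro i hi w hw o ho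
        rw [Function.update_of_ne (Finset.ne_of_mem_erase hi)] at hw
        exact hb i (Finset.mem_of_mem_erase hi) w hw o (Finset.mem_filter.1 ho).1)
      (by
        intro i hi g hg0 hg1
        rw [Function.update_of_ne (Finset.ne_of_mem_erase hi)]
        have hi' := Finset.mem_of_mem_erase hi
        rw [b3_filter vis Sl V i₀ i p hi₀ hi' (hmin i hi') hvis]
        exact hbt i hi' g hg0 hg1)
      (fun o e => avg (U i₀ o) (Γ o) e) (fun o e => avg_nonneg _ _ (hΓ o) e)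
      (fun o e e' h => avg_loc _ (UU o) _ (hloc o) e e' h) cc
      (b3_second vis U Sl V i₀ hi₀ hdis Γ cc hcc)
      (by rw [Finset.card_erase_of_mem hi₀, hn]; rfl)
    refine (mul_le_mul_of_nonneg_left hIH (mul_nonneg hcV0 (hΘ i₀))).trans (le_of_eq ?_)
    rw [← Finset.mul_prod_erase Sl Θ hi₀, ← Finset.prod_filter_mul_prod_filter_not V
      (fun o => i₀ ∈ vis o) cc]
    ring

theorem multi_top (p : I → ℕ) (vis : O → Finset I) (U : I → O → Finset X) (UU : O → Finset X)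
    (b : W → X → ℤˣ) (nrm : W → ℝ) (hn : ∀ w, 0 < nrm w) (Θ : I → ℝ) (hΘ : ∀ i, 0 ≤ Θ i)
    (Θ₁ : ℝ) (hΘ₁ : 0 ≤ Θ₁) (d : W) (Sl : Finset I) (T : I → Finset W)
    (hT : ∀ i, i ∉ Sl → T i = {d}) (V : Finset O) (i₁ : I) (hi₁ : i₁ ∈ Sl)
    (hmin : ∀ i ∈ Sl, p i₁ ≤ p i)
    (hvis : ∀ o ∈ V, ∀ i ∈ Sl, ∀ i' ∈ Sl, i ∈ vis o → p i' ≤ p i → i' ∈ vis o)
    (hdis : ∀ o ∈ V, ∀ i i', i ≠ i' → Disjoint (U i o) (U i' o))
    (hb : ∀ i ∈ Sl, ∀ w ∈ T i, ∀ o ∈ V, ∀ q ∈ UU o, q ∉ U i o → b w q = 1)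
    (hbt : ∀ i ∈ Sl, i ≠ i₁ → ∀ g : O → (X → ℤˣ) → ℝ, (∀ o e, 0 ≤ g o e) →
      (∀ o e e', (∀ q ∈ U i o, e q = e' q) → g o e = g o e') →
      ∑ w ∈ T i, (nrm w)⁻¹ * ∏ o ∈ V.filter (fun o => i ∈ vis o), g o (b w) ≤
        Θ i * ∏ o ∈ V.filter (fun o => i ∈ vis o), avg (U i o) (g o) 1)
    (hbt₁ : ∀ Y : ℝ, 0 < Y → ∀ g : O → (X → ℤˣ) → ℝ, (∀ o e, 0 ≤ g o e) →
      (∀ o e e', (∀ q ∈ U i₁ o, e q = e' q) → g o e = g o e') →
      ∑ w ∈ (T i₁).filter (fun w => nrm w ≤ Y), (Y / nrm w) ^ (3 / 4 : ℝ) *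
          ∏ o ∈ V.filter (fun o => i₁ ∈ vis o), g o (b w) ≤
        Θ₁ * Y * ∏ o ∈ V.filter (fun o => i₁ ∈ vis o), avg (U i₁ o) (g o) 1)
    (Γ : O → (X → ℤˣ) → ℝ) (hΓ : ∀ o e, 0 ≤ Γ o e)
    (hloc : ∀ o e e', (∀ q ∈ UU o, e q = e' q) → Γ o e = Γ o e') (cc : O → ℝ)
    (hcc : ∀ o ∈ V, ∀ e, avg ((Sl ∩ vis o).biUnion (fun i => U i o)) (Γ o) e ≤ cc o)
    (e : X → ℤˣ) (Z : ℝ) (hZ : 0 < Z) :
    ∑ w ∈ (Fintype.piFinset T).filter (fun w => ∏ i ∈ Sl, nrm (w i) ≤ Z),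
        (Z / ∏ i ∈ Sl, nrm (w i)) ^ (3 / 4 : ℝ) *
          ∏ o ∈ V, Γ o (fun q => e q * ∏ i ∈ Sl, b (w i) q) ≤
      Θ₁ * Z * (∏ i ∈ Sl.erase i₁, Θ i) * ∏ o ∈ V, cc o := by
  have hcc0 : ∀ o ∈ V, 0 ≤ cc o := fun o ho =>
    (avg_nonneg _ _ (hΓ o) e).trans (hcc o ho e)
  have hcV0 : 0 ≤ ∏ o ∈ V.filter (fun o => ¬ i₁ ∈ vis o), cc o :=
    Finset.prod_nonneg fun o ho => hcc0 o (Finset.mem_filter.1 ho).1
  have hfirst := b3_first vis U Sl V i₁ p hi₁ hmin hvis Γ cc hcc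
  -- the inner sums
  have hinner : ∀ w' ∈ Fintype.piFinset (Function.update T i₁ {d}),
      (∑ w₀ ∈ T i₁, if ∏ i ∈ Sl, nrm (Function.update w' i₁ w₀ i) ≤ Z then
        (Z / ∏ i ∈ Sl, nrm (Function.update w' i₁ w₀ i)) ^ (3 / 4 : ℝ) *
        ∏ o ∈ V, Γ o (fun q => e q * ∏ i ∈ Sl, b (Function.update w' i₁ w₀ i) q) else 0) ≤
      (∏ o ∈ V.filter (fun o => ¬ i₁ ∈ vis o), cc o) * (Θ₁ * Z) *
        ((∏ i ∈ Sl.erase i₁, (nrm (w' i))⁻¹) * ∏ o ∈ V.filter (fun o => i₁ ∈ vis o),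
          avg (U i₁ o) (Γ o) (fun q => e q * ∏ i ∈ Sl.erase i₁, b (w' i) q)) := by
    intro w' _
    have hN : 0 < ∏ i ∈ Sl.erase i₁, nrm (w' i) := Finset.prod_pos fun i _ => hn _
    have hom : ∀ w₀, ∏ i ∈ Sl, nrm (Function.update w' i₁ w₀ i) =
        nrm w₀ * ∏ i ∈ Sl.erase i₁, nrm (w' i) := by
      intro w₀
      rw [← Finset.mul_prod_erase Sl _ hi₁, Function.update_self]
      congr 1
      apply Finset.prod_congr rfl
      intro i hi
      rw [Function.update_of_ne (Finset.ne_of_mem_erase hi)]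
    have hbm : ∀ w₀, ∀ q, ∏ i ∈ Sl, b (Function.update w' i₁ w₀ i) q =
        b w₀ q * ∏ i ∈ Sl.erase i₁, b (w' i) q := by
      intro w₀ q
      rw [← Finset.mul_prod_erase Sl _ hi₁, Function.update_self]
      congr 1
      apply Finset.prod_congr rfl
      intro i hi
      rw [Function.update_of_ne (Finset.ne_of_mem_erase hi)]
    set N : ℝ := ∏ i ∈ Sl.erase i₁, nrm (w' i) with hNdef
    have hg := hbt₁ (Z / N) (div_pos hZ hN) (fun o x => Γ o (fun q => e q *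
      ((if q ∈ U i₁ o then x q else 1) * ∏ i ∈ Sl.erase i₁, b (w' i) q))) (fun o x => hΓ o _)
      (fun o x x' h => b3_g_loc (U i₁ o) (Γ o) e _ x x' h)
    have hg2 : ∑ w₀ ∈ (T i₁).filter (fun w => nrm w ≤ Z / N), (Z / N / nrm w₀) ^ (3 / 4 : ℝ) *
        ∏ o ∈ V.filter (fun o => i₁ ∈ vis o),
        Γ o (fun q => e q * (b w₀ q * ∏ i ∈ Sl.erase i₁, b (w' i) q)) ≤
        Θ₁ * (Z / N) * ∏ o ∈ V.filter (fun o => i₁ ∈ vis o),
          avg (U i₁ o) (Γ o) (fun q => e q * ∏ i ∈ Sl.erase i₁, b (w' i) q) := by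
      refine le_trans (le_of_eq ?_) (hg.trans (le_of_eq ?_))
      · apply Finset.sum_congr rfl
        intro w₀ hw₀
        congr 1
        apply Finset.prod_congr rfl
        intro o ho
        have hoV := (Finset.mem_filter.1 ho).1
        exact (b3_g_b (U i₁ o) (UU o) (Γ o) (hloc o) e _ (b w₀)
          (fun q hq hqU => hb i₁ hi₁ w₀ (Finset.mem_filter.1 hw₀).1 o hoV q hq hqU)).symm
      · congr 1
        apply Finset.prod_congr rfl
        intro o _
        exact b3_g_avg (U i₁ o) (Γ o) e _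
    rw [← Finset.sum_filter]
    have hfil : (T i₁).filter (fun w₀ => ∏ i ∈ Sl, nrm (Function.update w' i₁ w₀ i) ≤ Z) =
        (T i₁).filter (fun w => nrm w ≤ Z / N) := by
      apply Finset.filter_congr
      intro w₀ _
      rw [hom w₀, le_div_iff₀ hN]
    rw [hfil]
    calc ∑ w₀ ∈ (T i₁).filter (fun w => nrm w ≤ Z / N),
          (Z / ∏ i ∈ Sl, nrm (Function.update w' i₁ w₀ i)) ^ (3 / 4 : ℝ) *
          ∏ o ∈ V, Γ o (fun q => e q * ∏ i ∈ Sl, b (Function.update w' i₁ w₀ i) q)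
        ≤ ∑ w₀ ∈ (T i₁).filter (fun w => nrm w ≤ Z / N),
          (∏ o ∈ V.filter (fun o => ¬ i₁ ∈ vis o), cc o) *
          ((Z / N / nrm w₀) ^ (3 / 4 : ℝ) * ∏ o ∈ V.filter (fun o => i₁ ∈ vis o),
          Γ o (fun q => e q * (b w₀ q * ∏ i ∈ Sl.erase i₁, b (w' i) q))) := by
          apply Finset.sum_le_sum
          intro w₀ _
          rw [hom w₀]
          have h3 := b3_third V (fun o => i₁ ∈ vis o)
            (fun o => Γ o (fun q => e q * (b w₀ q * ∏ i ∈ Sl.erase i₁, b (w' i) q))) cc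
            (fun o => hΓ o _) (fun o ho h => hfirst o ho h _)
          have h4 : ∏ o ∈ V, Γ o (fun q => e q * ∏ i ∈ Sl, b (Function.update w' i₁ w₀ i) q) =
              ∏ o ∈ V, Γ o (fun q => e q * (b w₀ q * ∏ i ∈ Sl.erase i₁, b (w' i) q)) := by
            apply Finset.prod_congr rfl
            intro o _
            congr 1
            funext q
            rw [hbm w₀ q]
          have h5 : Z / (nrm w₀ * N) = Z / N / nrm w₀ := by
            rw [div_div, mul_comm]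
          rw [h4, h5]
          have h6 : 0 ≤ (Z / N / nrm w₀) ^ (3 / 4 : ℝ) :=
            Real.rpow_nonneg (div_nonneg (div_nonneg hZ.le hN.le) (hn w₀).le) _
          refine (mul_le_mul_of_nonneg_left h3 h6).trans (le_of_eq ?_)
          ring
      _ = (∏ o ∈ V.filter (fun o => ¬ i₁ ∈ vis o), cc o) *
          ∑ w₀ ∈ (T i₁).filter (fun w => nrm w ≤ Z / N), ((Z / N / nrm w₀) ^ (3 / 4 : ℝ) *
          ∏ o ∈ V.filter (fun o => i₁ ∈ vis o),
          Γ o (fun q => e q * (b w₀ q * ∏ i ∈ Sl.erase i₁, b (w' i) q))) := by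
          rw [Finset.mul_sum]
      _ ≤ (∏ o ∈ V.filter (fun o => ¬ i₁ ∈ vis o), cc o) *
          (Θ₁ * (Z / N) * ∏ o ∈ V.filter (fun o => i₁ ∈ vis o),
          avg (U i₁ o) (Γ o) (fun q => e q * ∏ i ∈ Sl.erase i₁, b (w' i) q)) :=
          mul_le_mul_of_nonneg_left hg2 hcV0
      _ = _ := by
          rw [Finset.prod_inv_distrib, ← hNdef]
          ring
  rw [Finset.sum_filter, b3_split T i₁ d]
  refine (Finset.sum_le_sum hinner).trans ?_
  rw [← Finset.mul_sum]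
  have hM := multi p vis U UU b (fun w => (nrm w)⁻¹) (fun w => (inv_pos.2 (hn w)).le) Θ hΘ d
    (Sl.erase i₁) (Function.update T i₁ {d}) (by
      intro i hi
      by_cases h : i = i₁
      · rw [h, Function.update_self]
      · rw [Function.update_of_ne h]
        apply hT
        intro h2
        exact hi (Finset.mem_erase.2 ⟨h, h2⟩)) (V.filter (fun o => i₁ ∈ vis o))
    (fun o ho i hi i' hi' => hvis o (Finset.mem_filter.1 ho).1 i (Finset.mem_of_mem_erase hi) i'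
      (Finset.mem_of_mem_erase hi'))
    (fun o ho => hdis o (Finset.mem_filter.1 ho).1)
    (by
      intro i hi w hw o ho
      rw [Function.update_of_ne (Finset.ne_of_mem_erase hi)] at hw
      exact hb i (Finset.mem_of_mem_erase hi) w hw o (Finset.mem_filter.1 ho).1)
    (by
      intro i hi g hg0 hg1
      rw [Function.update_of_ne (Finset.ne_of_mem_erase hi)]
      have hi' := Finset.mem_of_mem_erase hi
      rw [b3_filter vis Sl V i₁ i p hi₁ hi' (hmin i hi') hvis]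
      exact hbt i hi' (Finset.ne_of_mem_erase hi) g hg0 hg1)
    (fun o e => avg (U i₁ o) (Γ o) e) (fun o e => avg_nonneg _ _ (hΓ o) e)
    (fun o e e' h => avg_loc _ (UU o) _ (hloc o) e e' h) cc
    (b3_second vis U Sl V i₁ hi₁ hdis Γ cc hcc) e
  refine (mul_le_mul_of_nonneg_left hM (mul_nonneg hcV0 (mul_nonneg hΘ₁ hZ.le))).trans
    (le_of_eq ?_)
  rw [← Finset.prod_filter_mul_prod_filter_not V (fun o => i₁ ∈ vis o) cc]
  ring

end multi

end SC5
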