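import Pool.Agent.MP_c1dca2_ag.SC5.E7

/-!
# [SC5-E8] dyadic summation of `bt_main`

Let `A₀, Y₀` be the constants of `bt_main` for `ε, ε₁` (assume `ε, ε₁ < 1`, the larger cases follow), `t₀ = log Y₀`
(at least `1`). Put `Π = ∏_j avg (Q j) (g j) 1`.

`sum_a`: for `j ≥ 0` let `Y_j = 2^(j+1) exp t`; split `T` into the parts `Y_j / 2 < nv w ≤ Y_j`, `0 ≤ j ≤ (t' - t) / log 2`.
`log Y_j ≥ t`, so `∑ ∑ log nv q ≤ t^(1-ε₁) ≤ (log Y_j)^(1-ε₁)`. Each part contributes at most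
`(2 / Y_j) A₀ Y_j (log Y_j)^(-1+ε) Π = 2 A₀ (t + (j+1) log 2)^(-1+ε) Π`, and
`∑_j (t + (j+1) log 2)^(-1+ε) ≤ (1 / log 2) ∫_t^{t' + 2 log 2} u^(-1+ε) du ≤ C (t')^ε` (or: `∑_{1 ≤ m ≤ M} m^(-1+ε) ≤
M^ε / ε` type estimates, using `t + (j+1) log 2 ≥ (j+1) log 2`).

`sum_b`: for `j ≥ 0` let `Y_j = Y / 2^j`, as long as `Y_j > exp t`; `T` is contained in the union of the
`Y_j / 2 < nv w ≤ Y_j`. Each part contributes at most `(2^(j+1))^(3/4) A₀ Y_j (log Y_j)^(-1+ε) Π ≤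
2 A₀ Y 2^(-j/4) t^(-1+ε) Π` (`-1 + ε ≤ 0`, `log Y_j ≥ t`), a geometric series in `j`. (If `T` is empty there is nothing
to show; otherwise `Y ≥ exp t`.)
-/

set_option autoImplicit false

open NumberField IsDedekindDomain

namespace SC5

theorem e8_sum_rpow (ε : ℝ) (hε : 0 < ε) (hε' : ε ≤ 1) (M : ℕ) :
    ∑ j ∈ Finset.range M, ((j : ℝ) + 1) ^ (-1 + ε) ≤ (M : ℝ) ^ ε / ε := by
  induction M with
  | zero => simp [Real.zero_rpow hε.ne']
  | succ M ih =>
    rw [Finset.sum_range_succ]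
    have h1 : ((M : ℝ) + 1) ^ (-1 + ε) ≤ (((M : ℝ) + 1) ^ ε - (M : ℝ) ^ ε) / ε := by
      have hM : (0 : ℝ) < (M : ℝ) + 1 := by positivity
      have hb := rpow_one_add_le_one_add_mul_self (s := -(1 / ((M : ℝ) + 1))) (p := ε)
        (by
          rw [neg_le_neg_iff, div_le_one hM]; linarith [(Nat.cast_nonneg M : (0 : ℝ) ≤ M)])
        hε.le hε'
      have he : (1 : ℝ) + -(1 / ((M : ℝ) + 1)) = (M : ℝ) / ((M : ℝ) + 1) := by
        field_simp; ring
      rw [he, Real.div_rpow (Nat.cast_nonneg M) hM.le] at hb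
      have hp : (0 : ℝ) < ((M : ℝ) + 1) ^ ε := Real.rpow_pos_of_pos hM ε
      rw [div_le_iff₀ hp] at hb
      have h2 : ((M : ℝ) + 1) ^ (-1 + ε) = ((M : ℝ) + 1) ^ ε / ((M : ℝ) + 1) := by
        rw [Real.rpow_add hM, Real.rpow_neg_one]; field_simp
      rw [h2, le_div_iff₀ hε]
      have h3 : (1 + ε * -(1 / ((M : ℝ) + 1))) * ((M : ℝ) + 1) ^ ε =
          ((M : ℝ) + 1) ^ ε - ((M : ℝ) + 1) ^ ε / ((M : ℝ) + 1) * ε := by
        field_simp
        ring
      linarith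
    push_cast
    rw [sub_div] at h1
    linarith

theorem e8_dyad_a {X : Type*} (T : Finset X) (n F : X → ℝ) (hF : ∀ w, 0 ≤ F w)
    (A P ε t t' : ℝ) (hA : 0 < A) (hP : 0 ≤ P) (hε : 0 < ε) (hε' : ε < 1) (ht : 1 ≤ t)
    (htt' : t ≤ t') (hn : ∀ w ∈ T, 0 < n w)
    (hT : ∀ w ∈ T, t < Real.log (n w) ∧ Real.log (n w) ≤ t')
    (hb : ∀ Y : ℝ, Real.exp t ≤ Y → ∀ T' : Finset X, T' ⊆ T →
      (∀ w ∈ T', Y / 2 < n w ∧ n w ≤ Y) → ∑ w ∈ T', F w ≤ A * Y * Real.log Y ^ (-1 + ε) * P) :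
    ∑ w ∈ T, (n w)⁻¹ * F w ≤ 12 * A / ε * t' ^ ε * P := by
  classical
  have hl2 : (0 : ℝ) < Real.log 2 := Real.log_pos (by norm_num)
  have hl2' : (1 / 2 : ℝ) ≤ Real.log 2 := by linarith [Real.log_two_gt_d9]
  set J : X → ℕ := fun w => ⌈(Real.log (n w) - t) / Real.log 2⌉₊ - 1 with hJ
  set M : ℕ := ⌈(t' - t) / Real.log 2⌉₊ with hM
  have hmaps : ∀ w ∈ T, J w ∈ Finset.range M := by
    intro w hw
    rw [Finset.mem_range]
    have h1 : 0 < (Real.log (n w) - t) / Real.log 2 := div_pos (by linarith [(hT w hw).1]) hl2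
    have h2 : 0 < ⌈(Real.log (n w) - t) / Real.log 2⌉₊ := Nat.ceil_pos.2 h1
    have h3 : ⌈(Real.log (n w) - t) / Real.log 2⌉₊ ≤ M := by
      apply Nat.ceil_le_ceil
      apply div_le_div_of_nonneg_right _ hl2.le
      linarith [(hT w hw).2]
    simp only [hJ]; omega
  have hpos : ∀ w ∈ T, Real.exp t * 2 ^ (J w) < n w ∧ n w ≤ Real.exp t * 2 ^ (J w + 1) := by
    intro w hw
    have h1 : 0 < (Real.log (n w) - t) / Real.log 2 := div_pos (by linarith [(hT w hw).1]) hl2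
    have h2 : 0 < ⌈(Real.log (n w) - t) / Real.log 2⌉₊ := Nat.ceil_pos.2 h1
    have h4 : J w + 1 = ⌈(Real.log (n w) - t) / Real.log 2⌉₊ := by simp only [hJ]; omega
    have h5 : ((J w : ℝ) + 1) = (⌈(Real.log (n w) - t) / Real.log 2⌉₊ : ℝ) := by
      exact_mod_cast h4
    have h6 : (Real.log (n w) - t) / Real.log 2 ≤ (J w : ℝ) + 1 := by
      rw [h5]; exact Nat.le_ceil _
    have h7 : (J w : ℝ) < (Real.log (n w) - t) / Real.log 2 := by
      have := Nat.ceil_lt_add_one h1.le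
      linarith
    rw [div_le_iff₀ hl2] at h6
    rw [lt_div_iff₀ hl2] at h7
    constructor
    · rw [← Real.exp_log (hn w hw), ← Real.exp_log (show (0 : ℝ) < 2 ^ J w by positivity),
        ← Real.exp_add, Real.exp_lt_exp, Real.log_pow]
      linarith
    · rw [← Real.exp_log (hn w hw), ← Real.exp_log (show (0 : ℝ) < 2 ^ (J w + 1) by positivity),
        ← Real.exp_add, Real.exp_le_exp, Real.log_pow]
      push_cast
      linarith
  rw [← Finset.sum_fiberwise_of_maps_to hmaps]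
  have hpart : ∀ j ∈ Finset.range M, ∑ w ∈ T with J w = j, (n w)⁻¹ * F w ≤
      4 * A * P * ((j : ℝ) + 1) ^ (-1 + ε) := by
    intro j _
    set Y : ℝ := Real.exp t * 2 ^ (j + 1) with hY
    have hYpos : 0 < Y := by positivity
    have hYt : Real.exp t ≤ Y := by
      rw [hY]
      have : (1 : ℝ) ≤ 2 ^ (j + 1) := one_le_pow₀ (by norm_num)
      nlinarith [Real.exp_pos t]
    have hY2 : Y / 2 = Real.exp t * 2 ^ j := by rw [hY, pow_succ]; ring
    have hb' := hb Y hYt (T.filter fun w => J w = j) (Finset.filter_subset _ _) (by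
      intro w hw
      rw [Finset.mem_filter] at hw
      have := hpos w hw.1
      rw [hw.2] at this
      rw [hY2]
      exact this)
    have h1 : ∑ w ∈ T with J w = j, (n w)⁻¹ * F w ≤ ∑ w ∈ T with J w = j, (2 / Y) * F w := by
      apply Finset.sum_le_sum
      intro w hw
      rw [Finset.mem_filter] at hw
      have h2 := hpos w hw.1
      rw [hw.2, ← hY2] at h2
      apply mul_le_mul_of_nonneg_right _ (hF w)
      rw [inv_le_comm₀ (hn w hw.1) (by positivity)]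
      rw [inv_div]
      exact h2.1.le
    rw [← Finset.mul_sum] at h1
    have hlogY : Real.log Y = t + ((j : ℝ) + 1) * Real.log 2 := by
      rw [hY, Real.log_mul (Real.exp_pos t).ne' (by positivity), Real.log_exp, Real.log_pow]
      push_cast; ring
    have hlow : ((j : ℝ) + 1) / 2 ≤ Real.log Y := by
      rw [hlogY]
      have : (0 : ℝ) ≤ (j : ℝ) + 1 := by positivity
      nlinarith
    have hj1 : (0 : ℝ) < ((j : ℝ) + 1) / 2 := by positivity
    have h3 : Real.log Y ^ (-1 + ε) ≤ (((j : ℝ) + 1) / 2) ^ (-1 + ε) :=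
      Real.rpow_le_rpow_of_nonpos hj1 hlow (by linarith)
    have h4 : (((j : ℝ) + 1) / 2) ^ (-1 + ε) ≤ 2 * ((j : ℝ) + 1) ^ (-1 + ε) := by
      rw [Real.div_rpow (by positivity) (by norm_num)]
      have h5 : (0 : ℝ) < 2 ^ (-1 + ε) := Real.rpow_pos_of_pos (by norm_num) _
      rw [div_le_iff₀ h5]
      have h6 : (1 / 2 : ℝ) ≤ 2 ^ (-1 + ε) := by
        have := Real.rpow_le_rpow_of_exponent_le (x := 2) (by norm_num) (show (-1 : ℝ) ≤ -1 + ε by linarith)
        rw [Real.rpow_neg_one] at this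
        linarith
      have h7 : (0 : ℝ) ≤ ((j : ℝ) + 1) ^ (-1 + ε) := Real.rpow_nonneg (by positivity) _
      nlinarith
    calc ∑ w ∈ T with J w = j, (n w)⁻¹ * F w ≤ 2 / Y * ∑ w ∈ T with J w = j, F w := h1
      _ ≤ 2 / Y * (A * Y * Real.log Y ^ (-1 + ε) * P) :=
        mul_le_mul_of_nonneg_left hb' (by positivity)
      _ = 2 * A * P * Real.log Y ^ (-1 + ε) := by field_simp
      _ ≤ 2 * A * P * (2 * ((j : ℝ) + 1) ^ (-1 + ε)) :=
        mul_le_mul_of_nonneg_left (h3.trans h4) (by positivity)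
      _ = 4 * A * P * ((j : ℝ) + 1) ^ (-1 + ε) := by ring
  calc ∑ j ∈ Finset.range M, ∑ w ∈ T with J w = j, (n w)⁻¹ * F w
      ≤ ∑ j ∈ Finset.range M, 4 * A * P * ((j : ℝ) + 1) ^ (-1 + ε) := Finset.sum_le_sum hpart
    _ = 4 * A * P * ∑ j ∈ Finset.range M, ((j : ℝ) + 1) ^ (-1 + ε) := by rw [Finset.mul_sum]
    _ ≤ 4 * A * P * ((M : ℝ) ^ ε / ε) :=
      mul_le_mul_of_nonneg_left (e8_sum_rpow ε hε hε'.le M) (by positivity)
    _ ≤ 4 * A * P * ((3 * t') ^ ε / ε) := by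
      apply mul_le_mul_of_nonneg_left _ (by positivity)
      apply div_le_div_of_nonneg_right _ hε.le
      apply Real.rpow_le_rpow (Nat.cast_nonneg M) _ hε.le
      have h1 : (M : ℝ) < (t' - t) / Real.log 2 + 1 :=
        Nat.ceil_lt_add_one (div_nonneg (by linarith) hl2.le)
      have h2 : (t' - t) / Real.log 2 ≤ 2 * (t' - t) := by
        rw [div_le_iff₀ hl2]
        nlinarith
      linarith
    _ ≤ 4 * A * P * (3 * t' ^ ε / ε) := by
      apply mul_le_mul_of_nonneg_left _ (by positivity)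
      apply div_le_div_of_nonneg_right _ hε.le
      rw [Real.mul_rpow (by norm_num) (by linarith)]
      apply mul_le_mul_of_nonneg_right _ (Real.rpow_nonneg (by linarith) _)
      have := Real.rpow_le_rpow_of_exponent_le (x := 3) (by norm_num) hε'.le
      rw [Real.rpow_one] at this
      exact this
    _ = 12 * A / ε * t' ^ ε * P := by ring

theorem e8_dyad_b {X : Type*} (T : Finset X) (n F : X → ℝ) (hF : ∀ w, 0 ≤ F w)
    (A P ε t Y : ℝ) (hA : 0 < A) (hP : 0 ≤ P) (hε' : ε < 1) (ht : 1 ≤ t) (hY : 0 < Y)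
    (hn : ∀ w ∈ T, 0 < n w) (hT : ∀ w ∈ T, t < Real.log (n w) ∧ n w ≤ Y)
    (hb : ∀ Y : ℝ, Real.exp t ≤ Y → ∀ T' : Finset X, T' ⊆ T →
      (∀ w ∈ T', Y / 2 < n w ∧ n w ≤ Y) → ∑ w ∈ T', F w ≤ A * Y * Real.log Y ^ (-1 + ε) * P) :
    ∑ w ∈ T, (Y / n w) ^ (3 / 4 : ℝ) * F w ≤
      (2 / (1 - 2 ^ (-(1 / 4) : ℝ))) * A * Y * t ^ (-1 + ε) * P := by
  classical
  have hl2 : (0 : ℝ) < Real.log 2 := Real.log_pos (by norm_num)
  set r : ℝ := 2 ^ (-(1 / 4) : ℝ) with hr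
  have hr0 : 0 < r := Real.rpow_pos_of_pos (by norm_num) _
  have hr1 : r < 1 := Real.rpow_lt_one_of_one_lt_of_neg (by norm_num) (by norm_num)
  set J : X → ℕ := fun w => ⌊Real.log (Y / n w) / Real.log 2⌋₊ with hJ
  have hpos : ∀ w ∈ T, 2 ^ (J w) ≤ Y / n w ∧ Y / n w < 2 ^ (J w + 1) := by
    intro w hw
    have hq : 1 ≤ Y / n w := by
      rw [le_div_iff₀ (hn w hw)]; linarith [(hT w hw).2]
    have hq0 : 0 < Y / n w := by linarith
    have h1 : 0 ≤ Real.log (Y / n w) / Real.log 2 := div_nonneg (Real.log_nonneg hq) hl2.le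
    have h6 : (J w : ℝ) ≤ Real.log (Y / n w) / Real.log 2 := Nat.floor_le h1
    have h7 : Real.log (Y / n w) / Real.log 2 < (J w : ℝ) + 1 := Nat.lt_floor_add_one _
    rw [le_div_iff₀ hl2] at h6
    rw [div_lt_iff₀ hl2] at h7
    constructor
    · rw [← Real.exp_log hq0, ← Real.exp_log (show (0 : ℝ) < 2 ^ J w by positivity),
        Real.exp_le_exp, Real.log_pow]
      exact h6
    · rw [← Real.exp_log hq0, ← Real.exp_log (show (0 : ℝ) < 2 ^ (J w + 1) by positivity),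
        Real.exp_lt_exp, Real.log_pow]
      push_cast
      exact h7
  set M : ℕ := (T.sup J) + 1 with hM
  have hmaps : ∀ w ∈ T, J w ∈ Finset.range M := by
    intro w hw
    rw [Finset.mem_range]
    have := Finset.le_sup (f := J) hw
    omega
  rw [← Finset.sum_fiberwise_of_maps_to hmaps]
  have hpart : ∀ j ∈ Finset.range M, ∑ w ∈ T with J w = j, (Y / n w) ^ (3 / 4 : ℝ) * F w ≤
      2 * A * Y * t ^ (-1 + ε) * P * r ^ j := by
    intro j _
    have ht0 : 0 < t := by linarith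
    rcases (T.filter fun w => J w = j).eq_empty_or_nonempty with he | ⟨w₀, hw₀⟩
    · rw [he, Finset.sum_empty]
      have : 0 ≤ t ^ (-1 + ε) := Real.rpow_nonneg ht0.le _
      positivity
    · rw [Finset.mem_filter] at hw₀
      set Z : ℝ := Y / 2 ^ j with hZ
      have hZpos : 0 < Z := by positivity
      have hcls : ∀ w ∈ T, J w = j → Z / 2 < n w ∧ n w ≤ Z := by
        intro w hw hj
        have h := hpos w hw
        rw [hj] at h
        have hnw := hn w hw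
        rw [le_div_iff₀ hnw, div_lt_iff₀ hnw] at h
        constructor
        · rw [hZ, div_div, div_lt_iff₀ (by positivity), ← pow_succ]
          linarith [h.2]
        · rw [hZ, le_div_iff₀ (by positivity)]
          linarith [h.1]
      have hZt : Real.exp t ≤ Z := by
        have h1 := (hcls w₀ hw₀.1 hw₀.2).2
        have h2 := (hT w₀ hw₀.1).1
        have h3 : Real.exp t < n w₀ := by
          rw [← Real.exp_log (hn w₀ hw₀.1)]; exact Real.exp_lt_exp.2 h2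
        linarith
      have hb' := hb Z hZt (T.filter fun w => J w = j) (Finset.filter_subset _ _) (by
        intro w hw
        rw [Finset.mem_filter] at hw
        exact hcls w hw.1 hw.2)
      have h1 : ∑ w ∈ T with J w = j, (Y / n w) ^ (3 / 4 : ℝ) * F w ≤
          ∑ w ∈ T with J w = j, ((2 : ℝ) ^ (j + 1)) ^ (3 / 4 : ℝ) * F w := by
        apply Finset.sum_le_sum
        intro w hw
        rw [Finset.mem_filter] at hw
        have h2 := hpos w hw.1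
        rw [hw.2] at h2
        apply mul_le_mul_of_nonneg_right _ (hF w)
        apply Real.rpow_le_rpow _ h2.2.le (by norm_num)
        exact div_nonneg hY.le (hn w hw.1).le
      rw [← Finset.mul_sum] at h1
      have hlogZ : t ≤ Real.log Z := by
        rw [Real.le_log_iff_exp_le hZpos]; exact hZt
      have h3 : Real.log Z ^ (-1 + ε) ≤ t ^ (-1 + ε) :=
        Real.rpow_le_rpow_of_nonpos ht0 hlogZ (by linarith)
      have ht3 : 0 ≤ t ^ (-1 + ε) := Real.rpow_nonneg ht0.le _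
      have h4 : ((2 : ℝ) ^ (j + 1)) ^ (3 / 4 : ℝ) * Z ≤ 2 * Y * r ^ j := by
        have e1 : ((2 : ℝ) ^ (j + 1)) ^ (3 / 4 : ℝ) = 2 ^ (3 / 4 : ℝ) * (2 ^ (3 / 4 : ℝ)) ^ j := by
          rw [← Real.rpow_natCast, ← Real.rpow_mul (by norm_num), ← Real.rpow_natCast,
            ← Real.rpow_mul (by norm_num), ← Real.rpow_add (by norm_num)]
          congr 1
          push_cast; ring
        have e2 : (2 ^ (3 / 4 : ℝ)) ^ j * Z = Y * r ^ j := by
          have : (2 : ℝ) ^ (3 / 4 : ℝ) = 2 * r := by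
            rw [hr, show (3 / 4 : ℝ) = 1 + (-(1 / 4)) by norm_num, Real.rpow_add (by norm_num),
              Real.rpow_one]
            
          rw [this, hZ, mul_pow]
          field_simp
        rw [e1, mul_assoc, e2]
        have e3 : (2 : ℝ) ^ (3 / 4 : ℝ) ≤ 2 := by
          have := Real.rpow_le_rpow_of_exponent_le (x := 2) (by norm_num)
            (show (3 / 4 : ℝ) ≤ 1 by norm_num)
          rw [Real.rpow_one] at this
          exact this
        have e4 : 0 ≤ Y * r ^ j := by positivity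
        nlinarith
      calc ∑ w ∈ T with J w = j, (Y / n w) ^ (3 / 4 : ℝ) * F w
          ≤ ((2 : ℝ) ^ (j + 1)) ^ (3 / 4 : ℝ) * ∑ w ∈ T with J w = j, F w := h1
        _ ≤ ((2 : ℝ) ^ (j + 1)) ^ (3 / 4 : ℝ) * (A * Z * Real.log Z ^ (-1 + ε) * P) :=
          mul_le_mul_of_nonneg_left hb' (Real.rpow_nonneg (by positivity) _)
        _ ≤ ((2 : ℝ) ^ (j + 1)) ^ (3 / 4 : ℝ) * (A * Z * t ^ (-1 + ε) * P) := by
          apply mul_le_mul_of_nonneg_left _ (Real.rpow_nonneg (by positivity) _)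
          apply mul_le_mul_of_nonneg_right _ hP
          apply mul_le_mul_of_nonneg_left h3 (by positivity)
        _ = (((2 : ℝ) ^ (j + 1)) ^ (3 / 4 : ℝ) * Z) * (A * t ^ (-1 + ε) * P) := by ring
        _ ≤ (2 * Y * r ^ j) * (A * t ^ (-1 + ε) * P) :=
          mul_le_mul_of_nonneg_right h4 (by positivity)
        _ = 2 * A * Y * t ^ (-1 + ε) * P * r ^ j := by ring
  have ht3 : 0 ≤ t ^ (-1 + ε) := Real.rpow_nonneg (by linarith) _
  calc ∑ j ∈ Finset.range M, ∑ w ∈ T with J w = j, (Y / n w) ^ (3 / 4 : ℝ) * F w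
      ≤ ∑ j ∈ Finset.range M, 2 * A * Y * t ^ (-1 + ε) * P * r ^ j := Finset.sum_le_sum hpart
    _ = 2 * A * Y * t ^ (-1 + ε) * P * ∑ j ∈ Finset.range M, r ^ j := by rw [Finset.mul_sum]
    _ ≤ 2 * A * Y * t ^ (-1 + ε) * P * (1 - r)⁻¹ := by
      apply mul_le_mul_of_nonneg_left _ (by positivity)
      rw [← tsum_geometric_of_lt_one hr0.le hr1]
      exact (summable_geometric_of_lt_one hr0.le hr1).sum_le_tsum _
        (fun i _ => by positivity)
    _ = (2 / (1 - r)) * A * Y * t ^ (-1 + ε) * P := by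
      rw [div_eq_mul_inv]; ring

theorem e8_avg_nonneg {X : Type} (Q : Finset X) (g : (X → ℤˣ) → ℝ) (h : ∀ e, 0 ≤ g e)
    (e : X → ℤˣ) : 0 ≤ avg Q g e := by
  unfold avg
  exact div_nonneg (Finset.sum_nonneg fun _ _ => h _) (by positivity)

theorem e8_one_le_log {Y₀ : ℝ} (h : 3 ≤ Y₀) : 1 ≤ Real.log Y₀ := by
  rw [Real.le_log_iff_exp_le (by linarith)]
  linarith [Real.exp_one_lt_d9]

theorem e8_pow {t Y S ε₁ : ℝ} (ht : 1 ≤ t) (hY : Real.exp t ≤ Y) (hS : S ≤ t ^ (1 - ε₁)) :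
    S ≤ Real.log Y ^ (1 - min ε₁ 1) := by
  have hY0 : 0 < Y := lt_of_lt_of_le (Real.exp_pos t) hY
  have hlog : t ≤ Real.log Y := by
    rw [Real.le_log_iff_exp_le hY0]; exact hY
  calc S ≤ t ^ (1 - ε₁) := hS
    _ ≤ t ^ (1 - min ε₁ 1) :=
      Real.rpow_le_rpow_of_exponent_le ht (by linarith [min_le_left ε₁ 1])
    _ ≤ Real.log Y ^ (1 - min ε₁ 1) :=
      Real.rpow_le_rpow (by linarith) hlog (by linarith [min_le_right ε₁ 1])

theorem sum_a (K : Type) [Field K] [NumberField K] (al : Pr K → 𝓞 K) (C : ℕ) (hal : Gen al C)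
    (ε ε₁ : ℝ) (hε : 0 < ε) (hε' : ε < 1) (hε₁ : 0 < ε₁) : ∃ A t₀ : ℝ, 0 < A ∧ 1 ≤ t₀ ∧
    ∀ t t' : ℝ, t₀ ≤ t → t ≤ t' →
    ∀ {J : Type} [Fintype J] (Q : J → Finset (Pr K)) (g : J → (Pr K → ℤˣ) → ℝ), QG C Q g →
      (∑ j, ∑ q ∈ Q j, Real.log (nv q)) ≤ t ^ (1 - ε₁) →
      ∀ T : Finset (Pr K), (∀ w ∈ T, t < Real.log (nv w) ∧ Real.log (nv w) ≤ t' ∧
          ∀ j, w ∉ Q j) →
        ∑ w ∈ T, ((nv w : ℝ))⁻¹ * ∏ j, g j (fun q => sg q (al w)) ≤
          A * t' ^ ε * ∏ j, avg (Q j) (g j) 1 := by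
  obtain ⟨A, Y₀, hA, hY₀, hmain⟩ := bt_main K al C hal ε (min ε₁ 1) hε (lt_min hε₁ one_pos)
  refine ⟨12 * A / ε, Real.log Y₀, by positivity, e8_one_le_log hY₀, ?_⟩
  intro t t' ht htt' J _ Q g hQG hsum T hT
  have ht1 : 1 ≤ t := (e8_one_le_log hY₀).trans ht
  refine e8_dyad_a T (fun w => (nv w : ℝ)) (fun w => ∏ j, g j (fun q => sg q (al w)))
    (fun w => Finset.prod_nonneg fun j _ => hQG.nonneg j _) A (∏ j, avg (Q j) (g j) 1) ε t t' hA
    (Finset.prod_nonneg fun j _ => e8_avg_nonneg _ _ (hQG.nonneg j) _) hε hε' ht1 htt' ?_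
    (fun w hw => ⟨(hT w hw).1, (hT w hw).2.1⟩) ?_
  · intro w hw
    have h1 := (hT w hw).1
    rcases Nat.eq_zero_or_pos (nv w) with h | h
    · rw [h, Nat.cast_zero, Real.log_zero] at h1
      linarith
    · exact_mod_cast h
  · intro Y hY T' hT' hT2
    refine hmain Y ?_ Q g hQG (e8_pow ht1 hY hsum) T' ?_
    · calc Y₀ = Real.exp (Real.log Y₀) := (Real.exp_log (by linarith)).symm
        _ ≤ Real.exp t := Real.exp_le_exp.2 ht
        _ ≤ Y := hY
    · intro w hw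
      exact ⟨(hT2 w hw).1, (hT2 w hw).2, (hT w (hT' hw)).2.2⟩

theorem sum_b (K : Type) [Field K] [NumberField K] (al : Pr K → 𝓞 K) (C : ℕ) (hal : Gen al C)
    (ε ε₁ : ℝ) (hε : 0 < ε) (hε' : ε < 1) (hε₁ : 0 < ε₁) : ∃ A t₀ : ℝ, 0 < A ∧ 1 ≤ t₀ ∧
    ∀ t Y : ℝ, t₀ ≤ t → 0 < Y →
    ∀ {J : Type} [Fintype J] (Q : J → Finset (Pr K)) (g : J → (Pr K → ℤˣ) → ℝ), QG C Q g →
      (∑ j, ∑ q ∈ Q j, Real.log (nv q)) ≤ t ^ (1 - ε₁) →
      ∀ T : Finset (Pr K), (∀ w ∈ T, t < Real.log (nv w) ∧ (nv w : ℝ) ≤ Y ∧ ∀ j, w ∉ Q j) →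
        ∑ w ∈ T, (Y / nv w) ^ (3 / 4 : ℝ) * ∏ j, g j (fun q => sg q (al w)) ≤
          A * Y * t ^ (-1 + ε) * ∏ j, avg (Q j) (g j) 1 := by
  obtain ⟨A, Y₀, hA, hY₀, hmain⟩ := bt_main K al C hal ε (min ε₁ 1) hε (lt_min hε₁ one_pos)
  have hr1 : (2 : ℝ) ^ (-(1 / 4) : ℝ) < 1 :=
    Real.rpow_lt_one_of_one_lt_of_neg (by norm_num) (by norm_num)
  refine ⟨(2 / (1 - 2 ^ (-(1 / 4) : ℝ))) * A, Real.log Y₀,
    mul_pos (div_pos two_pos (by linarith)) hA, e8_one_le_log hY₀, ?_⟩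
  intro t Y ht hY0 J _ Q g hQG hsum T hT
  have ht1 : 1 ≤ t := (e8_one_le_log hY₀).trans ht
  refine e8_dyad_b T (fun w => (nv w : ℝ)) (fun w => ∏ j, g j (fun q => sg q (al w)))
    (fun w => Finset.prod_nonneg fun j _ => hQG.nonneg j _) A (∏ j, avg (Q j) (g j) 1) ε t Y hA
    (Finset.prod_nonneg fun j _ => e8_avg_nonneg _ _ (hQG.nonneg j) _) hε' ht1 hY0 ?_
    (fun w hw => ⟨(hT w hw).1, (hT w hw).2.1⟩) ?_
  · intro w hw
    have h1 := (hT w hw).1
    rcases Nat.eq_zero_or_pos (nv w) with h | h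
    · rw [h, Nat.cast_zero, Real.log_zero] at h1
      linarith
    · exact_mod_cast h
  · intro Y hY T' hT' hT2
    refine hmain Y ?_ Q g hQG (e8_pow ht1 hY hsum) T' ?_
    · calc Y₀ = Real.exp (Real.log Y₀) := (Real.exp_log (by linarith)).symm
        _ ≤ Real.exp t := Real.exp_le_exp.2 ht
        _ ≤ Y := hY
    · intro w hw
      exact ⟨(hT2 w hw).1, (hT2 w hw).2, (hT w (hT' hw)).2.2⟩

end SC5
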