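import Pool.Agent.MP_c1dca2_ag.SC5.Fam
import Pool.Agent.MP_c1dca2_ag.SC5.E8

/-!
# [SC5-B4] `sum_a`, `sum_b` in terms of the family

Fix `i` (take the maximum of the constants over the finitely many `i` at the end; `t ^ ε` etc. are nonnegative). Apply `sum_a` (`sum_b`)
with `K = L i`, `al = al i`, `C = Cg`, `ε`, `ε₁ / 2` in place of `ε₁`; `J = {o // o ∈ V}`, `Q o` = the set of the primes
`q` of `L i` with `⟨i, q⟩ ∈ up k {i} o` (i.e. `bl k q = bl k o.2`, `mem_up`), and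
`g o e = h o (fun q => if hq : q.1 = i then e (hq ▸ q.2) else 1)`.
`QG`: disjoint by `hinj`; nonneg, local by `hloc`; `two`: `2 ∈ q.asIdeal` would imply `2 ∈ (bl k q).asIdeal` (`mem_bl`),
`hF.two`; `large`: `hF.large`.
Size: `∑_{q ∈ Q o} log (nv q) = ∑ dg k q * log (nv (bl k o.2)) ≤ n log (nv (bl k o.2))`, `n = finrank k (L i)` (`nv_eq`,
`card_bl`), so the total is at most `n t ^ (1 - ε₁) ≤ t ^ (1 - ε₁ / 2)` for `t ≥ t₀` (enlarge `t₀`).
For `w ∈ T`, `w = ⟨i, w'⟩`: `w' ∉ Q o` by `hT`; `bt al q w = sg q.2 (al i w')` for `q` of index `i` and `1` otherwise, so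
`h o (fun q => bt al q w) = g o (fun q => sg q (al i w'))`. The sum over `T` is the sum over the finset of the `w'`.
`avg (Q o) (g o) 1 = avg (up k {i} o) (h o) 1` by `avg_map` (`f = Sigma.mk i`), or by bijection of the
power sets, plus `hloc`. `∏_{o : {o // o ∈ V}} = ∏_{o ∈ V}`: `Finset.prod_coe_sort`.
-/

set_option autoImplicit false

open NumberField IsDedekindDomain

namespace SC5

/-- the inclusion of the primes of `L i` -/
def b4inc {I : Type} {L : I → Type} [∀ i, Field (L i)] [∀ i, NumberField (L i)] (i : I)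
    (q : Pr (L i)) : PL L := ⟨i, q⟩

theorem b4inc_inj {I : Type} {L : I → Type} [∀ i, Field (L i)] [∀ i, NumberField (L i)] (i : I) :
    Function.Injective (b4inc i : Pr (L i) → PL L) := by
  intro a b h
  have h2 : (⟨i, a⟩ : Σ i, Pr (L i)) = ⟨i, b⟩ := h
  exact eq_of_heq (Sigma.mk.inj_iff.1 h2).2

theorem b4inc_eta {I : Type} {L : I → Type} [∀ i, Field (L i)] [∀ i, NumberField (L i)] (i : I)
    (q : PL L) (hq : q.1 = i) : ∃ q' : Pr (L i), q = b4inc i q' := by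
  obtain ⟨j, q⟩ := q
  subst hq
  exact ⟨q, rfl⟩

open scoped Classical in
/-- extension by `1` -/
noncomputable def b4ext {I : Type} {L : I → Type} [∀ i, Field (L i)] [∀ i, NumberField (L i)]
    (i : I) (e : Pr (L i) → ℤˣ) (q : PL L) : ℤˣ := if hq : q.1 = i then e (hq ▸ q.2) else 1

theorem b4ext_inc {I : Type} {L : I → Type} [∀ i, Field (L i)] [∀ i, NumberField (L i)]
    (i : I) (e : Pr (L i) → ℤˣ) (q : Pr (L i)) : b4ext i e (b4inc i q : PL L) = e q := by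
  unfold b4ext b4inc
  simp

theorem b4ext_ne {I : Type} {L : I → Type} [∀ i, Field (L i)] [∀ i, NumberField (L i)]
    (i : I) (e : Pr (L i) → ℤˣ) (q : PL L) (hq : q.1 ≠ i) : b4ext i e q = 1 := by
  unfold b4ext
  rw [dif_neg hq]

/-- the primes of `L i` above the prime below `o` -/
noncomputable def b4Q (k : Type) [Field k] [NumberField k] {I : Type} {L : I → Type}
    [∀ i, Field (L i)] [∀ i, NumberField (L i)] [∀ i, Algebra k (L i)] (i : I) (o : PL L) :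
    Finset (Pr (L i)) :=
  (up k {i} o).preimage (b4inc i) (b4inc_inj i).injOn

variable {k : Type} [Field k] [NumberField k] {I : Type} [Fintype I] {L : I → Type}
  [∀ i, Field (L i)] [∀ i, NumberField (L i)] [∀ i, Algebra k (L i)] {S : Finset (Pr k)}
  {al : ∀ i, Pr (L i) → 𝓞 (L i)} {Cg : ℕ}

omit [Fintype I] in
theorem b4mem_Q (i : I) (o : PL L) (q : Pr (L i)) : q ∈ b4Q k i o ↔ bl k q = bl k o.2 := by
  unfold b4Q
  rw [Finset.mem_preimage, mem_up]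
  constructor
  · intro h
    exact h.2
  · intro h
    exact ⟨Finset.mem_singleton_self i, h⟩

omit [Fintype I] in
open scoped Classical in
theorem b4image_Q (i : I) (o : PL L) : (b4Q k i o).image (b4inc i) = up k {i} o := by
  ext q
  rw [Finset.mem_image, mem_up, Finset.mem_singleton]
  constructor
  · rintro ⟨q', h1, h2⟩
    rw [← h2]
    exact ⟨rfl, (b4mem_Q i o q').1 h1⟩
  · rintro ⟨h1, h2⟩
    obtain ⟨q', rfl⟩ := b4inc_eta i q h1
    exact ⟨q', (b4mem_Q i o q').2 h2, rfl⟩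

omit [Fintype I] in
open scoped Classical in
theorem b4slot_avg (i : I) (o : PL L) (h : (PL L → ℤˣ) → ℝ)
    (hloc : ∀ e e', (∀ q ∈ up k {i} o, e q = e' q) → h e = h e') :
    avg (b4Q k i o) (fun e => h (b4ext i e)) 1 = avg (up k {i} o) h 1 := by
  rw [← b4image_Q]
  have h1 := avg_map (b4inc i) (b4inc_inj i) (b4Q k i o) (fun e => h (b4ext i e)) 1
  have h2 : (fun x : PL L → ℤˣ => h (b4ext i (fun y => x (b4inc i y)))) = h := by
    funext x
    apply hloc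
    intro q hq
    obtain ⟨q', rfl⟩ := b4inc_eta i q (Finset.mem_singleton.1 ((mem_up _ _ _).1 hq).1)
    rw [b4ext_inc]
  have h3 : avg ((b4Q k i o).image (b4inc i)) (fun x : PL L → ℤˣ => h (b4ext i (fun y => x (b4inc i y)))) 1 =
      avg (b4Q k i o) (fun e => h (b4ext i e)) (fun y => (1 : PL L → ℤˣ) (b4inc i y)) := h1
  rw [h2] at h3
  rw [h3]
  rfl

theorem b4slot_QG (hF : Fam k L S al Cg) (i : I) (V : Finset (PL L))
    (hVS : ∀ o ∈ V, bl k o.2 ∉ S) (hinj : ∀ o ∈ V, ∀ o' ∈ V, bl k o.2 = bl k o'.2 → o = o')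
    (h : PL L → (PL L → ℤˣ) → ℝ) (hpos : ∀ o e, 0 ≤ h o e)
    (hloc : ∀ o e e', (∀ q ∈ up k {i} o, e q = e' q) → h o e = h o e') :
    QG Cg (fun o : {o // o ∈ V} => b4Q k i o.1) (fun o e => h o.1 (b4ext i e)) where
  disj := by
    intro j j' hjj
    rw [Finset.disjoint_left]
    intro q hq hq'
    rw [b4mem_Q] at hq hq'
    exact hjj (Subtype.ext (hinj _ j.2 _ j'.2 (hq.symm.trans hq')))
  nonneg := fun j e => hpos _ _
  loc := by
    intro j e e' he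
    apply hloc
    intro q hq
    obtain ⟨q', rfl⟩ := b4inc_eta i q (Finset.mem_singleton.1 ((mem_up _ _ _).1 hq).1)
    rw [b4ext_inc, b4ext_inc]
    exact he q' ((b4mem_Q i j.1 q').2 ((mem_up _ _ _).1 hq).2)
  two := by
    intro j q hq h2
    rw [b4mem_Q] at hq
    have h3 : (2 : 𝓞 k) ∈ (bl k q).asIdeal := by
      rw [mem_bl, map_ofNat]
      exact h2
    rw [hq] at h3
    exact hF.two _ (hVS _ j.2) h3
  large := by
    intro j q hq
    rw [b4mem_Q] at hq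
    apply hF.large
    rw [hq]
    exact hVS _ j.2

omit [Fintype I] in
theorem b4slot_size (i : I) (V : Finset (PL L)) :
    ∑ o : {o // o ∈ V}, ∑ q ∈ b4Q k i o.1, Real.log (nv q) ≤
      Module.finrank k (L i) * ∑ o ∈ V, Real.log (nv (bl k o.2)) := by
  rw [Finset.sum_coe_sort V (fun o => ∑ q ∈ b4Q k i o, Real.log (nv q)), Finset.mul_sum]
  apply Finset.sum_le_sum
  intro o _
  have h1 : ∑ q ∈ b4Q k i o, Real.log (nv q) =
      ((∑ q ∈ b4Q k i o, dg k q : ℕ) : ℝ) * Real.log (nv (bl k o.2)) := by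
    rw [Nat.cast_sum, Finset.sum_mul]
    apply Finset.sum_congr rfl
    intro q hq
    rw [nv_eq (k := k) q, (b4mem_Q i o q).1 hq, Nat.cast_pow, Real.log_pow]
  rw [h1]
  apply mul_le_mul_of_nonneg_right
  · exact_mod_cast card_bl (bl k o.2) (b4Q k i o) (fun q hq => (b4mem_Q i o q).1 hq)
  · apply Real.log_nonneg
    have := two_le_nv (bl k o.2)
    have h2 : (2 : ℝ) ≤ nv (bl k o.2) := by exact_mod_cast this
    linarith

theorem b4slot_pow (n : ℕ) (ε₁ t s : ℝ) (hε₁ : 0 < ε₁) (ht : 1 ≤ t) (hn : (n : ℝ) ^ (2 / ε₁) ≤ t)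
    (hs : s ≤ t ^ (1 - ε₁)) : n * s ≤ t ^ (1 - ε₁ / 2) := by
  have h0 : 0 < t := by linarith
  have h1 : (n : ℝ) ≤ t ^ (ε₁ / 2) := by
    have h2 : ((n : ℝ) ^ (2 / ε₁)) ^ (ε₁ / 2) = n := by
      rw [← Real.rpow_mul (Nat.cast_nonneg n)]
      have : 2 / ε₁ * (ε₁ / 2) = 1 := by field_simp
      rw [this, Real.rpow_one]
    rw [← h2]
    exact Real.rpow_le_rpow (Real.rpow_nonneg (Nat.cast_nonneg n) _) hn (by positivity)
  have h3 : t ^ (1 - ε₁ / 2) = t ^ (ε₁ / 2) * t ^ (1 - ε₁) := by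
    rw [← Real.rpow_add h0]
    congr 1
    ring
  rw [h3]
  calc (n : ℝ) * s ≤ n * t ^ (1 - ε₁) := mul_le_mul_of_nonneg_left hs (Nat.cast_nonneg n)
    _ ≤ t ^ (ε₁ / 2) * t ^ (1 - ε₁) := mul_le_mul_of_nonneg_right h1 (by positivity)

omit [Fintype I] [∀ i, Algebra k (L i)] [NumberField k] [Field k] in
theorem b4bt_inc (i : I) (w : Pr (L i)) :
    (fun q : PL L => bt al q (b4inc i w)) = b4ext i (fun q => sg q (al i w)) := by
  funext q
  by_cases hq : q.1 = i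
  · obtain ⟨q', rfl⟩ := b4inc_eta i q hq
    rw [b4ext_inc]
    unfold bt b4inc
    simp
  · rw [b4ext_ne i _ q hq]
    unfold bt b4inc
    rw [dif_neg (fun h => hq h.symm)]

omit [Fintype I] [∀ i, Algebra k (L i)] [NumberField k] [Field k] in
theorem b4slot_prod (i : I) (V : Finset (PL L)) (h : PL L → (PL L → ℤˣ) → ℝ) (w : Pr (L i)) :
    ∏ o ∈ V, h o (fun q => bt al q (b4inc i w)) =
      ∏ o : {o // o ∈ V}, h o.1 (b4ext i (fun q => sg q (al i w))) := by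
  rw [Finset.prod_coe_sort V (fun o => h o (b4ext i (fun q => sg q (al i w)))), b4bt_inc]

omit [Fintype I] in
open scoped Classical in
theorem b4slot_avgs (i : I) (V : Finset (PL L)) (h : PL L → (PL L → ℤˣ) → ℝ)
    (hloc : ∀ o e e', (∀ q ∈ up k {i} o, e q = e' q) → h o e = h o e') :
    ∏ o : {o // o ∈ V}, avg (b4Q k i o.1) (fun e => h o.1 (b4ext i e)) 1 =
      ∏ o ∈ V, avg (up k {i} o) (h o) 1 := by
  rw [Finset.prod_coe_sort V (fun o => avg (b4Q k i o) (fun e => h o (b4ext i e)) 1)]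
  apply Finset.prod_congr rfl
  intro o _
  exact b4slot_avg i o (h o) (hloc o)

omit [Fintype I] [∀ i, Algebra k (L i)] [NumberField k] [Field k] in
theorem b4slot_sum (i : I) (T : Finset (PL L)) (hT : ∀ w ∈ T, w.1 = i) (F : PL L → ℝ) :
    ∑ w ∈ T, F w = ∑ w ∈ T.preimage (b4inc i) (b4inc_inj i).injOn, F (b4inc i w) := by
  rw [Finset.sum_preimage (b4inc i) T (b4inc_inj i).injOn F]
  intro x hx hxn
  exfalso
  obtain ⟨q', rfl⟩ := b4inc_eta i x (hT x hx)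
  exact hxn ⟨q', rfl⟩

theorem b4unif {I : Type} [Fintype I] (P : I → ℝ → ℝ → Prop)
    (hmono : ∀ i A t A' t', P i A t → A ≤ A' → t ≤ t' → P i A' t')
    (h : ∀ i, ∃ A t, 0 < A ∧ 1 ≤ t ∧ P i A t) : ∃ A t, 0 < A ∧ 1 ≤ t ∧ ∀ i, P i A t := by
  choose A t h1 h2 h3 using h
  refine ⟨1 + ∑ i, A i, 1 + ∑ i, t i, ?_, ?_, ?_⟩
  · have : 0 ≤ ∑ i, A i := Finset.sum_nonneg fun i _ => (h1 i).le
    linarith
  · have : 0 ≤ ∑ i, t i := Finset.sum_nonneg fun i _ => by linarith [h2 i]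
    linarith
  · intro i
    apply hmono i (A i) (t i) _ _ (h3 i)
    · have := Finset.single_le_sum (f := A) (fun i _ => (h1 i).le) (Finset.mem_univ i)
      linarith
    · have := Finset.single_le_sum (f := t) (fun i _ => by linarith [h2 i]) (Finset.mem_univ i)
      linarith

theorem slot_a (hF : Fam k L S al Cg) (ε ε₁ : ℝ) (hε : 0 < ε) (hε' : ε < 1) (hε₁ : 0 < ε₁) :
    ∃ A t₀ : ℝ, 0 < A ∧ 1 ≤ t₀ ∧ ∀ t t' : ℝ, t₀ ≤ t → t ≤ t' → ∀ V : Finset (PL L),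
      (∀ o ∈ V, bl k o.2 ∉ S) → (∀ o ∈ V, ∀ o' ∈ V, bl k o.2 = bl k o'.2 → o = o') →
      (∑ o ∈ V, Real.log (nv (bl k o.2))) ≤ t ^ (1 - ε₁) →
      ∀ i, ∀ h : PL L → (PL L → ℤˣ) → ℝ, (∀ o e, 0 ≤ h o e) →
      (∀ o e e', (∀ q ∈ up k {i} o, e q = e' q) → h o e = h o e') →
      ∀ T : Finset (PL L), (∀ w ∈ T, w.1 = i ∧ t < Real.log (nv w.2) ∧ Real.log (nv w.2) ≤ t' ∧
        ∀ o ∈ V, bl k w.2 ≠ bl k o.2) →
      ∑ w ∈ T, ((nv w.2 : ℝ))⁻¹ * ∏ o ∈ V, h o (fun q => bt al q w) ≤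
        A * t' ^ ε * ∏ o ∈ V, avg (up k {i} o) (h o) 1 := by
  classical
  have hex := b4unif (fun (i : I) (A t₀ : ℝ) => ∀ t t' : ℝ, 1 ≤ t →
      t₀ ≤ t → t ≤ t' → ∀ V : Finset (PL L),
      (∀ o ∈ V, bl k o.2 ∉ S) → (∀ o ∈ V, ∀ o' ∈ V, bl k o.2 = bl k o'.2 → o = o') →
      (∑ o ∈ V, Real.log (nv (bl k o.2))) ≤ t ^ (1 - ε₁) →
      ∀ h : PL L → (PL L → ℤˣ) → ℝ, (∀ o e, 0 ≤ h o e) →
      (∀ o e e', (∀ q ∈ up k {i} o, e q = e' q) → h o e = h o e') →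
      ∀ T : Finset (PL L), (∀ w ∈ T, w.1 = i ∧ t < Real.log (nv w.2) ∧ Real.log (nv w.2) ≤ t' ∧
        ∀ o ∈ V, bl k w.2 ≠ bl k o.2) →
      ∑ w ∈ T, ((nv w.2 : ℝ))⁻¹ * ∏ o ∈ V, h o (fun q => bt al q w) ≤
        A * t' ^ ε * ∏ o ∈ V, avg (up k {i} o) (h o) 1) (by
    intro i A t₀ A' t₀' h0 hAA htt t t' h1 h1' h2 V h3 h4 h5 h h6 h7 T h8
    refine (h0 t t' h1 (htt.trans h1') h2 V h3 h4 h5 h h6 h7 T h8).trans ?_
    apply mul_le_mul_of_nonneg_right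
    · apply mul_le_mul_of_nonneg_right hAA
      exact Real.rpow_nonneg (by linarith) _
    · exact Finset.prod_nonneg fun o _ => avg_nonneg _ _ (h6 o) _) (by
    intro i
    obtain ⟨A, t₀, hA, ht₀, hs⟩ := sum_a (L i) (al i) Cg (hF.gen i) ε (ε₁ / 2) hε hε'
      (by positivity)
    refine ⟨A, t₀ + (Module.finrank k (L i) : ℝ) ^ (2 / ε₁), hA, ?_, ?_⟩
    · have : 0 ≤ (Module.finrank k (L i) : ℝ) ^ (2 / ε₁) := by positivity
      linarith
    · intro t t' h1 h1' h2 V h3 h4 h5 h h6 h7 T h8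
      have hnn : 0 ≤ (Module.finrank k (L i) : ℝ) ^ (2 / ε₁) := by positivity
      have key := hs t t' (by linarith) h2 (J := {o // o ∈ V}) (fun o => b4Q k i o.1)
        (fun o e => h o.1 (b4ext i e)) (b4slot_QG hF i V h3 h4 h h6 h7)
        ((b4slot_size i V).trans (b4slot_pow _ ε₁ t _ hε₁ h1 (by linarith) h5))
        (T.preimage (b4inc i) (b4inc_inj i).injOn) (by
          intro w hw
          rw [Finset.mem_preimage] at hw
          have h9 := h8 _ hw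
          refine ⟨h9.2.1, h9.2.2.1, ?_⟩
          intro j hj
          rw [b4mem_Q] at hj
          exact h9.2.2.2 j.1 j.2 hj)
      rw [b4slot_avgs i V h h7] at key
      rw [b4slot_sum i T (fun w hw => (h8 w hw).1)]
      refine le_trans (le_of_eq ?_) key
      apply Finset.sum_congr rfl
      intro w _
      rw [b4slot_prod]
      rfl)
  obtain ⟨A, t₀, hA, ht₀, hmain⟩ := hex
  refine ⟨A, t₀, hA, ht₀, ?_⟩
  intro t t' h1 h2 V h3 h4 h5 i h h6 h7 T h8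
  exact hmain i t t' (ht₀.trans h1) h1 h2 V h3 h4 h5 h h6 h7 T h8

theorem slot_b (hF : Fam k L S al Cg) (ε ε₁ : ℝ) (hε : 0 < ε) (hε' : ε < 1) (hε₁ : 0 < ε₁) :
    ∃ A t₀ : ℝ, 0 < A ∧ 1 ≤ t₀ ∧ ∀ t Y : ℝ, t₀ ≤ t → 0 < Y → ∀ V : Finset (PL L),
      (∀ o ∈ V, bl k o.2 ∉ S) → (∀ o ∈ V, ∀ o' ∈ V, bl k o.2 = bl k o'.2 → o = o') →
      (∑ o ∈ V, Real.log (nv (bl k o.2))) ≤ t ^ (1 - ε₁) →
      ∀ i, ∀ h : PL L → (PL L → ℤˣ) → ℝ, (∀ o e, 0 ≤ h o e) →
      (∀ o e e', (∀ q ∈ up k {i} o, e q = e' q) → h o e = h o e') →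
      ∀ T : Finset (PL L), (∀ w ∈ T, w.1 = i ∧ t < Real.log (nv w.2) ∧ (nv w.2 : ℝ) ≤ Y ∧
        ∀ o ∈ V, bl k w.2 ≠ bl k o.2) →
      ∑ w ∈ T, (Y / nv w.2) ^ (3 / 4 : ℝ) * ∏ o ∈ V, h o (fun q => bt al q w) ≤
        A * Y * t ^ (-1 + ε) * ∏ o ∈ V, avg (up k {i} o) (h o) 1 := by
  classical
  have hex := b4unif (fun (i : I) (A t₀ : ℝ) => ∀ t Y : ℝ, 1 ≤ t →
      t₀ ≤ t → 0 < Y → ∀ V : Finset (PL L),
      (∀ o ∈ V, bl k o.2 ∉ S) → (∀ o ∈ V, ∀ o' ∈ V, bl k o.2 = bl k o'.2 → o = o') →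
      (∑ o ∈ V, Real.log (nv (bl k o.2))) ≤ t ^ (1 - ε₁) →
      ∀ h : PL L → (PL L → ℤˣ) → ℝ, (∀ o e, 0 ≤ h o e) →
      (∀ o e e', (∀ q ∈ up k {i} o, e q = e' q) → h o e = h o e') →
      ∀ T : Finset (PL L), (∀ w ∈ T, w.1 = i ∧ t < Real.log (nv w.2) ∧ (nv w.2 : ℝ) ≤ Y ∧
        ∀ o ∈ V, bl k w.2 ≠ bl k o.2) →
      ∑ w ∈ T, (Y / nv w.2) ^ (3 / 4 : ℝ) * ∏ o ∈ V, h o (fun q => bt al q w) ≤
        A * Y * t ^ (-1 + ε) * ∏ o ∈ V, avg (up k {i} o) (h o) 1) (by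
    intro i A t₀ A' t₀' h0 hAA htt t Y h1 h1' h2 V h3 h4 h5 h h6 h7 T h8
    refine (h0 t Y h1 (htt.trans h1') h2 V h3 h4 h5 h h6 h7 T h8).trans ?_
    apply mul_le_mul_of_nonneg_right
    · apply mul_le_mul_of_nonneg_right
      · exact mul_le_mul_of_nonneg_right hAA h2.le
      · exact Real.rpow_nonneg (by linarith) _
    · exact Finset.prod_nonneg fun o _ => avg_nonneg _ _ (h6 o) _) (by
    intro i
    obtain ⟨A, t₀, hA, ht₀, hs⟩ := sum_b (L i) (al i) Cg (hF.gen i) ε (ε₁ / 2) hε hε'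
      (by positivity)
    refine ⟨A, t₀ + (Module.finrank k (L i) : ℝ) ^ (2 / ε₁), hA, ?_, ?_⟩
    · have : 0 ≤ (Module.finrank k (L i) : ℝ) ^ (2 / ε₁) := by positivity
      linarith
    · intro t Y h1 h1' h2 V h3 h4 h5 h h6 h7 T h8
      have hnn : 0 ≤ (Module.finrank k (L i) : ℝ) ^ (2 / ε₁) := by positivity
      have key := hs t Y (by linarith) h2 (J := {o // o ∈ V}) (fun o => b4Q k i o.1)
        (fun o e => h o.1 (b4ext i e)) (b4slot_QG hF i V h3 h4 h h6 h7)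
        ((b4slot_size i V).trans (b4slot_pow _ ε₁ t _ hε₁ h1 (by linarith) h5))
        (T.preimage (b4inc i) (b4inc_inj i).injOn) (by
          intro w hw
          rw [Finset.mem_preimage] at hw
          have h9 := h8 _ hw
          refine ⟨h9.2.1, h9.2.2.1, ?_⟩
          intro j hj
          rw [b4mem_Q] at hj
          exact h9.2.2.2 j.1 j.2 hj)
      rw [b4slot_avgs i V h h7] at key
      rw [b4slot_sum i T (fun w hw => (h8 w hw).1)]
      refine le_trans (le_of_eq ?_) key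
      apply Finset.sum_congr rfl
      intro w _
      rw [b4slot_prod]
      rfl)
  obtain ⟨A, t₀, hA, ht₀, hmain⟩ := hex
  refine ⟨A, t₀, hA, ht₀, ?_⟩
  intro t Y h1 h2 V h3 h4 h5 i h h6 h7 T h8
  exact hmain i t Y (ht₀.trans h1) h1 h2 V h3 h4 h5 h h6 h7 T h8

end SC5
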