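import Pool.Agent.MP_c1dca2_ag.SC5.Fam

/-!
# [SC5-C1] the blocks; a product sum

`tau K Λ j = Λ ^ (1 - j / K)` for `j < K` and `0` for `j ≥ K`; `blk K Λ o` is the smallest `j` with
`tau K Λ j < log (nv o.2)` (exists, because `tau K Λ K = 0 < log 2 ≤ log (nv o.2)`, `two_le_nv`). `Nat.sInf_mem`,
`Nat.notMem_of_lt_sInf`. `prod_sum_le`: `∑_{P ⊆ T} ∏_{o ∈ P} a o = ∏_{o ∈ T} (1 + a o) ≤ exp (∑ a o)`
(`Finset.prod_one_add` / `Finset.prod_add`, `Real.add_one_le_exp`).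
`rat_tau`: `tau (j-1) / tau j = Λ ^ (1/K)`.
-/

set_option autoImplicit false

open NumberField IsDedekindDomain

namespace SC5

theorem tau_zero (K : ℕ) (hK : 1 ≤ K) (Λ : ℝ) : tau K Λ 0 = Λ := by
  unfold tau
  rw [if_pos (by omega)]
  simp

theorem one_le_tau (K : ℕ) (Λ : ℝ) (hΛ : 1 ≤ Λ) (j : ℕ) (hj : j < K) : 1 ≤ tau K Λ j := by
  unfold tau
  rw [if_pos hj]
  apply Real.one_le_rpow hΛ
  have h1 : (0 : ℝ) < K := by exact_mod_cast (by omega : 0 < K)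
  have h2 : (j : ℝ) ≤ K := by exact_mod_cast hj.le
  rw [sub_nonneg, div_le_one h1]
  exact h2

theorem tau_nonneg (K : ℕ) (Λ : ℝ) (hΛ : 1 ≤ Λ) (j : ℕ) : 0 ≤ tau K Λ j := by
  unfold tau
  split_ifs
  · exact Real.rpow_nonneg (by linarith) _
  · exact le_rfl

theorem tau_anti (K : ℕ) (Λ : ℝ) (hΛ : 1 ≤ Λ) (i j : ℕ) (hij : i ≤ j) :
    tau K Λ j ≤ tau K Λ i := by
  by_cases hj : j < K
  · unfold tau
    rw [if_pos hj, if_pos (lt_of_le_of_lt hij hj)]
    apply Real.rpow_le_rpow_of_exponent_le hΛ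
    have h1 : (0 : ℝ) < K := by exact_mod_cast (by omega : 0 < K)
    have h2 : (i : ℝ) ≤ j := by exact_mod_cast hij
    have h3 : (i : ℝ) / K ≤ j / K := div_le_div_of_nonneg_right h2 h1.le
    linarith
  · have h1 : tau K Λ j = 0 := by
      unfold tau
      rw [if_neg hj]
    rw [h1]
    exact tau_nonneg K Λ hΛ i

theorem tau_le (K : ℕ) (hK : 1 ≤ K) (Λ : ℝ) (hΛ : 1 ≤ Λ) (j : ℕ) : tau K Λ j ≤ Λ := by
  have h := tau_anti K Λ hΛ 0 j (Nat.zero_le _)
  rwa [tau_zero K hK] at h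

theorem rat_tau (K : ℕ) (Λ : ℝ) (hΛ : 1 ≤ Λ) (j : ℕ) (hj : 1 ≤ j) (hjK : j < K) :
    Real.log (tau K Λ (j - 1) / tau K Λ j) = Real.log Λ / K := by
  have h1 := one_le_tau K Λ hΛ (j - 1) (by omega)
  have h2 := one_le_tau K Λ hΛ j hjK
  have h0 : (0 : ℝ) < Λ := by linarith
  have hK : (K : ℝ) ≠ 0 := by
    have : (0 : ℝ) < K := by exact_mod_cast (by omega : 0 < K)
    exact this.ne'
  rw [Real.log_div (by linarith) (by linarith)]
  unfold tau
  rw [if_pos (by omega), if_pos hjK, Real.log_rpow h0, Real.log_rpow h0, Nat.cast_sub hj]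
  field_simp
  push_cast
  ring

theorem tau_last (K : ℕ) (hK : 1 ≤ K) (Λ : ℝ) (hΛ : 1 ≤ Λ) :
    Real.log (tau K Λ (K - 1)) = Real.log Λ / K := by
  have h0 : (0 : ℝ) < Λ := by linarith
  have hK' : (K : ℝ) ≠ 0 := by
    have : (0 : ℝ) < K := by exact_mod_cast (by omega : 0 < K)
    exact this.ne'
  unfold tau
  rw [if_pos (by omega), Real.log_rpow h0, Nat.cast_sub hK]
  field_simp
  push_cast
  ring

section blk

variable {I : Type} {L : I → Type} [∀ i, Field (L i)] [∀ i, NumberField (L i)]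

private theorem C1_mem (K : ℕ) (Λ : ℝ) (o : PL L) :
    K ∈ {j | tau K Λ j < Real.log (nv o.2)} := by
  have h1 : tau K Λ K = 0 := by
    unfold tau
    rw [if_neg (lt_irrefl K)]
  show tau K Λ K < Real.log (nv o.2)
  rw [h1]
  apply Real.log_pos
  have h2 := two_le_nv o.2
  have h3 : (2 : ℝ) ≤ (nv o.2 : ℝ) := by exact_mod_cast h2
  linarith

theorem blk_le (K : ℕ) (Λ : ℝ) (o : PL L) : blk K Λ o ≤ K := by
  exact Nat.sInf_le (C1_mem K Λ o)

theorem tau_blk_lt (K : ℕ) (Λ : ℝ) (o : PL L) : tau K Λ (blk K Λ o) < Real.log (nv o.2) := by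
  exact Nat.sInf_mem (s := {j | tau K Λ j < Real.log (nv o.2)}) ⟨K, C1_mem K Λ o⟩

theorem log_le_tau (K : ℕ) (Λ : ℝ) (o : PL L) (j : ℕ) (hj : j < blk K Λ o) :
    Real.log (nv o.2) ≤ tau K Λ j := by
  have h := Nat.notMem_of_lt_sInf (s := {j | tau K Λ j < Real.log (nv o.2)}) hj
  exact not_lt.1 h

theorem one_le_blk (K : ℕ) (hK : 1 ≤ K) (Λ : ℝ) (o : PL L) (ho : Real.log (nv o.2) ≤ Λ) :
    1 ≤ blk K Λ o := by
  by_contra hcon
  have h0 : blk K Λ o = 0 := by omega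
  have h1 := tau_blk_lt K Λ o
  rw [h0, tau_zero K hK] at h1
  linarith

theorem blk_half (m : ℕ) (hm : 1 ≤ m) (Λ : ℝ) (hΛ : 1 ≤ Λ) (o : PL L)
    (ho : Λ ^ (1 / 2 : ℝ) < Real.log (nv o.2)) : blk (2 * m) Λ o ≤ m := by
  apply Nat.sInf_le
  show tau (2 * m) Λ m < Real.log (nv o.2)
  have h1 : tau (2 * m) Λ m = Λ ^ (1 / 2 : ℝ) := by
    unfold tau
    rw [if_pos (by omega)]
    congr 1
    have hm' : (m : ℝ) ≠ 0 := by
      have : (0 : ℝ) < m := by exact_mod_cast (by omega : 0 < m)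
      exact this.ne'
    push_cast
    field_simp
    ring
  rw [h1]
  exact ho

theorem one_le_NP (P : Finset (PL L)) : 1 ≤ NP P := by
  unfold NP
  have h : ∏ o ∈ P, (1 : ℝ) ≤ ∏ o ∈ P, (nv o.2 : ℝ) := by
    apply Finset.prod_le_prod
    · intro o _
      exact zero_le_one
    · intro o _
      have h2 := two_le_nv o.2
      have h3 : (2 : ℝ) ≤ (nv o.2 : ℝ) := by exact_mod_cast h2
      linarith
  simpa using h

theorem NP_union [DecidableEq (PL L)] (P Q : Finset (PL L)) (h : Disjoint P Q) :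
    NP (P ∪ Q) = NP P * NP Q := by
  unfold NP
  exact Finset.prod_union h

end blk

theorem prod_sum_le {O : Type} (T : Finset O) (a : O → ℝ) (ha : ∀ o, 0 ≤ a o)
    (P : Finset (Finset O)) (hP : ∀ p ∈ P, p ⊆ T) :
    ∑ p ∈ P, ∏ o ∈ p, a o ≤ Real.exp (∑ o ∈ T, a o) := by
  classical
  have h1 : ∑ p ∈ P, ∏ o ∈ p, a o ≤ ∑ p ∈ T.powerset, ∏ o ∈ p, a o := by
    apply Finset.sum_le_sum_of_subset_of_nonneg
    · intro p hp
      exact Finset.mem_powerset.2 (hP p hp)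
    · intro p _ _
      exact Finset.prod_nonneg fun o _ => ha o
  have h2 : ∑ p ∈ T.powerset, ∏ o ∈ p, a o = ∏ o ∈ T, (1 + a o) := by
    rw [Finset.prod_one_add]
  rw [h2] at h1
  refine h1.trans ?_
  rw [Real.exp_sum]
  apply Finset.prod_le_prod
  · intro o _
    have := ha o
    linarith
  · intro o _
    have := Real.add_one_le_exp (a o)
    linarith

end SC5
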