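import Pool.Agent.MP_c1dca2_ag.SC5.B2
import Pool.Agent.MP_c1dca2_ag.SC5.B3
import Pool.Agent.MP_c1dca2_ag.SC5.B4
import Pool.Agent.MP_c1dca2_ag.SC5.C1
import Pool.Agent.MP_c1dca2_ag.SC5.A9

/-!
# [SC5-C2] the sum over the special elements

`r = card I`, `ε₁ = 1 / (2 K)`, `Sl = {i | 1 ≤ p i}`, `A_a, A_b, t₀` from `slot_a`, `slot_b` (for `ε`, `ε₁`; `t₀` the maximum), and
`Λ₀` such that for `Λ ≥ Λ₀`: `Λ ^ (1/K) ≥ t₀` and `(log Λ)^2 ≤ Λ ^ (1/(2K))`. Apply `multi_top` with `O = X = W = PL L`,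
`vis o = SC5.vis p (blk K Λ o)`, `U i o = up k {i} o`, `UU o = up k univ o`, `b w q = bt al q w`, `nrm w = nv w.2`,
`V = P'.filter (o.1 ∈ vis p (blk K Λ o))`, `Γ o e = if Rel k (E o) o e then 1 else 0` (local on `UU o`: `Rel` only
involves the `q` above `bl k o.2`), `cc o = beta k (vis p (blk K Λ o)) o`, `e = sgn al P'`.
* `sgn al (P' ∪ Sl.image w) q = sgn al P' q * ∏_{i ∈ Sl} bt al q (w i)` for `w ∈ piFinset T` (`(w i).1 = i`, so `w` is
  injective on `Sl`, and `w i ∉ P'` because `bl k (w i).2 ≠ bl k o.2` for `o ∈ P'`). So the summation condition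
  `Rel` for all `o ∈ P'` is bounded by `∏_{o ∈ V} Γ o (e * ∏ b (w i))`, and the left side is at most that of `multi_top`.
* `hvis`: `i ∈ vis o`, `i' ∈ Sl`, `p i' ≤ p i` imply `i' ∈ vis o`. `hdis`, `hb`: `mem_up`; `bt al q w = 1` for `w.1 ≠ q.1`.
* `hcc`: `(Sl ∩ vis o).biUnion (up k {i} o) = up k (vis o) o`; `rel_avg` (`B2`) with `J = vis o ∋ o.1`.
* `hbt` for `i ∈ Sl`, `i ≠ i₁`, `Θ i = A Λ^ε`, `A ≥ 1` large: let `V_i = V.filter (i ∈ vis o)`; `o ∈ V_i` means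
  `p i + 2 ≤ blk o ≤ K`, so `log (nv o.2) ≤ tau (p i + 1)` (`log_le_tau`), `nv o.2 = nv (bl k o.2)` (`Cfg.deg`, `nv_eq`),
  and `∑_{V_i} log ≤ (log Λ)^2 Λ^(1 - (p i + 1)/K) ≤ (Λ^(1 - p i / K))^(1 - 1/(2K)) = (tau (p i))^(1-ε₁)` because
  `(1 - p/K)(1 - 1/(2K)) ≥ 1 - p/K - 1/(2K)` and `(log Λ)^2 ≤ Λ^(1/(2K))`. If `p i < K` use `slot_a` with `t = tau (p i) ≥
  Λ^(1/K) ≥ t₀`, `t' = tau (p i - 1) ≤ Λ` (for `w ∈ T i`: `tau (p i) < log nv w ≤ tau (p i - 1)`, `tau_blk_lt`, `log_le_tau`);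
  `V_i` empty (e.g. `p i = K - 1`) is fine. If `p i = K` then `V_i` is empty and
  `∑_{w ∈ T i} 1 / nv w ≤ log (Λ^(1/K) / log (3/2)) + C ≤ A Λ^ε` by `crude_sum` (A9) or `sum_upper` (A7)
  (`3/2 < nv w ≤ exp (tau (K - 1)) = exp (Λ^(1/K))`).
* `hbt₁`: `slot_b` with `t = tau (p i₁)`, `Y`; `Θ₁ = A_b (tau (p i₁))^(-1+ε)`.
* `∏_{i ∈ Sl.erase i₁} Θ i ≤ (A Λ^ε)^r`. `∏_{o ∈ V} cc o = ∏_{o ∈ P'} cp o` (`cp o = 1` for `o ∉ V`).
-/

set_option autoImplicit false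

open NumberField IsDedekindDomain

namespace SC5

theorem c2_log {K : ℕ} (hK : 2 ≤ K) : ∃ Λ₀ : ℝ, ∀ Λ : ℝ, Λ₀ ≤ Λ →
    Real.log Λ ^ 2 ≤ Λ ^ (1 / (2 * (K : ℝ))) := by
  have hK0 : (0 : ℝ) < 1 / (2 * (K : ℝ)) := by
    have : (0 : ℝ) < K := Nat.cast_pos.2 (by omega)
    positivity
  have h := (isLittleO_log_rpow_rpow_atTop (2 : ℝ) hK0).bound (c := 1) one_pos
  rw [Filter.eventually_atTop] at h
  obtain ⟨a, ha⟩ := h
  refine ⟨max a 1, fun Λ hΛ => ?_⟩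
  have h1 := ha Λ ((le_max_left _ _).trans hΛ)
  have hΛ1 : 1 ≤ Λ := (le_max_right _ _).trans hΛ
  have hl : 0 ≤ Real.log Λ := Real.log_nonneg hΛ1
  rw [one_mul, Real.norm_of_nonneg (Real.rpow_nonneg hl _),
    Real.norm_of_nonneg (Real.rpow_nonneg (by linarith) _)] at h1
  have h2 : Real.log Λ ^ (2 : ℝ) = Real.log Λ ^ 2 := Real.rpow_natCast _ 2
  rwa [h2] at h1

/-- the sum of the logarithms -/
theorem c2_tau {K : ℕ} (hK : 2 ≤ K) {Λ : ℝ} (hΛ : 1 ≤ Λ)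
    (hlog : Real.log Λ ^ 2 ≤ Λ ^ (1 / (2 * (K : ℝ)))) (p : ℕ) (hp : p + 2 ≤ K) :
    Real.log Λ ^ 2 * tau K Λ (p + 1) ≤ tau K Λ p ^ (1 - 1 / (2 * (K : ℝ))) := by
  have hK0 : (0 : ℝ) < K := Nat.cast_pos.2 (by omega)
  have hΛ0 : 0 < Λ := by linarith
  unfold tau
  rw [if_pos (by omega), if_pos (by omega), ← Real.rpow_mul hΛ0.le]
  calc Real.log Λ ^ 2 * Λ ^ (1 - ((p + 1 : ℕ) : ℝ) / K)
      ≤ Λ ^ (1 / (2 * (K : ℝ))) * Λ ^ (1 - ((p + 1 : ℕ) : ℝ) / K) :=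
        mul_le_mul_of_nonneg_right hlog (Real.rpow_nonneg hΛ0.le _)
    _ = Λ ^ (1 / (2 * (K : ℝ)) + (1 - ((p + 1 : ℕ) : ℝ) / K)) := by
        rw [Real.rpow_add hΛ0]
    _ ≤ Λ ^ ((1 - (p : ℝ) / K) * (1 - 1 / (2 * (K : ℝ)))) := by
        apply Real.rpow_le_rpow_of_exponent_le hΛ
        push_cast
        have h1 : (1 - (p : ℝ) / K) * (1 - 1 / (2 * (K : ℝ))) -
            (1 / (2 * (K : ℝ)) + (1 - ((p : ℝ) + 1) / K)) = (p : ℝ) / K * (1 / (2 * K)) := by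
          field_simp
          ring
        have h2 : 0 ≤ (p : ℝ) / K * (1 / (2 * K)) := by positivity
        linarith

theorem c2_card_log {k : Type} [Field k] [NumberField k] {I : Type} [Fintype I] {L : I → Type}
    [∀ i, Field (L i)] [∀ i, NumberField (L i)] [∀ i, Algebra k (L i)] {K : ℕ} (hK : 2 ≤ K)
    {Λ : ℝ} (hΛ : 1 ≤ Λ) (hlog : Real.log Λ ^ 2 ≤ Λ ^ (1 / (2 * (K : ℝ)))) (p : ℕ)
    (V : Finset (PL L)) (hV : ∀ o ∈ V, p + 2 ≤ blk K Λ o) (hc : (V.card : ℝ) ≤ Real.log Λ ^ 2) :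
    (∑ o ∈ V, Real.log (nv (bl k o.2))) ≤ tau K Λ p ^ (1 - 1 / (2 * (K : ℝ))) := by
  rcases V.eq_empty_or_nonempty with h | ⟨o₀, ho₀⟩
  · rw [h, Finset.sum_empty]
    exact Real.rpow_nonneg (tau_nonneg K Λ hΛ p) _
  · have hp : p + 2 ≤ K := (hV o₀ ho₀).trans (blk_le K Λ o₀)
    refine le_trans ?_ (c2_tau hK hΛ hlog p hp)
    have h1 : ∀ o ∈ V, Real.log (nv (bl k o.2)) ≤ tau K Λ (p + 1) := by
      intro o ho
      refine le_trans ?_ (log_le_tau K Λ o (p + 1) (by have := hV o ho; omega))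
      apply Real.log_le_log
      · exact Nat.cast_pos.2 (by have := two_le_nv (bl k o.2); omega)
      · exact Nat.cast_le.2 (nv_bl_le o.2)
    calc (∑ o ∈ V, Real.log (nv (bl k o.2))) ≤ ∑ o ∈ V, tau K Λ (p + 1) := Finset.sum_le_sum h1
      _ = V.card * tau K Λ (p + 1) := by rw [Finset.sum_const, nsmul_eq_mul]
      _ ≤ Real.log Λ ^ 2 * tau K Λ (p + 1) :=
        mul_le_mul_of_nonneg_right hc (tau_nonneg K Λ hΛ _)

/-- the crude sum over the last block -/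
theorem c2_crude {I : Type} [Fintype I] (L : I → Type) [∀ i, Field (L i)]
    [∀ i, NumberField (L i)] (ε : ℝ) (hε : 0 < ε) : ∃ A : ℝ, 0 < A ∧ ∀ K : ℕ, 2 ≤ K →
    ∀ Λ : ℝ, 1 ≤ Λ → ∀ T : Finset (PL L), (∀ w ∈ T, blk K Λ w = K) →
      ∑ w ∈ T, ((nv w.2 : ℝ))⁻¹ ≤ A * Λ ^ ε := by
  obtain ⟨C, hC⟩ := crude_sum L
  refine ⟨Fintype.card I * (1 / ε + |Real.log (Real.log (3 / 2))|) + |C| + 1, by positivity, ?_⟩
  intro K hK Λ hΛ T hT
  have hΛ0 : 0 < Λ := by linarith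
  have hK0 : (0 : ℝ) < K := Nat.cast_pos.2 (by omega)
  have hτ : tau K Λ (K - 1) = Λ ^ (1 / (K : ℝ)) := by
    unfold tau
    rw [if_pos (by omega)]
    congr 1
    rw [Nat.cast_sub (by omega)]
    field_simp
    push_cast
    ring
  have h1 : 1 ≤ Λ ^ (1 / (K : ℝ)) := Real.one_le_rpow hΛ (by positivity)
  have h32 : (3 / 2 : ℝ) ≤ Real.exp (Λ ^ (1 / (K : ℝ))) := by
    have := Real.add_one_le_exp (Λ ^ (1 / (K : ℝ)))
    linarith
  have h2 := hC (3 / 2) (Real.exp (Λ ^ (1 / (K : ℝ)))) le_rfl h32 T (by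
    intro w hw
    have h3 := two_le_nv w.2
    have h4 : (2 : ℝ) ≤ nv w.2 := by exact_mod_cast h3
    refine ⟨by linarith, ?_⟩
    have h5 := log_le_tau K Λ w (K - 1) (by rw [hT w hw]; omega)
    rw [hτ] at h5
    rwa [← Real.log_le_iff_le_exp (by linarith)])
  refine h2.trans ?_
  rw [Real.log_exp, Real.log_div (by positivity) (by
    have : 0 < Real.log (3 / 2) := Real.log_pos (by norm_num)
    exact this.ne'), Real.log_rpow hΛ0]
  have h6 : Real.log Λ ≤ Λ ^ ε / ε := Real.log_le_rpow_div hΛ0.le hε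
  have h7 : 0 ≤ Real.log Λ := Real.log_nonneg hΛ
  have h8 : 1 / (K : ℝ) * Real.log Λ ≤ Λ ^ ε / ε := by
    refine le_trans ?_ h6
    have : 1 / (K : ℝ) ≤ 1 := by
      rw [div_le_one hK0]
      exact Nat.one_le_cast.2 (by omega)
    nlinarith
  have h9 : 1 ≤ Λ ^ ε := Real.one_le_rpow hΛ hε.le
  have h10 := neg_abs_le (Real.log (Real.log (3 / 2)))
  have h11 : 1 / (K : ℝ) * Real.log Λ - Real.log (Real.log (3 / 2)) ≤
      (1 / ε + |Real.log (Real.log (3 / 2))|) * Λ ^ ε := by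
    have h12 : |Real.log (Real.log (3 / 2))| ≤ |Real.log (Real.log (3 / 2))| * Λ ^ ε := by
      have := abs_nonneg (Real.log (Real.log (3 / 2)))
      nlinarith
    have h13 : Λ ^ ε / ε = 1 / ε * Λ ^ ε := by ring
    rw [add_mul]
    linarith
  have h14 : (Fintype.card I : ℝ) * (1 / (K : ℝ) * Real.log Λ - Real.log (Real.log (3 / 2))) ≤
      Fintype.card I * ((1 / ε + |Real.log (Real.log (3 / 2))|) * Λ ^ ε) :=
    mul_le_mul_of_nonneg_left h11 (Nat.cast_nonneg _)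
  have h15 : C ≤ |C| * Λ ^ ε := by
    have := le_abs_self C
    have := abs_nonneg C
    nlinarith
  have h16 : (0 : ℝ) ≤ Λ ^ ε := by linarith
  nlinarith

open scoped Classical in
theorem c2_sgn {I : Type} {L : I → Type} [∀ i, Field (L i)] [∀ i, NumberField (L i)]
    (al : ∀ i, Pr (L i) → 𝓞 (L i)) (P' : Finset (PL L)) (Sl : Finset I) (w : I → PL L)
    (hw : ∀ i ∈ Sl, (w i).1 = i) (hn : ∀ i ∈ Sl, w i ∉ P') (q : PL L) :
    sgn al (P' ∪ Sl.image w) q = sgn al P' q * ∏ i ∈ Sl, bt al q (w i) := by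
  unfold sgn
  rw [Finset.prod_union]
  · congr 1
    apply Finset.prod_image
    intro i hi j hj hij
    rw [← hw i hi, ← hw j hj, hij]
  · rw [Finset.disjoint_right]
    intro o ho
    rw [Finset.mem_image] at ho
    obtain ⟨i, hi, rfl⟩ := ho
    exact hn i hi

theorem c2_rel {k : Type} [Field k] [NumberField k] {I : Type} [Fintype I] {L : I → Type}
    [∀ i, Field (L i)] [∀ i, NumberField (L i)] [∀ i, Algebra k (L i)]
    (E : PL L → PL L → ℤˣ) (o : PL L) (e e' : PL L → ℤˣ)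
    (h : ∀ q ∈ up k Finset.univ o, e q = e' q) : Rel k E o e ↔ Rel k E o e' := by
  have h' : ∀ q : PL L, bl k q.2 = bl k o.2 → e q = e' q := fun q hq =>
    h q ((mem_up _ _ _).2 ⟨Finset.mem_univ _, hq⟩)
  unfold Rel
  constructor
  · intro H q q' h1 h2 h3 h4 h5
    rw [← h' q h1, ← h' q' h2]
    exact H q q' h1 h2 h3 h4 h5
  · intro H q q' h1 h2 h3 h4 h5
    rw [h' q h1, h' q' h2]
    exact H q q' h1 h2 h3 h4 h5

open scoped Classical in
theorem slot_sum {k : Type} [Field k] [NumberField k] {I : Type} [Fintype I] {L : I → Type}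
    [∀ i, Field (L i)] [∀ i, NumberField (L i)] [∀ i, Algebra k (L i)] {S : Finset (Pr k)}
    {al : ∀ i, Pr (L i) → 𝓞 (L i)} {Cg : ℕ} (hF : Fam k L S al Cg) (K : ℕ) (hK : 2 ≤ K) (ε : ℝ)
    (hε : 0 < ε) (hε' : ε < 1) :
    ∃ A Λ₀ : ℝ, 0 < A ∧ 1 ≤ Λ₀ ∧ ∀ Λ : ℝ, Λ₀ ≤ Λ → ∀ p : I → ℕ, (∀ i, p i ≤ K) → ∀ i₁ : I,
      1 ≤ p i₁ → p i₁ < K → (∀ i, 1 ≤ p i → p i₁ ≤ p i) → ∀ P' : Finset (PL L), Cfg k S P' →
      (P'.card : ℝ) ≤ Real.log Λ ^ 2 → ∀ (d : PL L) (T : I → Finset (PL L)),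
      (∀ i, p i = 0 → T i = {d}) →
      (∀ i, 1 ≤ p i → ∀ w ∈ T i, w.1 = i ∧ blk K Λ w = p i ∧ ∀ o ∈ P', bl k w.2 ≠ bl k o.2) →
      ∀ (E : PL L → PL L → PL L → ℤˣ) (Z : ℝ), 0 < Z →
      ∑ w ∈ (Fintype.piFinset T).filter (fun w =>
          (∏ i ∈ Finset.univ.filter (fun i => 1 ≤ p i), (nv (w i).2 : ℝ)) ≤ Z ∧
          ∀ o ∈ P', Rel k (E o) o
            (sgn al (P' ∪ (Finset.univ.filter (fun i => 1 ≤ p i)).image w))),
        (Z / ∏ i ∈ Finset.univ.filter (fun i => 1 ≤ p i), (nv (w i).2 : ℝ)) ^ (3 / 4 : ℝ) ≤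
      A * Z * tau K Λ (p i₁) ^ (-1 + ε) * Λ ^ (ε * Fintype.card I) *
        ∏ o ∈ P', cp k K Λ p o := by
  have hK0 : (0 : ℝ) < K := Nat.cast_pos.2 (by omega)
  have hε₁ : (0 : ℝ) < 1 / (2 * (K : ℝ)) := by positivity
  obtain ⟨Aa, ta, hAa, hta, ha⟩ := slot_a hF ε (1 / (2 * (K : ℝ))) hε hε' hε₁
  obtain ⟨Ab, tb, hAb, htb, hb⟩ := slot_b hF ε (1 / (2 * (K : ℝ))) hε hε' hε₁
  obtain ⟨Ac, hAc, hc⟩ := c2_crude L ε hε
  obtain ⟨Λ₁, hΛ₁⟩ := c2_log hK
  set A₀ : ℝ := max 1 (max Aa Ac) with hA₀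
  have hA1 : 1 ≤ A₀ := le_max_left _ _
  have hAaA : Aa ≤ A₀ := (le_max_left _ _).trans (le_max_right _ _)
  have hAcA : Ac ≤ A₀ := (le_max_right _ _).trans (le_max_right _ _)
  set t₀ : ℝ := max ta tb with ht₀
  have ht₀1 : 1 ≤ t₀ := hta.trans (le_max_left _ _)
  refine ⟨Ab * A₀ ^ Fintype.card I, max (max Λ₁ 1) (t₀ ^ (K : ℝ)), by positivity,
    (le_max_right _ _).trans (le_max_left _ _), ?_⟩
  intro Λ hΛ p hpK i₁ hi₁ hi₁K hmin P' hP' hcard d T hT0 hT E Z hZ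
  have hΛ1 : 1 ≤ Λ := (le_max_right _ _).trans ((le_max_left _ _).trans hΛ)
  have hΛ0 : 0 < Λ := by linarith
  have hlog := hΛ₁ Λ ((le_max_left _ _).trans ((le_max_left _ _).trans hΛ))
  have hτ₀ : ∀ j : ℕ, j < K → t₀ ≤ tau K Λ j := by
    intro j hj
    have h1 : t₀ ≤ Λ ^ (1 / (K : ℝ)) := by
      have h2 : t₀ ^ (K : ℝ) ≤ Λ := (le_max_right _ _).trans hΛ
      have h3 := Real.rpow_le_rpow (by positivity) h2 (by positivity : (0 : ℝ) ≤ 1 / (K : ℝ))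
      rwa [← Real.rpow_mul (by linarith), mul_one_div_cancel hK0.ne', Real.rpow_one] at h3
    refine h1.trans ?_
    unfold tau
    rw [if_pos hj]
    apply Real.rpow_le_rpow_of_exponent_le hΛ1
    have h4 : ((j : ℝ) + 1) ≤ K := by exact_mod_cast hj
    rw [le_sub_iff_add_le, ← add_div, div_le_one hK0]
    linarith
  set Sl : Finset I := Finset.univ.filter (fun i => 1 ≤ p i) with hSl
  have hSlmem : ∀ i, i ∈ Sl ↔ 1 ≤ p i := fun i => by
    rw [hSl, Finset.mem_filter]; exact ⟨fun h => h.2, fun h => ⟨Finset.mem_univ _, h⟩⟩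
  set V : Finset (PL L) := P'.filter (fun o => o.1 ∈ vis p (blk K Λ o)) with hV
  have hVP : V ⊆ P' := Finset.filter_subset _ _
  have hvmem : ∀ i (o : PL L), i ∈ vis p (blk K Λ o) ↔ 1 ≤ p i ∧ p i + 2 ≤ blk K Λ o := by
    intro i o
    unfold vis
    rw [Finset.mem_filter]
    exact ⟨fun h => h.2, fun h => ⟨Finset.mem_univ _, h⟩⟩
  have hVi : ∀ i, ∀ o ∈ V.filter (fun o => i ∈ vis p (blk K Λ o)), p i + 2 ≤ blk K Λ o := by
    intro i o ho
    exact ((hvmem i o).1 (Finset.mem_filter.1 ho).2).2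
  have hViP : ∀ i, V.filter (fun o => i ∈ vis p (blk K Λ o)) ⊆ P' := fun i =>
    (Finset.filter_subset _ _).trans hVP
  have hVic : ∀ i, ((V.filter (fun o => i ∈ vis p (blk K Λ o))).card : ℝ) ≤ Real.log Λ ^ 2 :=
    fun i => le_trans (Nat.cast_le.2 (Finset.card_le_card (hViP i))) hcard
  have hsumlog : ∀ i, (∑ o ∈ V.filter (fun o => i ∈ vis p (blk K Λ o)),
      Real.log (nv (bl k o.2))) ≤ tau K Λ (p i) ^ (1 - 1 / (2 * (K : ℝ))) := fun i =>
    c2_card_log hK hΛ1 hlog (p i) _ (hVi i) (hVic i)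
  have hLε : 1 ≤ Λ ^ ε := Real.one_le_rpow hΛ1 hε.le
  have hnpos : ∀ w : PL L, (0 : ℝ) < nv w.2 := fun w =>
    Nat.cast_pos.2 (by have := two_le_nv w.2; omega)
  have key := multi_top p (fun o : PL L => vis p (blk K Λ o)) (fun i o => up k {i} o)
    (fun o => up k Finset.univ o) (fun w q => bt al q w) (fun w : PL L => (nv w.2 : ℝ)) hnpos
    (fun _ => A₀ * Λ ^ ε) (fun _ => by positivity) (Ab * tau K Λ (p i₁) ^ (-1 + ε))
    (mul_nonneg hAb.le (Real.rpow_nonneg (tau_nonneg K Λ hΛ1 _) _)) d Sl T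
    (fun i hi => hT0 i (by
      by_contra h
      exact hi ((hSlmem i).2 (by omega))))
    V i₁ ((hSlmem i₁).2 hi₁) (fun i hi => hmin i ((hSlmem i).1 hi))
    (by
      intro o _ i _ i' hi' hio hpi
      rw [hvmem] at hio ⊢
      exact ⟨(hSlmem i').1 hi', by omega⟩)
    (by
      intro o _ i i' hii
      rw [Finset.disjoint_left]
      intro q hq hq'
      rw [mem_up, Finset.mem_singleton] at hq hq'
      exact hii (hq.1.symm.trans hq'.1))
    (by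
      intro i hi w hw o _ q hq hq'
      rw [mem_up] at hq
      rw [mem_up, Finset.mem_singleton, not_and] at hq'
      have h1 := (hT i ((hSlmem i).1 hi) w hw).1
      have h2 : w.1 ≠ q.1 := by
        intro h
        exact hq' (h.symm.trans h1) hq.2
      show bt al q w = 1
      unfold bt
      rw [dif_neg h2])
    (by
      intro i hi _ g hg hgl
      have hpi := (hSlmem i).1 hi
      rcases lt_or_eq_of_le (hpK i) with hlt | heq
      · refine (ha (tau K Λ (p i)) (tau K Λ (p i - 1)) ((le_max_left _ _).trans (hτ₀ _ hlt))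
          (tau_anti K Λ hΛ1 _ _ (by omega)) _ (fun o ho => hP'.out o (hViP i ho))
          (fun o ho o' ho' => hP'.inj o (hViP i ho) o' (hViP i ho')) (hsumlog i) i g hg hgl (T i)
          ?_).trans ?_
        · intro w hw
          obtain ⟨h1, h2, h3⟩ := hT i hpi w hw
          refine ⟨h1, ?_, ?_, fun o ho => h3 o (hViP i ho)⟩
          · rw [← h2]; exact tau_blk_lt K Λ w
          · exact log_le_tau K Λ w (p i - 1) (by omega)
        · apply mul_le_mul_of_nonneg_right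
          · apply mul_le_mul hAaA _ (Real.rpow_nonneg (tau_nonneg K Λ hΛ1 _) _) (by positivity)
            exact Real.rpow_le_rpow (tau_nonneg K Λ hΛ1 _) (tau_le K (by omega) Λ hΛ1 _) hε.le
          · exact Finset.prod_nonneg fun o _ => avg_nonneg _ _ (hg o) _
      · have hemp : V.filter (fun o => i ∈ vis p (blk K Λ o)) = ∅ := by
          apply Finset.eq_empty_of_forall_notMem
          intro o ho
          have h1 := hVi i o ho
          have h2 := blk_le K Λ o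
          omega
        simp only [hemp, Finset.prod_empty, mul_one]
        refine (hc K hK Λ hΛ1 (T i) (fun w hw => ?_)).trans ?_
        · rw [(hT i hpi w hw).2.1, heq]
        · exact mul_le_mul_of_nonneg_right hAcA (by positivity))
    (by
      intro Y hY g hg hgl
      refine (hb (tau K Λ (p i₁)) Y ((le_max_right _ _).trans (hτ₀ _ hi₁K)) hY _
        (fun o ho => hP'.out o (hViP i₁ ho))
        (fun o ho o' ho' => hP'.inj o (hViP i₁ ho) o' (hViP i₁ ho')) (hsumlog i₁) i₁ g hg hgl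
        ((T i₁).filter (fun w => (nv w.2 : ℝ) ≤ Y)) ?_).trans (le_of_eq (by ring))
      intro w hw
      rw [Finset.mem_filter] at hw
      obtain ⟨h1, h2, h3⟩ := hT i₁ hi₁ w hw.1
      refine ⟨h1, ?_, hw.2, fun o ho => h3 o (hViP i₁ ho)⟩
      rw [← h2]; exact tau_blk_lt K Λ w)
    (fun o e => if Rel k (E o) o e then (1 : ℝ) else 0)
    (fun o e => by
      show (0 : ℝ) ≤ if Rel k (E o) o e then (1 : ℝ) else 0
      split_ifs <;> norm_num)
    (fun o e e' hee => by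
      show (if Rel k (E o) o e then (1 : ℝ) else 0) = if Rel k (E o) o e' then (1 : ℝ) else 0
      simp only [c2_rel (E o) o e e' hee])
    (fun o => beta k (vis p (blk K Λ o)) o)
    (by
      intro o ho e
      have h1 : (Sl ∩ vis p (blk K Λ o)).biUnion (fun i => up k {i} o)
          = up k (vis p (blk K Λ o)) o := by
        ext q
        rw [Finset.mem_biUnion, mem_up]
        constructor
        · rintro ⟨i, hi, hq⟩
          rw [mem_up, Finset.mem_singleton] at hq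
          rw [Finset.mem_inter] at hi
          exact ⟨hq.1 ▸ hi.2, hq.2⟩
        · rintro ⟨h2, h3⟩
          refine ⟨q.1, ?_, (mem_up _ _ _).2 ⟨Finset.mem_singleton_self _, h3⟩⟩
          rw [Finset.mem_inter]
          exact ⟨(hSlmem _).2 ((hvmem _ _).1 h2).1, h2⟩
      rw [h1]
      exact rel_avg S hF.two_le hF.four_le hF.unr o (hP'.deg o (hVP ho)) (hP'.out o (hVP ho)) _
        (Finset.mem_filter.1 ho).2 (E o) e)
    (sgn al P') Z hZ
  -- comparison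
  have hcp : ∏ o ∈ V, beta k (vis p (blk K Λ o)) o = ∏ o ∈ P', cp k K Λ p o := by
    rw [hV, Finset.prod_filter]
    apply Finset.prod_congr rfl
    intro o _
    rfl
  have hcp0 : 0 ≤ ∏ o ∈ P', cp k K Λ p o := by
    apply Finset.prod_nonneg
    intro o _
    unfold cp beta
    split_ifs <;> positivity
  have hΘ : ∏ i ∈ Sl.erase i₁, (A₀ * Λ ^ ε) ≤ A₀ ^ Fintype.card I * Λ ^ (ε * Fintype.card I) := by
    rw [Finset.prod_const, Real.rpow_mul hΛ0.le, Real.rpow_natCast, ← mul_pow]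
    apply pow_le_pow_right₀ _ (Finset.card_le_univ _)
    nlinarith
  have hτ0 : 0 ≤ tau K Λ (p i₁) ^ (-1 + ε) := Real.rpow_nonneg (tau_nonneg K Λ hΛ1 _) _
  have step1 : ∑ w ∈ (Fintype.piFinset T).filter (fun w =>
          (∏ i ∈ Sl, (nv (w i).2 : ℝ)) ≤ Z ∧
          ∀ o ∈ P', Rel k (E o) o (sgn al (P' ∪ Sl.image w))),
        (Z / ∏ i ∈ Sl, (nv (w i).2 : ℝ)) ^ (3 / 4 : ℝ) ≤
      ∑ w ∈ (Fintype.piFinset T).filter (fun w => (∏ i ∈ Sl, (nv (w i).2 : ℝ)) ≤ Z),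
        (Z / ∏ i ∈ Sl, (nv (w i).2 : ℝ)) ^ (3 / 4 : ℝ) *
          ∏ o ∈ V, (if Rel k (E o) o (fun q => sgn al P' q * ∏ i ∈ Sl, bt al q (w i)) then (1 : ℝ)
            else 0) := by
    have hsub : (Fintype.piFinset T).filter (fun w =>
          (∏ i ∈ Sl, (nv (w i).2 : ℝ)) ≤ Z ∧
          ∀ o ∈ P', Rel k (E o) o (sgn al (P' ∪ Sl.image w))) ⊆
        (Fintype.piFinset T).filter (fun w => (∏ i ∈ Sl, (nv (w i).2 : ℝ)) ≤ Z) := by
      intro w hw
      rw [Finset.mem_filter] at hw ⊢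
      exact ⟨hw.1, hw.2.1⟩
    refine le_trans (le_of_eq ?_) (Finset.sum_le_sum_of_subset_of_nonneg hsub ?_)
    · apply Finset.sum_congr rfl
      intro w hw
      rw [Finset.mem_filter, Fintype.mem_piFinset] at hw
      obtain ⟨hwT, -, hrel⟩ := hw
      have h2 : ∏ o ∈ V, (if Rel k (E o) o (fun q => sgn al P' q * ∏ i ∈ Sl, bt al q (w i))
          then (1 : ℝ) else 0) = 1 := by
        apply Finset.prod_eq_one
        intro o ho
        rw [if_pos]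
        have h1 : (fun q => sgn al P' q * ∏ i ∈ Sl, bt al q (w i)) =
            sgn al (P' ∪ Sl.image w) := by
          funext q
          rw [c2_sgn al P' Sl w (fun i hi => (hT i ((hSlmem i).1 hi) (w i) (hwT i)).1)
            (fun i hi hmem => (hT i ((hSlmem i).1 hi) (w i) (hwT i)).2.2 _ hmem rfl)]
        rw [h1]
        exact hrel o (hVP ho)
      rw [h2, mul_one]
    · intro w _ _
      apply mul_nonneg
      · apply Real.rpow_nonneg
        apply div_nonneg hZ.le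
        exact Finset.prod_nonneg fun i _ => Nat.cast_nonneg _
      · apply Finset.prod_nonneg
        intro o _
        split_ifs <;> norm_num
  refine step1.trans (le_trans ?_ (le_trans key ?_))
  · exact le_of_eq rfl
  · rw [hcp]
    have h1 : Ab * tau K Λ (p i₁) ^ (-1 + ε) * Z * ∏ i ∈ Sl.erase i₁, (A₀ * Λ ^ ε) ≤
        Ab * tau K Λ (p i₁) ^ (-1 + ε) * Z *
          (A₀ ^ Fintype.card I * Λ ^ (ε * Fintype.card I)) :=
      mul_le_mul_of_nonneg_left hΘ (by positivity)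
    refine (mul_le_mul_of_nonneg_right h1 hcp0).trans (le_of_eq ?_)
    ring

end SC5
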