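import Pool.Agent.MP_c1dca2_ag.SC5.A9
import Pool.Agent.MP_c1dca2_ag.SC5.C1

/-!
# [SC5-C4] the sum of the costs

`r = card I`, `η, C₀` from `beta_sum`, `C₁` from `crude_sum`. For `o ∈ T` let `j = blk K Λ o`: `j₁ ≤ p o.1 ≤ j ≤ K` (`blk_le`).
Split `T` according to `j ∈ [j₁, K]`. In block `j`: `tau j < log (nv o) ≤ tau (j-1)` (`tau_blk_lt`, `log_le_tau`, `j ≥ 1`).
Take `z = exp (tau j)` (`≥ e ≥ 3/2`) if `j < K` and `z = 3/2` if `j = K` (`nv o ≥ 2`), `z' = exp (tau (j-1))`. Then
`log (log z' / log z) ≤ log Λ / K + 1` in all cases (`rat_tau`; for `j = K` by `tau_last`, `- log log (3/2) ≤ 1`).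
The `o` in block `j` with `o.1 ∈ vis p j`: the terms are `beta k (vis p j) o / nv o`, their sum is at most
`(1 - η) (log Λ / K + 1) + C₀` by `beta_sum` (with `J = vis p j`, nonempty if there is such an `o`; otherwise the sum is `0`,
use `|C₀|`). The other `o` in block `j`: `cp = 1`, `p o.1 ≤ j < p o.1 + 2` (as `1 ≤ p o.1`), so `p o.1 ∈ {j-1, j}`; their sum is at most
`r (log Λ / K + 1) + C₁` by `crude_sum`, and there are at most `2 r` values of `j` for which there is such an `o`
(`j ∈ {p i, p i + 1}` for some `i`). Summing over the `K - j₁ + 1` values of `j`: at most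
`((1 - η)(K - j₁ + 1)/K + 2 r^2 / K) log Λ + C`, `C = (K + 1)(1 + |C₀|) + 2 r (r + |C₁|)`. (`log Λ ≥ 0`.)
-/

set_option autoImplicit false

open NumberField IsDedekindDomain

namespace SC5

private theorem c4_log_three_half : (3 / 8 : ℝ) ≤ Real.log (3 / 2) := by
  have h1 : (3 : ℝ) ≤ Real.log ((3 / 2) ^ 8) := by
    rw [Real.le_log_iff_exp_le (by positivity)]
    have h2 : Real.exp 3 = Real.exp 1 ^ 3 := by
      rw [← Real.exp_nat_mul]
      norm_num
    rw [h2]
    have h3 := Real.exp_one_lt_d9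
    have h4 : Real.exp 1 ^ 3 ≤ (2.7182818286 : ℝ) ^ 3 :=
      pow_le_pow_left₀ (Real.exp_pos 1).le h3.le 3
    refine h4.trans ?_
    norm_num
  rw [Real.log_pow] at h1
  push_cast at h1
  linarith

private theorem c4_neg_loglog : -Real.log (Real.log (3 / 2)) ≤ 1 := by
  have h1 := c4_log_three_half
  have h2 : Real.log (3 / 8 : ℝ) ≤ Real.log (Real.log (3 / 2)) :=
    Real.log_le_log (by norm_num) h1
  have h3 : Real.log (8 / 3 : ℝ) ≤ 1 := by
    rw [Real.log_le_iff_le_exp (by norm_num)]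
    have := Real.exp_one_gt_d9
    linarith
  have h4 : Real.log (3 / 8 : ℝ) = -Real.log (8 / 3) := by
    rw [← Real.log_inv]
    norm_num
  linarith

section
variable {I : Type} {L : I → Type} [∀ i, Field (L i)] [∀ i, NumberField (L i)]

private theorem c4_block (K : ℕ) (hK : 1 ≤ K) (Λ : ℝ) (hΛ : 1 ≤ Λ) (j : ℕ) (hj : 1 ≤ j)
    (hjK : j ≤ K) : ∃ z z' : ℝ, 3 / 2 ≤ z ∧ z ≤ z' ∧
      Real.log (Real.log z' / Real.log z) ≤ Real.log Λ / K + 1 ∧
      ∀ o : PL L, blk K Λ o = j → z < nv o.2 ∧ (nv o.2 : ℝ) ≤ z' := by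
  have hup : ∀ o : PL L, blk K Λ o = j → (nv o.2 : ℝ) ≤ Real.exp (tau K Λ (j - 1)) := by
    intro o ho
    have h2 : 0 < (nv o.2 : ℝ) := by
      have := two_le_nv o.2
      positivity
    have := log_le_tau K Λ o (j - 1) (by omega)
    rwa [Real.log_le_iff_le_exp h2] at this
  rcases hjK.eq_or_lt with hjeq | hlt
  · refine ⟨3 / 2, Real.exp (tau K Λ (j - 1)), le_rfl, ?_, ?_, ?_⟩
    · have h1 := one_le_tau K Λ hΛ (j - 1) (by omega)
      have h2 := Real.add_one_le_exp (tau K Λ (j - 1))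
      linarith
    · rw [Real.log_exp]
      have h1 := one_le_tau K Λ hΛ (j - 1) (by omega)
      have h3 := c4_log_three_half
      rw [Real.log_div (by linarith) (by linarith)]
      have h2 : Real.log (tau K Λ (j - 1)) = Real.log Λ / K := by
        rw [hjeq]
        exact tau_last K hK Λ hΛ
      rw [h2]
      have := c4_neg_loglog
      linarith
    · intro o ho
      refine ⟨?_, hup o ho⟩
      have h1 : (2 : ℝ) ≤ nv o.2 := by exact_mod_cast two_le_nv o.2
      linarith
  · refine ⟨Real.exp (tau K Λ j), Real.exp (tau K Λ (j - 1)), ?_, ?_, ?_, ?_⟩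
    · have h1 := one_le_tau K Λ hΛ j hlt
      have h2 := Real.add_one_le_exp (tau K Λ j)
      linarith
    · exact Real.exp_le_exp.2 (tau_anti K Λ hΛ (j - 1) j (Nat.sub_le _ _))
    · rw [Real.log_exp, Real.log_exp, rat_tau K Λ hΛ j hj hlt]
      linarith
    · intro o ho
      refine ⟨?_, hup o ho⟩
      have h2 : 0 < (nv o.2 : ℝ) := by
        have := two_le_nv o.2
        positivity
      have := tau_blk_lt K Λ o
      rw [ho, Real.lt_log_iff_exp_lt h2] at this
      exact this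

end

theorem cp_sum {k : Type} [Field k] [NumberField k] {I : Type} [Fintype I] {L : I → Type}
    [∀ i, Field (L i)] [∀ i, NumberField (L i)] [∀ i, Algebra k (L i)] (M : Type) [Field M]
    [NumberField M] [Algebra k M] [IsGalois k M] [∀ i, Algebra (L i) M]
    [∀ i, IsScalarTower k (L i) M] {S : Finset (Pr k)}
    {al : ∀ i, Pr (L i) → 𝓞 (L i)} {Cg : ℕ} (hF : Fam k L S al Cg) :
    ∃ η : ℝ, 0 < η ∧ η ≤ 1 ∧ ∀ K : ℕ, 1 ≤ K → ∃ C : ℝ, ∀ Λ : ℝ, 1 ≤ Λ → ∀ p : I → ℕ,
      ∀ j₁ : ℕ, 1 ≤ j₁ → j₁ ≤ K → (∀ i, 1 ≤ p i → j₁ ≤ p i) → ∀ T : Finset (PL L),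
      (∀ o ∈ T, dg k o.2 = 1 ∧ bl k o.2 ∉ S ∧ 1 ≤ p o.1 ∧ p o.1 ≤ blk K Λ o) →
      ∑ o ∈ T, cp k K Λ p o / nv o.2 ≤
        ((1 - η) * (K - j₁ + 1) / K + 2 * (Fintype.card I : ℝ) ^ 2 / K) * Real.log Λ + C := by
  classical
  obtain ⟨η, C₀, hη0, hη1, hbeta⟩ := beta_sum L M S hF.two_le hF.four_le hF.unr
  obtain ⟨C₁, hcrude⟩ := crude_sum L
  refine ⟨η, hη0, hη1, ?_⟩
  intro K hK
  set r : ℝ := (Fintype.card I : ℝ) with hr
  have hr0 : 0 ≤ r := Nat.cast_nonneg _
  refine ⟨(K + 1) * (1 + |C₀|) + 2 * r * (r + |C₁|), ?_⟩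
  intro Λ hΛ p j₁ hj₁ hj₁K hp T hT
  have hKpos : (0 : ℝ) < K := by exact_mod_cast hK
  have hlogΛ : 0 ≤ Real.log Λ := Real.log_nonneg hΛ
  set l : ℝ := Real.log Λ / K + 1 with hl
  have hl0 : 0 ≤ l := by positivity
  set a : ℝ := (1 - η) * l + |C₀| with ha
  set b : ℝ := r * l + |C₁| with hb
  have ha0 : 0 ≤ a := add_nonneg (mul_nonneg (by linarith) hl0) (abs_nonneg _)
  have hb0 : 0 ≤ b := add_nonneg (mul_nonneg hr0 hl0) (abs_nonneg _)
  set U : Finset ℕ := (Finset.univ.image p) ∪ (Finset.univ.image fun i => p i + 1) with hU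
  have hUcard : (U.card : ℝ) ≤ 2 * r := by
    have h1 : U.card ≤ 2 * Fintype.card I := by
      calc U.card ≤ (Finset.univ.image p).card + (Finset.univ.image fun i => p i + 1).card :=
            Finset.card_union_le _ _
        _ ≤ Fintype.card I + Fintype.card I := by
            refine Nat.add_le_add ?_ ?_
            · exact Finset.card_image_le
            · exact Finset.card_image_le
        _ = 2 * Fintype.card I := by ring
    rw [hr]
    exact_mod_cast h1
  -- splitting into blocks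
  have hmaps : ∀ o ∈ T, blk K Λ o ∈ Finset.Icc j₁ K := by
    intro o ho
    obtain ⟨-, -, h3, h4⟩ := hT o ho
    exact Finset.mem_Icc.2 ⟨(hp _ h3).trans h4, blk_le K Λ o⟩
  rw [← Finset.sum_fiberwise_of_maps_to hmaps]
  have hper : ∀ j ∈ Finset.Icc j₁ K, ∑ o ∈ T with blk K Λ o = j, cp k K Λ p o / nv o.2 ≤
      a + (if j ∈ U then b else 0) := by
    intro j hj
    obtain ⟨hj1, hj2⟩ := Finset.mem_Icc.1 hj
    obtain ⟨z, z', hz, hzz, hlog, hcond⟩ := c4_block (L := L) K hK Λ hΛ j (hj₁.trans hj1) hj2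
    rw [← Finset.sum_filter_add_sum_filter_not (T.filter fun o => blk K Λ o = j)
      (fun o => o.1 ∈ vis p j)]
    have hmem : ∀ o ∈ T.filter (fun o => blk K Λ o = j), (dg k o.2 = 1 ∧ bl k o.2 ∉ S ∧
        1 ≤ p o.1 ∧ p o.1 ≤ j) ∧ blk K Λ o = j := by
      intro o ho
      obtain ⟨h1, h2⟩ := Finset.mem_filter.1 ho
      have h3 := hT o h1
      rw [h2] at h3
      exact ⟨h3, h2⟩
    refine add_le_add ?_ ?_
    · -- visible
      rcases Finset.eq_empty_or_nonempty
        ((T.filter fun o => blk K Λ o = j).filter fun o => o.1 ∈ vis p j) with he | hne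
      · rw [he, Finset.sum_empty]
        exact ha0
      · obtain ⟨o₀, ho₀⟩ := hne
        have hJ : (vis p j).Nonempty := ⟨o₀.1, (Finset.mem_filter.1 ho₀).2⟩
        have h1 := hbeta (vis p j) hJ z z' hz hzz
          ((T.filter fun o => blk K Λ o = j).filter fun o => o.1 ∈ vis p j) (by
            intro o ho
            obtain ⟨h2, h3⟩ := Finset.mem_filter.1 ho
            obtain ⟨⟨h4, h5, h6, h7⟩, h8⟩ := hmem o h2
            exact ⟨h3, h4, h5, (hcond o h8).1, (hcond o h8).2⟩)
        have h2 : ∑ o ∈ (T.filter fun o => blk K Λ o = j).filter (fun o => o.1 ∈ vis p j),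
            cp k K Λ p o / nv o.2 =
            ∑ o ∈ (T.filter fun o => blk K Λ o = j).filter (fun o => o.1 ∈ vis p j),
              beta k (vis p j) o / nv o.2 := by
          refine Finset.sum_congr rfl fun o ho => ?_
          obtain ⟨h2, h3⟩ := Finset.mem_filter.1 ho
          have h4 := (hmem o h2).2
          unfold cp
          rw [h4, if_pos h3]
        rw [h2]
        refine h1.trans ?_
        rw [ha]
        refine add_le_add ?_ (le_abs_self _)
        exact mul_le_mul_of_nonneg_left hlog (by linarith)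
    · -- the others
      rcases Finset.eq_empty_or_nonempty
        ((T.filter fun o => blk K Λ o = j).filter fun o => ¬ o.1 ∈ vis p j) with he | hne
      · rw [he, Finset.sum_empty]
        split_ifs
        · exact hb0
        · exact le_rfl
      · obtain ⟨o₀, ho₀⟩ := hne
        have hvis : ∀ o : PL L, 1 ≤ p o.1 → ¬ o.1 ∈ vis p j → j < p o.1 + 2 := by
          intro o h1 h2
          by_contra h3
          apply h2
          unfold vis
          rw [Finset.mem_filter]
          exact ⟨Finset.mem_univ _, h1, not_lt.1 h3⟩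
        have hjU : j ∈ U := by
          obtain ⟨h2, h3⟩ := Finset.mem_filter.1 ho₀
          obtain ⟨⟨h4, h5, h6, h7⟩, h8⟩ := hmem o₀ h2
          have h9 := hvis o₀ h6 h3
          rw [hU, Finset.mem_union, Finset.mem_image, Finset.mem_image]
          have h10 : p o₀.1 = j ∨ p o₀.1 + 1 = j := by omega
          rcases h10 with h10 | h10
          · left; exact ⟨o₀.1, Finset.mem_univ _, h10⟩
          · right; exact ⟨o₀.1, Finset.mem_univ _, h10⟩
        rw [if_pos hjU]
        have h1 := hcrude z z' hz hzz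
          ((T.filter fun o => blk K Λ o = j).filter fun o => ¬ o.1 ∈ vis p j) (by
            intro o ho
            obtain ⟨h2, h3⟩ := Finset.mem_filter.1 ho
            exact hcond o (hmem o h2).2)
        have h2 : ∑ o ∈ (T.filter fun o => blk K Λ o = j).filter (fun o => ¬ o.1 ∈ vis p j),
            cp k K Λ p o / nv o.2 =
            ∑ o ∈ (T.filter fun o => blk K Λ o = j).filter (fun o => ¬ o.1 ∈ vis p j),
              ((nv o.2 : ℝ))⁻¹ := by
          refine Finset.sum_congr rfl fun o ho => ?_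
          obtain ⟨h2, h3⟩ := Finset.mem_filter.1 ho
          have h4 := (hmem o h2).2
          unfold cp
          rw [h4, if_neg h3, one_div]
        rw [h2]
        refine h1.trans ?_
        rw [hb]
        refine add_le_add ?_ (le_abs_self _)
        exact mul_le_mul_of_nonneg_left hlog hr0
  refine (Finset.sum_le_sum hper).trans ?_
  rw [Finset.sum_add_distrib, Finset.sum_const, ← Finset.sum_filter, Finset.sum_const,
    nsmul_eq_mul, nsmul_eq_mul, Nat.card_Icc]
  have hc1 : ((K + 1 - j₁ : ℕ) : ℝ) = K - j₁ + 1 := by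
    rw [Nat.cast_sub (by omega)]
    push_cast
    ring
  rw [hc1]
  have hc2 : (((Finset.Icc j₁ K).filter fun j => j ∈ U).card : ℝ) ≤ 2 * r := by
    refine le_trans ?_ hUcard
    exact_mod_cast Finset.card_le_card fun j hj => (Finset.mem_filter.1 hj).2
  have hc3 := mul_le_mul_of_nonneg_right hc2 hb0
  have hj₁' : (1 : ℝ) ≤ j₁ := by exact_mod_cast hj₁
  have hj₁K' : (j₁ : ℝ) ≤ K := by exact_mod_cast hj₁K
  have hc4 : (K - j₁ + 1 : ℝ) * ((1 - η) + |C₀|) ≤ (K + 1) * (1 + |C₀|) := by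
    have := abs_nonneg C₀
    exact mul_le_mul (by linarith) (by linarith) (by linarith) (by linarith)
  have e1 : (K - j₁ + 1 : ℝ) * a = ((1 - η) * (K - j₁ + 1) / K) * Real.log Λ +
      (K - j₁ + 1 : ℝ) * ((1 - η) + |C₀|) := by
    rw [ha, hl]
    field_simp
    ring
  have e2 : 2 * r * b = (2 * r ^ 2 / K) * Real.log Λ + 2 * r * (r + |C₁|) := by
    rw [hb, hl]
    field_simp
    ring
  rw [e1]
  rw [e2] at hc3
  linarith

end SC5
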