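import Pool.Agent.MP_c1dca2_ag.SC5.C2
import Pool.Agent.MP_c1dca2_ag.SC5.C4

/-!
# [SC5-C5] the sum over the configurations with a given pattern

`pat K Λ P i` = the smallest block of an element of index `i` of `P` (`0` if there is none).

Proof. If `Ps` is empty the claim is trivial (all factors nonnegative). All `P ∈ Ps` have the pattern `p`; let
`Sl = {i | 1 ≤ p i}`. For `P ∈ Ps` and `i ∈ Sl` there is an element of index `i` in `P` (otherwise `pat = 0`), choose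
`w_P i ∈ P` of index `i` and block `p i`; for `i ∉ Sl` there is no element of index `i` in `P` (its block would be `≥ 1` by
`one_le_blk`: `log (nv o) ≤ log (NP P) ≤ Λ`), put `w_P i = d`, `d` a fixed element of `PL L` (exists as `P` is nonempty).
`P'_P = P \ {w_P i | i ∈ Sl}`. Every `o ∈ P'_P` has `1 ≤ p o.1 ≤ blk o`, `P'_P ⊆ P` satisfies `Cfg`, `#P'_P ≤ #P`, and
`P = P'_P ∪ Sl.image w_P`, `NP P = NP P'_P * ∏_{i ∈ Sl} nv (w_P i)`. For a given `P'` let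
`T i = {w | w.1 = i, blk K Λ w = p i, nv w ≤ exp Λ, bl k w ≠ bl k o for o ∈ P'}` (finite, `finite_nv`) for `i ∈ Sl`, `{d}`
otherwise. `P ↦ w_P` is injective on `{P ∈ Ps | P'_P = P'}` and maps to the set of `slot_sum` with `Z = exp Λ / NP P'` (the
`Rel` at `o ∈ P' ⊆ P` by hypothesis). So by `slot_sum`
`∑_{P ∈ Ps, P'_P = P'} (exp Λ / NP P)^(3/4) ≤ A (exp Λ / NP P') tau(p i₁)^(-1+ε) Λ^(ε r) ∏_{o ∈ P'} cp o`
`= A exp Λ tau(p i₁)^(-1+ε) Λ^(ε r) ∏_{o ∈ P'} (cp o / nv o)`. Sum over the `P'` in the image of `Ps`: `prod_sum_le` with `T` the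
union of the `P'` (`cp ≥ 0`), and `cp_sum` with `j₁ = p i₁`. (`η` is the number of `cp_sum`.)
-/

set_option autoImplicit false

open NumberField IsDedekindDomain

noncomputable section

namespace SC5

open scoped Classical in
/-- The smallest block of an element of index `i`. -/
def pat {I : Type} {L : I → Type} [∀ i, Field (L i)] [∀ i, NumberField (L i)] (K : ℕ) (Λ : ℝ)
    (P : Finset (PL L)) (i : I) : ℕ :=
  if h : (P.filter (fun o => o.1 = i)).Nonempty then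
    (P.filter (fun o => o.1 = i)).inf' h (blk K Λ) else 0

/-- The configurations to be counted. -/
structure Adm {k : Type} [Field k] [NumberField k] {I : Type} {L : I → Type}
    [∀ i, Field (L i)] [∀ i, NumberField (L i)] [∀ i, Algebra k (L i)] (S : Finset (Pr k))
    (al : ∀ i, Pr (L i) → 𝓞 (L i)) (Λ : ℝ) (E : PL L → PL L → PL L → ℤˣ) (P : Finset (PL L)) :
    Prop where
  cfg : Cfg k S P
  norm : NP P ≤ Real.exp Λ
  card : (P.card : ℝ) ≤ Real.log Λ ^ 2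
  big : ∃ o ∈ P, Λ ^ (1 / 2 : ℝ) < Real.log (nv o.2)
  rel : ∀ o ∈ P, Rel k (E o) o (sgn al P)

/-! ### auxiliary -/

section aux

variable {I : Type} {L : I → Type} [∀ i, Field (L i)] [∀ i, NumberField (L i)]

private theorem c5_nv_pos (o : PL L) : (0 : ℝ) < nv o.2 := by
  have h : (2 : ℝ) ≤ nv o.2 := by exact_mod_cast two_le_nv o.2
  linarith

private theorem c5_nv_le_NP {P : Finset (PL L)} {o : PL L} (ho : o ∈ P) :
    (nv o.2 : ℝ) ≤ NP P := by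
  classical
  have h := Finset.mul_prod_erase P (fun o => (nv o.2 : ℝ)) ho
  have h1 : 1 ≤ NP (P.erase o) := one_le_NP _
  unfold NP at h1 ⊢
  rw [← h]
  exact le_mul_of_one_le_right (c5_nv_pos o).le h1

private theorem c5_log_le {P : Finset (PL L)} {Λ : ℝ} (hP : NP P ≤ Real.exp Λ) {o : PL L}
    (ho : o ∈ P) : Real.log (nv o.2) ≤ Λ := by
  rw [Real.log_le_iff_le_exp (c5_nv_pos o)]
  exact (c5_nv_le_NP ho).trans hP

private theorem c5_pat_ex {K : ℕ} {Λ : ℝ} {P : Finset (PL L)} {p : I → ℕ} (hp : pat K Λ P = p)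
    (i : I) (hi : 1 ≤ p i) : ∃ o ∈ P, o.1 = i ∧ blk K Λ o = p i := by
  classical
  have h := congrFun hp i
  unfold pat at h
  split_ifs at h with hne
  · obtain ⟨o, ho, he⟩ := Finset.exists_mem_eq_inf' hne (blk K Λ)
    rw [he] at h
    rw [Finset.mem_filter] at ho
    exact ⟨o, ho.1, ho.2, h⟩
  · omega

private theorem c5_pat_mem {K : ℕ} (hK : 1 ≤ K) {Λ : ℝ} {P : Finset (PL L)} {p : I → ℕ}
    (hp : pat K Λ P = p) (hlog : ∀ o ∈ P, Real.log (nv o.2) ≤ Λ) {o : PL L} (ho : o ∈ P) :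
    1 ≤ p o.1 ∧ p o.1 ≤ blk K Λ o := by
  classical
  have h := congrFun hp o.1
  unfold pat at h
  have hne : (P.filter (fun q => q.1 = o.1)).Nonempty := ⟨o, by simp [ho]⟩
  rw [dif_pos hne] at h
  refine ⟨?_, ?_⟩
  · rw [← h]
    refine (Finset.le_inf'_iff _ _).2 fun q hq => ?_
    rw [Finset.mem_filter] at hq
    exact one_le_blk K hK Λ q (hlog q hq.1)
  · rw [← h]
    exact Finset.inf'_le _ (by simp [ho])

private theorem c5_pat_le {K : ℕ} {Λ : ℝ} {P : Finset (PL L)} {p : I → ℕ}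
    (hp : pat K Λ P = p) (i : I) : p i ≤ K := by
  rcases Nat.eq_zero_or_pos (p i) with h | h
  · omega
  · obtain ⟨o, -, -, he⟩ := c5_pat_ex hp i h
    rw [← he]
    exact blk_le K Λ o

private theorem c5_cfg_sub {k : Type} [Field k] [NumberField k] [∀ i, Algebra k (L i)]
    {S : Finset (Pr k)} {P Q : Finset (PL L)} (h : Cfg k S P) (hQ : Q ⊆ P) : Cfg k S Q :=
  ⟨fun o ho => h.out o (hQ ho), fun o ho => h.deg o (hQ ho),
    fun o ho o' ho' he => h.inj o (hQ ho) o' (hQ ho') he⟩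

private theorem c5_cp_nonneg {k : Type} [Field k] [NumberField k] [∀ i, Algebra k (L i)]
    [Fintype I] (K : ℕ) (Λ : ℝ) (p : I → ℕ) (o : PL L) : 0 ≤ cp k K Λ p o := by
  unfold cp
  split_ifs
  · unfold beta
    split_ifs <;> positivity
  · exact zero_le_one

/-- A choice of special elements. -/
private theorem c5_choice {K : ℕ} {Λ : ℝ} (p : I → ℕ) (d : PL L) (Ps : Finset (Finset (PL L)))
    (hPs : ∀ P ∈ Ps, pat K Λ P = p) :
    ∃ W : Finset (PL L) → I → PL L, (∀ P ∈ Ps, ∀ i, 1 ≤ p i → W P i ∈ P ∧ (W P i).1 = i ∧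
      blk K Λ (W P i) = p i) ∧ ∀ P, ∀ i, p i = 0 → W P i = d := by
  classical
  refine ⟨fun P i => if h : 1 ≤ p i ∧ ∃ o ∈ P, o.1 = i ∧ blk K Λ o = p i then h.2.choose else d,
    ?_, ?_⟩
  · intro P hP i hi
    have h : 1 ≤ p i ∧ ∃ o ∈ P, o.1 = i ∧ blk K Λ o = p i := ⟨hi, c5_pat_ex (hPs P hP) i hi⟩
    simp only [dif_pos h]
    exact h.2.choose_spec
  · intro P i hi
    have h : ¬ (1 ≤ p i ∧ ∃ o ∈ P, o.1 = i ∧ blk K Λ o = p i) := by
      rintro ⟨h1, -⟩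
      omega
    simp only [dif_neg h]

open scoped Classical in
/-- The sum over the configurations with given rest `P'`. -/
private theorem c5_fiber {k : Type} [Field k] [NumberField k] [∀ i, Algebra k (L i)] [Fintype I]
    {S : Finset (Pr k)} {al : ∀ i, Pr (L i) → 𝓞 (L i)} (K : ℕ) (Λ : ℝ) (A B : ℝ)
    (p : I → ℕ) (P' : Finset (PL L)) (d : PL L) (E : PL L → PL L → PL L → ℤˣ)
    (hslot : ∀ (T : I → Finset (PL L)), (∀ i, p i = 0 → T i = {d}) →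
      (∀ i, 1 ≤ p i → ∀ w ∈ T i, w.1 = i ∧ blk K Λ w = p i ∧ ∀ o ∈ P', bl k w.2 ≠ bl k o.2) →
      ∀ (Z : ℝ), 0 < Z →
      ∑ w ∈ (Fintype.piFinset T).filter (fun w =>
          (∏ i ∈ Finset.univ.filter (fun i => 1 ≤ p i), (nv (w i).2 : ℝ)) ≤ Z ∧
          ∀ o ∈ P', Rel k (E o) o
            (sgn al (P' ∪ (Finset.univ.filter (fun i => 1 ≤ p i)).image w))),
        (Z / ∏ i ∈ Finset.univ.filter (fun i => 1 ≤ p i), (nv (w i).2 : ℝ)) ^ (3 / 4 : ℝ) ≤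
      A * Z * B)
    (Ps : Finset (Finset (PL L))) (W : Finset (PL L) → I → PL L)
    (hW : ∀ P ∈ Ps, ∀ i, 1 ≤ p i → W P i ∈ P ∧ (W P i).1 = i ∧ blk K Λ (W P i) = p i)
    (hW0 : ∀ P, ∀ i, p i = 0 → W P i = d)
    (hadm : ∀ P ∈ Ps, Adm S al Λ E P)
    (hQ : ∀ P ∈ Ps, P \ (Finset.univ.filter (fun i => 1 ≤ p i)).image (W P) = P') :
    ∑ P ∈ Ps, (Real.exp Λ / NP P) ^ (3 / 4 : ℝ) ≤ A * (Real.exp Λ / NP P') * B := by
  set Sl : Finset I := Finset.univ.filter (fun i => 1 ≤ p i) with hSl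
  have hmemSl : ∀ i, i ∈ Sl ↔ 1 ≤ p i := fun i => by simp [hSl]
  have hunion : ∀ P ∈ Ps, P' ∪ Sl.image (W P) = P := by
    intro P hP
    rw [← hQ P hP]
    apply Finset.sdiff_union_of_subset
    intro w hw
    obtain ⟨i, hi, rfl⟩ := Finset.mem_image.1 hw
    exact (hW P hP i ((hmemSl i).1 hi)).1
  have hdisj : ∀ P ∈ Ps, Disjoint P' (Sl.image (W P)) := by
    intro P hP
    rw [← hQ P hP]
    exact Finset.sdiff_disjoint
  have hNPimg : ∀ P ∈ Ps, NP (Sl.image (W P)) = ∏ i ∈ Sl, (nv (W P i).2 : ℝ) := by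
    intro P hP
    unfold NP
    apply Finset.prod_image
    intro i hi j hj hij
    have h1 := (hW P hP i ((hmemSl i).1 hi)).2.1
    have h2 := (hW P hP j ((hmemSl j).1 hj)).2.1
    rw [← h1, ← h2, hij]
  have hNP : ∀ P ∈ Ps, NP P = NP P' * ∏ i ∈ Sl, (nv (W P i).2 : ℝ) := by
    intro P hP
    rw [← hNPimg P hP, ← NP_union _ _ (hdisj P hP), hunion P hP]
  have hNP' : 0 < NP P' := lt_of_lt_of_le one_pos (one_le_NP P')
  have hprod : ∀ w : I → PL L, 0 < ∏ i ∈ Sl, (nv (w i).2 : ℝ) := fun w =>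
    Finset.prod_pos fun i _ => c5_nv_pos (w i)
  set Z : ℝ := Real.exp Λ / NP P' with hZ
  have hZ0 : 0 < Z := by positivity
  set T : I → Finset (PL L) := fun i => if 1 ≤ p i then Ps.image (fun P => W P i) else {d} with hT
  have h1 := hslot T (fun i hi => by simp [hT, hi]) (fun i hi w hw => by
    simp only [hT, hi, if_true] at hw
    obtain ⟨P, hP, rfl⟩ := Finset.mem_image.1 hw
    obtain ⟨a1, a2, a3⟩ := hW P hP i hi
    refine ⟨a2, a3, fun o ho he => ?_⟩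
    have ho' : o ∈ P := by rw [← hunion P hP]; exact Finset.mem_union_left _ ho
    have h2 := (hadm P hP).cfg.inj _ a1 _ ho' he
    have h3 : W P i ∈ Sl.image (W P) := Finset.mem_image_of_mem _ ((hmemSl i).2 hi)
    rw [h2] at h3
    exact Finset.disjoint_left.1 (hdisj P hP) ho h3) Z hZ0
  refine le_trans ?_ h1
  have hmaps : ∀ P ∈ Ps, W P ∈ (Fintype.piFinset T).filter (fun w =>
      (∏ i ∈ Sl, (nv (w i).2 : ℝ)) ≤ Z ∧
        ∀ o ∈ P', Rel k (E o) o (sgn al (P' ∪ Sl.image w))) := by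
    intro P hP
    rw [Finset.mem_filter, Fintype.mem_piFinset]
    refine ⟨fun i => ?_, ?_, fun o ho => ?_⟩
    · by_cases hi : 1 ≤ p i
      · simp only [hT, hi, if_true]
        exact Finset.mem_image_of_mem (fun P => W P i) hP
      · simp only [hT, hi, if_false, Finset.mem_singleton]
        exact hW0 P i (by omega)
    · rw [hZ, le_div_iff₀ hNP', mul_comm, ← hNP P hP]
      exact (hadm P hP).norm
    · rw [hunion P hP]
      apply (hadm P hP).rel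
      rw [← hunion P hP]
      exact Finset.mem_union_left _ ho
  have hinj : Set.InjOn W (Ps : Set (Finset (PL L))) := by
    intro P hP Q hQ' he
    rw [← hunion P hP, ← hunion Q hQ', he]
  have h2 : ∑ P ∈ Ps, (Real.exp Λ / NP P) ^ (3 / 4 : ℝ) =
      ∑ w ∈ Ps.image W, (Z / ∏ i ∈ Sl, (nv (w i).2 : ℝ)) ^ (3 / 4 : ℝ) := by
    rw [Finset.sum_image hinj]
    refine Finset.sum_congr rfl fun P hP => ?_
    rw [hNP P hP, hZ, div_div]
  rw [h2]
  refine Finset.sum_le_sum_of_subset_of_nonneg ?_ fun w _ _ => ?_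
  · intro w hw
    obtain ⟨P, hP, rfl⟩ := Finset.mem_image.1 hw
    exact hmaps P hP
  · exact Real.rpow_nonneg (div_nonneg hZ0.le (hprod w).le) _

end aux

theorem pattern_sum {k : Type} [Field k] [NumberField k] {I : Type} [Fintype I] {L : I → Type}
    [∀ i, Field (L i)] [∀ i, NumberField (L i)] [∀ i, Algebra k (L i)] (M : Type) [Field M]
    [NumberField M] [Algebra k M] [IsGalois k M] [∀ i, Algebra (L i) M]
    [∀ i, IsScalarTower k (L i) M] {S : Finset (Pr k)}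
    {al : ∀ i, Pr (L i) → 𝓞 (L i)} {Cg : ℕ} (hF : Fam k L S al Cg) :
    ∃ η : ℝ, 0 < η ∧ η ≤ 1 ∧ ∀ K : ℕ, 2 ≤ K → ∀ ε : ℝ, 0 < ε → ε < 1 →
      ∃ C Λ₀ : ℝ, 0 < C ∧ 1 ≤ Λ₀ ∧ ∀ Λ : ℝ, Λ₀ ≤ Λ → ∀ p : I → ℕ, ∀ i₁ : I,
      1 ≤ p i₁ → p i₁ < K → (∀ i, 1 ≤ p i → p i₁ ≤ p i) →
      ∀ (E : PL L → PL L → PL L → ℤˣ) (Ps : Finset (Finset (PL L))),
        (∀ P ∈ Ps, Adm S al Λ E P ∧ pat K Λ P = p) →
        ∑ P ∈ Ps, (Real.exp Λ / NP P) ^ (3 / 4 : ℝ) ≤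
          C * Real.exp Λ * tau K Λ (p i₁) ^ (-1 + ε) * Λ ^ (ε * Fintype.card I) *
            Λ ^ ((1 - η) * (K - p i₁ + 1) / K + 2 * (Fintype.card I : ℝ) ^ 2 / K) := by
  classical
  obtain ⟨η, hη0, hη1, hcp⟩ := cp_sum M hF
  refine ⟨η, hη0, hη1, fun K hK ε hε hε1 => ?_⟩
  obtain ⟨C₂, hC₂⟩ := hcp K (by omega)
  obtain ⟨A, Λ₀, hA, hΛ₀, hslot⟩ := slot_sum hF K hK ε hε hε1
  refine ⟨A * Real.exp C₂, Λ₀, by positivity, hΛ₀, ?_⟩
  intro Λ hΛ p i₁ hi1 hi1K hmin E Ps hPs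
  have hΛ1 : 1 ≤ Λ := hΛ₀.trans hΛ
  have hτ : 0 ≤ tau K Λ (p i₁) := tau_nonneg K Λ hΛ1 _
  have hτε : 0 ≤ tau K Λ (p i₁) ^ (-1 + ε) := Real.rpow_nonneg hτ _
  have hΛε : 0 ≤ Λ ^ (ε * Fintype.card I) := Real.rpow_nonneg (by linarith) _
  rcases Ps.eq_empty_or_nonempty with hemp | ⟨P₀, hP₀⟩
  · rw [hemp, Finset.sum_empty]
    have : 0 ≤ Λ ^ ((1 - η) * (K - p i₁ + 1) / K + 2 * (Fintype.card I : ℝ) ^ 2 / K) :=
      Real.rpow_nonneg (by linarith) _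
    positivity
  obtain ⟨d, -, -⟩ := (hPs P₀ hP₀).1.big
  obtain ⟨W, hW, hW0⟩ := c5_choice p d Ps fun P hP => (hPs P hP).2
  set Sl : Finset I := Finset.univ.filter (fun i => 1 ≤ p i) with hSl
  set Q : Finset (PL L) → Finset (PL L) := fun P => P \ Sl.image (W P) with hQ
  have hQsub : ∀ P, Q P ⊆ P := fun P => Finset.sdiff_subset
  have hlog : ∀ P ∈ Ps, ∀ o ∈ P, Real.log (nv o.2) ≤ Λ := fun P hP o ho =>
    c5_log_le (hPs P hP).1.norm ho
  set B : Finset (PL L) → ℝ := fun P' => tau K Λ (p i₁) ^ (-1 + ε) * Λ ^ (ε * Fintype.card I) *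
    ∏ o ∈ P', cp k K Λ p o with hB
  have hfib : ∀ P' ∈ Ps.image Q, ∑ P ∈ Ps.filter (fun P => Q P = P'),
      (Real.exp Λ / NP P) ^ (3 / 4 : ℝ) ≤ A * (Real.exp Λ / NP P') * B P' := by
    intro P' hP'
    obtain ⟨P₁, hP₁, rfl⟩ := Finset.mem_image.1 hP'
    have hcfg : Cfg k S (Q P₁) := c5_cfg_sub (hPs P₁ hP₁).1.cfg (hQsub P₁)
    have hcard : ((Q P₁).card : ℝ) ≤ Real.log Λ ^ 2 := by
      refine le_trans ?_ (hPs P₁ hP₁).1.card
      exact_mod_cast Finset.card_le_card (hQsub P₁)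
    refine c5_fiber (S := S) (al := al) K Λ A (B (Q P₁)) p (Q P₁) d E ?_
      (Ps.filter (fun P => Q P = Q P₁)) W ?_ hW0 ?_ ?_
    · intro T hT1 hT2 Z hZ
      have h := hslot Λ hΛ p (fun i => c5_pat_le (hPs P₁ hP₁).2 i) i₁ hi1 hi1K hmin (Q P₁) hcfg
        hcard d T hT1 hT2 E Z hZ
      refine h.trans (le_of_eq ?_)
      rw [hB]
      ring
    · exact fun P hP i hi => hW P (Finset.mem_filter.1 hP).1 i hi
    · exact fun P hP => (hPs P (Finset.mem_filter.1 hP).1).1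
    · exact fun P hP => (Finset.mem_filter.1 hP).2
  have hsum : ∑ P ∈ Ps, (Real.exp Λ / NP P) ^ (3 / 4 : ℝ) =
      ∑ P' ∈ Ps.image Q, ∑ P ∈ Ps.filter (fun P => Q P = P'),
        (Real.exp Λ / NP P) ^ (3 / 4 : ℝ) :=
    (Finset.sum_fiberwise_of_maps_to (fun P hP => Finset.mem_image_of_mem Q hP) _).symm
  rw [hsum]
  have hterm : ∀ P' : Finset (PL L), A * (Real.exp Λ / NP P') * B P' =
      (A * Real.exp Λ * tau K Λ (p i₁) ^ (-1 + ε) * Λ ^ (ε * Fintype.card I)) *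
        ∏ o ∈ P', cp k K Λ p o / nv o.2 := by
    intro P'
    rw [Finset.prod_div_distrib, hB]
    unfold NP
    ring
  have hexp : ∑ P' ∈ Ps.image Q, ∏ o ∈ P', cp k K Λ p o / nv o.2 ≤
      Real.exp (∑ o ∈ (Ps.image Q).biUnion id, cp k K Λ p o / nv o.2) := by
    apply prod_sum_le
    · intro o
      exact div_nonneg (c5_cp_nonneg K Λ p o) (c5_nv_pos o).le
    · intro P' hP' o ho
      exact Finset.mem_biUnion.2 ⟨P', hP', ho⟩
  have hcs := hC₂ Λ hΛ1 p (p i₁) hi1 hi1K.le hmin ((Ps.image Q).biUnion id) (by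
    intro o ho
    obtain ⟨P', hP', ho'⟩ := Finset.mem_biUnion.1 ho
    obtain ⟨P, hP, rfl⟩ := Finset.mem_image.1 hP'
    have hoP : o ∈ P := hQsub P ho'
    have h1 := c5_pat_mem (by omega : 1 ≤ K) (hPs P hP).2 (hlog P hP) hoP
    exact ⟨(hPs P hP).1.cfg.deg o hoP, (hPs P hP).1.cfg.out o hoP, h1.1, h1.2⟩)
  have hΛpos : 0 < Λ := by linarith
  have hfin : Real.exp (∑ o ∈ (Ps.image Q).biUnion id, cp k K Λ p o / nv o.2) ≤
      Λ ^ ((1 - η) * (K - p i₁ + 1) / K + 2 * (Fintype.card I : ℝ) ^ 2 / K) *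
        Real.exp C₂ := by
    rw [Real.rpow_def_of_pos hΛpos, ← Real.exp_add]
    apply Real.exp_le_exp.2
    calc ∑ o ∈ (Ps.image Q).biUnion id, cp k K Λ p o / nv o.2 ≤ _ := hcs
      _ = _ := by ring
  have hconst : 0 ≤ A * Real.exp Λ * tau K Λ (p i₁) ^ (-1 + ε) * Λ ^ (ε * Fintype.card I) := by
    positivity
  calc ∑ P' ∈ Ps.image Q, ∑ P ∈ Ps.filter (fun P => Q P = P'),
        (Real.exp Λ / NP P) ^ (3 / 4 : ℝ)
      ≤ ∑ P' ∈ Ps.image Q, A * (Real.exp Λ / NP P') * B P' := Finset.sum_le_sum hfib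
    _ = (A * Real.exp Λ * tau K Λ (p i₁) ^ (-1 + ε) * Λ ^ (ε * Fintype.card I)) *
        ∑ P' ∈ Ps.image Q, ∏ o ∈ P', cp k K Λ p o / nv o.2 := by
      rw [Finset.mul_sum]
      exact Finset.sum_congr rfl fun P' _ => hterm P'
    _ ≤ (A * Real.exp Λ * tau K Λ (p i₁) ^ (-1 + ε) * Λ ^ (ε * Fintype.card I)) *
        (Λ ^ ((1 - η) * (K - p i₁ + 1) / K + 2 * (Fintype.card I : ℝ) ^ 2 / K) *
          Real.exp C₂) := mul_le_mul_of_nonneg_left (hexp.trans hfin) hconst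
    _ = _ := by ring

end SC5
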