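import Pool.Agent.MP_c1dca2_ag.SC5.C5

/-!
# [SC5-C6] the sum over all configurations

`η ≤ 1` from `pattern_sum`, `r = card I`, `ε = η / (8 (r + 1))`, `K = 2 m` with `K ≥ 16 (1 + 2 r^2) / η`, `m ≥ 1`, `δ = η / 4`.
Split `Ps` according to the pattern `p = pat K Λ P`, all values in `[0, K]` (`blk_le`), so at most `(K + 1)^r` patterns. Let
`P ∈ Ps` have pattern `p`. The element `o` of `Adm.big` has `blk o ≤ m` (`blk_half`) and `1 ≤ blk o` (`one_le_blk`,
`log (nv o) ≤ log (NP P) ≤ Λ`); all elements of `P` have block `≥ 1`, so the indices which occur in `P` are those with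
`1 ≤ p i`, and `p o.1 ≤ m`. Let `i₁` be an index with `1 ≤ p i₁` and `p i₁` minimal: `p₁ = p i₁ ≤ m < K`. By `pattern_sum` the part
of `p` is at most `C exp Λ` times `Λ` to the power
`-(1 - ε)(1 - p₁/K) + ε r + (1 - η)(1 - p₁/K) + (1 - η)/K + 2 r^2 / K ≤ -(η - ε)(1 - p₁/K) + ε r + (1 + 2 r^2)/K`
`≤ -(η - ε)/2 + η/8 + η/16 ≤ - η/2 + η/16 + η/8 + η/16 = -η/4` (`tau K Λ p₁ = Λ^(1 - p₁/K)`).
-/

set_option autoImplicit false

open NumberField IsDedekindDomain

namespace SC5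

section c6

variable {I : Type} {L : I → Type} [∀ i, Field (L i)] [∀ i, NumberField (L i)]

theorem c6_pat_le_blk (K : ℕ) (Λ : ℝ) (P : Finset (PL L)) (o : PL L) (ho : o ∈ P) :
    pat K Λ P o.1 ≤ blk K Λ o := by
  classical
  have hne : (P.filter (fun o' => o'.1 = o.1)).Nonempty := ⟨o, by simp [ho]⟩
  have h1 : pat K Λ P o.1 = (P.filter (fun o' => o'.1 = o.1)).inf' hne (blk K Λ) := by
    unfold pat
    rw [dif_pos]
  rw [h1]
  apply Finset.inf'_le
  simp [ho]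

theorem c6_pat_cases (K : ℕ) (Λ : ℝ) (P : Finset (PL L)) (i : I) :
    pat K Λ P i = 0 ∨ ∃ o ∈ P, o.1 = i ∧ pat K Λ P i = blk K Λ o := by
  classical
  by_cases hne : (P.filter (fun o' => o'.1 = i)).Nonempty
  · right
    obtain ⟨o, ho, h⟩ := Finset.exists_mem_eq_inf' hne (blk K Λ)
    have h1 : pat K Λ P i = (P.filter (fun o' => o'.1 = i)).inf' hne (blk K Λ) := by
      unfold pat
      rw [dif_pos]
    rw [Finset.mem_filter] at ho
    exact ⟨o, ho.1, ho.2, by rw [h1, h]⟩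
  · left
    unfold pat
    rw [dif_neg]
    convert hne

theorem c6_pat_le (K : ℕ) (Λ : ℝ) (P : Finset (PL L)) (i : I) : pat K Λ P i ≤ K := by
  rcases c6_pat_cases K Λ P i with h | ⟨o, _, _, h⟩
  · rw [h]; exact Nat.zero_le _
  · rw [h]; exact blk_le K Λ o

theorem c6_nv_le (P : Finset (PL L)) (o : PL L) (ho : o ∈ P) : (nv o.2 : ℝ) ≤ NP P := by
  classical
  have h1 : NP P = (nv o.2 : ℝ) * NP (P.erase o) := by
    unfold NP
    rw [Finset.mul_prod_erase P (fun o => (nv o.2 : ℝ)) ho]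
  rw [h1]
  exact le_mul_of_one_le_right (Nat.cast_nonneg _) (one_le_NP _)

theorem c6_log_le (P : Finset (PL L)) (Λ : ℝ) (hΛ : 0 ≤ Λ) (h : NP P ≤ Real.exp Λ) (o : PL L)
    (ho : o ∈ P) : Real.log (nv o.2) ≤ Λ := by
  have h1 := (c6_nv_le P o ho).trans h
  rcases (Nat.cast_nonneg (α := ℝ) (nv o.2)).eq_or_lt with h2 | h2
  · rw [← h2, Real.log_zero]; exact hΛ
  · rw [Real.log_le_iff_le_exp h2]; exact h1

end c6

/-- the inequality between the exponents -/
theorem c6_expo (η ε r K x : ℝ) (hη : 0 < η) (hη1 : η ≤ 1) (hr : 0 ≤ r) (hε0 : 0 < ε)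
    (hε : ε = η / (8 * (r + 1))) (hK0 : 0 < K) (hK : 16 * (1 + 2 * r ^ 2) / η ≤ K)
    (hx : x / K ≤ 1 / 2) :
    (1 - x / K) * (-1 + ε) + ε * r + ((1 - η) * (K - x + 1) / K + 2 * r ^ 2 / K) ≤ -(η / 4) := by
  have h1 : ε * (r + 1) = η / 8 := by
    rw [hε]
    field_simp
  have h2 : (1 + 2 * r ^ 2) / K ≤ η / 16 := by
    rw [div_le_iff₀ hK0]
    rw [div_le_iff₀ hη] at hK
    linarith
  have h3 : (1 - η) * (K - x + 1) / K = (1 - η) * (1 - x / K) + (1 - η) / K := by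
    field_simp
  have h4 : (1 - η) / K + 2 * r ^ 2 / K ≤ (1 + 2 * r ^ 2) / K := by
    rw [← add_div]
    apply div_le_div_of_nonneg_right _ hK0.le
    linarith
  have h5 : ε * 1 ≤ ε * (r + 1) := by
    apply mul_le_mul_of_nonneg_left _ hε0.le
    linarith
  have h6 : 0 ≤ (η - ε) * (1 / 2 - x / K) := by
    apply mul_nonneg
    · linarith
    · linarith
  rw [h3]
  nlinarith [h1, h2, h4, h5, h6]

theorem total {k : Type} [Field k] [NumberField k] {I : Type} [Fintype I] {L : I → Type}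
    [∀ i, Field (L i)] [∀ i, NumberField (L i)] [∀ i, Algebra k (L i)] (M : Type) [Field M]
    [NumberField M] [Algebra k M] [IsGalois k M] [∀ i, Algebra (L i) M]
    [∀ i, IsScalarTower k (L i) M] {S : Finset (Pr k)}
    {al : ∀ i, Pr (L i) → 𝓞 (L i)} {Cg : ℕ} (hF : Fam k L S al Cg) :
    ∃ δ C Λ₀ : ℝ, 0 < δ ∧ 0 < C ∧ 1 ≤ Λ₀ ∧ ∀ Λ : ℝ, Λ₀ ≤ Λ →
      ∀ (E : PL L → PL L → PL L → ℤˣ) (Ps : Finset (Finset (PL L))),
        (∀ P ∈ Ps, Adm S al Λ E P) →
        ∑ P ∈ Ps, (Real.exp Λ / NP P) ^ (3 / 4 : ℝ) ≤ C * Real.exp Λ * Λ ^ (-δ) := by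
  classical
  obtain ⟨η, hη0, hη1, hps⟩ := pattern_sum M hF
  set r : ℝ := (Fintype.card I : ℝ) with hr
  have hr0 : 0 ≤ r := Nat.cast_nonneg _
  set ε : ℝ := η / (8 * (r + 1)) with hε
  have hε0 : 0 < ε := by positivity
  have hε1 : ε < 1 := by
    rw [hε, div_lt_one (by positivity)]
    nlinarith
  obtain ⟨m, hm⟩ := exists_nat_ge (max 1 (16 * (1 + 2 * r ^ 2) / η))
  have hm1 : 1 ≤ m := by
    have : (1 : ℝ) ≤ m := (le_max_left _ _).trans hm
    exact_mod_cast this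
  have hm2 : 16 * (1 + 2 * r ^ 2) / η ≤ m := (le_max_right _ _).trans hm
  have hK2 : 2 ≤ 2 * m := by omega
  obtain ⟨C, Λ₀, hC, hΛ₀, hmain⟩ := hps (2 * m) hK2 ε hε0 hε1
  refine ⟨η / 4, C * ((2 * m + 1 : ℕ) : ℝ) ^ Fintype.card I, Λ₀, by positivity, by positivity, hΛ₀, ?_⟩
  intro Λ hΛ E Ps hPs
  have hΛ1 : 1 ≤ Λ := hΛ₀.trans hΛ
  have hΛ0 : 0 < Λ := by linarith
  -- all elements have positive block
  have hblk1 : ∀ P ∈ Ps, ∀ o ∈ P, 1 ≤ blk (2 * m) Λ o := by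
    intro P hP o ho
    exact one_le_blk (2 * m) (by omega) Λ o (c6_log_le P Λ hΛ0.le (hPs P hP).norm o ho)
  set R : Finset (I → ℕ) := Fintype.piFinset (fun _ => Finset.range (2 * m + 1)) with hR
  have hmaps : ∀ P ∈ Ps, pat (2 * m) Λ P ∈ R := by
    intro P _
    rw [hR, Fintype.mem_piFinset]
    intro i
    rw [Finset.mem_range]
    exact Nat.lt_succ_of_le (c6_pat_le _ _ _ _)
  rw [← Finset.sum_fiberwise_of_maps_to hmaps]
  have hcardR : R.card = (2 * m + 1) ^ Fintype.card I := by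
    rw [hR, Fintype.card_piFinset]
    simp
  have hbound : ∀ p ∈ R, ∑ P ∈ Ps with pat (2 * m) Λ P = p, (Real.exp Λ / NP P) ^ (3 / 4 : ℝ) ≤
      C * Real.exp Λ * Λ ^ (-(η / 4)) := by
    intro p _
    by_cases hne : (Ps.filter (fun P => pat (2 * m) Λ P = p)).Nonempty
    swap
    · rw [Finset.not_nonempty_iff_eq_empty] at hne
      rw [hne, Finset.sum_empty]
      positivity
    obtain ⟨P, hP⟩ := hne
    rw [Finset.mem_filter] at hP
    obtain ⟨hP, hpat⟩ := hP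
    obtain ⟨o, ho, hbig⟩ := (hPs P hP).big
    have ho1 : blk (2 * m) Λ o ≤ m := blk_half m hm1 Λ hΛ1 o hbig
    have hpo1 : p o.1 ≤ m := by
      rw [← hpat]
      exact (c6_pat_le_blk _ _ _ _ ho).trans ho1
    have hpo2 : 1 ≤ p o.1 := by
      rw [← hpat]
      rcases c6_pat_cases (2 * m) Λ P o.1 with h | ⟨o', ho', _, h⟩
      · exfalso
        have hne' : (P.filter (fun o' => o'.1 = o.1)).Nonempty := ⟨o, by simp [ho]⟩
        obtain ⟨o', ho', h'⟩ := Finset.exists_mem_eq_inf' hne' (blk (2 * m) Λ)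
        have h1 : pat (2 * m) Λ P o.1 =
            (P.filter (fun o' => o'.1 = o.1)).inf' hne' (blk (2 * m) Λ) := by
          unfold pat
          rw [dif_pos]
        rw [Finset.mem_filter] at ho'
        have := hblk1 P hP o' ho'.1
        omega
      · rw [h]
        exact hblk1 P hP o' ho'
    obtain ⟨i₁, hi₁, hmin⟩ := Finset.exists_min_image (Finset.univ.filter (fun i => 1 ≤ p i)) p
      ⟨o.1, by simp [hpo2]⟩
    rw [Finset.mem_filter] at hi₁
    have hp1 : p i₁ ≤ m := (hmin o.1 (by simp [hpo2])).trans hpo1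
    have hp1K : p i₁ < 2 * m := by omega
    have h := hmain Λ hΛ p i₁ hi₁.2 hp1K (fun i hi => hmin i (by simp [hi])) E
      (Ps.filter (fun P => pat (2 * m) Λ P = p)) (by
        intro P hP
        rw [Finset.mem_filter] at hP
        exact ⟨hPs P hP.1, hP.2⟩)
    refine h.trans ?_
    have htau : tau (2 * m) Λ (p i₁) = Λ ^ (1 - (p i₁ : ℝ) / ((2 * m : ℕ) : ℝ)) := by
      unfold tau
      rw [if_pos hp1K]
    rw [htau, ← Real.rpow_mul hΛ0.le, mul_assoc (C * Real.exp Λ * _), mul_assoc (C * Real.exp Λ),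
      ← Real.rpow_add hΛ0, ← Real.rpow_add hΛ0]
    apply mul_le_mul_of_nonneg_left _ (by positivity)
    apply Real.rpow_le_rpow_of_exponent_le hΛ1
    have hx : (p i₁ : ℝ) / ((2 * m : ℕ) : ℝ) ≤ 1 / 2 := by
      have hm0 : (0 : ℝ) < m := by exact_mod_cast hm1
      rw [div_le_iff₀ (by push_cast; positivity)]
      push_cast
      have : (p i₁ : ℝ) ≤ m := by exact_mod_cast hp1
      linarith
    have hm0 : (0 : ℝ) < m := by exact_mod_cast hm1
    have := c6_expo η ε r ((2 * m : ℕ) : ℝ) (p i₁ : ℝ) hη0 hη1 hr0 hε0 hε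
      (by push_cast; positivity) (by push_cast; linarith) hx
    linarith
  calc _ ≤ ∑ p ∈ R, C * Real.exp Λ * Λ ^ (-(η / 4)) := Finset.sum_le_sum hbound
    _ = _ := by
      rw [Finset.sum_const, nsmul_eq_mul, hcardR]
      push_cast
      ring

end SC5
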