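import Pool.Agent.MP_c1dca2_ag.SC5.T1
import Pool.Agent.MP_c1dca2_ag.SC5.A4
import Pool.Agent.MP_c1dca2_ag.SC5.A7

/-!
# [SC5-T2] most `c` have few prime factors

`n = card ι ≥ 1`. For `c ≠ 0` in the box, `TT S c ⊆ {v | el b c ∈ v}` (`TT_mem`), and such `v` have
`nv v ≤ N(el b c) ≤ C₁ N^n` (`norm_box`). So
`∑_{c ≠ 0} #TT ≤ ∑_{nv v ≤ C₁ N^n} #{c ≠ 0 in the box, el b c ∈ v} ≤ ∑ C₂ N^n / nv v ≤ C₂ N^n (log log (C₁ N^n) + C₃)`
(`box_ideal` for the ideal `v`; `sum_upper` with `z = 3/2`; `C₁ N^n ≥ 2` for large `N`). Hence the number of the `c ≠ 0`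
with `#TT > (log log (C N^n))^2` is at most `C₂ N^n (log log (C₁ N^n) + C₃) / (log log (C N^n))^2`, and the quotient by
`(2 N + 1)^n ≥ N^n` tends to `0` (`log log (C₁ N^n) - log log (C N^n)` is bounded; `log log → ∞`).
-/

set_option autoImplicit false

open NumberField IsDedekindDomain Filter Topology

namespace SC5

private theorem t2_lim (C₂ C₄ : ℝ) :
    Tendsto (fun x : ℝ => C₂ * ((x + C₄) / x ^ 2)) atTop (𝓝 0) := by
  have h1 : Tendsto (fun x : ℝ => x⁻¹) atTop (𝓝 0) := tendsto_inv_atTop_zero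
  have h2 : Tendsto (fun x : ℝ => C₂ * (x⁻¹ + C₄ * (x⁻¹ * x⁻¹))) atTop (𝓝 (C₂ * (0 + C₄ * (0 * 0)))) :=
    (h1.add ((h1.mul h1).const_mul C₄)).const_mul C₂
  have h3 : C₂ * (0 + C₄ * (0 * 0)) = (0 : ℝ) := by ring
  rw [h3] at h2
  refine h2.congr' ?_
  filter_upwards [eventually_gt_atTop 0] with x hx
  field_simp

private theorem t2_log (C C₁ p : ℝ) (hC : 1 ≤ C) (hC₁ : 1 ≤ C₁) (hp : 2 ≤ p) (h : C₁ ≤ p) :
    Real.log (Real.log (C₁ * p) / Real.log (3 / 2)) ≤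
      Real.log (Real.log (C * p)) + (Real.log 2 - Real.log (Real.log (3 / 2))) := by
  have h32 : 0 < Real.log (3 / 2) := Real.log_pos (by norm_num)
  have h1 : (2 : ℝ) ≤ C₁ * p := by nlinarith
  have h2 : (2 : ℝ) ≤ C * p := by nlinarith
  have h3 : 0 < Real.log (C₁ * p) := Real.log_pos (by linarith)
  have h4 : 0 < Real.log (C * p) := Real.log_pos (by linarith)
  have h5 : Real.log (C₁ * p) ≤ 2 * Real.log (C * p) := by
    have h6 : C₁ * p ≤ (C * p) ^ 2 := by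
      have hpp : p ≤ C * p := le_mul_of_one_le_left (by linarith) hC
      have e1 : C₁ * p ≤ p * p := mul_le_mul_of_nonneg_right h (by linarith)
      have e2 : p * p ≤ C * p * (C * p) := mul_self_le_mul_self (by linarith) hpp
      rw [sq]
      exact e1.trans e2
    have h7 := Real.log_le_log (by linarith) h6
    rwa [Real.log_pow, Nat.cast_ofNat] at h7
  calc Real.log (Real.log (C₁ * p) / Real.log (3 / 2)) ≤
      Real.log (2 * Real.log (C * p) / Real.log (3 / 2)) :=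
        Real.log_le_log (by positivity) (by gcongr)
    _ = _ := by
        rw [Real.log_div (by positivity) h32.ne', Real.log_mul two_ne_zero h4.ne']
        ring

private theorem t2_nv_le {k : Type} [Field k] [NumberField k] (a : 𝓞 k) (ha : a ≠ 0) (v : Pr k)
    (hv : a ∈ v.asIdeal) : nv v ≤ Ideal.absNorm (Ideal.span {a}) := by
  have h1 : Ideal.span {a} ≤ v.asIdeal := by
    rw [Ideal.span_singleton_le_iff_mem]
    exact hv
  have h2 : Ideal.absNorm (Ideal.span {a}) ≠ 0 := by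
    rw [Ne, Ideal.absNorm_eq_zero_iff, Ideal.span_singleton_eq_bot]
    exact ha
  exact Nat.le_of_dvd (Nat.pos_of_ne_zero h2) (Ideal.absNorm_dvd_absNorm_of_le h1)

private theorem t2_el {k : Type} [Field k] [NumberField k] {ι : Type} [Fintype ι]
    (b : Module.Basis ι ℤ (𝓞 k)) (c : ι → ℤ) (hc : c ≠ 0) : el b c ≠ 0 := by
  intro h
  apply hc
  exact funext (Fintype.linearIndependent_iff.1 b.linearIndependent c h)

/-- the sum of the numbers of odd primes over the box -/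
private theorem t2_sum {k : Type} [Field k] [NumberField k] {ι : Type} [Fintype ι]
    (b : Module.Basis ι ℤ (𝓞 k)) (S : Finset (Pr k)) (C₁ : ℕ) (hC₁ : 0 < C₁)
    (hnorm : ∀ (c : ι → ℤ) (B : ℕ), (∀ i, |c i| ≤ B) →
      Ideal.absNorm (Ideal.span {el b c}) ≤ C₁ * B ^ (Fintype.card ι))
    (C₂ : ℝ) (hC₂ : 0 < C₂)
    (hbox : ∀ N : ℕ, 1 ≤ N → ∀ I : Ideal (𝓞 k), I ≠ ⊥ →
      (Nat.card {c : ι → ℤ // (∀ i, |c i| ≤ N) ∧ c ≠ 0 ∧ el b c ∈ I} : ℝ) ≤
        C₂ * (N : ℝ) ^ (Fintype.card ι) / Ideal.absNorm I)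
    (N : ℕ) (hN : 1 ≤ N) (X : Finset (ι → ℤ)) (hX : ∀ c ∈ X, (∀ i, |c i| ≤ (N : ℤ)) ∧ c ≠ 0) :
    ∃ W : Finset (Pr k), (∀ v ∈ W, (nv v : ℝ) ≤ C₁ * (N : ℝ) ^ (Fintype.card ι)) ∧
      ∑ c ∈ X, ((TT S ((el b c : 𝓞 k) : k)).ncard : ℝ) ≤
        C₂ * (N : ℝ) ^ (Fintype.card ι) * ∑ v ∈ W, ((nv v : ℝ))⁻¹ := by
  classical
  set W : Finset (Pr k) := (finite_nv k (C₁ * N ^ (Fintype.card ι))).toFinset with hW
  have hWm : ∀ v, v ∈ W ↔ nv v ≤ C₁ * N ^ (Fintype.card ι) := by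
    intro v
    rw [hW, Set.Finite.mem_toFinset]
    rfl
  refine ⟨W, fun v hv => by exact_mod_cast (hWm v).1 hv, ?_⟩
  have h1 : ∀ c ∈ X, ((TT S ((el b c : 𝓞 k) : k)).ncard : ℝ) ≤
      ∑ v ∈ W, if el b c ∈ v.asIdeal then (1 : ℝ) else 0 := by
    intro c hc
    obtain ⟨hcN, hc0⟩ := hX c hc
    have h2 : TT S ((el b c : 𝓞 k) : k) ⊆
        ((W.filter fun v => el b c ∈ v.asIdeal : Finset (Pr k)) : Set (Pr k)) := by
      intro v hv
      rw [Finset.coe_filter]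
      have h3 := TT_mem S (el b c) v hv
      refine ⟨(hWm v).2 ?_, h3⟩
      exact (t2_nv_le _ (t2_el b c hc0) v h3).trans (hnorm c N hcN)
    have h4 := Set.ncard_le_ncard h2 (Finset.finite_toSet _)
    rw [Set.ncard_coe_finset] at h4
    have h5 : ((W.filter fun v => el b c ∈ v.asIdeal).card : ℝ) =
        ∑ v ∈ W, if el b c ∈ v.asIdeal then (1 : ℝ) else 0 := by
      rw [Finset.card_filter]
      push_cast
      rfl
    rw [← h5]
    exact_mod_cast h4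
  refine (Finset.sum_le_sum h1).trans ?_
  rw [Finset.sum_comm, Finset.mul_sum]
  refine Finset.sum_le_sum fun v _ => ?_
  have h6 := hbox N hN v.asIdeal v.ne_bot
  have h7 : (∑ c ∈ X, if el b c ∈ v.asIdeal then (1 : ℝ) else 0) ≤
      (Nat.card {c : ι → ℤ // (∀ i, |c i| ≤ N) ∧ c ≠ 0 ∧ el b c ∈ v.asIdeal} : ℝ) := by
    have hfin : {c : ι → ℤ | (∀ i, |c i| ≤ (N : ℤ)) ∧ c ≠ 0 ∧ el b c ∈ v.asIdeal}.Finite := by
      refine (Set.finite_Icc (fun _ : ι => -(N : ℤ)) (fun _ => (N : ℤ))).subset ?_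
      rintro c ⟨hc, -, -⟩
      exact ⟨fun i => (abs_le.1 (hc i)).1, fun i => (abs_le.1 (hc i)).2⟩
    have h8 : Nat.card {c : ι → ℤ // (∀ i, |c i| ≤ (N : ℤ)) ∧ c ≠ 0 ∧ el b c ∈ v.asIdeal} =
        hfin.toFinset.card := by
      rw [← Set.ncard_eq_toFinset_card _ hfin]
      rfl
    have h9 : (X.filter fun c => el b c ∈ v.asIdeal).card ≤ hfin.toFinset.card := by
      apply Finset.card_le_card
      intro c hc
      rw [Finset.mem_filter] at hc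
      rw [Set.Finite.mem_toFinset]
      exact ⟨(hX c hc.1).1, (hX c hc.1).2, hc.2⟩
    have h10 : (X.filter fun c => el b c ∈ v.asIdeal).card ≤
        Nat.card {c : ι → ℤ // (∀ i, |c i| ≤ (N : ℤ)) ∧ c ≠ 0 ∧ el b c ∈ v.asIdeal} := by
      rw [h8]
      exact h9
    rw [← Finset.sum_filter, Finset.sum_const, nsmul_eq_mul, mul_one]
    exact_mod_cast h10
  refine h7.trans (h6.trans (le_of_eq ?_))
  rw [div_eq_mul_inv]
  rfl

theorem typ_omega {k : Type} [Field k] [NumberField k] {ι : Type} [Fintype ι]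
    (b : Module.Basis ι ℤ (𝓞 k)) (S : Finset (Pr k)) (C : ℝ) (hC : 1 ≤ C) :
    Tendsto (fun N : ℕ => (Nat.card {c : ι → ℤ // (∀ i, |c i| ≤ N) ∧ c ≠ 0 ∧
      Real.log (Real.log (C * (N : ℝ) ^ (Fintype.card ι))) ^ 2 <
        ((TT S ((el b c : 𝓞 k) : k)).ncard : ℝ)} : ℝ) / (2 * N + 1) ^ (Fintype.card ι))
      atTop (𝓝 0) := by
  classical
  obtain ⟨C₁, hC₁, hnorm⟩ := norm_box b
  obtain ⟨C₂, hC₂, hbox⟩ := box_ideal b
  obtain ⟨C₃, hsum⟩ := sum_upper k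
  have hn : Fintype.card ι ≠ 0 := by
    rw [card_basis b]
    exact (Module.finrank_pos).ne'
  have hpow : Tendsto (fun N : ℕ => (N : ℝ) ^ (Fintype.card ι)) atTop atTop :=
    (tendsto_pow_atTop hn).comp tendsto_natCast_atTop_atTop
  have hLt : Tendsto (fun N : ℕ => Real.log (Real.log (C * (N : ℝ) ^ (Fintype.card ι))))
      atTop atTop :=
    Real.tendsto_log_atTop.comp (Real.tendsto_log_atTop.comp
      (Tendsto.const_mul_atTop (by linarith) hpow))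
  have hg := (t2_lim C₂ (Real.log 2 - Real.log (Real.log (3 / 2)) + C₃)).comp hLt
  refine squeeze_zero' (Eventually.of_forall fun N => by positivity) ?_ hg
  filter_upwards [hLt.eventually_gt_atTop 0, hpow.eventually_ge_atTop (C₁ : ℝ),
    eventually_ge_atTop 2] with N h1 h2 hN
  simp only [Function.comp_apply]
  set p : ℝ := (N : ℝ) ^ (Fintype.card ι) with hp
  have hN1 : (2 : ℝ) ≤ N := by exact_mod_cast hN
  have hp2 : 2 ≤ p := by
    calc (2 : ℝ) ≤ N := hN1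
      _ = (N : ℝ) ^ 1 := (pow_one _).symm
      _ ≤ p := pow_le_pow_right₀ (by linarith) (Nat.one_le_iff_ne_zero.2 hn)
  have hC₁1 : (1 : ℝ) ≤ C₁ := by exact_mod_cast hC₁
  set Y : ℝ := Real.log (Real.log (C * p)) with hY
  -- the finite set
  have hfin : {c : ι → ℤ | (∀ i, |c i| ≤ (N : ℤ)) ∧ c ≠ 0 ∧
      Y ^ 2 < ((TT S ((el b c : 𝓞 k) : k)).ncard : ℝ)}.Finite := by
    refine (Set.finite_Icc (fun _ : ι => -(N : ℤ)) (fun _ => (N : ℤ))).subset ?_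
    rintro c ⟨hc, -, -⟩
    exact ⟨fun i => (abs_le.1 (hc i)).1, fun i => (abs_le.1 (hc i)).2⟩
  obtain ⟨X, hXe⟩ : ∃ X : Finset (ι → ℤ), X = hfin.toFinset := ⟨_, rfl⟩
  have hXm : ∀ c ∈ X, (∀ i, |c i| ≤ (N : ℤ)) ∧ c ≠ 0 ∧
      Y ^ 2 < ((TT S ((el b c : 𝓞 k) : k)).ncard : ℝ) := fun c hc => by
    rw [hXe, Set.Finite.mem_toFinset] at hc
    exact hc
  have hcard : (Nat.card {c : ι → ℤ // (∀ i, |c i| ≤ N) ∧ c ≠ 0 ∧
      Y ^ 2 < ((TT S ((el b c : 𝓞 k) : k)).ncard : ℝ)} : ℝ) = X.card := by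
    have h3 : Nat.card {c : ι → ℤ // (∀ i, |c i| ≤ (N : ℤ)) ∧ c ≠ 0 ∧
        Y ^ 2 < ((TT S ((el b c : 𝓞 k) : k)).ncard : ℝ)} = X.card := by
      rw [hXe, ← Set.ncard_eq_toFinset_card _ hfin]
      rfl
    exact_mod_cast h3
  rw [hcard]
  obtain ⟨W, hW1, hW2⟩ := t2_sum b S C₁ hC₁ hnorm C₂ hC₂ hbox N (by omega) X
    (fun c hc => ⟨(hXm c hc).1, (hXm c hc).2.1⟩)
  rw [← hp] at hW1 hW2
  have h4 := hsum (3 / 2) (C₁ * p) le_rfl (by nlinarith) W (fun v hv => by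
    refine ⟨?_, hW1 v hv⟩
    have : (2 : ℝ) ≤ nv v := by exact_mod_cast two_le_nv v
    linarith)
  have h5 := t2_log C C₁ p hC hC₁1 hp2 h2
  have h6 : (X.card : ℝ) * Y ^ 2 ≤
      ∑ c ∈ X, ((TT S ((el b c : 𝓞 k) : k)).ncard : ℝ) := by
    rw [← nsmul_eq_mul]
    exact Finset.card_nsmul_le_sum X _ _ fun c hc => (hXm c hc).2.2.le
  have h7 : (X.card : ℝ) * Y ^ 2 ≤
      C₂ * p * (Y + (Real.log 2 - Real.log (Real.log (3 / 2)) + C₃)) := by
    refine h6.trans (hW2.trans ?_)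
    refine mul_le_mul_of_nonneg_left ?_ (by positivity)
    linarith
  have hY2 : 0 < Y ^ 2 := by positivity
  have hD : 0 < (2 * (N : ℝ) + 1) ^ (Fintype.card ι) := by positivity
  have hpD : p ≤ (2 * (N : ℝ) + 1) ^ (Fintype.card ι) :=
    pow_le_pow_left₀ (by positivity) (by linarith) _
  rw [div_le_iff₀ hD]
  set Q : ℝ := Y + (Real.log 2 - Real.log (Real.log (3 / 2)) + C₃) with hQ
  have hp0 : 0 < p := by linarith
  have hQ0 : 0 ≤ Q := by
    by_contra hcon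
    push Not at hcon
    have h8 : C₂ * p * Q < 0 := mul_neg_of_pos_of_neg (by positivity) hcon
    have h9 : 0 ≤ (X.card : ℝ) * Y ^ 2 := by positivity
    linarith
  have h8 : (X.card : ℝ) ≤ C₂ * p * Q / Y ^ 2 := by
    rw [le_div_iff₀ hY2]
    exact h7
  calc (X.card : ℝ) ≤ C₂ * p * Q / Y ^ 2 := h8
    _ = C₂ * (Q / Y ^ 2) * p := by ring
    _ ≤ C₂ * (Q / Y ^ 2) * (2 * (N : ℝ) + 1) ^ (Fintype.card ι) :=
        mul_le_mul_of_nonneg_left hpD (by positivity)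

end SC5
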