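import Pool.Agent.MP_c1dca2_ag.SC5.A5

/-!
# [SC5-T3] few `c` have small norm

`n = card ι ≥ 1`. `c = 0` is one element. For `c ≠ 0`, group by the ideal `I = (el b c) ≠ 0`: by `box_gen` the number is at
most `∑_{I ≠ 0, N(I) ≤ N^(n/4)} C (N^n / N(I))^(3/4)`, and `N(I)^(-3/4) = N(I)^(-5/4) N(I)^(1/2) ≤ N(I)^(-5/4) N^(n/8)`. As
`∑ N(I)^(-5/4)` converges (`SC4.summable_ideals`), the number is at most `C' N^(3n/4 + n/8) = C' N^(7n/8)`, `o(N^n)`.
-/

set_option autoImplicit false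

open NumberField IsDedekindDomain Filter Topology

namespace SC5

theorem t3_box_finite {ι : Type} [Fintype ι] (N : ℕ) :
    {c : ι → ℤ | ∀ i, |c i| ≤ (N : ℤ)}.Finite := by
  classical
  refine (Fintype.piFinset fun _ : ι => Finset.Icc (-(N : ℤ)) N).finite_toSet.subset ?_
  intro c hc
  have hc' : ∀ i, |c i| ≤ (N : ℤ) := hc
  simp only [Finset.mem_coe, Fintype.mem_piFinset, Finset.mem_Icc]
  exact fun i => abs_le.1 (hc' i)

theorem t3_el_ne {K : Type} [Field K] [NumberField K] {ι : Type} [Fintype ι]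
    (b : Module.Basis ι ℤ (𝓞 K)) (c : ι → ℤ) (hc : c ≠ 0) : el b c ≠ 0 := by
  intro h
  apply hc
  funext i
  exact Fintype.linearIndependent_iff.1 b.linearIndependent c h i

theorem t3_pow (x M : ℝ) (n : ℕ) (hx : 1 ≤ x) (hM : 1 ≤ M) (h : M ≤ x ^ ((n : ℝ) / 4)) :
    (x ^ n / M) ^ (3 / 4 : ℝ) ≤ x ^ (7 * (n : ℝ) / 8) * M ^ (-(5 / 4 : ℝ)) := by
  have hx0 : 0 < x := by linarith
  have hM0 : 0 < M := by linarith
  have e1 : (x ^ n / M) ^ (3 / 4 : ℝ) = x ^ (3 * (n : ℝ) / 4) * M ^ (-(3 / 4 : ℝ)) := by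
    rw [Real.div_rpow (by positivity) hM0.le, Real.rpow_neg hM0.le, div_eq_mul_inv,
      ← Real.rpow_natCast x n, ← Real.rpow_mul hx0.le]
    congr 2
    ring
  have e2 : M ^ (-(3 / 4 : ℝ)) = M ^ (-(5 / 4 : ℝ)) * M ^ (1 / 2 : ℝ) := by
    rw [← Real.rpow_add hM0]
    norm_num
  have e3 : M ^ (1 / 2 : ℝ) ≤ x ^ ((n : ℝ) / 8) := by
    calc M ^ (1 / 2 : ℝ) ≤ (x ^ ((n : ℝ) / 4)) ^ (1 / 2 : ℝ) :=
          Real.rpow_le_rpow hM0.le h (by norm_num)
      _ = x ^ ((n : ℝ) / 8) := by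
          rw [← Real.rpow_mul hx0.le]
          congr 1
          ring
  have e4 : x ^ (7 * (n : ℝ) / 8) = x ^ (3 * (n : ℝ) / 4) * x ^ ((n : ℝ) / 8) := by
    rw [← Real.rpow_add hx0]
    congr 1
    ring
  rw [e1, e2, e4]
  have h1 : 0 ≤ x ^ (3 * (n : ℝ) / 4) := Real.rpow_nonneg hx0.le _
  have h2 : 0 ≤ M ^ (-(5 / 4 : ℝ)) := Real.rpow_nonneg hM0.le _
  calc x ^ (3 * (n : ℝ) / 4) * (M ^ (-(5 / 4 : ℝ)) * M ^ (1 / 2 : ℝ))
      ≤ x ^ (3 * (n : ℝ) / 4) * (M ^ (-(5 / 4 : ℝ)) * x ^ ((n : ℝ) / 8)) := by gcongr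
    _ = _ := by ring

theorem typ_norm {k : Type} [Field k] [NumberField k] {ι : Type} [Fintype ι]
    (b : Module.Basis ι ℤ (𝓞 k)) :
    Tendsto (fun N : ℕ => (Nat.card {c : ι → ℤ // (∀ i, |c i| ≤ N) ∧
      (Ideal.absNorm (Ideal.span {el b c}) : ℝ) ≤ (N : ℝ) ^ ((Fintype.card ι : ℝ) / 4)} : ℝ) /
        (2 * N + 1) ^ (Fintype.card ι)) atTop (𝓝 0) := by
  classical
  obtain ⟨C, hC, hbox⟩ := box_gen b
  have hn : 0 < Fintype.card ι := by
    rw [card_basis b]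
    exact Module.finrank_pos
  set n := Fintype.card ι with hndef
  have hsum := SC4.summable_ideals k (5 / 4) (by norm_num)
  set Z : ℝ := ∑' I : Ideal (𝓞 k), (Ideal.absNorm I : ℝ) ^ (-(5 / 4 : ℝ)) with hZ
  have hZ0 : 0 ≤ Z := tsum_nonneg fun I => Real.rpow_nonneg (Nat.cast_nonneg _) _
  have key : ∀ N : ℕ, 1 ≤ N → (Nat.card {c : ι → ℤ // (∀ i, |c i| ≤ N) ∧
      (Ideal.absNorm (Ideal.span {el b c}) : ℝ) ≤ (N : ℝ) ^ ((n : ℝ) / 4)} : ℝ) ≤
      1 + C * Z * (N : ℝ) ^ (7 * (n : ℝ) / 8) := by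
    intro N hN
    have hN' : (1 : ℝ) ≤ N := by exact_mod_cast hN
    set box : Finset (ι → ℤ) := (t3_box_finite (ι := ι) N).toFinset with hboxdef
    have hmem : ∀ c : ι → ℤ, c ∈ box ↔ ∀ i, |c i| ≤ (N : ℤ) := by
      intro c
      rw [hboxdef, Set.Finite.mem_toFinset]
      rfl
    set S : Finset (ι → ℤ) := box.filter fun c =>
      (Ideal.absNorm (Ideal.span {el b c}) : ℝ) ≤ (N : ℝ) ^ ((n : ℝ) / 4) with hS
    have hcard : Nat.card {c : ι → ℤ // (∀ i, |c i| ≤ N) ∧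
        (Ideal.absNorm (Ideal.span {el b c}) : ℝ) ≤ (N : ℝ) ^ ((n : ℝ) / 4)} = S.card := by
      apply Nat.subtype_card
      intro c
      rw [hS, Finset.mem_filter, hmem]
    rw [hcard]
    have h1 : S.card ≤ 1 + (S.erase 0).card := by
      have := Finset.pred_card_le_card_erase (s := S) (a := (0 : ι → ℤ))
      omega
    set f : (ι → ℤ) → Ideal (𝓞 k) := fun c => Ideal.span {el b c} with hf
    have h2 : (S.erase 0).card = ∑ I ∈ (S.erase 0).image f,
        ((S.erase 0).filter fun c => f c = I).card :=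
      Finset.card_eq_sum_card_image f (S.erase 0)
    have h3 : ∀ I ∈ (S.erase 0).image f,
        ((((S.erase 0).filter fun c => f c = I).card : ℕ) : ℝ) ≤
        C * ((N : ℝ) ^ (7 * (n : ℝ) / 8) * (Ideal.absNorm I : ℝ) ^ (-(5 / 4 : ℝ))) := by
      intro I hI
      obtain ⟨c, hc, hcI⟩ := Finset.mem_image.1 hI
      obtain ⟨hc0, hcS⟩ := Finset.mem_erase.1 hc
      have hcn := (Finset.mem_filter.1 hcS).2
      have hIne : I ≠ ⊥ := by
        rw [← hcI, hf]
        intro h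
        exact t3_el_ne b c hc0 (Ideal.span_singleton_eq_bot.1 h)
      have hI1 : (1 : ℝ) ≤ Ideal.absNorm I := by
        have : Ideal.absNorm I ≠ 0 := by
          rw [Ne, Ideal.absNorm_eq_zero_iff]
          exact hIne
        exact_mod_cast Nat.one_le_iff_ne_zero.2 this
      have hIle : (Ideal.absNorm I : ℝ) ≤ (N : ℝ) ^ ((n : ℝ) / 4) := by
        rw [← hcI]
        exact hcn
      have hb := hbox N hN I hIne
      have hc2 : Nat.card {c : ι → ℤ // (∀ i, |c i| ≤ N) ∧ Ideal.span {el b c} = I} =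
          (box.filter fun c => Ideal.span {el b c} = I).card := by
        apply Nat.subtype_card
        intro c
        rw [Finset.mem_filter, hmem]
      rw [hc2] at hb
      have hle : ((S.erase 0).filter fun c => f c = I).card ≤
          (box.filter fun c => Ideal.span {el b c} = I).card := by
        apply Finset.card_le_card
        intro c hc
        rw [Finset.mem_filter] at hc ⊢
        exact ⟨(Finset.mem_filter.1 (Finset.mem_erase.1 hc.1).2).1, hc.2⟩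
      have hp := t3_pow (N : ℝ) (Ideal.absNorm I : ℝ) n hN' hI1 hIle
      calc ((((S.erase 0).filter fun c => f c = I).card : ℕ) : ℝ)
          ≤ ((box.filter fun c => Ideal.span {el b c} = I).card : ℝ) := by exact_mod_cast hle
        _ ≤ C * ((N : ℝ) ^ n / Ideal.absNorm I) ^ (3 / 4 : ℝ) := hb
        _ ≤ _ := by gcongr
    have h4 : ((S.erase 0).card : ℝ) ≤ C * Z * (N : ℝ) ^ (7 * (n : ℝ) / 8) := by
      rw [h2]
      push_cast
      calc (∑ I ∈ (S.erase 0).image f, ((((S.erase 0).filter fun c => f c = I).card : ℕ) : ℝ))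
          ≤ ∑ I ∈ (S.erase 0).image f,
            C * ((N : ℝ) ^ (7 * (n : ℝ) / 8) * (Ideal.absNorm I : ℝ) ^ (-(5 / 4 : ℝ))) :=
            Finset.sum_le_sum h3
        _ = C * (N : ℝ) ^ (7 * (n : ℝ) / 8) *
            ∑ I ∈ (S.erase 0).image f, (Ideal.absNorm I : ℝ) ^ (-(5 / 4 : ℝ)) := by
            rw [Finset.mul_sum]
            exact Finset.sum_congr rfl fun I _ => by ring
        _ ≤ C * (N : ℝ) ^ (7 * (n : ℝ) / 8) * Z := by
            have hsl := hsum.sum_le_tsum ((S.erase 0).image f)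
              (fun I _ => Real.rpow_nonneg (Nat.cast_nonneg _) _)
            gcongr
        _ = _ := by ring
    have h5 : (S.card : ℝ) ≤ 1 + ((S.erase 0).card : ℝ) := by exact_mod_cast h1
    linarith
  have hlim : Tendsto (fun N : ℕ => (1 + C * Z) * (N : ℝ) ^ (-((n : ℝ) / 8))) atTop (𝓝 0) := by
    have h1 : Tendsto (fun x : ℝ => x ^ (-((n : ℝ) / 8))) atTop (𝓝 0) :=
      tendsto_rpow_neg_atTop (by positivity)
    have h2 := (h1.comp tendsto_natCast_atTop_atTop).const_mul (1 + C * Z)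
    simpa using h2
  refine squeeze_zero' (Filter.Eventually.of_forall fun N => by positivity) ?_ hlim
  filter_upwards [Filter.eventually_ge_atTop 1] with N hN
  have hN' : (1 : ℝ) ≤ N := by exact_mod_cast hN
  have hN0 : (0 : ℝ) < N := by linarith
  have hpow : (1 : ℝ) ≤ (N : ℝ) ^ (7 * (n : ℝ) / 8) := Real.one_le_rpow hN' (by positivity)
  rw [div_le_iff₀ (by positivity)]
  calc (Nat.card {c : ι → ℤ // (∀ i, |c i| ≤ N) ∧
      (Ideal.absNorm (Ideal.span {el b c}) : ℝ) ≤ (N : ℝ) ^ ((n : ℝ) / 4)} : ℝ)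
      ≤ 1 + C * Z * (N : ℝ) ^ (7 * (n : ℝ) / 8) := key N hN
    _ ≤ (1 + C * Z) * (N : ℝ) ^ (7 * (n : ℝ) / 8) := by nlinarith
    _ = (1 + C * Z) * (N : ℝ) ^ (-((n : ℝ) / 8)) * (N : ℝ) ^ (n : ℝ) := by
        rw [mul_assoc, ← Real.rpow_add hN0]
        congr 2
        ring
    _ ≤ (1 + C * Z) * (N : ℝ) ^ (-((n : ℝ) / 8)) * (2 * (N : ℝ) + 1) ^ n := by
        rw [Real.rpow_natCast]
        have : (N : ℝ) ^ n ≤ (2 * (N : ℝ) + 1) ^ n := by
          gcongr
          linarith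
        gcongr

end SC5
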