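import Pool.Agent.MP_c1dca2_ag.SC5.T1
import Pool.Agent.MP_c1dca2_ag.SC5.T3
import Pool.Agent.MP_c1dca2_ag.SC5.A4
import Pool.Agent.MP_c1dca2_ag.SC5.A6

/-!
# [SC5-T4] most `c` have a large prime factor with exponent one

`n = card ι ≥ 1`, `Λ = log (C N^n)`, `Z = exp (Λ^(1/2))` (tends to infinity with `N`). Let `c` be in the set. Either
(a) `N(el b c) ≤ N^(n/4)`: `o(N^n)` elements by `typ_norm` (this includes `c = 0`); or
(b) there is a prime `v` with `nv v > Z` and `el b c ∈ v^2`, `c ≠ 0`: by `box_ideal` (for the ideals `v^2`, of norm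
`(nv v)^2`) at most `∑_{nv v > Z} C₂ N^n / (nv v)^2` elements, `o(N^n)` by `sum_sq` (only finitely many `v`, of norm at most
`C₁ N^n`, matter: `norm_box`); or
(c) neither. For large `N` all primes in `S` have norm at most `Z`. Every prime `v` with `nv v > Z` containing `el b c` would
have exponent exactly one, be outside `S`, so be in `TT S c` (`mem_TT`), with `log nv v > Λ^(1/2)`: contradiction. So all
primes containing `el b c` have norm at most `Z`, and
`(n/4) log N < log N(el b c) = ∑_{nv v ≤ Z} ∑_{j ≥ 1, el b c ∈ v^j} log nv v`.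
Sum over all `c ≠ 0` of the box: the right side is at most
`∑_{nv v ≤ Z} log nv v ∑_{j ≥ 1} C₂ N^n / (nv v)^j ≤ 2 C₂ N^n ∑_{nv v ≤ Z} log nv v / nv v ≤ C₃ N^n log Z = C₃ N^n Λ^(1/2)`
(`box_ideal`, `mertens_upper`). So the number of such `c` is at most `C₃ N^n Λ^(1/2) / ((n/4) log N) = o(N^n)`.
(`∑_{j ≥ 1} m^(-j) = 1/(m-1) ≤ 2/m`, `m ≥ 2`; only `j ≤ log₂ (C₁ N^n)` occur. `log N(I) = ∑_v (exponent) log nv v`:
`Ideal.absNorm` is multiplicative, factorization into primes.)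
-/

set_option autoImplicit false

open NumberField IsDedekindDomain Filter Topology

namespace SC5

open UniqueFactorizationMonoid in
theorem t4_log_norm {K : Type} [Field K] [NumberField K] (I : Ideal (𝓞 K)) (hI : I ≠ ⊥)
    (T : Finset (Pr K)) (hT : ∀ v : Pr K, I ≤ v.asIdeal → v ∈ T) (J : ℕ)
    (hJ : Ideal.absNorm I ≤ J) :
    Real.log (Ideal.absNorm I) ≤ ∑ v ∈ T, ∑ j ∈ Finset.range J,
      open scoped Classical in if I ≤ v.asIdeal ^ (j + 1) then Real.log (nv v) else 0 := by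
  classical
  set e : Pr K → ℕ := fun v => Multiset.count v.asIdeal (normalizedFactors I) with he
  have hpow : ∀ v : Pr K, v.asIdeal ^ e v ∣ I := by
    intro v
    have h1 : (Multiset.replicate ((normalizedFactors I).count v.asIdeal) v.asIdeal).prod ∣
        (normalizedFactors I).prod :=
      Multiset.prod_dvd_prod_of_le (Multiset.le_count_iff_replicate_le.1 le_rfl)
    rw [Multiset.prod_replicate, Ideal.prod_normalizedFactors_eq_self hI] at h1
    exact h1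
  have hfac : I = ∏ v ∈ T, v.asIdeal ^ e v := by
    have h1 := Ideal.finprod_heightOneSpectrum_factorization (R := 𝓞 K) hI
    rw [finprod_eq_prod_of_mulSupport_subset (s := T)] at h1
    · exact h1.symm.trans (Finset.prod_congr rfl fun v _ =>
        IsDedekindDomain.HeightOneSpectrum.maxPowDividing_eq_pow_multiset_count v hI)
    · intro v hv
      rw [Function.mem_mulSupport,
        IsDedekindDomain.HeightOneSpectrum.maxPowDividing_eq_pow_multiset_count v hI] at hv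
      apply hT
      by_contra hcon
      apply hv
      have : Multiset.count v.asIdeal (normalizedFactors I) = 0 := by
        rw [Multiset.count_eq_zero]
        intro hmem
        exact hcon (Ideal.dvd_iff_le.1 (dvd_of_mem_normalizedFactors hmem))
      rw [this, pow_zero]
  have hI0 : Ideal.absNorm I ≠ 0 := by
    rw [Ne, Ideal.absNorm_eq_zero_iff]
    exact hI
  have hnorm : (Ideal.absNorm I : ℝ) = ∏ v ∈ T, (nv v : ℝ) ^ e v := by
    conv_lhs => rw [hfac]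
    rw [map_prod]
    push_cast
    refine Finset.prod_congr rfl fun v _ => ?_
    rw [map_pow]
    push_cast
    rfl
  have hnv : ∀ v : Pr K, (0 : ℝ) < nv v := by
    intro v
    have := two_le_nv v
    exact_mod_cast (by omega : 0 < nv v)
  have hlog : Real.log (Ideal.absNorm I) = ∑ v ∈ T, (e v : ℝ) * Real.log (nv v) := by
    rw [hnorm, Real.log_prod (fun v _ => (pow_pos (hnv v) _).ne')]
    refine Finset.sum_congr rfl fun v _ => ?_
    rw [Real.log_pow]
  have heJ : ∀ v : Pr K, e v ≤ J := by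
    intro v
    have h1 : Ideal.absNorm (v.asIdeal ^ e v) ≤ Ideal.absNorm I :=
      Nat.le_of_dvd (Nat.pos_of_ne_zero hI0) (map_dvd Ideal.absNorm (hpow v))
    rw [map_pow] at h1
    have h2 : 2 ^ e v ≤ J :=
      (Nat.pow_le_pow_left (two_le_nv v) _).trans (h1.trans hJ)
    exact (Nat.lt_two_pow_self).le.trans h2
  rw [hlog]
  refine Finset.sum_le_sum fun v _ => ?_
  have hl0 : 0 ≤ Real.log (nv v) := Real.log_natCast_nonneg _
  calc (e v : ℝ) * Real.log (nv v)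
      = ∑ j ∈ Finset.range (e v),
        if I ≤ v.asIdeal ^ (j + 1) then Real.log (nv v) else 0 := by
        rw [← nsmul_eq_mul, ← Finset.card_range (e v), ← Finset.sum_const, Finset.card_range]
        refine Finset.sum_congr rfl fun j hj => ?_
        rw [if_pos]
        apply Ideal.dvd_iff_le.1
        exact (pow_dvd_pow _ (by rw [Finset.mem_range] at hj; omega)).trans (hpow v)
    _ ≤ ∑ j ∈ Finset.range J,
        if I ≤ v.asIdeal ^ (j + 1) then Real.log (nv v) else 0 := by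
        apply Finset.sum_le_sum_of_subset_of_nonneg
        · intro j hj
          rw [Finset.mem_range] at hj ⊢
          exact lt_of_lt_of_le hj (heJ v)
        · intro j _ _
          split_ifs
          · exact hl0
          · exact le_rfl

theorem t4_geom (m : ℝ) (hm : 2 ≤ m) (J : ℕ) :
    ∑ j ∈ Finset.range J, 1 / m ^ (j + 1) ≤ 2 / m := by
  have hm0 : 0 < m := by linarith
  have h : ∑ j ∈ Finset.range J, 1 / m ^ (j + 1) = (1 / m) * ∑ j ∈ Finset.range J, (1 / m) ^ j := by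
    rw [Finset.mul_sum]
    refine Finset.sum_congr rfl fun j _ => ?_
    rw [pow_succ, one_div_pow]
    field_simp
  rw [h]
  have h1 : (1 / m) ≤ 1 / 2 := by
    apply one_div_le_one_div_of_le <;> linarith
  have h2 : ∑ j ∈ Finset.range J, (1 / m) ^ j ≤ 2 := by
    calc ∑ j ∈ Finset.range J, (1 / m) ^ j ≤ ∑ j ∈ Finset.range J, (1 / 2 : ℝ) ^ j := by
          refine Finset.sum_le_sum fun j _ => ?_
          gcongr
      _ ≤ ∑' j : ℕ, (1 / 2 : ℝ) ^ j :=
          summable_geometric_two.sum_le_tsum _ (fun _ _ => by positivity)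
      _ = 2 := tsum_geometric_two
  calc 1 / m * ∑ j ∈ Finset.range J, (1 / m) ^ j ≤ 1 / m * 2 := by gcongr
    _ = 2 / m := by ring

theorem t4_Cpow (C : ℝ) (hC : 1 ≤ C) (n : ℕ) (hn : 0 < n) :
    Tendsto (fun N : ℕ => C * (N : ℝ) ^ n) atTop atTop :=
  ((tendsto_pow_atTop hn.ne').comp tendsto_natCast_atTop_atTop).const_mul_atTop
    (by linarith : (0 : ℝ) < C)

theorem t4_Z (C : ℝ) (hC : 1 ≤ C) (n : ℕ) (hn : 0 < n) :
    Tendsto (fun N : ℕ => Real.exp (Real.log (C * (N : ℝ) ^ n) ^ (1 / 2 : ℝ))) atTop atTop :=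
  Real.tendsto_exp_atTop.comp ((tendsto_rpow_atTop (by norm_num)).comp
    (Real.tendsto_log_atTop.comp (t4_Cpow C hC n hn)))

/-- the box as a finset -/
theorem t4_box {ι : Type} [Fintype ι] (N : ℕ) :
    ∃ box : Finset (ι → ℤ), ∀ c : ι → ℤ, c ∈ box ↔ ∀ i, |c i| ≤ (N : ℤ) := by
  refine ⟨(t3_box_finite (ι := ι) N).toFinset, fun c => ?_⟩
  rw [Set.Finite.mem_toFinset]
  rfl

theorem t4_sq {k : Type} [Field k] [NumberField k] {ι : Type} [Fintype ι]
    (b : Module.Basis ι ℤ (𝓞 k)) (Z : ℕ → ℝ) (hZ : Tendsto Z atTop atTop) :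
    Tendsto (fun N : ℕ => (Nat.card {c : ι → ℤ // (∀ i, |c i| ≤ N) ∧ c ≠ 0 ∧
      ∃ v : Pr k, Z N < nv v ∧ el b c ∈ v.asIdeal ^ 2} : ℝ) /
        (2 * N + 1) ^ (Fintype.card ι)) atTop (𝓝 0) := by
  classical
  obtain ⟨C₂, hC₂, hbox⟩ := box_ideal b
  obtain ⟨C₁, hC₁, hnb⟩ := norm_box b
  set n := Fintype.card ι with hndef
  refine tendsto_order.2 ⟨fun a ha => Filter.Eventually.of_forall fun N =>
    lt_of_lt_of_le ha (by positivity), fun ε hε => ?_⟩
  obtain ⟨z, hz⟩ := sum_sq k (ε / (2 * C₂)) (by positivity)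
  filter_upwards [hZ.eventually_gt_atTop z, Filter.eventually_ge_atTop 1] with N hNz hN
  have hN' : (1 : ℝ) ≤ N := by exact_mod_cast hN
  obtain ⟨box, hmem⟩ := t4_box (ι := ι) N
  set T : Finset (Pr k) := (finite_nv k (C₁ * N ^ n)).toFinset.filter fun v => Z N < nv v with hT
  have hcard : Nat.card {c : ι → ℤ // (∀ i, |c i| ≤ N) ∧ c ≠ 0 ∧
      ∃ v : Pr k, Z N < nv v ∧ el b c ∈ v.asIdeal ^ 2} =
      (box.filter fun c => c ≠ 0 ∧ ∃ v : Pr k, Z N < nv v ∧ el b c ∈ v.asIdeal ^ 2).card := by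
    apply Nat.subtype_card
    intro c
    rw [Finset.mem_filter, hmem]
  rw [hcard]
  have hsub : (box.filter fun c => c ≠ 0 ∧ ∃ v : Pr k, Z N < nv v ∧ el b c ∈ v.asIdeal ^ 2) ⊆
      T.biUnion fun v => box.filter fun c => c ≠ 0 ∧ el b c ∈ v.asIdeal ^ 2 := by
    intro c hc
    obtain ⟨hcb, hc0, v, hvZ, hv⟩ := Finset.mem_filter.1 hc
    rw [Finset.mem_biUnion]
    refine ⟨v, ?_, Finset.mem_filter.2 ⟨hcb, hc0, hv⟩⟩
    rw [hT, Finset.mem_filter, Set.Finite.mem_toFinset]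
    refine ⟨?_, hvZ⟩
    show nv v ≤ C₁ * N ^ n
    have h1 : Ideal.absNorm (Ideal.span {el b c}) ≤ C₁ * N ^ n := hnb c N ((hmem c).1 hcb)
    have h2 : v.asIdeal ∣ Ideal.span {el b c} := by
      rw [Ideal.dvd_iff_le, Ideal.span_singleton_le_iff_mem]
      exact Ideal.pow_le_self two_ne_zero hv
    have h3 : Ideal.absNorm (Ideal.span {el b c}) ≠ 0 := by
      rw [Ne, Ideal.absNorm_eq_zero_iff, Ideal.span_singleton_eq_bot]
      exact t3_el_ne b c hc0
    exact (Nat.le_of_dvd (Nat.pos_of_ne_zero h3) (map_dvd Ideal.absNorm h2)).trans h1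
  have hcount : ∀ v ∈ T, ((box.filter fun c => c ≠ 0 ∧ el b c ∈ v.asIdeal ^ 2).card : ℝ) ≤
      C₂ * (N : ℝ) ^ n * ((nv v : ℝ) ^ 2)⁻¹ := by
    intro v _
    have h1 := hbox N hN (v.asIdeal ^ 2) (pow_ne_zero 2 v.ne_bot)
    have h2 : Nat.card {c : ι → ℤ // (∀ i, |c i| ≤ N) ∧ c ≠ 0 ∧ el b c ∈ v.asIdeal ^ 2} =
        (box.filter fun c => c ≠ 0 ∧ el b c ∈ v.asIdeal ^ 2).card := by
      apply Nat.subtype_card
      intro c
      rw [Finset.mem_filter, hmem]
    rw [h2, map_pow] at h1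
    push_cast at h1
    rw [← div_eq_mul_inv]
    exact h1
  have hs := hz T (fun v hv => lt_trans hNz (Finset.mem_filter.1 hv).2)
  have hmain : ((box.filter fun c => c ≠ 0 ∧
      ∃ v : Pr k, Z N < nv v ∧ el b c ∈ v.asIdeal ^ 2).card : ℝ) ≤ ε / 2 * (N : ℝ) ^ n := by
    calc ((box.filter fun c => c ≠ 0 ∧
        ∃ v : Pr k, Z N < nv v ∧ el b c ∈ v.asIdeal ^ 2).card : ℝ)
        ≤ ((T.biUnion fun v => box.filter fun c => c ≠ 0 ∧ el b c ∈ v.asIdeal ^ 2).card : ℝ) := by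
          exact_mod_cast Finset.card_le_card hsub
      _ ≤ ∑ v ∈ T, ((box.filter fun c => c ≠ 0 ∧ el b c ∈ v.asIdeal ^ 2).card : ℝ) := by
          exact_mod_cast Finset.card_biUnion_le
      _ ≤ ∑ v ∈ T, C₂ * (N : ℝ) ^ n * ((nv v : ℝ) ^ 2)⁻¹ := Finset.sum_le_sum hcount
      _ = C₂ * (N : ℝ) ^ n * ∑ v ∈ T, ((nv v : ℝ) ^ 2)⁻¹ := by rw [Finset.mul_sum]
      _ ≤ C₂ * (N : ℝ) ^ n * (ε / (2 * C₂)) := by gcongr
      _ = ε / 2 * (N : ℝ) ^ n := by field_simp
  rw [div_lt_iff₀ (by positivity)]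
  have hNn : (0 : ℝ) < (N : ℝ) ^ n := by positivity
  calc ((box.filter fun c => c ≠ 0 ∧
      ∃ v : Pr k, Z N < nv v ∧ el b c ∈ v.asIdeal ^ 2).card : ℝ) ≤ ε / 2 * (N : ℝ) ^ n := hmain
    _ < ε * (N : ℝ) ^ n := by nlinarith
    _ ≤ ε * (2 * (N : ℝ) + 1) ^ n := by
        have : (N : ℝ) ^ n ≤ (2 * (N : ℝ) + 1) ^ n := by
          gcongr
          linarith
        gcongr

theorem t4_smooth_bound {k : Type} [Field k] [NumberField k] {ι : Type} [Fintype ι]
    (b : Module.Basis ι ℤ (𝓞 k)) : ∃ C : ℝ, 0 < C ∧ ∀ (N : ℕ) (Z : ℝ), 1 ≤ N → 2 ≤ Z →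
    (Nat.card {c : ι → ℤ // (∀ i, |c i| ≤ N) ∧ c ≠ 0 ∧
      (N : ℝ) ^ ((Fintype.card ι : ℝ) / 4) < (Ideal.absNorm (Ideal.span {el b c}) : ℝ) ∧
      ∀ v : Pr k, el b c ∈ v.asIdeal → (nv v : ℝ) ≤ Z} : ℝ) *
        ((Fintype.card ι : ℝ) / 4 * Real.log N) ≤
      C * (N : ℝ) ^ (Fintype.card ι) * Real.log Z := by
  classical
  obtain ⟨C₂, hC₂, hbox⟩ := box_ideal b
  obtain ⟨C₁, hC₁, hnb⟩ := norm_box b
  obtain ⟨C₃, hC₃, hmert⟩ := mertens_upper k
  set n := Fintype.card ι with hndef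
  refine ⟨2 * C₂ * C₃, by positivity, ?_⟩
  intro N Z hN hZ
  have hN' : (1 : ℝ) ≤ N := by exact_mod_cast hN
  have hN0 : (0 : ℝ) < N := by linarith
  obtain ⟨box, hmem⟩ := t4_box (ι := ι) N
  set A : Finset (ι → ℤ) := box.filter fun c => c ≠ 0 ∧
    (N : ℝ) ^ ((n : ℝ) / 4) < (Ideal.absNorm (Ideal.span {el b c}) : ℝ) ∧
    ∀ v : Pr k, el b c ∈ v.asIdeal → (nv v : ℝ) ≤ Z with hA
  have hcard : Nat.card {c : ι → ℤ // (∀ i, |c i| ≤ N) ∧ c ≠ 0 ∧
      (N : ℝ) ^ ((n : ℝ) / 4) < (Ideal.absNorm (Ideal.span {el b c}) : ℝ) ∧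
      ∀ v : Pr k, el b c ∈ v.asIdeal → (nv v : ℝ) ≤ Z} = A.card := by
    apply Nat.subtype_card
    intro c
    rw [hA, Finset.mem_filter, hmem]
  rw [hcard]
  set T : Finset (Pr k) := (finite_nv k ⌊Z⌋₊).toFinset with hT
  have hTmem : ∀ v : Pr k, v ∈ T ↔ (nv v : ℝ) ≤ Z := by
    intro v
    rw [hT, Set.Finite.mem_toFinset]
    show nv v ≤ ⌊Z⌋₊ ↔ _
    rw [Nat.le_floor_iff (by linarith)]
  set J : ℕ := C₁ * N ^ n with hJ
  have h1 : ∀ c ∈ A, (n : ℝ) / 4 * Real.log N ≤ ∑ v ∈ T, ∑ j ∈ Finset.range J,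
      if Ideal.span {el b c} ≤ v.asIdeal ^ (j + 1) then Real.log (nv v) else 0 := by
    intro c hc
    obtain ⟨hcb, hc0, hcn, hcv⟩ := Finset.mem_filter.1 hc
    have hne : Ideal.span {el b c} ≠ ⊥ := by
      rw [Ne, Ideal.span_singleton_eq_bot]
      exact t3_el_ne b c hc0
    have h2 := t4_log_norm (Ideal.span {el b c}) hne T (fun v hv => (hTmem v).2
      (hcv v ((Ideal.span_singleton_le_iff_mem _).1 hv))) J (hnb c N ((hmem c).1 hcb))
    have h3 : (n : ℝ) / 4 * Real.log N ≤ Real.log (Ideal.absNorm (Ideal.span {el b c})) := by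
      rw [← Real.log_rpow hN0]
      exact Real.log_le_log (Real.rpow_pos_of_pos hN0 _) hcn.le
    exact h3.trans h2
  have h2 : (A.card : ℝ) * ((n : ℝ) / 4 * Real.log N) ≤
      ∑ c ∈ A, ∑ v ∈ T, ∑ j ∈ Finset.range J,
      if Ideal.span {el b c} ≤ v.asIdeal ^ (j + 1) then Real.log (nv v) else 0 := by
    rw [← nsmul_eq_mul, ← Finset.sum_const]
    exact Finset.sum_le_sum h1
  have h3 : ∑ c ∈ A, ∑ v ∈ T, ∑ j ∈ Finset.range J,
      (if Ideal.span {el b c} ≤ v.asIdeal ^ (j + 1) then Real.log (nv v) else 0) =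
      ∑ v ∈ T, ∑ j ∈ Finset.range J,
        ((A.filter fun c => Ideal.span {el b c} ≤ v.asIdeal ^ (j + 1)).card : ℝ) *
          Real.log (nv v) := by
    rw [Finset.sum_comm]
    refine Finset.sum_congr rfl fun v _ => ?_
    rw [Finset.sum_comm]
    refine Finset.sum_congr rfl fun j _ => ?_
    rw [← Finset.sum_filter, Finset.sum_const, nsmul_eq_mul]
  have h4 : ∀ v ∈ T, ∀ j ∈ Finset.range J,
      ((A.filter fun c => Ideal.span {el b c} ≤ v.asIdeal ^ (j + 1)).card : ℝ) *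
          Real.log (nv v) ≤ C₂ * (N : ℝ) ^ n * Real.log (nv v) * (1 / (nv v : ℝ) ^ (j + 1)) := by
    intro v _ j _
    have hb := hbox N hN (v.asIdeal ^ (j + 1)) (pow_ne_zero _ v.ne_bot)
    have hc2 : Nat.card {c : ι → ℤ // (∀ i, |c i| ≤ N) ∧ c ≠ 0 ∧ el b c ∈ v.asIdeal ^ (j + 1)} =
        (box.filter fun c => c ≠ 0 ∧ el b c ∈ v.asIdeal ^ (j + 1)).card := by
      apply Nat.subtype_card
      intro c
      rw [Finset.mem_filter, hmem]
    rw [hc2, map_pow] at hb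
    push_cast at hb
    have hle : (A.filter fun c => Ideal.span {el b c} ≤ v.asIdeal ^ (j + 1)).card ≤
        (box.filter fun c => c ≠ 0 ∧ el b c ∈ v.asIdeal ^ (j + 1)).card := by
      apply Finset.card_le_card
      intro c hc
      obtain ⟨hcA, hcv⟩ := Finset.mem_filter.1 hc
      obtain ⟨hcb, hc0, _⟩ := Finset.mem_filter.1 hcA
      exact Finset.mem_filter.2 ⟨hcb, hc0, (Ideal.span_singleton_le_iff_mem _).1 hcv⟩
    have hl0 : 0 ≤ Real.log (nv v) := Real.log_natCast_nonneg _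
    calc ((A.filter fun c => Ideal.span {el b c} ≤ v.asIdeal ^ (j + 1)).card : ℝ) *
          Real.log (nv v)
        ≤ ((box.filter fun c => c ≠ 0 ∧ el b c ∈ v.asIdeal ^ (j + 1)).card : ℝ) *
          Real.log (nv v) := by gcongr
      _ ≤ (C₂ * (N : ℝ) ^ n / (nv v : ℝ) ^ (j + 1)) * Real.log (nv v) := by
          apply mul_le_mul_of_nonneg_right _ hl0
          exact hb
      _ = _ := by ring
  have h5 : ∀ v ∈ T, ∑ j ∈ Finset.range J,
      ((A.filter fun c => Ideal.span {el b c} ≤ v.asIdeal ^ (j + 1)).card : ℝ) *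
          Real.log (nv v) ≤ 2 * C₂ * (N : ℝ) ^ n * (Real.log (nv v) / nv v) := by
    intro v hv
    have h2v : (2 : ℝ) ≤ nv v := by exact_mod_cast two_le_nv v
    have hl0 : 0 ≤ Real.log (nv v) := Real.log_natCast_nonneg _
    calc ∑ j ∈ Finset.range J,
      ((A.filter fun c => Ideal.span {el b c} ≤ v.asIdeal ^ (j + 1)).card : ℝ) *
          Real.log (nv v)
        ≤ ∑ j ∈ Finset.range J,
          C₂ * (N : ℝ) ^ n * Real.log (nv v) * (1 / (nv v : ℝ) ^ (j + 1)) :=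
          Finset.sum_le_sum (h4 v hv)
      _ = C₂ * (N : ℝ) ^ n * Real.log (nv v) *
          ∑ j ∈ Finset.range J, 1 / (nv v : ℝ) ^ (j + 1) := by rw [Finset.mul_sum]
      _ ≤ C₂ * (N : ℝ) ^ n * Real.log (nv v) * (2 / nv v) := by
          have := t4_geom (nv v) h2v J
          gcongr
      _ = _ := by ring
  calc (A.card : ℝ) * ((n : ℝ) / 4 * Real.log N)
      ≤ ∑ v ∈ T, ∑ j ∈ Finset.range J,
        ((A.filter fun c => Ideal.span {el b c} ≤ v.asIdeal ^ (j + 1)).card : ℝ) *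
          Real.log (nv v) := by rw [← h3]; exact h2
    _ ≤ ∑ v ∈ T, 2 * C₂ * (N : ℝ) ^ n * (Real.log (nv v) / nv v) := Finset.sum_le_sum h5
    _ = 2 * C₂ * (N : ℝ) ^ n * ∑ v ∈ T, Real.log (nv v) / nv v := by rw [Finset.mul_sum]
    _ ≤ 2 * C₂ * (N : ℝ) ^ n * (C₃ * Real.log Z) := by
        have := hmert Z hZ T (fun v hv => (hTmem v).1 hv)
        gcongr
    _ = _ := by ring

theorem t4_ratio (C : ℝ) (hC : 1 ≤ C) (n : ℕ) (hn : 0 < n) (D : ℝ) :
    Tendsto (fun N : ℕ => D * (Real.log (C * (N : ℝ) ^ n) ^ (1 / 2 : ℝ) /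
      ((n : ℝ) / 4 * Real.log N))) atTop (𝓝 0) := by
  have hlog : Tendsto (fun N : ℕ => Real.log N) atTop atTop :=
    Real.tendsto_log_atTop.comp tendsto_natCast_atTop_atTop
  have hn' : (0 : ℝ) < n := by exact_mod_cast hn
  have hg : Tendsto (fun N : ℕ => ((n : ℝ) + 1) ^ (1 / 2 : ℝ) * (4 / n) *
      Real.log N ^ (-(1 / 2 : ℝ))) atTop (𝓝 0) := by
    have h1 : Tendsto (fun x : ℝ => x ^ (-(1 / 2 : ℝ))) atTop (𝓝 0) :=
      tendsto_rpow_neg_atTop (by norm_num)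
    have h2 := (h1.comp hlog).const_mul (((n : ℝ) + 1) ^ (1 / 2 : ℝ) * (4 / n))
    simpa using h2
  have hf : Tendsto (fun N : ℕ => Real.log (C * (N : ℝ) ^ n) ^ (1 / 2 : ℝ) /
      ((n : ℝ) / 4 * Real.log N)) atTop (𝓝 0) := by
    refine squeeze_zero' ?_ ?_ hg
    · filter_upwards [Filter.eventually_ge_atTop 1] with N hN
      have hN' : (1 : ℝ) ≤ N := by exact_mod_cast hN
      have : 0 ≤ Real.log N := Real.log_nonneg hN'
      have h2 : 0 ≤ Real.log (C * (N : ℝ) ^ n) := by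
        apply Real.log_nonneg
        have : (1 : ℝ) ≤ (N : ℝ) ^ n := one_le_pow₀ hN'
        nlinarith
      have h3 := Real.rpow_nonneg h2 (1 / 2 : ℝ)
      positivity
    · filter_upwards [Filter.eventually_ge_atTop 2, hlog.eventually_ge_atTop (Real.log C)]
        with N hN hNC
      have hN' : (2 : ℝ) ≤ N := by exact_mod_cast hN
      have hN0 : (0 : ℝ) < N := by linarith
      have hl : 0 < Real.log N := Real.log_pos (by linarith)
      have hle : Real.log (C * (N : ℝ) ^ n) ≤ ((n : ℝ) + 1) * Real.log N := by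
        rw [Real.log_mul (by linarith) (by positivity), Real.log_pow]
        linarith
      have h0 : 0 ≤ Real.log (C * (N : ℝ) ^ n) := by
        apply Real.log_nonneg
        have : (1 : ℝ) ≤ (N : ℝ) ^ n := one_le_pow₀ (by linarith)
        nlinarith
      have h1 : Real.log (C * (N : ℝ) ^ n) ^ (1 / 2 : ℝ) ≤
          ((n : ℝ) + 1) ^ (1 / 2 : ℝ) * Real.log N ^ (1 / 2 : ℝ) := by
        rw [← Real.mul_rpow (by positivity) hl.le]
        exact Real.rpow_le_rpow h0 hle (by norm_num)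
      have h2 : Real.log N ^ (1 / 2 : ℝ) = Real.log N ^ (-(1 / 2 : ℝ)) * Real.log N := by
        rw [← Real.rpow_add_one hl.ne']
        norm_num
      rw [div_le_iff₀ (by positivity)]
      calc Real.log (C * (N : ℝ) ^ n) ^ (1 / 2 : ℝ)
          ≤ ((n : ℝ) + 1) ^ (1 / 2 : ℝ) * Real.log N ^ (1 / 2 : ℝ) := h1
        _ = _ := by
            rw [h2]
            field_simp
  simpa using hf.const_mul D

theorem t4_smooth {k : Type} [Field k] [NumberField k] {ι : Type} [Fintype ι]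
    (b : Module.Basis ι ℤ (𝓞 k)) (C : ℝ) (hC : 1 ≤ C) (hn : 0 < Fintype.card ι) :
    Tendsto (fun N : ℕ => (Nat.card {c : ι → ℤ // (∀ i, |c i| ≤ N) ∧ c ≠ 0 ∧
      (N : ℝ) ^ ((Fintype.card ι : ℝ) / 4) < (Ideal.absNorm (Ideal.span {el b c}) : ℝ) ∧
      ∀ v : Pr k, el b c ∈ v.asIdeal →
        (nv v : ℝ) ≤ Real.exp (Real.log (C * (N : ℝ) ^ (Fintype.card ι)) ^ (1 / 2 : ℝ))} : ℝ) /
        (2 * N + 1) ^ (Fintype.card ι)) atTop (𝓝 0) := by
  obtain ⟨D, hD, hb⟩ := t4_smooth_bound b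
  set n := Fintype.card ι with hndef
  refine squeeze_zero' (Filter.Eventually.of_forall fun N => by positivity) ?_
    (t4_ratio C hC n hn D)
  filter_upwards [Filter.eventually_ge_atTop 2, (t4_Z C hC n hn).eventually_ge_atTop 2]
    with N hN hZ
  have hN' : (2 : ℝ) ≤ N := by exact_mod_cast hN
  have hN0 : (0 : ℝ) < N := by linarith
  have hl : 0 < Real.log N := Real.log_pos (by linarith)
  have hn' : (0 : ℝ) < n := by exact_mod_cast hn
  have h1 := hb N _ (by omega) hZ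
  rw [Real.log_exp] at h1
  have h0 : 0 ≤ Real.log (C * (N : ℝ) ^ n) := by
    apply Real.log_nonneg
    have : (1 : ℝ) ≤ (N : ℝ) ^ n := one_le_pow₀ (by linarith)
    nlinarith
  have h3 := Real.rpow_nonneg h0 (1 / 2 : ℝ)
  have hpow : (N : ℝ) ^ n ≤ (2 * (N : ℝ) + 1) ^ n := by
    gcongr
    linarith
  rw [div_le_iff₀ (by positivity), ← mul_div_assoc, div_mul_eq_mul_div,
    le_div_iff₀ (by positivity)]
  refine h1.trans ?_
  calc D * (N : ℝ) ^ n * Real.log (C * (N : ℝ) ^ n) ^ (1 / 2 : ℝ)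
      ≤ D * (2 * (N : ℝ) + 1) ^ n * Real.log (C * (N : ℝ) ^ n) ^ (1 / 2 : ℝ) := by gcongr
    _ = _ := by ring

theorem typ_large {k : Type} [Field k] [NumberField k] {ι : Type} [Fintype ι]
    (b : Module.Basis ι ℤ (𝓞 k)) (S : Finset (Pr k)) (C : ℝ) (hC : 1 ≤ C) :
    Tendsto (fun N : ℕ => (Nat.card {c : ι → ℤ // (∀ i, |c i| ≤ N) ∧
      ∀ v ∈ TT S ((el b c : 𝓞 k) : k),
        Real.log (nv v) ≤ Real.log (C * (N : ℝ) ^ (Fintype.card ι)) ^ (1 / 2 : ℝ)} : ℝ) /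
        (2 * N + 1) ^ (Fintype.card ι)) atTop (𝓝 0) := by
  classical
  have hn : 0 < Fintype.card ι := by
    rw [card_basis b]
    exact Module.finrank_pos
  set n := Fintype.card ι with hndef
  have hZ := t4_Z C hC n hn
  have hsum := ((typ_norm b).add (t4_sq b _ hZ)).add (t4_smooth b C hC hn)
  rw [add_zero, add_zero] at hsum
  refine squeeze_zero' (Filter.Eventually.of_forall fun N => by positivity) ?_ hsum
  obtain ⟨M, hM⟩ : ∃ M : ℕ, ∀ v ∈ S, nv v ≤ M :=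
    ⟨S.sup fun v => nv v, fun v hv => Finset.le_sup (f := fun v => nv v) hv⟩
  filter_upwards [hZ.eventually_ge_atTop (M : ℝ)] with N hNM
  rw [← add_div, ← add_div]
  apply div_le_div_of_nonneg_right _ (by positivity)
  obtain ⟨box, hmem⟩ := t4_box (ι := ι) N
  set Z : ℝ := Real.exp (Real.log (C * (N : ℝ) ^ n) ^ (1 / 2 : ℝ)) with hZdef
  have c0 : Nat.card {c : ι → ℤ // (∀ i, |c i| ≤ N) ∧
      ∀ v ∈ TT S ((el b c : 𝓞 k) : k),
        Real.log (nv v) ≤ Real.log (C * (N : ℝ) ^ n) ^ (1 / 2 : ℝ)} =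
      (box.filter fun c => ∀ v ∈ TT S ((el b c : 𝓞 k) : k),
        Real.log (nv v) ≤ Real.log (C * (N : ℝ) ^ n) ^ (1 / 2 : ℝ)).card := by
    apply Nat.subtype_card
    intro c
    rw [Finset.mem_filter, hmem]
  have c1 : Nat.card {c : ι → ℤ // (∀ i, |c i| ≤ N) ∧
      (Ideal.absNorm (Ideal.span {el b c}) : ℝ) ≤ (N : ℝ) ^ ((n : ℝ) / 4)} =
      (box.filter fun c =>
        (Ideal.absNorm (Ideal.span {el b c}) : ℝ) ≤ (N : ℝ) ^ ((n : ℝ) / 4)).card := by
    apply Nat.subtype_card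
    intro c
    rw [Finset.mem_filter, hmem]
  have c2 : Nat.card {c : ι → ℤ // (∀ i, |c i| ≤ N) ∧ c ≠ 0 ∧
      ∃ v : Pr k, Z < nv v ∧ el b c ∈ v.asIdeal ^ 2} =
      (box.filter fun c => c ≠ 0 ∧ ∃ v : Pr k, Z < nv v ∧ el b c ∈ v.asIdeal ^ 2).card := by
    apply Nat.subtype_card
    intro c
    rw [Finset.mem_filter, hmem]
  have c3 : Nat.card {c : ι → ℤ // (∀ i, |c i| ≤ N) ∧ c ≠ 0 ∧
      (N : ℝ) ^ ((n : ℝ) / 4) < (Ideal.absNorm (Ideal.span {el b c}) : ℝ) ∧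
      ∀ v : Pr k, el b c ∈ v.asIdeal → (nv v : ℝ) ≤ Z} =
      (box.filter fun c => c ≠ 0 ∧
        (N : ℝ) ^ ((n : ℝ) / 4) < (Ideal.absNorm (Ideal.span {el b c}) : ℝ) ∧
        ∀ v : Pr k, el b c ∈ v.asIdeal → (nv v : ℝ) ≤ Z).card := by
    apply Nat.subtype_card
    intro c
    rw [Finset.mem_filter, hmem]
  rw [c0, c1, c2, c3]
  have hsub : (box.filter fun c => ∀ v ∈ TT S ((el b c : 𝓞 k) : k),
        Real.log (nv v) ≤ Real.log (C * (N : ℝ) ^ n) ^ (1 / 2 : ℝ)) ⊆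
      ((box.filter fun c =>
        (Ideal.absNorm (Ideal.span {el b c}) : ℝ) ≤ (N : ℝ) ^ ((n : ℝ) / 4)) ∪
      (box.filter fun c => c ≠ 0 ∧ ∃ v : Pr k, Z < nv v ∧ el b c ∈ v.asIdeal ^ 2)) ∪
      (box.filter fun c => c ≠ 0 ∧
        (N : ℝ) ^ ((n : ℝ) / 4) < (Ideal.absNorm (Ideal.span {el b c}) : ℝ) ∧
        ∀ v : Pr k, el b c ∈ v.asIdeal → (nv v : ℝ) ≤ Z) := by
    intro c hc
    obtain ⟨hcb, hcT⟩ := Finset.mem_filter.1 hc
    rw [Finset.mem_union, Finset.mem_union, Finset.mem_filter, Finset.mem_filter,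
      Finset.mem_filter]
    by_cases hA : (Ideal.absNorm (Ideal.span {el b c}) : ℝ) ≤ (N : ℝ) ^ ((n : ℝ) / 4)
    · exact Or.inl (Or.inl ⟨hcb, hA⟩)
    have hc0 : c ≠ 0 := by
      rintro rfl
      apply hA
      have : el b (0 : ι → ℤ) = 0 := by simp [el]
      rw [this, Ideal.span_singleton_eq_bot.2 rfl, Ideal.absNorm_bot]
      rw [Nat.cast_zero]
      positivity
    by_cases hB : ∃ v : Pr k, Z < nv v ∧ el b c ∈ v.asIdeal ^ 2
    · exact Or.inl (Or.inr ⟨hcb, hc0, hB⟩)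
    refine Or.inr ⟨hcb, hc0, not_le.1 hA, ?_⟩
    intro v hv
    by_contra hlt
    rw [not_le] at hlt
    have hvS : v ∉ S := by
      intro hvS
      have h1 : (nv v : ℝ) ≤ M := by exact_mod_cast hM v hvS
      linarith
    have hv2 : el b c ∉ v.asIdeal ^ 2 := fun h => hB ⟨v, hlt, h⟩
    have h1 := hcT v (mem_TT S (el b c) v hvS hv hv2)
    have hpos : (0 : ℝ) < nv v := by
      have := two_le_nv v
      exact_mod_cast (by omega : 0 < nv v)
    have h2 : (nv v : ℝ) ≤ Z := by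
      rw [hZdef]
      exact (Real.log_le_iff_le_exp hpos).1 h1
    linarith
  have hcard := (Finset.card_le_card hsub).trans
    ((Finset.card_union_le _ _).trans (Nat.add_le_add_right (Finset.card_union_le _ _) _))
  exact_mod_cast hcard

end SC5
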