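import Pool.Agent.MP_c1dca2_ag.SC5.C6
import Pool.Agent.MP_c1dca2_ag.SC5.T2
import Pool.Agent.MP_c1dca2_ag.SC5.T4

/-!
# [SC5-C7] the count

`n = card ι`, `C ≥ 1` from `cfg_count` (T1), `X = C N^n`, `Λ = log X` (tends to infinity; `n ≥ 1` because `𝓞 k` is not zero). The
set of the `c` is contained in the union of
(a) the set of `typ_large` (T4) (it contains all `c` with empty `TT`, in particular `c = 0`, because `SC3.Ev v 0`),
(b) the set of `typ_omega` (T2),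
(c) for `x : κ` the set `R_x` of the `c ≠ 0` in the box with a `P` as in the statement for which `#P ≤ (log Λ)^2`, and some
`o ∈ P` has `Λ^(1/2) < log (nv o.2)`. Here: `Cfg.inj` says that `o ↦ bl k o.2` is injective on `P`, so `#P = #TT`, and by
`Cfg.deg`, `nv_eq`: `nv o.2 = nv (bl k o.2)`, so `NP P = ∏_{v ∈ TT} nv v`; with `V = P.image (bl k ·.2)`, `v ∉ S` for `v ∈ V`.
For `c ∈ R_x` choose such a `P = P_c`; `NP P_c ≤ X` by the first part of `cfg_count`; so `P_c` satisfies `Adm S al Λ (E x)`.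
Let `Ps_x` be the (finite) set of the `P_c`, `c ∈ R_x`. By the second part of `cfg_count`
`#R_x ≤ ∑_{P ∈ Ps_x} C (X / NP P)^(3/4) ≤ C C' X Λ^(-δ)` (`total`, `X = exp Λ`). So `#R_x / (2 N + 1)^n ≤ C^2 C' Λ^(-δ)`, which
tends to `0`. Sum over the finitely many `x`.
-/

set_option autoImplicit false

open NumberField IsDedekindDomain Filter Topology

namespace SC5

/-- the box -/
noncomputable def c7_box (ι : Type) [Fintype ι] (N : ℕ) : Finset (ι → ℤ) := by
  classical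
  exact Fintype.piFinset fun _ : ι => Finset.Icc (-(N : ℤ)) N

theorem c7_mem_box {ι : Type} [Fintype ι] (N : ℕ) (c : ι → ℤ) :
    c ∈ c7_box ι N ↔ ∀ i, |c i| ≤ N := by
  classical
  unfold c7_box
  rw [Fintype.mem_piFinset]
  refine forall_congr' fun i => ?_
  rw [Finset.mem_Icc, abs_le]

theorem c7_card {ι : Type} [Fintype ι] (N : ℕ) (p : (ι → ℤ) → Prop) [DecidablePred p] :
    Nat.card {c : ι → ℤ // (∀ i, |c i| ≤ N) ∧ p c} = ((c7_box ι N).filter p).card := by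
  refine Nat.subtype_card _ fun c => ?_
  rw [Finset.mem_filter, c7_mem_box]

theorem c7_NP {k : Type} [Field k] [NumberField k] {I : Type} {L : I → Type}
    [∀ i, Field (L i)] [∀ i, NumberField (L i)] [∀ i, Algebra k (L i)] [DecidableEq (Pr k)]
    {S : Finset (Pr k)} {P : Finset (PL L)} (hP : Cfg k S P) :
    ∏ v ∈ P.image (fun o : PL L => bl k o.2), (nv v : ℝ) = NP P := by
  rw [Finset.prod_image (fun o ho o' ho' h => hP.inj o ho o' ho' h)]
  unfold NP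
  refine Finset.prod_congr rfl fun o ho => ?_
  rw [nv_eq (k := k) o.2, hP.deg o ho, pow_one]

open scoped Classical in
/-- the configurations with a large element and few elements -/
theorem c7_R {k : Type} [Field k] [NumberField k] {I : Type} {L : I → Type}
    [∀ i, Field (L i)] [∀ i, NumberField (L i)] [∀ i, Algebra k (L i)] {S : Finset (Pr k)}
    {al : ∀ i, Pr (L i) → 𝓞 (L i)} {ι : Type} [Fintype ι] (b : Module.Basis ι ℤ (𝓞 k))
    {C : ℝ} (hC1 : 1 ≤ C)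
    (hC : ∀ N : ℕ, 1 ≤ N → ∀ V : Finset (Pr k), (∀ v ∈ V, v ∉ S) →
      (C * (N : ℝ) ^ (Fintype.card ι) < ∏ v ∈ V, (nv v : ℝ) →
        ¬ ∃ c : ι → ℤ, (∀ i, |c i| ≤ N) ∧ c ≠ 0 ∧ TT S ((el b c : 𝓞 k) : k) = (V : Set (Pr k))) ∧
      (Nat.card {c : ι → ℤ // (∀ i, |c i| ≤ N) ∧ c ≠ 0 ∧
        TT S ((el b c : 𝓞 k) : k) = (V : Set (Pr k))} : ℝ) ≤
        C * (C * (N : ℝ) ^ (Fintype.card ι) / ∏ v ∈ V, (nv v : ℝ)) ^ (3 / 4 : ℝ))
    {δ C' Λ₀ : ℝ}
    (ht : ∀ Λ : ℝ, Λ₀ ≤ Λ → ∀ (E : PL L → PL L → PL L → ℤˣ) (Ps : Finset (Finset (PL L))),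
        (∀ P ∈ Ps, Adm S al Λ E P) →
        ∑ P ∈ Ps, (Real.exp Λ / NP P) ^ (3 / 4 : ℝ) ≤ C' * Real.exp Λ * Λ ^ (-δ))
    (E : PL L → PL L → PL L → ℤˣ) {N : ℕ} (hN : 1 ≤ N) (Λ : ℝ)
    (hΛ : Λ = Real.log (C * (N : ℝ) ^ (Fintype.card ι))) (hΛ₀ : Λ₀ ≤ Λ) :
    (((c7_box ι N).filter (fun c => c ≠ 0 ∧ ∃ P : Finset (PL L), Cfg k S P ∧
      TT S ((el b c : 𝓞 k) : k) = (fun o : PL L => bl k o.2) '' (P : Set (PL L)) ∧
      (∀ o ∈ P, Rel k (E o) o (sgn al P)) ∧ (P.card : ℝ) ≤ Real.log Λ ^ 2 ∧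
      ∃ o ∈ P, Λ ^ (1 / 2 : ℝ) < Real.log (nv o.2))).card : ℝ) ≤
      C * (C' * (C * (N : ℝ) ^ (Fintype.card ι)) * Λ ^ (-δ)) := by
  have hNR : (1 : ℝ) ≤ N := by exact_mod_cast hN
  have hX : 0 < C * (N : ℝ) ^ (Fintype.card ι) := by positivity
  have hexp : Real.exp Λ = C * (N : ℝ) ^ (Fintype.card ι) := by
    rw [hΛ, Real.exp_log hX]
  set q : (ι → ℤ) → Finset (PL L) → Prop := fun c P => Cfg k S P ∧
      TT S ((el b c : 𝓞 k) : k) = (fun o : PL L => bl k o.2) '' (P : Set (PL L)) ∧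
      (∀ o ∈ P, Rel k (E o) o (sgn al P)) ∧ (P.card : ℝ) ≤ Real.log Λ ^ 2 ∧
      ∃ o ∈ P, Λ ^ (1 / 2 : ℝ) < Real.log (nv o.2) with hq
  show (((c7_box ι N).filter (fun c => c ≠ 0 ∧ ∃ P : Finset (PL L), q c P)).card : ℝ) ≤ _
  set A := (c7_box ι N).filter (fun c => c ≠ 0 ∧ ∃ P : Finset (PL L), q c P) with hA
  set g : (ι → ℤ) → Finset (PL L) := fun c => if h : ∃ P, q c P then h.choose else ∅ with hg
  have hgq : ∀ c ∈ A, q c (g c) := by
    intro c hc
    rw [hA, Finset.mem_filter] at hc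
    have h := hc.2.2
    simp only [hg]
    rw [dif_pos h]
    exact h.choose_spec
  have hbox : ∀ c ∈ A, (∀ i, |c i| ≤ N) ∧ c ≠ 0 := by
    intro c hc
    rw [hA, Finset.mem_filter, c7_mem_box] at hc
    exact ⟨hc.1, hc.2.1⟩
  have hV : ∀ P : Finset (PL L), Cfg k S P → ∀ v ∈ P.image (fun o : PL L => bl k o.2), v ∉ S := by
    intro P hP v hv
    rw [Finset.mem_image] at hv
    obtain ⟨o, ho, rfl⟩ := hv
    exact hP.out o ho
  have hadm : ∀ P ∈ A.image g, Adm S al Λ E P := by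
    intro P hP
    rw [Finset.mem_image] at hP
    obtain ⟨c, hc, rfl⟩ := hP
    obtain ⟨h1, h2, h3, h4, h5⟩ := hgq c hc
    refine ⟨h1, ?_, h4, h5, h3⟩
    rw [hexp]
    by_contra hlt
    rw [not_le] at hlt
    rw [← c7_NP h1] at hlt
    refine (hC N hN _ (hV _ h1)).1 hlt ⟨c, (hbox c hc).1, (hbox c hc).2, ?_⟩
    rw [h2, Finset.coe_image]
  have hfib : ∀ P ∈ A.image g, (((A.filter (fun c => g c = P)).card : ℕ) : ℝ) ≤
      C * (Real.exp Λ / NP P) ^ (3 / 4 : ℝ) := by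
    intro P hP
    have hcfg := (hadm P hP).cfg
    have h1 := (hC N hN _ (hV P hcfg)).2
    rw [c7_NP hcfg, c7_card, ← hexp] at h1
    refine le_trans ?_ h1
    norm_cast
    refine Finset.card_le_card fun c hc => ?_
    rw [Finset.mem_filter] at hc
    rw [Finset.mem_filter, c7_mem_box]
    refine ⟨(hbox c hc.1).1, (hbox c hc.1).2, ?_⟩
    have h2 := (hgq c hc.1).2.1
    rw [hc.2] at h2
    rw [h2, Finset.coe_image]
  calc ((A.card : ℕ) : ℝ) = ∑ P ∈ A.image g, (((A.filter (fun c => g c = P)).card : ℕ) : ℝ) := by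
        rw [Finset.card_eq_sum_card_image g A]
        push_cast
        rfl
    _ ≤ ∑ P ∈ A.image g, C * (Real.exp Λ / NP P) ^ (3 / 4 : ℝ) := Finset.sum_le_sum hfib
    _ = C * ∑ P ∈ A.image g, (Real.exp Λ / NP P) ^ (3 / 4 : ℝ) := by rw [Finset.mul_sum]
    _ ≤ C * (C' * Real.exp Λ * Λ ^ (-δ)) :=
        mul_le_mul_of_nonneg_left (ht Λ hΛ₀ E _ hadm) (by linarith)
    _ = C * (C' * (C * (N : ℝ) ^ (Fintype.card ι)) * Λ ^ (-δ)) := by rw [hexp]

theorem c7_TT_zero {k : Type} [Field k] [NumberField k] (S : Finset (Pr k)) :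
    TT S (0 : k) = ∅ := by
  ext v
  simp only [TT, Set.mem_setOf_eq, Set.mem_empty_iff_false, iff_false, not_and, not_not]
  intro _
  exact ⟨0, by simp⟩

theorem c7_el_zero {k : Type} [Field k] [NumberField k] {ι : Type} [Fintype ι]
    (b : Module.Basis ι ℤ (𝓞 k)) : el b 0 = 0 := by
  simp [el]

theorem count {k : Type} [Field k] [NumberField k] {I : Type} [Fintype I] {L : I → Type}
    [∀ i, Field (L i)] [∀ i, NumberField (L i)] [∀ i, Algebra k (L i)] (M : Type) [Field M]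
    [NumberField M] [Algebra k M] [IsGalois k M] [∀ i, Algebra (L i) M]
    [∀ i, IsScalarTower k (L i) M] {S : Finset (Pr k)}
    {al : ∀ i, Pr (L i) → 𝓞 (L i)} {Cg : ℕ} (hF : Fam k L S al Cg) {κ : Type} [Finite κ]
    (E : κ → PL L → PL L → PL L → ℤˣ) {ι : Type} [Fintype ι] (b : Module.Basis ι ℤ (𝓞 k)) :
    Tendsto (fun N : ℕ => (Nat.card {c : ι → ℤ // (∀ i, |c i| ≤ N) ∧
      ∃ (x : κ) (P : Finset (PL L)), Cfg k S P ∧
        TT S ((el b c : 𝓞 k) : k) = (fun o => bl k o.2) '' (P : Set (PL L)) ∧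
        ∀ o ∈ P, Rel k (E x o) o (sgn al P)} : ℝ) / (2 * N + 1) ^ (Fintype.card ι))
      atTop (𝓝 0) := by
  classical
  have : Fintype κ := Fintype.ofFinite κ
  obtain ⟨C, hC1, hC⟩ := cfg_count b S
  obtain ⟨δ, C', Λ₀, hδ, hC', hΛ₀, ht⟩ := total M hF
  have hne : Nonempty ι := b.index_nonempty
  have hn : Fintype.card ι ≠ 0 := Fintype.card_ne_zero
  -- the parameter tends to infinity
  have hX : Tendsto (fun N : ℕ => C * (N : ℝ) ^ (Fintype.card ι)) atTop atTop :=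
    Tendsto.const_mul_atTop (by linarith)
      ((tendsto_pow_atTop hn).comp tendsto_natCast_atTop_atTop)
  have hL : Tendsto (fun N : ℕ => Real.log (C * (N : ℝ) ^ (Fintype.card ι))) atTop atTop :=
    Real.tendsto_log_atTop.comp hX
  have hbd : Tendsto (fun N : ℕ => (Fintype.card κ : ℝ) * (C * (C' * C) *
      Real.log (C * (N : ℝ) ^ (Fintype.card ι)) ^ (-δ))) atTop (𝓝 0) := by
    have h1 := ((tendsto_rpow_neg_atTop hδ).comp hL).const_mul (C * (C' * C))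
    have h2 := h1.const_mul (Fintype.card κ : ℝ)
    simpa using h2
  have hT4 := typ_large b S C hC1
  have hT2 := typ_omega b S C hC1
  have hsum := (hT4.add hT2).add hbd
  rw [add_zero, add_zero] at hsum
  refine squeeze_zero' (Filter.Eventually.of_forall fun N => by positivity) ?_ hsum
  filter_upwards [Filter.eventually_ge_atTop 1, hL.eventually_ge_atTop Λ₀] with N hN hΛN
  set Λ : ℝ := Real.log (C * (N : ℝ) ^ (Fintype.card ι)) with hΛ
  have hNR : (1 : ℝ) ≤ N := by exact_mod_cast hN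
  have hD : (0 : ℝ) < (2 * N + 1) ^ (Fintype.card ι) := by positivity
  -- the sets
  rw [c7_card, c7_card, c7_card]
  set A := (c7_box ι N).filter (fun c => ∃ (x : κ) (P : Finset (PL L)), Cfg k S P ∧
        TT S ((el b c : 𝓞 k) : k) = (fun o => bl k o.2) '' (P : Set (PL L)) ∧
        ∀ o ∈ P, Rel k (E x o) o (sgn al P)) with hA
  set B := (c7_box ι N).filter (fun c => ∀ v ∈ TT S ((el b c : 𝓞 k) : k),
        Real.log (nv v) ≤ Λ ^ (1 / 2 : ℝ)) with hB
  set D := (c7_box ι N).filter (fun c => c ≠ 0 ∧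
      Real.log Λ ^ 2 < ((TT S ((el b c : 𝓞 k) : k)).ncard : ℝ)) with hDD
  set R : κ → Finset (ι → ℤ) := fun x => (c7_box ι N).filter (fun c => c ≠ 0 ∧
      ∃ P : Finset (PL L), Cfg k S P ∧
      TT S ((el b c : 𝓞 k) : k) = (fun o : PL L => bl k o.2) '' (P : Set (PL L)) ∧
      (∀ o ∈ P, Rel k (E x o) o (sgn al P)) ∧ (P.card : ℝ) ≤ Real.log Λ ^ 2 ∧
      ∃ o ∈ P, Λ ^ (1 / 2 : ℝ) < Real.log (nv o.2)) with hR
  have hsub : A ⊆ (B ∪ D) ∪ Finset.univ.biUnion R := by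
    intro c hc
    rw [hA, Finset.mem_filter] at hc
    obtain ⟨hcb, x, P, hP, hTT, hrel⟩ := hc
    by_cases h1 : c ∈ B
    · exact Finset.mem_union_left _ (Finset.mem_union_left _ h1)
    by_cases h2 : c ∈ D
    · exact Finset.mem_union_left _ (Finset.mem_union_right _ h2)
    refine Finset.mem_union_right _ (Finset.mem_biUnion.mpr ⟨x, Finset.mem_univ x, ?_⟩)
    rw [hB, Finset.mem_filter] at h1
    push Not at h1
    obtain ⟨v, hv, hvL⟩ := h1 hcb
    have hc0 : c ≠ 0 := by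
      rintro rfl
      rw [c7_el_zero] at hv
      have h3 : ((0 : 𝓞 k) : k) = 0 := by simp
      rw [h3, c7_TT_zero] at hv
      exact hv
    rw [hDD, Finset.mem_filter] at h2
    have h4 : ((TT S ((el b c : 𝓞 k) : k)).ncard : ℝ) ≤ Real.log Λ ^ 2 := by
      by_contra h5
      rw [not_le] at h5
      exact h2 ⟨hcb, hc0, h5⟩
    have hinj : Set.InjOn (fun o : PL L => bl k o.2) (P : Set (PL L)) :=
      fun o ho o' ho' h => hP.inj o ho o' ho' h
    have h6 : (TT S ((el b c : 𝓞 k) : k)).ncard = P.card := by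
      rw [hTT, Set.ncard_image_of_injOn hinj, Set.ncard_coe_finset]
    rw [h6] at h4
    rw [hTT] at hv
    obtain ⟨o, ho, hov⟩ := hv
    rw [hR, Finset.mem_filter]
    refine ⟨hcb, hc0, P, hP, hTT, hrel, h4, o, ho, ?_⟩
    rw [nv_eq (k := k) o.2, hP.deg o ho, pow_one]
    have h7 : bl k o.2 = v := hov
    rw [h7]
    exact hvL
  have hcard : (A.card : ℝ) ≤ B.card + D.card + ∑ x : κ, ((R x).card : ℝ) := by
    have h1 := Finset.card_le_card hsub
    have h2 := Finset.card_union_le (B ∪ D) (Finset.univ.biUnion R)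
    have h3 := Finset.card_union_le B D
    have h4 : (Finset.univ.biUnion R).card ≤ ∑ x : κ, (R x).card := Finset.card_biUnion_le
    have h5 : A.card ≤ B.card + D.card + ∑ x : κ, (R x).card := by omega
    exact_mod_cast h5
  have hRx : ∀ x : κ, ((R x).card : ℝ) ≤ C * (C' * (C * (N : ℝ) ^ (Fintype.card ι)) * Λ ^ (-δ)) :=
    fun x => c7_R b hC1 hC ht (E x) hN Λ hΛ hΛN
  have hRs : ∑ x : κ, ((R x).card : ℝ) ≤
      (Fintype.card κ : ℝ) * (C * (C' * (C * (N : ℝ) ^ (Fintype.card ι)) * Λ ^ (-δ))) := by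
    refine (Finset.sum_le_sum fun x _ => hRx x).trans ?_
    rw [Finset.sum_const, nsmul_eq_mul, Finset.card_univ]
  have hΛpos : 0 < Λ := lt_of_lt_of_le (by linarith) hΛN
  have hpw : (N : ℝ) ^ (Fintype.card ι) ≤ (2 * N + 1) ^ (Fintype.card ι) :=
    pow_le_pow_left₀ (by positivity) (by linarith) _
  have hrp : 0 ≤ Λ ^ (-δ) := Real.rpow_nonneg hΛpos.le _
  have hfin : (Fintype.card κ : ℝ) * (C * (C' * (C * (N : ℝ) ^ (Fintype.card ι)) * Λ ^ (-δ))) ≤
      ((Fintype.card κ : ℝ) * (C * (C' * C) * Λ ^ (-δ))) * (2 * N + 1) ^ (Fintype.card ι) := by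
    have h1 : 0 ≤ (Fintype.card κ : ℝ) * (C * (C' * C) * Λ ^ (-δ)) := by positivity
    have h2 := mul_le_mul_of_nonneg_left hpw h1
    calc _ = ((Fintype.card κ : ℝ) * (C * (C' * C) * Λ ^ (-δ))) * (N : ℝ) ^ (Fintype.card ι) := by
          ring
      _ ≤ _ := h2
  calc (A.card : ℝ) / (2 * N + 1) ^ (Fintype.card ι)
      ≤ (B.card + D.card + ((Fintype.card κ : ℝ) * (C * (C' * C) * Λ ^ (-δ))) *
          (2 * N + 1) ^ (Fintype.card ι)) / (2 * N + 1) ^ (Fintype.card ι) := by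
        apply div_le_div_of_nonneg_right _ hD.le
        linarith
    _ = (B.card : ℝ) / (2 * N + 1) ^ (Fintype.card ι) + (D.card : ℝ) / (2 * N + 1) ^ (Fintype.card ι) +
        (Fintype.card κ : ℝ) * (C * (C' * C) * Λ ^ (-δ)) := by
        field_simp

end SC5
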