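import Pool.Agent.MP_c1dca2_ag.SC3.F

/-!
# [SC5] the interface between the local theorem (sections, points) and the counting half
-/

set_option autoImplicit false

open Polynomial SC2 SC3

noncomputable section

namespace SC5

/-- What a section (or a rational point) of `y² = c f(x)` gives at the good places.
`C` is an algebraic closure of `k`; `δ a b` is the class of `(x - a) (x - b)`, an element of
`k(a, b)`; `ρ V` is the root of `f` to which `x` is close at `V`, if `c` is odd at `V`. -/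
structure Dat (k C : Type) [Field k] [Field C] [Algebra k C] (f : k[X]) (c : k) where
  /-- the classes -/
  δ : C → C → C
  /-- the special roots -/
  ρ : ValuationSubring C → C
  ne : ∀ a b, aeval a f = 0 → aeval b f = 0 → a ≠ b → δ a b ≠ 0
  fix : ∀ a b, aeval a f = 0 → aeval b f = 0 → a ≠ b → ∀ σ : C ≃ₐ[k] C, σ a = a → σ b = b →
    σ (δ a b) = δ a b
  root : ∀ (A : ValuationSubring k) (V : ValuationSubring C), GoodAt A f → Above A V →
    ¬ EvA A c → aeval (ρ V) f = 0
  eqv : ∀ (A : ValuationSubring k) (V V' : ValuationSubring C), GoodAt A f → Above A V →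
    Above A V' → ¬ EvA A c → ∀ g : C ≃ₐ[k] C, (∀ z, g z ∈ V' ↔ z ∈ V) → ρ V' = g (ρ V)
  even : ∀ (A : ValuationSubring k) (V : ValuationSubring C), GoodAt A f → Above A V →
    ∀ a b, aeval a f = 0 → aeval b f = 0 → a ≠ b → (¬ EvA A c → ρ V ≠ a ∧ ρ V ≠ b) →
      ∀ z, z ^ 2 = δ a b → ∀ τ : C ≃ₐ[k] C, Iner V τ → τ z = z
  odd : ∀ (A : ValuationSubring k) (V : ValuationSubring C), GoodAt A f → Above A V →
    ∀ a b, aeval a f = 0 → aeval b f = 0 → a ≠ b → ¬ EvA A c → (ρ V = a ∨ ρ V = b) →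
      ∀ z, z ^ 2 = δ a b → ∃ τ : C ≃ₐ[k] C, Iner V τ ∧ τ z = -z
  sgn : ∀ (A : ValuationSubring k) (V : ValuationSubring C), GoodAt A f → Above A V →
    ∀ a b, aeval a f = 0 → aeval b f = 0 → a ≠ b → ¬ EvA A c → ρ V ≠ a → ρ V ≠ b →
      ∀ g : C ≃ₐ[k] C, (∀ z, g z ∈ V ↔ z ∈ V) → g a = a → g b = b →
        ∀ z γ, z ^ 2 = δ a b → γ ^ 2 = (ρ V - a) * (ρ V - b) → g z * γ = z * g γ

end SC5
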