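import Pool.Agent.MP_c1dca2_ag.SC3.F

/-!
# [SC5] 100% of the quadratic twists of a hyperelliptic curve without rational Weierstrass point
have no section: definitions
-/

set_option autoImplicit false

open NumberField IsDedekindDomain

noncomputable section

namespace SC5

/-- The primes of a number field. -/
abbrev Pr (K : Type) [Field K] [NumberField K] : Type := HeightOneSpectrum (𝓞 K)

/-- The norm of a prime. -/
def nv {K : Type} [Field K] [NumberField K] (v : Pr K) : ℕ := Ideal.absNorm v.asIdeal

/-- The prime of `k` below `w`. -/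
def bl (k : Type) [Field k] [NumberField k] {L : Type} [Field L] [NumberField L] [Algebra k L]
    (w : Pr L) : Pr k := HeightOneSpectrum.under (𝓞 k) w

/-- The residue degree of `w` over `k`. -/
def dg (k : Type) [Field k] [NumberField k] {L : Type} [Field L] [NumberField L] [Algebra k L]
    (w : Pr L) : ℕ := Nat.log (nv (bl k w)) (nv w)

open scoped Classical in
/-- `1` if `a` is a square modulo `w`, `-1` otherwise. -/
def sg {K : Type} [Field K] [NumberField K] (w : Pr K) (a : 𝓞 K) : ℤˣ :=
  if IsSquare (Ideal.Quotient.mk w.asIdeal a) then 1 else -1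

/-- Pairs of an index and a prime of `L i`. -/
def PL {I : Type} (L : I → Type) [∀ i, Field (L i)] [∀ i, NumberField (L i)] : Type :=
  Σ i, Pr (L i)

section family

variable {I : Type} {L : I → Type} [∀ i, Field (L i)] [∀ i, NumberField (L i)]

open scoped Classical in
/-- The sign of (the chosen generator of) `o` at `q`. -/
def bt (al : ∀ i, Pr (L i) → 𝓞 (L i)) (q o : PL L) : ℤˣ :=
  if h : o.1 = q.1 then sg q.2 (al q.1 (h ▸ o.2)) else 1

/-- The sign at `q` of the product of the generators of the elements of `P`. -/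
def sgn (al : ∀ i, Pr (L i) → 𝓞 (L i)) (P : Finset (PL L)) (q : PL L) : ℤˣ :=
  ∏ o ∈ P, bt al q o

variable (k : Type) [Field k] [NumberField k] [∀ i, Algebra k (L i)]

/-- The relation at `o`: all sign products at pairs of primes above the prime below `o`,
different from `o`, are prescribed. -/
def Rel (E : PL L → PL L → ℤˣ) (o : PL L) (e : PL L → ℤˣ) : Prop :=
  ∀ q q' : PL L, bl k q.2 = bl k o.2 → bl k q'.2 = bl k o.2 → q ≠ o → q' ≠ o → q ≠ q' →
    e q ^ (Nat.lcm (dg k q.2) (dg k q'.2) / dg k q.2) *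
      e q' ^ (Nat.lcm (dg k q.2) (dg k q'.2) / dg k q'.2) = E q q'

/-- `v` is totally split in all `L i`. -/
def Spl (L : I → Type) [∀ i, Field (L i)] [∀ i, NumberField (L i)] [∀ i, Algebra k (L i)]
    (v : Pr k) : Prop := ∀ (i : I) (w : Pr (L i)), bl k w = v → dg k w = 1

/-- The total degree of the `L i`, `i ∈ J`. -/
def nJ (L : I → Type) [∀ i, Field (L i)] [∀ i, NumberField (L i)] [∀ i, Algebra k (L i)]
    (J : Finset I) : ℕ := ∑ i ∈ J, Module.finrank k (L i)

open scoped Classical in
/-- The proportion of the sign vectors above a prime allowed by the relation at `o`, if the signs at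
the primes of the `L i`, `i ∈ J`, are random. -/
def beta [Fintype I] (J : Finset I) (o : PL L) : ℝ :=
  if Spl k L (bl k o.2) then
    (if J = Finset.univ then 1 / 2 ^ (nJ k L J - 2) else 1 / 2 ^ (nJ k L J - 1))
  else 1 / 2 ^ (J.card - 1)

end family

open scoped Classical in
/-- The average of `g` over the sign changes of `e` at the elements of `Q`. -/
def avg {X : Type} (Q : Finset X) (g : (X → ℤˣ) → ℝ) (e : X → ℤˣ) : ℝ :=
  (∑ A ∈ Q.powerset, g (fun q => if q ∈ A then -e q else e q)) / 2 ^ Q.card

/-- `g j` is a nonnegative function of the signs at the primes in `Q j`; the `Q j` are disjoint sets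
of odd primes of norm larger than `C`. -/
structure QG {K : Type} [Field K] [NumberField K] {J : Type} (C : ℕ) (Q : J → Finset (Pr K))
    (g : J → (Pr K → ℤˣ) → ℝ) : Prop where
  disj : ∀ j j', j ≠ j' → Disjoint (Q j) (Q j')
  nonneg : ∀ j e, 0 ≤ g j e
  loc : ∀ j e e', (∀ q ∈ Q j, e q = e' q) → g j e = g j e'
  two : ∀ j, ∀ q ∈ Q j, (2 : 𝓞 K) ∉ q.asIdeal
  large : ∀ j, ∀ q ∈ Q j, C < nv q

/-- `al w` is a generator of `w` up to an ideal of norm at most `C`, with small coordinates. -/
structure Gen {K : Type} [Field K] [NumberField K] (al : Pr K → 𝓞 K) (C : ℕ) : Prop where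
  ne : ∀ w, al w ≠ 0
  mem : ∀ w, al w ∈ w.asIdeal
  co : ∀ w i, |(RingOfIntegers.basis K).repr (al w) i| ^ (Module.finrank ℚ K) ≤ (nv w : ℤ)
  oth : ∀ w w', al w ∈ w'.asIdeal → w' = w ∨ nv w' ≤ C
  one : ∀ w, C < nv w → al w ∉ w.asIdeal ^ 2

/-- The element of `𝓞 K` with the coordinates `c`. -/
def el {K : Type} [Field K] [NumberField K] {ι : Type} [Fintype ι]
    (b : Module.Basis ι ℤ (𝓞 K)) (c : ι → ℤ) : 𝓞 K := ∑ i, c i • b i

/-- The set of primes outside `S` at which `c` is not even. -/
def TT {k : Type} [Field k] [NumberField k] (S : Finset (Pr k)) (c : k) : Set (Pr k) :=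
  {v | v ∉ S ∧ ¬ SC3.Ev v c}

/-- A configuration: degree one primes of the `L i`, above different primes of `k` outside `S`. -/
structure Cfg {I : Type} {L : I → Type} [∀ i, Field (L i)] [∀ i, NumberField (L i)] (k : Type)
    [Field k] [NumberField k] [∀ i, Algebra k (L i)] (S : Finset (Pr k)) (P : Finset (PL L)) :
    Prop where
  out : ∀ o ∈ P, bl k o.2 ∉ S
  deg : ∀ o ∈ P, dg k o.2 = 1
  inj : ∀ o ∈ P, ∀ o' ∈ P, bl k o.2 = bl k o'.2 → o = o'

end SC5
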