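import Mathlib

/-!
# [SC5-E1] periodic functions on a box

Let `n = card ι`, `s = (2 B + 1) / M ≥ 1`. For a residue class `r ∈ [0, M)^n` the number `m` of `c` in
`[-B, B]^n` with `c ≡ r (mod M)` is a product of `n` numbers each between `s - 1` and `s + 1` (number of integers of
`[-B, B]` in a residue class: `⌊s⌋` or `⌈s⌉`, `⌊s⌋ ≥ 1`). So `|m - s^n| ≤ max ((s+1)^n - s^n, s^n - (s-1)^n) ≤
2^n s^(n-1)` if `n ≥ 1` (`(s+1)^n - s^n = ∑_{j<n} C(n,j) s^j ≤ 2^n s^(n-1)`; `s^n - (s-1)^n ≤ n s^(n-1)`), and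
`2^n s^(n-1) = 2^n (M / (2 B + 1)) s^n`; for `n = 0` everything is trivial (the left side is `0`). `f` is constant on
residue classes (`hper`): group the sum over `[-B, B]^n` by the class (`c ↦ c % M` coordinatewise,
`Finset.sum_fiberwise_of_maps_to`).
-/

set_option autoImplicit false

namespace SC5

theorem e1_prod {ι : Type} (A : Finset ι) (s : ℝ) (hs : 0 ≤ s) (a : ι → ℝ)
    (ha : ∀ i, |a i - s| ≤ 1) (ha0 : ∀ i, 0 ≤ a i) :
    |∏ i ∈ A, a i - s ^ A.card| ≤ (s + 1) ^ A.card - s ^ A.card := by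
  classical
  induction A using Finset.induction_on with
  | empty => simp
  | insert j A hj ih =>
    rw [Finset.prod_insert hj, Finset.card_insert_of_notMem hj]
    have h1 := abs_le.1 (ha j)
    have e : a j * ∏ i ∈ A, a i - s ^ (A.card + 1) =
        a j * (∏ i ∈ A, a i - s ^ A.card) + (a j - s) * s ^ A.card := by ring
    rw [e]
    have hp : 0 ≤ s ^ A.card := pow_nonneg hs _
    have hn : 0 ≤ (s + 1) ^ A.card - s ^ A.card := le_trans (abs_nonneg _) ih
    calc |a j * (∏ i ∈ A, a i - s ^ A.card) + (a j - s) * s ^ A.card|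
        ≤ |a j * (∏ i ∈ A, a i - s ^ A.card)| + |(a j - s) * s ^ A.card| := abs_add_le _ _
      _ = a j * |∏ i ∈ A, a i - s ^ A.card| + |a j - s| * s ^ A.card := by
          rw [abs_mul, abs_mul, abs_of_nonneg (ha0 j), abs_of_nonneg hp]
      _ ≤ (s + 1) * ((s + 1) ^ A.card - s ^ A.card) + 1 * s ^ A.card := by
          refine add_le_add (mul_le_mul (by linarith) ih (abs_nonneg _) (by linarith)) ?_
          exact mul_le_mul_of_nonneg_right (ha j) hp
      _ = (s + 1) ^ (A.card + 1) - s ^ (A.card + 1) := by ring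

theorem e1_pow (s : ℝ) (hs : 1 ≤ s) (n : ℕ) :
    s * ((s + 1) ^ n - s ^ n) ≤ (2 ^ n - 1) * s ^ n := by
  induction n with
  | zero => simp
  | succ n ih =>
    have hp : 0 ≤ s ^ n := pow_nonneg (by linarith) _
    have h2 : (1 : ℝ) ≤ 2 ^ n := one_le_pow₀ (by norm_num)
    have e : s * ((s + 1) ^ (n + 1) - s ^ (n + 1)) =
        (s + 1) * (s * ((s + 1) ^ n - s ^ n)) + s ^ (n + 1) := by ring
    rw [e]
    calc (s + 1) * (s * ((s + 1) ^ n - s ^ n)) + s ^ (n + 1)
        ≤ (s + 1) * ((2 ^ n - 1) * s ^ n) + s ^ (n + 1) := by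
          have := mul_le_mul_of_nonneg_left ih (show 0 ≤ s + 1 by linarith)
          linarith
      _ = (2 ^ n - 1) * (s ^ (n + 1) + s ^ n) + s ^ (n + 1) := by ring
      _ ≤ (2 ^ n - 1) * (s ^ (n + 1) + s ^ (n + 1)) + s ^ (n + 1) := by
          have h3 : s ^ n ≤ s ^ (n + 1) := pow_le_pow_right₀ hs (by omega)
          have := mul_le_mul_of_nonneg_left (add_le_add_right h3 (s ^ (n + 1)))
            (show 0 ≤ (2 : ℝ) ^ n - 1 by linarith)
          linarith
      _ = (2 ^ (n + 1) - 1) * s ^ (n + 1) := by ring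

theorem e1_count (M B : ℕ) (hM : 0 < M) (t : ℤ) (ht : 0 ≤ t) (htM : t < M) :
    |(((Finset.Icc (-(B : ℤ)) B).filter (fun x => x % (M : ℤ) = t)).card : ℝ) -
      (2 * B + 1 : ℝ) / M| ≤ 1 := by
  have hM' : (0 : ℤ) < M := by exact_mod_cast hM
  have hMR : (0 : ℝ) < M := by exact_mod_cast hM
  have e1 : (Finset.Icc (-(B : ℤ)) B).filter (fun x => x % (M : ℤ) = t) =
      (Finset.Ioc (-(B : ℤ) - 1) B).filter (fun x => x ≡ t [ZMOD (M : ℤ)]) := by
    ext x
    simp only [Finset.mem_filter, Finset.mem_Icc, Finset.mem_Ioc]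
    have : x % (M : ℤ) = t ↔ x ≡ t [ZMOD (M : ℤ)] := by
      unfold Int.ModEq
      rw [Int.emod_eq_of_lt ht htM]
    rw [this]
    constructor
    · rintro ⟨⟨h1, h2⟩, h3⟩
      exact ⟨⟨by omega, h2⟩, h3⟩
    · rintro ⟨⟨h1, h2⟩, h3⟩
      exact ⟨⟨by omega, h2⟩, h3⟩
  rw [e1]
  have h := Int.Ioc_filter_modEq_card (-(B : ℤ) - 1) B hM' t
  have h' : (((Finset.Ioc (-(B : ℤ) - 1) B).filter (fun x => x ≡ t [ZMOD (M : ℤ)])).card : ℝ) =
      max ((⌊((B - t : ℤ) / (M : ℤ) : ℚ)⌋ : ℝ) - (⌊((-(B : ℤ) - 1 - t : ℤ) / (M : ℤ) : ℚ)⌋ : ℝ)) 0 := by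
    have := congrArg (fun z : ℤ => (z : ℝ)) h
    simp only [Int.cast_natCast] at this
    rw [this]
    push_cast
    rfl
  rw [h']
  have f1 := Int.floor_le ((B - t : ℤ) / (M : ℤ) : ℚ)
  have f2 := Int.lt_floor_add_one ((B - t : ℤ) / (M : ℤ) : ℚ)
  have g1 := Int.floor_le ((-(B : ℤ) - 1 - t : ℤ) / (M : ℤ) : ℚ)
  have g2 := Int.lt_floor_add_one ((-(B : ℤ) - 1 - t : ℤ) / (M : ℤ) : ℚ)
  set p := ⌊((B - t : ℤ) / (M : ℤ) : ℚ)⌋ with hp
  set q := ⌊((-(B : ℤ) - 1 - t : ℤ) / (M : ℤ) : ℚ)⌋ with hq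
  have F1 : (p : ℝ) ≤ ((B : ℝ) - t) / M := by
    have := (Rat.cast_le (K := ℝ)).2 f1
    push_cast at this
    exact this
  have F2 : ((B : ℝ) - t) / M < p + 1 := by
    have := (Rat.cast_lt (K := ℝ)).2 f2
    push_cast at this
    exact this
  have G1 : (q : ℝ) ≤ (-(B : ℝ) - 1 - t) / M := by
    have := (Rat.cast_le (K := ℝ)).2 g1
    push_cast at this
    exact this
  have G2 : (-(B : ℝ) - 1 - t) / M < q + 1 := by
    have := (Rat.cast_lt (K := ℝ)).2 g2
    push_cast at this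
    exact this
  have hd : ((B : ℝ) - t) / M - (-(B : ℝ) - 1 - t) / M = (2 * B + 1) / M := by
    field_simp
    ring
  have hs : 0 ≤ (2 * B + 1 : ℝ) / M := by positivity
  have hpq : |((p : ℝ) - q) - (2 * B + 1 : ℝ) / M| ≤ 1 := by
    rw [abs_le]
    constructor <;> linarith
  rw [abs_le] at hpq ⊢
  rcases le_total 0 ((p : ℝ) - q) with h0 | h0
  · rw [max_eq_left h0]
    exact hpq
  · rw [max_eq_right h0]
    constructor <;> linarith

theorem class_count {ι : Type} [Fintype ι] [DecidableEq ι] (M B : ℕ) (hM : 0 < M)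
    (hMB : M ≤ 2 * B + 1) (f : (ι → ℤ) → ℝ) (hf : ∀ c, 0 ≤ f c)
    (hper : ∀ c d : ι → ℤ, f (fun i => c i + M * d i) = f c) :
    |∑ c ∈ Fintype.piFinset (fun _ : ι => Finset.Icc (-(B : ℤ)) B), f c -
        ((2 * B + 1 : ℝ) / M) ^ (Fintype.card ι) *
          ∑ c ∈ Fintype.piFinset (fun _ : ι => Finset.Ico (0 : ℤ) M), f c| ≤
      2 ^ (Fintype.card ι) * (M / (2 * B + 1 : ℝ)) *
        (((2 * B + 1 : ℝ) / M) ^ (Fintype.card ι) *
          ∑ c ∈ Fintype.piFinset (fun _ : ι => Finset.Ico (0 : ℤ) M), f c) := by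
  have hM' : (0 : ℤ) < M := by exact_mod_cast hM
  have hMR : (0 : ℝ) < M := by exact_mod_cast hM
  set s : ℝ := (2 * B + 1 : ℝ) / M with hs
  have hs1 : 1 ≤ s := by
    rw [hs, le_div_iff₀ hMR, one_mul]
    exact_mod_cast hMB
  have hinv : (M : ℝ) / (2 * B + 1 : ℝ) = 1 / s := by
    rw [hs, one_div_div]
  set N : ℤ → ℝ := fun t => (((Finset.Icc (-(B : ℤ)) B).filter (fun x => x % (M : ℤ) = t)).card : ℝ)
    with hN
  have key : ∑ c ∈ Fintype.piFinset (fun _ : ι => Finset.Icc (-(B : ℤ)) B), f c =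
      ∑ r ∈ Fintype.piFinset (fun _ : ι => Finset.Ico (0 : ℤ) M), (∏ i, N (r i)) * f r := by
    rw [← Finset.sum_fiberwise_of_maps_to (g := fun c : ι → ℤ => fun i => c i % (M : ℤ))
      (t := Fintype.piFinset (fun _ : ι => Finset.Ico (0 : ℤ) M))]
    · refine Finset.sum_congr rfl fun r hr => ?_
      have e : (Fintype.piFinset (fun _ : ι => Finset.Icc (-(B : ℤ)) B)).filter
          (fun c : ι → ℤ => (fun i => c i % (M : ℤ)) = r) =
          Fintype.piFinset (fun i : ι => (Finset.Icc (-(B : ℤ)) B).filter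
            (fun x => x % (M : ℤ) = r i)) := by
        ext c
        simp only [Finset.mem_filter, Fintype.mem_piFinset, funext_iff]
        exact ⟨fun h i => ⟨h.1 i, h.2 i⟩, fun h => ⟨fun i => (h i).1, fun i => (h i).2⟩⟩
      rw [e]
      rw [Finset.sum_congr rfl (g := fun _ => f r) fun c hc => by
        rw [Fintype.mem_piFinset] at hc
        have h1 : c = fun i => r i + M * (c i / M) := by
          funext i
          have h2 := (Finset.mem_filter.1 (hc i)).2
          have h3 := Int.emod_add_mul_ediv (c i) M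
          rw [h2] at h3
          exact h3.symm
        rw [h1]
        exact hper r _]
      rw [Finset.sum_const, Fintype.card_piFinset, nsmul_eq_mul]
      push_cast
      rfl
    · intro c hc
      rw [Fintype.mem_piFinset]
      intro i
      rw [Finset.mem_Ico]
      exact ⟨Int.emod_nonneg _ hM'.ne', Int.emod_lt_of_pos _ hM'⟩
  rw [key, Finset.mul_sum, ← Finset.sum_sub_distrib]
  refine (Finset.abs_sum_le_sum_abs _ _).trans ?_
  rw [Finset.mul_sum]
  refine Finset.sum_le_sum fun r hr => ?_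
  rw [← sub_mul, abs_mul, abs_of_nonneg (hf r), ← mul_assoc]
  refine mul_le_mul_of_nonneg_right ?_ (hf r)
  have hb : |∏ i, N (r i) - s ^ Fintype.card ι| ≤ (s + 1) ^ Fintype.card ι - s ^ Fintype.card ι := by
    have := e1_prod (Finset.univ : Finset ι) s (by linarith) (fun i => N (r i)) (fun i => by
      have h1 := Fintype.mem_piFinset.1 hr i
      rw [Finset.mem_Ico] at h1
      exact e1_count M B hM (r i) h1.1 h1.2) (fun i => Nat.cast_nonneg _)
    exact this
  refine hb.trans ?_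
  have h2 := e1_pow s hs1 (Fintype.card ι)
  rw [hinv]
  have hs0 : 0 < s := by linarith
  have hp : 0 ≤ s ^ Fintype.card ι := pow_nonneg hs0.le _
  have h3 : (s + 1) ^ Fintype.card ι - s ^ Fintype.card ι ≤
      (2 ^ Fintype.card ι - 1) * s ^ Fintype.card ι / s := by
    rw [le_div_iff₀ hs0, mul_comm]
    exact h2
  refine h3.trans ?_
  rw [div_le_iff₀ hs0]
  have h4 : 2 ^ Fintype.card ι * (1 / s) * s ^ Fintype.card ι * s =
      2 ^ Fintype.card ι * s ^ Fintype.card ι := by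
    field_simp
  rw [h4]
  exact mul_le_mul_of_nonneg_right (by linarith) hp

end SC5
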