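import Pool.Agent.MP_c1dca2_ag.SC5.A1
import Pool.Agent.MP_c1dca2_ag.SC4.X3

/-!
# [SC5-E2] the sum over the residue classes

`gf Q g D a` is the product of the `g j` at the signs of `a` if `a` is divisible by all primes of `D` and prime to all
primes of the `Q j`, and `0` otherwise. `gW` is its average.

Let `n = card ι`, `𝒫 = D ∪ ⋃ Q j` (a finite set of primes), `R = 𝓞 K / ∏_{q ∈ 𝒫} q ≅ ∏_{q ∈ 𝒫} 𝓞 K / q` (Chinese
remainder theorem, the primes are distinct maximal ideals). `M` is in the kernel of `𝓞 K → R`, so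
`(ZMod M)^n → R`, `c ↦ el b c`, is well defined, additive and surjective (compare `SC4.X3_hom`), and
all fibres have the same size `M^n / #R`. `gf` factors through `R` (membership in `q` and `sg q` depend only on the
residue modulo `q`; `hQ.loc`). So the sum is `(M^n / ∏_{𝒫} nv q) ∑_{x ∈ ∏ 𝓞/q} F(x)`, with
`∑ F = ∏_j (∑_{x ∈ ∏_{Q j} (𝓞/q) \ 0} g j (signs of x))` (for `q ∈ D` only `x_q = 0` counts; the `Q j` are disjoint
from each other and from `D`). In `𝓞 K / q` (a finite field of odd order, `hQ.two`) exactly `(nv q - 1) / 2` nonzero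
elements are squares and as many are not. So for each sign vector `e` on `Q j` there are
`∏_{q ∈ Q j} (nv q - 1) / 2` vectors `x` with `sg q (x_q) = e q`, and
`∑_x g j (signs of x) = ∏_{Q j} (nv q - 1) · 2^(-#Q j) ∑_e g j e = ∏_{Q j} (nv q - 1) · avg (Q j) (g j) 1`
(the sign vectors on `Q j` are the `e_A = -1` on `A`, `1` off `A`, `A ∈ powerset (Q j)`).
So the sum is `M^n ∏_{q ∈ D} (nv q)⁻¹ ∏_j (∏_{Q j} (nv q - 1) / nv q) avg (Q j) (g j) 1 = M^n gW`.
-/

set_option autoImplicit false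

open NumberField IsDedekindDomain

noncomputable section

namespace SC5

open scoped Classical in
/-- see above -/
def gf {K : Type} [Field K] [NumberField K] {J : Type} [Fintype J] (Q : J → Finset (Pr K))
    (g : J → (Pr K → ℤˣ) → ℝ) (D : Finset (Pr K)) (a : 𝓞 K) : ℝ :=
  if (∀ q ∈ D, a ∈ q.asIdeal) ∧ ∀ j, ∀ q ∈ Q j, a ∉ q.asIdeal then ∏ j, g j (fun q => sg q a)
  else 0

/-- see above -/
def gW {K : Type} [Field K] [NumberField K] {J : Type} [Fintype J] (Q : J → Finset (Pr K))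
    (g : J → (Pr K → ℤˣ) → ℝ) (D : Finset (Pr K)) : ℝ :=
  (∏ q ∈ D, ((nv q : ℝ))⁻¹) * ∏ j, ((∏ q ∈ Q j, (1 - ((nv q : ℝ))⁻¹)) * avg (Q j) (g j) 1)

instance E2fin {K : Type} [Field K] [NumberField K] (q : Pr K) : Fintype (𝓞 K ⧸ q.asIdeal) :=
  @Fintype.ofFinite _ (Ideal.finiteQuotientOfFreeOfNeBot q.asIdeal q.ne_bot)

theorem E2card {K : Type} [Field K] [NumberField K] (q : Pr K) :
    Fintype.card (𝓞 K ⧸ q.asIdeal) = nv q := by
  rw [nv, Ideal.absNorm_apply, Submodule.cardQuot_apply, Nat.card_eq_fintype_card]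

/-- sums of functions of the image of a surjective homomorphism -/
theorem E2hom {G H : Type} [AddGroup G] [Fintype G] [AddGroup H] [Fintype H] (ψ : G →+ H)
    (hs : Function.Surjective ψ) (F : H → ℝ) :
    (∑ x : G, F (ψ x)) * Fintype.card H = Fintype.card G * ∑ y : H, F y := by
  classical
  have h1 : ∀ y : H, (Finset.univ.filter (fun g : G => ψ g = y)).card =
      (Finset.univ.filter (fun g : G => ψ g = 0)).card := fun y =>
    AddMonoidHom.card_fiber_eq_of_mem_range ψ (hs y) (hs 0)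
  set N := (Finset.univ.filter (fun g : G => ψ g = 0)).card with hN
  have h2 : ∑ x : G, F (ψ x) = N * ∑ y : H, F y := by
    rw [← Finset.sum_fiberwise Finset.univ ψ, Finset.mul_sum]
    refine Finset.sum_congr rfl (fun y _ => ?_)
    rw [Finset.sum_congr rfl (g := fun _ => F y)]
    · rw [Finset.sum_const, h1, nsmul_eq_mul]
    · intro x hx
      rw [(Finset.mem_filter.1 hx).2]
  have h3 : Fintype.card G = N * Fintype.card H := by
    rw [← Finset.card_univ, Finset.card_eq_sum_card_fiberwise (f := ψ) (t := Finset.univ)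
      (fun _ _ => Finset.mem_coe.2 (Finset.mem_univ _)), Finset.sum_congr rfl (fun y _ => h1 y),
      Finset.sum_const, Finset.card_univ, smul_eq_mul, mul_comm]
  rw [h2, h3]
  push_cast
  ring

theorem E2prod {K : Type} [Field K] [NumberField K] {ι : Type} [Fintype ι] [DecidableEq ι]
    (b : Module.Basis ι ℤ (𝓞 K)) (M : ℕ) (hM : 0 < M) (P : Finset (Pr K))
    (hP : ∀ q ∈ P, ((M : ℕ) : 𝓞 K) ∈ q.asIdeal)
    (h : ∀ q : Pr K, (𝓞 K ⧸ q.asIdeal) → ℝ) :
    ∑ c ∈ Fintype.piFinset (fun _ : ι => Finset.Ico (0 : ℤ) M),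
      ∏ q ∈ P, h q (Ideal.Quotient.mk q.asIdeal (el b c)) =
      (M : ℝ) ^ (Fintype.card ι) * ∏ q ∈ P, ((∑ y, h q y) / (nv q : ℝ)) := by
  classical
  have : NeZero M := ⟨hM.ne'⟩
  let f : P → Ideal (𝓞 K) := fun q => q.1.asIdeal
  have hf : Pairwise (Function.onFun IsCoprime f) := by
    intro q q' hqq
    have hne : q.1.asIdeal ≠ q'.1.asIdeal := by
      intro h
      exact hqq (Subtype.ext (HeightOneSpectrum.ext h))
    have := q.1.isMaximal
    have := q'.1.isMaximal
    exact Ideal.isCoprime_of_isMaximal hne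
  have hm : ((M : ℕ) : 𝓞 K) ∈ ⨅ i, f i := by
    rw [Ideal.mem_iInf]
    intro i
    exact hP i.1 i.2
  obtain ⟨φ, hφ, hs⟩ := SC4.X3_hom b M _ hm
  let e := Ideal.quotientInfRingEquivPiQuotient f hf
  let ψ : (ι → ZMod M) →+ (∀ i : P, 𝓞 K ⧸ i.1.asIdeal) := (e.toAddEquiv.toAddMonoidHom).comp φ
  have hψ : Function.Surjective ψ := e.surjective.comp hs
  have hψ2 : ∀ (c : ι → ℤ) (q : P), ψ (fun i => (c i : ZMod M)) q =
      Ideal.Quotient.mk q.1.asIdeal (el b c) := by
    intro c q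
    change e (φ _) q = _
    rw [hφ]
    rfl
  have key := E2hom ψ hψ (fun y => ∏ q : P, h q.1 (y q))
  have k1 : ∑ y : (∀ i : P, 𝓞 K ⧸ i.1.asIdeal), ∏ q : P, h q.1 (y q) =
      ∏ q : P, ∑ y, h q.1 y := by
    rw [Finset.prod_univ_sum, Fintype.piFinset_univ]
  have k2 : Fintype.card (∀ i : P, 𝓞 K ⧸ i.1.asIdeal) = ∏ q : P, nv q.1 := by
    rw [Fintype.card_pi]
    exact Finset.prod_congr rfl (fun q _ => E2card q.1)
  have k3 : ∑ x : ι → ZMod M, ∏ q : P, h q.1 (ψ x q) =
      ∑ c ∈ Fintype.piFinset (fun _ : ι => Finset.Ico (0 : ℤ) M),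
      ∏ q ∈ P, h q (Ideal.Quotient.mk q.asIdeal (el b c)) := by
    symm
    refine Finset.sum_bij (fun c _ => (fun i => (c i : ZMod M))) (fun _ _ => Finset.mem_univ _) ?_ ?_ ?_
    · intro c hc d hd hcd
      funext i
      have h1 := Finset.mem_Ico.1 (Fintype.mem_piFinset.1 hc i)
      have h2 := Finset.mem_Ico.1 (Fintype.mem_piFinset.1 hd i)
      have h3 : ((c i : ℤ) : ZMod M) = ((d i : ℤ) : ZMod M) := congrFun hcd i
      rw [ZMod.intCast_eq_intCast_iff'] at h3
      rwa [Int.emod_eq_of_lt h1.1 h1.2, Int.emod_eq_of_lt h2.1 h2.2] at h3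
    · intro x _
      refine ⟨fun i => ((x i).val : ℤ), ?_, ?_⟩
      · rw [Fintype.mem_piFinset]
        intro i
        rw [Finset.mem_Ico]
        exact ⟨by positivity, by exact_mod_cast ZMod.val_lt (x i)⟩
      · funext i
        simp
    · intro c _
      rw [← Finset.prod_coe_sort]
      refine Finset.prod_congr rfl (fun q _ => ?_)
      rw [hψ2]
  have hnv : ∀ q : Pr K, (0 : ℝ) < nv q := by
    intro q
    rw [← E2card q]
    exact_mod_cast Fintype.card_pos
  rw [k1, k2, k3, Fintype.card_fun, ZMod.card] at key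
  rw [Finset.prod_div_distrib, ← mul_div_assoc, eq_div_iff (Finset.prod_pos (fun q _ => hnv q)).ne']
  rw [Nat.cast_prod, Finset.prod_coe_sort P (fun q => (nv q : ℝ)), Nat.cast_pow,
    Finset.prod_coe_sort P (fun q => ∑ y, h q y)] at key
  exact key

/-- the count of nonzero elements of given sign -/
theorem E2sq {K : Type} [Field K] [NumberField K] (q : Pr K) (h2 : (2 : 𝓞 K) ∉ q.asIdeal)
    (ε : ℤˣ) [DecidablePred (fun y : 𝓞 K ⧸ q.asIdeal => IsSquare y)]
    [DecidableEq (𝓞 K ⧸ q.asIdeal)] :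
    ∑ y : 𝓞 K ⧸ q.asIdeal, (if y ≠ 0 ∧ (if IsSquare y then (1 : ℤˣ) else -1) = ε then (1 : ℝ) else 0)
      = ((nv q : ℝ) - 1) / 2 := by
  have := q.isMaximal
  let _ : Field (𝓞 K ⧸ q.asIdeal) := Ideal.Quotient.field q.asIdeal
  have hr : ringChar (𝓞 K ⧸ q.asIdeal) ≠ 2 := by
    intro hr
    apply h2
    rw [← Ideal.Quotient.eq_zero_iff_mem]
    have := ringChar.spec (𝓞 K ⧸ q.asIdeal) 2
    rw [hr] at this
    have h3 := this.2 dvd_rfl
    rw [map_ofNat]
    exact_mod_cast h3
  have h0 := quadraticChar_sum_zero (F := 𝓞 K ⧸ q.asIdeal) hr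
  have h0' : ∑ y : 𝓞 K ⧸ q.asIdeal, (quadraticChar (𝓞 K ⧸ q.asIdeal) y : ℝ) = 0 := by
    exact_mod_cast h0
  have h1 : ∑ y : 𝓞 K ⧸ q.asIdeal, (if y ≠ 0 then (1 : ℝ) else 0) = (nv q : ℝ) - 1 := by
    rw [← E2card q]
    have : ∀ y : 𝓞 K ⧸ q.asIdeal, (if y ≠ 0 then (1 : ℝ) else 0) = 1 - (if y = 0 then (1 : ℝ) else 0) := by
      intro y
      by_cases hy : y = 0 <;> simp [hy]
    rw [Finset.sum_congr rfl (fun y _ => this y), Finset.sum_sub_distrib]
    simp
  have h4 : ∀ y : 𝓞 K ⧸ q.asIdeal,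
      (if y ≠ 0 ∧ (if IsSquare y then (1 : ℤˣ) else -1) = ε then (1 : ℝ) else 0) =
      ((if y ≠ 0 then (1 : ℝ) else 0) + ((ε : ℤ) : ℝ) * (quadraticChar (𝓞 K ⧸ q.asIdeal) y : ℝ)) / 2 := by
    intro y
    rw [quadraticChar_apply, quadraticCharFun]
    rcases Int.units_eq_one_or ε with rfl | rfl
    · by_cases hy : y = 0
      · simp [hy]
      · by_cases hsq : IsSquare y
        · simp [hy, hsq]
        · simp [hy, hsq]
    · by_cases hy : y = 0
      · simp [hy]
      · by_cases hsq : IsSquare y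
        · simp [hy, hsq]
        · simp [hy, hsq]
  rw [Finset.sum_congr rfl (fun y _ => h4 y), ← Finset.sum_div, Finset.sum_add_distrib,
    ← Finset.mul_sum, h0', h1]
  ring

theorem crt_sum {K : Type} [Field K] [NumberField K] {ι : Type} [Fintype ι] [DecidableEq ι]
    (b : Module.Basis ι ℤ (𝓞 K)) {J : Type} [Fintype J] (C : ℕ) (Q : J → Finset (Pr K))
    (g : J → (Pr K → ℤˣ) → ℝ) (hQ : QG C Q g) (D : Finset (Pr K))
    (hD : ∀ j, Disjoint D (Q j)) (M : ℕ) (hM : 0 < M)
    (hMD : ∀ q ∈ D, ((M : ℕ) : 𝓞 K) ∈ q.asIdeal)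
    (hMQ : ∀ j, ∀ q ∈ Q j, ((M : ℕ) : 𝓞 K) ∈ q.asIdeal) :
    ∑ c ∈ Fintype.piFinset (fun _ : ι => Finset.Ico (0 : ℤ) M), gf Q g D (el b c) =
      (M : ℝ) ^ (Fintype.card ι) * gW Q g D := by
  classical
  -- signs
  let E : (J → Finset (Pr K)) → Pr K → ℤˣ := fun A q => if ∃ j, q ∈ A j then -1 else 1
  let P : Finset (Pr K) := D ∪ Finset.univ.biUnion Q
  have hDP : Disjoint D (Finset.univ.biUnion Q) := by
    rw [Finset.disjoint_biUnion_right]
    exact fun j _ => hD j
  have hP : ∀ q ∈ P, ((M : ℕ) : 𝓞 K) ∈ q.asIdeal := by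
    intro q hq
    rcases Finset.mem_union.1 hq with h | h
    · exact hMD q h
    · obtain ⟨j, _, hj⟩ := Finset.mem_biUnion.1 h
      exact hMQ j q hj
  let h : (J → Finset (Pr K)) → ∀ q : Pr K, (𝓞 K ⧸ q.asIdeal) → ℝ := fun A q y =>
    if q ∈ D then (if y = 0 then 1 else 0)
    else (if y ≠ 0 ∧ (if IsSquare y then (1 : ℤˣ) else -1) = E A q then 1 else 0)
  -- product over `P`
  have hprod : ∀ F : Pr K → ℝ, ∏ q ∈ P, F q = (∏ q ∈ D, F q) * ∏ j, ∏ q ∈ Q j, F q := by
    intro F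
    rw [Finset.prod_union hDP, Finset.prod_biUnion]
    intro j _ j' _ hjj
    exact hQ.disj j j' hjj
  have hQD : ∀ j, ∀ q ∈ Q j, q ∉ D := fun j q hq hqD =>
    Finset.disjoint_left.1 (hD j) hqD hq
  -- expansion of `g j`
  have hE : ∀ A ∈ Fintype.piFinset (fun j => (Q j).powerset), ∀ j, ∀ q ∈ Q j,
      E A q = if q ∈ A j then -1 else 1 := by
    intro A hA j q hq
    have hiff : (∃ j', q ∈ A j') ↔ q ∈ A j := by
      constructor
      · rintro ⟨j', hj'⟩
        by_cases hjj : j = j'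
        · rw [hjj]; exact hj'
        · exfalso
          have h1 := Finset.mem_powerset.1 (Fintype.mem_piFinset.1 hA j') hj'
          exact Finset.disjoint_left.1 (hQ.disj j j' hjj) hq h1
      · intro hj
        exact ⟨j, hj⟩
    change (if ∃ j', q ∈ A j' then (-1 : ℤˣ) else 1) = _
    rw [if_congr hiff rfl rfl]
  have hexp : ∀ (j : J) (a : 𝓞 K),
      (if ∀ q ∈ Q j, a ∉ q.asIdeal then g j (fun q => sg q a) else 0) =
      ∑ A ∈ (Q j).powerset, g j (fun q => if q ∈ A then -1 else 1) *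
        ∏ q ∈ Q j, (if a ∉ q.asIdeal ∧ sg q a = (if q ∈ A then -1 else 1) then (1 : ℝ) else 0) := by
    intro j a
    by_cases ha : ∀ q ∈ Q j, a ∉ q.asIdeal
    · rw [if_pos ha]
      rw [Finset.sum_eq_single ((Q j).filter (fun q => sg q a = -1))]
      · rw [Finset.prod_eq_one, mul_one]
        · apply hQ.loc
          intro q hq
          by_cases hs : sg q a = -1
          · simp [hq, hs]
          · have : sg q a = 1 := (Int.units_eq_one_or _).resolve_right hs
            simp [this]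
        · intro q hq
          rw [if_pos]
          refine ⟨ha q hq, ?_⟩
          by_cases hs : sg q a = -1
          · simp [hq, hs]
          · have : sg q a = 1 := (Int.units_eq_one_or _).resolve_right hs
            simp [this]
      · intro A hA hne
        rw [Finset.mem_powerset] at hA
        have hex : ∃ q ∈ Q j, ¬ (a ∉ q.asIdeal ∧ sg q a = (if q ∈ A then -1 else 1)) := by
          by_contra hcon
          push Not at hcon
          apply hne
          ext q
          rw [Finset.mem_filter]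
          constructor
          · intro hq
            refine ⟨hA hq, ?_⟩
            rw [(hcon q (hA hq)).2, if_pos hq]
          · rintro ⟨hq, hs⟩
            by_contra hqA
            rw [(hcon q hq).2, if_neg hqA] at hs
            exact absurd hs (by decide)
        obtain ⟨q, hq, hq2⟩ := hex
        rw [Finset.prod_eq_zero hq (if_neg hq2), mul_zero]
      · intro hne
        exact absurd (Finset.mem_powerset.2 (Finset.filter_subset _ _)) hne
    · rw [if_neg ha]
      push Not at ha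
      obtain ⟨q, hq, hqa⟩ := ha
      symm
      apply Finset.sum_eq_zero
      intro A _
      rw [Finset.prod_eq_zero hq, mul_zero]
      rw [if_neg]
      exact fun h => h.1 hqa
  -- expansion of `gf`
  have hgf : ∀ a : 𝓞 K, gf Q g D a = ∑ A ∈ Fintype.piFinset (fun j => (Q j).powerset),
      (∏ j, g j (fun q => if q ∈ A j then -1 else 1)) *
        ∏ q ∈ P, h A q (Ideal.Quotient.mk q.asIdeal a) := by
    intro a
    have e1 : gf Q g D a = (∏ q ∈ D, (if a ∈ q.asIdeal then (1 : ℝ) else 0)) *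
        ∏ j, (if ∀ q ∈ Q j, a ∉ q.asIdeal then g j (fun q => sg q a) else 0) := by
      rw [gf]
      by_cases h1 : ∀ q ∈ D, a ∈ q.asIdeal
      · rw [Finset.prod_eq_one (s := D) (fun q hq => if_pos (h1 q hq)), one_mul]
        by_cases h2 : ∀ j, ∀ q ∈ Q j, a ∉ q.asIdeal
        · rw [if_pos ⟨h1, h2⟩]
          exact Finset.prod_congr rfl (fun j _ => (if_pos (h2 j)).symm)
        · rw [if_neg (fun hh => h2 hh.2)]
          obtain ⟨j, hj⟩ := not_forall.1 h2
          exact (Finset.prod_eq_zero (Finset.mem_univ j) (if_neg hj)).symm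
      · rw [if_neg (fun hh => h1 hh.1)]
        push Not at h1
        obtain ⟨q, hq, hqa⟩ := h1
        rw [Finset.prod_eq_zero hq (if_neg hqa), zero_mul]
    rw [e1, Finset.prod_congr rfl (fun j _ => hexp j a), Finset.prod_univ_sum, Finset.mul_sum]
    refine Finset.sum_congr rfl (fun A hA => ?_)
    rw [hprod, Finset.prod_mul_distrib]
    have e2 : ∏ q ∈ D, h A q (Ideal.Quotient.mk q.asIdeal a) =
        ∏ q ∈ D, (if a ∈ q.asIdeal then (1 : ℝ) else 0) := by
      refine Finset.prod_congr rfl (fun q hq => ?_)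
      change (if q ∈ D then _ else _) = _
      rw [if_pos hq, if_congr Ideal.Quotient.eq_zero_iff_mem rfl rfl]
    have e3 : ∏ j, ∏ q ∈ Q j, h A q (Ideal.Quotient.mk q.asIdeal a) =
        ∏ j, ∏ q ∈ Q j, (if a ∉ q.asIdeal ∧ sg q a = (if q ∈ A j then -1 else 1) then (1 : ℝ) else 0) := by
      refine Finset.prod_congr rfl (fun j _ => Finset.prod_congr rfl (fun q hq => ?_))
      change (if q ∈ D then _ else _) = _
      rw [if_neg (hQD j q hq), hE A hA j q hq]
      refine if_congr ?_ rfl rfl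
      rw [Ne, Ideal.Quotient.eq_zero_iff_mem, sg]
      congr!
    rw [e2, e3]
    ring
  rw [Finset.sum_congr rfl (fun c _ => hgf (el b c)), Finset.sum_comm]
  have hs1 : ∀ A ∈ Fintype.piFinset (fun j => (Q j).powerset),
      ∑ c ∈ Fintype.piFinset (fun _ : ι => Finset.Ico (0 : ℤ) M),
      (∏ j, g j (fun q => if q ∈ A j then -1 else 1)) *
        ∏ q ∈ P, h A q (Ideal.Quotient.mk q.asIdeal (el b c)) =
      (∏ j, g j (fun q => if q ∈ A j then -1 else 1)) * ((M : ℝ) ^ (Fintype.card ι) *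
        ((∏ q ∈ D, ((nv q : ℝ))⁻¹) * ∏ j, ∏ q ∈ Q j, ((1 - ((nv q : ℝ))⁻¹) / 2))) := by
    intro A hA
    rw [← Finset.mul_sum, E2prod b M hM P hP (h A), hprod]
    have hnv : ∀ q : Pr K, (0 : ℝ) < nv q := by
      intro q
      rw [← E2card q]
      exact_mod_cast Fintype.card_pos
    have e2 : ∏ q ∈ D, ((∑ y, h A q y) / (nv q : ℝ)) = ∏ q ∈ D, ((nv q : ℝ))⁻¹ := by
      refine Finset.prod_congr rfl (fun q hq => ?_)
      have : ∑ y, h A q y = 1 := by
        rw [Finset.sum_congr rfl (fun y _ => (if_pos hq : h A q y = if y = 0 then 1 else 0))]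
        simp
      rw [this, one_div]
    have e3 : ∏ j, ∏ q ∈ Q j, ((∑ y, h A q y) / (nv q : ℝ)) =
        ∏ j, ∏ q ∈ Q j, ((1 - ((nv q : ℝ))⁻¹) / 2) := by
      refine Finset.prod_congr rfl (fun j _ => Finset.prod_congr rfl (fun q hq => ?_))
      have e4 : ∑ y, h A q y = ((nv q : ℝ) - 1) / 2 := by
        rw [← E2sq q (hQ.two j q hq) (E A q)]
        exact Finset.sum_congr rfl (fun y _ => if_neg (hQD j q hq))
      rw [e4]
      have := (hnv q).ne'
      field_simp
    rw [e2, e3]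
  rw [Finset.sum_congr rfl hs1, ← Finset.sum_mul, gW]
  have hav : ∏ j, ((∏ q ∈ Q j, (1 - ((nv q : ℝ))⁻¹)) * avg (Q j) (g j) 1) =
      (∑ A ∈ Fintype.piFinset (fun j => (Q j).powerset),
        ∏ j, g j (fun q => if q ∈ A j then -1 else 1)) *
        ∏ j, ∏ q ∈ Q j, ((1 - ((nv q : ℝ))⁻¹) / 2) := by
    rw [← Finset.prod_univ_sum (fun j => (Q j).powerset) (fun j A => g j (fun q => if q ∈ A then -1 else 1)),
      ← Finset.prod_mul_distrib]
    refine Finset.prod_congr rfl (fun j _ => ?_)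
    rw [avg, Finset.prod_div_distrib, Finset.prod_const]
    have : ∀ A : Finset (Pr K), g j (fun q => if q ∈ A then -(1 : Pr K → ℤˣ) q else (1 : Pr K → ℤˣ) q) =
        g j (fun q => if q ∈ A then -1 else 1) := fun A => rfl
    rw [Finset.sum_congr rfl (fun A _ => this A)]
    ring
  rw [hav]
  ring

end SC5
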