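import Pool.Agent.MP_c1dca2_ag.SC5.E1
import Pool.Agent.MP_c1dca2_ag.SC5.E2

/-!
# [SC5-E3] the sum over a box

`M = (∏_{q ∈ D} nv q) * ∏_j ∏_{q ∈ Q j} nv q` lies in all the `q` (`nv_mem`), is positive, and `gf Q g D (el b c)` is
periodic modulo `M` (`el b (c + M d) - el b c = M · el b d` lies in all the `q`, so divisibility by `q` and `sg q` do
not change; `hQ.loc`) and nonnegative. Combine `class_count` and `crt_sum`:
`((2B+1)/M)^n M^n gW = (2B+1)^n gW`.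
-/

set_option autoImplicit false

open NumberField IsDedekindDomain

namespace SC5

private theorem E3_avg_nonneg {X : Type} (Q : Finset X) (g : (X → ℤˣ) → ℝ) (hg : ∀ e, 0 ≤ g e)
    (e : X → ℤˣ) : 0 ≤ avg Q g e := by
  unfold avg
  exact div_nonneg (Finset.sum_nonneg fun A _ => hg _) (by positivity)

private theorem E3_sg {K : Type} [Field K] [NumberField K] (q : Pr K) (a a' : 𝓞 K)
    (h : a - a' ∈ q.asIdeal) : sg q a = sg q a' := by
  unfold sg
  rw [(Ideal.Quotient.mk_eq_mk_iff_sub_mem a a').mpr h]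

private theorem E3_mem {K : Type} [Field K] [NumberField K] (q : Pr K) (a a' : 𝓞 K)
    (h : a - a' ∈ q.asIdeal) : a ∈ q.asIdeal ↔ a' ∈ q.asIdeal := by
  constructor
  · intro ha
    have := q.asIdeal.sub_mem ha h
    simpa using this
  · intro ha
    have := q.asIdeal.add_mem ha h
    simpa using this

private theorem E3_gf {K : Type} [Field K] [NumberField K] {J : Type} [Fintype J] (C : ℕ)
    (Q : J → Finset (Pr K)) (g : J → (Pr K → ℤˣ) → ℝ) (hQ : QG C Q g) (D : Finset (Pr K))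
    (a a' : 𝓞 K) (hD : ∀ q ∈ D, a - a' ∈ q.asIdeal) (hJ : ∀ j, ∀ q ∈ Q j, a - a' ∈ q.asIdeal) :
    gf Q g D a = gf Q g D a' := by
  unfold gf
  have h1 : ((∀ q ∈ D, a ∈ q.asIdeal) ∧ ∀ j, ∀ q ∈ Q j, a ∉ q.asIdeal) ↔
      ((∀ q ∈ D, a' ∈ q.asIdeal) ∧ ∀ j, ∀ q ∈ Q j, a' ∉ q.asIdeal) := by
    refine and_congr ?_ ?_
    · exact forall₂_congr fun q hq => E3_mem q a a' (hD q hq)
    · exact forall_congr' fun j => forall₂_congr fun q hq => not_congr (E3_mem q a a' (hJ j q hq))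
  have h2 : ∏ j, g j (fun q => sg q a) = ∏ j, g j (fun q => sg q a') :=
    Finset.prod_congr rfl fun j _ => hQ.loc j _ _ fun q hq => E3_sg q a a' (hJ j q hq)
  by_cases h : (∀ q ∈ D, a ∈ q.asIdeal) ∧ ∀ j, ∀ q ∈ Q j, a ∉ q.asIdeal
  · rw [if_pos h, if_pos (h1.mp h), h2]
  · rw [if_neg h, if_neg (fun h' => h (h1.mpr h'))]

private theorem E3_gf_nonneg {K : Type} [Field K] [NumberField K] {J : Type} [Fintype J] (C : ℕ)
    (Q : J → Finset (Pr K)) (g : J → (Pr K → ℤˣ) → ℝ) (hQ : QG C Q g) (D : Finset (Pr K))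
    (a : 𝓞 K) : 0 ≤ gf Q g D a := by
  unfold gf
  split_ifs
  · exact Finset.prod_nonneg fun j _ => hQ.nonneg j _
  · exact le_rfl

theorem gW_nonneg {K : Type} [Field K] [NumberField K] {J : Type} [Fintype J] (C : ℕ)
    (Q : J → Finset (Pr K)) (g : J → (Pr K → ℤˣ) → ℝ) (hQ : QG C Q g) (D : Finset (Pr K)) :
    0 ≤ gW Q g D := by
  unfold gW
  refine mul_nonneg (Finset.prod_nonneg fun q _ => by positivity)
    (Finset.prod_nonneg fun j _ => mul_nonneg (Finset.prod_nonneg fun q _ => ?_)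
      (E3_avg_nonneg _ _ (hQ.nonneg j) _))
  have h2 : (1 : ℝ) ≤ nv q := by exact_mod_cast (by have := two_le_nv q; omega : 1 ≤ nv q)
  exact sub_nonneg.mpr (inv_le_one_of_one_le₀ h2)

theorem box_sum {K : Type} [Field K] [NumberField K] {ι : Type} [Fintype ι] [DecidableEq ι]
    (b : Module.Basis ι ℤ (𝓞 K)) {J : Type} [Fintype J] (C : ℕ) (Q : J → Finset (Pr K))
    (g : J → (Pr K → ℤˣ) → ℝ) (hQ : QG C Q g) (D : Finset (Pr K))
    (hD : ∀ j, Disjoint D (Q j)) (B : ℕ)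
    (hB : (∏ q ∈ D, nv q) * ∏ j, ∏ q ∈ Q j, nv q ≤ 2 * B + 1) :
    |∑ c ∈ Fintype.piFinset (fun _ : ι => Finset.Icc (-(B : ℤ)) B), gf Q g D (el b c) -
        (2 * B + 1 : ℝ) ^ (Fintype.card ι) * gW Q g D| ≤
      2 ^ (Fintype.card ι) * (((∏ q ∈ D, nv q) * ∏ j, ∏ q ∈ Q j, nv q : ℕ) / (2 * B + 1 : ℝ)) *
        ((2 * B + 1 : ℝ) ^ (Fintype.card ι) * gW Q g D) := by
  classical
  set M : ℕ := (∏ q ∈ D, nv q) * ∏ j, ∏ q ∈ Q j, nv q with hMdef
  have hpos : ∀ q : Pr K, 0 < nv q := fun q => by have := two_le_nv q; omega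
  have hM : 0 < M := by
    rw [hMdef]
    exact Nat.mul_pos (Finset.prod_pos fun q _ => hpos q)
      (Finset.prod_pos fun j _ => Finset.prod_pos fun q _ => hpos q)
  have hdvd : ∀ q : Pr K, nv q ∣ M → ((M : ℕ) : 𝓞 K) ∈ q.asIdeal := by
    rintro q ⟨t, ht⟩
    rw [ht, Nat.cast_mul]
    exact q.asIdeal.mul_mem_right _ (nv_mem q)
  have hMD : ∀ q ∈ D, ((M : ℕ) : 𝓞 K) ∈ q.asIdeal := fun q hq =>
    hdvd q ((Finset.dvd_prod_of_mem _ hq).trans (Dvd.intro _ rfl))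
  have hMQ : ∀ j, ∀ q ∈ Q j, ((M : ℕ) : 𝓞 K) ∈ q.asIdeal := fun j q hq =>
    hdvd q (((Finset.dvd_prod_of_mem _ hq).trans
      (Finset.dvd_prod_of_mem (fun j => ∏ q ∈ Q j, nv q) (Finset.mem_univ j))).trans
        (Dvd.intro_left _ rfl))
  have hel : ∀ c d : ι → ℤ, el b (fun i => c i + M * d i) - el b c = ((M : ℕ) : 𝓞 K) * el b d := by
    intro c d
    unfold el
    rw [← Finset.sum_sub_distrib, Finset.mul_sum]
    refine Finset.sum_congr rfl fun i _ => ?_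
    simp only [zsmul_eq_mul]
    push_cast
    ring
  have hper : ∀ c d : ι → ℤ,
      gf Q g D (el b (fun i => c i + M * d i)) = gf Q g D (el b c) := by
    intro c d
    refine E3_gf C Q g hQ D _ _ ?_ ?_
    · intro q hq
      rw [hel]
      exact q.asIdeal.mul_mem_right _ (hMD q hq)
    · intro j q hq
      rw [hel]
      exact q.asIdeal.mul_mem_right _ (hMQ j q hq)
  have key := class_count (ι := ι) M B hM hB (fun c => gf Q g D (el b c))
    (fun c => E3_gf_nonneg C Q g hQ D _) hper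
  rw [crt_sum b C Q g hQ D hD M hM hMD hMQ] at key
  have hM' : (M : ℝ) ≠ 0 := by exact_mod_cast hM.ne'
  have e1 : ((2 * B + 1 : ℝ) / M) ^ (Fintype.card ι) * ((M : ℝ) ^ (Fintype.card ι) * gW Q g D) =
      (2 * B + 1 : ℝ) ^ (Fintype.card ι) * gW Q g D := by
    rw [← mul_assoc, ← mul_pow, div_mul_cancel₀ _ hM']
  rw [e1] at key
  exact key

end SC5
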