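import Mathlib

/-!
# [SC5-E4] Brun's pure sieve: the combinatorial part

`bonf`: if `A = ∅` the sum is `1`. Otherwise, with `m = #A ≥ 1`, the sum over the subsets of size at most `2 h` is
`∑_{j ≤ 2h} (-1)^j C(m, j) = C(m - 1, 2 h) ≥ 0` (`Int.alternating_sum_range_choose_of_ne` and similar; or induction on
`h`: `∑_{j ≤ l} (-1)^j C(m, j) = (-1)^l C(m-1, l)` by Pascal's rule).

`tail`: the full alternating sum is `∏ (1 - x q)` (`Finset.prod_one_sub` / `Finset.prod_sub`), and the subsets of size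
larger than `2 h` contribute in absolute value at most
`∑_{D} e^(#D - 2h) ∏_{D} x q = e^(-2h) ∏ (1 + e x q) ≤ e^(-2h) exp (e ∑ x q) ≤ exp (-2h + 3 ∑ x q)`.
-/

set_option autoImplicit false

namespace SC5

theorem e4_alt_sum (m : ℕ) : ∀ l : ℕ, ∑ j ∈ Finset.range (l + 1), (-1 : ℝ) ^ j * ((m + 1).choose j : ℝ) =
    (-1 : ℝ) ^ l * (m.choose l : ℝ) := by
  intro l
  induction l with
  | zero => simp
  | succ l ih =>
    rw [Finset.sum_range_succ, ih, Nat.choose_succ_succ]
    push_cast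
    ring

theorem e4_sum_small {X : Type} [DecidableEq X] (A : Finset X) (m : ℕ) (f : ℕ → ℝ) :
    ∑ D ∈ A.powerset.filter (fun D => D.card ≤ m), f D.card =
      ∑ j ∈ Finset.range (m + 1), (A.card.choose j : ℝ) * f j := by
  have h : A.powerset.filter (fun D => D.card ≤ m) =
      (Finset.range (m + 1)).biUnion (fun j => A.powersetCard j) := by
    ext D
    simp only [Finset.mem_filter, Finset.mem_powerset, Finset.mem_biUnion, Finset.mem_range,
      Finset.mem_powersetCard]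
    constructor
    · rintro ⟨h1, h2⟩
      exact ⟨D.card, by omega, h1, rfl⟩
    · rintro ⟨j, hj, h1, h2⟩
      exact ⟨h1, by omega⟩
  rw [h, Finset.sum_biUnion]
  · refine Finset.sum_congr rfl fun j _ => ?_
    rw [Finset.sum_congr rfl (g := fun _ => f j) fun D hD => by
      rw [(Finset.mem_powersetCard.1 hD).2]]
    rw [Finset.sum_const, Finset.card_powersetCard, nsmul_eq_mul]
  · intro i _ j _ hij
    exact Finset.pairwise_disjoint_powersetCard A hij

theorem bonf {X : Type} [DecidableEq X] (A : Finset X) (h : ℕ) :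
    (if A = ∅ then (1 : ℝ) else 0) ≤
      ∑ D ∈ A.powerset.filter (fun D => D.card ≤ 2 * h), (-1 : ℝ) ^ D.card := by
  rw [e4_sum_small A (2 * h) (fun j => (-1 : ℝ) ^ j)]
  split_ifs with hA
  · subst hA
    rw [Finset.sum_eq_single 0]
    · simp
    · intro j _ hj
      obtain ⟨k, rfl⟩ := Nat.exists_eq_succ_of_ne_zero hj
      simp
    · simp
  · have hc : A.card ≠ 0 := fun h => hA (Finset.card_eq_zero.1 h)
    obtain ⟨m, hm⟩ := Nat.exists_eq_succ_of_ne_zero hc
    rw [hm]
    have := e4_alt_sum m (2 * h)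
    rw [Finset.sum_congr rfl fun j _ => mul_comm _ _] at this
    rw [Nat.succ_eq_add_one, this]
    rw [pow_mul]
    simp

theorem tail {X : Type} [DecidableEq X] (A : Finset X) (h : ℕ) (x : X → ℝ)
    (hx : ∀ q ∈ A, 0 ≤ x q) :
    ∑ D ∈ A.powerset.filter (fun D => D.card ≤ 2 * h), (-1 : ℝ) ^ D.card * ∏ q ∈ D, x q ≤
      ∏ q ∈ A, (1 - x q) + Real.exp (-(2 * h : ℝ) + 3 * ∑ q ∈ A, x q) := by
  have h1 : ∏ q ∈ A, (1 - x q) = ∑ D ∈ A.powerset, (-1 : ℝ) ^ D.card * ∏ q ∈ D, x q := by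
    rw [Finset.prod_sub]
    refine Finset.sum_congr rfl fun D _ => ?_
    simp
  have h2 : ∑ D ∈ A.powerset, (-1 : ℝ) ^ D.card * ∏ q ∈ D, x q =
      ∑ D ∈ A.powerset.filter (fun D => D.card ≤ 2 * h), (-1 : ℝ) ^ D.card * ∏ q ∈ D, x q +
      ∑ D ∈ A.powerset.filter (fun D => ¬ D.card ≤ 2 * h), (-1 : ℝ) ^ D.card * ∏ q ∈ D, x q :=
    (Finset.sum_filter_add_sum_filter_not _ _ _).symm
  have hpos : ∀ D ∈ A.powerset, 0 ≤ ∏ q ∈ D, x q := by
    intro D hD
    exact Finset.prod_nonneg fun q hq => hx q (Finset.mem_powerset.1 hD hq)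
  have h3 : -∑ D ∈ A.powerset.filter (fun D => ¬ D.card ≤ 2 * h), (-1 : ℝ) ^ D.card * ∏ q ∈ D, x q ≤
      ∑ D ∈ A.powerset, Real.exp (D.card - 2 * h) * ∏ q ∈ D, x q := by
    rw [← Finset.sum_neg_distrib]
    refine le_trans ?_ (Finset.sum_le_sum_of_subset_of_nonneg
      (Finset.filter_subset (fun D => ¬ D.card ≤ 2 * h) _) ?_)
    · refine Finset.sum_le_sum fun D hD => ?_
      rw [Finset.mem_filter] at hD
      have hp := hpos D hD.1
      have he : 1 ≤ Real.exp ((D.card : ℝ) - 2 * h) := by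
        rw [← Real.exp_zero]
        apply Real.exp_le_exp.2
        have : 2 * h < D.card := not_le.1 hD.2
        have : (2 * h : ℝ) < D.card := by exact_mod_cast this
        linarith
      have ha : -((-1 : ℝ) ^ D.card) ≤ 1 := by
        rcases neg_one_pow_eq_or ℝ D.card with h | h <;> rw [h] <;> norm_num
      calc -((-1 : ℝ) ^ D.card * ∏ q ∈ D, x q) = -((-1 : ℝ) ^ D.card) * ∏ q ∈ D, x q := by ring
        _ ≤ 1 * ∏ q ∈ D, x q := mul_le_mul_of_nonneg_right ha hp
        _ ≤ Real.exp ((D.card : ℝ) - 2 * h) * ∏ q ∈ D, x q := mul_le_mul_of_nonneg_right he hp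
    · intro D hD _
      exact mul_nonneg (Real.exp_pos _).le (hpos D hD)
  have h4 : ∑ D ∈ A.powerset, Real.exp ((D.card : ℝ) - 2 * h) * ∏ q ∈ D, x q =
      Real.exp (-(2 * h : ℝ)) * ∏ q ∈ A, (1 + Real.exp 1 * x q) := by
    rw [Finset.prod_one_add, Finset.mul_sum]
    refine Finset.sum_congr rfl fun D _ => ?_
    rw [Finset.prod_mul_distrib, Finset.prod_const, ← Real.exp_nat_mul, mul_one, ← mul_assoc,
      ← Real.exp_add]
    congr 2
    ring
  have h5 : ∏ q ∈ A, (1 + Real.exp 1 * x q) ≤ Real.exp (3 * ∑ q ∈ A, x q) := by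
    rw [Finset.mul_sum, Real.exp_sum]
    refine Finset.prod_le_prod (fun q hq => ?_) fun q hq => ?_
    · have := hx q hq
      positivity
    · have h0 := hx q hq
      have h1 : Real.exp 1 < 3 := by
        have := Real.exp_one_lt_d9
        linarith
      calc 1 + Real.exp 1 * x q ≤ 1 + 3 * x q := by nlinarith
        _ = 3 * x q + 1 := by ring
        _ ≤ Real.exp (3 * x q) := Real.add_one_le_exp _
  have h6 : Real.exp (-(2 * h : ℝ)) * ∏ q ∈ A, (1 + Real.exp 1 * x q) ≤
      Real.exp (-(2 * h : ℝ) + 3 * ∑ q ∈ A, x q) := by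
    rw [Real.exp_add]
    exact mul_le_mul_of_nonneg_left h5 (Real.exp_pos _).le
  rw [h1, h2]
  linarith

/-- The number of small subsets. -/
theorem card_small {X : Type} [DecidableEq X] (A : Finset X) (m : ℕ) :
    (A.powerset.filter (fun D => D.card ≤ m)).card ≤ (A.card + 1) ^ m := by
  have h := e4_sum_small A m (fun _ => 1)
  simp only [Finset.sum_const, nsmul_eq_mul, mul_one] at h
  have h2 : (A.powerset.filter (fun D => D.card ≤ m)).card =
      ∑ j ∈ Finset.range (m + 1), A.card.choose j := by exact_mod_cast h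
  rw [h2, add_pow]
  refine Finset.sum_le_sum fun j hj => ?_
  rw [one_pow, mul_one]
  have h3 : 1 ≤ m.choose j := Nat.choose_pos (by
    rw [Finset.mem_range] at hj
    omega)
  calc A.card.choose j ≤ A.card ^ j := Nat.choose_le_pow _ _
    _ = A.card ^ j * 1 := (mul_one _).symm
    _ ≤ A.card ^ j * m.choose j := Nat.mul_le_mul_left _ h3

end SC5
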