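import Pool.Agent.MP_c1dca2_ag.SC5.E3
import Pool.Agent.MP_c1dca2_ag.SC5.A3

/-!
# [SC5-E5] primes as elements of a box without small prime factors

Map `w ∈ T` to the coordinate vector `c w` of `al w` (`Module.Basis.repr`; `el basis (c w) = al w`). It lies in the
box: `|c i|^n ≤ nv w ≤ Y < (B+1)^n` (`hal.co`; `n = finrank ℚ K ≥ 1`). The map is injective: if `al w = al w'` then
`al w ∈ w'` (`hal.mem`), so `w' = w` or `nv w' ≤ C` (`hal.oth`), and `nv w' > y ≥ C`. No `q ∈ 𝒬` contains `al w`:
otherwise `q = w` or `nv q ≤ C`; but `C < nv q ≤ y < nv w`. No `q ∈ Q j` contains `al w`: otherwise `q = w` (excluded: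
`w ∉ Q j`) or `nv q ≤ C` (excluded: `hQ.large`). So the summand at `c w` on the right is
`gf Q g ∅ (al w) = ∏_j g j (sg · (al w))`. All summands on the right are nonnegative.
-/

set_option autoImplicit false

open NumberField IsDedekindDomain

namespace SC5

open scoped Classical in
theorem pick {K : Type} [Field K] [NumberField K] (al : Pr K → 𝓞 K) (C : ℕ) (hal : Gen al C)
    {J : Type} [Fintype J] (Q : J → Finset (Pr K)) (g : J → (Pr K → ℤˣ) → ℝ) (hQ : QG C Q g)
    (y Y B : ℕ) (hCy : C ≤ y) (hYB : Y < (B + 1) ^ (Module.finrank ℚ K)) (Z : Finset (Pr K))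
    (hZ : ∀ q ∈ Z, C < nv q ∧ nv q ≤ y) (T : Finset (Pr K))
    (hT : ∀ w ∈ T, y < nv w ∧ nv w ≤ Y ∧ ∀ j, w ∉ Q j) :
    ∑ w ∈ T, ∏ j, g j (fun q => sg q (al w)) ≤
      ∑ c ∈ Fintype.piFinset (fun _ : Module.Free.ChooseBasisIndex ℤ (𝓞 K) =>
        Finset.Icc (-(B : ℤ)) B),
        if ∃ q ∈ Z, el (RingOfIntegers.basis K) c ∈ q.asIdeal then 0
        else gf Q g ∅ (el (RingOfIntegers.basis K) c) := by
  have hel : ∀ w, el (RingOfIntegers.basis K)
      (fun i => (RingOfIntegers.basis K).repr (al w) i) = al w := by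
    intro w
    exact (RingOfIntegers.basis K).sum_repr (al w)
  have hbox : ∀ w ∈ T, (fun i => (RingOfIntegers.basis K).repr (al w) i) ∈
      Fintype.piFinset (fun _ : Module.Free.ChooseBasisIndex ℤ (𝓞 K) =>
        Finset.Icc (-(B : ℤ)) B) := by
    intro w hw
    rw [Fintype.mem_piFinset]
    intro i
    rw [Finset.mem_Icc, ← abs_le]
    by_contra hcon
    push Not at hcon
    have h1 : ((B : ℤ) + 1) ≤ |(RingOfIntegers.basis K).repr (al w) i| := by omega
    have h2 : ((B : ℤ) + 1) ^ (Module.finrank ℚ K) ≤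
        |(RingOfIntegers.basis K).repr (al w) i| ^ (Module.finrank ℚ K) :=
      pow_le_pow_left₀ (by positivity) h1 _
    have h3 := hal.co w i
    have h4 : ((nv w : ℕ) : ℤ) ≤ (Y : ℤ) := by exact_mod_cast (hT w hw).2.1
    have h5 : (Y : ℤ) < ((B : ℤ) + 1) ^ (Module.finrank ℚ K) := by exact_mod_cast hYB
    omega
  have hinj : Set.InjOn (fun w : Pr K => fun i => (RingOfIntegers.basis K).repr (al w) i)
      (T : Set (Pr K)) := by
    intro w hw w' hw' h
    have h1 : al w = al w' := by
      rw [← hel w, ← hel w']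
      exact congrArg _ h
    have h2 : al w ∈ w'.asIdeal := h1 ▸ hal.mem w'
    rcases hal.oth w w' h2 with h3 | h3
    · exact h3.symm
    · have := (hT w' hw').1
      omega
  have hnn : ∀ c, (0 : ℝ) ≤ if ∃ q ∈ Z, el (RingOfIntegers.basis K) c ∈ q.asIdeal then 0
        else gf Q g ∅ (el (RingOfIntegers.basis K) c) := by
    intro c
    split_ifs
    · exact le_rfl
    · unfold gf
      split_ifs
      · exact Finset.prod_nonneg (fun j _ => hQ.nonneg j _)
      · exact le_rfl
  refine le_trans (le_of_eq ?_) (Finset.sum_le_sum_of_subset_of_nonneg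
    (s := T.image (fun w : Pr K => fun i => (RingOfIntegers.basis K).repr (al w) i)) ?_
    (fun c _ _ => hnn c))
  · rw [Finset.sum_image hinj]
    refine Finset.sum_congr rfl (fun w hw => ?_)
    rw [hel w]
    have h1 : ¬ ∃ q ∈ Z, al w ∈ q.asIdeal := by
      rintro ⟨q, hq, h⟩
      have := hZ q hq
      have := (hT w hw).1
      rcases hal.oth w q h with h3 | h3
      · subst h3
        omega
      · omega
    rw [if_neg h1]
    unfold gf
    rw [if_pos]
    refine ⟨by simp, fun j q hq h => ?_⟩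
    rcases hal.oth w q h with h3 | h3
    · subst h3
      exact (hT q hw).2.2 j hq
    · have := hQ.large j q hq
      omega
  · intro c hc
    rw [Finset.mem_image] at hc
    obtain ⟨w, hw, rfl⟩ := hc
    exact hbox w hw

end SC5
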