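import Pool.Agent.MP_c1dca2_ag.SC5.E3
import Pool.Agent.MP_c1dca2_ag.SC5.E4

/-!
# [SC5-E6] Brun's pure sieve in a box

For `c` in the box let `A(c)` be the set of the `q ∈ Z` containing `el b c`. By `bonf` (multiplied with
`gf Q g ∅ (el b c) ≥ 0`) the left side is at most
`∑_c gf Q g ∅ (el b c) ∑_{D ⊆ A(c), #D ≤ 2h} (-1)^#D = ∑_{D ⊆ Z, #D ≤ 2h} (-1)^#D ∑_c gf Q g D (el b c)`
(`gf Q g D a = gf Q g ∅ a` if `a` is divisible by all `q ∈ D`, and `0` otherwise). For such `D` put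
`M_D = ∏_D nv q · M₀`, `M₀ = ∏_j ∏_{Q j} nv q`: `M_D ≤ y^(2h) M₀ ≤ 2B+1` (`y ≥ 1` if `D` is not empty, as
`nv q ≤ y`; for `D = ∅` also `M₀ ≤ 2B+1`: `y^(2h) ≥ 1` if `y ≥ 1`; hypothesis `hy`). By `box_sum` the inner sum is
`(2B+1)^n gW_D` up to an error of at most `2^n (M_D / (2B+1)) (2B+1)^n gW_D`, and
`gW_D = ∏_D (nv q)⁻¹ · gW_∅`. So the error is at most `2^n (M₀ / (2B+1)) (2B+1)^n gW_∅` for every `D`, and there are
at most `(#Z + 1)^(2h)` sets `D` (`card_small`). The main terms sum up to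
`(2B+1)^n gW_∅ ∑ (-1)^#D ∏_D (nv q)⁻¹ ≤ (2B+1)^n gW_∅ (∏_Z (1 - (nv q)⁻¹) + exp (-2h + 3 ∑_Z (nv q)⁻¹))` (`tail`).
Finally `gW_∅ = ∏_j (∏_{Q j} (1 - (nv q)⁻¹)) avg ≤ ∏_j avg` (all factors between `0` and `1`), used for the second and
the third term.
-/

set_option autoImplicit false

open NumberField IsDedekindDomain

namespace SC5

open scoped Classical in
/-- `gf` with divisibility conditions -/
theorem e6_gf {K : Type} [Field K] [NumberField K] {J : Type} [Fintype J]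
    (Q : J → Finset (Pr K)) (g : J → (Pr K → ℤˣ) → ℝ) (D : Finset (Pr K)) (a : 𝓞 K) :
    gf Q g D a = if ∀ q ∈ D, a ∈ q.asIdeal then gf Q g ∅ a else 0 := by
  unfold gf
  by_cases h1 : ∀ q ∈ D, a ∈ q.asIdeal
  · rw [if_pos h1]
    by_cases h2 : ∀ j, ∀ q ∈ Q j, a ∉ q.asIdeal
    · rw [if_pos ⟨h1, h2⟩, if_pos ⟨by simp, h2⟩]
    · rw [if_neg (fun h => h2 h.2), if_neg (fun h => h2 h.2)]
  · rw [if_neg h1, if_neg (fun h => h1 h.1)]

theorem e6_gf_nonneg {K : Type} [Field K] [NumberField K] {J : Type} [Fintype J] (C : ℕ)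
    (Q : J → Finset (Pr K)) (g : J → (Pr K → ℤˣ) → ℝ) (hQ : QG C Q g) (D : Finset (Pr K))
    (a : 𝓞 K) : 0 ≤ gf Q g D a := by
  unfold gf
  split_ifs
  · exact Finset.prod_nonneg fun j _ => hQ.nonneg j _
  · exact le_rfl

open scoped Classical in
/-- the pointwise inequality -/
theorem e6_pointwise {K : Type} [Field K] [NumberField K] {J : Type} [Fintype J] (C : ℕ)
    (Q : J → Finset (Pr K)) (g : J → (Pr K → ℤˣ) → ℝ) (hQ : QG C Q g) (Z : Finset (Pr K))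
    (h : ℕ) (a : 𝓞 K) :
    (if ∃ q ∈ Z, a ∈ q.asIdeal then 0 else gf Q g ∅ a) ≤
      ∑ D ∈ Z.powerset.filter (fun D => D.card ≤ 2 * h), (-1 : ℝ) ^ D.card * gf Q g D a := by
  set A : Finset (Pr K) := Z.filter (fun q => a ∈ q.asIdeal) with hA
  have hg := e6_gf_nonneg C Q g hQ ∅ a
  have hb := bonf A h
  have e1 : (if ∃ q ∈ Z, a ∈ q.asIdeal then 0 else gf Q g ∅ a) =
      (if A = ∅ then (1 : ℝ) else 0) * gf Q g ∅ a := by
    by_cases h1 : ∃ q ∈ Z, a ∈ q.asIdeal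
    · obtain ⟨q, hq, hqa⟩ := h1
      rw [if_pos ⟨q, hq, hqa⟩, if_neg, zero_mul]
      intro h2
      have : q ∈ A := Finset.mem_filter.2 ⟨hq, hqa⟩
      rw [h2] at this
      exact absurd this (Finset.notMem_empty q)
    · rw [if_neg h1, if_pos, one_mul]
      rw [hA, Finset.filter_eq_empty_iff]
      intro q hq hqa
      exact h1 ⟨q, hq, hqa⟩
  have e2 : ∑ D ∈ Z.powerset.filter (fun D => D.card ≤ 2 * h), (-1 : ℝ) ^ D.card * gf Q g D a =
      (∑ D ∈ A.powerset.filter (fun D => D.card ≤ 2 * h), (-1 : ℝ) ^ D.card) * gf Q g ∅ a := by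
    rw [Finset.sum_mul]
    symm
    apply Finset.sum_subset_zero_on_sdiff
    · intro D hD
      rw [Finset.mem_filter, Finset.mem_powerset] at hD ⊢
      exact ⟨hD.1.trans (Finset.filter_subset _ _), hD.2⟩
    · intro D hD
      rw [Finset.mem_sdiff, Finset.mem_filter, Finset.mem_powerset, Finset.mem_filter,
        Finset.mem_powerset] at hD
      obtain ⟨⟨h1, h2⟩, h3⟩ := hD
      rw [e6_gf, if_neg, mul_zero]
      intro h4
      exact h3 ⟨fun q hq => Finset.mem_filter.2 ⟨h1 hq, h4 q hq⟩, h2⟩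
    · intro D hD
      rw [Finset.mem_filter, Finset.mem_powerset] at hD
      rw [e6_gf Q g D, if_pos]
      intro q hq
      exact (Finset.mem_filter.1 (hD.1 hq)).2
  rw [e1, e2]
  exact mul_le_mul_of_nonneg_right hb hg

open scoped Classical in
theorem sieve_bound {K : Type} [Field K] [NumberField K] {ι : Type} [Fintype ι] [DecidableEq ι]
    (b : Module.Basis ι ℤ (𝓞 K)) {J : Type} [Fintype J] (C : ℕ) (Q : J → Finset (Pr K))
    (g : J → (Pr K → ℤˣ) → ℝ) (hQ : QG C Q g) (Z : Finset (Pr K)) (hZ : ∀ j, Disjoint Z (Q j))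
    (y B h : ℕ) (hy : 1 ≤ y) (hZy : ∀ q ∈ Z, nv q ≤ y)
    (hB : (∏ j, ∏ q ∈ Q j, nv q) * y ^ (2 * h) ≤ 2 * B + 1) :
    (∑ c ∈ Fintype.piFinset (fun _ : ι => Finset.Icc (-(B : ℤ)) B),
        if ∃ q ∈ Z, el b c ∈ q.asIdeal then 0 else gf Q g ∅ (el b c)) ≤
      (2 * B + 1 : ℝ) ^ (Fintype.card ι) * (∏ j, avg (Q j) (g j) 1) *
        ((∏ q ∈ Z, (1 - ((nv q : ℝ))⁻¹)) * (∏ j, ∏ q ∈ Q j, (1 - ((nv q : ℝ))⁻¹)) +
          Real.exp (-(2 * h : ℝ) + 3 * ∑ q ∈ Z, ((nv q : ℝ))⁻¹) +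
          2 ^ (Fintype.card ι) * ((∏ j, ∏ q ∈ Q j, nv q : ℕ) : ℝ) * (Z.card + 1) ^ (2 * h) /
            (2 * B + 1)) := by
  set N : ℕ := Fintype.card ι with hN
  set V : ℝ := (2 * B + 1 : ℝ) ^ N with hV
  have hB0 : (0 : ℝ) < 2 * B + 1 := by positivity
  have hV0 : 0 < V := by positivity
  set box := Fintype.piFinset (fun _ : ι => Finset.Icc (-(B : ℤ)) B) with hbox
  set M₀ : ℕ := ∏ j, ∏ q ∈ Q j, nv q with hM₀
  set Fl := Z.powerset.filter (fun D => D.card ≤ 2 * h) with hFl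
  have hnv : ∀ q : Pr K, (0 : ℝ) < nv q := fun q => by
    have := two_le_nv q
    have h2 : (2 : ℝ) ≤ nv q := by exact_mod_cast this
    linarith
  have hnv1 : ∀ q : Pr K, ((nv q : ℝ))⁻¹ ≤ 1 := fun q => by
    have := two_le_nv q
    have h2 : (2 : ℝ) ≤ nv q := by exact_mod_cast this
    exact inv_le_one_of_one_le₀ (by linarith)
  set G : ℝ := gW Q g ∅ with hG
  have hG0 : 0 ≤ G := gW_nonneg C Q g hQ ∅
  set Av : ℝ := ∏ j, avg (Q j) (g j) 1 with hAv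
  set Pj : ℝ := ∏ j, ∏ q ∈ Q j, (1 - ((nv q : ℝ))⁻¹) with hPj
  have hGe : G = Pj * Av := by
    rw [hG, hPj, hAv]
    unfold gW
    rw [Finset.prod_empty, one_mul, Finset.prod_mul_distrib]
  have havg : ∀ j, 0 ≤ avg (Q j) (g j) 1 := by
    intro j
    unfold avg
    apply div_nonneg
    · exact Finset.sum_nonneg fun A _ => hQ.nonneg j _
    · positivity
  have hAv0 : 0 ≤ Av := Finset.prod_nonneg fun j _ => havg j
  have hPj1 : Pj ≤ 1 := by
    apply Finset.prod_le_one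
    · intro j _
      exact Finset.prod_nonneg fun q _ => sub_nonneg.2 (hnv1 q)
    · intro j _
      apply Finset.prod_le_one
      · intro q _
        exact sub_nonneg.2 (hnv1 q)
      · intro q _
        have := inv_pos.2 (hnv q)
        linarith
  have hGAv : G ≤ Av := by
    rw [hGe]
    exact mul_le_of_le_one_left hAv0 hPj1
  -- the weights
  have hgW : ∀ D : Finset (Pr K), gW Q g D = (∏ q ∈ D, ((nv q : ℝ))⁻¹) * G := by
    intro D
    rw [hG]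
    unfold gW
    rw [Finset.prod_empty, one_mul]
  set Er : ℝ := 2 ^ N * ((M₀ : ℝ) / (2 * B + 1)) * (V * G) with hEr
  have hEr0 : 0 ≤ Er := by positivity
  -- the inner sums
  have hinner : ∀ D ∈ Fl, (-1 : ℝ) ^ D.card * ∑ c ∈ box, gf Q g D (el b c) ≤
      (-1 : ℝ) ^ D.card * (∏ q ∈ D, ((nv q : ℝ))⁻¹) * (V * G) + Er := by
    intro D hD
    rw [hFl, Finset.mem_filter, Finset.mem_powerset] at hD
    obtain ⟨hDZ, hDc⟩ := hD
    have hMD : (∏ q ∈ D, nv q) * ∏ j, ∏ q ∈ Q j, nv q ≤ 2 * B + 1 := by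
      refine le_trans ?_ hB
      rw [mul_comm]
      apply Nat.mul_le_mul_left
      calc ∏ q ∈ D, nv q ≤ ∏ _q ∈ D, y := Finset.prod_le_prod' fun q hq => hZy q (hDZ hq)
        _ = y ^ D.card := Finset.prod_const y
        _ ≤ y ^ (2 * h) := Nat.pow_le_pow_right hy hDc
    have hb := box_sum b C Q g hQ D (fun j => (hZ j).mono_left hDZ) B hMD
    rw [← hN, ← hV, ← hbox, ← hM₀, hgW D] at hb
    have hD0 : (∏ q ∈ D, ((nv q : ℝ))⁻¹) * ((∏ q ∈ D, nv q : ℕ) : ℝ) = 1 := by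
      push_cast
      rw [← Finset.prod_mul_distrib]
      apply Finset.prod_eq_one
      intro q _
      exact inv_mul_cancel₀ (hnv q).ne'
    have e1 : 2 ^ N * ((((∏ q ∈ D, nv q) * M₀ : ℕ) : ℝ) / (2 * B + 1)) *
        (V * ((∏ q ∈ D, ((nv q : ℝ))⁻¹) * G)) = Er := by
      rw [hEr, Nat.cast_mul]
      calc 2 ^ N * ((((∏ q ∈ D, nv q : ℕ) : ℝ) * (M₀ : ℝ)) / (2 * B + 1)) *
          (V * ((∏ q ∈ D, ((nv q : ℝ))⁻¹) * G)) =
          ((∏ q ∈ D, ((nv q : ℝ))⁻¹) * ((∏ q ∈ D, nv q : ℕ) : ℝ)) *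
            (2 ^ N * ((M₀ : ℝ) / (2 * B + 1)) * (V * G)) := by ring
        _ = _ := by rw [hD0, one_mul]
    rw [e1] at hb
    have hb' := abs_le.1 hb
    rcases neg_one_pow_eq_or ℝ D.card with h1 | h1
    · rw [h1]
      linarith [hb'.2]
    · rw [h1]
      linarith [hb'.1]
  -- summation
  have hsum : (∑ c ∈ box, if ∃ q ∈ Z, el b c ∈ q.asIdeal then 0 else gf Q g ∅ (el b c)) ≤
      ∑ D ∈ Fl, (-1 : ℝ) ^ D.card * ∑ c ∈ box, gf Q g D (el b c) := by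
    calc (∑ c ∈ box, if ∃ q ∈ Z, el b c ∈ q.asIdeal then 0 else gf Q g ∅ (el b c))
        ≤ ∑ c ∈ box, ∑ D ∈ Fl, (-1 : ℝ) ^ D.card * gf Q g D (el b c) :=
          Finset.sum_le_sum fun c _ => e6_pointwise C Q g hQ Z h (el b c)
      _ = _ := by
        rw [Finset.sum_comm]
        apply Finset.sum_congr rfl
        intro D _
        rw [Finset.mul_sum]
  have htail := tail Z h (fun q => ((nv q : ℝ))⁻¹) (fun q _ => (inv_pos.2 (hnv q)).le)
  have hcard : (Fl.card : ℝ) ≤ (Z.card + 1 : ℝ) ^ (2 * h) := by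
    have := card_small Z (2 * h)
    exact_mod_cast this
  have hsum2 : ∑ D ∈ Fl, (-1 : ℝ) ^ D.card * ∑ c ∈ box, gf Q g D (el b c) ≤
      (∏ q ∈ Z, (1 - ((nv q : ℝ))⁻¹) +
        Real.exp (-(2 * h : ℝ) + 3 * ∑ q ∈ Z, ((nv q : ℝ))⁻¹)) * (V * G) +
      (Z.card + 1 : ℝ) ^ (2 * h) * Er := by
    calc ∑ D ∈ Fl, (-1 : ℝ) ^ D.card * ∑ c ∈ box, gf Q g D (el b c)
        ≤ ∑ D ∈ Fl, ((-1 : ℝ) ^ D.card * (∏ q ∈ D, ((nv q : ℝ))⁻¹) * (V * G) + Er) :=
          Finset.sum_le_sum hinner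
      _ = (∑ D ∈ Fl, (-1 : ℝ) ^ D.card * (∏ q ∈ D, ((nv q : ℝ))⁻¹)) * (V * G) +
          Fl.card * Er := by
        rw [Finset.sum_add_distrib, Finset.sum_mul, Finset.sum_const, nsmul_eq_mul]
      _ ≤ _ := add_le_add (mul_le_mul_of_nonneg_right htail (by positivity))
        (mul_le_mul_of_nonneg_right hcard hEr0)
  refine (hsum.trans hsum2).trans ?_
  set PZ : ℝ := ∏ q ∈ Z, (1 - ((nv q : ℝ))⁻¹) with hPZ
  set Ex : ℝ := Real.exp (-(2 * h : ℝ) + 3 * ∑ q ∈ Z, ((nv q : ℝ))⁻¹) with hEx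
  have hEx0 : 0 < Ex := Real.exp_pos _
  have hZc0 : (0 : ℝ) ≤ (Z.card + 1 : ℝ) ^ (2 * h) :=
    pow_nonneg (add_nonneg (Nat.cast_nonneg _) zero_le_one) _
  have t1 : PZ * (V * G) = V * Av * (PZ * Pj) := by
    rw [hGe]
    ring
  have t2 : Ex * (V * G) ≤ V * Av * Ex := by
    have : V * G ≤ V * Av := mul_le_mul_of_nonneg_left hGAv hV0.le
    calc Ex * (V * G) ≤ Ex * (V * Av) := mul_le_mul_of_nonneg_left this hEx0.le
      _ = _ := by ring
  have t3 : (Z.card + 1 : ℝ) ^ (2 * h) * Er ≤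
      V * Av * (2 ^ N * (M₀ : ℝ) * (Z.card + 1) ^ (2 * h) / (2 * B + 1)) := by
    rw [hEr]
    have : V * G ≤ V * Av := mul_le_mul_of_nonneg_left hGAv hV0.le
    calc (Z.card + 1 : ℝ) ^ (2 * h) * (2 ^ N * ((M₀ : ℝ) / (2 * B + 1)) * (V * G))
        ≤ (Z.card + 1 : ℝ) ^ (2 * h) * (2 ^ N * ((M₀ : ℝ) / (2 * B + 1)) * (V * Av)) := by
          apply mul_le_mul_of_nonneg_left _ hZc0
          exact mul_le_mul_of_nonneg_left this (mul_nonneg (by positivity)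
            (div_nonneg (Nat.cast_nonneg _) hB0.le))
      _ = _ := by ring
  calc (PZ + Ex) * (V * G) + (Z.card + 1 : ℝ) ^ (2 * h) * Er
      = PZ * (V * G) + Ex * (V * G) + (Z.card + 1 : ℝ) ^ (2 * h) * Er := by ring
    _ ≤ V * Av * (PZ * Pj) + V * Av * Ex +
        V * Av * (2 ^ N * (M₀ : ℝ) * (Z.card + 1) ^ (2 * h) / (2 * B + 1)) := by
      rw [t1]
      exact add_le_add (add_le_add le_rfl t2) t3
    _ = _ := by ring

end SC5
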