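import Pool.Agent.MP_c1dca2_ag.SC5.E5
import Pool.Agent.MP_c1dca2_ag.SC5.E6
import Pool.Agent.MP_c1dca2_ag.SC5.A7
import Pool.Agent.MP_c1dca2_ag.SC4.Z4

/-!
# [SC5-E7] upper bound for the number of primes with prescribed signs

Let `n = finrank ℚ K`, `l = log Y` (large). Put `y = ⌊exp (l^(1-ε))⌋₊` (we may assume `ε < 1`, the statement for
`ε ≥ 1` follows from that for `ε = 1/2`, `l ≥ 1`; likewise assume `ε₁ < 1`), `h = ⌈l^(ε/2)⌉₊`,
`B = ⌊Y^(1/n)⌋₊ ≥ 1` (so `⌊Y⌋₊ < (B+1)^n`, `(2B+1)^n ≤ 3^n Y`, `Y^(1/n) ≤ 2B+1`), `Z` = the set of all primes `q` with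
`C < nv q ≤ y` which are in no `Q j`, `M₀ = ∏ nv q = exp (∑ ∑ log nv q) ≤ exp (l^(1-ε₁))`.
Conditions for large `Y`: `C ≤ y`, `y < Y / 2`; `M₀ y^(2h) ≤ exp (l^(1-ε₁) + 2 (l^(ε/2) + 1) l^(1-ε)) ≤ Y^(1/n)`.
`pick` (with `⌊Y⌋₊`) and `sieve_bound` (`b = RingOfIntegers.basis K`, `Fintype.card = n` by `card_basis`) give
the bound `3^n Y ∏ avg · (T₁ + T₂ + T₃)`.
* `T₁ = ∏_Z (1 - 1/nv) ∏_j ∏_{Q j} (1 - 1/nv) ≤ ∏_{C < nv q ≤ y} (1 - 1/nv q)` (every prime of norm in `(C, y]` is in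
  `Z` or in some `Q j`, the `Q j` are disjoint, the remaining factors are in `[0,1]`)
  `≤ exp (- ∑_{C < nv q ≤ y} 1 / nv q) ≤ C' / log y` by `sum_lower` with `z = max C 2`, `z' = y`; and
  `log y ≥ l^(1-ε) / 2`. So `T₁ ≤ C'' l^(-1+ε)`.
* `T₂ = exp (-2h + 3 ∑_Z 1 / nv)`, `∑_Z 1 / nv ≤ log log y + C' ≤ log l + C'` (`sum_upper` with `z = 3/2`), so
  `T₂ ≤ C'' l^3 exp (-2 l^(ε/2)) ≤ l^(-1)` for large `Y`.
* `T₃ ≤ 2^n exp (l^(1-ε₁)) (#Z + 1)^(2h) / Y^(1/n)`; `#Z ≤ n y` (at most `n` primes above each rational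
  prime `p ≤ y`, `nv q ≥ p`: `SC4.card_above_le`), so `(#Z + 1)^(2h) ≤ exp (2 (l^(ε/2) + 1) (l^(1-ε) + log (n+1)))` and
  `T₃ ≤ l^(-1)` for large `Y`.
-/

set_option autoImplicit false

open NumberField IsDedekindDomain Filter

namespace SC5

private theorem e7_pow (a b c : ℝ) (hab : a < b) (hc : 0 < c) :
    ∀ᶠ l : ℝ in atTop, l ^ a ≤ c * l ^ b := by
  have h := (tendsto_rpow_atTop (sub_pos.2 hab)).eventually_ge_atTop (1 / c)
  filter_upwards [h, eventually_gt_atTop 0] with l h1 h2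
  have h3 : l ^ b = l ^ a * l ^ (b - a) := by
    rw [← Real.rpow_add h2]
    congr 1
    ring
  have h4 : 0 < l ^ a := Real.rpow_pos_of_pos h2 _
  rw [div_le_iff₀ hc] at h1
  rw [h3]
  nlinarith

private theorem e7_pow1 (a c : ℝ) (hab : a < 1) (hc : 0 < c) :
    ∀ᶠ l : ℝ in atTop, l ^ a ≤ c * l := by
  filter_upwards [e7_pow a 1 c hab hc] with l h1
  rwa [Real.rpow_one] at h1

private theorem e7_log (a c : ℝ) (ha : 0 < a) (hc : 0 < c) :
    ∀ᶠ l : ℝ in atTop, Real.log l ≤ c * l ^ a := by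
  have h := (isLittleO_log_rpow_atTop ha).bound hc
  filter_upwards [h, eventually_ge_atTop 1] with l h1 h2
  rwa [Real.norm_of_nonneg (Real.log_nonneg h2),
    Real.norm_of_nonneg (Real.rpow_nonneg (by linarith) _)] at h1

/-- the conditions on `l = log Y` -/
private structure E7Cond (n : ℕ) (C : ℕ) (C2 ε ε₁ l : ℝ) : Prop where
  c1 : l ^ (1 - ε₁) ≤ 1 / (8 * n) * l
  c2 : 2 * l ^ (1 - ε / 2) ≤ 1 / (8 * n) * l
  c3 : 2 * l ^ (1 - ε) ≤ 1 / (8 * n) * l
  c4 : 2 * (l ^ (ε / 2) * Real.log (n + 1)) ≤ 1 / (8 * n) * l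
  c5 : 2 * Real.log (n + 1) + n * Real.log 2 ≤ 1 / (8 * n) * l
  c6 : Real.log l ≤ 1 / (8 * n) * l
  c7 : C + 4 ≤ l ^ (1 - ε)
  c8 : l ^ (1 - ε) ≤ l / 2
  c9 : 4 * Real.log l + 3 * (C2 - Real.log (Real.log (3 / 2))) ≤ 2 * l ^ (ε / 2)
  c10 : 4 ≤ l

private theorem e7_cond (n : ℕ) (hn : 0 < n) (C : ℕ) (C2 ε ε₁ : ℝ) (hε : 0 < ε) (hε' : ε < 1)
    (hε₁ : 0 < ε₁) : ∀ᶠ l : ℝ in atTop, E7Cond n C C2 ε ε₁ l := by
  have hn' : (0 : ℝ) < n := by exact_mod_cast hn
  have hc : (0 : ℝ) < 1 / (8 * n) := by positivity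
  have hlog : 0 ≤ Real.log (n + 1) := Real.log_nonneg (by linarith)
  have h1 := e7_pow1 (1 - ε₁) _ (by linarith) hc
  have h2 := e7_pow1 (1 - ε / 2) _ (by linarith) (half_pos hc)
  have h3 := e7_pow1 (1 - ε) _ (by linarith) (half_pos hc)
  have h4 := e7_pow1 (ε / 2) (1 / (8 * n) / (2 * (Real.log (n + 1) + 1))) (by linarith)
    (by positivity)
  have h5 : ∀ᶠ l : ℝ in atTop, 2 * Real.log (n + 1) + n * Real.log 2 ≤ 1 / (8 * n) * l := by
    filter_upwards [eventually_ge_atTop ((2 * Real.log (n + 1) + n * Real.log 2) / (1 / (8 * n)))]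
      with l hl
    rw [div_le_iff₀ hc] at hl
    linarith
  have h6 := e7_log 1 _ one_pos hc
  have h7 : ∀ᶠ l : ℝ in atTop, (C : ℝ) + 4 ≤ l ^ (1 - ε) :=
    (tendsto_rpow_atTop (by linarith : (0 : ℝ) < 1 - ε)).eventually_ge_atTop _
  have h8 := e7_pow1 (1 - ε) (1 / 2) (by linarith) (by norm_num)
  have h9 := e7_log (ε / 2) (1 / 4) (by linarith) (by norm_num)
  have h10 : ∀ᶠ l : ℝ in atTop, 3 * (C2 - Real.log (Real.log (3 / 2))) ≤ l ^ (ε / 2) :=
    (tendsto_rpow_atTop (by linarith : (0 : ℝ) < ε / 2)).eventually_ge_atTop _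
  filter_upwards [h1, h2, h3, h4, h5, h6, h7, h8, h9, h10, eventually_ge_atTop 4] with l
    g1 g2 g3 g4 g5 g6 g7 g8 g9 g10 g11
  refine ⟨g1, by linarith, by linarith, ?_, g5, by rwa [Real.rpow_one] at g6, g7, by linarith,
    by linarith, g11⟩
  have hl : 0 ≤ l ^ (ε / 2) := Real.rpow_nonneg (by linarith) _
  calc 2 * (l ^ (ε / 2) * Real.log (n + 1))
      ≤ l ^ (ε / 2) * (2 * (Real.log (n + 1) + 1)) := by nlinarith
    _ ≤ 1 / (8 * n) / (2 * (Real.log (n + 1) + 1)) * l * (2 * (Real.log (n + 1) + 1)) := by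
        gcongr
    _ = 1 / (8 * n) * l := by
        field_simp

/-- the number of primes of norm at most `y` -/
private theorem e7_card (K : Type) [Field K] [NumberField K] (y : ℕ) (Z : Finset (Pr K))
    (hZ : ∀ q ∈ Z, nv q ≤ y) : Z.card ≤ Module.finrank ℚ K * y := by
  classical
  -- the rational prime below
  have hp : ∀ q : Pr K, ∃ p : ℕ, p.Prime ∧ (p : 𝓞 K) ∈ q.asIdeal ∧ p ≤ nv q := by
    intro q
    have h1 : nv q ≠ 1 := by
      have := two_le_nv q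
      omega
    have h0 : ((nv q : ℕ) : 𝓞 K) ∈ q.asIdeal := nv_mem q
    have hpr : q.asIdeal.IsPrime := q.isPrime
    -- some prime factor of `nv q` is in `q`
    have key : ∀ m : ℕ, m ≠ 0 → m ≠ 1 → (m : 𝓞 K) ∈ q.asIdeal →
        ∃ p : ℕ, p.Prime ∧ (p : 𝓞 K) ∈ q.asIdeal ∧ p ≤ m := by
      intro m
      induction m using Nat.strong_induction_on with
      | _ m ih =>
        intro hm0 hm1 hm
        obtain ⟨p, hp, k, rfl⟩ := Nat.exists_prime_and_dvd hm1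
        have hk0 : k ≠ 0 := by
          rintro rfl
          simp at hm0
        by_cases hpm : (p : 𝓞 K) ∈ q.asIdeal
        · exact ⟨p, hp, hpm, Nat.le_mul_of_pos_right p (Nat.pos_of_ne_zero hk0)⟩
        · rw [Nat.cast_mul] at hm
          have hk : (k : 𝓞 K) ∈ q.asIdeal := (hpr.mem_or_mem hm).resolve_left hpm
          have hk1 : k ≠ 1 := by
            rintro rfl
            rw [Nat.cast_one] at hk
            exact hpr.ne_top ((Ideal.eq_top_iff_one _).2 hk)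
          have hlt : k < p * k := by
            have := hp.two_le
            nlinarith [Nat.pos_of_ne_zero hk0]
          obtain ⟨p', h1, h2, h3⟩ := ih k hlt hk0 hk1 hk
          exact ⟨p', h1, h2, h3.trans hlt.le⟩
    exact key _ (by have := two_le_nv q; omega) h1 h0
  choose p hp1 hp2 hp3 using hp
  have h1 : Z.card = ∑ a ∈ Finset.Icc 1 y, (Z.filter (fun q => p q = a)).card := by
    apply Finset.card_eq_sum_card_fiberwise
    intro q hq
    have := hp3 q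
    have h2 := hZ q hq
    have h3 := (hp1 q).one_lt
    simp only [Finset.coe_Icc, Set.mem_Icc]
    omega
  rw [h1]
  calc ∑ a ∈ Finset.Icc 1 y, (Z.filter (fun q => p q = a)).card
      ≤ ∑ _a ∈ Finset.Icc 1 y, Module.finrank ℚ K := by
        apply Finset.sum_le_sum
        intro a _
        by_cases hne : (Z.filter (fun q => p q = a)).Nonempty
        · obtain ⟨q0, hq0⟩ := hne
          have ha : a.Prime := by
            rw [← (Finset.mem_filter.1 hq0).2]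
            exact hp1 q0
          have hinj : Function.Injective (fun q : Pr K => q.asIdeal) := by
            intro q q' h
            exact HeightOneSpectrum.ext h
          rw [← Finset.card_image_of_injective (Z.filter (fun q => p q = a)) hinj]
          apply SC4.card_above_le K a ha
          intro P hP
          obtain ⟨q, hq, rfl⟩ := Finset.mem_image.1 hP
          refine ⟨q.isPrime, q.ne_bot, ?_⟩
          rw [← (Finset.mem_filter.1 hq).2]
          exact hp2 q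
        · rw [Finset.not_nonempty_iff_eq_empty] at hne
          rw [hne]
          simp
    _ = Module.finrank ℚ K * y := by
        rw [Finset.sum_const, Nat.card_Icc, smul_eq_mul]
        simp [mul_comm]

/-- `T₁` -/
private theorem e7_T1 {K : Type} [Field K] [NumberField K] {J : Type} [Fintype J] (C : ℕ)
    (Q : J → Finset (Pr K)) (g : J → (Pr K → ℤˣ) → ℝ) (hQ : QG C Q g) (Z T0 : Finset (Pr K))
    (hZ : ∀ j, Disjoint Z (Q j)) (hT0 : ∀ q ∈ T0, q ∈ Z ∨ ∃ j, q ∈ Q j) :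
    (∏ q ∈ Z, (1 - ((nv q : ℝ))⁻¹)) * (∏ j, ∏ q ∈ Q j, (1 - ((nv q : ℝ))⁻¹)) ≤
      Real.exp (-∑ q ∈ T0, ((nv q : ℝ))⁻¹) := by
  classical
  have hx : ∀ q : Pr K, 0 ≤ ((nv q : ℝ))⁻¹ ∧ ((nv q : ℝ))⁻¹ ≤ 1 := by
    intro q
    have h2 : (1 : ℝ) ≤ nv q := by
      have := two_le_nv q
      exact_mod_cast (by omega : 1 ≤ nv q)
    exact ⟨inv_nonneg.2 (by linarith), inv_le_one_of_one_le₀ h2⟩
  have h1 : (∏ j, ∏ q ∈ Q j, (1 - ((nv q : ℝ))⁻¹)) =
      ∏ q ∈ Finset.univ.biUnion Q, (1 - ((nv q : ℝ))⁻¹) := by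
    rw [Finset.prod_biUnion]
    intro j _ j' _ hjj
    exact hQ.disj j j' hjj
  have h2 : Disjoint Z (Finset.univ.biUnion Q) := by
    rw [Finset.disjoint_biUnion_right]
    intro j _
    exact hZ j
  rw [h1, ← Finset.prod_union h2]
  have hsub : T0 ⊆ Z ∪ Finset.univ.biUnion Q := by
    intro q hq
    rw [Finset.mem_union, Finset.mem_biUnion]
    rcases hT0 q hq with h | ⟨j, h⟩
    · exact Or.inl h
    · exact Or.inr ⟨j, Finset.mem_univ _, h⟩
  rw [← Finset.prod_sdiff hsub]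
  have h3 : ∏ q ∈ (Z ∪ Finset.univ.biUnion Q) \ T0, (1 - ((nv q : ℝ))⁻¹) ≤ 1 :=
    Finset.prod_le_one (fun q _ => by linarith [(hx q).2]) (fun q _ => by linarith [(hx q).1])
  have h4 : 0 ≤ ∏ q ∈ T0, (1 - ((nv q : ℝ))⁻¹) :=
    Finset.prod_nonneg (fun q _ => by linarith [(hx q).2])
  have h5 : ∏ q ∈ T0, (1 - ((nv q : ℝ))⁻¹) ≤ Real.exp (-∑ q ∈ T0, ((nv q : ℝ))⁻¹) := by
    rw [← Finset.sum_neg_distrib, Real.exp_sum]
    apply Finset.prod_le_prod
    · intro q _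
      linarith [(hx q).2]
    · intro q _
      exact Real.one_sub_le_exp_neg _
  calc _ ≤ 1 * ∏ q ∈ T0, (1 - ((nv q : ℝ))⁻¹) := by gcongr
    _ ≤ _ := by rw [one_mul]; exact h5

private theorem e7_avg_nonneg {X : Type} (Q : Finset X) (g : (X → ℤˣ) → ℝ) (hg : ∀ e, 0 ≤ g e)
    (e : X → ℤˣ) : 0 ≤ avg Q g e := by
  unfold avg
  exact div_nonneg (Finset.sum_nonneg (fun _ _ => hg _)) (by positivity)

set_option maxHeartbeats 2000000 in
private theorem e7_main (K : Type) [Field K] [NumberField K] (al : Pr K → 𝓞 K) (C : ℕ)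
    (hal : Gen al C) (ε ε₁ : ℝ) (hε : 0 < ε) (hε' : ε < 1) (hε₁ : 0 < ε₁) :
    ∃ A Y₀ : ℝ, 0 < A ∧ 3 ≤ Y₀ ∧ ∀ Y : ℝ, Y₀ ≤ Y →
    ∀ {J : Type} [Fintype J] (Q : J → Finset (Pr K)) (g : J → (Pr K → ℤˣ) → ℝ), QG C Q g →
      (∑ j, ∑ q ∈ Q j, Real.log (nv q)) ≤ Real.log Y ^ (1 - ε₁) →
      ∀ T : Finset (Pr K), (∀ w ∈ T, Y / 2 < nv w ∧ (nv w : ℝ) ≤ Y ∧ ∀ j, w ∉ Q j) →
        ∑ w ∈ T, ∏ j, g j (fun q => sg q (al w)) ≤
          A * Y * Real.log Y ^ (-1 + ε) * ∏ j, avg (Q j) (g j) 1 := by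
  obtain ⟨C1, hC1⟩ := sum_lower K
  obtain ⟨C2, hC2⟩ := sum_upper K
  have hn : 0 < Module.finrank ℚ K := Module.finrank_pos
  set n := Module.finrank ℚ K with hndef
  have hn' : (0 : ℝ) < n := by exact_mod_cast hn
  have hn1 : (1 : ℝ) ≤ n := by exact_mod_cast hn
  have hcond := Real.tendsto_log_atTop.eventually (e7_cond n hn C C2 ε ε₁ hε hε' hε₁)
  obtain ⟨Y₁, hY₁⟩ := eventually_atTop.1 hcond
  set z : ℝ := max C 2 with hz
  have hz2 : 2 ≤ z := le_max_right _ _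
  have hlz : 0 < Real.log z := Real.log_pos (by linarith)
  refine ⟨3 ^ n * (2 * Real.exp C1 * Real.log z + 2), max Y₁ 3, by positivity,
    le_max_right _ _, ?_⟩
  intro Y hY J _ Q g hQ hM T hT
  have hY3 : 3 ≤ Y := (le_max_right _ _).trans hY
  have hY0 : 0 < Y := by linarith
  have hc := hY₁ Y ((le_max_left _ _).trans hY)
  set l := Real.log Y with hl
  have hYl : Y = Real.exp l := (Real.exp_log hY0).symm
  have hl4 : 4 ≤ l := hc.c10
  have hl0 : 0 < l := by linarith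
  set t := l ^ (1 - ε) with ht
  have ht4 : (C : ℝ) + 4 ≤ t := hc.c7
  have hC0 : (0 : ℝ) ≤ C := Nat.cast_nonneg C
  -- y
  set y := ⌊Real.exp t⌋₊ with hy
  have hy1 : (y : ℝ) ≤ Real.exp t := Nat.floor_le (Real.exp_pos t).le
  have hy2 : Real.exp t < y + 1 := Nat.lt_floor_add_one _
  have hy3 : (C : ℝ) + 4 < y := by
    have := Real.add_one_le_exp t
    linarith
  have hCy : C ≤ y := by
    have : (C : ℝ) ≤ y := by linarith
    exact_mod_cast this
  have hy0 : (0 : ℝ) < y := by linarith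
  have hy1n : 1 ≤ y := by
    have : (1 : ℝ) ≤ y := by linarith
    exact_mod_cast this
  have hzy : z ≤ y := max_le (by linarith) (by linarith)
  have hlogy : t / 2 ≤ Real.log y := by
    rw [Real.le_log_iff_exp_le hy0]
    have h1 : Real.exp t = Real.exp (t / 2) * Real.exp (t / 2) := by
      rw [← Real.exp_add]; ring_nf
    have h2 : 2 ≤ Real.exp (t / 2) := by
      have := Real.add_one_le_exp (t / 2)
      linarith
    nlinarith
  have hlogy2 : Real.log y ≤ t := by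
    rw [Real.log_le_iff_le_exp hy0]
    exact hy1
  have hlogy3 : Real.log y ≤ l := by
    have := hc.c8
    linarith
  have hyY : (y : ℝ) < Y / 2 := by
    have h1 : Real.exp t ≤ Real.exp (l - 1) := Real.exp_le_exp.2 (by
      have := hc.c8
      linarith)
    have h2 : Real.exp (l - 1) * Real.exp 1 = Y := by
      rw [← Real.exp_add, hYl]; ring_nf
    have h3 : (2.7182818283 : ℝ) < Real.exp 1 := Real.exp_one_gt_d9
    have h4 := Real.exp_pos (l - 1)
    nlinarith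
  -- h
  set h := ⌈l ^ (ε / 2)⌉₊ with hh
  have hh1 : l ^ (ε / 2) ≤ h := Nat.le_ceil _
  have hle2 : 0 ≤ l ^ (ε / 2) := Real.rpow_nonneg hl0.le _
  have hh2 : (h : ℝ) ≤ l ^ (ε / 2) + 1 := (Nat.ceil_lt_add_one hle2).le
  -- B
  set B := ⌊Real.exp (l / n)⌋₊ with hB
  have hB1 : (B : ℝ) ≤ Real.exp (l / n) := Nat.floor_le (Real.exp_pos _).le
  have hB2 : Real.exp (l / n) < B + 1 := Nat.lt_floor_add_one _
  have hE1 : 1 ≤ Real.exp (l / n) := Real.one_le_exp (by positivity)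
  have hpow : Real.exp (l / n) ^ n = Y := by
    rw [← Real.exp_nat_mul, hYl]
    congr 1
    field_simp
  have hB3 : Real.exp (l / n) ≤ 2 * B + 1 := by
    have : (0 : ℝ) ≤ B := Nat.cast_nonneg B
    linarith
  have hB4 : (2 * B + 1 : ℝ) ^ n ≤ 3 ^ n * Y := by
    rw [← hpow, ← mul_pow]
    gcongr
    linarith
  have hYB : ⌊Y⌋₊ < (B + 1) ^ n := by
    rw [Nat.floor_lt hY0.le]
    push_cast
    rw [← hpow]
    gcongr
  -- M₀
  set M₀ := ∏ j, ∏ q ∈ Q j, nv q with hM₀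
  have hM₀1 : (M₀ : ℝ) ≤ Real.exp (l ^ (1 - ε₁)) := by
    have h1 : (M₀ : ℝ) = Real.exp (∑ j, ∑ q ∈ Q j, Real.log (nv q)) := by
      rw [hM₀]
      push_cast
      rw [Real.exp_sum]
      apply Finset.prod_congr rfl
      intro j _
      rw [Real.exp_sum]
      apply Finset.prod_congr rfl
      intro q _
      rw [Real.exp_log]
      have := two_le_nv q
      exact_mod_cast (by omega : 0 < nv q)
    rw [h1]
    exact Real.exp_le_exp.2 hM
  have hte : l ^ (ε / 2) * t = l ^ (1 - ε / 2) := by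
    rw [ht, ← Real.rpow_add hl0]
    congr 1
    ring
  have ht0 : 0 ≤ t := by linarith
  have hypow : (y : ℝ) ^ (2 * h) ≤ Real.exp (2 * l ^ (1 - ε / 2) + 2 * t) := by
    calc (y : ℝ) ^ (2 * h) ≤ Real.exp t ^ (2 * h) := by gcongr
      _ = Real.exp (((2 * h : ℕ) : ℝ) * t) := (Real.exp_nat_mul t (2 * h)).symm
      _ ≤ _ := by
        apply Real.exp_le_exp.2
        push_cast
        have : (h : ℝ) * t ≤ (l ^ (ε / 2) + 1) * t := by gcongr
        nlinarith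
  have hl8 : 1 / (8 * (n : ℝ)) * l = l / n / 8 := by
    field_simp
  have hln0 : 0 ≤ l / n := by positivity
  clear_value y h B
  have hMB : M₀ * y ^ (2 * h) ≤ 2 * B + 1 := by
    have h1 : ((M₀ * y ^ (2 * h) : ℕ) : ℝ) ≤ ((2 * B + 1 : ℕ) : ℝ) := by
      push_cast
      calc (M₀ : ℝ) * (y : ℝ) ^ (2 * h) ≤
            Real.exp (l ^ (1 - ε₁)) * Real.exp (2 * l ^ (1 - ε / 2) + 2 * t) := by
            gcongr
        _ = Real.exp (l ^ (1 - ε₁) + (2 * l ^ (1 - ε / 2) + 2 * t)) := (Real.exp_add _ _).symm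
        _ ≤ Real.exp (l / n) := by
            apply Real.exp_le_exp.2
            have g1 := hc.c1
            have g2 := hc.c2
            have g3 := hc.c3
            rw [hl8] at g1 g2 g3
            linarith
        _ ≤ 2 * B + 1 := hB3
    exact_mod_cast h1
  classical
  -- Z
  have hfin := finite_nv K y
  obtain ⟨Z, hZmem⟩ : ∃ Z : Finset (Pr K), ∀ q, q ∈ Z ↔ nv q ≤ y ∧ C < nv q ∧ ∀ j, q ∉ Q j := by
    refine ⟨hfin.toFinset.filter (fun q => C < nv q ∧ ∀ j, q ∉ Q j), ?_⟩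
    intro q
    rw [Finset.mem_filter, Set.Finite.mem_toFinset]
    rfl
  have hZ1 : ∀ q ∈ Z, C < nv q ∧ nv q ≤ y := by
    intro q hq
    have := (hZmem q).1 hq
    exact ⟨this.2.1, this.1⟩
  have hZ2 : ∀ j, Disjoint Z (Q j) := by
    intro j
    rw [Finset.disjoint_left]
    intro q hq
    exact ((hZmem q).1 hq).2.2 j
  have hpick := pick al C hal Q g hQ y ⌊Y⌋₊ B hCy hYB Z hZ1 T (by
    intro w hw
    obtain ⟨h1, h2, h3⟩ := hT w hw
    refine ⟨?_, Nat.le_floor h2, h3⟩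
    have : (y : ℝ) < nv w := by linarith
    exact_mod_cast this)
  have hsieve := sieve_bound (RingOfIntegers.basis K) C Q g hQ Z hZ2 y B h hy1n
    (fun q hq => (hZ1 q hq).2) hMB
  rw [card_basis (RingOfIntegers.basis K), ← hndef] at hsieve
  have hle : ∑ w ∈ T, ∏ j, g j (fun q => sg q (al w)) ≤
      (2 * B + 1 : ℝ) ^ n * (∏ j, avg (Q j) (g j) 1) *
        ((∏ q ∈ Z, (1 - ((nv q : ℝ))⁻¹)) * (∏ j, ∏ q ∈ Q j, (1 - ((nv q : ℝ))⁻¹)) +
          Real.exp (-(2 * h : ℝ) + 3 * ∑ q ∈ Z, ((nv q : ℝ))⁻¹) +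
          2 ^ n * ((∏ j, ∏ q ∈ Q j, nv q : ℕ) : ℝ) * (Z.card + 1) ^ (2 * h) /
            (2 * B + 1)) := by
    refine hpick.trans (le_trans (le_of_eq ?_) hsieve)
    congr!
  have havg : 0 ≤ ∏ j, avg (Q j) (g j) 1 :=
    Finset.prod_nonneg (fun j _ => e7_avg_nonneg _ _ (hQ.nonneg j) _)
  -- rewriting `t`
  have htinv : l ^ (-1 + ε) = t⁻¹ := by
    rw [ht, ← Real.rpow_neg hl0.le]
    congr 1
    ring
  have htpos : 0 < t := by linarith
  have htl : Real.log t ≤ Real.log l := by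
    apply Real.log_le_log htpos
    have := hc.c8
    linarith
  -- T₁
  have hT1 : (∏ q ∈ Z, (1 - ((nv q : ℝ))⁻¹)) * (∏ j, ∏ q ∈ Q j, (1 - ((nv q : ℝ))⁻¹)) ≤
      2 * Real.exp C1 * Real.log z * t⁻¹ := by
    obtain ⟨T0, hT0, hT0s⟩ := hC1 z y (by linarith) hzy
    refine (e7_T1 C Q g hQ Z T0 hZ2 ?_).trans ?_
    · intro q hq
      obtain ⟨_, h1, h2⟩ := hT0 q hq
      by_cases hj : ∃ j, q ∈ Q j
      · exact Or.inr hj
      · left
        rw [hZmem]
        push Not at hj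
        refine ⟨by exact_mod_cast h2, ?_, hj⟩
        have : (C : ℝ) < nv q := lt_of_le_of_lt (le_max_left _ _) h1
        exact_mod_cast this
    · have hly : 0 < Real.log y := by linarith
      calc Real.exp (-∑ q ∈ T0, ((nv q : ℝ))⁻¹) ≤
            Real.exp (-(Real.log (Real.log y / Real.log z) - C1)) := by
            apply Real.exp_le_exp.2
            linarith
        _ = Real.exp C1 * (Real.log z / Real.log y) := by
            rw [neg_sub, Real.exp_sub, Real.exp_log (div_pos hly hlz)]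
            field_simp
        _ ≤ Real.exp C1 * (Real.log z / (t / 2)) := by gcongr
        _ = 2 * Real.exp C1 * Real.log z * t⁻¹ := by
            field_simp
  -- T₂
  have hT2 : Real.exp (-(2 * h : ℝ) + 3 * ∑ q ∈ Z, ((nv q : ℝ))⁻¹) ≤ t⁻¹ := by
    have h1 := hC2 (3 / 2) y (by norm_num) (by linarith) Z (by
      intro q hq
      have h2 := two_le_nv q
      have h3 : (2 : ℝ) ≤ nv q := by exact_mod_cast h2
      exact ⟨by linarith, by exact_mod_cast (hZ1 q hq).2⟩)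
    have hly : 0 < Real.log y := by linarith
    have hl32 : 0 < Real.log (3 / 2) := Real.log_pos (by norm_num)
    rw [Real.log_div hly.ne' hl32.ne'] at h1
    have h2 : Real.log (Real.log y) ≤ Real.log l := Real.log_le_log hly hlogy3
    have h4 : t⁻¹ = Real.exp (-Real.log t) := by
      rw [Real.exp_neg, Real.exp_log htpos]
    rw [h4]
    apply Real.exp_le_exp.2
    have h3 := hc.c9
    linarith
  -- T₃
  have hcard0 := e7_card K y Z (fun q hq => (hZ1 q hq).2)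
  clear hsieve
  generalize Z.card = c0 at hcard0 hle
  have hcard : (c0 + 1 : ℝ) ≤ Real.exp (t + Real.log (n + 1)) := by
    have h2 : (c0 : ℝ) ≤ n * y := by exact_mod_cast hcard0
    rw [Real.exp_add, Real.exp_log (by linarith)]
    have h3 : (1 : ℝ) ≤ y := by linarith
    nlinarith
  have hlogn : 0 ≤ Real.log ((n : ℝ) + 1) := Real.log_nonneg (by linarith)
  have hT3 : 2 ^ n * ((∏ j, ∏ q ∈ Q j, nv q : ℕ) : ℝ) * (c0 + 1) ^ (2 * h) / (2 * B + 1) ≤
      t⁻¹ := by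
    have h1 : (c0 + 1 : ℝ) ^ (2 * h) ≤ Real.exp (2 * l ^ (1 - ε / 2) + 2 * t +
        (2 * (l ^ (ε / 2) * Real.log (n + 1)) + 2 * Real.log (n + 1))) := by
      calc (c0 + 1 : ℝ) ^ (2 * h) ≤ Real.exp (t + Real.log (n + 1)) ^ (2 * h) := by gcongr
        _ = Real.exp (((2 * h : ℕ) : ℝ) * (t + Real.log (n + 1))) :=
          (Real.exp_nat_mul _ (2 * h)).symm
        _ ≤ _ := by
          apply Real.exp_le_exp.2
          push_cast
          have : (h : ℝ) * (t + Real.log (n + 1)) ≤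
              (l ^ (ε / 2) + 1) * (t + Real.log (n + 1)) := by gcongr
          nlinarith
    have h2 : (2 : ℝ) ^ n = Real.exp (n * Real.log 2) := by
      rw [Real.exp_nat_mul, Real.exp_log (by norm_num)]
    have h3 : t⁻¹ = Real.exp (-Real.log t) := by
      rw [Real.exp_neg, Real.exp_log htpos]
    rw [div_le_iff₀ (by positivity)]
    calc 2 ^ n * ((∏ j, ∏ q ∈ Q j, nv q : ℕ) : ℝ) * (c0 + 1) ^ (2 * h)
        ≤ Real.exp (n * Real.log 2) * Real.exp (l ^ (1 - ε₁)) *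
          Real.exp (2 * l ^ (1 - ε / 2) + 2 * t +
            (2 * (l ^ (ε / 2) * Real.log (n + 1)) + 2 * Real.log (n + 1))) := by
          rw [h2]
          gcongr
      _ = Real.exp (n * Real.log 2 + l ^ (1 - ε₁) + (2 * l ^ (1 - ε / 2) + 2 * t +
            (2 * (l ^ (ε / 2) * Real.log (n + 1)) + 2 * Real.log (n + 1)))) := by
          rw [← Real.exp_add, ← Real.exp_add]
      _ ≤ Real.exp (-Real.log t + l / n) := by
          apply Real.exp_le_exp.2
          have g1 := hc.c1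
          have g2 := hc.c2
          have g3 := hc.c3
          have g4 := hc.c4
          have g5 := hc.c5
          have g6 := hc.c6
          rw [hl8] at g1 g2 g3 g4 g5 g6
          linarith
      _ = t⁻¹ * Real.exp (l / n) := by
          rw [Real.exp_add, h3]
      _ ≤ t⁻¹ * (2 * B + 1) := by
          gcongr
  calc ∑ w ∈ T, ∏ j, g j (fun q => sg q (al w)) ≤ _ := hle
    _ ≤ (2 * B + 1 : ℝ) ^ n * (∏ j, avg (Q j) (g j) 1) *
        (2 * Real.exp C1 * Real.log z * t⁻¹ + t⁻¹ + t⁻¹) := by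
        gcongr
    _ ≤ (3 ^ n * Y) * (∏ j, avg (Q j) (g j) 1) *
        (2 * Real.exp C1 * Real.log z * t⁻¹ + t⁻¹ + t⁻¹) := by
        gcongr
    _ = 3 ^ n * (2 * Real.exp C1 * Real.log z + 2) * Y * l ^ (-1 + ε) *
        ∏ j, avg (Q j) (g j) 1 := by
        rw [htinv]
        ring

theorem bt_main (K : Type) [Field K] [NumberField K] (al : Pr K → 𝓞 K) (C : ℕ) (hal : Gen al C)
    (ε ε₁ : ℝ) (hε : 0 < ε) (hε₁ : 0 < ε₁) : ∃ A Y₀ : ℝ, 0 < A ∧ 3 ≤ Y₀ ∧ ∀ Y : ℝ, Y₀ ≤ Y →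
    ∀ {J : Type} [Fintype J] (Q : J → Finset (Pr K)) (g : J → (Pr K → ℤˣ) → ℝ), QG C Q g →
      (∑ j, ∑ q ∈ Q j, Real.log (nv q)) ≤ Real.log Y ^ (1 - ε₁) →
      ∀ T : Finset (Pr K), (∀ w ∈ T, Y / 2 < nv w ∧ (nv w : ℝ) ≤ Y ∧ ∀ j, w ∉ Q j) →
        ∑ w ∈ T, ∏ j, g j (fun q => sg q (al w)) ≤
          A * Y * Real.log Y ^ (-1 + ε) * ∏ j, avg (Q j) (g j) 1 := by
  obtain ⟨A, Y₀, hA, hY₀, hmain⟩ := e7_main K al C hal (min ε (1 / 2)) ε₁
    (lt_min hε (by norm_num)) (lt_of_le_of_lt (min_le_right _ _) (by norm_num)) hε₁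
  refine ⟨A, Y₀, hA, hY₀, ?_⟩
  intro Y hY J _ Q g hQ hM T hT
  refine (hmain Y hY Q g hQ hM T hT).trans ?_
  have hY3 : 3 ≤ Y := hY₀.trans hY
  have hl1 : 1 ≤ Real.log Y := by
    rw [Real.le_log_iff_exp_le (by linarith)]
    have := Real.exp_one_lt_d9
    linarith
  have havg : 0 ≤ ∏ j, avg (Q j) (g j) 1 :=
    Finset.prod_nonneg (fun j _ => e7_avg_nonneg _ _ (hQ.nonneg j) _)
  have h1 : Real.log Y ^ (-1 + min ε (1 / 2)) ≤ Real.log Y ^ (-1 + ε) :=
    Real.rpow_le_rpow_of_exponent_le hl1 (by linarith [min_le_left ε (1 / 2)])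
  gcongr

end SC5
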