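import Pool.Agent.MP_c1dca2_ag.SC5.HD
import Pool.Agent.MP_c1dca2_ag.SC5.A1

/-!
# [SC5-H6] the products of the generators

`PP al P i = ∏_{o ∈ P} (al i o.2 if o.1 = i, else 1)`; `sgn al P q = ∏_{o ∈ P} bt al q o`, `bt al q o = sg q.2 (al q.1 o.2)` if
`o.1 = q.1`, else `1`. `Gen (al i) Cg`: `al w ∈ w`, `al w ≠ 0`, `al w ∈ w' → w' = w ∨ nv w' ≤ Cg`, `Cg < nv w → al w ∉ w^2`.

* `PP_ne`: product of nonzero elements.
* `PP_notin`: a prime containing the product contains a factor; `al i o.2 ∈ w` implies `o.2 = w` (`Cg < nv w`), so `⟨i, w⟩ = o ∈ P`.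
* `sg_PP`: `sg w` is multiplicative on elements not in `w` (`𝓞 / w` is a finite field of odd characteristic: the product of two
  nonsquares is a square), `sg w 1 = 1`.
* `ev_PP`: the exponent of `w` in `al i o.2` is `0` for `o ≠ ⟨i, w⟩` and `1` for `o = ⟨i, w⟩`: so the valuation of `PP al P i` at `w` is
  `1` (`Ev`) if `⟨i, w⟩ ∉ P`, and `WithZero.exp (-1)` (not `Ev`, compare `SC3.G0_exp` and SC3/G0.lean) otherwise.
-/

set_option autoImplicit false

open NumberField IsDedekindDomain Polynomial SC2 SC3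

namespace SC5

variable {I : Type} {L : I → Type} [∀ i, Field (L i)] [∀ i, NumberField (L i)]
  {al : ∀ i, Pr (L i) → 𝓞 (L i)} {Cg : ℕ}

theorem h6_sg_mul {K : Type} [Field K] [NumberField K] (w : Pr K) (a b : 𝓞 K) (ha : a ∉ w.asIdeal)
    (hb : b ∉ w.asIdeal) : sg w (a * b) = sg w a * sg w b := by
  classical
  have hmax := w.isMaximal
  let _ : Field (𝓞 K ⧸ w.asIdeal) := Ideal.Quotient.field w.asIdeal
  have hfin : Finite (𝓞 K ⧸ w.asIdeal) := w.asIdeal.finiteQuotientOfFreeOfNeBot w.ne_bot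
  let _ : Fintype (𝓞 K ⧸ w.asIdeal) := Fintype.ofFinite _
  have key : ∀ c : 𝓞 K, c ∉ w.asIdeal →
      ((sg w c : ℤˣ) : ℤ) = quadraticChar (𝓞 K ⧸ w.asIdeal) (Ideal.Quotient.mk w.asIdeal c) := by
    intro c hc
    have hc0 : Ideal.Quotient.mk w.asIdeal c ≠ 0 := fun h => hc (Ideal.Quotient.eq_zero_iff_mem.1 h)
    unfold sg
    split_ifs with h
    · rw [(quadraticChar_one_iff_isSquare hc0).2 h]
      rfl
    · rw [quadraticChar_neg_one_iff_not_isSquare.2 h]
      rfl
  have hab : a * b ∉ w.asIdeal := fun h => (w.isPrime.mem_or_mem h).elim ha hb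
  apply Units.ext
  rw [Units.val_mul, key _ hab, key _ ha, key _ hb, map_mul, map_mul]

theorem h6_sg_one {K : Type} [Field K] [NumberField K] (w : Pr K) : sg w 1 = 1 := by
  unfold sg
  rw [if_pos]
  rw [map_one]
  exact IsSquare.one

theorem h6_sg_prod {K O : Type} [Field K] [NumberField K] (w : Pr K) (P : Finset O) (g : O → 𝓞 K)
    (hg : ∀ o ∈ P, g o ∉ w.asIdeal) : sg w (∏ o ∈ P, g o) = ∏ o ∈ P, sg w (g o) := by
  classical
  induction P using Finset.induction_on with
  | empty => simpa using h6_sg_one w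
  | insert a P ha ih =>
    rw [Finset.prod_insert ha, Finset.prod_insert ha, h6_sg_mul w _ _ (hg a (Finset.mem_insert_self a P)),
      ih fun o ho => hg o (Finset.mem_insert_of_mem ho)]
    intro h
    have hp := w.isPrime
    rw [hp.prod_mem_iff] at h
    obtain ⟨o, ho, ho'⟩ := h
    exact hg o (Finset.mem_insert_of_mem ho) ho'

open scoped Classical in
theorem h6_notin (hal : ∀ i, Gen (al i) Cg) (P : Finset (PL L)) (i : I) (w : Pr (L i))
    (hw : Cg < nv w) (hP : (⟨i, w⟩ : PL L) ∉ P) (o : PL L) (ho : o ∈ P) :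
    (if h : o.1 = i then al i (h ▸ o.2) else 1) ∉ w.asIdeal := by
  obtain ⟨i', w'⟩ := o
  by_cases h : i' = i
  · subst h
    rw [dif_pos rfl]
    intro hm
    rcases (hal i').oth _ _ hm with h1 | h1
    · apply hP
      have h2 : w = w' := h1
      rw [h2]
      exact ho
    · omega
  · rw [dif_neg h]
    intro hm
    exact w.isPrime.ne_top ((Ideal.eq_top_iff_one _).2 hm)

theorem PP_ne (hal : ∀ i, Gen (al i) Cg) (P : Finset (PL L)) (i : I) : PP al P i ≠ 0 := by
  classical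
  unfold PP
  rw [Finset.prod_ne_zero_iff]
  rintro ⟨i', w'⟩ _
  by_cases h : i' = i
  · subst h
    rw [dif_pos rfl]
    exact (hal i').ne _
  · rw [dif_neg h]
    exact one_ne_zero

theorem PP_notin (hal : ∀ i, Gen (al i) Cg) (P : Finset (PL L)) (i : I) (w : Pr (L i))
    (hw : Cg < nv w) (hP : (⟨i, w⟩ : PL L) ∉ P) : PP al P i ∉ w.asIdeal := by
  classical
  unfold PP
  intro h
  have hp := w.isPrime
  rw [hp.prod_mem_iff] at h
  obtain ⟨o, ho, ho'⟩ := h
  exact h6_notin hal P i w hw hP o ho ho'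

theorem sg_PP (hal : ∀ i, Gen (al i) Cg) (P : Finset (PL L)) (i : I) (w : Pr (L i))
    (hw : Cg < nv w) (h2 : (2 : 𝓞 (L i)) ∉ w.asIdeal) (hP : (⟨i, w⟩ : PL L) ∉ P) :
    sgn al P ⟨i, w⟩ = sg w (PP al P i) := by
  classical
  unfold PP sgn
  rw [h6_sg_prod w P _ fun o ho => h6_notin hal P i w hw hP o ho]
  refine Finset.prod_congr rfl fun o _ => ?_
  obtain ⟨i', w'⟩ := o
  unfold bt
  by_cases h : i' = i
  · subst h
    rw [dif_pos rfl, dif_pos rfl]
  · rw [dif_neg h, dif_neg h, h6_sg_one]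

theorem h6_val_one {K : Type} [Field K] [NumberField K] (w : Pr K) (a : 𝓞 K) (ha : a ∉ w.asIdeal) :
    w.valuation K (a : K) = 1 := by
  apply le_antisymm (w.valuation_le_one a)
  rw [← not_lt]
  intro h
  exact ha ((w.valuation_lt_one_iff_mem a).1 h)

theorem h6_val_exp {K : Type} [Field K] [NumberField K] (w : Pr K) (a : 𝓞 K) (ha : a ∈ w.asIdeal)
    (ha2 : a ∉ w.asIdeal ^ 2) : w.valuation K (a : K) = WithZero.exp (-1 : ℤ) := by
  have h1 : w.intValuation a ≤ WithZero.exp (-((1 : ℕ) : ℤ)) := by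
    rw [w.intValuation_le_pow_iff_mem, pow_one]
    exact ha
  have h2 : ¬ w.intValuation a ≤ WithZero.exp (-((2 : ℕ) : ℤ)) := by
    rw [w.intValuation_le_pow_iff_mem]
    exact ha2
  have h3 : w.intValuation a ≠ 0 := by
    intro h
    apply h2
    rw [h]
    exact zero_le'
  rw [show w.valuation K (a : K) = w.intValuation a from w.valuation_of_algebraMap a]
  obtain ⟨n, hn⟩ : ∃ n : ℤ, w.intValuation a = WithZero.exp n := ⟨_, (WithZero.exp_log h3).symm⟩
  rw [hn] at h1 h2 ⊢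
  rw [WithZero.exp_le_exp] at h1 h2
  have h4 : n = -1 := by push_cast at h1 h2; omega
  rw [h4]

theorem ev_PP (hal : ∀ i, Gen (al i) Cg) (P : Finset (PL L)) (i : I) (w : Pr (L i))
    (hw : Cg < nv w) : Ev w (PP al P i : L i) ↔ (⟨i, w⟩ : PL L) ∉ P := by
  classical
  constructor
  · intro hev hmem
    obtain ⟨P', hP', h1⟩ : ∃ P' : Finset (PL L), (⟨i, w⟩ : PL L) ∉ P' ∧
        PP al P i = al i w * PP al P' i := by
      obtain ⟨q, hq⟩ : ∃ q : PL L, q = ⟨i, w⟩ := ⟨_, rfl⟩
      have hmem' : q ∈ P := by rw [hq]; exact hmem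
      refine ⟨P.erase q, by rw [← hq]; exact Finset.notMem_erase q P, ?_⟩
      unfold PP
      rw [← Finset.mul_prod_erase P _ hmem']
      congr 1
      subst hq
      rw [dif_pos rfl]
    have h2 : PP al P' i ∉ w.asIdeal := PP_notin hal _ i w hw hP'
    have h3 : w.valuation (L i) (PP al P i : L i) = WithZero.exp (-1 : ℤ) := by
      have h4 : ((al i w * PP al P' i : 𝓞 (L i)) : L i) = (al i w : L i) * (PP al P' i : L i) := by
        push_cast
        rfl
      rw [h1, h4, Valuation.map_mul, h6_val_one w _ h2, mul_one]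
      exact h6_val_exp w _ ((hal i).mem w) ((hal i).one w hw)
    obtain ⟨b, hb⟩ := hev
    rw [h3] at hb
    have h4 : w.valuation (L i) b ≠ 0 := by
      intro h5
      rw [h5] at hb
      simp at hb
    obtain ⟨n, hn⟩ : ∃ n : ℤ, w.valuation (L i) b = WithZero.exp n := ⟨_, (WithZero.exp_log h4).symm⟩
    rw [hn, ← WithZero.exp_nsmul] at hb
    have h5 := WithZero.exp_injective hb
    simp only [nsmul_eq_mul] at h5
    push_cast at h5
    omega
  · intro hP
    refine ⟨1, ?_⟩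
    rw [h6_val_one w _ (PP_notin hal P i w hw hP)]
    simp

end SC5
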