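import Pool.Agent.MP_c1dca2_ag.SC5.H1

/-!
# [SC5-H2] embeddings with a given prime

`C` is an algebraic closure of `k`.

* `emb_exists`: let `τ₀ : L →ₐ[k] C` be any embedding (`IsAlgClosed.lift`), make `C` an algebra over `L` by `τ₀`, let `A_w` be the
  valuation ring of `w` (`SC3.exists_isVal`) and `V₁` a valuation ring of `C` above `A_w` (`SC2.exists_above`). Then
  `Lies τ₀ V₁ w`, and `V₁` is above `A` (`lies_above`, `hw`). `SC2.exists_conj` (for `k`): `σ : C ≃ₐ[k] C` with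
  `σ z ∈ V ↔ z ∈ V₁`. Take `τ = σ ∘ τ₀` (`lies_map`).
* `emb_conj`: there is `σ : C ≃ₐ[k] C` with `σ ∘ τ = τ'` (both make `C` an algebraic closure of `L`:
  `IsAlgClosure.equiv`, or `IsAlgClosed.lift` plus surjectivity of algebraic endomorphisms). `V₁ = σ V`
  (`ValuationSubring.comap` of `σ⁻¹`): `z ∈ V₁ ↔ σ⁻¹ z ∈ V`. As an algebra over `L` by `τ'`, `C` has the valuation rings `V` and
  `V₁`, both above `A_w` (`τ' x ∈ V₁ ↔ τ x ∈ V`). `SC2.exists_conj` over `L` (`IsGalois L C`: algebraically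
  closed, algebraic, characteristic zero): `h : C ≃ₐ[L] C`, `h z ∈ V ↔ z ∈ V₁`. `g = h ∘ σ` (restrict scalars to `k`).
* `deg_one`: let `φ` be a Frobenius (`SC2.exists_frob`: `Frob (card of the residue field of A) V φ`, the card is `nv v`,
  `v = bl k w`, by `IsVal.card`). It stabilises `V`, so it fixes `τ(L)`: `τ x - (τ x)^(nv v) ∈ V.nonunits` for `x : 𝓞 L`, i.e.
  `x - x^(nv v) ∈ w` (`lies_int`). So every element of the field `𝓞 L / w` is a root of `X^(nv v) - X`, hence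
  `nv w ≤ nv v`; `nv w = nv v ^ dg k w` (`nv_eq`), `nv v ≥ 2`, so `dg k w ≤ 1`; `dg_pos`.
-/

set_option autoImplicit false

open NumberField IsDedekindDomain Polynomial SC2 SC3

namespace SC5

variable {k L C : Type} [Field k] [NumberField k] [Field L] [NumberField L] [Field C]
  [Algebra k L] [Algebra k C] [IsAlgClosed C] [IsGalois k C]

theorem h2_alg (k L : Type) [Field k] [NumberField k] [Field L] [NumberField L] [Algebra k L] :
    Algebra.IsAlgebraic k L := inferInstance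

theorem emb_exists {A : ValuationSubring k} {V : ValuationSubring C} (hV : Above A V) (w : Pr L)
    (hA : IsVal (bl k w) A) : ∃ τ : L →ₐ[k] C, Lies τ V w := by
  have := h2_alg k L
  let τ₀ : L →ₐ[k] C := IsAlgClosed.lift
  letI : Algebra L C := (τ₀ : L →+* C).toAlgebra
  obtain ⟨A₁, hA₁⟩ := exists_isVal w
  obtain ⟨V₁, hV₁⟩ := exists_above (k := L) (C := C) A₁
  have hl : Lies τ₀ V₁ w := fun x => (hV₁ x).trans (hA₁.mem x)
  have hV₁' : Above A V₁ := lies_above hl hA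
  obtain ⟨σ, hσ⟩ := exists_conj hV₁' hV
  exact ⟨(σ : C →ₐ[k] C).comp τ₀, lies_map σ hσ hl⟩

theorem emb_conj {V : ValuationSubring C} {w : Pr L} {τ τ' : L →ₐ[k] C} (h : Lies τ V w)
    (h' : Lies τ' V w) : ∃ g : C ≃ₐ[k] C, Stb V g ∧ ∀ x, g (τ x) = τ' x := by
  have hσ : ∃ σ : C ≃ₐ[k] C, ∀ x, σ (τ x) = τ' x := by
    letI : Algebra L C := (τ : L →+* C).toAlgebra
    haveI : IsScalarTower k L C := IsScalarTower.of_algebraMap_eq fun x => (τ.commutes x).symm
    let σ₀ : C →ₐ[k] C := AlgHom.liftNormal τ' C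
    have hb : Function.Bijective σ₀ := Algebra.IsAlgebraic.algHom_bijective σ₀
    exact ⟨AlgEquiv.ofBijective σ₀ hb, fun x => AlgHom.liftNormal_commutes τ' C x⟩
  obtain ⟨σ, hσ⟩ := hσ
  let V₁ : ValuationSubring C := V.comap (σ.symm : C →+* C)
  obtain ⟨A, hA⟩ := exists_isVal w
  have hh : ∃ g : C ≃ₐ[k] C, (∀ z, g z ∈ V ↔ z ∈ V₁) ∧ ∀ x, g (τ' x) = τ' x := by
    letI : Algebra L C := (τ' : L →+* C).toAlgebra
    haveI : IsScalarTower k L C := IsScalarTower.of_algebraMap_eq fun x => (τ'.commutes x).symm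
    haveI : IsGalois L C := IsGalois.tower_top_of_isGalois k L C
    have h1 : Above (k := L) A V := fun x => (h' x).trans (hA.mem x).symm
    have h2 : Above (k := L) A V₁ := fun x => by
      have h3 : σ.symm (τ' x) = τ x := by rw [← hσ x, AlgEquiv.symm_apply_apply]
      have h4 : τ x ∈ V ↔ x ∈ A := (h x).trans (hA.mem x).symm
      rw [← h4, ← h3]
      exact Iff.rfl
    obtain ⟨ρ, hρ⟩ := exists_conj h2 h1
    exact ⟨ρ.restrictScalars k, hρ, fun x => ρ.commutes x⟩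
  obtain ⟨ρ, hρ, hρ'⟩ := hh
  refine ⟨σ.trans ρ, fun z => ?_, fun x => ?_⟩
  · have h1 : ρ (σ z) ∈ V ↔ σ z ∈ V₁ := hρ (σ z)
    have h2 : σ z ∈ V₁ ↔ σ.symm (σ z) ∈ V := Iff.rfl
    rw [AlgEquiv.symm_apply_apply] at h2
    exact h1.trans h2
  · rw [AlgEquiv.trans_apply, hσ, hρ']

theorem deg_one {V : ValuationSubring C} {w : Pr L} {τ : L →ₐ[k] C} (h : Lies τ V w)
    (hfix : ∀ g : C ≃ₐ[k] C, Stb V g → ∀ x, g (τ x) = τ x) : dg k w = 1 := by
  obtain ⟨A, hA⟩ := exists_isVal (bl k w)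
  have hAV : Above A V := lies_above h hA
  have := hA.fin
  obtain ⟨φ, hφ⟩ := exists_frob hAV
  have hc : Nat.card (IsLocalRing.ResidueField A) = nv (bl k w) := hA.card
  rw [hc] at hφ
  set q := nv (bl k w) with hq
  have hq2 : 2 ≤ q := two_le_nv _
  have hx : ∀ x : 𝓞 L, x - x ^ q ∈ w.asIdeal := by
    intro x
    rw [← lies_int h]
    have h1 := hφ.frob (τ (x : L)) (h1_mem τ V x)
    rw [hfix φ hφ.stab, ValuationSubring.mem_nonunits_iff] at h1
    have h2 : τ (((x - x ^ q : 𝓞 L) : L)) = τ (x : L) - τ (x : L) ^ q := by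
      rw [← map_pow, ← map_sub]
      rfl
    rw [h2]
    exact h1
  have hle : nv w ≤ q := by
    classical
    have hp : w.asIdeal.IsPrime := w.isPrime
    have hm : w.asIdeal.IsMaximal := w.isMaximal
    letI : Field (𝓞 L ⧸ w.asIdeal) := Ideal.Quotient.field w.asIdeal
    have hf : Finite (𝓞 L ⧸ w.asIdeal) := Ideal.finiteQuotientOfFreeOfNeBot w.asIdeal w.ne_bot
    letI := Fintype.ofFinite (𝓞 L ⧸ w.asIdeal)
    have hcard : nv w = Fintype.card (𝓞 L ⧸ w.asIdeal) := by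
      rw [nv, Ideal.absNorm_apply, Submodule.cardQuot_apply, Nat.card_eq_fintype_card]
    have hroot : ∀ y : 𝓞 L ⧸ w.asIdeal, y ^ q = y := by
      intro y
      obtain ⟨x, rfl⟩ := Ideal.Quotient.mk_surjective y
      rw [← map_pow, eq_comm, Ideal.Quotient.eq]
      exact hx x
    have hne : (X ^ q - X : (𝓞 L ⧸ w.asIdeal)[X]) ≠ 0 :=
      FiniteField.X_pow_card_sub_X_ne_zero _ (by omega)
    have hsub : (Finset.univ : Finset (𝓞 L ⧸ w.asIdeal)) ⊆
        (X ^ q - X : (𝓞 L ⧸ w.asIdeal)[X]).roots.toFinset := by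
      intro y _
      rw [Multiset.mem_toFinset, mem_roots hne, IsRoot.def, eval_sub, eval_pow, eval_X, hroot y,
        sub_self]
    calc nv w = Fintype.card (𝓞 L ⧸ w.asIdeal) := hcard
      _ = (Finset.univ : Finset (𝓞 L ⧸ w.asIdeal)).card := rfl
      _ ≤ (X ^ q - X : (𝓞 L ⧸ w.asIdeal)[X]).roots.toFinset.card := Finset.card_le_card hsub
      _ ≤ Multiset.card (X ^ q - X : (𝓞 L ⧸ w.asIdeal)[X]).roots := Multiset.toFinset_card_le _
      _ ≤ (X ^ q - X : (𝓞 L ⧸ w.asIdeal)[X]).natDegree := card_roots' _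
      _ = q := FiniteField.X_pow_card_sub_X_natDegree_eq _ (by omega)
  rw [nv_eq (k := k) w, ← hq] at hle
  have h1 : q ^ dg k w ≤ q ^ 1 := by rwa [pow_one]
  have h2 : dg k w ≤ 1 := (Nat.pow_le_pow_iff_right (by omega)).1 h1
  have h3 := dg_pos (k := k) w
  omega

end SC5
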