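import Pool.Agent.MP_c1dca2_ag.SC5.H1

/-!
# [SC5-H3] roots of `f` at good places, action of Frobenius

* `root_facts`: `GoodAt A f` gives `F : A[X]` with `F.map A.subtype = f` and separable reduction of the same degree;
  `SC2.exists_roots` gives the roots `r i`; a root `a` of `f` in `C` is some `r i` (the product is `0` at `a`, the leading
  coefficient is not zero). Inertia: `σ a` is again a root of `f`, and `σ a - a ∈ V.nonunits`, i.e. `V.valuation (σ a - a) < 1`; so
  `σ a = a`.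
* `frob_fix`: let `q = nv (bl k w)`, `f₀ = dg k w`, `q^f₀ = nv w` (`nv_eq`), `f₀ ∣ m`. The element `θ` with
  `aeval θ f = 0` has `τ θ ∈ V` (`root_facts`, `τ θ` is a root of `f`), i.e. `w.valuation θ ≤ 1`. The residue field of the valuation ring
  of `w` has `nv w` elements (`IsVal.card`), so `θ^(nv w) - θ` has valuation `< 1`, hence also `θ^((nv w)^j) - θ`, `m = f₀ j`.
  `φ^m` is a Frobenius for `q^m = (nv w)^j` (`SC2.frob_pow`): `(φ^m)(τ θ) - (τ θ)^(q^m) ∈ V.nonunits`. So
  `(φ^m)(τ θ) - τ θ ∈ V.nonunits`, both are roots of `f`, so they are equal (`root_facts`). As `θ` generates `L`,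
  `(φ^m) ∘ τ = τ`.
-/

set_option autoImplicit false

open NumberField IsDedekindDomain Polynomial SC2 SC3

namespace SC5

section

variable {k C : Type} [Field k] [Field C] [Algebra k C] [IsAlgClosed C]

theorem root_facts {f : k[X]} {A : ValuationSubring k} (hA : GoodAt A f)
    {V : ValuationSubring C} (hV : Above A V) :
    V.valuation 2 = 1 ∧ (∀ a : C, aeval a f = 0 → a ∈ V) ∧
      (∀ a b : C, aeval a f = 0 → aeval b f = 0 → a ≠ b → V.valuation (a - b) = 1) ∧
      ∀ σ : C ≃ₐ[k] C, Iner V σ → ∀ a : C, aeval a f = 0 → σ a = a := by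
  obtain ⟨F, hF, hsep, hdeg⟩ := hA.red
  obtain ⟨r, l, hl, hfr, hrV, hdist⟩ := exists_roots (C := C) hV F hsep hdeg
  rw [hF] at hfr
  have hl0 : algebraMap k C l ≠ 0 := by
    intro h0
    rw [h0, map_zero] at hl
    exact zero_ne_one hl
  have hroot : ∀ a : C, aeval a f = 0 → ∃ i, r i = a := by
    intro a ha
    have h1 : (f.map (algebraMap k C)).eval a = 0 := by
      rw [eval_map_algebraMap]
      exact ha
    rw [hfr, eval_mul, eval_C, eval_prod] at h1
    rcases mul_eq_zero.1 h1 with h2 | h2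
    · exact absurd h2 hl0
    · obtain ⟨i, _, hi⟩ := Finset.prod_eq_zero_iff.1 h2
      refine ⟨i, ?_⟩
      rw [eval_sub, eval_X, eval_C, sub_eq_zero] at hi
      exact hi.symm
  have hmem : ∀ a : C, aeval a f = 0 → a ∈ V := by
    intro a ha
    obtain ⟨i, rfl⟩ := hroot a ha
    exact hrV i
  have hd : ∀ a b : C, aeval a f = 0 → aeval b f = 0 → a ≠ b → V.valuation (a - b) = 1 := by
    intro a b ha hb hab
    obtain ⟨i, rfl⟩ := hroot a ha
    obtain ⟨j, rfl⟩ := hroot b hb
    exact hdist i j (fun h => hab (by rw [h]))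
  refine ⟨f_two hV hA.two, hmem, hd, ?_⟩
  intro σ hσ a ha
  by_contra hne
  have h1 : aeval (σ a) f = 0 := by
    rw [aeval_algHom_apply, ha, map_zero]
  have h2 := hd (σ a) a h1 ha hne
  have h3 := hσ.triv a (hmem a ha)
  rw [V.mem_nonunits_iff, h2] at h3
  exact lt_irrefl _ h3

end

variable {k L C : Type} [Field k] [NumberField k] [Field L] [NumberField L] [Field C]
  [Algebra k L] [Algebra k C] [IsAlgClosed C]

theorem frob_fix {f : k[X]} {A : ValuationSubring k} (hA : GoodAt A f) {V : ValuationSubring C}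
    {w : Pr L} (hAv : IsVal (bl k w) A) {τ : L →ₐ[k] C} (h : Lies τ V w) (θ : L)
    (hθ : aeval θ f = 0) (hgen : IntermediateField.adjoin k {θ} = ⊤) (φ : C ≃ₐ[k] C)
    (hφ : Frob (nv (bl k w)) V φ) (m : ℕ) (hm : dg k w ∣ m) (x : L) : (φ ^ m) (τ x) = τ x := by
  obtain ⟨-, hmem, hd, -⟩ := root_facts hA (lies_above h hAv)
  obtain ⟨j, hj⟩ := hm
  have hr : aeval (τ θ) f = 0 := by
    rw [aeval_algHom_apply, hθ, map_zero]
  have hr' : aeval ((φ ^ m) (τ θ)) f = 0 := by
    rw [aeval_algHom_apply, hr, map_zero]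
  have hθV : τ θ ∈ V := hmem _ hr
  obtain ⟨B, hB⟩ := exists_isVal w
  have hθB : θ ∈ B := (hB.mem θ).2 ((h θ).1 hθV)
  have hq : nv (bl k w) ^ m = nv w ^ j := by
    rw [nv_eq (k := k) w, ← pow_mul, ← hj]
  have h1 : w.valuation L (θ ^ (nv w ^ j) - θ) < 1 := by
    rw [← hB.lt]
    have hfin := hB.fin
    let _ := Fintype.ofFinite (IsLocalRing.ResidueField B)
    have hcard : Fintype.card (IsLocalRing.ResidueField B) = nv w := by
      rw [← Nat.card_eq_fintype_card, hB.card]
      rfl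
    have h2 : IsLocalRing.residue B (⟨θ, hθB⟩ ^ (nv w ^ j) - ⟨θ, hθB⟩) = 0 := by
      rw [map_sub, map_pow, ← hcard, FiniteField.pow_card_pow, sub_self]
    rw [IsLocalRing.residue_eq_zero_iff] at h2
    have h3 : θ ^ (nv w ^ j) - θ ∈ B.nonunits := by
      rw [ValuationSubring.mem_nonunits_iff_exists_mem_maximalIdeal]
      exact ⟨_, h2⟩
    exact (B.mem_nonunits_iff).1 h3
  rw [← lies_lt h] at h1
  have h4 : V.valuation ((φ ^ m) (τ θ) - τ θ) < 1 := by
    have h5 := (frob_pow hφ m).frob (τ θ) hθV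
    rw [V.mem_nonunits_iff, hq] at h5
    have h6 : (φ ^ m) (τ θ) - τ θ = ((φ ^ m) (τ θ) - τ θ ^ (nv w ^ j)) +
        τ (θ ^ (nv w ^ j) - θ) := by
      rw [map_sub, map_pow]
      ring
    rw [h6]
    exact Valuation.map_add_lt _ h5 h1
  have h7 : (φ ^ m) (τ θ) = τ θ := by
    by_contra hne
    rw [hd _ _ hr' hr hne] at h4
    exact lt_irrefl _ h4
  have hx : x ∈ IntermediateField.adjoin k {θ} := by
    rw [hgen]
    exact IntermediateField.mem_top
  refine IntermediateField.adjoin_induction k (p := fun x _ => (φ ^ m) (τ x) = τ x) ?_ ?_ ?_ ?_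
    ?_ hx
  · intro y hy
    rw [Set.mem_singleton_iff] at hy
    rw [hy]
    exact h7
  · intro y
    rw [AlgHom.commutes, AlgEquiv.commutes]
  · intro y z _ _ hy hz
    rw [map_add, map_add, hy, hz]
  · intro y _ hy
    rw [map_inv₀, map_inv₀, hy]
  · intro y z _ _ hy hz
    rw [map_mul, map_mul, hy, hz]

end SC5
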