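import Pool.Agent.MP_c1dca2_ag.SC5.A5
import Pool.Agent.MP_c1dca2_ag.SC4.Z1

/-!
# [SC5-T1] the number of `c` in a box with a given set of odd primes

`n = card ι`. Let `c` be in the set and `I = (el b c)`, a nonzero ideal, `N(I) ≤ C₁ N^n` (`norm_box`). `TT S c = V` means:
the exponent of `v` in `I` is odd for `v ∈ V` and even for `v ∉ S ∪ V` (`SC3.Ev v a`, `a ≠ 0`, means that
the exponent of `v` in `a` is even: `v.valuation k` takes the values `exp (-n)` or `WithZero.exp`/`ofAdd`, and `0` only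
at `0`; see SC3/G0.lean, G2.lean for lemmas about `Ev`). So `I = ∏_{v ∈ V} v · ∏_{v ∈ S'} v · 𝔟²` with `S' ⊆ S` the set of the
primes of `S` with odd exponent and `𝔟` an ideal: `I` is determined by `(S', 𝔟)`. In particular
`∏_{v ∈ V} nv v ≤ N(I) ≤ C₁ N^n`: if the product is larger than `C N^n` (`C ≥ C₁`) the set is empty. By `box_gen` every
`I` has at most `C₂ (N^n / N(I))^(3/4) ≤ C₂ (N^n / ∏_V nv v)^(3/4) N(𝔟)^(-3/2)` elements `c`. Summing over the
`2^#S` sets `S'` and all ideals `𝔟` (`∑ N(𝔟)^(-3/2)` converges, `SC4.summable_ideals`) gives the claim.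
(Formally: the map `c ↦ (S', 𝔟)` from the finite set of the `c` to a finite set of pairs, `Finset.card_eq_sum_card_fiberwise`;
the sum over a finite set of `𝔟` is at most the `tsum`.)
-/

set_option autoImplicit false

open NumberField IsDedekindDomain

namespace SC5

/-- multiplicity of `v` in an ideal -/
private noncomputable def t1ord {k : Type} [Field k] [NumberField k] (w : Pr k)
    (I : Ideal (𝓞 k)) : ℕ := (Associates.mk w.asIdeal).count (Associates.mk I).factors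

private theorem t1_mul {k : Type} [Field k] [NumberField k] (w : Pr k) (I J : Ideal (𝓞 k))
    (hI : I ≠ ⊥) (hJ : J ≠ ⊥) : t1ord w (I * J) = t1ord w I + t1ord w J := by
  unfold t1ord
  rw [← Associates.mk_mul_mk]
  exact Associates.count_mul (by simpa using hI) (by simpa using hJ) w.associates_irreducible

private theorem t1_one {k : Type} [Field k] [NumberField k] (w : Pr k) :
    t1ord w (1 : Ideal (𝓞 k)) = 0 := by
  have h := t1_mul w 1 1 (by rw [Ideal.one_eq_top]; exact top_ne_bot)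
    (by rw [Ideal.one_eq_top]; exact top_ne_bot)
  rw [one_mul] at h
  omega

private theorem t1_self {k : Type} [Field k] [NumberField k] (w : Pr k) :
    t1ord w w.asIdeal = 1 := Associates.count_self w.associates_irreducible

private theorem t1_ne {k : Type} [Field k] [NumberField k] (w v : Pr k) (h : v ≠ w) :
    t1ord w v.asIdeal = 0 := by
  refine Associates.count_eq_zero_of_ne w.associates_irreducible v.associates_irreducible ?_
  intro h1
  rw [Associates.mk_eq_mk_iff_associated, associated_iff_eq] at h1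
  exact h (HeightOneSpectrum.ext h1.symm)

private theorem t1_prod_ne {k : Type} [Field k] [NumberField k] (T : Finset (Pr k)) :
    (∏ v ∈ T, v.asIdeal) ≠ (⊥ : Ideal (𝓞 k)) := by
  rw [← Ideal.zero_eq_bot]
  exact Finset.prod_ne_zero_iff.2 fun v _ => v.ne_bot

private theorem t1_prod {k : Type} [Field k] [NumberField k] [DecidableEq (Pr k)] (w : Pr k)
    (T : Finset (Pr k)) : t1ord w (∏ v ∈ T, v.asIdeal) = if w ∈ T then 1 else 0 := by
  induction T using Finset.induction_on with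
  | empty => rw [Finset.prod_empty, t1_one, if_neg (Finset.notMem_empty w)]
  | insert a T ha ih =>
    rw [Finset.prod_insert ha, t1_mul w _ _ a.ne_bot (t1_prod_ne T), ih]
    by_cases h : w = a
    · subst h
      rw [t1_self, if_neg ha, if_pos (Finset.mem_insert_self _ _)]
    · rw [t1_ne w a (Ne.symm h), zero_add]
      congr 1
      rw [Finset.mem_insert]
      simp [h]

private theorem t1_sq {k : Type} [Field k] [NumberField k] (w : Pr k) (J : Ideal (𝓞 k))
    (hJ : J ≠ ⊥) : t1ord w (J ^ 2) = 2 * t1ord w J := by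
  rw [sq, t1_mul w J J hJ hJ]
  ring

/-- decomposition of an ideal -/
private theorem t1_decomp {k : Type} [Field k] [NumberField k] (I : Ideal (𝓞 k)) (hI : I ≠ ⊥) :
    ∃ (T : Finset (Pr k)) (J : Ideal (𝓞 k)), J ≠ ⊥ ∧ I = (∏ v ∈ T, v.asIdeal) * J ^ 2 := by
  classical
  induction I using UniqueFactorizationMonoid.induction_on_prime with
  | h₁ => exact absurd rfl hI
  | h₂ x hx =>
    refine ⟨∅, 1, by rw [Ideal.one_eq_top]; exact top_ne_bot, ?_⟩
    rw [Finset.prod_empty, one_pow, one_mul]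
    exact (Ideal.isUnit_iff.1 hx).trans Ideal.one_eq_top.symm
  | h₃ a p ha hp ih =>
    obtain ⟨T, J, hJ, h⟩ := ih ha
    have hp0 : p ≠ ⊥ := hp.ne_zero
    let w : Pr k := ⟨p, Ideal.isPrime_of_prime hp, hp0⟩
    have hw : w.asIdeal = p := rfl
    by_cases hwT : w ∈ T
    · refine ⟨T.erase w, w.asIdeal * J, mul_ne_zero w.ne_bot hJ, ?_⟩
      rw [h, ← Finset.mul_prod_erase T _ hwT, hw]
      ring
    · refine ⟨insert w T, J, hJ, ?_⟩
      rw [Finset.prod_insert hwT, h, hw]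
      ring

private theorem t1_val {k : Type} [Field k] [NumberField k] (w : Pr k) (r : 𝓞 k) (hr : r ≠ 0) :
    w.valuation k (r : k) = WithZero.exp (-(t1ord w (Ideal.span {r}) : ℤ)) := by
  have h := w.valuation_of_algebraMap (K := k) r
  rw [w.intValuation_if_neg hr] at h
  exact h

private theorem t1_ev {k : Type} [Field k] [NumberField k] (w : Pr k) (r : 𝓞 k) (hr : r ≠ 0) :
    SC3.Ev w (r : k) ↔ Even (t1ord w (Ideal.span {r})) := by
  constructor
  · rintro ⟨b, hb⟩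
    rw [t1_val w r hr] at hb
    have hb0 : w.valuation k b ≠ 0 := by
      intro h0
      rw [h0, zero_pow two_ne_zero] at hb
      exact WithZero.exp_ne_zero hb
    obtain ⟨m, hm⟩ : ∃ m : ℤ, w.valuation k b = WithZero.exp m :=
      ⟨_, (WithZero.exp_log hb0).symm⟩
    rw [hm, ← WithZero.exp_nsmul, WithZero.exp_inj] at hb
    rw [Nat.even_iff]
    simp at hb
    omega
  · rintro ⟨m, hm⟩
    obtain ⟨π, hπ⟩ := w.valuation_exists_uniformizer k
    refine ⟨π ^ (m : ℤ), ?_⟩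
    rw [t1_val w r hr, hm, map_zpow₀, hπ, ← WithZero.exp_zsmul, ← WithZero.exp_nsmul]
    congr 1
    simp
    ring

/-- the odd primes of `r` -/
private theorem t1_odd {k : Type} [Field k] [NumberField k] (r : 𝓞 k) (hr : r ≠ 0)
    (T : Finset (Pr k)) (J : Ideal (𝓞 k)) (hJ : J ≠ ⊥)
    (h : Ideal.span {r} = (∏ v ∈ T, v.asIdeal) * J ^ 2) (w : Pr k) :
    ¬ SC3.Ev w (r : k) ↔ w ∈ T := by
  classical
  rw [t1_ev w r hr, h, t1_mul w _ _ (t1_prod_ne T) (pow_ne_zero 2 hJ), t1_prod, t1_sq w J hJ,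
    Nat.not_even_iff_odd]
  by_cases hw : w ∈ T
  · rw [if_pos hw]
    simp only [hw, iff_true]
    exact ⟨t1ord w J, by ring⟩
  · rw [if_neg hw]
    simp only [hw, iff_false, Nat.not_odd_iff_even]
    exact ⟨t1ord w J, by ring⟩

private theorem t1_absNorm {k : Type} [Field k] [NumberField k] (T : Finset (Pr k))
    (J : Ideal (𝓞 k)) : Ideal.absNorm ((∏ v ∈ T, v.asIdeal) * J ^ 2) =
      (∏ v ∈ T, nv v) * Ideal.absNorm J ^ 2 := by
  rw [map_mul, map_prod, map_pow]
  rfl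

private theorem t1_el {k : Type} [Field k] [NumberField k] {ι : Type} [Fintype ι]
    (b : Module.Basis ι ℤ (𝓞 k)) (c : ι → ℤ) (hc : c ≠ 0) : el b c ≠ 0 := by
  intro h
  apply hc
  have h1 := Fintype.linearIndependent_iff.1 b.linearIndependent c h
  exact funext h1

private theorem t1_real (x P a NI C : ℝ) (hx : 0 ≤ x) (hP : 0 < P) (ha : 1 ≤ a) (hC : 1 ≤ C)
    (h : P * a ^ 2 ≤ NI) :
    (x / NI) ^ (3 / 4 : ℝ) ≤ (C * x / P) ^ (3 / 4 : ℝ) * a ^ (-(3 / 2 : ℝ)) := by
  have ha0 : 0 < a := lt_of_lt_of_le one_pos ha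
  have hC0 : 0 ≤ C := by linarith
  have h1 : x / NI ≤ C * x / P * (a ^ 2)⁻¹ := by
    have h7 : x / NI ≤ x / (P * a ^ 2) := div_le_div_of_nonneg_left hx (by positivity) h
    refine h7.trans ?_
    rw [← div_div, div_eq_mul_inv _ (a ^ 2)]
    refine mul_le_mul_of_nonneg_right ?_ (by positivity)
    refine div_le_div_of_nonneg_right ?_ hP.le
    exact le_mul_of_one_le_left hx hC
  have hNI : 0 ≤ NI := le_trans (by positivity) h
  calc (x / NI) ^ (3 / 4 : ℝ) ≤ (C * x / P * (a ^ 2)⁻¹) ^ (3 / 4 : ℝ) :=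
        Real.rpow_le_rpow (div_nonneg hx hNI) h1 (by norm_num)
    _ = (C * x / P) ^ (3 / 4 : ℝ) * ((a ^ 2)⁻¹) ^ (3 / 4 : ℝ) :=
        Real.mul_rpow (by positivity) (by positivity)
    _ = _ := by
        congr 1
        rw [← Real.rpow_natCast, ← Real.rpow_neg ha0.le, ← Real.rpow_mul ha0.le]
        norm_num

theorem cfg_count {k : Type} [Field k] [NumberField k] {ι : Type} [Fintype ι]
    (b : Module.Basis ι ℤ (𝓞 k)) (S : Finset (Pr k)) : ∃ C : ℝ, 1 ≤ C ∧ ∀ N : ℕ, 1 ≤ N →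
    ∀ V : Finset (Pr k), (∀ v ∈ V, v ∉ S) →
      (C * (N : ℝ) ^ (Fintype.card ι) < ∏ v ∈ V, (nv v : ℝ) →
        ¬ ∃ c : ι → ℤ, (∀ i, |c i| ≤ N) ∧ c ≠ 0 ∧ TT S ((el b c : 𝓞 k) : k) = (V : Set (Pr k))) ∧
      (Nat.card {c : ι → ℤ // (∀ i, |c i| ≤ N) ∧ c ≠ 0 ∧
        TT S ((el b c : 𝓞 k) : k) = (V : Set (Pr k))} : ℝ) ≤
        C * (C * (N : ℝ) ^ (Fintype.card ι) / ∏ v ∈ V, (nv v : ℝ)) ^ (3 / 4 : ℝ) := by
  classical
  obtain ⟨C₁, hC₁, hnorm⟩ := norm_box b
  obtain ⟨C₂, hC₂, hgen⟩ := box_gen b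
  have hsum := SC4.summable_ideals k (3 / 2) (by norm_num)
  set Z : ℝ := ∑' I : Ideal (𝓞 k), (Ideal.absNorm I : ℝ) ^ (-(3 / 2 : ℝ)) with hZ
  have hZ0 : 0 ≤ Z := tsum_nonneg fun I => Real.rpow_nonneg (Nat.cast_nonneg _) _
  set C : ℝ := 1 + C₁ + 2 ^ S.card * C₂ * Z with hC
  have hC3 : 0 ≤ 2 ^ S.card * C₂ * Z := by positivity
  have hC₁' : (0 : ℝ) ≤ C₁ := Nat.cast_nonneg _
  have hC1 : 1 ≤ C := by linarith
  refine ⟨C, hC1, fun N hN V hVS => ?_⟩
  have hN0 : (0 : ℝ) < N := by exact_mod_cast hN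
  have hnv : ∀ v : Pr k, (1 : ℝ) ≤ nv v := fun v => by
    exact_mod_cast (le_trans one_le_two (two_le_nv v))
  have hVpos : ∀ T : Finset (Pr k), (0 : ℝ) < ∏ v ∈ T, (nv v : ℝ) := fun T =>
    Finset.prod_pos fun v _ => lt_of_lt_of_le one_pos (hnv v)
  -- the decomposition for the elements of the set
  have hdec : ∀ c : ι → ℤ, c ≠ 0 → TT S ((el b c : 𝓞 k) : k) = (V : Set (Pr k)) →
      ∃ p : Finset (Pr k) × Ideal (𝓞 k), p.1 ∈ S.powerset ∧ p.2 ≠ ⊥ ∧
        Ideal.span {el b c} = (∏ v ∈ V ∪ p.1, v.asIdeal) * p.2 ^ 2 := by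
    intro c hc hT
    have hel := t1_el b c hc
    obtain ⟨T, J, hJ, h⟩ := t1_decomp (Ideal.span {el b c}) (by
      rw [Ne, Ideal.span_singleton_eq_bot]; exact hel)
    have hodd := t1_odd (el b c) hel T J hJ h
    refine ⟨(T ∩ S, J), Finset.mem_powerset.2 Finset.inter_subset_right, hJ, ?_⟩
    have hT2 : V ∪ T ∩ S = T := by
      ext w
      rw [Finset.mem_union, Finset.mem_inter]
      have h1 : w ∈ V ↔ (w ∉ S ∧ w ∈ T) := by
        have h2 : w ∈ (V : Set (Pr k)) ↔ w ∈ TT S ((el b c : 𝓞 k) : k) := by rw [hT]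
        rw [Finset.mem_coe] at h2
        rw [h2, ← hodd w]
        rfl
      rw [h1]
      by_cases hwS : w ∈ S <;> by_cases hwT : w ∈ T <;> simp [hwS, hwT]
    rw [hT2]
    exact h
  have hVle : ∀ p : Finset (Pr k) × Ideal (𝓞 k), p.2 ≠ ⊥ →
      (∏ v ∈ V, (nv v : ℝ)) * (Ideal.absNorm p.2 : ℝ) ^ 2 ≤
        (Ideal.absNorm ((∏ v ∈ V ∪ p.1, v.asIdeal) * p.2 ^ 2) : ℝ) := by
    intro p hp
    rw [t1_absNorm]
    push_cast
    refine mul_le_mul_of_nonneg_right ?_ (by positivity)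
    exact Finset.prod_le_prod_of_subset_of_one_le Finset.subset_union_left
      (fun v _ => by positivity) fun v _ _ => hnv v
  have habs1 : ∀ J : Ideal (𝓞 k), J ≠ ⊥ → (1 : ℝ) ≤ Ideal.absNorm J := by
    intro J hJ
    have : Ideal.absNorm J ≠ 0 := by rwa [Ne, Ideal.absNorm_eq_zero_iff]
    exact_mod_cast Nat.one_le_iff_ne_zero.2 this
  refine ⟨?_, ?_⟩
  · rintro hlt ⟨c, hcN, hc0, hcT⟩
    obtain ⟨p, -, hp2, hp3⟩ := hdec c hc0 hcT
    have h1 := hnorm c N (by exact_mod_cast hcN)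
    have h2 : (Ideal.absNorm (Ideal.span {el b c}) : ℝ) ≤ C₁ * (N : ℝ) ^ (Fintype.card ι) := by
      exact_mod_cast h1
    rw [hp3] at h2
    have h3 := hVle p hp2
    have h4 : (∏ v ∈ V, (nv v : ℝ)) * 1 ≤ (∏ v ∈ V, (nv v : ℝ)) * (Ideal.absNorm p.2 : ℝ) ^ 2 :=
      mul_le_mul_of_nonneg_left (one_le_pow₀ (habs1 p.2 hp2)) (hVpos V).le
    have h5 : C₁ * (N : ℝ) ^ (Fintype.card ι) ≤ C * (N : ℝ) ^ (Fintype.card ι) :=
      mul_le_mul_of_nonneg_right (by linarith) (by positivity)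
    linarith
  · -- the finite set
    have hfin : {c : ι → ℤ | (∀ i, |c i| ≤ (N : ℤ)) ∧ c ≠ 0 ∧
        TT S ((el b c : 𝓞 k) : k) = (V : Set (Pr k))}.Finite := by
      refine (Set.finite_Icc (fun _ : ι => -(N : ℤ)) (fun _ => (N : ℤ))).subset ?_
      rintro c ⟨hc, -, -⟩
      exact ⟨fun i => (abs_le.1 (hc i)).1, fun i => (abs_le.1 (hc i)).2⟩
    set X : Finset (ι → ℤ) := hfin.toFinset with hX
    have hXmem : ∀ c, c ∈ X ↔ (∀ i, |c i| ≤ (N : ℤ)) ∧ c ≠ 0 ∧
        TT S ((el b c : 𝓞 k) : k) = (V : Set (Pr k)) := fun c => by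
      rw [hX, Set.Finite.mem_toFinset]
      rfl
    have hcard : (Nat.card {c : ι → ℤ // (∀ i, |c i| ≤ N) ∧ c ≠ 0 ∧
        TT S ((el b c : 𝓞 k) : k) = (V : Set (Pr k))} : ℝ) = X.card := by
      have h1 : Nat.card {c : ι → ℤ // (∀ i, |c i| ≤ (N : ℤ)) ∧ c ≠ 0 ∧
        TT S ((el b c : 𝓞 k) : k) = (V : Set (Pr k))} = X.card := by
        rw [hX, ← Set.ncard_eq_toFinset_card _ hfin]
        rfl
      exact_mod_cast h1
    rw [hcard]
    -- choose the decomposition
    have hex : ∀ c, c ∈ X → ∃ p : Finset (Pr k) × Ideal (𝓞 k), p.1 ∈ S.powerset ∧ p.2 ≠ ⊥ ∧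
        Ideal.span {el b c} = (∏ v ∈ V ∪ p.1, v.asIdeal) * p.2 ^ 2 := by
      intro c hc
      exact hdec c ((hXmem c).1 hc).2.1 ((hXmem c).1 hc).2.2
    choose! φ hφ using hex
    set A : ℝ := (C * (N : ℝ) ^ (Fintype.card ι) / ∏ v ∈ V, (nv v : ℝ)) ^ (3 / 4 : ℝ) with hA
    have hA0 : 0 ≤ A := Real.rpow_nonneg (by have := hVpos V; positivity) _
    have hfib : ∀ p ∈ X.image φ, ((X.filter fun c => φ c = p).card : ℝ) ≤
        C₂ * A * (Ideal.absNorm p.2 : ℝ) ^ (-(3 / 2 : ℝ)) := by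
      intro p hp
      obtain ⟨c₀, hc₀, rfl⟩ := Finset.mem_image.1 hp
      obtain ⟨-, hp2, hp3⟩ := hφ c₀ hc₀
      set I : Ideal (𝓞 k) := (∏ v ∈ V ∪ (φ c₀).1, v.asIdeal) * (φ c₀).2 ^ 2 with hI
      have hI0 : I ≠ ⊥ := mul_ne_zero (t1_prod_ne _) (pow_ne_zero 2 hp2)
      have h1 := hgen N hN I hI0
      have hsub : ((X.filter fun c => φ c = φ c₀).card : ℝ) ≤
          (Nat.card {c : ι → ℤ // (∀ i, |c i| ≤ N) ∧ Ideal.span {el b c} = I} : ℝ) := by
        have hfin2 : {c : ι → ℤ | (∀ i, |c i| ≤ (N : ℤ)) ∧ Ideal.span {el b c} = I}.Finite := by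
          refine (Set.finite_Icc (fun _ : ι => -(N : ℤ)) (fun _ => (N : ℤ))).subset ?_
          rintro c ⟨hc, -⟩
          exact ⟨fun i => (abs_le.1 (hc i)).1, fun i => (abs_le.1 (hc i)).2⟩
        have h2 : Nat.card {c : ι → ℤ // (∀ i, |c i| ≤ (N : ℤ)) ∧ Ideal.span {el b c} = I} =
            hfin2.toFinset.card := by
          rw [← Set.ncard_eq_toFinset_card _ hfin2]
          rfl
        have h3 : (X.filter fun c => φ c = φ c₀).card ≤ hfin2.toFinset.card := by
          apply Finset.card_le_card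
          intro c hc
          rw [Finset.mem_filter] at hc
          rw [Set.Finite.mem_toFinset]
          refine ⟨((hXmem c).1 hc.1).1, ?_⟩
          rw [(hφ c hc.1).2.2, hc.2]
        have h4 : (X.filter fun c => φ c = φ c₀).card ≤
            Nat.card {c : ι → ℤ // (∀ i, |c i| ≤ (N : ℤ)) ∧ Ideal.span {el b c} = I} := by
          rw [h2]
          exact h3
        exact_mod_cast h4
      refine hsub.trans (h1.trans ?_)
      rw [mul_assoc]
      refine mul_le_mul_of_nonneg_left ?_ hC₂.le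
      exact t1_real _ _ _ _ _ (by positivity) (hVpos V) (habs1 _ hp2) hC1 (hVle (φ c₀) hp2)
    have hcount : (X.card : ℝ) ≤ ∑ p ∈ X.image φ,
        C₂ * A * (Ideal.absNorm p.2 : ℝ) ^ (-(3 / 2 : ℝ)) := by
      have h1 : X.card = ∑ p ∈ X.image φ, (X.filter fun c => φ c = p).card :=
        Finset.card_eq_sum_card_fiberwise fun c hc => Finset.mem_image_of_mem φ hc
      rw [h1]
      push_cast
      exact Finset.sum_le_sum hfib
    have hsub : X.image φ ⊆ S.powerset ×ˢ ((X.image φ).image Prod.snd) := by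
      intro p hp
      rw [Finset.mem_product]
      refine ⟨?_, Finset.mem_image_of_mem _ hp⟩
      obtain ⟨c, hc, rfl⟩ := Finset.mem_image.1 hp
      exact (hφ c hc).1
    calc (X.card : ℝ) ≤ _ := hcount
      _ ≤ ∑ p ∈ S.powerset ×ˢ ((X.image φ).image Prod.snd),
          C₂ * A * (Ideal.absNorm p.2 : ℝ) ^ (-(3 / 2 : ℝ)) :=
          Finset.sum_le_sum_of_subset_of_nonneg hsub fun p _ _ => by positivity
      _ = 2 ^ S.card * (C₂ * A * ∑ J ∈ (X.image φ).image Prod.snd,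
          (Ideal.absNorm J : ℝ) ^ (-(3 / 2 : ℝ))) := by
          rw [Finset.sum_product]
          simp only [Finset.sum_const, Finset.card_powerset, nsmul_eq_mul, ← Finset.mul_sum]
          push_cast
          ring
      _ ≤ 2 ^ S.card * (C₂ * A * Z) := by
          refine mul_le_mul_of_nonneg_left ?_ (by positivity)
          refine mul_le_mul_of_nonneg_left ?_ (by positivity)
          exact hsum.sum_le_tsum _ fun J _ => Real.rpow_nonneg (Nat.cast_nonneg _) _
      _ = (2 ^ S.card * C₂ * Z) * A := by ring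
      _ ≤ C * A := mul_le_mul_of_nonneg_right (by linarith) hA0

/-- `TT` is finite for `c ≠ 0`. -/
theorem TT_finite {k : Type} [Field k] [NumberField k] (S : Finset (Pr k)) (a : 𝓞 k)
    (ha : a ≠ 0) : (TT S (a : k)).Finite := by
  obtain ⟨T, J, hJ, h⟩ := t1_decomp (Ideal.span {a}) (by
    rw [Ne, Ideal.span_singleton_eq_bot]; exact ha)
  refine T.finite_toSet.subset ?_
  rintro v ⟨-, hv⟩
  exact (t1_odd a ha T J hJ h v).1 hv

/-- A prime in `TT S a` contains `a`. -/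
theorem TT_mem {k : Type} [Field k] [NumberField k] (S : Finset (Pr k)) (a : 𝓞 k)
    (v : Pr k) (hv : v ∈ TT S (a : k)) : a ∈ v.asIdeal := by
  by_contra h
  apply hv.2
  refine ⟨1, ?_⟩
  rw [map_one, one_pow]
  exact (v.valuation_eq_one_iff_notMem (K := k)).2 h

/-- A prime outside `S` which contains `a` but whose square does not contain `a` is in `TT S a`. -/
theorem mem_TT {k : Type} [Field k] [NumberField k] (S : Finset (Pr k)) (a : 𝓞 k)
    (v : Pr k) (hv : v ∉ S) (h1 : a ∈ v.asIdeal) (h2 : a ∉ v.asIdeal ^ 2) :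
    v ∈ TT S (a : k) := by
  have ha : a ≠ 0 := by
    rintro rfl
    exact h2 (Submodule.zero_mem _)
  refine ⟨hv, ?_⟩
  rw [t1_ev v a ha]
  have e1 : v.intValuation a = WithZero.exp (-(t1ord v (Ideal.span {a}) : ℤ)) :=
    v.intValuation_if_neg ha
  have e2 : 1 ≤ t1ord v (Ideal.span {a}) := by
    have h3 := (v.intValuation_le_pow_iff_mem a 1).2 (by rwa [pow_one])
    rw [e1, WithZero.exp_le_exp] at h3
    push_cast at h3
    omega
  have e3 : ¬ 2 ≤ t1ord v (Ideal.span {a}) := by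
    intro h3
    apply h2
    rw [← v.intValuation_le_pow_iff_mem a 2, e1, WithZero.exp_le_exp]
    push_cast
    omega
  rw [Nat.even_iff]
  omega

end SC5
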