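import Pool.Agent.MP_c1dca2_ag.SC5.H0
import Pool.Agent.MP_c1dca2_ag.SC5.H2
import Pool.Agent.MP_c1dca2_ag.SC5.H3
import Pool.Agent.MP_c1dca2_ag.SC5.T1

/-!
# [SC5-H7] the configuration of a section

For `v ∈ TT S c` let `A_v` be the valuation ring of `v` (`SC3.exists_isVal`), `V_v` a valuation ring of `C` above `A_v`
(`SC2.exists_above`); `GoodAt A_v f` (`GS.good`), `¬ EvA A_v c` (`IsVal.ev`). `D.root`: `D.ρ V_v` is a root of `f`, so
`D.ρ V_v = τ_v (θ i_v)` for some `i_v`, `τ_v : L i_v →ₐ[k] C` (`emb_surj`). Let `w_v` be the prime with `Lies τ_v V_v w_v`,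
`bl k w_v = v` (`lies_exists`), `o_v = ⟨i_v, w_v⟩`, `P = {o_v | v ∈ TT S c}` (a finite set by `TT_finite`).
* `tt`, `Cfg.out`, `Cfg.inj`: `bl k o_v.2 = v`. `Cfg.deg`: for `g` stabilising `V_v`, `D.eqv` (with `V' = V`) gives
  `g (D.ρ V_v) = D.ρ V_v`, so `g` fixes `τ_v (θ i_v)` and hence `τ_v (L i_v)` (`RF.gen`): `deg_one`.
* `mem`: let `V` be above the valuation ring `A` of `v` (`A = A_v`, `isVal_unique`), `Lies τ V w`. By `SC2.exists_conj` there is `σ`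
  with `σ z ∈ V ↔ z ∈ V_v`; `D.ρ V = σ (D.ρ V_v)` (`D.eqv`), `Lies (σ ∘ τ_v) V w_v` (`lies_map`).
  If `τ (θ i) = D.ρ V = (σ ∘ τ_v) (θ i_v)` then `⟨i, τ⟩ = ⟨i_v, σ ∘ τ_v⟩` (`emb_inj`) and `w = w_v` (`lies_unique`), so
  `⟨i, w⟩ = o_v ∈ P`. Conversely let `⟨i, w⟩ ∈ P`, say `= o_{v'}`; `v' = bl k w = v` (`bl k w = v`: `lies_exists` and
  `lies_unique`). So `i = i_v`, `w = w_v`, and `τ`, `σ ∘ τ_v` both lie over `w` at `V`: by `emb_conj` there is `g` stabilising `V` with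
  `g ∘ (σ ∘ τ_v) = τ`, so `τ (θ i) = g (D.ρ V) = D.ρ V` (`D.eqv`).
-/

set_option autoImplicit false

open NumberField IsDedekindDomain Polynomial SC2 SC3

namespace SC5

variable {k C : Type} [Field k] [NumberField k] [Field C] [Algebra k C] [IsAlgClosed C]
  [IsGalois k C] {I : Type} [Fintype I] {L : I → Type} [∀ i, Field (L i)]
  [∀ i, NumberField (L i)] [∀ i, Algebra k (L i)]

/-- `P` is the configuration of the special roots of `D`. -/
structure Conf {f : k[X]} {c : k} (θ : ∀ i, L i) (S : Finset (Pr k)) (D : Dat k C f c)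
    (P : Finset (PL L)) : Prop where
  cfg : Cfg k S P
  tt : TT S c = (fun o => bl k o.2) '' (P : Set (PL L))
  mem : ∀ v ∈ TT S c, ∀ A : ValuationSubring k, IsVal v A → ∀ V : ValuationSubring C,
    Above A V → ∀ (i : I) (τ : L i →ₐ[k] C) (w : Pr (L i)), Lies τ V w →
      ((⟨i, w⟩ : PL L) ∈ P ↔ τ (θ i) = D.ρ V)

theorem conf_exists {f : k[X]} {θ : ∀ i, L i} (hR : RF k L f θ) (hf : f ≠ 0)
    {S : Finset (Pr k)} {al : ∀ i, Pr (L i) → 𝓞 (L i)} {Cg : ℕ} (hS : GS k C f S al Cg)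
    (c : 𝓞 k) (hc : c ≠ 0) (D : Dat k C f (c : k)) :
    ∃ P : Finset (PL L), Conf θ S D P := by
  classical
  have key : ∀ v : TT S (c : k), ∃ (A : ValuationSubring k) (V : ValuationSubring C) (i : I)
      (τ : L i →ₐ[k] C) (w : Pr (L i)), IsVal (v : Pr k) A ∧ Above A V ∧ τ (θ i) = D.ρ V ∧
        Lies τ V w ∧ bl k w = v := by
    rintro ⟨v, hv⟩
    obtain ⟨A, hA⟩ := exists_isVal v
    obtain ⟨V, hV⟩ := exists_above (C := C) A
    have hg := hS.good v hv.1 A hA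
    have hn : ¬ EvA A (c : k) := fun h => hv.2 ((hA.ev _).1 h)
    obtain ⟨i, τ, hτ⟩ := emb_surj hR hf (D.ρ V) (D.root A V hg hV hn)
    obtain ⟨w, hw, hbl⟩ := lies_exists hA hV τ
    exact ⟨A, V, i, τ, w, hA, hV, hτ, hw, hbl⟩
  choose A V i τ w hA hV hτ hw hbl using key
  have hfin : Finite (TT S (c : k)) := (TT_finite S c hc).to_subtype
  have hgood : ∀ v : TT S (c : k), GoodAt (A v) f := fun v => hS.good v v.2.1 (A v) (hA v)
  have hn : ∀ v : TT S (c : k), ¬ EvA (A v) (c : k) := fun v h => v.2.2 (((hA v).ev _).1 h)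
  let o : TT S (c : k) → PL L := fun v => ⟨i v, w v⟩
  have hmemP : ∀ x : PL L, x ∈ (Set.finite_range o).toFinset ↔ ∃ v, o v = x := by
    intro x
    rw [Set.Finite.mem_toFinset, Set.mem_range]
  refine ⟨(Set.finite_range o).toFinset, ⟨?_, ?_, ?_⟩, ?_, ?_⟩
  · -- out
    intro x hx
    obtain ⟨v, rfl⟩ := (hmemP x).1 hx
    show bl k (w v) ∉ S
    rw [hbl v]
    exact v.2.1
  · -- deg
    intro x hx
    obtain ⟨v, rfl⟩ := (hmemP x).1 hx
    refine deg_one (hw v) fun g hg x => ?_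
    have h1 : D.ρ (V v) = g (D.ρ (V v)) :=
      D.eqv (A v) (V v) (V v) (hgood v) (hV v) (hV v) (hn v) g hg
    have h2 : ((g : C →ₐ[k] C).comp (τ v)) (θ (i v)) = (τ v) (θ (i v)) := by
      show g ((τ v) (θ (i v))) = (τ v) (θ (i v))
      rw [hτ v, ← h1]
    have h3 := emb_inj hR hf _ _ h2
    have h4 : (g : C →ₐ[k] C).comp (τ v) = τ v := eq_of_heq (Sigma.mk.inj_iff.1 h3).2
    exact DFunLike.congr_fun h4 x
  · -- inj
    intro x hx y hy hxy
    obtain ⟨v, rfl⟩ := (hmemP x).1 hx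
    obtain ⟨v', rfl⟩ := (hmemP y).1 hy
    have h1 : bl k (w v) = bl k (w v') := hxy
    rw [hbl v, hbl v'] at h1
    have h2 : v = v' := Subtype.ext h1
    rw [h2]
  · -- tt
    ext v
    constructor
    · intro hv
      refine ⟨o ⟨v, hv⟩, ?_, hbl ⟨v, hv⟩⟩
      rw [Finset.mem_coe, hmemP]
      exact ⟨_, rfl⟩
    · rintro ⟨x, hx, rfl⟩
      rw [Finset.mem_coe, hmemP] at hx
      obtain ⟨v', rfl⟩ := hx
      show bl k (w v') ∈ TT S (c : k)
      rw [hbl v']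
      exact v'.2
  · -- mem
    intro v hv A' hA' V' hV' i' τ' w' hL
    set v₀ : TT S (c : k) := ⟨v, hv⟩ with hv₀
    have hAA : A' = A v₀ := isVal_unique hA' (hA v₀)
    subst hAA
    obtain ⟨σ, hσ⟩ := exists_conj (hV v₀) hV'
    have hρ : D.ρ V' = σ (D.ρ (V v₀)) :=
      D.eqv (A v₀) (V v₀) V' (hgood v₀) (hV v₀) hV' (hn v₀) σ hσ
    have hLσ : Lies ((σ : C →ₐ[k] C).comp (τ v₀)) V' (w v₀) := lies_map σ hσ (hw v₀)
    have hρ2 : D.ρ V' = ((σ : C →ₐ[k] C).comp (τ v₀)) (θ (i v₀)) := by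
      show D.ρ V' = σ ((τ v₀) (θ (i v₀)))
      rw [hρ, hτ v₀]
    refine (hmemP ⟨i', w'⟩).trans ?_
    constructor
    · rintro ⟨v', hv'⟩
      have h1 : bl k w' = v := by
        obtain ⟨w'', hL'', hb''⟩ := lies_exists hA' hV' τ'
        rw [lies_unique hL hL'', hb'']
      have h2 : bl k (w v') = bl k w' := congrArg (fun x : PL L => bl k x.2) hv'
      rw [hbl v', h1] at h2
      have h3 : v' = v₀ := Subtype.ext h2
      subst h3
      obtain ⟨h4, h5⟩ := Sigma.mk.inj_iff.1 hv'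
      subst h4
      have h6 : w v₀ = w' := eq_of_heq h5
      subst h6
      obtain ⟨g, hg, hgx⟩ := emb_conj hLσ hL
      rw [← hgx, ← hρ2]
      exact (D.eqv (A v₀) V' V' (hgood v₀) hV' hV' (hn v₀) g hg).symm
    · intro h1
      rw [hρ2] at h1
      obtain ⟨h2, h3⟩ := Sigma.mk.inj_iff.1 (emb_inj hR hf _ _ h1)
      subst h2
      have h4 : τ' = (σ : C →ₐ[k] C).comp (τ v₀) := eq_of_heq h3
      subst h4
      refine ⟨v₀, ?_⟩
      have h5 : w v₀ = w' := lies_unique hLσ hL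
      show (⟨i v₀, w v₀⟩ : PL L) = ⟨i v₀, w'⟩
      rw [h5]

end SC5
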