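import Pool.Agent.MP_c1dca2_ag.SC5.H9
import Pool.Agent.MP_c1dca2_ag.SC5.J1

/-!
# [SC5-J2] the interface, for a given large set `S`

`U` from `sel` (for `S`); `R` = the finset of the roots of `f` in `C` (`(f.aroots C).toFinset`); `κ = (p : R ×ˢ R) → ↥(insert 1 (U p.1.1 p.1.2))`
(finite); for `x : κ` let `ux x a b = x ⟨(a, b), _⟩` if `a, b ∈ R` and `1` otherwise. `EE` is the sign defined below; `E x o = EE θ (ux x) o`.

Given `c`, `D`: take `P` from `conf_exists`. For `a ≠ b` in `R`: `a = τ (θ i)`, `b = τ' (θ j)` (`emb_surj`), `kap_even` and `sel` give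
`e ∈ U a b` and `t ∈ FF k a b` with `δ(a,b) τ(PP i) τ'(PP j) e = t^2`; put `x ⟨(a, b), _⟩ = e` (and `1` if `a = b`). (For given `a`, `b` the
pairs `⟨i, τ⟩`, `⟨j, τ'⟩` are unique, `emb_inj`.)
`Rel`: let `o ∈ P`, `q, q'` as in `Rel`, `m` the lcm, `s = sgn q ^ (m/f) * sgn q' ^ (m/f')`. By `rel_key` (with
`e = ux x a b`), all data as in `EE` satisfy `φ^m (z γ) = s z γ`, and `z γ ≠ 0` (`e ≠ 0`, `γ^2 ≠ 0` because `τ (θ o.1)` is different from both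
roots: `emb_inj`, `lies_unique`, `q, q' ≠ o`). Data exist: `A` the valuation ring of `v = bl k o.2`, `V` above `A`, embeddings by `emb_exists`,
`φ` by `SC2.exists_frob` (`IsVal.card`, `IsVal.fin`), square roots exist. If `s = 1` then `EE = 1`; if `s = -1` then no data satisfies the last condition (`2 ≠ 0`) and `EE = -1`.
So `EE = s`.
-/

set_option autoImplicit false

open NumberField IsDedekindDomain Polynomial SC2 SC3

noncomputable section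

namespace SC5

open scoped Classical in
/-- The prescribed sign. -/
def EE {k C : Type} [Field k] [NumberField k] [Field C] [Algebra k C] {I : Type} {L : I → Type}
    [∀ i, Field (L i)] [∀ i, NumberField (L i)] [∀ i, Algebra k (L i)] (θ : ∀ i, L i)
    (u : C → C → C) (o q q' : PL L) : ℤˣ :=
  if ∃ (V : ValuationSubring C) (τ : L o.1 →ₐ[k] C) (τ₁ : L q.1 →ₐ[k] C)
      (τ₂ : L q'.1 →ₐ[k] C) (φ : C ≃ₐ[k] C) (z γ : C), Lies τ V o.2 ∧ Lies τ₁ V q.2 ∧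
        Lies τ₂ V q'.2 ∧ Frob (nv (bl k o.2)) V φ ∧
        z ^ 2 = u (τ₁ (θ q.1)) (τ₂ (θ q'.1)) ∧
        γ ^ 2 = (τ (θ o.1) - τ₁ (θ q.1)) * (τ (θ o.1) - τ₂ (θ q'.1)) ∧
        (φ ^ (Nat.lcm (dg k q.2) (dg k q'.2))) (z * γ) = z * γ then 1 else -1

section

variable {k C : Type} [Field k] [NumberField k] [Field C] [Algebra k C] [IsAlgClosed C]
  [IsGalois k C] {I : Type} [Fintype I] {L : I → Type} [∀ i, Field (L i)]
  [∀ i, NumberField (L i)] [∀ i, Algebra k (L i)]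

omit [IsGalois k C] [Fintype I] in
theorem j2_ne {f : k[X]} {θ : ∀ i, L i} (hR : RF k L f θ) (hf : f ≠ 0)
    {V : ValuationSubring C} (q q' : PL L) (τ : L q.1 →ₐ[k] C) (τ' : L q'.1 →ₐ[k] C)
    (h : Lies τ V q.2) (h' : Lies τ' V q'.2) (hne : q ≠ q') : τ (θ q.1) ≠ τ' (θ q'.1) := by
  intro he
  apply hne
  have h1 := emb_inj hR hf τ τ' he
  obtain ⟨i, w⟩ := q
  obtain ⟨j, w'⟩ := q'
  obtain ⟨h2, h3⟩ := Sigma.mk.inj_iff.1 h1
  change i = j at h2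
  subst h2
  have h4 : τ = τ' := eq_of_heq h3
  subst h4
  rw [show w = w' from lies_unique h h']

open scoped Classical in
/-- the function `ux` -/
def j2u (R : Finset C) (U : C → C → Finset C)
    (x : (p : ↥(R ×ˢ R)) → ↥(insert 1 (U p.1.1 p.1.2))) (a b : C) : C :=
  if h : (a, b) ∈ R ×ˢ R then (x ⟨(a, b), h⟩ : C) else 1

theorem j2_claim {f : k[X]} {θ : ∀ i, L i} (hR : RF k L f θ) (hf : f ≠ 0)
    {S : Finset (Pr k)} {al : ∀ i, Pr (L i) → 𝓞 (L i)} {Cg : ℕ} (hS : GS k C f S al Cg)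
    (c : 𝓞 k) (D : Dat k C f (c : k)) (P : Finset (PL L)) (hP : Conf θ S D P)
    (U : C → C → Finset C) (hU : ∀ a b, (∀ e ∈ U a b, e ≠ 0 ∧ e ∈ FF k a b) ∧
      ∀ d : FF k a b, d ≠ 0 → (∀ u : Pr (FF k a b), bl k u ∉ S → Ev u d) →
        ∃ e ∈ U a b, ∃ t ∈ FF k a b, (d : C) * e = t ^ 2)
    (a b : C) (ha : aeval a f = 0) (hb : aeval b f = 0) (hab : a ≠ b) :
    ∃ e ∈ U a b, ∀ (i j : I) (τ : L i →ₐ[k] C) (τ' : L j →ₐ[k] C), τ (θ i) = a → τ' (θ j) = b →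
      ∃ t ∈ FF k a b, D.δ a b * τ (PP al P i : L i) * τ' (PP al P j : L j) * e = t ^ 2 := by
  obtain ⟨i, τ, rfl⟩ := emb_surj hR hf a ha
  obtain ⟨j, τ', rfl⟩ := emb_surj hR hf b hb
  obtain ⟨d, hd, hd0, hev⟩ := kap_even hR hf hS c D P hP τ τ' hab
  obtain ⟨e, heU, t, ht, hdt⟩ := (hU _ _).2 d hd0 hev
  refine ⟨e, heU, fun i₁ j₁ τ₁ τ₁' h1 h2 => ⟨t, ht, ?_⟩⟩
  obtain ⟨h3, h4⟩ := Sigma.mk.inj_iff.1 (emb_inj hR hf τ₁ τ h1)
  obtain ⟨h5, h6⟩ := Sigma.mk.inj_iff.1 (emb_inj hR hf τ₁' τ' h2)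
  subst h3
  subst h5
  have h7 : τ₁ = τ := eq_of_heq h4
  have h8 : τ₁' = τ' := eq_of_heq h6
  rw [h7, h8, ← hdt, hd]

end

theorem interface_S {k C : Type} [Field k] [NumberField k] [Field C] [Algebra k C]
    [IsAlgClosed C] [IsGalois k C] {I : Type} [Fintype I] {L : I → Type} [∀ i, Field (L i)]
    [∀ i, NumberField (L i)] [∀ i, Algebra k (L i)] {f : k[X]} {θ : ∀ i, L i}
    (hR : RF k L f θ) (hf : f ≠ 0) {S : Finset (Pr k)} {al : ∀ i, Pr (L i) → 𝓞 (L i)} {Cg : ℕ}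
    (hS : GS k C f S al Cg) :
    ∃ (κ : Type) (_ : Finite κ) (E : κ → PL L → PL L → PL L → ℤˣ), ∀ c : 𝓞 k, c ≠ 0 →
      Nonempty (Dat k C f (c : k)) → ∃ (x : κ) (P : Finset (PL L)), Cfg k S P ∧
        TT S (c : k) = (fun o => bl k o.2) '' (P : Set (PL L)) ∧
        ∀ o ∈ P, Rel k (E x o) o (sgn al P) := by
  classical
  have hC0 : CharZero C := charZero_of_injective_algebraMap (algebraMap k C).injective
  obtain ⟨U, hU⟩ := sel (k := k) (C := C) S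
  set R : Finset C := (f.aroots C).toFinset with hRd
  have hRm : ∀ a, a ∈ R ↔ aeval a f = 0 := by
    intro a
    rw [hRd, Multiset.mem_toFinset, mem_aroots]
    exact ⟨fun h => h.2, fun h => ⟨hf, h⟩⟩
  refine ⟨(p : ↥(R ×ˢ R)) → ↥(insert 1 (U p.1.1 p.1.2)), inferInstance,
    fun x o => EE (k := k) θ (j2u R U x) o, ?_⟩
  rintro c hc ⟨D⟩
  obtain ⟨P, hP⟩ := conf_exists hR hf hS c hc D
  have key := fun a b ha hb hab => j2_claim hR hf hS c D P hP U hU a b ha hb hab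
  choose e heU het using key
  have hx0 : ∀ (p : ↥(R ×ˢ R)), ∃ y : ↥(insert 1 (U p.1.1 p.1.2)), ∀ (ha : aeval p.1.1 f = 0)
      (hb : aeval p.1.2 f = 0) (hab : p.1.1 ≠ p.1.2), (y : C) = e p.1.1 p.1.2 ha hb hab := by
    intro p
    by_cases hab : p.1.1 ≠ p.1.2
    · have hp := Finset.mem_product.1 p.2
      exact ⟨⟨e p.1.1 p.1.2 ((hRm _).1 hp.1) ((hRm _).1 hp.2) hab,
        Finset.mem_insert_of_mem (heU _ _ _ _ _)⟩, fun _ _ _ => rfl⟩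
    · exact ⟨⟨1, Finset.mem_insert_self _ _⟩, fun _ _ h => absurd h hab⟩
  choose x hx using hx0
  refine ⟨x, P, hP.cfg, hP.tt, fun o ho => ?_⟩
  have hux : ∀ (a b : C) (ha : aeval a f = 0) (hb : aeval b f = 0) (hab : a ≠ b),
      j2u R U x a b = e a b ha hb hab := by
    intro a b ha hb hab
    have hm : (a, b) ∈ R ×ˢ R := Finset.mem_product.2 ⟨(hRm a).2 ha, (hRm b).2 hb⟩
    unfold j2u
    rw [dif_pos hm]
    exact hx ⟨(a, b), hm⟩ ha hb hab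
  intro q q' hq hq' hqo hqo' hqq
  set s : ℤˣ := sgn al P q ^ (Nat.lcm (dg k q.2) (dg k q'.2) / dg k q.2) *
    sgn al P q' ^ (Nat.lcm (dg k q.2) (dg k q'.2) / dg k q'.2) with hs
  -- the key relation for all data
  have hall : ∀ (V : ValuationSubring C) (τ : L o.1 →ₐ[k] C) (τ₁ : L q.1 →ₐ[k] C)
      (τ₂ : L q'.1 →ₐ[k] C) (φ : C ≃ₐ[k] C) (z γ : C), Lies τ V o.2 → Lies τ₁ V q.2 →
        Lies τ₂ V q'.2 → Frob (nv (bl k o.2)) V φ →
        z ^ 2 = j2u R U x (τ₁ (θ q.1)) (τ₂ (θ q'.1)) →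
        γ ^ 2 = (τ (θ o.1) - τ₁ (θ q.1)) * (τ (θ o.1) - τ₂ (θ q'.1)) →
        (φ ^ (Nat.lcm (dg k q.2) (dg k q'.2))) (z * γ) = ((s : ℤ) : C) * (z * γ) ∧
          z * γ ≠ 0 := by
    intro V τ τ₁ τ₂ φ z γ h h₁ h₂ hφ hz hγ
    have ha := emb_root hR q.1 τ₁
    have hb := emb_root hR q'.1 τ₂
    have hab := j2_ne hR hf q q' τ₁ τ₂ h₁ h₂ hqq
    rw [hux _ _ ha hb hab] at hz
    obtain ⟨t, ht, hdt⟩ := het _ _ ha hb hab q.1 q'.1 τ₁ τ₂ rfl rfl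
    have he0 : e _ _ ha hb hab ≠ 0 := ((hU _ _).1 _ (heU _ _ ha hb hab)).1
    refine ⟨rel_key hR hf hS c D P hP o q q' ho hq hq' hqo hqo' hqq V τ τ₁ τ₂ h h₁ h₂ φ hφ _ t z γ
      he0 ht hdt hz hγ, mul_ne_zero ?_ ?_⟩
    · intro h0
      rw [h0, zero_pow two_ne_zero] at hz
      exact he0 hz.symm
    · intro h0
      rw [h0, zero_pow two_ne_zero] at hγ
      rcases mul_eq_zero.1 hγ.symm with h3 | h3
      · exact j2_ne hR hf q o τ₁ τ h₁ h hqo (sub_eq_zero.1 h3).symm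
      · exact j2_ne hR hf q' o τ₂ τ h₂ h hqo' (sub_eq_zero.1 h3).symm
  rcases Int.units_eq_one_or s with h1 | h1
  · rw [h1]
    symm
    apply if_pos
    obtain ⟨A, hA⟩ := exists_isVal (bl k o.2)
    obtain ⟨V, hV⟩ := SC2.exists_above (C := C) A
    obtain ⟨τ, hτ⟩ := emb_exists hV o.2 hA
    obtain ⟨τ₁, hτ₁⟩ := emb_exists hV q.2 (by rw [hq]; exact hA)
    obtain ⟨τ₂, hτ₂⟩ := emb_exists hV q'.2 (by rw [hq']; exact hA)
    have hfin := hA.fin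
    obtain ⟨φ, hφ⟩ := SC2.exists_frob hV
    rw [hA.card] at hφ
    obtain ⟨z, hz⟩ := IsAlgClosed.exists_pow_nat_eq (j2u R U x (τ₁ (θ q.1)) (τ₂ (θ q'.1))) two_pos
    obtain ⟨γ, hγ⟩ := IsAlgClosed.exists_pow_nat_eq
      ((τ (θ o.1) - τ₁ (θ q.1)) * (τ (θ o.1) - τ₂ (θ q'.1))) two_pos
    refine ⟨V, τ, τ₁, τ₂, φ, z, γ, hτ, hτ₁, hτ₂, hφ, hz, hγ, ?_⟩
    rw [(hall V τ τ₁ τ₂ φ z γ hτ hτ₁ hτ₂ hφ hz hγ).1, h1]
    simp
  · rw [h1]
    symm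
    apply if_neg
    rintro ⟨V, τ, τ₁, τ₂, φ, z, γ, hτ, hτ₁, hτ₂, hφ, hz, hγ, hfin⟩
    obtain ⟨h2, h3⟩ := hall V τ τ₁ τ₂ φ z γ hτ hτ₁ hτ₂ hφ hz hγ
    rw [hfin, h1] at h2
    apply h3
    have h4 : (2 : C) * (z * γ) = 0 := by
      have h5 : z * γ = -(z * γ) := by
        simpa using h2
      linear_combination h5
    rcases mul_eq_zero.1 h4 with h5 | h5
    · exact absurd h5 two_ne_zero
    · exact h5

end SC5
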