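import Pool.Agent.MP_c1dca2_ag.SC5.HD

/-!
# [SC5-H0] roots and embeddings

* `emb_inj`: `minpoly k (θ i) = minpoly k (τ (θ i))` (`minpoly.algHom_eq`), so `minpoly k (θ i) = minpoly k (θ j)`, `i = j`
  (`RF.inj`), and two embeddings which agree on the generator agree (`RF.gen`).
* `emb_surj`: `minpoly k a` is monic, irreducible and divides `f`, so it is `minpoly k (θ i)` for some `i` (`RF.all`); then there is an
  embedding of `L i = k(θ i)` (`RF.gen`) with `θ i ↦ a` (e.g. `IntermediateField.exists_algHom_of_adjoin_splits`,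
  `IntermediateField.algHomAdjoinIntegralEquiv`, or `AdjoinRoot`).
* `FF_mem`: `x` is fixed by all automorphisms of `C / F`, `F = k(a, b)`, and `C / F` is Galois (infinite Galois theory:
  `InfiniteGalois.fixedField_fixingSubgroup`, or directly: if `x ∉ F` its minimal polynomial over `F` has another root, and
  there is an automorphism moving `x`).
* `emb_FF`: `τ (θ i) = a` or `b` is in `F`, and `θ i` generates `L i`.
-/

set_option autoImplicit false

open NumberField IsDedekindDomain Polynomial

namespace SC5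

theorem h0_ext {k L C : Type} [Field k] [Field L] [Field C] [Algebra k L] [Algebra k C] {θ : L}
    (hg : IntermediateField.adjoin k {θ} = ⊤) {τ τ' : L →ₐ[k] C} (h : τ θ = τ' θ) : τ = τ' := by
  have key : ∀ x ∈ IntermediateField.adjoin k {θ}, τ x = τ' x := by
    intro x hx
    induction hx using IntermediateField.adjoin_induction with
    | mem x hx =>
      rw [Set.mem_singleton_iff] at hx
      rw [hx, h]
    | algebraMap x => rw [τ.commutes, τ'.commutes]
    | add x y _ _ h1 h2 => rw [map_add, map_add, h1, h2]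
    | inv x _ h1 => rw [map_inv₀, map_inv₀, h1]
    | mul x y _ _ h1 h2 => rw [map_mul, map_mul, h1, h2]
  ext x
  exact key x (by rw [hg]; trivial)

section

variable {k C : Type} [Field k] [CharZero k] [Field C] [Algebra k C] [IsAlgClosed C] {I : Type}
  {L : I → Type} [∀ i, Field (L i)] [∀ i, Algebra k (L i)] {f : k[X]} {θ : ∀ i, L i}

theorem emb_inj (hR : RF k L f θ) (hf : f ≠ 0) {i j : I} (τ : L i →ₐ[k] C) (τ' : L j →ₐ[k] C)
    (h : τ (θ i) = τ' (θ j)) :
    (⟨i, τ⟩ : Σ i, L i →ₐ[k] C) = ⟨j, τ'⟩ := by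
  have h1 : minpoly k (θ i) = minpoly k (θ j) := by
    rw [← minpoly.algHom_eq τ τ.injective (θ i), ← minpoly.algHom_eq τ' τ'.injective (θ j), h]
  have hij := hR.inj i j h1
  subst hij
  rw [h0_ext (hR.gen i) h]

theorem emb_surj (hR : RF k L f θ) (hf : f ≠ 0) (a : C) (ha : aeval a f = 0) :
    ∃ (i : I) (τ : L i →ₐ[k] C), τ (θ i) = a := by
  have hint : IsIntegral k a := (show IsAlgebraic k a from ⟨f, hf, ha⟩).isIntegral
  obtain ⟨i, hi⟩ := hR.all (minpoly k a) (minpoly.monic hint) (minpoly.irreducible hint)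
    (minpoly.dvd k a ha)
  have hint' : IsIntegral k (θ i) := (show IsAlgebraic k (θ i) from ⟨f, hf, hR.root i⟩).isIntegral
  have hmem : a ∈ (minpoly k (θ i)).aroots C := by
    rw [mem_aroots]
    refine ⟨minpoly.ne_zero hint', ?_⟩
    rw [hi]
    exact minpoly.aeval k a
  let g := (IntermediateField.algHomAdjoinIntegralEquiv k hint' (K := C)).symm ⟨a, hmem⟩
  let e : IntermediateField.adjoin k {θ i} ≃ₐ[k] L i :=
    (IntermediateField.equivOfEq (hR.gen i)).trans IntermediateField.topEquiv
  refine ⟨i, (g : IntermediateField.adjoin k {θ i} →ₐ[k] C).comp (e.symm.toAlgHom), ?_⟩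
  have h1 : e (IntermediateField.AdjoinSimple.gen k (θ i)) = θ i := rfl
  have h2 : e.symm (θ i) = IntermediateField.AdjoinSimple.gen k (θ i) := by
    rw [AlgEquiv.symm_apply_eq, h1]
  change g (e.symm (θ i)) = a
  rw [h2]
  exact IntermediateField.algHomAdjoinIntegralEquiv_symm_apply_gen k hint' _

theorem emb_root (hR : RF k L f θ) (i : I) (τ : L i →ₐ[k] C) : aeval (τ (θ i)) f = 0 := by
  rw [aeval_algHom_apply, hR.root i, map_zero]

theorem h0_mem (a b : C) : a ∈ FF k a b ∧ b ∈ FF k a b :=
  ⟨IntermediateField.subset_adjoin k _ (Set.mem_insert _ _),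
    IntermediateField.subset_adjoin k _ (Set.mem_insert_of_mem _ rfl)⟩

theorem FF_mem [IsGalois k C] (a b x : C)
    (hx : ∀ σ : C ≃ₐ[k] C, σ a = a → σ b = b → σ x = x) : x ∈ FF k a b := by
  rw [← InfiniteGalois.fixedField_fixingSubgroup (FF k a b)]
  rw [IntermediateField.mem_fixedField_iff]
  intro σ hσ
  rw [IntermediateField.mem_fixingSubgroup_iff] at hσ
  exact hx σ (hσ a (h0_mem a b).1) (hσ b (h0_mem a b).2)

theorem FF_fix (a b x : C) (hx : x ∈ FF k a b) (σ : C ≃ₐ[k] C) (ha : σ a = a) (hb : σ b = b) :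
    σ x = x := by
  unfold FF at hx
  induction hx using IntermediateField.adjoin_induction with
  | mem x hx =>
    rcases hx with rfl | hx
    · exact ha
    · rw [Set.mem_singleton_iff] at hx
      rw [hx, hb]
  | algebraMap x => rw [σ.commutes]
  | add x y _ _ h1 h2 => rw [map_add, h1, h2]
  | inv x _ h1 => rw [map_inv₀, h1]
  | mul x y _ _ h1 h2 => rw [map_mul, h1, h2]

theorem emb_FF (hR : RF k L f θ) (i : I) (τ : L i →ₐ[k] C) (a b : C)
    (h : τ (θ i) = a ∨ τ (θ i) = b) : ∃ τ' : L i →ₐ[k] FF k a b, ∀ x, (τ' x : C) = τ x := by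
  have key : ∀ x ∈ IntermediateField.adjoin k {θ i}, τ x ∈ FF k a b := by
    intro x hx
    induction hx using IntermediateField.adjoin_induction with
    | mem x hx =>
      rw [Set.mem_singleton_iff] at hx
      rw [hx]
      rcases h with h | h
      · rw [h]; exact (h0_mem a b).1
      · rw [h]; exact (h0_mem a b).2
    | algebraMap x => rw [τ.commutes]; exact (FF k a b).algebraMap_mem x
    | add x y _ _ h1 h2 => rw [map_add]; exact add_mem h1 h2
    | inv x _ h1 => rw [map_inv₀]; exact inv_mem h1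
    | mul x y _ _ h1 h2 => rw [map_mul]; exact mul_mem h1 h2
  have key' : ∀ x, τ x ∈ (FF k a b).toSubalgebra := fun x => key x (by rw [hR.gen i]; trivial)
  exact ⟨(τ.codRestrict (FF k a b).toSubalgebra key' : L i →ₐ[k] (FF k a b).toSubalgebra), fun x => rfl⟩

end

end SC5
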