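import Pool.Agent.MP_c1dca2_ag.SC5.A2
import Pool.Agent.MP_c1dca2_ag.SC5.A3
import Pool.Agent.MP_c1dca2_ag.SC5.H0

/-!
# [SC5-J3] a large set `S` exists

`exists_gen (L i)` gives `al i`, `C i`; let `Cg` be the maximum (`Gen` is monotone in `C`). `S` is the union of the finite sets of the
`v` such that
* `v` is a bad place (`SC3.good_places f hsep`);
* `2 ∈ v` (`finite_mem`);
* `v` is in the set of `unram k (L i)` for some `i`;
* `v = bl k w` with `w : Pr (L i)`, `nv w ≤ Cg` (`finite_nv`);
* for `a, b` in the finite set of the roots of `f` in `C`, `i : I` and `τ : L i →ₐ[k] FF k a b` (finitely many: a finite extension has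
  finitely many embeddings; `θ i` generates `L i` and its image is one of finitely many roots): `v = bl k w`, `w` in the finite set of
  `unram (L i) (FF k a b)`, the algebra structure given by `τ`.
`evF`: for `u`, `w` with the given property, `bl (L i) u = w` for the algebra structure given by `τ` (compare the ideals: `x ∈ 𝓞 (L i)` is
in `w` iff `x = 0` or the valuation of `x⁻¹` is larger than `1`), `bl k w = bl k u` (`bl_bl`; `IsScalarTower k (L i) F` because `τ` is a
`k`-homomorphism) not in `S`; the second statement of `unram`.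
-/

set_option autoImplicit false

open NumberField IsDedekindDomain Polynomial SC2 SC3

namespace SC5

theorem j3_lt {L F : Type} [Field L] [NumberField L] [Field F] [NumberField F] (τ : L →+* F)
    (w : Pr L) (u : Pr F) (h : ∀ x, w.valuation L x ≤ 1 ↔ u.valuation F (τ x) ≤ 1) (x : L) :
    w.valuation L x < 1 ↔ u.valuation F (τ x) < 1 := by
  by_cases hx : x = 0
  · rw [hx, map_zero, map_zero, map_zero]
  · have h1 := h x⁻¹
    rw [map_inv₀, map_inv₀, map_inv₀] at h1
    have hw : w.valuation L x ≠ 0 := (Valuation.ne_zero_iff _).2 hx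
    have hu : u.valuation F (τ x) ≠ 0 :=
      (Valuation.ne_zero_iff _).2 ((map_ne_zero τ).2 hx)
    rw [inv_le_one₀ (zero_lt_iff.2 hw), inv_le_one₀ (zero_lt_iff.2 hu)] at h1
    rw [← not_le, ← not_le, h1]

theorem j3_ev {k L F : Type} [Field k] [NumberField k] [Field L] [NumberField L] [Field F]
    [NumberField F] [Algebra k L] [Algebra k F] (τ : L →ₐ[k] F) :
    ∃ S : Finset (Pr k), ∀ u : Pr F, bl k u ∉ S → ∀ w : Pr L,
      (∀ x, w.valuation L x ≤ 1 ↔ u.valuation F (τ x) ≤ 1) → ∀ y, Ev u (τ y) ↔ Ev w y := by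
  classical
  let _ : Algebra L F := τ.toRingHom.toAlgebra
  have : IsScalarTower k L F := IsScalarTower.of_algebraMap_eq (fun x => (τ.commutes x).symm)
  obtain ⟨S', hS'⟩ := unram L F
  refine ⟨S'.image (bl k), fun u hu w hw y => ?_⟩
  have hb : bl L u = w := by
    apply HeightOneSpectrum.ext
    ext x
    rw [mem_bl, ← HeightOneSpectrum.valuation_lt_one_iff_mem (K := F) u,
      ← HeightOneSpectrum.valuation_lt_one_iff_mem (K := L) w]
    exact (j3_lt (τ : L →+* F) w u hw (algebraMap (𝓞 L) L x)).symm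
  have hw' : w ∉ S' := by
    intro h
    apply hu
    rw [← bl_bl (k := k) (L := L) u, hb]
    exact Finset.mem_image_of_mem _ h
  exact (hS' w hw').2 u hb y

theorem gs_exists {k C : Type} [Field k] [NumberField k] [Field C] [Algebra k C]
    [IsAlgClosed C] [IsGalois k C] {I : Type} [Fintype I] {L : I → Type} [∀ i, Field (L i)]
    [∀ i, NumberField (L i)] [∀ i, Algebra k (L i)] {f : k[X]} {θ : ∀ i, L i}
    (hR : RF k L f θ) (hsep : f.Separable) (h2 : ∀ i, 2 ≤ Module.finrank k (L i))
    (h4 : 4 ≤ ∑ i, Module.finrank k (L i)) :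
    ∃ (S : Finset (Pr k)) (al : ∀ i, Pr (L i) → 𝓞 (L i)) (Cg : ℕ), GS k C f S al Cg := by
  classical
  choose al Cf hal using fun i => exists_gen (L i)
  choose Su hSu using fun i => unram k (L i)
  have hev : ∀ (a b : C) (i : I) (τ : L i →ₐ[k] FF k a b), ∃ S : Finset (Pr k),
      ∀ u : Pr (FF k a b), bl k u ∉ S → ∀ w : Pr (L i),
        (∀ x, w.valuation (L i) x ≤ 1 ↔ u.valuation (FF k a b) (τ x) ≤ 1) →
          ∀ y, Ev u (τ y) ↔ Ev w y := fun a b i τ => j3_ev τ
  choose Se hSe using hev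
  set Cg := Finset.univ.sup Cf with hCg
  have hle : ∀ i, Cf i ≤ Cg := fun i => Finset.le_sup (Finset.mem_univ i)
  set R : Set C := {a | aeval a f = 0} with hRd
  have hf0 : f ≠ 0 := hsep.ne_zero
  have hRfin : R.Finite := by
    refine (f.aroots C).toFinset.finite_toSet.subset ?_
    intro a ha
    rw [Finset.mem_coe, Multiset.mem_toFinset, mem_aroots]
    exact ⟨hf0, ha⟩
  set B : Set (Pr k) := {v : Pr k | ∃ A, IsVal v A ∧ ¬ GoodAt A f} ∪ {v : Pr k | (2 : 𝓞 k) ∈ v.asIdeal} ∪
    (⋃ i, (Su i : Set (Pr k))) ∪ (⋃ i, (bl k) '' {w : Pr (L i) | nv w ≤ Cg}) ∪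
    (⋃ a ∈ R, ⋃ b ∈ R, ⋃ i, ⋃ τ : L i →ₐ[k] FF k a b, (Se a b i τ : Set (Pr k))) with hB
  have hBfin : B.Finite := by
    refine Set.Finite.union (Set.Finite.union (Set.Finite.union (Set.Finite.union
      (good_places f hsep) (finite_mem 2 two_ne_zero)) ?_) ?_) ?_
    · exact Set.finite_iUnion fun i => (Su i).finite_toSet
    · exact Set.finite_iUnion fun i => (finite_nv (L i) Cg).image _
    · refine hRfin.biUnion fun a _ => hRfin.biUnion fun b _ => Set.finite_iUnion fun i => ?_
      have : Finite (L i →ₐ[k] FF k a b) := inferInstance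
      exact Set.finite_iUnion fun τ => (Se a b i τ).finite_toSet
  refine ⟨hBfin.toFinset, al, Cg, ⟨⟨h2, h4, ?_, ?_, ?_, ?_⟩, ?_, ?_⟩⟩
  · intro i v hv T hT
    refine (hSu i v fun h => hv ?_).1 T hT
    rw [Set.Finite.mem_toFinset]
    exact Or.inl (Or.inl (Or.inr (Set.mem_iUnion.2 ⟨i, h⟩)))
  · intro v hv h
    apply hv
    rw [Set.Finite.mem_toFinset]
    exact Or.inl (Or.inl (Or.inl (Or.inr h)))
  · intro i
    refine ⟨(hal i).ne, (hal i).mem, (hal i).co, fun w w' hw => ?_, fun w hw => ?_⟩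
    · rcases (hal i).oth w w' hw with h | h
      · exact Or.inl h
      · exact Or.inr (h.trans (hle i))
    · exact (hal i).one w ((hle i).trans_lt hw)
  · intro i w hw
    by_contra hcon
    apply hw
    rw [Set.Finite.mem_toFinset]
    exact Or.inl (Or.inr (Set.mem_iUnion.2 ⟨i, w, not_lt.1 hcon, rfl⟩))
  · intro v hv A hA
    by_contra hcon
    apply hv
    rw [Set.Finite.mem_toFinset]
    exact Or.inl (Or.inl (Or.inl (Or.inl ⟨A, hA, hcon⟩)))
  · intro a b ha hb i τ u hu w hw y
    refine hSe a b i τ u (fun h => hu ?_) w hw y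
    rw [Set.Finite.mem_toFinset]
    refine Or.inr ?_
    simp only [Set.mem_iUnion]
    exact ⟨a, ha, b, hb, i, τ, h⟩

end SC5
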