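import Pool.Agent.MP_c1dca2_ag.SC5.HD

/-!
# [SC5-J4] the fields of the irreducible factors of `f`

`I` = the set of the monic irreducible divisors `p` of `f` (a finite set: `UniqueFactorizationMonoid.normalizedFactors f`, as a
subtype of its `toFinset`). For `p : I` choose a root `θ₀ p` of `p` in the splitting field `M` (`p ∣ f`, `f` splits in `M`), and
`L p = IntermediateField.adjoin k {θ₀ p}`, `θ p = ⟨θ₀ p, _⟩`. `gen`: `IntermediateField.adjoin_simple_adjoin_simple`
or `IntermediateField.AdjoinSimple` API; `minpoly k (θ p) = minpoly k (θ₀ p) = p` (irreducible, monic, with root `θ₀ p`), so `root`,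
`inj`, `all` are clear. `finrank k (L p) = natDegree p` (`IntermediateField.adjoin.finrank`), at least `2`, because a monic
irreducible `p` of degree `1` has a root in `k`, which would be a root of `f`. `∑ natDegree p = natDegree f`: `f` is separable, hence squarefree, so
it is a constant times the product of its distinct monic irreducible factors.
-/

set_option autoImplicit false

open Polynomial

namespace SC5

theorem j4_gen {k M : Type} [Field k] [Field M] [Algebra k M] (α : M) :
    IntermediateField.adjoin k {IntermediateField.AdjoinSimple.gen k α} = ⊤ := by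
  apply IntermediateField.map_injective (IntermediateField.adjoin k {α}).val
  rw [IntermediateField.adjoin_map, Set.image_singleton, ← AlgHom.fieldRange_eq_map,
    IntermediateField.fieldRange_val]
  rfl

theorem j4_main {k M : Type} [Field k] [Field M] [Algebra k M] (f : k[X]) (hsep : f.Separable)
    (hroot : ∀ a : k, f.eval a ≠ 0) (hM : (f.map (algebraMap k M)).Splits) :
    ∃ (I : Type) (_ : Fintype I) (L : I → IntermediateField k M)
      (θ : ∀ i, L i), RF k (fun i => L i) f θ ∧ (∀ i, 2 ≤ Module.finrank k (L i)) ∧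
        ∑ i, Module.finrank k (L i) = f.natDegree := by
  classical
  have hf0 : f ≠ 0 := hsep.ne_zero
  set F := (UniqueFactorizationMonoid.normalizedFactors f).toFinset with hF
  have hmem : ∀ p : k[X], p ∈ F ↔ p.Monic ∧ Irreducible p ∧ p ∣ f := by
    intro p
    rw [hF, Multiset.mem_toFinset, UniqueFactorizationMonoid.mem_normalizedFactors_iff' hf0]
    constructor
    · rintro ⟨h1, h2, h3⟩
      exact ⟨(normalize_eq_self_iff_monic h1.ne_zero).1 h2, h1, h3⟩
    · rintro ⟨h1, h2, h3⟩
      exact ⟨h2, (normalize_eq_self_iff_monic h2.ne_zero).2 h1, h3⟩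
  have hex : ∀ p : {p // p ∈ F}, ∃ x : M, aeval x p.1 = 0 := by
    rintro ⟨p, hp⟩
    obtain ⟨h1, h2, h3⟩ := (hmem p).1 hp
    have h4 : (p.map (algebraMap k M)).Splits :=
      hM.of_dvd (Polynomial.map_ne_zero hf0) (Polynomial.map_dvd (algebraMap k M) h3)
    obtain ⟨x, hx⟩ := h4.exists_eval_eq_zero (by
      rw [degree_map]
      exact (degree_pos_of_irreducible h2).ne')
    exact ⟨x, by rwa [eval_map_algebraMap] at hx⟩
  choose x hx using hex
  have hint : ∀ p : {p // p ∈ F}, IsIntegral k (x p) := fun p =>
    ⟨p.1, ((hmem p.1).1 p.2).1, hx p⟩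
  have hmin : ∀ p : {p // p ∈ F}, minpoly k (x p) = p.1 := by
    intro p
    obtain ⟨h1, h2, h3⟩ := (hmem p.1).1 p.2
    exact (minpoly.eq_of_irreducible_of_monic h2 (hx p) h1).symm
  have hmin' : ∀ p : {p // p ∈ F},
      minpoly k (IntermediateField.AdjoinSimple.gen k (x p)) = p.1 := by
    intro p
    rw [← hmin p]
    exact IntermediateField.minpoly_gen k (x p)
  have hfr : ∀ p : {p // p ∈ F}, Module.finrank k (IntermediateField.adjoin k {x p}) =
      p.1.natDegree := by
    intro p
    rw [IntermediateField.adjoin.finrank (hint p), hmin]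
  refine ⟨{p // p ∈ F}, inferInstance, fun p => IntermediateField.adjoin k {x p},
    fun p => IntermediateField.AdjoinSimple.gen k (x p), ⟨?_, ?_, ?_, ?_⟩, ?_, ?_⟩
  · intro p
    exact j4_gen (x p)
  · intro p
    obtain ⟨h1, h2, h3⟩ := (hmem p.1).1 p.2
    have h4 := minpoly.aeval k (IntermediateField.AdjoinSimple.gen k (x p))
    rw [hmin'] at h4
    exact aeval_eq_zero_of_dvd_aeval_eq_zero h3 h4
  · intro p q h
    rw [hmin', hmin'] at h
    exact Subtype.ext h
  · intro p h1 h2 h3
    exact ⟨⟨p, (hmem p).2 ⟨h1, h2, h3⟩⟩, hmin' _⟩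
  · intro p
    rw [hfr]
    obtain ⟨h1, h2, h3⟩ := (hmem p.1).1 p.2
    by_contra hlt
    have h5 : p.1.natDegree = 1 := by
      have h6 := h2.natDegree_pos
      omega
    obtain ⟨a, ha⟩ := exists_root_of_degree_eq_one (degree_eq_iff_natDegree_eq_of_pos one_pos |>.2 h5)
    exact hroot a (eval_eq_zero_of_dvd_of_eval_eq_zero h3 ha)
  · have h1 : ∀ p : {p // p ∈ F}, Module.finrank k (IntermediateField.adjoin k {x p}) =
      p.1.natDegree := hfr
    simp only [h1]
    rw [Finset.sum_coe_sort F (fun p => p.natDegree)]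
    have hnd : (UniqueFactorizationMonoid.normalizedFactors f).Nodup :=
      (UniqueFactorizationMonoid.squarefree_iff_nodup_normalizedFactors hf0).1 hsep.squarefree
    have h2 : natDegree (UniqueFactorizationMonoid.normalizedFactors f).prod = f.natDegree :=
      natDegree_eq_of_degree_eq (degree_eq_degree_of_associated
        (UniqueFactorizationMonoid.prod_normalizedFactors hf0))
    rw [← h2, natDegree_multiset_prod _ (UniqueFactorizationMonoid.zero_notMem_normalizedFactors f)]
    rw [Finset.sum_eq_multiset_sum, hF, Multiset.toFinset_val, hnd.dedup]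

theorem rf_exists {k : Type} [Field k] (f : k[X]) (hsep : f.Separable)
    (hroot : ∀ a : k, f.eval a ≠ 0) :
    ∃ (I : Type) (_ : Fintype I) (L : I → IntermediateField k f.SplittingField)
      (θ : ∀ i, L i), RF k (fun i => L i) f θ ∧ (∀ i, 2 ≤ Module.finrank k (L i)) ∧
        ∑ i, Module.finrank k (L i) = f.natDegree :=
  j4_main f hsep hroot (SplittingField.splits f)

end SC5
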