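import Pool.Agent.MP_c1dca2_ag.SC5.T1
import Pool.Agent.MP_c1dca2_ag.SC5.A4
import Pool.Agent.MP_c1dca2_ag.SC5.A7
import Pool.Agent.MP_c1dca2_ag.SC5.T4

/-!
# [SC5-Q1] most `c` have few prime factors, with a rate

`n = card ι ≥ 1`, `X = C N^n`. First `∑_{c ≠ 0 in the box} 2^#TT(c) ≤ C₃ N^n log N` (`N ≥ 2`): `TT S c` is contained in the set
`D(c)` of the primes containing `el b c`, all of norm `≤ C₁ N^n` (`TT_mem`, `norm_box`), and `2^#D(c)` is the number of subsets of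
`D(c)`, i.e. of the finite sets `V` of primes of norm `≤ C₁ N^n` with `el b c ∈ ∏_{v ∈ V} v` (distinct primes are coprime). By
`box_ideal` the sum is at most `∑_V C₂ N^n / ∏_{v ∈ V} nv v ≤ C₂ N^n ∏_{nv v ≤ C₁ N^n} (1 + 1/nv v) ≤ C₂ N^n exp (∑ 1/nv v)
≤ C₂ N^n exp (log log (C₁ N^n) + C₄) ≤ C₃ N^n log N` (`sum_upper` with `z = 3/2`; for `C₁ N^n ≥ 2`).
So the number in question is at most `C₃ N^n log N * 2^(-(log log X)^2)`, and `2^((log log X)^2) ≥ (log N)^2` for large `N`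
(`(log 2) (log log X)^2 ≥ 2 log log N`). For the finitely many remaining `N ≥ 2` use the trivial bound `(2N+1)^n ≤ 3^n N^n` and a
large constant.
-/

set_option autoImplicit false

open NumberField IsDedekindDomain

namespace SC5

private theorem q1_prod_mem {k : Type} [Field k] [NumberField k] (a : 𝓞 k) (V : Finset (Pr k))
    (h : ∀ v ∈ V, a ∈ v.asIdeal) : a ∈ ∏ v ∈ V, v.asIdeal := by
  classical
  have e : ∏ v ∈ V, v.asIdeal = ∏ p ∈ V.image (fun v => v.asIdeal), p := by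
    rw [Finset.prod_image fun v _ w _ h => HeightOneSpectrum.ext h]
  rw [e, ← Ideal.dvd_span_singleton]
  apply Finset.prod_primes_dvd
  · intro p hp
    obtain ⟨v, -, rfl⟩ := Finset.mem_image.1 hp
    exact v.prime
  · intro p hp
    obtain ⟨v, hv, rfl⟩ := Finset.mem_image.1 hp
    exact Ideal.dvd_span_singleton.2 (h v hv)

/-- the sum over the primes of norm at most `B` -/
private theorem q1_sum (k : Type) [Field k] [NumberField k] : ∃ C : ℝ, ∀ B : ℕ, 2 ≤ B →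
    ∀ T : Finset (Pr k), (∀ v ∈ T, nv v ≤ B) →
      ∏ v ∈ T, (1 + ((nv v : ℝ))⁻¹) ≤ Real.exp C * Real.log B := by
  obtain ⟨C, hC⟩ := sum_upper k
  have h32 : 0 < Real.log (3 / 2) := Real.log_pos (by norm_num)
  refine ⟨C - Real.log (Real.log (3 / 2)), fun B hB T hT => ?_⟩
  have hB' : (2 : ℝ) ≤ B := by exact_mod_cast hB
  have hlB : 0 < Real.log B := Real.log_pos (by linarith)
  have h1 := hC (3 / 2) B le_rfl (by linarith) T (fun v hv => ⟨by
    have : (2 : ℝ) ≤ nv v := by exact_mod_cast two_le_nv v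
    linarith, by exact_mod_cast hT v hv⟩)
  have h2 : ∏ v ∈ T, (1 + ((nv v : ℝ))⁻¹) ≤ Real.exp (∑ v ∈ T, ((nv v : ℝ))⁻¹) := by
    rw [Real.exp_sum]
    refine Finset.prod_le_prod (fun v _ => by positivity) fun v _ => ?_
    rw [add_comm]
    exact Real.add_one_le_exp _
  refine h2.trans ((Real.exp_le_exp.2 h1).trans ?_)
  rw [Real.log_div hlB.ne' h32.ne']
  have e : Real.log (Real.log B) - Real.log (Real.log (3 / 2)) + C =
      (C - Real.log (Real.log (3 / 2))) + Real.log (Real.log B) := by ring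
  rw [e, Real.exp_add, Real.exp_log hlB]

private theorem q1_moment {k : Type} [Field k] [NumberField k] {ι : Type} [Fintype ι]
    (b : Module.Basis ι ℤ (𝓞 k)) (S : Finset (Pr k)) : ∃ C : ℝ, 0 < C ∧ ∀ N : ℕ, 2 ≤ N →
    ∀ A : Finset (ι → ℤ), (∀ c ∈ A, (∀ i, |c i| ≤ (N : ℤ)) ∧ c ≠ 0) →
      ∑ c ∈ A, (2 : ℝ) ^ (TT S ((el b c : 𝓞 k) : k)).ncard ≤
        C * (N : ℝ) ^ (Fintype.card ι) * Real.log N := by
  classical
  obtain ⟨C₂, hC₂, hbox⟩ := box_ideal b
  obtain ⟨C₁, hC₁, hnb⟩ := norm_box b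
  obtain ⟨C₄, hC₄⟩ := q1_sum k
  have hn : 0 < Fintype.card ι := by
    rw [card_basis b]
    exact Module.finrank_pos
  set n := Fintype.card ι with hndef
  have hn' : (0 : ℝ) < n := by exact_mod_cast hn
  have hC1' : (1 : ℝ) ≤ C₁ := by exact_mod_cast hC₁
  have hl2 : 0 < Real.log 2 := Real.log_pos (by norm_num)
  have hlC : 0 ≤ Real.log C₁ := Real.log_nonneg hC1'
  refine ⟨C₂ * Real.exp C₄ * (Real.log C₁ / Real.log 2 + n), by positivity, ?_⟩
  intro N hN A hA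
  have hN' : (2 : ℝ) ≤ N := by exact_mod_cast hN
  have hN0 : (0 : ℝ) < N := by linarith
  have hlN : Real.log 2 ≤ Real.log N := Real.log_le_log (by norm_num) hN'
  set B : ℕ := C₁ * N ^ n with hB
  have hB2 : 2 ≤ B := by
    have h1 : N ≤ N ^ n := Nat.le_self_pow hn.ne' N
    have h2 : N ^ n ≤ C₁ * N ^ n := Nat.le_mul_of_pos_left _ hC₁
    omega
  set T : Finset (Pr k) := (finite_nv k B).toFinset with hT
  have hTmem : ∀ v : Pr k, v ∈ T ↔ nv v ≤ B := by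
    intro v
    rw [hT, Set.Finite.mem_toFinset]
    rfl
  -- the power of two as a number of subsets
  have h1 : ∀ c ∈ A, (2 : ℝ) ^ (TT S ((el b c : 𝓞 k) : k)).ncard ≤
      ∑ V ∈ T.powerset, if el b c ∈ ∏ v ∈ V, v.asIdeal then (1 : ℝ) else 0 := by
    intro c hc
    obtain ⟨hcb, hc0⟩ := hA c hc
    have hne : el b c ≠ 0 := t3_el_ne b c hc0
    set D : Finset (Pr k) := T.filter fun v => el b c ∈ v.asIdeal with hD
    have hsub : TT S ((el b c : 𝓞 k) : k) ⊆ (D : Set (Pr k)) := by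
      intro v hv
      have hvm := TT_mem S (el b c) v hv
      rw [hD, Finset.coe_filter]
      refine ⟨?_, hvm⟩
      rw [hTmem]
      exact (a4_norm (el b c) hne v.asIdeal hvm).trans (hnb c N hcb)
    have hcard : (TT S ((el b c : 𝓞 k) : k)).ncard ≤ D.card := by
      have := Set.ncard_le_ncard hsub D.finite_toSet
      rwa [Set.ncard_coe_finset] at this
    calc (2 : ℝ) ^ (TT S ((el b c : 𝓞 k) : k)).ncard ≤ (2 : ℝ) ^ D.card :=
          pow_le_pow_right₀ (by norm_num) hcard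
      _ = ((D.powerset.card : ℕ) : ℝ) := by rw [Finset.card_powerset]; push_cast; rfl
      _ = ∑ V ∈ D.powerset, (1 : ℝ) := by rw [Finset.sum_const, nsmul_eq_mul, mul_one]
      _ ≤ ∑ V ∈ D.powerset, if el b c ∈ ∏ v ∈ V, v.asIdeal then (1 : ℝ) else 0 := by
          refine Finset.sum_le_sum fun V hV => ?_
          rw [if_pos]
          refine q1_prod_mem _ _ fun v hv => ?_
          exact (Finset.mem_filter.1 (Finset.mem_powerset.1 hV hv)).2
      _ ≤ _ := by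
          refine Finset.sum_le_sum_of_subset_of_nonneg ?_ fun V _ _ => ?_
          · exact Finset.powerset_mono.2 (Finset.filter_subset _ _)
          · split_ifs <;> norm_num
  have h2 : ∀ V ∈ T.powerset, ∑ c ∈ A, (if el b c ∈ ∏ v ∈ V, v.asIdeal then (1 : ℝ) else 0) ≤
      C₂ * (N : ℝ) ^ n * ∏ v ∈ V, ((nv v : ℝ))⁻¹ := by
    intro V _
    have hVne : (∏ v ∈ V, v.asIdeal) ≠ (⊥ : Ideal (𝓞 k)) := by
      rw [← Ideal.zero_eq_bot]
      exact Finset.prod_ne_zero_iff.2 fun v _ => v.ne_bot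
    have hb := hbox N (by omega) (∏ v ∈ V, v.asIdeal) hVne
    have e1 : (Ideal.absNorm (∏ v ∈ V, v.asIdeal) : ℝ) = ∏ v ∈ V, (nv v : ℝ) := by
      rw [map_prod]
      push_cast
      rfl
    rw [e1, div_eq_mul_inv, ← Finset.prod_inv_distrib] at hb
    refine le_trans ?_ hb
    rw [← Finset.sum_filter, Finset.sum_const, nsmul_eq_mul, mul_one]
    obtain ⟨box, hmem⟩ := t4_box (ι := ι) N
    have hc2 : Nat.card {c : ι → ℤ // (∀ i, |c i| ≤ N) ∧ c ≠ 0 ∧ el b c ∈ ∏ v ∈ V, v.asIdeal} =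
        (box.filter fun c => c ≠ 0 ∧ el b c ∈ ∏ v ∈ V, v.asIdeal).card := by
      apply Nat.subtype_card
      intro c
      rw [Finset.mem_filter, hmem]
    rw [hc2]
    have hsub : (A.filter fun c => el b c ∈ ∏ v ∈ V, v.asIdeal) ⊆
        box.filter fun c => c ≠ 0 ∧ el b c ∈ ∏ v ∈ V, v.asIdeal := by
      intro c hc
      obtain ⟨hcA, hcv⟩ := Finset.mem_filter.1 hc
      exact Finset.mem_filter.2 ⟨(hmem c).2 (hA c hcA).1, (hA c hcA).2, hcv⟩
    exact_mod_cast Finset.card_le_card hsub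
  have h3 : ∑ c ∈ A, (2 : ℝ) ^ (TT S ((el b c : 𝓞 k) : k)).ncard ≤
      C₂ * (N : ℝ) ^ n * ∏ v ∈ T, (1 + ((nv v : ℝ))⁻¹) := by
    calc ∑ c ∈ A, (2 : ℝ) ^ (TT S ((el b c : 𝓞 k) : k)).ncard
        ≤ ∑ c ∈ A, ∑ V ∈ T.powerset, (if el b c ∈ ∏ v ∈ V, v.asIdeal then (1 : ℝ) else 0) :=
          Finset.sum_le_sum h1
      _ = ∑ V ∈ T.powerset, ∑ c ∈ A, (if el b c ∈ ∏ v ∈ V, v.asIdeal then (1 : ℝ) else 0) :=
          Finset.sum_comm
      _ ≤ ∑ V ∈ T.powerset, C₂ * (N : ℝ) ^ n * ∏ v ∈ V, ((nv v : ℝ))⁻¹ := Finset.sum_le_sum h2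
      _ = C₂ * (N : ℝ) ^ n * ∏ v ∈ T, (1 + ((nv v : ℝ))⁻¹) := by
          rw [← Finset.mul_sum, Finset.prod_one_add]
  have h4 := hC₄ B hB2 T fun v hv => (hTmem v).1 hv
  have h5 : Real.log B ≤ (Real.log C₁ / Real.log 2 + n) * Real.log N := by
    have e1 : (B : ℝ) = C₁ * (N : ℝ) ^ n := by
      rw [hB]
      push_cast
      rfl
    rw [e1, Real.log_mul (by positivity) (by positivity), Real.log_pow, add_mul]
    have e2 : Real.log C₁ ≤ Real.log C₁ / Real.log 2 * Real.log N := by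
      rw [div_mul_eq_mul_div, le_div_iff₀ hl2]
      exact mul_le_mul_of_nonneg_left hlN hlC
    linarith
  calc ∑ c ∈ A, (2 : ℝ) ^ (TT S ((el b c : 𝓞 k) : k)).ncard
      ≤ C₂ * (N : ℝ) ^ n * ∏ v ∈ T, (1 + ((nv v : ℝ))⁻¹) := h3
    _ ≤ C₂ * (N : ℝ) ^ n * (Real.exp C₄ * Real.log B) := by gcongr
    _ ≤ C₂ * (N : ℝ) ^ n * (Real.exp C₄ * ((Real.log C₁ / Real.log 2 + n) * Real.log N)) := by
        gcongr
    _ = _ := by ring

/-- the power of two is large -/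
private theorem q1_two (l x : ℝ) (hl : 0 < l) (h : l ≤ x) :
    l ^ 2 ≤ Real.exp (1 / Real.log 2) * (2 : ℝ) ^ (Real.log x ^ 2 : ℝ) := by
  have hl2 : 0 < Real.log 2 := Real.log_pos (by norm_num)
  have e1 : l ^ 2 = Real.exp (2 * Real.log l) := by
    rw [mul_comm, Real.exp_mul, Real.exp_log hl]
    norm_num
  have e2 : (2 : ℝ) ^ (Real.log x ^ 2 : ℝ) = Real.exp (Real.log 2 * Real.log x ^ 2) := by
    rw [Real.rpow_def_of_pos (by norm_num)]
  rw [e1, e2, ← Real.exp_add, Real.exp_le_exp]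
  have h1 : Real.log l ≤ Real.log x := Real.log_le_log hl h
  have h2 : 0 ≤ (Real.log 2 * Real.log x - 1) ^ 2 / Real.log 2 := by positivity
  have h3 : (Real.log 2 * Real.log x - 1) ^ 2 / Real.log 2 =
      Real.log 2 * Real.log x ^ 2 - 2 * Real.log x + 1 / Real.log 2 := by
    field_simp
    ring
  linarith

theorem typ_omega_q {k : Type} [Field k] [NumberField k] {ι : Type} [Fintype ι]
    (b : Module.Basis ι ℤ (𝓞 k)) (S : Finset (Pr k)) (C : ℝ) (hC : 1 ≤ C) :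
    ∃ A : ℝ, 0 < A ∧ ∀ N : ℕ, 2 ≤ N →
    (Nat.card {c : ι → ℤ // (∀ i, |c i| ≤ N) ∧ c ≠ 0 ∧
      Real.log (Real.log (C * (N : ℝ) ^ (Fintype.card ι))) ^ 2 <
        ((TT S ((el b c : 𝓞 k) : k)).ncard : ℝ)} : ℝ) ≤
      A * (N : ℝ) ^ (Fintype.card ι) * Real.log N ^ (-1 : ℝ) := by
  classical
  obtain ⟨C₃, hC₃, hmom⟩ := q1_moment b S
  have hn : 0 < Fintype.card ι := by
    rw [card_basis b]
    exact Module.finrank_pos
  set n := Fintype.card ι with hndef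
  refine ⟨C₃ * Real.exp (1 / Real.log 2), by positivity, ?_⟩
  intro N hN
  have hN' : (2 : ℝ) ≤ N := by exact_mod_cast hN
  have hN0 : (0 : ℝ) < N := by linarith
  have hlN : 0 < Real.log N := Real.log_pos (by linarith)
  obtain ⟨box, hmem⟩ := t4_box (ι := ι) N
  set u : ℝ := Real.log (Real.log (C * (N : ℝ) ^ n)) ^ 2 with hu
  set A : Finset (ι → ℤ) := box.filter fun c => c ≠ 0 ∧
    u < ((TT S ((el b c : 𝓞 k) : k)).ncard : ℝ) with hA
  have hcard : Nat.card {c : ι → ℤ // (∀ i, |c i| ≤ N) ∧ c ≠ 0 ∧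
      u < ((TT S ((el b c : 𝓞 k) : k)).ncard : ℝ)} = A.card := by
    apply Nat.subtype_card
    intro c
    rw [hA, Finset.mem_filter, hmem]
  rw [hcard]
  have h1 := hmom N hN A fun c hc => by
    obtain ⟨h1, h2, -⟩ := Finset.mem_filter.1 hc
    exact ⟨(hmem c).1 h1, h2⟩
  have h2 : (A.card : ℝ) * (2 : ℝ) ^ u ≤
      ∑ c ∈ A, (2 : ℝ) ^ (TT S ((el b c : 𝓞 k) : k)).ncard := by
    rw [← nsmul_eq_mul, ← Finset.sum_const]
    refine Finset.sum_le_sum fun c hc => ?_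
    rw [← Real.rpow_natCast]
    exact Real.rpow_le_rpow_of_exponent_le (by norm_num) (Finset.mem_filter.1 hc).2.2.le
  have h3 : Real.log N ^ 2 ≤ Real.exp (1 / Real.log 2) * (2 : ℝ) ^ u := by
    rw [hu]
    refine q1_two _ _ hlN (Real.log_le_log hN0 ?_)
    have h4 : (N : ℝ) ≤ (N : ℝ) ^ n := le_self_pow₀ (by linarith) hn.ne'
    have h5 : (N : ℝ) ^ n ≤ C * (N : ℝ) ^ n := le_mul_of_one_le_left (by positivity) hC
    linarith
  have h4 : (A.card : ℝ) * Real.log N ^ 2 ≤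
      C₃ * Real.exp (1 / Real.log 2) * (N : ℝ) ^ n * Real.log N := by
    calc (A.card : ℝ) * Real.log N ^ 2
        ≤ (A.card : ℝ) * (Real.exp (1 / Real.log 2) * (2 : ℝ) ^ u) := by gcongr
      _ = Real.exp (1 / Real.log 2) * ((A.card : ℝ) * (2 : ℝ) ^ u) := by ring
      _ ≤ Real.exp (1 / Real.log 2) * (C₃ * (N : ℝ) ^ n * Real.log N) := by
          have := h2.trans h1
          gcongr
      _ = _ := by ring
  rw [Real.rpow_neg_one, ← div_eq_mul_inv, le_div_iff₀ hlN]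
  have h5 : (A.card : ℝ) * Real.log N * Real.log N ≤
      C₃ * Real.exp (1 / Real.log 2) * (N : ℝ) ^ n * Real.log N := by
    rw [mul_assoc, ← sq]
    exact h4
  exact le_of_mul_le_mul_right h5 hlN

end SC5
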