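import Pool.Agent.MP_c1dca2_ag.SC5.T4

/-!
# [SC5-Q3] few `c` of small norm; most `c` have a large prime factor with exponent one; with rates

`typ_norm_q`: as T3 (`typ_norm`): the number is at most `C' N^(7n/8)`, and `N^(-n/8) ≤ A (log N)^(-1)`.
`typ_large_q`: as T4 (`typ_large`), now with rates: (a) is `typ_norm_q`; (b): at most
`∑_{nv v > Z} C₂ N^n (nv v)^(-2) ≤ C₂ N^n Z^(-1/2) ∑ (nv v)^(-3/2) ≤ C N^n Z^(-1/2)` (`SC4.summable_ideals`), and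
`Z^(-1/2) = exp (-Λ^(1/2) / 2) ≤ A (log N)^(-1)`; (c): `t4_smooth_bound` gives at most
`C N^n log Z / ((n/4) log N) ≤ C' N^n (log N)^(-1/2)` (`log Z = Λ^(1/2)`, `Λ = log (C N^n) ≤ (log C + n) log N * 2`).
Small `N ≥ 2`: trivial bound with a large constant.
-/

set_option autoImplicit false

open NumberField IsDedekindDomain Filter Topology

namespace SC5

theorem q3_key {k : Type} [Field k] [NumberField k] {ι : Type} [Fintype ι]
    (b : Module.Basis ι ℤ (𝓞 k)) : ∃ B : ℝ, 0 < B ∧ ∀ N : ℕ, 1 ≤ N →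
    (Nat.card {c : ι → ℤ // (∀ i, |c i| ≤ N) ∧
      (Ideal.absNorm (Ideal.span {el b c}) : ℝ) ≤ (N : ℝ) ^ ((Fintype.card ι : ℝ) / 4)} : ℝ) ≤
      B * (N : ℝ) ^ (7 * (Fintype.card ι : ℝ) / 8) := by
  classical
  obtain ⟨C, hC, hbox⟩ := box_gen b
  have hn : 0 < Fintype.card ι := by
    rw [card_basis b]
    exact Module.finrank_pos
  set n := Fintype.card ι with hndef
  have hsum := SC4.summable_ideals k (5 / 4) (by norm_num)
  set Z : ℝ := ∑' I : Ideal (𝓞 k), (Ideal.absNorm I : ℝ) ^ (-(5 / 4 : ℝ)) with hZ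
  have hZ0 : 0 ≤ Z := tsum_nonneg fun I => Real.rpow_nonneg (Nat.cast_nonneg _) _
  have key : ∀ N : ℕ, 1 ≤ N → (Nat.card {c : ι → ℤ // (∀ i, |c i| ≤ N) ∧
      (Ideal.absNorm (Ideal.span {el b c}) : ℝ) ≤ (N : ℝ) ^ ((n : ℝ) / 4)} : ℝ) ≤
      1 + C * Z * (N : ℝ) ^ (7 * (n : ℝ) / 8) := by
    intro N hN
    have hN' : (1 : ℝ) ≤ N := by exact_mod_cast hN
    set box : Finset (ι → ℤ) := (t3_box_finite (ι := ι) N).toFinset with hboxdef
    have hmem : ∀ c : ι → ℤ, c ∈ box ↔ ∀ i, |c i| ≤ (N : ℤ) := by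
      intro c
      rw [hboxdef, Set.Finite.mem_toFinset]
      rfl
    set S : Finset (ι → ℤ) := box.filter fun c =>
      (Ideal.absNorm (Ideal.span {el b c}) : ℝ) ≤ (N : ℝ) ^ ((n : ℝ) / 4) with hS
    have hcard : Nat.card {c : ι → ℤ // (∀ i, |c i| ≤ N) ∧
        (Ideal.absNorm (Ideal.span {el b c}) : ℝ) ≤ (N : ℝ) ^ ((n : ℝ) / 4)} = S.card := by
      apply Nat.subtype_card
      intro c
      rw [hS, Finset.mem_filter, hmem]
    rw [hcard]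
    have h1 : S.card ≤ 1 + (S.erase 0).card := by
      have := Finset.pred_card_le_card_erase (s := S) (a := (0 : ι → ℤ))
      omega
    set f : (ι → ℤ) → Ideal (𝓞 k) := fun c => Ideal.span {el b c} with hf
    have h2 : (S.erase 0).card = ∑ I ∈ (S.erase 0).image f,
        ((S.erase 0).filter fun c => f c = I).card :=
      Finset.card_eq_sum_card_image f (S.erase 0)
    have h3 : ∀ I ∈ (S.erase 0).image f,
        ((((S.erase 0).filter fun c => f c = I).card : ℕ) : ℝ) ≤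
        C * ((N : ℝ) ^ (7 * (n : ℝ) / 8) * (Ideal.absNorm I : ℝ) ^ (-(5 / 4 : ℝ))) := by
      intro I hI
      obtain ⟨c, hc, hcI⟩ := Finset.mem_image.1 hI
      obtain ⟨hc0, hcS⟩ := Finset.mem_erase.1 hc
      have hcn := (Finset.mem_filter.1 hcS).2
      have hIne : I ≠ ⊥ := by
        rw [← hcI, hf]
        intro h
        exact t3_el_ne b c hc0 (Ideal.span_singleton_eq_bot.1 h)
      have hI1 : (1 : ℝ) ≤ Ideal.absNorm I := by
        have : Ideal.absNorm I ≠ 0 := by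
          rw [Ne, Ideal.absNorm_eq_zero_iff]
          exact hIne
        exact_mod_cast Nat.one_le_iff_ne_zero.2 this
      have hIle : (Ideal.absNorm I : ℝ) ≤ (N : ℝ) ^ ((n : ℝ) / 4) := by
        rw [← hcI]
        exact hcn
      have hb := hbox N hN I hIne
      have hc2 : Nat.card {c : ι → ℤ // (∀ i, |c i| ≤ N) ∧ Ideal.span {el b c} = I} =
          (box.filter fun c => Ideal.span {el b c} = I).card := by
        apply Nat.subtype_card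
        intro c
        rw [Finset.mem_filter, hmem]
      rw [hc2] at hb
      have hle : ((S.erase 0).filter fun c => f c = I).card ≤
          (box.filter fun c => Ideal.span {el b c} = I).card := by
        apply Finset.card_le_card
        intro c hc
        rw [Finset.mem_filter] at hc ⊢
        exact ⟨(Finset.mem_filter.1 (Finset.mem_erase.1 hc.1).2).1, hc.2⟩
      have hp := t3_pow (N : ℝ) (Ideal.absNorm I : ℝ) n hN' hI1 hIle
      calc ((((S.erase 0).filter fun c => f c = I).card : ℕ) : ℝ)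
          ≤ ((box.filter fun c => Ideal.span {el b c} = I).card : ℝ) := by exact_mod_cast hle
        _ ≤ C * ((N : ℝ) ^ n / Ideal.absNorm I) ^ (3 / 4 : ℝ) := hb
        _ ≤ _ := by gcongr
    have h4 : ((S.erase 0).card : ℝ) ≤ C * Z * (N : ℝ) ^ (7 * (n : ℝ) / 8) := by
      rw [h2]
      push_cast
      calc (∑ I ∈ (S.erase 0).image f, ((((S.erase 0).filter fun c => f c = I).card : ℕ) : ℝ))
          ≤ ∑ I ∈ (S.erase 0).image f,
            C * ((N : ℝ) ^ (7 * (n : ℝ) / 8) * (Ideal.absNorm I : ℝ) ^ (-(5 / 4 : ℝ))) :=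
            Finset.sum_le_sum h3
        _ = C * (N : ℝ) ^ (7 * (n : ℝ) / 8) *
            ∑ I ∈ (S.erase 0).image f, (Ideal.absNorm I : ℝ) ^ (-(5 / 4 : ℝ)) := by
            rw [Finset.mul_sum]
            exact Finset.sum_congr rfl fun I _ => by ring
        _ ≤ C * (N : ℝ) ^ (7 * (n : ℝ) / 8) * Z := by
            have hsl := hsum.sum_le_tsum ((S.erase 0).image f)
              (fun I _ => Real.rpow_nonneg (Nat.cast_nonneg _) _)
            gcongr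
        _ = _ := by ring
    have h5 : (S.card : ℝ) ≤ 1 + ((S.erase 0).card : ℝ) := by exact_mod_cast h1
    linarith
  refine ⟨1 + C * Z, by positivity, fun N hN => (key N hN).trans ?_⟩
  have hN' : (1 : ℝ) ≤ N := by exact_mod_cast hN
  have hpow : (1 : ℝ) ≤ (N : ℝ) ^ (7 * (n : ℝ) / 8) := Real.one_le_rpow hN' (by positivity)
  nlinarith

theorem typ_norm_q {k : Type} [Field k] [NumberField k] {ι : Type} [Fintype ι]
    (b : Module.Basis ι ℤ (𝓞 k)) : ∃ A : ℝ, 0 < A ∧ ∀ N : ℕ, 2 ≤ N →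
    (Nat.card {c : ι → ℤ // (∀ i, |c i| ≤ N) ∧
      (Ideal.absNorm (Ideal.span {el b c}) : ℝ) ≤ (N : ℝ) ^ ((Fintype.card ι : ℝ) / 4)} : ℝ) ≤
      A * (N : ℝ) ^ (Fintype.card ι) * Real.log N ^ (-1 : ℝ) := by
  obtain ⟨B, hB, hkey⟩ := q3_key b
  have hn : 0 < Fintype.card ι := by
    rw [card_basis b]
    exact Module.finrank_pos
  set n := Fintype.card ι with hndef
  have hn' : (0 : ℝ) < n := by exact_mod_cast hn
  refine ⟨B * (8 / n), by positivity, fun N hN => (hkey N (by omega)).trans ?_⟩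
  have hN' : (2 : ℝ) ≤ N := by exact_mod_cast hN
  have hN0 : (0 : ℝ) < N := by linarith
  have hl : 0 < Real.log N := Real.log_pos (by linarith)
  have h1 : Real.log N ≤ (N : ℝ) ^ ((n : ℝ) / 8) / ((n : ℝ) / 8) :=
    Real.log_le_rpow_div hN0.le (by positivity)
  have h2 : (N : ℝ) ^ n = (N : ℝ) ^ (7 * (n : ℝ) / 8) * (N : ℝ) ^ ((n : ℝ) / 8) := by
    rw [← Real.rpow_natCast, ← Real.rpow_add hN0]
    congr 1
    ring
  rw [Real.rpow_neg_one, h2]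
  have h3 : 0 ≤ (N : ℝ) ^ (7 * (n : ℝ) / 8) := Real.rpow_nonneg hN0.le _
  rw [← div_eq_mul_inv, le_div_iff₀ hl]
  calc B * (N : ℝ) ^ (7 * (n : ℝ) / 8) * Real.log N
      ≤ B * (N : ℝ) ^ (7 * (n : ℝ) / 8) * ((N : ℝ) ^ ((n : ℝ) / 8) / ((n : ℝ) / 8)) := by
        gcongr
    _ = B * (8 / n) * ((N : ℝ) ^ (7 * (n : ℝ) / 8) * (N : ℝ) ^ ((n : ℝ) / 8)) := by
        field_simp

theorem q3_primes (k : Type) [Field k] [NumberField k] : ∃ B : ℝ, 0 < B ∧ ∀ Z : ℝ, 0 < Z →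
    ∀ T : Finset (Pr k), (∀ v ∈ T, Z < nv v) → ∑ v ∈ T, ((nv v : ℝ) ^ 2)⁻¹ ≤ B * Z ^ (-(1 / 2) : ℝ) := by
  classical
  have hsum := SC4.summable_ideals k (3 / 2) (by norm_num)
  set ζ : ℝ := ∑' I : Ideal (𝓞 k), (Ideal.absNorm I : ℝ) ^ (-(3 / 2 : ℝ)) with hζ
  have hζ0 : 0 ≤ ζ := tsum_nonneg fun I => Real.rpow_nonneg (Nat.cast_nonneg _) _
  refine ⟨ζ + 1, by positivity, fun Z hZ T hT => ?_⟩
  have h1 : ∀ v ∈ T, ((nv v : ℝ) ^ 2)⁻¹ ≤ Z ^ (-(1 / 2) : ℝ) * (nv v : ℝ) ^ (-(3 / 2 : ℝ)) := by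
    intro v hv
    have h2 := hT v hv
    have h3 : (0 : ℝ) < nv v := hZ.trans h2
    have h4 : ((nv v : ℝ) ^ 2)⁻¹ = (nv v : ℝ) ^ (-(1 / 2) : ℝ) * (nv v : ℝ) ^ (-(3 / 2 : ℝ)) := by
      rw [← Real.rpow_add h3, ← Real.rpow_natCast, ← Real.rpow_neg h3.le]
      norm_num
    rw [h4]
    apply mul_le_mul_of_nonneg_right _ (Real.rpow_nonneg h3.le _)
    exact Real.rpow_le_rpow_of_nonpos hZ h2.le (by norm_num)
  have h5 : ∑ v ∈ T, (nv v : ℝ) ^ (-(3 / 2 : ℝ)) ≤ ζ := by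
    have h6 : ∑ v ∈ T, (nv v : ℝ) ^ (-(3 / 2 : ℝ)) =
        ∑ I ∈ T.image (fun v : Pr k => v.asIdeal), (Ideal.absNorm I : ℝ) ^ (-(3 / 2 : ℝ)) := by
      rw [Finset.sum_image]
      · rfl
      · intro v _ v' _ h
        exact HeightOneSpectrum.ext h
    rw [h6]
    exact hsum.sum_le_tsum _ (fun I _ => Real.rpow_nonneg (Nat.cast_nonneg _) _)
  have h7 : 0 ≤ Z ^ (-(1 / 2) : ℝ) := Real.rpow_nonneg hZ.le _
  calc ∑ v ∈ T, ((nv v : ℝ) ^ 2)⁻¹ ≤ ∑ v ∈ T, Z ^ (-(1 / 2) : ℝ) * (nv v : ℝ) ^ (-(3 / 2 : ℝ)) :=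
        Finset.sum_le_sum h1
    _ = Z ^ (-(1 / 2) : ℝ) * ∑ v ∈ T, (nv v : ℝ) ^ (-(3 / 2 : ℝ)) := by rw [Finset.mul_sum]
    _ ≤ Z ^ (-(1 / 2) : ℝ) * ζ := by gcongr
    _ ≤ (ζ + 1) * Z ^ (-(1 / 2) : ℝ) := by nlinarith

theorem q3_sq {k : Type} [Field k] [NumberField k] {ι : Type} [Fintype ι]
    (b : Module.Basis ι ℤ (𝓞 k)) : ∃ B : ℝ, 0 < B ∧ ∀ (N : ℕ) (Z : ℝ), 1 ≤ N → 0 < Z →
    (Nat.card {c : ι → ℤ // (∀ i, |c i| ≤ N) ∧ c ≠ 0 ∧
      ∃ v : Pr k, Z < nv v ∧ el b c ∈ v.asIdeal ^ 2} : ℝ) ≤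
      B * (N : ℝ) ^ (Fintype.card ι) * Z ^ (-(1 / 2) : ℝ) := by
  classical
  obtain ⟨C₂, hC₂, hbox⟩ := box_ideal b
  obtain ⟨C₁, hC₁, hnb⟩ := norm_box b
  obtain ⟨B, hB, hpr⟩ := q3_primes k
  set n := Fintype.card ι with hndef
  refine ⟨C₂ * B, by positivity, fun N Z hN hZ => ?_⟩
  obtain ⟨box, hmem⟩ := t4_box (ι := ι) N
  set T : Finset (Pr k) := (finite_nv k (C₁ * N ^ n)).toFinset.filter fun v => Z < nv v with hT
  have hcard : Nat.card {c : ι → ℤ // (∀ i, |c i| ≤ N) ∧ c ≠ 0 ∧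
      ∃ v : Pr k, Z < nv v ∧ el b c ∈ v.asIdeal ^ 2} =
      (box.filter fun c => c ≠ 0 ∧ ∃ v : Pr k, Z < nv v ∧ el b c ∈ v.asIdeal ^ 2).card := by
    apply Nat.subtype_card
    intro c
    rw [Finset.mem_filter, hmem]
  rw [hcard]
  have hsub : (box.filter fun c => c ≠ 0 ∧ ∃ v : Pr k, Z < nv v ∧ el b c ∈ v.asIdeal ^ 2) ⊆
      T.biUnion fun v => box.filter fun c => c ≠ 0 ∧ el b c ∈ v.asIdeal ^ 2 := by
    intro c hc
    obtain ⟨hcb, hc0, v, hvZ, hv⟩ := Finset.mem_filter.1 hc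
    rw [Finset.mem_biUnion]
    refine ⟨v, ?_, Finset.mem_filter.2 ⟨hcb, hc0, hv⟩⟩
    rw [hT, Finset.mem_filter, Set.Finite.mem_toFinset]
    refine ⟨?_, hvZ⟩
    show nv v ≤ C₁ * N ^ n
    have h1 : Ideal.absNorm (Ideal.span {el b c}) ≤ C₁ * N ^ n := hnb c N ((hmem c).1 hcb)
    have h2 : v.asIdeal ∣ Ideal.span {el b c} := by
      rw [Ideal.dvd_iff_le, Ideal.span_singleton_le_iff_mem]
      exact Ideal.pow_le_self two_ne_zero hv
    have h3 : Ideal.absNorm (Ideal.span {el b c}) ≠ 0 := by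
      rw [Ne, Ideal.absNorm_eq_zero_iff, Ideal.span_singleton_eq_bot]
      exact t3_el_ne b c hc0
    exact (Nat.le_of_dvd (Nat.pos_of_ne_zero h3) (map_dvd Ideal.absNorm h2)).trans h1
  have hcount : ∀ v ∈ T, ((box.filter fun c => c ≠ 0 ∧ el b c ∈ v.asIdeal ^ 2).card : ℝ) ≤
      C₂ * (N : ℝ) ^ n * ((nv v : ℝ) ^ 2)⁻¹ := by
    intro v _
    have h1 := hbox N hN (v.asIdeal ^ 2) (pow_ne_zero 2 v.ne_bot)
    have h2 : Nat.card {c : ι → ℤ // (∀ i, |c i| ≤ N) ∧ c ≠ 0 ∧ el b c ∈ v.asIdeal ^ 2} =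
        (box.filter fun c => c ≠ 0 ∧ el b c ∈ v.asIdeal ^ 2).card := by
      apply Nat.subtype_card
      intro c
      rw [Finset.mem_filter, hmem]
    rw [h2, map_pow] at h1
    push_cast at h1
    rw [← div_eq_mul_inv]
    exact h1
  have hs := hpr Z hZ T (fun v hv => (Finset.mem_filter.1 hv).2)
  calc ((box.filter fun c => c ≠ 0 ∧
        ∃ v : Pr k, Z < nv v ∧ el b c ∈ v.asIdeal ^ 2).card : ℝ)
        ≤ ((T.biUnion fun v => box.filter fun c => c ≠ 0 ∧ el b c ∈ v.asIdeal ^ 2).card : ℝ) := by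
          exact_mod_cast Finset.card_le_card hsub
      _ ≤ ∑ v ∈ T, ((box.filter fun c => c ≠ 0 ∧ el b c ∈ v.asIdeal ^ 2).card : ℝ) := by
          exact_mod_cast Finset.card_biUnion_le
      _ ≤ ∑ v ∈ T, C₂ * (N : ℝ) ^ n * ((nv v : ℝ) ^ 2)⁻¹ := Finset.sum_le_sum hcount
      _ = C₂ * (N : ℝ) ^ n * ∑ v ∈ T, ((nv v : ℝ) ^ 2)⁻¹ := by rw [Finset.mul_sum]
      _ ≤ C₂ * (N : ℝ) ^ n * (B * Z ^ (-(1 / 2) : ℝ)) := by gcongr
      _ = C₂ * B * (N : ℝ) ^ n * Z ^ (-(1 / 2) : ℝ) := by ring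

theorem q3_split {k : Type} [Field k] [NumberField k] {ι : Type} [Fintype ι]
    (b : Module.Basis ι ℤ (𝓞 k)) (S : Finset (Pr k)) (C : ℝ) (n N M : ℕ)
    (hM : ∀ v ∈ S, nv v ≤ M)
    (hNM : (M : ℝ) ≤ Real.exp (Real.log (C * (N : ℝ) ^ n) ^ (1 / 2 : ℝ))) :
    (Nat.card {c : ι → ℤ // (∀ i, |c i| ≤ N) ∧
      ∀ v ∈ TT S ((el b c : 𝓞 k) : k),
        Real.log (nv v) ≤ Real.log (C * (N : ℝ) ^ n) ^ (1 / 2 : ℝ)} : ℝ) ≤
    (Nat.card {c : ι → ℤ // (∀ i, |c i| ≤ N) ∧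
      (Ideal.absNorm (Ideal.span {el b c}) : ℝ) ≤ (N : ℝ) ^ ((n : ℝ) / 4)} : ℝ) +
    (Nat.card {c : ι → ℤ // (∀ i, |c i| ≤ N) ∧ c ≠ 0 ∧
      ∃ v : Pr k, Real.exp (Real.log (C * (N : ℝ) ^ n) ^ (1 / 2 : ℝ)) < nv v ∧
        el b c ∈ v.asIdeal ^ 2} : ℝ) +
    (Nat.card {c : ι → ℤ // (∀ i, |c i| ≤ N) ∧ c ≠ 0 ∧
      (N : ℝ) ^ ((n : ℝ) / 4) < (Ideal.absNorm (Ideal.span {el b c}) : ℝ) ∧
      ∀ v : Pr k, el b c ∈ v.asIdeal →
        (nv v : ℝ) ≤ Real.exp (Real.log (C * (N : ℝ) ^ n) ^ (1 / 2 : ℝ))} : ℝ) := by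
  classical
  obtain ⟨box, hmem⟩ := t4_box (ι := ι) N
  set Z : ℝ := Real.exp (Real.log (C * (N : ℝ) ^ n) ^ (1 / 2 : ℝ)) with hZdef
  have c0 : Nat.card {c : ι → ℤ // (∀ i, |c i| ≤ N) ∧
      ∀ v ∈ TT S ((el b c : 𝓞 k) : k),
        Real.log (nv v) ≤ Real.log (C * (N : ℝ) ^ n) ^ (1 / 2 : ℝ)} =
      (box.filter fun c => ∀ v ∈ TT S ((el b c : 𝓞 k) : k),
        Real.log (nv v) ≤ Real.log (C * (N : ℝ) ^ n) ^ (1 / 2 : ℝ)).card := by
    apply Nat.subtype_card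
    intro c
    rw [Finset.mem_filter, hmem]
  have c1 : Nat.card {c : ι → ℤ // (∀ i, |c i| ≤ N) ∧
      (Ideal.absNorm (Ideal.span {el b c}) : ℝ) ≤ (N : ℝ) ^ ((n : ℝ) / 4)} =
      (box.filter fun c =>
        (Ideal.absNorm (Ideal.span {el b c}) : ℝ) ≤ (N : ℝ) ^ ((n : ℝ) / 4)).card := by
    apply Nat.subtype_card
    intro c
    rw [Finset.mem_filter, hmem]
  have c2 : Nat.card {c : ι → ℤ // (∀ i, |c i| ≤ N) ∧ c ≠ 0 ∧
      ∃ v : Pr k, Z < nv v ∧ el b c ∈ v.asIdeal ^ 2} =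
      (box.filter fun c => c ≠ 0 ∧ ∃ v : Pr k, Z < nv v ∧ el b c ∈ v.asIdeal ^ 2).card := by
    apply Nat.subtype_card
    intro c
    rw [Finset.mem_filter, hmem]
  have c3 : Nat.card {c : ι → ℤ // (∀ i, |c i| ≤ N) ∧ c ≠ 0 ∧
      (N : ℝ) ^ ((n : ℝ) / 4) < (Ideal.absNorm (Ideal.span {el b c}) : ℝ) ∧
      ∀ v : Pr k, el b c ∈ v.asIdeal → (nv v : ℝ) ≤ Z} =
      (box.filter fun c => c ≠ 0 ∧
        (N : ℝ) ^ ((n : ℝ) / 4) < (Ideal.absNorm (Ideal.span {el b c}) : ℝ) ∧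
        ∀ v : Pr k, el b c ∈ v.asIdeal → (nv v : ℝ) ≤ Z).card := by
    apply Nat.subtype_card
    intro c
    rw [Finset.mem_filter, hmem]
  rw [c0, c1, c2, c3]
  have hsub : (box.filter fun c => ∀ v ∈ TT S ((el b c : 𝓞 k) : k),
        Real.log (nv v) ≤ Real.log (C * (N : ℝ) ^ n) ^ (1 / 2 : ℝ)) ⊆
      ((box.filter fun c =>
        (Ideal.absNorm (Ideal.span {el b c}) : ℝ) ≤ (N : ℝ) ^ ((n : ℝ) / 4)) ∪
      (box.filter fun c => c ≠ 0 ∧ ∃ v : Pr k, Z < nv v ∧ el b c ∈ v.asIdeal ^ 2)) ∪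
      (box.filter fun c => c ≠ 0 ∧
        (N : ℝ) ^ ((n : ℝ) / 4) < (Ideal.absNorm (Ideal.span {el b c}) : ℝ) ∧
        ∀ v : Pr k, el b c ∈ v.asIdeal → (nv v : ℝ) ≤ Z) := by
    intro c hc
    obtain ⟨hcb, hcT⟩ := Finset.mem_filter.1 hc
    rw [Finset.mem_union, Finset.mem_union, Finset.mem_filter, Finset.mem_filter,
      Finset.mem_filter]
    by_cases hA : (Ideal.absNorm (Ideal.span {el b c}) : ℝ) ≤ (N : ℝ) ^ ((n : ℝ) / 4)
    · exact Or.inl (Or.inl ⟨hcb, hA⟩)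
    have hc0 : c ≠ 0 := by
      rintro rfl
      apply hA
      have : el b (0 : ι → ℤ) = 0 := by simp [el]
      rw [this, Ideal.span_singleton_eq_bot.2 rfl, Ideal.absNorm_bot]
      rw [Nat.cast_zero]
      positivity
    by_cases hB : ∃ v : Pr k, Z < nv v ∧ el b c ∈ v.asIdeal ^ 2
    · exact Or.inl (Or.inr ⟨hcb, hc0, hB⟩)
    refine Or.inr ⟨hcb, hc0, not_le.1 hA, ?_⟩
    intro v hv
    by_contra hlt
    rw [not_le] at hlt
    have hvS : v ∉ S := by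
      intro hvS
      have h1 : (nv v : ℝ) ≤ M := by exact_mod_cast hM v hvS
      linarith
    have hv2 : el b c ∉ v.asIdeal ^ 2 := fun h => hB ⟨v, hlt, h⟩
    have h1 := hcT v (mem_TT S (el b c) v hvS hv hv2)
    have hpos : (0 : ℝ) < nv v := by
      have := two_le_nv v
      exact_mod_cast (by omega : 0 < nv v)
    have h2 : (nv v : ℝ) ≤ Z := by
      rw [hZdef]
      exact (Real.log_le_iff_le_exp hpos).1 h1
    linarith
  have hcard := (Finset.card_le_card hsub).trans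
    ((Finset.card_union_le _ _).trans (Nat.add_le_add_right (Finset.card_union_le _ _) _))
  exact_mod_cast hcard


theorem typ_large_q {k : Type} [Field k] [NumberField k] {ι : Type} [Fintype ι]
    (b : Module.Basis ι ℤ (𝓞 k)) (S : Finset (Pr k)) (C : ℝ) (hC : 1 ≤ C) :
    ∃ A : ℝ, 0 < A ∧ ∀ N : ℕ, 2 ≤ N →
    (Nat.card {c : ι → ℤ // (∀ i, |c i| ≤ N) ∧
      ∀ v ∈ TT S ((el b c : 𝓞 k) : k),
        Real.log (nv v) ≤ Real.log (C * (N : ℝ) ^ (Fintype.card ι)) ^ (1 / 2 : ℝ)} : ℝ) ≤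
      A * (N : ℝ) ^ (Fintype.card ι) * Real.log N ^ (-(1 / 2) : ℝ) := by
  classical
  have hn : 0 < Fintype.card ι := by
    rw [card_basis b]
    exact Module.finrank_pos
  obtain ⟨A₁, hA₁, h₁⟩ := typ_norm_q b
  obtain ⟨A₂, hA₂, h₂⟩ := q3_sq b
  obtain ⟨A₃, hA₃, h₃⟩ := t4_smooth_bound b
  set n := Fintype.card ι with hndef
  have hn' : (0 : ℝ) < n := by exact_mod_cast hn
  obtain ⟨M, hM⟩ : ∃ M : ℕ, ∀ v ∈ S, nv v ≤ M :=
    ⟨S.sup fun v => nv v, fun v hv => Finset.le_sup (f := fun v => nv v) hv⟩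
  obtain ⟨N₀, hN₀⟩ : ∃ N₀ : ℕ, ∀ N : ℕ, N₀ ≤ N →
      max (M : ℝ) 2 ≤ Real.exp (Real.log (C * (N : ℝ) ^ n) ^ (1 / 2 : ℝ)) :=
    Filter.eventually_atTop.1 ((t4_Z C hC n hn).eventually_ge_atTop (max (M : ℝ) 2))
  have hlog2 : 0 < Real.log 2 := Real.log_pos (by norm_num)
  have hlogC : 0 ≤ Real.log C := Real.log_nonneg hC
  set E : ℝ := Real.log C / Real.log 2 + n with hE
  have hE0 : 0 < E := by positivity
  have hlogN2 : 0 ≤ Real.log ((N₀ : ℝ) + 2) := Real.log_nonneg (by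
    have : (0 : ℝ) ≤ N₀ := Nat.cast_nonneg _
    linarith)
  have p1 : 0 < A₁ * Real.log 2 ^ (-(1 / 2) : ℝ) := by positivity
  have p2 : 0 ≤ A₂ * 2 := by positivity
  have p3 : 0 ≤ A₃ * E ^ (1 / 2 : ℝ) * (4 / n) := by positivity
  have p4 : 0 ≤ 3 ^ n * Real.log ((N₀ : ℝ) + 2) ^ (1 / 2 : ℝ) := by positivity
  refine ⟨A₁ * Real.log 2 ^ (-(1 / 2) : ℝ) + A₂ * 2 + A₃ * E ^ (1 / 2 : ℝ) * (4 / n) +
    3 ^ n * Real.log (N₀ + 2) ^ (1 / 2 : ℝ), by linarith, fun N hN => ?_⟩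
  have hN' : (2 : ℝ) ≤ N := by exact_mod_cast hN
  have hN0 : (0 : ℝ) < N := by linarith
  have hl : 0 < Real.log N := Real.log_pos (by linarith)
  have hl2 : Real.log 2 ≤ Real.log N := Real.log_le_log (by norm_num) hN'
  set lg : ℝ := Real.log N ^ (-(1 / 2) : ℝ) with hlg
  have hlg0 : 0 < lg := Real.rpow_pos_of_pos hl _
  have hNn : 0 < (N : ℝ) ^ n := by positivity
  have hNl : 0 ≤ (N : ℝ) ^ n * lg := by positivity
  rcases lt_or_ge N N₀ with hlt | hge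
  · -- small N
    have hsq : lg * Real.log N ^ (1 / 2 : ℝ) = 1 := by
      rw [hlg, ← Real.rpow_add hl]
      norm_num
    have h4 : Real.log N ^ (1 / 2 : ℝ) ≤ Real.log ((N₀ : ℝ) + 2) ^ (1 / 2 : ℝ) := by
      apply Real.rpow_le_rpow hl.le _ (by norm_num)
      apply Real.log_le_log hN0
      have : (N : ℝ) ≤ N₀ := by exact_mod_cast hlt.le
      linarith
    have h5 : (1 : ℝ) ≤ lg * Real.log ((N₀ : ℝ) + 2) ^ (1 / 2 : ℝ) := by
      calc (1 : ℝ) = lg * Real.log N ^ (1 / 2 : ℝ) := hsq.symm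
        _ ≤ _ := mul_le_mul_of_nonneg_left h4 hlg0.le
    have h6 : (Nat.card {c : ι → ℤ // (∀ i, |c i| ≤ N) ∧
      ∀ v ∈ TT S ((el b c : 𝓞 k) : k),
        Real.log (nv v) ≤ Real.log (C * (N : ℝ) ^ n) ^ (1 / 2 : ℝ)} : ℝ) ≤ 3 ^ n * (N : ℝ) ^ n := by
      have h7 : Nat.card {c : ι → ℤ // (∀ i, |c i| ≤ N) ∧
          ∀ v ∈ TT S ((el b c : 𝓞 k) : k),
            Real.log (nv v) ≤ Real.log (C * (N : ℝ) ^ n) ^ (1 / 2 : ℝ)} =
          ((Fintype.piFinset fun _ : ι => Finset.Icc (-(N : ℤ)) N).filter fun c =>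
            ∀ v ∈ TT S ((el b c : 𝓞 k) : k),
            Real.log (nv v) ≤ Real.log (C * (N : ℝ) ^ n) ^ (1 / 2 : ℝ)).card := by
        apply Nat.subtype_card
        intro c
        rw [Finset.mem_filter, Fintype.mem_piFinset]
        simp only [Finset.mem_Icc, abs_le]
      have h8 : (Fintype.piFinset fun _ : ι => Finset.Icc (-(N : ℤ)) N).card = (2 * N + 1) ^ n := by
        rw [Fintype.card_piFinset, Finset.prod_const, Int.card_Icc, Finset.card_univ]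
        congr 1
        omega
      rw [h7]
      have h9 : ((Fintype.piFinset fun _ : ι => Finset.Icc (-(N : ℤ)) N).filter fun c =>
            ∀ v ∈ TT S ((el b c : 𝓞 k) : k),
            Real.log (nv v) ≤ Real.log (C * (N : ℝ) ^ n) ^ (1 / 2 : ℝ)).card ≤ (2 * N + 1) ^ n := by
        rw [← h8]
        exact Finset.card_filter_le _ _
      calc (((Fintype.piFinset fun _ : ι => Finset.Icc (-(N : ℤ)) N).filter fun c =>
            ∀ v ∈ TT S ((el b c : 𝓞 k) : k),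
            Real.log (nv v) ≤ Real.log (C * (N : ℝ) ^ n) ^ (1 / 2 : ℝ)).card : ℝ)
          ≤ ((2 * N + 1 : ℕ) : ℝ) ^ n := by exact_mod_cast h9
        _ ≤ (3 * (N : ℝ)) ^ n := by
            apply pow_le_pow_left₀ (by positivity)
            push_cast
            linarith
        _ = 3 ^ n * (N : ℝ) ^ n := mul_pow _ _ _
    refine h6.trans ?_
    have h10 : 3 ^ n * (N : ℝ) ^ n ≤
        (3 ^ n * Real.log ((N₀ : ℝ) + 2) ^ (1 / 2 : ℝ)) * ((N : ℝ) ^ n * lg) := by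
      have h11 : 0 ≤ 3 ^ n * (N : ℝ) ^ n := by positivity
      calc 3 ^ n * (N : ℝ) ^ n = 3 ^ n * (N : ℝ) ^ n * 1 := by ring
        _ ≤ 3 ^ n * (N : ℝ) ^ n * (lg * Real.log ((N₀ : ℝ) + 2) ^ (1 / 2 : ℝ)) :=
          mul_le_mul_of_nonneg_left h5 h11
        _ = _ := by ring
    refine h10.trans ?_
    rw [mul_assoc (_ + _ + _ + _)]
    apply mul_le_mul_of_nonneg_right _ hNl
    linarith
  · -- large N
    have hZ := hN₀ N hge
    set Λ : ℝ := Real.log (C * (N : ℝ) ^ n) with hΛ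
    have hΛN : Real.log N ≤ Λ := by
      rw [hΛ]
      apply Real.log_le_log hN0
      have h4 : (N : ℝ) ≤ (N : ℝ) ^ n := by
        calc (N : ℝ) = (N : ℝ) ^ 1 := (pow_one _).symm
          _ ≤ (N : ℝ) ^ n := pow_le_pow_right₀ (by linarith) hn
      nlinarith
    have hΛ0 : 0 < Λ := hl.trans_le hΛN
    have hs := q3_split b S C n N M hM ((le_max_left _ _).trans hZ)
    have ha := h₁ N hN
    have hb := h₂ N (Real.exp (Λ ^ (1 / 2 : ℝ))) (by omega) (Real.exp_pos _)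
    have hc := h₃ N (Real.exp (Λ ^ (1 / 2 : ℝ))) (by omega) ((le_max_right _ _).trans hZ)
    rw [Real.log_exp] at hc
    have ha' : A₁ * (N : ℝ) ^ n * Real.log N ^ (-1 : ℝ) ≤
        (A₁ * Real.log 2 ^ (-(1 / 2) : ℝ)) * ((N : ℝ) ^ n * lg) := by
      have h4 : Real.log N ^ (-1 : ℝ) = Real.log N ^ (-(1 / 2) : ℝ) * lg := by
        rw [hlg, ← Real.rpow_add hl]
        norm_num
      have h5 : Real.log N ^ (-(1 / 2) : ℝ) ≤ Real.log 2 ^ (-(1 / 2) : ℝ) :=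
        Real.rpow_le_rpow_of_nonpos hlog2 hl2 (by norm_num)
      rw [h4]
      calc A₁ * (N : ℝ) ^ n * (Real.log N ^ (-(1 / 2) : ℝ) * lg)
          = Real.log N ^ (-(1 / 2) : ℝ) * (A₁ * (N : ℝ) ^ n * lg) := by ring
        _ ≤ Real.log 2 ^ (-(1 / 2) : ℝ) * (A₁ * (N : ℝ) ^ n * lg) := by
          apply mul_le_mul_of_nonneg_right h5 (by positivity)
        _ = _ := by ring
    have hb' : A₂ * (N : ℝ) ^ n * Real.exp (Λ ^ (1 / 2 : ℝ)) ^ (-(1 / 2) : ℝ) ≤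
        (A₂ * 2) * ((N : ℝ) ^ n * lg) := by
      have h4 : Real.exp (Λ ^ (1 / 2 : ℝ)) ^ (-(1 / 2) : ℝ) ≤ 2 * lg := by
        rw [← Real.exp_mul]
        have h5 : 0 < Λ ^ (1 / 2 : ℝ) := Real.rpow_pos_of_pos hΛ0 _
        have h6 : Λ ^ (1 / 2 : ℝ) / 2 ≤ Real.exp (Λ ^ (1 / 2 : ℝ) / 2) := by
          have := Real.add_one_le_exp (Λ ^ (1 / 2 : ℝ) / 2)
          linarith
        have h7 : Real.exp (Λ ^ (1 / 2 : ℝ) * -(1 / 2)) = (Real.exp (Λ ^ (1 / 2 : ℝ) / 2))⁻¹ := by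
          rw [← Real.exp_neg]
          congr 1
          ring
        rw [h7]
        calc (Real.exp (Λ ^ (1 / 2 : ℝ) / 2))⁻¹ ≤ (Λ ^ (1 / 2 : ℝ) / 2)⁻¹ :=
              inv_anti₀ (by positivity) h6
          _ = 2 * Λ ^ (-(1 / 2) : ℝ) := by
              rw [inv_div, Real.rpow_neg hΛ0.le, div_eq_mul_inv]
          _ ≤ 2 * lg := by
              apply mul_le_mul_of_nonneg_left _ (by norm_num)
              exact Real.rpow_le_rpow_of_nonpos hl hΛN (by norm_num)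
      calc A₂ * (N : ℝ) ^ n * Real.exp (Λ ^ (1 / 2 : ℝ)) ^ (-(1 / 2) : ℝ)
          ≤ A₂ * (N : ℝ) ^ n * (2 * lg) := by
            apply mul_le_mul_of_nonneg_left h4 (by positivity)
        _ = _ := by ring
    have hc' : (Nat.card {c : ι → ℤ // (∀ i, |c i| ≤ N) ∧ c ≠ 0 ∧
      (N : ℝ) ^ ((n : ℝ) / 4) < (Ideal.absNorm (Ideal.span {el b c}) : ℝ) ∧
      ∀ v : Pr k, el b c ∈ v.asIdeal → (nv v : ℝ) ≤ Real.exp (Λ ^ (1 / 2 : ℝ))} : ℝ) ≤
        (A₃ * E ^ (1 / 2 : ℝ) * (4 / n)) * ((N : ℝ) ^ n * lg) := by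
      have h4 : Λ ≤ E * Real.log N := by
        rw [hΛ, Real.log_mul (by linarith) (by positivity), Real.log_pow, hE, add_mul]
        have h5 : Real.log C ≤ Real.log C / Real.log 2 * Real.log N := by
          rw [div_mul_eq_mul_div, le_div_iff₀ hlog2]
          exact mul_le_mul_of_nonneg_left hl2 hlogC
        linarith
      have h6 : Λ ^ (1 / 2 : ℝ) ≤ E ^ (1 / 2 : ℝ) * Real.log N ^ (1 / 2 : ℝ) := by
        rw [← Real.mul_rpow hE0.le hl.le]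
        exact Real.rpow_le_rpow hΛ0.le h4 (by norm_num)
      have h7 : Real.log N ^ (1 / 2 : ℝ) = lg * Real.log N := by
        rw [hlg, ← Real.rpow_add_one hl.ne']
        norm_num
      have h8 : (0 : ℝ) < (n : ℝ) / 4 * Real.log N := by positivity
      refine le_of_mul_le_mul_right (hc.trans ?_) h8
      calc A₃ * (N : ℝ) ^ n * Λ ^ (1 / 2 : ℝ)
          ≤ A₃ * (N : ℝ) ^ n * (E ^ (1 / 2 : ℝ) * Real.log N ^ (1 / 2 : ℝ)) := by
            apply mul_le_mul_of_nonneg_left h6 (by positivity)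
        _ = (A₃ * E ^ (1 / 2 : ℝ) * (4 / n)) * ((N : ℝ) ^ n * lg) *
            ((n : ℝ) / 4 * Real.log N) := by
            rw [h7]
            field_simp
    calc _ ≤ _ := hs
      _ ≤ (A₁ * Real.log 2 ^ (-(1 / 2) : ℝ)) * ((N : ℝ) ^ n * lg) +
          (A₂ * 2) * ((N : ℝ) ^ n * lg) +
          (A₃ * E ^ (1 / 2 : ℝ) * (4 / n)) * ((N : ℝ) ^ n * lg) :=
          add_le_add (add_le_add (ha.trans ha') (hb.trans hb')) hc'
      _ ≤ _ := by
          have h9 := mul_nonneg p4 hNl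
          rw [mul_assoc (_ + _ + _ + _)]
          linarith

end SC5
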