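import Pool.Agent.MP_c1dca2_ag.SC5.C7
import Pool.Agent.MP_c1dca2_ag.SC5.Q1
import Pool.Agent.MP_c1dca2_ag.SC5.Q3

/-!
# [SC5-Q4] the count, with a rate

Exactly the proof of C7 (`count`), with `typ_large_q` and `typ_omega_q` instead of `typ_large` and `typ_omega`; the part (c) is
at most `C² C' N^n Λ^(-δ₀)` per `x : κ`, `Λ = log (C N^n) ≥ log N` (`C ≥ 1`, `n ≥ 1`). Take `δ = min δ₀ (1/2)`; `log N` is
bounded below by `log 2 > 0` for `N ≥ 2`, so all three exponents can be replaced by `-δ` at the cost of a constant; small `N`: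
trivial bound with a large constant.
-/

set_option autoImplicit false

open NumberField IsDedekindDomain

namespace SC5

theorem q4_box_card (ι : Type) [Fintype ι] (N : ℕ) :
    (c7_box ι N).card = (2 * N + 1) ^ Fintype.card ι := by
  classical
  unfold c7_box
  rw [Fintype.card_piFinset]
  simp only [Int.card_Icc, Finset.prod_const, Finset.card_univ]
  congr 1
  omega

/-- `x ^ (-s) ≤ (log 2) ^ (-(s - d)) x ^ (-d)` for `x ≥ log 2`, `s ≥ d`. -/
theorem q4_rpow {x s d : ℝ} (hx : Real.log 2 ≤ x) (h : d ≤ s) :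
    x ^ (-s) ≤ Real.log 2 ^ (-(s - d)) * x ^ (-d) := by
  have h2 : 0 < Real.log 2 := Real.log_pos (by norm_num)
  have hx0 : 0 < x := lt_of_lt_of_le h2 hx
  have h1 : x ^ (-s) = x ^ (-(s - d)) * x ^ (-d) := by
    rw [← Real.rpow_add hx0]
    congr 1
    ring
  rw [h1]
  refine mul_le_mul_of_nonneg_right ?_ (Real.rpow_nonneg hx0.le _)
  exact Real.rpow_le_rpow_of_nonpos h2 hx (by linarith)

theorem count_q {k : Type} [Field k] [NumberField k] {I : Type} [Fintype I] {L : I → Type}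
    [∀ i, Field (L i)] [∀ i, NumberField (L i)] [∀ i, Algebra k (L i)] (M : Type) [Field M]
    [NumberField M] [Algebra k M] [IsGalois k M] [∀ i, Algebra (L i) M]
    [∀ i, IsScalarTower k (L i) M] {S : Finset (Pr k)}
    {al : ∀ i, Pr (L i) → 𝓞 (L i)} {Cg : ℕ} (hF : Fam k L S al Cg) {κ : Type} [Finite κ]
    (E : κ → PL L → PL L → PL L → ℤˣ) {ι : Type} [Fintype ι] (b : Module.Basis ι ℤ (𝓞 k)) :
    ∃ δ A : ℝ, 0 < δ ∧ 0 < A ∧ ∀ N : ℕ, 2 ≤ N → (Nat.card {c : ι → ℤ // (∀ i, |c i| ≤ N) ∧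
      ∃ (x : κ) (P : Finset (PL L)), Cfg k S P ∧
        TT S ((el b c : 𝓞 k) : k) = (fun o => bl k o.2) '' (P : Set (PL L)) ∧
        ∀ o ∈ P, Rel k (E x o) o (sgn al P)} : ℝ) ≤
      A * (N : ℝ) ^ (Fintype.card ι) * Real.log N ^ (-δ) := by
  classical
  have : Fintype κ := Fintype.ofFinite κ
  obtain ⟨C, hC1, hC⟩ := cfg_count b S
  obtain ⟨δ₀, C', Λ₀, hδ₀, hC', hΛ₀, ht⟩ := total M hF
  obtain ⟨A₁, hA₁, hT4⟩ := typ_large_q b S C hC1
  obtain ⟨A₂, hA₂, hT2⟩ := typ_omega_q b S C hC1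
  have hne : Nonempty ι := b.index_nonempty
  have hn : Fintype.card ι ≠ 0 := Fintype.card_ne_zero
  have hl2 : 0 < Real.log 2 := Real.log_pos (by norm_num)
  set δ : ℝ := min δ₀ (1 / 2) with hδ
  have hδ0 : 0 < δ := lt_min hδ₀ (by norm_num)
  have hδ1 : δ ≤ δ₀ := min_le_left _ _
  have hδ2 : δ ≤ 1 / 2 := min_le_right _ _
  set K : ℝ := (Fintype.card κ : ℝ) with hK
  have hK0 : 0 ≤ K := Nat.cast_nonneg _
  set c₁ : ℝ := Real.log 2 ^ (-(1 / 2 - δ)) with hc₁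
  set c₂ : ℝ := Real.log 2 ^ (-(1 - δ)) with hc₂
  set c₃ : ℝ := Real.log 2 ^ (-(δ₀ - δ)) with hc₃
  have hc₁0 : 0 < c₁ := Real.rpow_pos_of_pos hl2 _
  have hc₂0 : 0 < c₂ := Real.rpow_pos_of_pos hl2 _
  have hc₃0 : 0 < c₃ := Real.rpow_pos_of_pos hl2 _
  have hΛ₀0 : 0 < Λ₀ := by linarith
  refine ⟨δ, A₁ * c₁ + A₂ * c₂ + K * (C * (C' * C) * c₃) + 3 ^ (Fintype.card ι) * Λ₀ ^ δ, hδ0,
    by positivity, ?_⟩
  intro N hN
  have hN1 : 1 ≤ N := by omega
  have hNR : (2 : ℝ) ≤ N := by exact_mod_cast hN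
  have hN0 : (0 : ℝ) < N := by linarith
  have hlN : Real.log 2 ≤ Real.log N := Real.log_le_log (by norm_num) hNR
  have hlN0 : 0 < Real.log N := lt_of_lt_of_le hl2 hlN
  set Y : ℝ := (N : ℝ) ^ (Fintype.card ι) with hY
  have hY0 : 0 < Y := by positivity
  set Λ : ℝ := Real.log (C * (N : ℝ) ^ (Fintype.card ι)) with hΛ
  have hNΛ : Real.log N ≤ Λ := by
    refine Real.log_le_log hN0 ?_
    have h1 : (N : ℝ) ≤ (N : ℝ) ^ (Fintype.card ι) := le_self_pow₀ (by linarith) hn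
    nlinarith
  have hpd : 0 < Real.log N ^ (-δ) := Real.rpow_pos_of_pos hlN0 _
  rw [c7_card]
  set A := (c7_box ι N).filter (fun c => ∃ (x : κ) (P : Finset (PL L)), Cfg k S P ∧
        TT S ((el b c : 𝓞 k) : k) = (fun o => bl k o.2) '' (P : Set (PL L)) ∧
        ∀ o ∈ P, Rel k (E x o) o (sgn al P)) with hA
  rcases lt_or_ge Λ Λ₀ with hsmall | hΛN
  · -- small `N`
    have h1 : (A.card : ℝ) ≤ (2 * N + 1) ^ (Fintype.card ι) := by
      have h2 : A.card ≤ (c7_box ι N).card := Finset.card_le_card (Finset.filter_subset _ _)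
      rw [q4_box_card] at h2
      exact_mod_cast h2
    have h2 : (2 * (N : ℝ) + 1) ^ (Fintype.card ι) ≤ 3 ^ (Fintype.card ι) * Y := by
      rw [hY, ← mul_pow]
      exact pow_le_pow_left₀ (by positivity) (by linarith) _
    have h3 : (1 : ℝ) ≤ Λ₀ ^ δ * Real.log N ^ (-δ) := by
      have h4 : Λ₀ ^ (-δ) ≤ Real.log N ^ (-δ) :=
        Real.rpow_le_rpow_of_nonpos hlN0 (by linarith) (by linarith)
      have h5 : Λ₀ ^ δ * Λ₀ ^ (-δ) = 1 := by
        rw [← Real.rpow_add hΛ₀0, add_neg_cancel, Real.rpow_zero]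
      calc (1 : ℝ) = Λ₀ ^ δ * Λ₀ ^ (-δ) := h5.symm
        _ ≤ _ := mul_le_mul_of_nonneg_left h4 (Real.rpow_nonneg hΛ₀0.le _)
    have h4 : 3 ^ (Fintype.card ι) * Y ≤
        3 ^ (Fintype.card ι) * Λ₀ ^ δ * Y * Real.log N ^ (-δ) := by
      have h5 : 0 ≤ 3 ^ (Fintype.card ι) * Y := by positivity
      have h6 := mul_le_mul_of_nonneg_left h3 h5
      linarith
    have h5 : 0 ≤ (A₁ * c₁ + A₂ * c₂ + K * (C * (C' * C) * c₃)) * Y * Real.log N ^ (-δ) := by
      positivity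
    have h6 : (A₁ * c₁ + A₂ * c₂ + K * (C * (C' * C) * c₃) + 3 ^ (Fintype.card ι) * Λ₀ ^ δ) * Y *
        Real.log N ^ (-δ) = (A₁ * c₁ + A₂ * c₂ + K * (C * (C' * C) * c₃)) * Y *
        Real.log N ^ (-δ) + 3 ^ (Fintype.card ι) * Λ₀ ^ δ * Y * Real.log N ^ (-δ) := by ring
    rw [h6]
    linarith
  · -- large `N`
    have hΛpos : 0 < Λ := by linarith
    have hB4 := hT4 N hN
    have hD2 := hT2 N hN
    rw [c7_card] at hB4 hD2
    set B := (c7_box ι N).filter (fun c => ∀ v ∈ TT S ((el b c : 𝓞 k) : k),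
          Real.log (nv v) ≤ Λ ^ (1 / 2 : ℝ)) with hB
    set D := (c7_box ι N).filter (fun c => c ≠ 0 ∧
        Real.log Λ ^ 2 < ((TT S ((el b c : 𝓞 k) : k)).ncard : ℝ)) with hDD
    set R : κ → Finset (ι → ℤ) := fun x => (c7_box ι N).filter (fun c => c ≠ 0 ∧
        ∃ P : Finset (PL L), Cfg k S P ∧
        TT S ((el b c : 𝓞 k) : k) = (fun o : PL L => bl k o.2) '' (P : Set (PL L)) ∧
        (∀ o ∈ P, Rel k (E x o) o (sgn al P)) ∧ (P.card : ℝ) ≤ Real.log Λ ^ 2 ∧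
        ∃ o ∈ P, Λ ^ (1 / 2 : ℝ) < Real.log (nv o.2)) with hR
    have hsub : A ⊆ (B ∪ D) ∪ Finset.univ.biUnion R := by
      intro c hc
      rw [hA, Finset.mem_filter] at hc
      obtain ⟨hcb, x, P, hP, hTT, hrel⟩ := hc
      by_cases h1 : c ∈ B
      · exact Finset.mem_union_left _ (Finset.mem_union_left _ h1)
      by_cases h2 : c ∈ D
      · exact Finset.mem_union_left _ (Finset.mem_union_right _ h2)
      refine Finset.mem_union_right _ (Finset.mem_biUnion.mpr ⟨x, Finset.mem_univ x, ?_⟩)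
      rw [hB, Finset.mem_filter] at h1
      push Not at h1
      obtain ⟨v, hv, hvL⟩ := h1 hcb
      have hc0 : c ≠ 0 := by
        rintro rfl
        rw [c7_el_zero] at hv
        have h3 : ((0 : 𝓞 k) : k) = 0 := by simp
        rw [h3, c7_TT_zero] at hv
        exact hv
      rw [hDD, Finset.mem_filter] at h2
      have h4 : ((TT S ((el b c : 𝓞 k) : k)).ncard : ℝ) ≤ Real.log Λ ^ 2 := by
        by_contra h5
        rw [not_le] at h5
        exact h2 ⟨hcb, hc0, h5⟩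
      have hinj : Set.InjOn (fun o : PL L => bl k o.2) (P : Set (PL L)) :=
        fun o ho o' ho' h => hP.inj o ho o' ho' h
      have h6 : (TT S ((el b c : 𝓞 k) : k)).ncard = P.card := by
        rw [hTT, Set.ncard_image_of_injOn hinj, Set.ncard_coe_finset]
      rw [h6] at h4
      rw [hTT] at hv
      obtain ⟨o, ho, hov⟩ := hv
      rw [hR, Finset.mem_filter]
      refine ⟨hcb, hc0, P, hP, hTT, hrel, h4, o, ho, ?_⟩
      rw [nv_eq (k := k) o.2, hP.deg o ho, pow_one]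
      have h7 : bl k o.2 = v := hov
      rw [h7]
      exact hvL
    have hcard : (A.card : ℝ) ≤ B.card + D.card + ∑ x : κ, ((R x).card : ℝ) := by
      have h1 := Finset.card_le_card hsub
      have h2 := Finset.card_union_le (B ∪ D) (Finset.univ.biUnion R)
      have h3 := Finset.card_union_le B D
      have h4 : (Finset.univ.biUnion R).card ≤ ∑ x : κ, (R x).card := Finset.card_biUnion_le
      have h5 : A.card ≤ B.card + D.card + ∑ x : κ, (R x).card := by omega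
      exact_mod_cast h5
    have hRx : ∀ x : κ, ((R x).card : ℝ) ≤
        C * (C' * (C * (N : ℝ) ^ (Fintype.card ι)) * Λ ^ (-δ₀)) :=
      fun x => c7_R b hC1 hC ht (E x) hN1 Λ hΛ hΛN
    have hRs : ∑ x : κ, ((R x).card : ℝ) ≤ K * (C * (C' * (C * Y) * Λ ^ (-δ₀))) := by
      refine (Finset.sum_le_sum fun x _ => hRx x).trans ?_
      rw [Finset.sum_const, nsmul_eq_mul, Finset.card_univ]
    -- the exponents
    have e1 : Real.log N ^ (-(1 / 2) : ℝ) ≤ c₁ * Real.log N ^ (-δ) := q4_rpow hlN hδ2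
    have e2 : Real.log N ^ (-1 : ℝ) ≤ c₂ * Real.log N ^ (-δ) := q4_rpow hlN (by linarith)
    have e3 : Λ ^ (-δ₀) ≤ c₃ * Real.log N ^ (-δ) := by
      refine (Real.rpow_le_rpow_of_nonpos hlN0 hNΛ (by linarith)).trans ?_
      exact q4_rpow hlN hδ1
    have f1 : (B.card : ℝ) ≤ A₁ * c₁ * Y * Real.log N ^ (-δ) := by
      refine hB4.trans ?_
      have := mul_le_mul_of_nonneg_left e1 (by positivity : 0 ≤ A₁ * Y)
      linarith
    have f2 : (D.card : ℝ) ≤ A₂ * c₂ * Y * Real.log N ^ (-δ) := by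
      refine hD2.trans ?_
      have := mul_le_mul_of_nonneg_left e2 (by positivity : 0 ≤ A₂ * Y)
      linarith
    have f3 : ∑ x : κ, ((R x).card : ℝ) ≤ K * (C * (C' * C) * c₃) * Y * Real.log N ^ (-δ) := by
      refine hRs.trans ?_
      have := mul_le_mul_of_nonneg_left e3 (by positivity : 0 ≤ K * (C * (C' * (C * Y))))
      linarith
    have f4 : 0 ≤ 3 ^ (Fintype.card ι) * Λ₀ ^ δ * Y * Real.log N ^ (-δ) := by positivity
    have h6 : (A₁ * c₁ + A₂ * c₂ + K * (C * (C' * C) * c₃) + 3 ^ (Fintype.card ι) * Λ₀ ^ δ) * Y *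
        Real.log N ^ (-δ) = A₁ * c₁ * Y * Real.log N ^ (-δ) + A₂ * c₂ * Y * Real.log N ^ (-δ) +
        K * (C * (C' * C) * c₃) * Y * Real.log N ^ (-δ) +
        3 ^ (Fintype.card ι) * Λ₀ ^ δ * Y * Real.log N ^ (-δ) := by ring
    rw [h6]
    linarith

end SC5
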