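import Pool.Agent.MP_c1dca2_ag.SC5.G5
import Pool.Agent.MP_c1dca2_ag.SC5.Q4
import Pool.Agent.MP_c1dca2_ag.SC5.J2
import Pool.Agent.MP_c1dca2_ag.SC5.J3
import Pool.Agent.MP_c1dca2_ag.SC5.J4

/-!
# [SC5-F] Assembly: no sections for 100% of the quadratic twists of every hyperelliptic curve
without rational Weierstrass point
-/

set_option autoImplicit false

open NumberField IsDedekindDomain Polynomial Filter Topology SC2 SC3

namespace SC5

theorem noSection_of {k : Type} [Field k] [NumberField k] (f : k[X]) (hsep : f.Separable)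
    (heven : Even f.natDegree) (h4 : 4 ≤ f.natDegree) (hroot : ∀ a : k, f.eval a ≠ 0) (c : k)
    (hc : c ≠ 0) (hD : ¬ Nonempty (Dat k (AlgebraicClosure k) f c)) :
    SCJ.NoSection k (C c * f) := by
  intro K _ _ x y hx hxy
  have hxy' : y ^ 2 = algebraMap k K c * aeval x f := by
    rw [hxy, map_mul, aeval_C]
  have e1 : IsEmpty (SCJ.Sect k K) := by
    refine ⟨fun s => hD ?_⟩
    exact dat_main f hsep heven h4 hroot c hc x y hx hxy' (Or.inl ⟨s.toOld⟩)
  have e2 : IsEmpty (SCJ.RatPlace k K) := by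
    refine ⟨fun P => hD ?_⟩
    exact dat_main f hsep heven h4 hroot c hc x y hx hxy' (Or.inr ⟨P.toOld⟩)
  exact ⟨⟨fun P => e2.elim P, fun s => e1.elim s⟩, e1, e2⟩

theorem main {k : Type} [Field k] [NumberField k] (f : k[X]) (hsep : f.Separable)
    (heven : Even f.natDegree) (h4 : 4 ≤ f.natDegree) (hroot : ∀ a : k, f.eval a ≠ 0)
    {ι : Type} [Fintype ι] (b : Module.Basis ι ℤ (𝓞 k)) :
    ∃ δ A : ℝ, 0 < δ ∧ ∀ N : ℕ, 2 ≤ N →
      (Nat.card {c : ι → ℤ // (∀ i, |c i| ≤ N) ∧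
        ¬ SCJ.NoSection k (C ((∑ i, c i • b i : 𝓞 k) : k) * f)} : ℝ) ≤
      A * (N : ℝ) ^ (Fintype.card ι) / Real.log N ^ δ := by
  classical
  obtain ⟨I, hI, L, θ, hR, h2, hsum⟩ := rf_exists f hsep hroot
  have hfin : Module.Finite k f.SplittingField := inferInstance
  have hnf : NumberField f.SplittingField := NumberField.of_module_finite k _
  have hgal : IsGalois k f.SplittingField := by
    have : Algebra.IsSeparable k f.SplittingField := inferInstance
    have : Normal k f.SplittingField := inferInstance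
    exact ⟨⟩
  have hLn : ∀ i, NumberField (L i) := fun i => SC4.nf (L i)
  have hf0 : f ≠ 0 := hsep.ne_zero
  have h4' : 4 ≤ ∑ i, Module.finrank k (L i) := by omega
  obtain ⟨S, al, Cg, hS⟩ := gs_exists (C := AlgebraicClosure k) (L := fun i => L i) hR hsep h2 h4'
  obtain ⟨κ, hκ, E, hE⟩ := interface_S hR hf0 hS
  obtain ⟨δ, A₀, hδ, hA₀, hcount⟩ := count_q (M := f.SplittingField) hS.fam E b
  have hn : 0 < Fintype.card ι := by
    rw [Fintype.card_pos_iff]
    by_contra hcon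
    rw [not_nonempty_iff] at hcon
    have h1 : Subsingleton (𝓞 k) := b.repr.toEquiv.subsingleton
    exact one_ne_zero (Subsingleton.elim (1 : 𝓞 k) 0)
  have hfinbox : ∀ N : ℕ, {c : ι → ℤ | ∀ i, |c i| ≤ (N : ℤ)}.Finite := by
    intro N
    refine (Fintype.piFinset fun _ : ι => Finset.Icc (-(N : ℤ)) N).finite_toSet.subset ?_
    intro c hc
    rw [Finset.mem_coe, Fintype.mem_piFinset]
    intro i
    rw [Finset.mem_Icc]
    exact abs_le.1 (hc i)
  -- the element `0`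
  obtain ⟨δ', hδ', hδ1, hδle⟩ : ∃ δ' : ℝ, 0 < δ' ∧ δ' ≤ 1 ∧ δ' ≤ δ :=
    ⟨min δ 1, by positivity, min_le_right _ _, min_le_left _ _⟩
  have hlog2 : 0 < Real.log 2 := Real.log_pos (by norm_num)
  refine ⟨δ', A₀ * (Real.log 2) ^ (δ' - δ) + 1, hδ', fun N hN => ?_⟩
  have hN2 : (2 : ℝ) ≤ N := by exact_mod_cast hN
  have hN0 : (0 : ℝ) < N := by linarith
  have hlogN : Real.log 2 ≤ Real.log N := Real.log_le_log (by norm_num) hN2
  have hlogN0 : 0 < Real.log N := lt_of_lt_of_le hlog2 hlogN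
  have hNn : (N : ℝ) ≤ (N : ℝ) ^ (Fintype.card ι) := by
    calc (N : ℝ) = (N : ℝ) ^ 1 := (pow_one _).symm
      _ ≤ _ := pow_le_pow_right₀ (by linarith) hn
  set A : Set (ι → ℤ) := {c | (∀ i, |c i| ≤ (N : ℤ)) ∧
      ¬ SCJ.NoSection k (C ((∑ i, c i • b i : 𝓞 k) : k) * f)} with hA
  set B : Set (ι → ℤ) := {c | (∀ i, |c i| ≤ (N : ℤ)) ∧
      ∃ (x : κ) (P : Finset (PL fun i => ↥(L i))), Cfg k S P ∧
        TT S ((el b c : 𝓞 k) : k) = (fun o => bl k o.2) '' (P : Set (PL fun i => ↥(L i))) ∧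
        ∀ o ∈ P, Rel k (E x o) o (sgn al P)} with hB
  have hsub : A ⊆ B ∪ {0} := by
    rintro c ⟨hc1, hc2⟩
    by_cases h0 : c = 0
    · exact Or.inr h0
    · refine Or.inl ⟨hc1, ?_⟩
      have hel : (el b c : 𝓞 k) ≠ 0 := by
        intro h
        apply h0
        have h3 := (Fintype.linearIndependent_iff.1 b.linearIndependent) c h
        funext i
        exact h3 i
      refine hE (el b c) hel ?_
      by_contra hcon
      refine hc2 (noSection_of f hsep heven h4 hroot _ ?_ hcon)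
      intro h
      apply hel
      exact RingOfIntegers.ext h
  have hBfin : B.Finite := (hfinbox N).subset fun c hc => hc.1
  have h5 : Nat.card A ≤ Nat.card B + 1 := by
    have h6 : A.ncard ≤ (B ∪ {0}).ncard :=
      Set.ncard_le_ncard hsub (hBfin.union (Set.finite_singleton _))
    have h7 := Set.ncard_union_le B {0}
    rw [Set.ncard_singleton] at h7
    exact h6.trans h7
  have h8 : ((Nat.card A : ℕ) : ℝ) ≤ (Nat.card B : ℕ) + 1 := by
    calc ((Nat.card A : ℕ) : ℝ) ≤ ((Nat.card B + 1 : ℕ) : ℝ) := Nat.cast_le.2 h5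
      _ = (Nat.card B : ℕ) + 1 := by push_cast; ring
  have h9 : ((Nat.card B : ℕ) : ℝ) ≤ A₀ * (N : ℝ) ^ (Fintype.card ι) * Real.log N ^ (-δ) :=
    hcount N hN
  have h10 : Real.log N ^ (-δ) ≤ Real.log 2 ^ (δ' - δ) * Real.log N ^ (-δ') := by
    have e1 : Real.log N ^ (-δ) = Real.log N ^ (δ' - δ) * Real.log N ^ (-δ') := by
      rw [← Real.rpow_add hlogN0]
      congr 1
      ring
    rw [e1]
    refine mul_le_mul_of_nonneg_right ?_ (Real.rpow_nonneg hlogN0.le _)
    exact Real.rpow_le_rpow_of_nonpos hlog2 hlogN (by linarith)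
  have h11 : (1 : ℝ) ≤ (N : ℝ) ^ (Fintype.card ι) * Real.log N ^ (-δ') := by
    have e1 : Real.log N ^ δ' ≤ N := by
      have e2 : Real.log N ≤ N := by
        have := Real.log_le_sub_one_of_pos hN0
        linarith
      calc Real.log N ^ δ' ≤ (N : ℝ) ^ δ' := Real.rpow_le_rpow hlogN0.le e2 hδ'.le
        _ ≤ (N : ℝ) ^ (1 : ℝ) := Real.rpow_le_rpow_of_exponent_le (by linarith) hδ1
        _ = N := Real.rpow_one _
    rw [Real.rpow_neg hlogN0.le, ← div_eq_mul_inv, one_le_div (Real.rpow_pos_of_pos hlogN0 _)]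
    exact e1.trans hNn
  have h12 : ((Nat.card A : ℕ) : ℝ) ≤
      (A₀ * (Real.log 2) ^ (δ' - δ) + 1) * (N : ℝ) ^ (Fintype.card ι) / Real.log N ^ δ' := by
    have e3 : (A₀ * (Real.log 2) ^ (δ' - δ) + 1) * (N : ℝ) ^ (Fintype.card ι) /
        Real.log N ^ δ' = A₀ * (N : ℝ) ^ (Fintype.card ι) *
          (Real.log 2 ^ (δ' - δ) * Real.log N ^ (-δ')) +
          (N : ℝ) ^ (Fintype.card ι) * Real.log N ^ (-δ') := by
      rw [Real.rpow_neg hlogN0.le, div_eq_mul_inv]
      ring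
    rw [e3]
    have e4 : A₀ * (N : ℝ) ^ (Fintype.card ι) * Real.log N ^ (-δ) ≤
        A₀ * (N : ℝ) ^ (Fintype.card ι) * (Real.log 2 ^ (δ' - δ) * Real.log N ^ (-δ')) :=
      mul_le_mul_of_nonneg_left h10 (by positivity)
    linarith
  exact h12

end SC5
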