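import Pool.Agent.MP_c1dca2_ag.SC5.B1

/-!
# [SC5] the family of fields, the blocks: definitions
-/

set_option autoImplicit false

open NumberField IsDedekindDomain

noncomputable section

namespace SC5

variable {I : Type} [Fintype I]

/-- The family of the fields `L i` with the chosen generators of primes. -/
structure Fam (k : Type) [Field k] [NumberField k] (L : I → Type) [∀ i, Field (L i)]
    [∀ i, NumberField (L i)] [∀ i, Algebra k (L i)] (S : Finset (Pr k))
    (al : ∀ i, Pr (L i) → 𝓞 (L i)) (Cg : ℕ) : Prop where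
  two_le : ∀ i, 2 ≤ Module.finrank k (L i)
  four_le : 4 ≤ ∑ i, Module.finrank k (L i)
  unr : ∀ i, ∀ v, v ∉ S → ∀ T : Finset (Pr (L i)), (∀ w, w ∈ T ↔ bl k w = v) →
    ∑ w ∈ T, dg k w = Module.finrank k (L i)
  two : ∀ v : Pr k, v ∉ S → (2 : 𝓞 k) ∉ v.asIdeal
  gen : ∀ i, Gen (al i) Cg
  large : ∀ i, ∀ w : Pr (L i), bl k w ∉ S → Cg < nv w

/-- The block boundaries: `Λ ^ (1 - j / K)` for `j < K`, and `0`. -/
def tau (K : ℕ) (Λ : ℝ) (j : ℕ) : ℝ := if j < K then Λ ^ (1 - (j : ℝ) / K) else 0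

variable {L : I → Type} [∀ i, Field (L i)] [∀ i, NumberField (L i)]

/-- The block of `o`: `tau j < log (nv o) ≤ tau (j - 1)`. -/
def blk (K : ℕ) (Λ : ℝ) (o : PL L) : ℕ := sInf {j | tau K Λ j < Real.log (nv o.2)}

open scoped Classical in
/-- The indices whose special element is much larger than the elements of block `j`. -/
def vis (p : I → ℕ) (j : ℕ) : Finset I := Finset.univ.filter (fun i => 1 ≤ p i ∧ p i + 2 ≤ j)

open scoped Classical in
/-- The cost of the relation at `o`. -/
def cp (k : Type) [Field k] [NumberField k] [∀ i, Algebra k (L i)] (K : ℕ) (Λ : ℝ) (p : I → ℕ)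
    (o : PL L) : ℝ :=
  if o.1 ∈ vis p (blk K Λ o) then beta k (vis p (blk K Λ o)) o else 1

/-- The norm of a finite set of primes. -/
def NP (P : Finset (PL L)) : ℝ := ∏ o ∈ P, (nv o.2 : ℝ)

end SC5
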