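import Pool.Agent.MP_c1dca2_ag.SC5.Dat

/-!
# [SC5-G1] the data of a point: local lemmas

`k`, `C` with `C` algebraically closed, `A` good for `f` (`GoodAt A f`), `V` above `A`. `SC2.exists_roots`
(file SC2/C2.lean) gives the roots `r i ∈ V`, `f.map = C l * ∏ (X - C (r i))`, `|l| = 1`, `|r i - r j| = 1`; compare
`SC3.loc_exists` (file SC3/T0.lean) and `SC3.R1_out` (file SC3/R1.lean), whose lemmas `R1_eva`, `R1_one`, `R1_add_lt`,
`R1_sub_lt`, `R1_swap` can be used, and `SC2.a5_val_eq`.

`g1_root_mem`, `g1_root_dist`: a root is an `r i`.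

`g1_iner_root`: `SC2.f_iner_root`, `SC2.f_perm`.

`g1_near`: the cases of `R1_out`: `|y₀|² = |c| |f(x₀)|`, `f(x₀) = l ∏ (x₀ - r i)`. If `x₀ ∉ A` then `|x₀ - r i| = |x₀|` and
`|f(x₀)| = |x₀|^N`, `N` even, so `c` is even (`R1_eva`). If `x₀ ∈ A` and no root is congruent to `x₀` then `|f(x₀)| = 1` and `c` is even.

`g1_val`: `x₀ ∈ V`, `|x₀ - a| < 1`: the other roots `b` satisfy `|x₀ - b| = 1` (`x₀ - b = (x₀ - a) + (a - b)`), so
`|f(x₀)| = |x₀ - a|`.

`g1_unit_fix`: if `z = 0` trivial. Otherwise `e ≠ 0`, `w = z / e` is a unit of `V`, `τ w = ± w`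
(`(τ w)² = τ (z²) / e² = w²`); if `τ w = - w` then `τ w - w = - 2 w` is a unit, contradiction to `Iner.triv`
(proof of `SC3.ev_fix`).
-/

set_option autoImplicit false

open Polynomial SC2 SC3 IsLocalRing

noncomputable section

namespace SC5

variable {k C : Type} [Field k] [Field C] [Algebra k C]

theorem g1_roots [IsAlgClosed C] {A : ValuationSubring k} {V : ValuationSubring C} {f : k[X]}
    (hA : GoodAt A f) (hV : Above A V) : ∃ (n : ℕ) (r : Fin n → C) (l : k), n = f.natDegree ∧
      V.valuation (algebraMap k C l) = 1 ∧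
      (∀ i, r i ∈ V) ∧ (∀ i j, i ≠ j → V.valuation (r i - r j) = 1) ∧
      (∀ z, aeval z f = algebraMap k C l * ∏ i, (z - r i)) ∧ (∀ a, aeval a f = 0 → ∃ i, a = r i) ∧
      ∀ (σ : C ≃ₐ[k] C) i, ∃ j, σ (r i) = r j := by
  obtain ⟨F, hF, hFs, hFd⟩ := hA.red
  obtain ⟨r, l, hl, hfr, hr, hd⟩ := exists_roots hV F hFs hFd
  rw [hF] at hfr
  have hl0 : l ≠ 0 := by
    rintro rfl
    rw [map_zero, map_zero] at hl
    exact zero_ne_one hl
  have hl0' : algebraMap k C l ≠ 0 := by
    rw [Ne, map_eq_zero]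
    exact hl0
  have hev : ∀ z, aeval z f = algebraMap k C l * ∏ i, (z - r i) := by
    intro z
    rw [← eval_map_algebraMap, hfr, eval_mul, eval_C, eval_prod]
    congr 1
    exact Finset.prod_congr rfl fun i _ => by rw [eval_sub, eval_X, eval_C]
  refine ⟨F.natDegree, r, l, ?_, hl, hr, hd, hev, ?_, fun σ i => f_perm f l hl0 r hfr σ i⟩
  · rw [← hF, natDegree_map_eq_of_injective A.subtype_injective]
  · intro a ha
    rw [hev, mul_eq_zero, or_iff_right hl0', Finset.prod_eq_zero_iff] at ha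
    obtain ⟨i, _, hi⟩ := ha
    exact ⟨i, sub_eq_zero.1 hi⟩

theorem g1_root_mem [IsAlgClosed C] {A : ValuationSubring k} {V : ValuationSubring C} {f : k[X]}
    (hA : GoodAt A f) (hV : Above A V) (a : C) (ha : aeval a f = 0) : V.valuation a ≤ 1 := by
  obtain ⟨n, r, l, hn, hl, hr, hd, hev, hroot, hp⟩ := g1_roots hA hV
  obtain ⟨i, rfl⟩ := hroot a ha
  exact (V.valuation_le_one_iff _).2 (hr i)

theorem g1_root_dist [IsAlgClosed C] {A : ValuationSubring k} {V : ValuationSubring C} {f : k[X]}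
    (hA : GoodAt A f) (hV : Above A V) (a b : C) (ha : aeval a f = 0) (hb : aeval b f = 0)
    (hab : a ≠ b) : V.valuation (a - b) = 1 := by
  obtain ⟨n, r, l, hn, hl, hr, hd, hev, hroot, hp⟩ := g1_roots hA hV
  obtain ⟨i, rfl⟩ := hroot a ha
  obtain ⟨j, rfl⟩ := hroot b hb
  exact hd i j fun h => hab (by rw [h])

theorem g1_iner_root [IsAlgClosed C] {A : ValuationSubring k} {V : ValuationSubring C} {f : k[X]}
    (hA : GoodAt A f) (hV : Above A V) (a : C) (ha : aeval a f = 0) (τ : C ≃ₐ[k] C)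
    (hτ : Iner V τ) : τ a = a := by
  obtain ⟨n, r, l, hn, hl, hr, hd, hev, hroot, hp⟩ := g1_roots hA hV
  obtain ⟨i, rfl⟩ := hroot a ha
  exact f_iner_root r hr hd hp τ hτ i

theorem g1_eval (f : k[X]) (x0 : k) : algebraMap k C (f.eval x0) = aeval (algebraMap k C x0) f := by
  rw [aeval_algebraMap_apply, coe_aeval_eq_eval]

/-- a root congruent to `x₀`, if `c` is odd -/
theorem g1_near [IsAlgClosed C] {A : ValuationSubring k} {V : ValuationSubring C} {f : k[X]}
    (hA : GoodAt A f) (hV : Above A V) (heven : Even f.natDegree) (c x0 y0 : k) (hc : c ≠ 0)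
    (hf : f.eval x0 ≠ 0) (hy : y0 ^ 2 = c * f.eval x0) (hodd : ¬ EvA A c) :
    ∃ r : C, aeval r f = 0 ∧ V.valuation (algebraMap k C x0 - r) < 1 := by
  obtain ⟨n, r, l, hn, hl, hr, hd, hev, hroot, hp⟩ := g1_roots hA hV
  by_contra hcon
  push Not at hcon
  apply hodd
  have hri : ∀ i, aeval (r i) f = 0 := by
    intro i
    rw [hev, Finset.prod_eq_zero (Finset.mem_univ i) (sub_self _), mul_zero]
  have hvy : V.valuation (algebraMap k C y0) ^ 2 = V.valuation (algebraMap k C c) *
      V.valuation (algebraMap k C (f.eval x0)) := by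
    rw [← map_pow, ← map_pow, hy, map_mul, map_mul]
  have hvf : V.valuation (algebraMap k C (f.eval x0)) =
      ∏ i, V.valuation (algebraMap k C x0 - r i) := by
    rw [g1_eval, hev, map_mul, hl, one_mul, map_prod]
  by_cases hxA : x0 ∈ A
  · have hX0V : V.valuation (algebraMap k C x0) ≤ 1 := (V.valuation_le_one_iff _).2 ((hV x0).2 hxA)
    have hone : ∀ i, V.valuation (algebraMap k C x0 - r i) = 1 := fun i =>
      le_antisymm ((Valuation.map_sub _ _ _).trans (max_le hX0V ((V.valuation_le_one_iff _).2 (hr i))))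
        (hcon _ (hri i))
    rw [R1_eva hV]
    refine ⟨y0, ?_⟩
    rw [hvy, hvf, Finset.prod_eq_one fun i _ => hone i, mul_one]
  · have hX0V : 1 < V.valuation (algebraMap k C x0) := by
      rw [← not_le, V.valuation_le_one_iff]
      exact fun h => hxA ((hV x0).1 h)
    have hval : ∀ j, V.valuation (algebraMap k C x0 - r j) = V.valuation (algebraMap k C x0) := by
      intro j
      apply Valuation.map_sub_eq_of_lt_left
      exact lt_of_le_of_lt ((V.valuation_le_one_iff _).2 (hr j)) hX0V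
    have hX00 : V.valuation (algebraMap k C x0) ≠ 0 := (lt_trans zero_lt_one hX0V).ne'
    obtain ⟨m, hm⟩ := heven
    rw [R1_eva hV]
    refine ⟨y0 / x0 ^ m, ?_⟩
    rw [map_div₀, map_div₀, div_pow, hvy, hvf, Finset.prod_congr rfl fun i _ => hval i, Finset.prod_const,
      Finset.card_univ, Fintype.card_fin, hn, hm, map_pow, map_pow, ← pow_mul, mul_two]
    rw [mul_div_cancel_right₀ _ (pow_ne_zero _ hX00)]

/-- it is unique -/
theorem g1_near_unique [IsAlgClosed C] {A : ValuationSubring k} {V : ValuationSubring C}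
    {f : k[X]} (hA : GoodAt A f) (hV : Above A V) (x0 : k) (a b : C) (ha : aeval a f = 0)
    (hb : aeval b f = 0) (hxa : V.valuation (algebraMap k C x0 - a) < 1)
    (hxb : V.valuation (algebraMap k C x0 - b) < 1) : a = b := by
  by_contra hab
  have h1 := g1_root_dist hA hV a b ha hb hab
  have h2 := R1_sub_lt hxb hxa
  have h3 : algebraMap k C x0 - b - (algebraMap k C x0 - a) = a - b := by ring
  rw [h3, h1] at h2
  exact lt_irrefl _ h2

/-- the value of `f(x₀)` if `x₀` is congruent to the root `a` -/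
theorem g1_val [IsAlgClosed C] {A : ValuationSubring k} {V : ValuationSubring C} {f : k[X]}
    (hA : GoodAt A f) (hV : Above A V) (x0 : k) (a : C) (ha : aeval a f = 0)
    (hxa : V.valuation (algebraMap k C x0 - a) < 1) :
    V.valuation (algebraMap k C (f.eval x0)) = V.valuation (algebraMap k C x0 - a) ∧
      ∀ b : C, aeval b f = 0 → b ≠ a → V.valuation (algebraMap k C x0 - b) = 1 := by
  have h2 : ∀ b : C, aeval b f = 0 → b ≠ a → V.valuation (algebraMap k C x0 - b) = 1 := by
    intro b hb hba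
    have h1 := g1_root_dist hA hV a b ha hb (Ne.symm hba)
    have h3 : algebraMap k C x0 - b = (a - b) + (algebraMap k C x0 - a) := by ring
    rw [h3, Valuation.map_add_eq_of_lt_left _ (by rw [h1]; exact hxa), h1]
  refine ⟨?_, h2⟩
  obtain ⟨n, r, l, hn, hl, hr, hd, hev, hroot, hp⟩ := g1_roots hA hV
  obtain ⟨i, rfl⟩ := hroot a ha
  rw [g1_eval, hev, map_mul, hl, one_mul, map_prod]
  apply Finset.prod_eq_single_of_mem i (Finset.mem_univ i)
  intro j _ hj
  apply h2
  · rw [hev, Finset.prod_eq_zero (Finset.mem_univ j) (sub_self _), mul_zero]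
  · intro h
    have h3 := hd j i hj
    rw [h, sub_self, map_zero] at h3
    exact zero_ne_one h3

/-- square roots with the value of an element of `k` are fixed by inertia -/
theorem g1_unit_fix {V : ValuationSubring C} (h2 : V.valuation 2 = 1) (e : k) (z : C)
    (hz : V.valuation z = V.valuation (algebraMap k C e)) (τ : C ≃ₐ[k] C) (hτ : Iner V τ)
    (hτz : τ (z ^ 2) = z ^ 2) : τ z = z := by
  by_cases hz0 : z = 0
  · rw [hz0, map_zero]
  have he0 : algebraMap k C e ≠ 0 := by
    intro h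
    rw [h, map_zero, Valuation.zero_iff] at hz
    exact hz0 hz
  have hve0 : V.valuation (algebraMap k C e) ≠ 0 := (Valuation.ne_zero_iff _).2 he0
  have hzb : z = z / algebraMap k C e * algebraMap k C e := by
    rw [div_mul_cancel₀ _ he0]
  have hv : V.valuation (z / algebraMap k C e) = 1 := by
    rw [map_div₀, hz, div_self hve0]
  have hzV : z / algebraMap k C e ∈ V := (V.valuation_le_one_iff _).1 hv.le
  have h6 := hτ.triv _ hzV
  have h7 : τ (z / algebraMap k C e) = z / algebraMap k C e := by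
    have h8 : (τ (z / algebraMap k C e)) ^ 2 = (z / algebraMap k C e) ^ 2 := by
      rw [← map_pow, div_pow, map_div₀, hτz, map_pow, AlgEquiv.commutes]
    rcases sq_eq_sq_iff_eq_or_eq_neg.1 h8 with h9 | h9
    · exact h9
    · exfalso
      rw [h9, V.mem_nonunits_iff] at h6
      have h10 : -(z / algebraMap k C e) - z / algebraMap k C e = -(2 * (z / algebraMap k C e)) := by ring
      rw [h10, Valuation.map_neg, map_mul, h2, hv, one_mul] at h6
      exact absurd h6 (lt_irrefl _)
  rw [hzb, map_mul, h7, AlgEquiv.commutes]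

end SC5
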