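import Pool.Agent.MP_c1dca2_ag.SC3.R1

/-!
# [SC5-G2a] signs of congruent square roots

`g2_stab`: `g` maps the maximal ideal of `V` into that of `V'` (`|z| < 1` iff `z = 0` or `z⁻¹ ∉ V`; see `hφm` in the proof of
`SC3.R1_out`, file SC3/R1.lean).

`g2_sgn`: the end of the proof of `SC3.R1_out` (`sign`): `(α - β)(α + β) = α² - β²` has value `< 1`, so `|α - β| < 1` or
`|α + β| < 1`; `g α = ± α`, `g β = ± β` (`hα2`, `hβ2`), `g` preserves the maximal ideal (`g2_stab`), `|2 β| = 1`: the signs are the same.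
-/

set_option autoImplicit false

open Polynomial SC2 SC3 IsLocalRing

noncomputable section

namespace SC5

variable {k C : Type} [Field k] [Field C] [Algebra k C]

theorem g2_stab {V V' : ValuationSubring C} (g : C ≃ₐ[k] C) (hg : ∀ z, g z ∈ V' ↔ z ∈ V) (z : C)
    (hz : V.valuation z < 1) : V'.valuation (g z) < 1 := by
  by_cases hz0 : z = 0
  · rw [hz0, map_zero, map_zero]; exact zero_lt_one
  by_contra hcon
  have h3 : (g z)⁻¹ ∈ V' := by
    rw [← V'.valuation_le_one_iff, map_inv₀]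
    exact inv_le_one_of_one_le₀ (not_lt.1 hcon)
  rw [← map_inv₀, hg, ← V.valuation_le_one_iff, map_inv₀] at h3
  have h4 : 1 < (V.valuation z)⁻¹ := (one_lt_inv₀
    (lt_of_le_of_ne zero_le (Ne.symm ((Valuation.ne_zero_iff _).2 hz0)))).2 hz
  exact absurd h3 (not_le.2 h4)

theorem g2_sgn {V : ValuationSubring C} (h2 : V.valuation 2 = 1) (g : C ≃ₐ[k] C)
    (hg : ∀ z, g z ∈ V ↔ z ∈ V) (α β : C) (hβ : V.valuation β = 1)
    (hαβ : V.valuation (α ^ 2 - β ^ 2) < 1) (hα2 : g (α ^ 2) = α ^ 2) (hβ2 : g (β ^ 2) = β ^ 2) :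
    g α * β = α * g β := by
  have hv2γ : V.valuation (2 * β) = 1 := by rw [map_mul, h2, hβ, one_mul]
  have hφγ : g β = β ∨ g β = -β := by
    rw [map_pow] at hβ2
    exact sq_eq_sq_iff_eq_or_eq_neg.1 hβ2
  have hφδ : g α = α ∨ g α = -α := by
    rw [map_pow] at hα2
    exact sq_eq_sq_iff_eq_or_eq_neg.1 hα2
  have hφm : ∀ z : C, V.valuation z < 1 → V.valuation (g z) < 1 := fun z hz => g2_stab g hg z hz
  have hor : V.valuation (α - β) < 1 ∨ V.valuation (α + β) < 1 := by
    by_contra hcon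
    push Not at hcon
    have h3 : α ^ 2 - β ^ 2 = (α - β) * (α + β) := by ring
    rw [h3, map_mul] at hαβ
    exact absurd hαβ (not_lt.2 (one_le_mul hcon.1 hcon.2))
  rcases hφγ with h3 | h3 <;> rcases hφδ with h4 | h4
  · rw [h3, h4]
  · exfalso
    rcases hor with h5 | h5
    · have h6 := hφm _ h5
      rw [map_sub, h3, h4] at h6
      have h7 := R1_add_lt h5 h6
      have h8 : α - β + (-α - β) = -(2 * β) := by ring
      rw [h8, Valuation.map_neg, hv2γ] at h7
      exact lt_irrefl _ h7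
    · have h6 := hφm _ h5
      rw [map_add, h3, h4] at h6
      have h7 := R1_add_lt h5 h6
      have h8 : α + β + (-α + β) = 2 * β := by ring
      rw [h8, hv2γ] at h7
      exact lt_irrefl _ h7
  · exfalso
    rcases hor with h5 | h5
    · have h6 := hφm _ h5
      rw [map_sub, h3, h4] at h6
      have h7 := R1_sub_lt h6 h5
      have h8 : α - -β - (α - β) = 2 * β := by ring
      rw [h8, hv2γ] at h7
      exact lt_irrefl _ h7
    · have h6 := hφm _ h5
      rw [map_add, h3, h4] at h6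
      have h7 := R1_sub_lt h5 h6
      have h8 : α + β - (α + -β) = 2 * β := by ring
      rw [h8, hv2γ] at h7
      exact lt_irrefl _ h7
  · rw [h3, h4]; ring

end SC5
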