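import Pool.Agent.MP_c1dca2_ag.SC5.G1
import Pool.Agent.MP_c1dca2_ag.SC5.G2a

/-!
# [SC5-G2] the data of a point

`X₀ = x₀ ∈ k ⊆ C`. `δ a b = (X₀ - a) (X₀ - b)`; `ρ V` = the root `r` of `f` with `|X₀ - r|_V < 1` if there is one (`g1_near`,
`g1_near_unique`), `0` otherwise.

* `ne`: `X₀` is not a root of `f` (`f(x₀) ≠ 0`). `fix`: clear.
* `root`: `g1_near`.
* `eqv`: `|X₀ - ρ V|_V < 1` gives `|X₀ - g (ρ V)|_{V'} < 1` (`g2_stab`), `g (ρ V)` is a root: `g1_near_unique`.
* `even`, `|z|² = |X₀ - a| |X₀ - b|`, `τ (z²) = z²` as `τ` fixes `a` and `b` (`g1_iner_root`). It is enough to find `e ∈ k` with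
  `|z| = |e|` (`g1_unit_fix`; `SC2.f_two` for `|2| = 1`), i.e. `|z|² = |e|²` (`pow_left_inj₀`). If `|X₀| > 1`: `e = x₀`
  (`|X₀ - a| = |X₀|`, `g1_root_mem`). If `|X₀| ≤ 1` and `|X₀ - a| = |X₀ - b| = 1`: `e = 1`. Otherwise, say, `|X₀ - a| < 1`; then `|X₀ - b| = 1`
  and `|f(x₀)| = |X₀ - a|` (`g1_val`). `c` is even: otherwise `ρ V = a` by `g1_near_unique`, excluded. `|c| = |b'|²` in
  `A`, so in `V` (`R1_eva`), and `e = y₀ / b'`: `|y₀|² = |c| |f(x₀)|` (`b' ≠ 0` as `c ≠ 0`). The same with `a`, `b` exchanged.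
* `odd`: let `ρ V = a` (or `b`). `|X₀ - a| < 1`, `|X₀ - b| = 1`, `|f(x₀)| = |X₀ - a|`. Let `w² = c` (`IsAlgClosed.exists_pow_nat_eq`);
  `|z w|² = |X₀ - a| |c| = |y₀|²`, so `τ (z w) = z w` for all inertia elements `τ` (`g1_unit_fix`, `e = y₀`), and `SC2.exists_tau`
  (file SC2/A5.lean) gives `τ` with `τ w = - w` (`w ≠ 0`): `τ z = - z`.
* `sgn`: `r = ρ V`; `|X₀ - r| < 1`, `|X₀ - a| = |X₀ - b| = 1`, `|r - a| = |r - b| = 1`. `g r = r` by `eqv` (`g1_near_unique`).
  `g2_sgn` with `α = z`, `β = γ`: `z² - γ² = (X₀ - a)(X₀ - b) - (r - a)(r - b) = (X₀ - r)(X₀ + r - a - b)` has value `< 1`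
  (`R1_prod_congr` or directly).
-/

set_option autoImplicit false

open Polynomial SC2 SC3 IsLocalRing

noncomputable section

namespace SC5

variable {k C : Type} [Field k] [Field C] [Algebra k C]

open Classical in
/-- the special root -/
def g2Rho (f : k[X]) (x0 : k) (V : ValuationSubring C) : C :=
  if h : ∃ r : C, aeval r f = 0 ∧ V.valuation (algebraMap k C x0 - r) < 1 then h.choose else 0

theorem g2Rho_spec [IsAlgClosed C] {A : ValuationSubring k} {V : ValuationSubring C} {f : k[X]}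
    (hA : GoodAt A f) (hV : Above A V) (heven : Even f.natDegree) (c x0 y0 : k) (hc : c ≠ 0)
    (hf : f.eval x0 ≠ 0) (hy : y0 ^ 2 = c * f.eval x0) (hodd : ¬ EvA A c) :
    aeval (g2Rho f x0 V) f = 0 ∧ V.valuation (algebraMap k C x0 - g2Rho f x0 V) < 1 := by
  have h := g1_near hA hV heven c x0 y0 hc hf hy hodd
  unfold g2Rho
  rw [dif_pos h]
  exact h.choose_spec

theorem g2_sq_fix (x0 : k) (a b z : C) (hz : z ^ 2 = (algebraMap k C x0 - a) * (algebraMap k C x0 - b))
    (g : C ≃ₐ[k] C) (ga : g a = a) (gb : g b = b) : g (z ^ 2) = z ^ 2 := by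
  rw [hz, map_mul, map_sub, map_sub, AlgEquiv.commutes, ga, gb]

theorem g2_even_aux [IsAlgClosed C] {A : ValuationSubring k} {V : ValuationSubring C} {f : k[X]}
    (hA : GoodAt A f) (hV : Above A V) (c x0 y0 : k) (hc : c ≠ 0)
    (hy : y0 ^ 2 = c * f.eval x0) (hev : EvA A c) (a b : C)
    (ha : aeval a f = 0) (hb : aeval b f = 0) (hab : a ≠ b)
    (hxa : V.valuation (algebraMap k C x0 - a) < 1) :
    ∃ e : k, V.valuation (algebraMap k C x0 - a) * V.valuation (algebraMap k C x0 - b) =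
      V.valuation (algebraMap k C e) ^ 2 := by
  obtain ⟨h1, h2⟩ := g1_val hA hV x0 a ha hxa
  have h3 := h2 b hb (Ne.symm hab)
  obtain ⟨b', hb'⟩ := (R1_eva hV c).1 hev
  have hvc0 : V.valuation (algebraMap k C c) ≠ 0 := by
    rw [Ne, Valuation.zero_iff, map_eq_zero]; exact hc
  have hb0 : V.valuation (algebraMap k C b') ≠ 0 := by
    intro h0
    rw [h0] at hb'
    exact hvc0 (by rw [hb']; simp)
  have hvy : V.valuation (algebraMap k C y0) ^ 2 = V.valuation (algebraMap k C c) *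
      V.valuation (algebraMap k C (f.eval x0)) := by
    rw [← map_pow, ← map_pow, hy]
    simp only [map_mul]
  refine ⟨y0 / b', ?_⟩
  rw [map_div₀, map_div₀, div_pow, hvy, hb', h3, h1]
  field_simp

theorem g2_even [IsAlgClosed C] {A : ValuationSubring k} {V : ValuationSubring C} {f : k[X]}
    (hA : GoodAt A f) (hV : Above A V) (heven : Even f.natDegree) (c x0 y0 : k) (hc : c ≠ 0)
    (hf : f.eval x0 ≠ 0) (hy : y0 ^ 2 = c * f.eval x0) (a b : C)
    (ha : aeval a f = 0) (hb : aeval b f = 0) (hab : a ≠ b)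
    (hρ : ¬ EvA A c → g2Rho f x0 V ≠ a ∧ g2Rho f x0 V ≠ b) (z : C)
    (hz : z ^ 2 = (algebraMap k C x0 - a) * (algebraMap k C x0 - b)) (τ : C ≃ₐ[k] C)
    (hτ : Iner V τ) : τ z = z := by
  have h2 : V.valuation 2 = 1 := f_two hV hA.two
  have hτz := g2_sq_fix x0 a b z hz τ (g1_iner_root hA hV a ha τ hτ) (g1_iner_root hA hV b hb τ hτ)
  obtain ⟨e, he⟩ : ∃ e : k, V.valuation (algebraMap k C x0 - a) *
      V.valuation (algebraMap k C x0 - b) = V.valuation (algebraMap k C e) ^ 2 := by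
    have hva := g1_root_mem hA hV a ha
    have hvb := g1_root_mem hA hV b hb
    rcases lt_or_ge 1 (V.valuation (algebraMap k C x0)) with hX | hX
    · refine ⟨x0, ?_⟩
      rw [Valuation.map_sub_eq_of_lt_left _ (lt_of_le_of_lt hva hX),
        Valuation.map_sub_eq_of_lt_left _ (lt_of_le_of_lt hvb hX), sq]
    · have hXa : V.valuation (algebraMap k C x0 - a) ≤ 1 :=
        (Valuation.map_sub _ _ _).trans (max_le hX hva)
      have hXb : V.valuation (algebraMap k C x0 - b) ≤ 1 :=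
        (Valuation.map_sub _ _ _).trans (max_le hX hvb)
      rcases lt_or_eq_of_le hXa with h3 | h3
      · have hev : EvA A c := by
          by_contra hodd
          obtain ⟨h4, h5⟩ := g2Rho_spec hA hV heven c x0 y0 hc hf hy hodd
          exact (hρ hodd).1 (g1_near_unique hA hV x0 _ _ h4 ha h5 h3)
        exact g2_even_aux hA hV c x0 y0 hc hy hev a b ha hb hab h3
      · rcases lt_or_eq_of_le hXb with h4 | h4
        · have hev : EvA A c := by
            by_contra hodd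
            obtain ⟨h5, h6⟩ := g2Rho_spec hA hV heven c x0 y0 hc hf hy hodd
            exact (hρ hodd).2 (g1_near_unique hA hV x0 _ _ h5 hb h6 h4)
          obtain ⟨e, he⟩ := g2_even_aux hA hV c x0 y0 hc hy hev b a hb ha (Ne.symm hab) h4
          exact ⟨e, by rw [mul_comm, he]⟩
        · exact ⟨1, by rw [h3, h4]; simp⟩
  have hze : V.valuation z ^ 2 = V.valuation (algebraMap k C e) ^ 2 := by
    rw [← map_pow, hz, map_mul, he]
  exact g1_unit_fix h2 e z ((pow_left_inj₀ zero_le zero_le two_ne_zero).1 hze) τ hτ hτz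

theorem g2_odd_aux [IsAlgClosed C] [IsGalois k C] {A : ValuationSubring k} {V : ValuationSubring C}
    {f : k[X]} (hA : GoodAt A f) (hV : Above A V) (c x0 y0 : k) (hc : c ≠ 0)
    (hy : y0 ^ 2 = c * f.eval x0) (hodd : ¬ EvA A c) (a b : C)
    (ha : aeval a f = 0) (hb : aeval b f = 0) (hab : a ≠ b)
    (hxa : V.valuation (algebraMap k C x0 - a) < 1) (z : C)
    (hz : z ^ 2 = (algebraMap k C x0 - a) * (algebraMap k C x0 - b)) :
    ∃ τ : C ≃ₐ[k] C, Iner V τ ∧ τ z = -z := by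
  have h2 : V.valuation 2 = 1 := f_two hV hA.two
  obtain ⟨h1, h3⟩ := g1_val hA hV x0 a ha hxa
  have h3 := h3 b hb (Ne.symm hab)
  obtain ⟨w, hw⟩ := IsAlgClosed.exists_pow_nat_eq (algebraMap k C c) (n := 2) two_pos
  obtain ⟨τ, hτ, hτw⟩ := exists_tau hV h2 c (fun b hb => hodd ⟨b, hb⟩) w hw
  have hτz := g2_sq_fix x0 a b z hz τ (g1_iner_root hA hV a ha τ hτ) (g1_iner_root hA hV b hb τ hτ)
  have hzw : V.valuation (z * w) ^ 2 = V.valuation (algebraMap k C y0) ^ 2 := by
    rw [← map_pow, mul_pow, map_mul, hz, hw, map_mul, h3, mul_one, ← h1, ← map_pow, ← map_pow, hy,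
      map_mul, map_mul, mul_comm]
  have hzw' : τ (z * w) = z * w := by
    refine g1_unit_fix h2 y0 (z * w) ((pow_left_inj₀ zero_le zero_le two_ne_zero).1 hzw) τ hτ ?_
    rw [mul_pow, map_mul, hτz, hw, AlgEquiv.commutes]
  have hw0 : w ≠ 0 := by
    rintro rfl
    rw [zero_pow two_ne_zero] at hw
    exact hc ((map_eq_zero (algebraMap k C)).1 hw.symm)
  refine ⟨τ, hτ, mul_right_cancel₀ hw0 ?_⟩
  rw [map_mul, hτw] at hzw'
  linear_combination -hzw'

theorem dat_of_point [CharZero k] [IsAlgClosed C] [IsGalois k C] (f : k[X])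
    (heven : Even f.natDegree) (c : k) (hc : c ≠ 0) (x0 y0 : k)
    (hf : f.eval x0 ≠ 0) (hy : y0 ^ 2 = c * f.eval x0) : Nonempty (Dat k C f c) := by
  have hfe : ∀ a : C, aeval a f = 0 → algebraMap k C x0 - a ≠ 0 := by
    intro a ha h0
    rw [sub_eq_zero] at h0
    rw [← h0, aeval_algebraMap_apply, map_eq_zero] at ha
    exact hf (by rw [← coe_aeval_eq_eval]; exact ha)
  have heqv : ∀ (A : ValuationSubring k) (V V' : ValuationSubring C), GoodAt A f → Above A V →
      Above A V' → ¬ EvA A c → ∀ g : C ≃ₐ[k] C, (∀ z, g z ∈ V' ↔ z ∈ V) →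
        g2Rho f x0 V' = g (g2Rho f x0 V) := by
    intro A V V' hA hV hV' hodd g hg
    obtain ⟨h1, h2⟩ := g2Rho_spec hA hV heven c x0 y0 hc hf hy hodd
    obtain ⟨h3, h4⟩ := g2Rho_spec hA hV' heven c x0 y0 hc hf hy hodd
    have h5 : aeval (g (g2Rho f x0 V)) f = 0 := by
      have h6 : g (aeval (g2Rho f x0 V) f) = aeval (g (g2Rho f x0 V)) f :=
        (aeval_algHom_apply g.toAlgHom _ f).symm
      rw [← h6, h1, map_zero]
    have h6 := g2_stab g hg _ h2
    rw [map_sub, AlgEquiv.commutes] at h6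
    exact g1_near_unique hA hV' x0 _ _ h3 h5 h4 h6
  refine ⟨⟨fun a b => (algebraMap k C x0 - a) * (algebraMap k C x0 - b), g2Rho f x0, ?_, ?_, ?_,
    heqv, ?_, ?_, ?_⟩⟩
  · intro a b ha hb _
    exact mul_ne_zero (hfe a ha) (hfe b hb)
  · intro a b _ _ _ σ sa sb
    show σ ((algebraMap k C x0 - a) * (algebraMap k C x0 - b)) = _
    rw [map_mul, map_sub, map_sub, AlgEquiv.commutes, sa, sb]
  · intro A V hA hV hodd
    exact (g2Rho_spec hA hV heven c x0 y0 hc hf hy hodd).1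
  · intro A V hA hV a b ha hb hab hρ z hz τ hτ
    exact g2_even hA hV heven c x0 y0 hc hf hy a b ha hb hab hρ z hz τ hτ
  · intro A V hA hV a b ha hb hab hodd hρ z hz
    obtain ⟨h1, h2⟩ := g2Rho_spec hA hV heven c x0 y0 hc hf hy hodd
    rcases hρ with hρ | hρ
    · rw [hρ] at h2
      exact g2_odd_aux hA hV c x0 y0 hc hy hodd a b ha hb hab h2 z hz
    · rw [hρ] at h2
      exact g2_odd_aux hA hV c x0 y0 hc hy hodd b a hb ha (Ne.symm hab) h2 z (by rw [hz, mul_comm])
  · intro A V hA hV a b ha hb hab hodd hρa hρb g hg ga gb z γ hz hγ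
    have h2 : V.valuation 2 = 1 := f_two hV hA.two
    obtain ⟨h1, h3⟩ := g2Rho_spec hA hV heven c x0 y0 hc hf hy hodd
    have hgr : g2Rho f x0 V = g (g2Rho f x0 V) := heqv A V V hA hV hV hodd g hg
    set r : C := g2Rho f x0 V with hr
    have hva := g1_root_mem hA hV a ha
    have hvb := g1_root_mem hA hV b hb
    have hvr := g1_root_mem hA hV r h1
    have hra := g1_root_dist hA hV r a h1 ha hρa
    have hrb := g1_root_dist hA hV r b h1 hb hρb
    have hγ1 : V.valuation γ = 1 := by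
      have h4 : V.valuation γ ^ 2 = 1 ^ 2 := by
        rw [← map_pow, hγ, map_mul, hra, hrb, mul_one, one_pow]
      exact (pow_left_inj₀ zero_le zero_le two_ne_zero).1 h4
    have hxb : V.valuation (algebraMap k C x0 - b) ≤ 1 := by
      have h4 : algebraMap k C x0 - b = (algebraMap k C x0 - r) + (r - b) := by ring
      rw [h4]
      exact (Valuation.map_add _ _ _).trans (max_le h3.le hrb.le)
    refine g2_sgn h2 g hg z γ hγ1 ?_ (g2_sq_fix x0 a b z hz g ga gb) ?_
    · have h4 : z ^ 2 - γ ^ 2 = (algebraMap k C x0 - r) *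
          ((algebraMap k C x0 - b) + (r - a)) := by
        have hz' : z ^ 2 = (algebraMap k C x0 - a) * (algebraMap k C x0 - b) := hz
        rw [hz', hγ]; ring
      rw [h4, map_mul]
      exact mul_lt_one_of_lt_of_le h3 ((Valuation.map_add _ _ _).trans (max_le hxb hra.le))
    · rw [hγ, map_mul, map_sub, map_sub, ← hgr, ga, gb]

end SC5
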