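import Pool.Agent.MP_c1dca2_ag.SC5.G2

/-!
# [SC5-G3] the data of a rational place

`dat_of_place`: model `SC3.out_of_place` (file SC3/R1.lean). `kb_isAlgClosed`, `kb_isGalois` (file SC2).
If `x ∈ P.A`: `SC2.c3_spec`, `SC2.c3_sq`, `SC3.R1_mem` give `x₀, y₀ ∈ k` with `y₀² = c f(x₀)`; `f(x₀) ≠ 0` (`hroot`):
`dat_of_point`.
If `x ∉ P.A`: as in `out_of_place` (with `f` instead of `g h`, `f.reverse`), the residue `y₀` of `y / x^m`, `2 m = deg f`,
satisfies `y₀² = c l`, `l` the leading coefficient of `f` (not `1` here). At a good place `A` `l` is a unit of `A`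
(`g3_lead`: `GoodAt.red`: the degree does not drop, compare `SC2.c2_deg`, file SC2/C2.lean), so `|c| = |y₀|²`: `c` is even at all good
places (`g3_ev`). Then `dat_const`.

`dat_const`: `δ a b = 1`, `ρ V = 0`: all hypotheses `¬ EvA A c` are false; `z² = 1` gives `z = ± 1`, fixed by `τ`.
-/

set_option autoImplicit false

open Polynomial SC2 SC3 SEC IsLocalRing

noncomputable section

namespace SC5

theorem g3_lead {k : Type} [Field k] {A : ValuationSubring k} {f : k[X]} (hA : GoodAt A f) :
    A.valuation f.leadingCoeff = 1 := by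
  obtain ⟨F, hF, hs, hd⟩ := hA.red
  have h0 : F.map (residue A) ≠ 0 := hs.ne_zero
  have h1 : residue A F.leadingCoeff ≠ 0 := by
    intro h
    have h2 : (F.map (residue A)).coeff F.natDegree = 0 := by
      rw [coeff_map]
      exact h
    rw [← hd] at h2
    exact h0 (leadingCoeff_eq_zero.1 h2)
  have h2 : f.leadingCoeff = (F.leadingCoeff : k) := by
    rw [← hF, leadingCoeff_map_of_injective A.subtype_injective]
    rfl
  rw [h2]
  refine (A.valuation_eq_one_iff _).1 ?_
  by_contra h3
  exact h1 ((residue_eq_zero_iff _).2 h3)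

theorem g3_ev {k : Type} [Field k] {A : ValuationSubring k} {f : k[X]} (hA : GoodAt A f)
    (c y0 : k) (hy : y0 ^ 2 = c * f.leadingCoeff) : EvA A c := by
  refine ⟨y0, ?_⟩
  rw [← map_pow, hy, map_mul, g3_lead hA, mul_one]

theorem dat_const {k C : Type} [Field k] [Field C] [Algebra k C] (f : k[X]) (c : k)
    (h : ∀ A : ValuationSubring k, GoodAt A f → EvA A c) : Nonempty (Dat k C f c) := by
  refine ⟨{
    δ := fun _ _ => 1
    ρ := fun _ => 0
    ne := fun _ _ _ _ _ => one_ne_zero
    fix := fun _ _ _ _ _ σ _ _ => map_one σ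
    root := fun A V hA hV hodd => absurd (h A hA) hodd
    eqv := fun A V V' hA hV hV' hodd => absurd (h A hA) hodd
    even := ?_
    odd := fun A V hA hV a b ha hb hab hodd => absurd (h A hA) hodd
    sgn := fun A V hA hV a b ha hb hab hodd => absurd (h A hA) hodd }⟩
  intro A V hA hV a b ha hb hab hr z hz τ hτ
  rcases mul_self_eq_one_iff.1 ((sq z).symm.trans hz) with h1 | h1
  · rw [h1, map_one]
  · rw [h1, map_neg, map_one]

theorem dat_of_place {k K : Type} [Field k] [CharZero k] [Field K] [Algebra k K] (f : k[X])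
    (hsep : f.Separable) (heven : Even f.natDegree) (h4 : 4 ≤ f.natDegree)
    (hroot : ∀ a : k, f.eval a ≠ 0) (c : k) (hc : c ≠ 0)
    (x y : K) (hx : Transcendental k x) (hxy : y ^ 2 = algebraMap k K c * aeval x f)
    (P : SEC.RatPlace k K) : Nonempty (Dat k (kb k K) f c) := by
  classical
  have hac : IsAlgClosed (kb k K) := kb_isAlgClosed
  have hgal : IsGalois k (kb k K) := kb_isGalois
  have hxy' : y ^ 2 = aeval x (C c * f) := by
    rw [hxy, map_mul (aeval x) (C c), aeval_C]
  by_cases hxP : x ∈ P.A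
  · obtain ⟨x0, hx0⟩ := P.rat x hxP
    have h1 := c3_spec P (C c * f) x hxP x0 hx0
    obtain ⟨y0, hy0⟩ := c3_sq P y _ _ hxy' (R1_mem P _ _ hxP) h1
    rw [eval_mul, eval_C] at hy0
    exact dat_of_point f heven c hc x0 y0 (hroot x0) hy0
  · have hxn : x ≠ 0 := by
      rintro rfl
      exact hxP P.A.zero_mem
    have hu : x⁻¹ ∈ P.A := (P.A.mem_or_inv_mem x).resolve_left hxP
    have hu0 : x⁻¹ - algebraMap k K 0 ∈ P.A.nonunits := by
      rw [map_zero, sub_zero, ValuationSubring.mem_nonunits_iff]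
      rw [← P.A.valuation_le_one_iff, not_le] at hxP
      rw [map_inv₀]
      exact inv_lt_one_of_one_lt₀ hxP
    obtain ⟨m, hm⟩ := heven
    let _ : Invertible x := invertibleOfNonzero hxn
    have h1 := eval₂_reverse_mul_pow (algebraMap k K) x f
    rw [← aeval_def, ← aeval_def, invOf_eq_inv] at h1
    have h2 : (y / x ^ m) ^ 2 = aeval x⁻¹ (C c * f.reverse) := by
      rw [div_pow, hxy', map_mul (aeval x) (C c), map_mul (aeval x⁻¹) (C c), aeval_C, aeval_C,
        ← h1, hm, div_eq_iff (pow_ne_zero _ (pow_ne_zero _ hxn))]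
      ring
    have h3 := c3_spec P (C c * f.reverse) x⁻¹ hu 0 hu0
    obtain ⟨y0, hy0⟩ := c3_sq P _ _ _ h2 (R1_mem P _ _ hu) h3
    rw [eval_mul, eval_C, ← coeff_zero_eq_eval_zero, coeff_zero_reverse] at hy0
    exact dat_const f c (fun A hA => g3_ev hA c y0 hy0)

end SC5
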