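import Pool.Agent.MP_c1dca2_ag.SC5.L9
import Pool.Agent.MP_c1dca2_ag.SC5.G3
import Pool.Agent.MP_c1dca2_ag.SC5.G4

/-!
# [SC5-G5] the local theorem over a fixed algebraic closure

`kb k K` is an algebraic closure of `k` (`SC2.kb_isAlgClosed`, `kb_isGalois`; `IsAlgClosure`), so there is
`e : kb k K ≃ₐ[k] AlgebraicClosure k` (`IsAlgClosure.equiv`); `dat_of_sect`, `dat_of_place`, `dat_transport`.
-/

set_option autoImplicit false

open Polynomial SC2 SC3 SEC

noncomputable section

namespace SC5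

theorem dat_main {k K : Type} [Field k] [CharZero k] [Field K] [Algebra k K] (f : k[X])
    (hsep : f.Separable) (heven : Even f.natDegree) (h4 : 4 ≤ f.natDegree)
    (hroot : ∀ a : k, f.eval a ≠ 0) (c : k) (hc : c ≠ 0)
    (x y : K) (hx : Transcendental k x) (hxy : y ^ 2 = algebraMap k K c * aeval x f)
    (h : Nonempty (SEC.Sect k K) ∨ Nonempty (SEC.RatPlace k K)) :
    Nonempty (Dat k (AlgebraicClosure k) f c) := by
  have hcl : IsAlgClosure k (kb k K) := algebraicClosure.isAlgClosure k (Om K)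
  let e : kb k K ≃ₐ[k] AlgebraicClosure k := IsAlgClosure.equiv k _ _
  rcases h with ⟨⟨s⟩⟩ | ⟨⟨P⟩⟩
  · obtain ⟨D⟩ := dat_of_sect f hsep heven h4 c hc x y hx hxy s
    exact dat_transport e f c D
  · obtain ⟨D⟩ := dat_of_place f hsep heven h4 hroot c hc x y hx hxy P
    exact dat_transport e f c D

end SC5
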