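import Pool.Agent.MP_c1dca2_ag.SC5.HD
import Pool.Agent.MP_c1dca2_ag.SC5.A1

/-!
# [SC5-H1] the prime of `L` below a valuation ring of `C`

`Lies τ V w : ∀ x : L, τ x ∈ V ↔ w.valuation L x ≤ 1`. `IsVal v A` (SC3/Defs): `x ∈ A ↔ v.valuation k x ≤ 1` etc.
`Above A V : algebraMap k C a ∈ V ↔ a ∈ A`.

* `lies_lt`: `x = 0` clear; otherwise apply `Lies` to `x` and `x⁻¹`.
* `lies_int`: `x : 𝓞 L`: `w.valuation L x < 1 ↔ x ∈ w.asIdeal` (`HeightOneSpectrum.valuation_lt_one_iff_mem`).
* `lies_unique`: the ideals are determined by `lies_int`.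
* `lies_above`: `a ∈ A ↔ (bl k w).valuation k a ≤ 1 ↔ w.valuation L a ≤ 1 ↔ algebraMap k C a ∈ V`; the middle step: the
  valuation of `L` at `w` restricts to a power `e ≥ 1` of that of `k` at `bl k w`; or by fractions: if `v.valuation a ≤ 1`
  (`v = bl k w`) then `a = b / s` with `b, s ∈ 𝓞 k`, `s ∉ v` (see e.g. `IsLocalization.AtPrime`, or SC3/G0.lean, SC4), so
  `w.valuation a ≤ 1`; if `v.valuation a > 1` then `a⁻¹ = b / s`, `b ∈ v`, `s ∉ v`, and `w.valuation a⁻¹ < 1`.
* `lies_exists`: `A' = V.comap τ` contains `𝓞 L` (integral elements: `V` is integrally closed and contains `ℤ`); the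
  elements of `𝓞 L` with `V.valuation (τ x) < 1` form a prime ideal, not zero because it contains the nonzero elements of `v`.
  Let `w` be this prime. If `w.valuation x ≤ 1` then `x = a / s`, `s ∉ w`, so `τ x ∈ V`; if `w.valuation x > 1` then
  `x⁻¹ = a / s`, `a ∈ w`, `s ∉ w`, so `V.valuation (τ x⁻¹) < 1` and `τ x ∉ V`. `bl k w = v`: compare the ideals (`mem_bl`).
* `lies_map`: `g (τ x) ∈ V' ↔ τ x ∈ V`.
* `above_map`: `g` fixes `k`.
-/

set_option autoImplicit false

open NumberField IsDedekindDomain Polynomial SC2 SC3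

namespace SC5

/-- `ν x < 1 ↔ ¬ ν x⁻¹ ≤ 1`. -/
theorem h1_inv {F Γ : Type*} [Field F] [LinearOrderedCommGroupWithZero Γ] (ν : Valuation F Γ)
    {x : F} (hx : x ≠ 0) : ν x < 1 ↔ ¬ ν x⁻¹ ≤ 1 := by
  rw [map_inv₀, inv_le_one₀ (zero_lt_iff.2 ((Valuation.ne_zero_iff _).2 hx)), not_le]

/-- An element of a number field integral at `v` is a fraction with denominator prime to `v`. -/
theorem h1_frac {K : Type} [Field K] [NumberField K] (v : Pr K) {x : K}
    (hx : v.valuation K x ≤ 1) :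
    ∃ n d : 𝓞 K, d ∉ v.asIdeal ∧ x * (d : K) = (n : K) := by
  obtain ⟨n, d, h⟩ := v.exists_primeCompl_mul_eq_of_integer x hx
  exact ⟨n, d.1, d.2, h⟩

theorem h1_one {K : Type} [Field K] [NumberField K] (v : Pr K) {d : 𝓞 K} (hd : d ∉ v.asIdeal) :
    v.valuation K (d : K) = 1 := by
  refine le_antisymm (v.valuation_le_one d) (not_lt.1 fun h => hd ?_)
  exact (v.valuation_lt_one_iff_mem d).1 h

variable {k L C : Type} [Field k] [NumberField k] [Field L] [NumberField L] [Field C]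
  [Algebra k L] [Algebra k C]

theorem h1_coe (a : 𝓞 k) : ((algebraMap (𝓞 k) (𝓞 L) a : 𝓞 L) : L) = algebraMap k L (a : k) := rfl

/-- Integrality at the prime below. -/
theorem h1_bl_le (w : Pr L) {a : k} (ha : (bl k w).valuation k a ≤ 1) :
    w.valuation L (algebraMap k L a) ≤ 1 := by
  obtain ⟨n, d, hd, h⟩ := h1_frac (bl k w) ha
  have hd' : algebraMap (𝓞 k) (𝓞 L) d ∉ w.asIdeal := fun h' => hd ((mem_bl w d).2 h')
  have h1 := h1_one w hd'
  have h2 : w.valuation L (algebraMap k L a) * w.valuation L ((algebraMap (𝓞 k) (𝓞 L) d : 𝓞 L) : L) =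
      w.valuation L ((algebraMap (𝓞 k) (𝓞 L) n : 𝓞 L) : L) := by
    rw [← map_mul, h1_coe, h1_coe, ← map_mul, h]
  rw [h1, mul_one] at h2
  rw [h2]
  exact w.valuation_le_one _

theorem h1_bl_lt (w : Pr L) {a : k} (ha : (bl k w).valuation k a < 1) :
    w.valuation L (algebraMap k L a) < 1 := by
  obtain ⟨n, d, hd, h⟩ := h1_frac (bl k w) ha.le
  have hd' : algebraMap (𝓞 k) (𝓞 L) d ∉ w.asIdeal := fun h' => hd ((mem_bl w d).2 h')
  have h1 := h1_one w hd'
  have h2 : w.valuation L (algebraMap k L a) * w.valuation L ((algebraMap (𝓞 k) (𝓞 L) d : 𝓞 L) : L) =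
      w.valuation L ((algebraMap (𝓞 k) (𝓞 L) n : 𝓞 L) : L) := by
    rw [← map_mul, h1_coe, h1_coe, ← map_mul, h]
  have hn : n ∈ (bl k w).asIdeal := by
    rw [← (bl k w).valuation_lt_one_iff_mem (K := k) n]
    change (bl k w).valuation k (n : k) < 1
    rw [← h, map_mul, h1_one _ hd, mul_one]
    exact ha
  rw [h1, mul_one] at h2
  rw [h2]
  exact (w.valuation_lt_one_iff_mem _).2 ((mem_bl w n).1 hn)

theorem h1_bl (w : Pr L) (a : k) :
    w.valuation L (algebraMap k L a) ≤ 1 ↔ (bl k w).valuation k a ≤ 1 := by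
  refine ⟨fun h => ?_, h1_bl_le w⟩
  by_contra hn
  have ha : a ≠ 0 := by
    rintro rfl
    rw [map_zero] at hn
    exact hn zero_le_one
  have h1 : (bl k w).valuation k a⁻¹ < 1 := by
    rw [h1_inv _ (inv_ne_zero ha), inv_inv]
    exact hn
  have h2 := h1_bl_lt w h1
  rw [map_inv₀, h1_inv _ (inv_ne_zero ((_root_.map_ne_zero _).2 ha)), inv_inv] at h2
  exact h2 h

theorem lies_lt {τ : L →ₐ[k] C} {V : ValuationSubring C} {w : Pr L} (h : Lies τ V w) (x : L) :
    V.valuation (τ x) < 1 ↔ w.valuation L x < 1 := by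
  by_cases hx : x = 0
  · subst hx
    rw [map_zero, map_zero, map_zero]
    simp
  · rw [h1_inv _ hx, h1_inv V.valuation ((map_ne_zero τ).2 hx), ← map_inv₀, V.valuation_le_one_iff,
      h x⁻¹]

theorem lies_int {τ : L →ₐ[k] C} {V : ValuationSubring C} {w : Pr L} (h : Lies τ V w)
    (x : 𝓞 L) : V.valuation (τ (x : L)) < 1 ↔ x ∈ w.asIdeal := by
  rw [lies_lt h]
  exact w.valuation_lt_one_iff_mem x

theorem lies_unique {τ : L →ₐ[k] C} {V : ValuationSubring C} {w w' : Pr L} (h : Lies τ V w)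
    (h' : Lies τ V w') : w = w' := by
  refine HeightOneSpectrum.ext (Ideal.ext fun x => ?_)
  rw [← lies_int h, ← lies_int h']

theorem lies_above {τ : L →ₐ[k] C} {V : ValuationSubring C} {w : Pr L} (h : Lies τ V w)
    {A : ValuationSubring k} (hA : IsVal (bl k w) A) : Above A V := by
  intro a
  rw [hA.mem, ← h1_bl w a, ← h, AlgHom.commutes]

/-- The elements of `𝓞 L` are mapped into `V`. -/
theorem h1_mem (τ : L →ₐ[k] C) (V : ValuationSubring C) (x : 𝓞 L) : τ (x : L) ∈ V := by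
  have hx : IsIntegral ℤ (x : L) := NumberField.RingOfIntegers.isIntegral_coe x
  obtain ⟨p, hp, hpx⟩ := hx
  have h1 : IsIntegral V (τ (x : L)) := by
    refine ⟨p.map (Int.castRingHom V), hp.map _, ?_⟩
    rw [Polynomial.eval₂_map]
    have h2 := congrArg τ hpx
    rw [map_zero] at h2
    have h3 : (algebraMap V C).comp (Int.castRingHom V) = (τ : L →+* C).comp (algebraMap ℤ L) :=
      Subsingleton.elim _ _
    rw [h3]
    exact (Polynomial.hom_eval₂ p (algebraMap ℤ L) (τ : L →+* C) (x : L)).symm.trans h2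
  obtain ⟨y, hy⟩ := (IsIntegrallyClosed.isIntegral_iff (R := V) (K := C)).1 h1
  rw [← hy]
  exact y.2

theorem lies_exists {v : Pr k} {A : ValuationSubring k} (hA : IsVal v A)
    {V : ValuationSubring C} (hV : Above A V) (τ : L →ₐ[k] C) :
    ∃ w : Pr L, Lies τ V w ∧ bl k w = v := by
  let f : 𝓞 L →+* V :=
    ((τ : L →+* C).comp (algebraMap (𝓞 L) L)).codRestrict V.toSubring (fun x => h1_mem τ V x)
  let P : Ideal (𝓞 L) := (IsLocalRing.maximalIdeal V).comap f
  have hP : ∀ x : 𝓞 L, x ∈ P ↔ V.valuation (τ (x : L)) < 1 := by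
    intro x
    rw [Ideal.mem_comap, ValuationSubring.valuation_lt_one_iff]
    rfl
  have hPp : P.IsPrime := Ideal.comap_isPrime f _
  have hav : ∀ a : 𝓞 k, algebraMap (𝓞 k) (𝓞 L) a ∈ P ↔ a ∈ v.asIdeal := by
    intro a
    rw [hP, h1_coe, AlgHom.commutes, a2_under hV, hA.lt]
    exact v.valuation_lt_one_iff_mem a
  have hPb : P ≠ ⊥ := by
    intro hb
    obtain ⟨a, ha, ha0⟩ := Submodule.exists_mem_ne_zero_of_ne_bot v.ne_bot
    have h1 := (hav a).2 ha
    rw [hb, Ideal.mem_bot] at h1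
    apply ha0
    exact (FaithfulSMul.algebraMap_injective (𝓞 k) (𝓞 L)) (h1.trans (map_zero _).symm)
  let w : Pr L := ⟨P, hPp, hPb⟩
  have hd1 : ∀ d : 𝓞 L, d ∉ w.asIdeal → V.valuation (τ (d : L)) = 1 := by
    intro d hd
    refine le_antisymm ((V.valuation_le_one_iff _).2 (h1_mem τ V d)) (not_lt.1 fun h => hd ?_)
    exact (hP d).2 h
  refine ⟨w, fun x => ?_, ?_⟩
  · constructor
    · intro hx
      by_contra hn
      have hx0 : x ≠ 0 := by
        rintro rfl
        rw [map_zero] at hn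
        exact hn zero_le_one
      have h1 : w.valuation L x⁻¹ < 1 := by
        rw [h1_inv _ (inv_ne_zero hx0), inv_inv]
        exact hn
      obtain ⟨n, d, hd, h⟩ := h1_frac w h1.le
      have hn' : n ∈ w.asIdeal := by
        rw [← w.valuation_lt_one_iff_mem (K := L) n]
        change w.valuation L (n : L) < 1
        rw [← h, map_mul, h1_one _ hd, mul_one]
        exact h1
      have h2 : V.valuation (τ x⁻¹) < 1 := by
        have h3 : V.valuation (τ x⁻¹) * V.valuation (τ (d : L)) = V.valuation (τ (n : L)) := by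
          rw [← map_mul, ← map_mul, h]
        rw [hd1 d hd, mul_one] at h3
        rw [h3]
        exact (hP n).1 hn'
      rw [map_inv₀, h1_inv _ (inv_ne_zero ((map_ne_zero τ).2 hx0)), inv_inv,
        V.valuation_le_one_iff] at h2
      exact h2 hx
    · intro hx
      obtain ⟨n, d, hd, h⟩ := h1_frac w hx
      have h3 : V.valuation (τ x) * V.valuation (τ (d : L)) = V.valuation (τ (n : L)) := by
        rw [← map_mul, ← map_mul, h]
      rw [hd1 d hd, mul_one] at h3
      rw [← V.valuation_le_one_iff, h3, V.valuation_le_one_iff]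
      exact h1_mem τ V n
  · refine HeightOneSpectrum.ext (Ideal.ext fun a => ?_)
    rw [mem_bl]
    exact hav a

theorem lies_map (g : C ≃ₐ[k] C) {V V' : ValuationSubring C} (hg : ∀ z, g z ∈ V' ↔ z ∈ V)
    {τ : L →ₐ[k] C} {w : Pr L} (h : Lies τ V w) : Lies ((g : C →ₐ[k] C).comp τ) V' w := by
  intro x
  exact (hg (τ x)).trans (h x)

theorem above_map (g : C ≃ₐ[k] C) {V V' : ValuationSubring C} (hg : ∀ z, g z ∈ V' ↔ z ∈ V)
    {A : ValuationSubring k} (h : Above A V) : Above A V' := by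
  intro a
  rw [← h a, ← hg, AlgEquiv.commutes]

/-- The valuation ring of `v` is unique. -/
theorem isVal_unique {v : Pr k} {A A' : ValuationSubring k} (h : IsVal v A) (h' : IsVal v A') :
    A = A' := by
  ext x
  rw [h.mem, h'.mem]

end SC5
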