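import Pool.Agent.MP_c1dca2_ag.SC5.H1

/-!
# [SC5-H4] the Frobenius sign is the quadratic residue symbol

`q = nv (bl k w)`, `f₀ = dg k w`, `m = f₀ j`. `φ^m` is a Frobenius for `q^m` (`SC2.frob_pow`), `q^m = (nv w)^j`. `nv w` is odd: `2 ∉ w`
(the residue field of `w` has odd characteristic). `y ∉ w`, so `V.valuation (τ y) = 1` (`lies_int`, `τ y ∈ V`), and
`V.valuation z = 1`. `((φ^m) z)^2 = (φ^m)(τ y) = τ y = z^2`, so `(φ^m) z = s z`, `s = ± 1`. Modulo the nonunits of `V`: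
`(φ^m) z ≡ z^(q^m) = z · (z^2)^((q^m - 1)/2) = z · (τ y)^((q^m - 1)/2)`, and
`(q^m - 1)/2 = ((nv w - 1)/2) · (1 + nv w + ... + (nv w)^(j-1))`. By Euler's criterion in the finite field `𝓞 L / w`
(`nv w` elements): `y^((nv w - 1)/2) ≡ sg w y` modulo `w` (`FiniteField.isSquare_iff`, `FiniteField.pow_dichotomy` or so), and the
second factor is a sum of `j` odd numbers, so it has the parity of `j = m / f₀`. So `s z ≡ (sg w y)^j z` modulo the nonunits of `V`; as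
`z` and `2` are units (`V.valuation 2 = 1` because `2 ∉ w`), `s = (sg w y)^j`.
-/

set_option autoImplicit false

open NumberField IsDedekindDomain Polynomial SC2 SC3

namespace SC5

/-- Euler's criterion modulo `w`. -/
theorem h4_euler {K : Type} [Field K] [NumberField K] (w : Pr K) (h2 : (2 : 𝓞 K) ∉ w.asIdeal)
    (y : 𝓞 K) (hy : y ∉ w.asIdeal) :
    Odd (nv w) ∧ y ^ (nv w / 2) - (((sg w y : ℤˣ) : ℤ) : 𝓞 K) ∈ w.asIdeal := by
  classical
  have hmax := w.isMaximal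
  let _ : Field (𝓞 K ⧸ w.asIdeal) := Ideal.Quotient.field w.asIdeal
  have hfin : Finite (𝓞 K ⧸ w.asIdeal) := w.asIdeal.finiteQuotientOfFreeOfNeBot w.ne_bot
  let _ : Fintype (𝓞 K ⧸ w.asIdeal) := Fintype.ofFinite _
  have hcard : Fintype.card (𝓞 K ⧸ w.asIdeal) = nv w := by
    rw [← Nat.card_eq_fintype_card]
    unfold nv
    rw [Ideal.absNorm_apply, Submodule.cardQuot_apply]
  have hchar : ringChar (𝓞 K ⧸ w.asIdeal) ≠ 2 := by
    intro h
    apply h2
    rw [← Ideal.Quotient.eq_zero_iff_mem, map_ofNat]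
    have h3 : ((ringChar (𝓞 K ⧸ w.asIdeal) : ℕ) : 𝓞 K ⧸ w.asIdeal) = 0 := ringChar.Nat.cast_ringChar
    rw [h] at h3
    exact_mod_cast h3
  have hy0 : Ideal.Quotient.mk w.asIdeal y ≠ 0 := fun h => hy (Ideal.Quotient.eq_zero_iff_mem.1 h)
  constructor
  · rw [← hcard, Nat.odd_iff]
    exact FiniteField.odd_card_of_char_ne_two hchar
  · rw [← Ideal.Quotient.eq_zero_iff_mem, map_sub, map_pow, map_intCast, sub_eq_zero, ← hcard]
    unfold sg
    split_ifs with h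
    · rw [(FiniteField.isSquare_iff hchar hy0).1 h]
      simp
    · rcases FiniteField.pow_dichotomy hchar hy0 with h3 | h3
      · exact absurd ((FiniteField.isSquare_iff hchar hy0).2 h3) h
      · rw [h3]
        simp

theorem h4_pow {K : Type} [Field K] [NumberField K] (w : Pr K) (h2 : (2 : 𝓞 K) ∉ w.asIdeal)
    (y : 𝓞 K) (hy : y ∉ w.asIdeal) (j : ℕ) :
    Odd (nv w ^ j) ∧ y ^ (nv w ^ j / 2) - (((sg w y ^ j : ℤˣ) : ℤ) : 𝓞 K) ∈ w.asIdeal := by
  obtain ⟨hodd, h1⟩ := h4_euler w h2 y hy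
  refine ⟨hodd.pow, ?_⟩
  induction j with
  | zero => simp
  | succ j ih =>
    have hoddj : Odd (nv w ^ j) := hodd.pow
    have h3 : nv w ^ (j + 1) / 2 = (nv w ^ j / 2) * nv w + nv w / 2 := by
      obtain ⟨a, ha⟩ := hoddj
      obtain ⟨b, hb⟩ := hodd
      rw [pow_succ, ha, hb]
      have e1 : (2 * a + 1) * (2 * b + 1) = 2 * (a * (2 * b + 1) + b) + 1 := by ring
      have e2 : (2 * a + 1) / 2 = a := by omega
      have e3 : (2 * b + 1) / 2 = b := by omega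
      rw [e1, e2, e3]
      omega
    rw [← Ideal.Quotient.eq_zero_iff_mem, map_sub, map_pow, map_intCast, sub_eq_zero] at ih h1 ⊢
    rw [h3, pow_add, pow_mul, ih, h1]
    have h4 : ∀ u : ℤˣ, u ^ nv w = u := by
      intro u
      rcases Int.units_eq_one_or u with h5 | h5 <;> rw [h5]
      · simp
      · exact hodd.neg_one_pow
    rw [← Int.cast_pow, ← Units.val_pow_eq_pow_val, h4, ← Int.cast_mul, ← Units.val_mul, ← pow_succ]

variable {k L C : Type} [Field k] [NumberField k] [Field L] [NumberField L] [Field C]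
  [Algebra k L] [Algebra k C]

theorem frob_sign {V : ValuationSubring C} {w : Pr L} {τ : L →ₐ[k] C} (h : Lies τ V w)
    (h2 : (2 : 𝓞 L) ∉ w.asIdeal) (φ : C ≃ₐ[k] C) (hφ : Frob (nv (bl k w)) V φ) (m : ℕ)
    (hm : dg k w ∣ m) (hm0 : 0 < m) (hfix : ∀ x, (φ ^ m) (τ x) = τ x) (y : 𝓞 L)
    (hy : y ∉ w.asIdeal) (z : C) (hz : z ^ 2 = τ (y : L)) :
    (φ ^ m) z = (((sg w y ^ (m / dg k w) : ℤˣ) : ℤ) : C) * z := by
  classical
  have hq := nv_eq (k := k) w
  obtain ⟨j, hj⟩ := hm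
  have hd := dg_pos (k := k) w
  have hmj : m / dg k w = j := by rw [hj, Nat.mul_div_cancel_left _ hd]
  have hqm : nv (bl k w) ^ m = nv w ^ j := by rw [hj, pow_mul, ← hq]
  have hfr := frob_pow hφ m
  rw [hqm] at hfr
  obtain ⟨hodd, hpw⟩ := h4_pow w h2 y hy j
  -- units
  have hint : ∀ x : 𝓞 L, τ (x : L) ∈ V := fun x => (h (x : L)).2 (w.valuation_le_one x)
  have hunit : ∀ x : 𝓞 L, x ∉ w.asIdeal → V.valuation (τ (x : L)) = 1 := by
    intro x hx
    apply le_antisymm ((V.valuation_le_one_iff _).2 (hint x))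
    rw [← not_lt]
    intro h3
    exact hx ((lies_int h x).1 h3)
  have hy1 := hunit y hy
  have h21 : V.valuation (2 : C) = 1 := by
    have h3 := hunit 2 h2
    have h5 : ((2 : 𝓞 L) : L) = 2 := map_ofNat (algebraMap (𝓞 L) L) 2
    have h4 : τ ((2 : 𝓞 L) : L) = 2 := by rw [h5, map_ofNat]
    rwa [h4] at h3
  have hz1 : V.valuation z = 1 := by
    have h3 : V.valuation z ^ 2 = 1 := by rw [← map_pow, hz, hy1]
    exact (pow_left_inj₀ zero_le zero_le two_ne_zero).1 (by rw [one_pow]; exact h3)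
  have hzV : z ∈ V := (V.valuation_le_one_iff z).1 hz1.le
  -- the sign
  have hsq : ((φ ^ m) z) ^ 2 = z ^ 2 := by rw [← map_pow, hz, hfix]
  rw [hmj]
  set s : ℤˣ := sg w y ^ j with hs
  -- Frobenius
  have hF : V.valuation ((φ ^ m) z - z ^ (nv w ^ j)) < 1 := by
    have := hfr.frob z hzV
    rwa [V.mem_nonunits_iff] at this
  have hexp : nv w ^ j = 2 * (nv w ^ j / 2) + 1 := by
    obtain ⟨a, ha⟩ := hodd
    omega
  have hzp : z ^ (nv w ^ j) = z * τ ((y ^ (nv w ^ j / 2) : 𝓞 L) : L) := by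
    have h3 : τ ((y ^ (nv w ^ j / 2) : 𝓞 L) : L) = (z ^ 2) ^ (nv w ^ j / 2) := by
      rw [hz]
      push_cast
      rw [map_pow]
    rw [h3, ← pow_mul]
    nth_rewrite 1 [hexp]
    ring
  have hd1 : V.valuation (τ ((y ^ (nv w ^ j / 2) - ((s : ℤ) : 𝓞 L) : 𝓞 L) : L)) < 1 :=
    (lies_int h _).2 hpw
  have hd2 : τ ((y ^ (nv w ^ j / 2) - ((s : ℤ) : 𝓞 L) : 𝓞 L) : L) =
      τ ((y ^ (nv w ^ j / 2) : 𝓞 L) : L) - ((s : ℤ) : C) := by
    have e1 : ((y ^ (nv w ^ j / 2) - ((s : ℤ) : 𝓞 L) : 𝓞 L) : L) =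
        ((y ^ (nv w ^ j / 2) : 𝓞 L) : L) - (((s : ℤ) : 𝓞 L) : L) := map_sub (algebraMap (𝓞 L) L) _ _
    have e2 : (((s : ℤ) : 𝓞 L) : L) = ((s : ℤ) : L) := map_intCast (algebraMap (𝓞 L) L) _
    rw [e1, e2, map_sub, map_intCast]
  rw [hd2] at hd1
  have hfin : V.valuation ((φ ^ m) z - ((s : ℤ) : C) * z) < 1 := by
    have h3 : (φ ^ m) z - ((s : ℤ) : C) * z = ((φ ^ m) z - z ^ (nv w ^ j)) +
        z * (τ ((y ^ (nv w ^ j / 2) : 𝓞 L) : L) - ((s : ℤ) : C)) := by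
      rw [hzp]
      ring
    rw [h3]
    refine Valuation.map_add_lt _ hF ?_
    rw [map_mul, hz1, one_mul]
    exact hd1
  -- conclusion
  have h2z : ∀ t : C, V.valuation (t * z) < 1 → t = 2 ∨ t = -2 → False := by
    intro t ht htt
    rw [map_mul, hz1, mul_one] at ht
    rcases htt with h3 | h3
    · rw [h3, h21] at ht
      exact lt_irrefl _ ht
    · rw [h3, Valuation.map_neg, h21] at ht
      exact lt_irrefl _ ht
  rcases sq_eq_sq_iff_eq_or_eq_neg.1 hsq with h3 | h3 <;> rcases Int.units_eq_one_or s with h4 | h4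
  · rw [h3, h4]; simp
  · exfalso
    rw [h3, h4] at hfin
    refine h2z 2 ?_ (Or.inl rfl)
    have h5 : z - (((-1 : ℤˣ) : ℤ) : C) * z = 2 * z := by push_cast; ring
    rwa [h5] at hfin
  · exfalso
    rw [h3, h4] at hfin
    refine h2z (-2) ?_ (Or.inr rfl)
    have h5 : -z - (((1 : ℤˣ) : ℤ) : C) * z = -2 * z := by push_cast; ring
    rwa [h5] at hfin
  · rw [h3, h4]; simp

end SC5
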