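import Pool.Agent.MP_c1dca2_ag.SC5.H3

/-!
# [SC5-H5] evenness and inertia over an intermediate field

`F` is a number field between `k` and `C`, `u` a prime of `F`, `V` a valuation ring of `C` with `Lies F.val V u`. Let `A` be the
valuation ring of `u` (`SC3.exists_isVal`, over the field `F`): `Above A V` for the `F`-algebra `C`.

* `ev_of_fix`: if `¬ Ev u d` then (`IsVal.ev`: `EvA A d ↔ Ev u d`) `∀ b, A.valuation d ≠ A.valuation b ^ 2`, and
  `SC2.exists_tau` (over `F`; `IsGalois F C`: tower) gives `τ : C ≃ₐ[F] C` with `Iner V τ`, `τ z = -z` for `z^2 = d`. Its restriction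
  of scalars to `k` is in the inertia group too, and `τ z = z` would give `2 z = 0`, `d = 0`; but `¬ Ev u d` implies `d ≠ 0`.
* `fix_of_ev`: `SC3.ev_fix` over `F`, for `σ` regarded as an automorphism over `F` (it fixes `F`).
* `above_val`: existence of `V`: `SC2.exists_above` over `F` for the valuation ring of `u`.
-/

set_option autoImplicit false

open NumberField IsDedekindDomain Polynomial SC2 SC3

namespace SC5

variable {k C : Type} [Field k] [NumberField k] [Field C] [Algebra k C] [IsAlgClosed C]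
  [IsGalois k C] (F : IntermediateField k C) [NumberField F]

omit [NumberField k] [IsAlgClosed C] [IsGalois k C] in
theorem h5_above {u : Pr F} {A : ValuationSubring F} (hA : IsVal u A) {V : ValuationSubring C}
    (h : Lies F.val V u) : Above A V := fun a => (h a).trans (hA.mem a).symm

theorem ev_of_fix {u : Pr F} {V : ValuationSubring C} (h : Lies F.val V u)
    (h2 : V.valuation 2 = 1) (d : F) (z : C) (hz : z ^ 2 = (d : C))
    (hfix : ∀ σ : C ≃ₐ[k] C, Iner V σ → σ z = z) : Ev u d := by
  obtain ⟨A, hA⟩ := exists_isVal u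
  by_contra hev
  have hev' : ∀ b : F, A.valuation d ≠ A.valuation b ^ 2 := by
    intro b hb
    exact hev ((hA.ev d).1 ⟨b, hb⟩)
  obtain ⟨τ, hτ, hτz⟩ := exists_tau (h5_above F hA h) h2 d hev' z hz
  have h3 : Iner V (τ.restrictScalars k) := ⟨hτ.stab, hτ.triv⟩
  have h4 : τ z = z := hfix _ h3
  rw [hτz] at h4
  have h20 : (2 : C) ≠ 0 := by
    intro h0
    rw [h0, map_zero] at h2
    exact zero_ne_one h2
  have hz0 : z = 0 := by
    have h5 : (2 : C) * z = 0 := by linear_combination -h4
    exact (mul_eq_zero.1 h5).resolve_left h20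
  have hd0 : d = 0 := by
    rw [hz0, zero_pow two_ne_zero] at hz
    exact Subtype.ext hz.symm
  apply hev
  refine ⟨0, ?_⟩
  rw [hd0, map_zero, zero_pow two_ne_zero]

theorem fix_of_ev {u : Pr F} {V : ValuationSubring C} (h : Lies F.val V u)
    (h2 : V.valuation 2 = 1) (d : F) (z : C) (hz : z ^ 2 = (d : C)) (hd : Ev u d)
    (σ : C ≃ₐ[k] C) (hσ : Iner V σ) (hσF : ∀ x : F, σ (x : C) = x) : σ z = z := by
  obtain ⟨A, hA⟩ := exists_isVal u
  let σ' : C ≃ₐ[F] C := AlgEquiv.ofRingEquiv (f := σ.toRingEquiv) (fun x => hσF x)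
  have h3 : Iner V σ' := ⟨hσ.stab, hσ.triv⟩
  exact ev_fix (h5_above F hA h) h2 d ((hA.ev d).2 hd) z hz σ' h3

theorem above_val (u : Pr F) : ∃ V : ValuationSubring C, Lies F.val V u := by
  obtain ⟨A, hA⟩ := exists_isVal u
  obtain ⟨V, hV⟩ := exists_above (C := C) A
  exact ⟨V, fun x => (hV x).trans (hA.mem x)⟩

end SC5
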