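import Pool.Agent.MP_c1dca2_ag.SC5.H0
import Pool.Agent.MP_c1dca2_ag.SC5.A1

/-!
# [SC5-H9] finitely many classes

For every pair `a, b` apply `SC3.finite_sel` (SC3/G2.lean) to the number field `F = FF k a b` and the finite set of the primes `u` of
`F` with `bl k u ∈ S` (`finite_bl`): it gives a finset `U_F` of nonzero elements of `F`; `U a b` = its image in `C`.
-/

set_option autoImplicit false

open NumberField IsDedekindDomain Polynomial SC2 SC3

namespace SC5

theorem sel {k C : Type} [Field k] [NumberField k] [Field C] [Algebra k C]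
    [Algebra.IsAlgebraic k C] (S : Finset (Pr k)) :
    ∃ U : C → C → Finset C, ∀ a b, (∀ e ∈ U a b, e ≠ 0 ∧ e ∈ FF k a b) ∧
      ∀ d : FF k a b, d ≠ 0 → (∀ u : Pr (FF k a b), bl k u ∉ S → Ev u d) →
        ∃ e ∈ U a b, ∃ t ∈ FF k a b, (d : C) * e = t ^ 2 := by
  classical
  have key : ∀ a b : C, ∃ U : Finset C, (∀ e ∈ U, e ≠ 0 ∧ e ∈ FF k a b) ∧
      ∀ d : FF k a b, d ≠ 0 → (∀ u : Pr (FF k a b), bl k u ∉ S → Ev u d) →
        ∃ e ∈ U, ∃ t ∈ FF k a b, (d : C) * e = t ^ 2 := by
    intro a b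
    have hfin : {u : Pr (FF k a b) | bl k u ∈ S}.Finite := by
      refine (Set.Finite.biUnion S.finite_toSet fun v _ =>
        finite_bl (L := FF k a b) v).subset ?_
      intro u hu
      rw [Set.mem_iUnion₂]
      exact ⟨bl k u, hu, rfl⟩
    obtain ⟨U, h1, h2⟩ := SC3.finite_sel _ hfin
    refine ⟨U.image (fun x : FF k a b => (x : C)), ?_, ?_⟩
    · intro e he
      rw [Finset.mem_image] at he
      obtain ⟨x, hx, rfl⟩ := he
      refine ⟨fun h => (h1 x hx).1 (Subtype.ext h), x.2⟩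
    · intro d hd hu
      obtain ⟨x, hx, t, ht⟩ := h2 d hd hu
      refine ⟨x, Finset.mem_image_of_mem _ hx, t, t.2, ?_⟩
      have h3 := congrArg (fun z : FF k a b => (z : C)) ht
      rw [sq]
      exact h3
  choose U hU using key
  exact ⟨U, hU⟩

end SC5
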