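import Pool.Agent.MP_c1dca2_ag.SC5.Dat
import Pool.Agent.MP_c1dca2_ag.SC5.Fam

/-!
# [SC5] the interface between `Dat` and the counting half: definitions
-/

set_option autoImplicit false

open NumberField IsDedekindDomain Polynomial SC2 SC3

noncomputable section

namespace SC5

/-- `w` is the prime of `L` below `V`, if `L` is embedded by `τ`. -/
def Lies {k L C : Type} [Field k] [Field L] [NumberField L] [Field C] [Algebra k L] [Algebra k C]
    (τ : L →ₐ[k] C) (V : ValuationSubring C) (w : Pr L) : Prop :=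
  ∀ x : L, τ x ∈ V ↔ w.valuation L x ≤ 1

/-- `g` stabilises `V`. -/
def Stb {k C : Type} [Field k] [Field C] [Algebra k C] (V : ValuationSubring C)
    (g : C ≃ₐ[k] C) : Prop := ∀ z, g z ∈ V ↔ z ∈ V

/-- The `L i` are the fields of the irreducible factors of `f`. -/
structure RF (k : Type) [Field k] {I : Type} (L : I → Type) [∀ i, Field (L i)]
    [∀ i, Algebra k (L i)] (f : k[X]) (θ : ∀ i, L i) : Prop where
  gen : ∀ i, IntermediateField.adjoin k {θ i} = ⊤
  root : ∀ i, aeval (θ i) f = 0
  inj : ∀ i j, minpoly k (θ i) = minpoly k (θ j) → i = j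
  all : ∀ p : k[X], p.Monic → Irreducible p → p ∣ f → ∃ i, minpoly k (θ i) = p

/-- The field `k(a, b)`. -/
def FF (k : Type) {C : Type} [Field k] [Field C] [Algebra k C] (a b : C) :
    IntermediateField k C := IntermediateField.adjoin k {a, b}

instance FF_nf (k C : Type) [Field k] [NumberField k] [Field C] [Algebra k C]
    [Algebra.IsAlgebraic k C] (a b : C) : NumberField (FF k a b) := by
  have h : FiniteDimensional k (FF k a b) :=
    IntermediateField.finiteDimensional_adjoin fun x _ => Algebra.IsIntegral.isIntegral x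
  exact NumberField.of_module_finite k _

variable {I : Type} {L : I → Type} [∀ i, Field (L i)] [∀ i, NumberField (L i)]

open scoped Classical in
/-- The product of the generators of the elements of index `i` of `P`. -/
def PP (al : ∀ i, Pr (L i) → 𝓞 (L i)) (P : Finset (PL L)) (i : I) : 𝓞 (L i) :=
  ∏ o ∈ P, if h : o.1 = i then al i (h ▸ o.2) else 1

/-- `S` is large enough. -/
structure GS [Fintype I] (k : Type) [Field k] [NumberField k] [∀ i, Algebra k (L i)] (C : Type)
    [Field C] [Algebra k C] [Algebra.IsAlgebraic k C] (f : k[X]) (S : Finset (Pr k))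
    (al : ∀ i, Pr (L i) → 𝓞 (L i)) (Cg : ℕ) : Prop where
  fam : Fam k L S al Cg
  good : ∀ v : Pr k, v ∉ S → ∀ A : ValuationSubring k, IsVal v A → GoodAt A f
  evF : ∀ a b : C, aeval a f = 0 → aeval b f = 0 → ∀ i, ∀ τ : L i →ₐ[k] FF k a b,
    ∀ u : Pr (FF k a b), bl k u ∉ S → ∀ w : Pr (L i),
      (∀ x, w.valuation (L i) x ≤ 1 ↔ u.valuation (FF k a b) (τ x) ≤ 1) →
        ∀ y, Ev u (τ y) ↔ Ev w y

end SC5
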