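import Pool.Agent.MP_c1dca2_ag.SC5.Dat

/-!
# [SC5-L1] square roots of `(x - a) / (x - b)`, special roots: definitions and basic facts

`SqQ x a b W`: `W ∈ M` is a square root of `(x - a) / (x - b)`. `Sp f c x s V r`: the root `r` of `f` is
special for the section `s` at `V`: every inertia element `τ` which changes the sign of `√c` changes, through
`s`, the sign of all square roots of `(x - a) / (x - r)`, `a ≠ r` a root of `f`.

`sqq_ne`: `x - a ≠ 0` in `Om K` (`SC2.f_x_sub`, file SC2/F.lean).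

`sqq_sign`: `W² (x - b) = W'² (x - b)`, `x - b ≠ 0` (`f_x_sub`), `sq_eq_sq_iff_eq_or_eq_neg` in the field `Mnr k K`
(`Subtype.ext`; compare `SC2.f_sign`).

`sqq_act`: apply `s.toHom σ` to the equation `W² wb = wa`, `wa = algebraMap K (Mnr k K) x - ⟨a, kb_le _ a.2⟩`, in `Mnr k K`;
`s.toHom σ` fixes `algebraMap K (Mnr k K) x` (`AlgEquiv.commutes`) and acts as `σ` on `k^alg` (`s.split`); compare
`SC2.f_sect_x`, `SC2.f_sign` in SC2/F.lean.

`root_iff`: `D.fr` and `D.hl` (`l ≠ 0`): the roots of `f` in `k^alg` are the `D.r i` (compare `SC2.f_perm`).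

`iner_root`: `SC2.f_iner_root` with `D.int`, `D.dist`, `SC2.f_perm` (as in the beginning of `SC3.t2_setup`, file
SC3/T2.lean), and `root_iff`.
-/

set_option autoImplicit false

open Polynomial SC2 SC3 SEC IsLocalRing

noncomputable section

namespace SC5

variable {k K : Type} [Field k] [Field K] [Algebra k K]

/-- `W` is a square root of `(x - a) / (x - b)`. -/
def SqQ (x : K) (a b : kb k K) (W : Mnr k K) : Prop :=
  (W : Om K) ^ 2 * (algebraMap K (Om K) x - (b : Om K)) = algebraMap K (Om K) x - (a : Om K)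

/-- The special root. -/
structure Sp (f : k[X]) (c : k) (x : K) (s : SEC.Sect k K) (V : ValuationSubring (kb k K))
    (r : kb k K) : Prop where
  root : aeval r f = 0
  neg : ∀ τ : kb k K ≃ₐ[k] kb k K, Iner V τ → ∀ z : kb k K, z ^ 2 = algebraMap k (kb k K) c →
    τ z = -z → ∀ a : kb k K, aeval a f = 0 → a ≠ r → ∀ W : Mnr k K, SqQ x a r W →
      s.toHom τ W = -W

theorem sqq_ne (x : K) (hx : Transcendental k x) (a b : kb k K) (W : Mnr k K)
    (h : SqQ x a b W) : W ≠ 0 := by
  rintro rfl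
  unfold SqQ at h
  have h0 : ((0 : Mnr k K) : Om K) = 0 := rfl
  rw [h0, zero_pow two_ne_zero, zero_mul] at h
  exact f_x_sub x hx a h.symm

theorem sqq_sign (x : K) (hx : Transcendental k x) (a b : kb k K) (W W' : Mnr k K)
    (h : SqQ x a b W) (h' : SqQ x a b W') : W' = W ∨ W' = -W := by
  have h1 : (W' : Om K) ^ 2 = (W : Om K) ^ 2 := by
    apply mul_right_cancel₀ (f_x_sub x hx b)
    unfold SqQ at h h'
    rw [h, h']
  rcases sq_eq_sq_iff_eq_or_eq_neg.1 h1 with h2 | h2
  · left; exact Subtype.ext h2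
  · right; exact Subtype.ext h2

theorem sqq_act (x : K) (s : SEC.Sect k K) (σ : kb k K ≃ₐ[k] kb k K) (a b : kb k K)
    (W : Mnr k K) (h : SqQ x a b W) : SqQ x (σ a) (σ b) (s.toHom σ W) := by
  let w : kb k K → Mnr k K := fun a => algebraMap K (Mnr k K) x - ⟨(a : Om K), kb_le _ a.2⟩
  have hw : ∀ a, (w a : Om K) = algebraMap K (Om K) x - (a : Om K) := fun a => rfl
  have h1 : W ^ 2 * w b = w a := Subtype.ext h
  have h2 : ∀ a, s.toHom σ (w a) = w (σ a) := by
    intro a
    apply Subtype.ext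
    show ((s.toHom σ (algebraMap K (Mnr k K) x - ⟨(a : Om K), kb_le _ a.2⟩) : Mnr k K) : Om K) = _
    rw [map_sub, AlgEquiv.commutes, AddSubgroupClass.coe_sub, s.split σ a (kb_le _ a.2)]
    rfl
  have h3 := congrArg (s.toHom σ) h1
  rw [map_mul, map_pow, h2, h2] at h3
  exact congrArg (fun z : Mnr k K => (z : Om K)) h3

theorem root_iff {A : ValuationSubring k} {V : ValuationSubring (kb k K)} {f : k[X]} {c : k}
    {x y : K} {ι : Type} [Fintype ι] (D : Loc A V f c x y ι) (a : kb k K) :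
    aeval a f = 0 ↔ ∃ i, a = D.r i := by
  have hl0 : algebraMap k (kb k K) D.l ≠ 0 := by
    intro h
    have h1 := D.hl
    rw [h, map_zero] at h1
    exact zero_ne_one h1
  rw [← eval_map_algebraMap, D.fr, eval_mul, eval_C, eval_prod, mul_eq_zero,
    Finset.prod_eq_zero_iff]
  constructor
  · rintro (h | ⟨i, _, h⟩)
    · exact absurd h hl0
    · rw [eval_sub, eval_X, eval_C, sub_eq_zero] at h
      exact ⟨i, h⟩
  · rintro ⟨i, rfl⟩
    right
    exact ⟨i, Finset.mem_univ i, by rw [eval_sub, eval_X, eval_C, sub_self]⟩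

/-- Inertia fixes the roots. -/
theorem iner_root {A : ValuationSubring k} {V : ValuationSubring (kb k K)}
    {f : k[X]} {c : k} {x y : K} {ι : Type} [Fintype ι] (D : Loc A V f c x y ι)
    (τ : kb k K ≃ₐ[k] kb k K) (hτ : Iner V τ) (a : kb k K) (ha : aeval a f = 0) : τ a = a := by
  have hl0 : D.l ≠ 0 := by
    intro h
    have h1 := D.hl
    rw [h, map_zero, map_zero] at h1
    exact zero_ne_one h1
  obtain ⟨i, rfl⟩ := (root_iff D a).1 ha
  exact f_iner_root D.r D.int D.dist (fun σ i => f_perm f D.l hl0 D.r D.fr σ i) τ hτ i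

end SC5
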