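import Pool.Agent.MP_c1dca2_ag.SC5.L1

/-!
# [SC5-L1b] the special root of a section at a place where `c` is odd: existence

`SC3.loc_exists` (file SC3/T0.lean) gives `D : Loc A V f c x y (Fin n)`. `A` is a discrete valuation ring with finite
residue field (`hA.dvr`, `hA.fin`: use `have := hA.dvr`). Let `z ∈ k^alg`, `z² = c` (`kb_isAlgClosed`,
`IsAlgClosed.exists_pow_nat_eq`). As `c` is not even (`EvA A c` is `∃ b, A.valuation c = A.valuation b ^ 2`),
`SC2.exists_tau` (file SC2/A5.lean; `kb_isGalois`, `D.two`) gives `τ₀` with `Iner V τ₀`, `τ₀ z = - z`. `SC3.inert_spec`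
(file SC3/T2.lean) for `τ₀` gives `j`; `r = D.r j`: it is fixed by all Frobenius elements. `Sp.root`: `root_iff`. `Sp.neg`: let `τ`
be an inertia element and `z'² = c`, `τ z' = - z'`; `z' = ± z`, so `τ z = - z`. Then `τ₀ * τ` is an inertia element
(`Iner.mul`) with `(τ₀ * τ) z = z`, so for `W` with `SqQ x a r W`, `a = D.r i` (`root_iff`), `i ≠ j`:
`s.toHom (τ₀ * τ) W = W` (`SC3.inert_triv`), i.e. `s.toHom τ₀ (s.toHom τ W) = W`. Now `W' = s.toHom τ W` satisfies
`SqQ x a r W'` (`sqq_act`, `iner_root`), so `s.toHom τ₀ W' = - W'` by `inert_spec`: `W = - W'`, `W' = - W`.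
-/

set_option autoImplicit false

open Polynomial SC2 SC3 SEC IsLocalRing

noncomputable section

namespace SC5

variable {k K : Type} [Field k] [Field K] [Algebra k K]

theorem sp_exists [CharZero k] (f : k[X]) (heven : Even f.natDegree) (h4 : 4 ≤ f.natDegree)
    (c : k) (hc : c ≠ 0) (x y : K) (hx : Transcendental k x)
    (hxy : y ^ 2 = algebraMap k K c * aeval x f) (s : SEC.Sect k K) (A : ValuationSubring k)
    (hA : GoodAt A f) (V : ValuationSubring (kb k K)) (hV : Above A V) (hodd : ¬ EvA A c) :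
    ∃ r, Sp f c x s V r ∧
      ∀ φ : kb k K ≃ₐ[k] kb k K, Frob (Nat.card (ResidueField A)) V φ → φ r = r := by
  have hac : IsAlgClosed (kb k K) := kb_isAlgClosed
  have hgal : IsGalois k (kb k K) := kb_isGalois
  have _ := hA.dvr
  have _ := hA.fin
  obtain ⟨n, ⟨D⟩⟩ := loc_exists f hA hV heven h4 c hc x y hx hxy
  obtain ⟨z, hz⟩ := IsAlgClosed.exists_pow_nat_eq (algebraMap k (kb k K) c) (n := 2) (by norm_num)
  obtain ⟨τ₀, hτ₀, hτ₀z⟩ := exists_tau hV D.two c (fun b hb => hodd ⟨b, hb⟩) z hz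
  obtain ⟨j, hj, hjw⟩ := inert_spec D s τ₀ hτ₀ z hz hτ₀z
  refine ⟨D.r j, ⟨(root_iff D _).2 ⟨j, rfl⟩, ?_⟩, hj⟩
  intro τ hτ z' hz' hτz' a ha har W hW
  obtain ⟨i, rfl⟩ := (root_iff D a).1 ha
  have hij : i ≠ j := fun h => har (by rw [h])
  have hτz : τ z = -z := by
    have h1 : z ^ 2 = z' ^ 2 := by rw [hz, hz']
    rcases sq_eq_sq_iff_eq_or_eq_neg.1 h1 with h2 | h2
    · rw [h2, hτz']
    · rw [h2, map_neg, hτz']
  have h1 : s.toHom (τ₀ * τ) W = W := by
    refine inert_triv D s (τ₀ * τ) (hτ₀.mul hτ) z hz ?_ i j W hW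
    rw [AlgEquiv.mul_apply, hτz, map_neg, hτ₀z, neg_neg]
  have h2 : SqQ x (D.r i) (D.r j) (s.toHom τ W) := by
    have h3 := sqq_act x s τ _ _ W hW
    rw [iner_root D τ hτ _ ((root_iff D _).2 ⟨i, rfl⟩),
      iner_root D τ hτ _ ((root_iff D _).2 ⟨j, rfl⟩)] at h3
    exact h3
  have h4' := hjw i hij (s.toHom τ W) h2
  rw [map_mul, AlgEquiv.mul_apply, h4'] at h1
  exact neg_eq_iff_eq_neg.1 h1

end SC5
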