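import Pool.Agent.MP_c1dca2_ag.SC5.L1

/-!
# [SC5-L2] square roots of `(x - a) / (x - b)`: existence, composition, conjugation of special roots

`exists_sqq`: `SC2.exists_S` (file SC2/B7.lean) with base point `b`: `f` splits in `k^alg` (`kb_isAlgClosed`), with the roots
indexed by a `Fin n`: `f.map = C l * ∏ i, (X - C (r i))`, `l` the leading coefficient (from `IsAlgClosed.splits`, the roots
multiset as a list `r = fun i => (f.map _).roots.toList.get i`; compare `SC2.exists_roots` (file SC2/C2.lean), whose proof does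
this); `a = r i`, `b = r o`.

`sqq_comp`: `(W T)² (x - r) = W² (x - b) = x - a = S² (x - r)`, `x - r ≠ 0` (`SC2.f_x_sub`).

`sp_conj`: `g V = V'` (`hg : ∀ z, g z ∈ V' ↔ z ∈ V`), `r` special at `V`: `g r` is special at `V'`. Root: `g` is a
`k`-automorphism. Let `τ'` be in the inertia group of `V'`, `τ' z = - z`; `τ = g⁻¹ * τ' * g` is in the inertia group of `V`
(`z ∈ V.nonunits ↔ g z ∈ V'.nonunits`, proof as in `SC2.Iner.conj`, file SC2/AB.lean), `τ (g⁻¹ z) = - g⁻¹ z` and
`(g⁻¹ z)² = c`. Let `a ≠ g r` be a root, `SqQ x a (g r) W`. Then `U = s.toHom g⁻¹ W` satisfies `SqQ x (g⁻¹ a) r U` (`sqq_act`), so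
`s.toHom τ U = - U` (`Sp.neg`), and `s.toHom τ' W = s.toHom (g * τ * g⁻¹) W = s.toHom g (s.toHom τ U) = - s.toHom g U = - W`.
-/

set_option autoImplicit false

open Polynomial SC2 SC3 SEC IsLocalRing

noncomputable section

namespace SC5

variable {k K : Type} [Field k] [Field K] [Algebra k K]

theorem exists_sqq [CharZero k] (f : k[X]) (hsep : f.Separable) (c : k) (hc : c ≠ 0) (x y : K)
    (hx : Transcendental k x) (hxy : y ^ 2 = algebraMap k K c * aeval x f) (a b : kb k K)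
    (ha : aeval a f = 0) (hb : aeval b f = 0) : ∃ W : Mnr k K, SqQ x a b W := by
  classical
  have hac : IsAlgClosed (kb k K) := kb_isAlgClosed
  set F : (kb k K)[X] := f.map (algebraMap k (kb k K)) with hF
  have hFl : F.leadingCoeff = algebraMap k (kb k K) f.leadingCoeff := by
    rw [hF, leadingCoeff_map]
  have hF0 : F ≠ 0 := (Polynomial.map_ne_zero_iff (algebraMap k (kb k K)).injective).2 hsep.ne_zero
  have hs : F.Splits := IsAlgClosed.splits F
  obtain ⟨r, hr⟩ := c2_fun F.roots (Multiset.card F.roots) rfl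
  have hprod : F = C (algebraMap k (kb k K) f.leadingCoeff) * ∏ i, (X - C (r i)) := by
    have h1 := hs.eq_prod_roots
    rw [hFl] at h1
    have h2 : (F.roots.map fun a => X - C a).prod = ∏ i, (X - C (r i)) := by
      conv_lhs => rw [hr, Multiset.map_map]
      rfl
    rw [h2] at h1
    exact h1
  have hmem : ∀ z : kb k K, aeval z f = 0 → ∃ i, r i = z := by
    intro z hz
    have h1 : z ∈ F.roots := by
      rw [mem_roots hF0, IsRoot.def, hF, eval_map_algebraMap]
      exact hz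
    rw [hr, Multiset.mem_map] at h1
    obtain ⟨i, -, hi⟩ := h1
    exact ⟨i, hi⟩
  obtain ⟨i, hi⟩ := hmem a ha
  obtain ⟨o, ho⟩ := hmem b hb
  obtain ⟨S, -, hS⟩ := exists_S f hsep c hc x y hx hxy f.leadingCoeff r hprod o
  refine ⟨S i, ?_⟩
  have h1 := (hS i).2
  rw [hi, ho] at h1
  exact h1

theorem sqq_comp (x : K) (hx : Transcendental k x) (a b r : kb k K) (W S T : Mnr k K)
    (hW : SqQ x a b W) (hS : SqQ x a r S) (hT : SqQ x b r T) : W * T = S ∨ W * T = -S := by
  have h1 : SqQ x a r (W * T) := by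
    unfold SqQ at hW hT ⊢
    rw [MulMemClass.coe_mul, mul_pow, mul_assoc, hT, hW]
  exact sqq_sign x hx a r S (W * T) hS h1

theorem sp_conj (f : k[X]) (c : k) (x : K) (s : SEC.Sect k K) (V V' : ValuationSubring (kb k K))
    (g : kb k K ≃ₐ[k] kb k K) (hg : ∀ z, g z ∈ V' ↔ z ∈ V) (r : kb k K)
    (h : Sp f c x s V r) : Sp f c x s V' (g r) := by
  have h0 : ∀ z, g (g⁻¹ z) = z := fun z => by rw [← AlgEquiv.mul_apply]; simp
  have h0' : ∀ z, g⁻¹ (g z) = z := fun z => by rw [← AlgEquiv.mul_apply]; simp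
  have hs : ∀ z, g⁻¹ z ∈ V ↔ z ∈ V' := fun z => by rw [← hg (g⁻¹ z), h0]
  have hroot : ∀ (σ : kb k K ≃ₐ[k] kb k K) (z : kb k K), aeval z f = 0 → aeval (σ z) f = 0 := by
    intro σ z hz
    have h2 : aeval (σ z) f = σ (aeval z f) := (aeval_algHom_apply σ.toAlgHom z f)
    rw [h2, hz, map_zero]
  have hnu : ∀ w, w ∈ V'.nonunits → g⁻¹ w ∈ V.nonunits := by
    intro w hw
    rw [ValuationSubring.mem_nonunits_iff] at hw ⊢
    by_contra hcon
    push Not at hcon
    have h4 : (g⁻¹ w)⁻¹ ∈ V := by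
      rw [← V.valuation_le_one_iff, map_inv₀]
      exact inv_le_one_of_one_le₀ hcon
    rw [← map_inv₀, hs] at h4
    rw [← V'.valuation_le_one_iff, map_inv₀] at h4
    have h5 : V'.valuation w ≠ 0 := by
      intro h6
      rw [Valuation.zero_iff] at h6
      rw [h6, map_zero, map_zero] at hcon
      exact absurd hcon (by simp)
    have h6 : V'.valuation w * (V'.valuation w)⁻¹ < 1 :=
      mul_lt_one_of_lt_of_le hw h4
    rw [mul_inv_cancel₀ h5] at h6
    exact absurd h6 (lt_irrefl _)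
  refine ⟨hroot g r h.root, ?_⟩
  intro τ' hτ' z hz hτz a ha hne W hW
  have hI : Iner V (g⁻¹ * τ' * g) := by
    refine ⟨fun w => ?_, fun w hw => ?_⟩
    · rw [AlgEquiv.mul_apply, AlgEquiv.mul_apply, hs, hτ'.stab, hg]
    · have h1 := hτ'.triv (g w) ((hg w).2 hw)
      have h2 := hnu _ h1
      rw [map_sub, h0'] at h2
      rw [AlgEquiv.mul_apply, AlgEquiv.mul_apply]
      exact h2
  have hz' : (g⁻¹ z) ^ 2 = algebraMap k (kb k K) c := by
    rw [← map_pow, hz, AlgEquiv.commutes]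
  have hτz' : (g⁻¹ * τ' * g) (g⁻¹ z) = -(g⁻¹ z) := by
    rw [AlgEquiv.mul_apply, AlgEquiv.mul_apply, h0, hτz, map_neg]
  have hne' : g⁻¹ a ≠ r := by
    intro h1
    apply hne
    rw [← h1, h0]
  have hU : SqQ x (g⁻¹ a) r (s.toHom g⁻¹ W) := by
    have h1 := sqq_act x s g⁻¹ a (g r) W hW
    rwa [h0'] at h1
  have h1 := h.neg _ hI (g⁻¹ z) hz' hτz' (g⁻¹ a) (hroot _ a ha) hne' _ hU
  have h2 : s.toHom (g⁻¹ * τ' * g) (s.toHom g⁻¹ W) = s.toHom g⁻¹ (s.toHom τ' W) := by
    have h3 : s.toHom (g⁻¹ * τ' * g) * s.toHom g⁻¹ = s.toHom g⁻¹ * s.toHom τ' := by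
      rw [← map_mul, ← map_mul]
      congr 1
      group
    exact congrArg (fun e : Mnr k K ≃ₐ[K] Mnr k K => e W) h3
  rw [h2, ← map_neg] at h1
  exact (s.toHom g⁻¹).injective h1

end SC5
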