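import Pool.Agent.MP_c1dca2_ag.SC5.L1b
import Pool.Agent.MP_c1dca2_ag.SC5.L2

/-!
# [SC5-L3] the special root: uniqueness, the signs of inertia

`w_neg`: `r` special, `a ≠ b` roots, `r = a` or `r = b`, `τ` changes the sign of `z`, `SqQ x a b W`: `s τ W = - W`. If
`r = b` this is `Sp.neg`. If `r = a`: `W ≠ 0` (`sqq_ne`), `W⁻¹` satisfies `SqQ x b a W⁻¹`, so `s τ W⁻¹ = - W⁻¹`.

`w_fix`: `SC3.loc_exists` gives `D : Loc A V f c x y (Fin n)`; let `z² = c`. If `τ z = z` this is `SC3.inert_triv`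
(file SC3/T2.lean; `a = D.r i`, `b = D.r j` by `root_iff`). Otherwise `τ z = - z` (`(τ z)² = z²`), so `c` is odd by
`SC3.ev_fix` (file SC3/T0.lean; `D.two`; `z ≠ -z` as `z ≠ 0`, characteristic `0`); let `r` be special (`sp_exists`), `r ≠ a`, `r ≠ b` by
`hr`, `S`, `T` with `SqQ x a r S`, `SqQ x b r T` (`exists_sqq`): `s τ S = - S`, `s τ T = - T` (`Sp.neg`), `W T = ± S`
(`sqq_comp`), so `s τ W * (- T) = - (W T)`, `s τ W * T = W * T`, `T ≠ 0`.

`sp_unique`: let `r ≠ r'` be special. Choose a root `a ≠ r, r'` (there are at least `4` roots: `D : Loc ..` as above,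
`D.four`, `root_iff`, `D.r` is injective by `D.dist`), `z² = c`, `τ₀ z = - z`, `Iner V τ₀` (`SC2.exists_tau`, file SC2/A5.lean).
`SqQ x a r' W`: `s τ₀ W = - W` (`Sp.neg` for `r'`). `SqQ x a r S`, `SqQ x r' r T`: `s τ₀ S = - S`, `s τ₀ T = - T` (`Sp.neg` for `r`),
`W T = ± S` (`sqq_comp`), so `s τ₀ W * T = W * T`, `s τ₀ W = W`, `W = 0`, contradiction (`sqq_ne`).
-/

set_option autoImplicit false

open Polynomial SC2 SC3 SEC IsLocalRing

noncomputable section

namespace SC5

variable {k K : Type} [Field k] [Field K] [Algebra k K]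

theorem l3_x_sub (x : K) (hx : Transcendental k x) (a : kb k K) :
    algebraMap K (Om K) x - (a : Om K) ≠ 0 := f_x_sub x hx a

theorem l3_fix {F : Type*} [Field F] {W S T : F} (hT0 : T ≠ 0) (h : W * T = S ∨ W * T = -S)
    {G : Type*} [FunLike G F F] [RingHomClass G F F] (φ : G) (eS : φ S = -S) (eT : φ T = -T) :
    φ W = W := by
  have h1 : φ W * T = W * T := by
    rcases h with e | e
    · have e1 := congrArg φ e
      rw [map_mul, eS, eT] at e1
      linear_combination -e1 - e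
    · have e1 := congrArg φ e
      rw [map_mul, map_neg, eS, eT] at e1
      linear_combination -e1 - e
  exact mul_right_cancel₀ hT0 h1

theorem w_neg (f : k[X]) (c : k) (x : K) (hx : Transcendental k x) (s : SEC.Sect k K)
    (V : ValuationSubring (kb k K)) (r : kb k K) (h : Sp f c x s V r)
    (τ : kb k K ≃ₐ[k] kb k K) (hτ : Iner V τ) (z : kb k K)
    (hz : z ^ 2 = algebraMap k (kb k K) c) (hτz : τ z = -z) (a b : kb k K)
    (ha : aeval a f = 0) (hb : aeval b f = 0) (hab : a ≠ b) (hr : r = a ∨ r = b) (W : Mnr k K)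
    (hW : SqQ x a b W) : s.toHom τ W = -W := by
  rcases hr with rfl | rfl
  · have hW' : SqQ x b r W⁻¹ := by
      have h0 : (W : Om K) ≠ 0 := by
        intro h0
        unfold SqQ at hW
        rw [h0, zero_pow two_ne_zero, zero_mul] at hW
        exact l3_x_sub x hx r hW.symm
      unfold SqQ at hW ⊢
      rw [← hW]
      change ((W : Om K)⁻¹) ^ 2 * ((W : Om K) ^ 2 * _) = _
      rw [← mul_assoc, inv_pow, inv_mul_cancel₀ (pow_ne_zero 2 h0), one_mul]
    have h1 := h.neg τ hτ z hz hτz b hb hab.symm W⁻¹ hW'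
    rw [map_inv₀] at h1
    have h2 := congrArg (fun u => u⁻¹) h1
    simp only [inv_inv, inv_neg] at h2
    exact h2
  · exact h.neg τ hτ z hz hτz a ha hab W hW

theorem w_fix [CharZero k] (f : k[X]) (hsep : f.Separable) (heven : Even f.natDegree)
    (h4 : 4 ≤ f.natDegree) (c : k) (hc : c ≠ 0) (x y : K) (hx : Transcendental k x)
    (hxy : y ^ 2 = algebraMap k K c * aeval x f) (s : SEC.Sect k K) (A : ValuationSubring k)
    (hA : GoodAt A f) (V : ValuationSubring (kb k K)) (hV : Above A V)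
    (τ : kb k K ≃ₐ[k] kb k K) (hτ : Iner V τ) (a b : kb k K)
    (ha : aeval a f = 0) (hb : aeval b f = 0) (hab : a ≠ b)
    (hr : ¬ EvA A c → ∀ r, Sp f c x s V r → r ≠ a ∧ r ≠ b) (W : Mnr k K)
    (hW : SqQ x a b W) : s.toHom τ W = W := by
  obtain ⟨n, ⟨D⟩⟩ := loc_exists f hA hV heven h4 c hc x y hx hxy
  have hdvr := hA.dvr
  have hfin := hA.fin
  have hac : IsAlgClosed (kb k K) := kb_isAlgClosed
  have hcz : CharZero (kb k K) := charZero_of_injective_algebraMap (algebraMap k (kb k K)).injective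
  obtain ⟨z, hz⟩ := IsAlgClosed.exists_pow_nat_eq (algebraMap k (kb k K) c) (n := 2) (by norm_num)
  obtain ⟨i, hi⟩ := (root_iff D a).1 ha
  obtain ⟨j, hj⟩ := (root_iff D b).1 hb
  have hτz : τ z = z ∨ τ z = -z := by
    apply sq_eq_sq_iff_eq_or_eq_neg.1
    rw [← map_pow, hz, AlgEquiv.commutes]
  rcases hτz with h | h
  · refine inert_triv D s τ hτ z hz h i j W ?_
    rw [← hi, ← hj]
    exact hW
  · have hz0 : z ≠ 0 := by
      rintro rfl
      rw [zero_pow two_ne_zero] at hz
      exact hc ((map_eq_zero _).1 hz.symm)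
    have hodd : ¬ EvA A c := by
      intro hev
      have h1 := ev_fix hV D.two c hev z hz τ hτ
      rw [h] at h1
      exact hz0 (self_eq_neg.1 h1.symm)
    obtain ⟨r, hr1, -⟩ := sp_exists f heven h4 c hc x y hx hxy s A hA V hV hodd
    obtain ⟨hra, hrb⟩ := hr hodd r hr1
    obtain ⟨S, hS⟩ := exists_sqq f hsep c hc x y hx hxy a r ha hr1.root
    obtain ⟨T, hT⟩ := exists_sqq f hsep c hc x y hx hxy b r hb hr1.root
    have eS := hr1.neg τ hτ z hz h a ha hra.symm S hS
    have eT := hr1.neg τ hτ z hz h b hb hrb.symm T hT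
    exact l3_fix (sqq_ne x hx b r T hT) (sqq_comp x hx a b r W S T hW hS hT) (s.toHom τ) eS eT

theorem sp_unique [CharZero k] (f : k[X]) (hsep : f.Separable) (heven : Even f.natDegree)
    (h4 : 4 ≤ f.natDegree) (c : k) (hc : c ≠ 0) (x y : K) (hx : Transcendental k x)
    (hxy : y ^ 2 = algebraMap k K c * aeval x f) (s : SEC.Sect k K) (A : ValuationSubring k)
    (hA : GoodAt A f) (V : ValuationSubring (kb k K)) (hV : Above A V) (hodd : ¬ EvA A c)
    (r r' : kb k K) (h : Sp f c x s V r) (h' : Sp f c x s V r') : r = r' := by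
  by_contra hne
  obtain ⟨n, ⟨D⟩⟩ := loc_exists f hA hV heven h4 c hc x y hx hxy
  have hdvr := hA.dvr
  have hfin := hA.fin
  have hac : IsAlgClosed (kb k K) := kb_isAlgClosed
  have hgal : IsGalois k (kb k K) := kb_isGalois
  have hcz : CharZero (kb k K) := charZero_of_injective_algebraMap (algebraMap k (kb k K)).injective
  obtain ⟨z, hz⟩ := IsAlgClosed.exists_pow_nat_eq (algebraMap k (kb k K) c) (n := 2) (by norm_num)
  obtain ⟨i, hi⟩ := (root_iff D r).1 h.root
  obtain ⟨j, hj⟩ := (root_iff D r').1 h'.root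
  have hrinj : Function.Injective D.r := by
    intro i j hij
    by_contra hne
    have h1 := D.dist i j hne
    rw [hij, sub_self, map_zero] at h1
    exact zero_ne_one h1
  obtain ⟨l, hli, hlj⟩ : ∃ l, l ≠ i ∧ l ≠ j := by
    by_contra hcon
    push Not at hcon
    have h5 : (Finset.univ : Finset (Fin n)) ⊆ {i, j} := by
      intro l _
      by_cases hl : l = i
      · simp [hl]
      · simp [hcon l hl]
    have h6 := Finset.card_le_card h5
    have h7 := D.four
    have h8 : ({i, j} : Finset (Fin n)).card ≤ 2 := Finset.card_le_two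
    rw [Finset.card_univ] at h6
    omega
  have ha : aeval (D.r l) f = 0 := (root_iff D (D.r l)).2 ⟨l, rfl⟩
  have har : D.r l ≠ r := by
    rw [hi]
    exact fun e => hli (hrinj e)
  have har' : D.r l ≠ r' := by
    rw [hj]
    exact fun e => hlj (hrinj e)
  obtain ⟨τ, hτ, hτz⟩ := exists_tau hV D.two c (fun b hb => hodd ⟨b, hb⟩) z hz
  obtain ⟨W, hW⟩ := exists_sqq f hsep c hc x y hx hxy (D.r l) r' ha h'.root
  obtain ⟨S, hS⟩ := exists_sqq f hsep c hc x y hx hxy (D.r l) r ha h.root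
  obtain ⟨T, hT⟩ := exists_sqq f hsep c hc x y hx hxy r' r h'.root h.root
  have eW := h'.neg τ hτ z hz hτz (D.r l) ha har' W hW
  have eS := h.neg τ hτ z hz hτz (D.r l) ha har S hS
  have eT := h.neg τ hτ z hz hτz r' h'.root (Ne.symm hne) T hT
  have e := l3_fix (sqq_ne x hx r' r T hT) (sqq_comp x hx (D.r l) r' r W S T hW hS hT)
    (s.toHom τ) eS eT
  rw [eW] at e
  have hW0 := sqq_ne x hx (D.r l) r' W hW
  have hcz2 : CharZero (Mnr k K) :=
    charZero_of_injective_algebraMap (algebraMap k (Mnr k K)).injective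
  exact hW0 (self_eq_neg.1 e.symm)

end SC5
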