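import Pool.Agent.MP_c1dca2_ag.SC5.L1

/-!
# [SC5-L4] the class of a section in `k(a, b)`

For roots `a ≠ b` of `f` let `W₀ = W₀(a, b)` be one square root of `(x - a) / (x - b)` in `M` (hypothesis `hW₀`). Let
`E = k(a, b)` (`IntermediateField.adjoin k {a, b}`); `σ ∈ E.fixingSubgroup` iff `σ a = a` and `σ b = b`. For such `σ`,
`s σ W₀` satisfies `SqQ x a b` (`sqq_act`), so it is `± W₀` (`sqq_sign`). `SEC.kummer` (file SEC/M4.lean) gives `η ≠ 0` with
`η² ∈ E` and `s σ W₀ · η = W₀ · σ η` for `σ ∈ E.fixingSubgroup`. Put `δ a b = η²`; it is fixed by all `σ` fixing `a` and `b`. If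
`W` is another square root of `(x - a) / (x - b)` then `W = ± W₀`, and if `z² = δ a b` then `z = ± η`: the formula holds
for `W`, `z`. Use `choose` / `Classical.choice` for the function `δ` (for pairs which are not roots `δ a b = 1`).
-/

set_option autoImplicit false

open Polynomial SC2 SC3 SEC IsLocalRing

noncomputable section

namespace SC5

variable {k K : Type} [Field k] [Field K] [Algebra k K]

theorem exists_del [CharZero k] (f : k[X]) (x : K) (hx : Transcendental k x)
    (s : SEC.Sect k K)
    (hW₀ : ∀ a b : kb k K, aeval a f = 0 → aeval b f = 0 → a ≠ b → ∃ W : Mnr k K, SqQ x a b W) :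
    ∃ δ : kb k K → kb k K → kb k K, ∀ a b : kb k K, aeval a f = 0 → aeval b f = 0 → a ≠ b →
      δ a b ≠ 0 ∧ (∀ σ : kb k K ≃ₐ[k] kb k K, σ a = a → σ b = b → σ (δ a b) = δ a b) ∧
      ∀ W : Mnr k K, SqQ x a b W → ∀ z : kb k K, z ^ 2 = δ a b → ∀ σ : kb k K ≃ₐ[k] kb k K,
        σ a = a → σ b = b →
          (s.toHom σ W : Om K) * (z : Om K) = (W : Om K) * ((σ z : kb k K) : Om K) := by
  classical
  have key : ∀ a b : kb k K, ∃ d : kb k K, aeval a f = 0 → aeval b f = 0 → a ≠ b →
      d ≠ 0 ∧ (∀ σ : kb k K ≃ₐ[k] kb k K, σ a = a → σ b = b → σ d = d) ∧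
      ∀ W : Mnr k K, SqQ x a b W → ∀ z : kb k K, z ^ 2 = d → ∀ σ : kb k K ≃ₐ[k] kb k K,
        σ a = a → σ b = b →
          (s.toHom σ W : Om K) * (z : Om K) = (W : Om K) * ((σ z : kb k K) : Om K) := by
    intro a b
    by_cases h : aeval a f = 0 ∧ aeval b f = 0 ∧ a ≠ b
    · obtain ⟨ha, hb, hab⟩ := h
      obtain ⟨W₀, hW₀'⟩ := hW₀ a b ha hb hab
      have hfix : ∀ σ : kb k K ≃ₐ[k] kb k K,
          σ ∈ (IntermediateField.adjoin k {a, b}).fixingSubgroup → σ a = a ∧ σ b = b := by
        intro σ hσ
        rw [IntermediateField.mem_fixingSubgroup_iff] at hσ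
        exact ⟨hσ a (IntermediateField.subset_adjoin k _ (by simp)),
          hσ b (IntermediateField.subset_adjoin k _ (by simp))⟩
      have hfix' : ∀ σ : kb k K ≃ₐ[k] kb k K, σ a = a → σ b = b →
          σ ∈ (IntermediateField.adjoin k {a, b}).fixingSubgroup := by
        intro σ hσa hσb
        rw [IntermediateField.mem_fixingSubgroup_iff]
        have h1 : IntermediateField.adjoin k {a, b} ≤
            IntermediateField.fixedField (Subgroup.zpowers σ) := by
          rw [IntermediateField.adjoin_le_iff]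
          intro t ht
          have hst : σ t = t := by
            simp only [Set.mem_insert_iff, Set.mem_singleton_iff] at ht
            rcases ht with rfl | rfl
            · exact hσa
            · exact hσb
          rw [SetLike.mem_coe, IntermediateField.mem_fixedField_iff]
          intro g hg
          have h2 : g ∈ MulAction.stabilizer (kb k K ≃ₐ[k] kb k K) t := by
            have h3 : Subgroup.zpowers σ ≤ MulAction.stabilizer (kb k K ≃ₐ[k] kb k K) t := by
              rw [Subgroup.zpowers_le]
              exact hst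
            exact h3 hg
          exact h2
        intro t ht
        have h2 := h1 ht
        rw [IntermediateField.mem_fixedField_iff] at h2
        exact h2 σ (Subgroup.mem_zpowers σ)
      obtain ⟨η, hη0, hη2, hη⟩ := SEC.kummer s (IntermediateField.adjoin k {a, b}) W₀
        (sqq_ne x hx a b W₀ hW₀') (by
          intro σ hσ
          obtain ⟨hσa, hσb⟩ := hfix σ hσ
          have h1 := sqq_act x s σ a b W₀ hW₀'
          rw [hσa, hσb] at h1
          exact sqq_sign x hx a b W₀ _ hW₀' h1)
      refine ⟨η ^ 2, fun _ _ _ => ⟨pow_ne_zero 2 hη0, ?_, ?_⟩⟩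
      · intro σ hσa hσb
        have h1 := hfix' σ hσa hσb
        rw [IntermediateField.mem_fixingSubgroup_iff] at h1
        exact h1 _ hη2
      · intro W hW z hz σ hσa hσb
        have h1 := hη σ (hfix' σ hσa hσb)
        have h2 := sqq_sign x hx a b W₀ W hW₀' hW
        have h3 : z = η ∨ z = -η := sq_eq_sq_iff_eq_or_eq_neg.1 hz
        rcases h2 with h2 | h2 <;> rcases h3 with h3 | h3 <;> rw [h2, h3]
        · exact h1
        · rw [map_neg]
          push_cast
          rw [mul_neg, mul_neg, h1]
        · rw [map_neg]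
          push_cast
          rw [neg_mul, neg_mul, h1]
        · rw [map_neg, map_neg]
          push_cast
          rw [neg_mul_neg, neg_mul_neg, h1]
    · exact ⟨1, fun ha hb hab => absurd ⟨ha, hb, hab⟩ h⟩
  choose δ hδ using key
  exact ⟨δ, hδ⟩

end SC5
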