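import Mathlib
set_option autoImplicit false

namespace SC5

theorem odd_cycle {ι : Type} [Fintype ι] [DecidableEq ι] (hcard : Even (Fintype.card ι))
    (π : Equiv.Perm ι) (o a b : ι) (hoa : o ≠ a) (hob : o ≠ b)
    (hab : a ≠ b) (ho : π o = o) (ha : π a = a) (hb : π b = b) :
    ∃ (l : ℕ) (i : ι), Odd l ∧ i ≠ o ∧ i ≠ a ∧ i ≠ b ∧ (π ^ l) i = i := by
  classical
  obtain ⟨u, n', hn', hN⟩ : ∃ u n', ¬ 2 ∣ n' ∧ orderOf π = 2 ^ u * n' :=
    Nat.exists_eq_pow_mul_and_not_dvd (orderOf_pos π).ne' 2 (by norm_num)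
  have hodd : Odd n' := by
    rcases Nat.even_or_odd n' with h | h
    · exact absurd h.two_dvd hn'
    · exact h
  have hfix : ∀ (x : ι) (m : ℕ), π x = x → (π ^ m) x = x := by
    intro x m hx
    induction m with
    | zero => simp
    | succ m ih => rw [pow_succ, Equiv.Perm.mul_apply, hx, ih]
  have hpow : (π ^ n') ^ (2 ^ u) = 1 := by
    rw [← pow_mul, mul_comm, ← hN, pow_orderOf_eq_one]
  haveI : Fact (Nat.Prime 2) := ⟨Nat.prime_two⟩
  have hmod := Equiv.Perm.card_compl_support_modEq (σ := π ^ n') (p := 2) (n := u) hpow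
  by_contra hcon
  push Not at hcon
  have hset : (π ^ n').supportᶜ = ({o, a, b} : Finset ι) := by
    ext x
    rw [Finset.mem_compl, Equiv.Perm.mem_support, not_not]
    simp only [Finset.mem_insert, Finset.mem_singleton]
    constructor
    · intro hx
      by_contra h
      push Not at h
      exact hcon n' x hodd h.1 h.2.1 h.2.2 hx
    · rintro (rfl | rfl | rfl)
      · exact hfix _ _ ho
      · exact hfix _ _ ha
      · exact hfix _ _ hb
  have hcard3 : ({o, a, b} : Finset ι).card = 3 :=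
    Finset.card_eq_three.mpr ⟨o, a, b, hoa, hob, hab, rfl⟩
  rw [hset, hcard3, Nat.ModEq] at hmod
  have := Nat.even_iff.mp hcard
  omega

end SC5
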