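import Pool.Agent.MP_c1dca2_ag.SC5.Dat

set_option autoImplicit false

open Polynomial SC2 SC3 IsLocalRing

noncomputable section

namespace SC5

variable {k C : Type} [Field k] [Field C] [Algebra k C]

theorem l7_norm (A : ValuationSubring k) (P : k[X]) (hP : P ≠ 0) :
    ∃ (c : k) (Q : A[X]) (i : ℕ), c ≠ 0 ∧ Q.map A.subtype = Polynomial.C c * P ∧ Q.coeff i = 1 := by
  obtain ⟨i, hi, hmax⟩ := P.support.exists_max_image (fun j => A.valuation (P.coeff j))
    (Polynomial.support_nonempty.mpr hP)
  have hi0 : P.coeff i ≠ 0 := Polynomial.mem_support_iff.mp hi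
  have hall : ∀ j, A.valuation (P.coeff j) ≤ A.valuation (P.coeff i) := by
    intro j
    by_cases hj : j ∈ P.support
    · exact hmax j hj
    · rw [Polynomial.notMem_support_iff.mp hj, map_zero]
      exact zero_le
  have hlift : Polynomial.C (P.coeff i)⁻¹ * P ∈ Polynomial.lifts A.subtype := by
    rw [Polynomial.lifts_iff_coeff_lifts]
    intro j
    rw [Polynomial.coeff_C_mul]
    have : (P.coeff i)⁻¹ * P.coeff j ∈ A := by
      rw [← A.valuation_le_one_iff, map_mul, map_inv₀]
      have hne : A.valuation (P.coeff i) ≠ 0 := (Valuation.ne_zero_iff _).mpr hi0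
      calc (A.valuation (P.coeff i))⁻¹ * A.valuation (P.coeff j)
          ≤ (A.valuation (P.coeff i))⁻¹ * A.valuation (P.coeff i) := mul_le_mul_right (hall j) _
        _ = 1 := inv_mul_cancel₀ hne
    exact ⟨⟨_, this⟩, rfl⟩
  obtain ⟨Q, hQ⟩ := (Polynomial.mem_lifts _).mp hlift
  refine ⟨(P.coeff i)⁻¹, Q, i, inv_ne_zero hi0, hQ, ?_⟩
  apply Subtype.ext
  have h1 : (Q.map A.subtype).coeff i = 1 := by
    rw [hQ, Polynomial.coeff_C_mul, inv_mul_cancel₀ hi0]
  rw [Polynomial.coeff_map] at h1
  exact h1

theorem finite_res {A : ValuationSubring k} [Finite (ResidueField A)] {V : ValuationSubring C}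
    (h : Above A V) (E : IntermediateField k C) [FiniteDimensional k E] :
    ∃ n : ℕ, 0 < n ∧ ∀ z : C, z ∈ E → z ∈ V →
      z ^ (Nat.card (ResidueField A) ^ n) - z ∈ V.nonunits := by
  refine ⟨(Module.finrank k E).factorial, Nat.factorial_pos _, fun z hzE hz => ?_⟩
  let _ := (a4k h).toAlgebra
  have hint : IsIntegral k (⟨z, hzE⟩ : E) := IsIntegral.of_finite k _
  have hdeg := minpoly.natDegree_le (A := k) (⟨z, hzE⟩ : E)
  obtain ⟨c, Q, i, hc, hQ, hQi⟩ := l7_norm A (minpoly k (⟨z, hzE⟩ : E)) (minpoly.ne_zero hint)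
  set P := minpoly k (⟨z, hzE⟩ : E) with hPdef
  have hQdeg : Q.natDegree ≤ Module.finrank k E := by
    have h1 : (Q.map A.subtype).natDegree = Q.natDegree :=
      Polynomial.natDegree_map_eq_of_injective A.subtype_injective Q
    rw [← h1, hQ, Polynomial.natDegree_C_mul hc]
    exact hdeg
  have hroot : Polynomial.aeval z P = 0 := by
    have h1 : Polynomial.aeval (⟨z, hzE⟩ : E) P = 0 := minpoly.aeval k _
    have h2 := congrArg (algebraMap E C) h1
    rw [map_zero, ← Polynomial.aeval_algebraMap_apply] at h2
    exact h2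
  set zb : ResidueField V := residue V ⟨z, hz⟩ with hzb
  have hroot2 : Polynomial.aeval zb (Q.map (residue A)) = 0 := by
    rw [Polynomial.aeval_def, Polynomial.eval₂_map]
    have h1 : (algebraMap (ResidueField A) (ResidueField V)).comp (residue A) =
      (residue V).comp (a4f h) := rfl
    rw [h1, hzb, ← Polynomial.hom_eval₂]
    have h2 : Polynomial.eval₂ (a4f h) (⟨z, hz⟩ : V) Q = 0 := by
      apply Subtype.ext
      change V.subtype _ = 0
      rw [Polynomial.hom_eval₂]
      have h3 : V.subtype.comp (a4f h) = (algebraMap k C).comp A.subtype := rfl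
      rw [h3, ← Polynomial.eval₂_map, hQ, Polynomial.eval₂_mul]
      have h4 : Polynomial.eval₂ (algebraMap k C) (V.subtype ⟨z, hz⟩) P = 0 := hroot
      rw [h4, mul_zero]
    rw [h2, map_zero]
  have hQne : Q.map (residue A) ≠ 0 := by
    intro h0
    have h1 : (Q.map (residue A)).coeff i = 0 := by rw [h0, Polynomial.coeff_zero]
    rw [Polynomial.coeff_map, hQi, map_one] at h1
    exact one_ne_zero h1
  have halg : IsAlgebraic (ResidueField A) zb := ⟨_, hQne, hroot2⟩
  have hint2 : IsIntegral (ResidueField A) zb := halg.isIntegral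
  have hdvd := minpoly.dvd (ResidueField A) zb hroot2
  have hdeg2 : (minpoly (ResidueField A) zb).natDegree ≤ Module.finrank k E :=
    (Polynomial.natDegree_le_of_dvd hdvd hQne).trans
      ((Polynomial.natDegree_map_le).trans hQdeg)
  have hpos := minpoly.natDegree_pos hint2
  set e := (minpoly (ResidueField A) zb).natDegree with he
  have hed : e ∣ (Module.finrank k E).factorial := Nat.dvd_factorial hpos hdeg2
  have hfr := IntermediateField.adjoin.finrank hint2
  haveI : FiniteDimensional (ResidueField A) (IntermediateField.adjoin (ResidueField A) {zb}) :=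
    IntermediateField.adjoin.finiteDimensional hint2
  haveI : Finite (IntermediateField.adjoin (ResidueField A) {zb}) :=
    Module.finite_of_finite (ResidueField A)
  letI := Fintype.ofFinite (IntermediateField.adjoin (ResidueField A) {zb})
  have hcard : Nat.card (IntermediateField.adjoin (ResidueField A) {zb}) =
      Nat.card (ResidueField A) ^ e := by
    rw [Module.natCard_eq_pow_finrank (K := ResidueField A), hfr]
  have hp : zb ^ (Nat.card (ResidueField A) ^ e) = zb := by
    have h1 := FiniteField.pow_card (IntermediateField.AdjoinSimple.gen (ResidueField A) zb)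
    rw [← Nat.card_eq_fintype_card, hcard] at h1
    have h2 := congrArg (algebraMap (IntermediateField.adjoin (ResidueField A) {zb}) (ResidueField V)) h1
    rw [map_pow, IntermediateField.AdjoinSimple.algebraMap_gen] at h2
    exact h2
  have hpow : ∀ m : ℕ, zb ^ (Nat.card (ResidueField A) ^ (e * m)) = zb := by
    intro m
    induction m with
    | zero => simp
    | succ m ih => rw [Nat.mul_succ, pow_add, pow_mul, ih, hp]
  obtain ⟨m, hm⟩ := hed
  have hfin : zb ^ (Nat.card (ResidueField A) ^ (Module.finrank k E).factorial) = zb := by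
    rw [hm]; exact hpow m
  have hzp : z ^ (Nat.card (ResidueField A) ^ (Module.finrank k E).factorial) ∈ V :=
    pow_mem hz _
  apply a4_nonunits hzp hz
  rw [← hzb, ← hfin, hzb, ← map_pow]
  rfl

end SC5
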