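import Pool.Agent.MP_c1dca2_ag.SC5.L7

/-!
# [SC5-L7b] elements of the decomposition group act like powers of Frobenius

Let `E = k(Z)` (`IntermediateField.adjoin k Z`), a finite extension of `k` (`C / k` is algebraic), `n` from `finite_res`,
`q = #(ResidueField A)`. Let `κ` be the residue field of `V` and `F = {u ∈ κ | u^(q^n) = u}`, a finite subfield of `κ` (the roots of a
polynomial `X^(q^n) - X ≠ 0`; sums: `q` is a power of the characteristic, `add_pow_char_pow`; or take the roots' closure differently), which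
contains the residues of the elements of `V ∩ E` (`finite_res`). `g` induces an automorphism `ḡ` of `κ` over `κ(A)` (`ḡ` fixes the residues of
the elements of `A`). Let `u₀` generate the cyclic group `Fˣ` (`IsCyclic`); `P = ∏_{i < n} (X - u₀^(q^i)) ∈ κ[X]`: its
coefficients are fixed by the `q`-power map (which permutes the factors cyclically, as `u₀^(q^n) = u₀`), hence they are in the image of
`κ(A)` (the `q` elements of `κ(A)` are all the roots of `X^q - X`), hence fixed by `ḡ`: `ḡ u₀` is a root of `P`, `ḡ u₀ = u₀^(q^m)`, with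
`m ≥ 1` (replace `0` by `n`). So `ḡ u = u^(q^m)` for all `u ∈ F`. (Or use Galois theory of finite fields in Mathlib:
`FiniteField` + `frobeniusAlgEquivOfAlgebraic`…)
Now `h = g⁻¹ * φ^m` stabilises `V` and acts trivially on the residues of `V ∩ E`: for `z ∈ V ∩ E`, `φ^m z ≡ z^(q^m) ≡ g z`
(`SC2.frob_pow`, file SC2/A4.lean). Consider `C` as a Galois extension of `E` and `V` above `A' = V.comap (algebraMap E C)`, `θ` = the
automorphism of `κ` induced by `h`: it is the identity on the residues of the elements of `A'`; by `SC2.exists_lift`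
(file SC2/A3.lean) over `E` instead of `k` there is `ρ : C ≃ₐ[E] C` stabilising `V` and inducing `θ`. Then `τ = h * (ρ.restrictScalars k)⁻¹` is in
the inertia group of `V`, so it fixes all `z ∈ Z` (`hZ`); `ρ z = z` for `z ∈ Z ⊆ E`. So `h z = z` and `φ^m z = g z`.
-/

set_option autoImplicit false

open Polynomial SC2 SC3 IsLocalRing

noncomputable section

namespace SC5

/-- the automorphisms of a finite subfield -/
theorem l7b_ff {K L : Type} [Field K] [Finite K] [Field L] [Algebra K L] (G : L ≃ₐ[K] L) {n : ℕ}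
    (hn : 0 < n) :
    ∃ m : ℕ, 0 < m ∧ ∀ u : L, u ^ (Nat.card K ^ n) = u → G u = u ^ (Nat.card K ^ m) := by
  let _ := Fintype.ofFinite K
  have hq : 1 < Nat.card K := Finite.one_lt_card
  let φ : L →ₐ[K] L := FiniteField.frobeniusAlgHom K L ^ n
  have hφ : ∀ u : L, φ u = u ^ (Nat.card K ^ n) := by
    intro u
    have h1 : φ u = (⇑(FiniteField.frobeniusAlgHom K L))^[n] u := by
      rw [← AlgHom.coe_pow]
    rw [h1, FiniteField.coe_frobeniusAlgHom, pow_iterate, Nat.card_eq_fintype_card]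
  let S : Subalgebra K L := AlgHom.equalizer φ (AlgHom.id K L)
  have hS : ∀ u : L, u ∈ S ↔ u ^ (Nat.card K ^ n) = u := by
    intro u
    rw [← hφ]
    exact Iff.rfl
  let F : IntermediateField K L := S.toIntermediateField (by
    intro x hx
    rw [hS] at hx ⊢
    rw [inv_pow, hx])
  have hF : ∀ u : L, u ∈ F ↔ u ^ (Nat.card K ^ n) = u := hS
  have hfin : Finite F := by
    have h0 : (X ^ Nat.card K ^ n - X : L[X]) ≠ 0 :=
      FiniteField.X_pow_card_pow_sub_X_ne_zero _ hn.ne' hq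
    refine Set.Finite.subset (Polynomial.rootSet_finite (X ^ Nat.card K ^ n - X : L[X]) L) ?_
    intro u hu
    rw [Polynomial.mem_rootSet]
    refine ⟨h0, ?_⟩
    rw [map_sub, map_pow, aeval_X, (hF u).1 hu, sub_self]
  let g : F →ₐ[K] F := (G.toAlgHom.comp F.val).codRestrict F.toSubalgebra (by
    intro x
    change G x ∈ F
    rw [hF, ← map_pow, (hF x).1 x.2])
  have hg : ∀ x : F, ((g x : F) : L) = G x := fun x => rfl
  obtain ⟨⟨i, hi⟩, hi2⟩ := (FiniteField.bijective_frobeniusAlgHom_pow K F).2 g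
  refine ⟨i + n, by omega, fun u hu => ?_⟩
  have h1 := congrArg (fun f : F →ₐ[K] F => ((f ⟨u, (hF u).2 hu⟩ : F) : L)) hi2
  simp only [AlgHom.coe_pow, FiniteField.coe_frobeniusAlgHom, pow_iterate] at h1
  have h2 : G u = u ^ (Nat.card K ^ i) := by
    rw [Nat.card_eq_fintype_card]
    exact h1.symm
  rw [h2, pow_add, pow_mul, ← pow_mul, mul_comm, pow_mul, hu]

variable {k C : Type} [Field k] [Field C] [Algebra k C]

/-- the automorphism of `V` -/
def l7b_V {V : ValuationSubring C} (g : C ≃ₐ[k] C) (hg : ∀ z, g z ∈ V ↔ z ∈ V) : V ≃+* V where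
  toFun z := ⟨g z, (hg z).2 z.2⟩
  invFun z := ⟨g.symm z, by rw [← hg]; simp⟩
  left_inv z := Subtype.ext (by simp)
  right_inv z := Subtype.ext (by simp)
  map_add' a b := Subtype.ext (by simp)
  map_mul' a b := Subtype.ext (by simp)

/-- the automorphism of the residue field -/
def l7b_r {V : ValuationSubring C} (g : C ≃ₐ[k] C) (hg : ∀ z, g z ∈ V ↔ z ∈ V) :
    ResidueField V ≃+* ResidueField V := ResidueField.mapEquiv (l7b_V g hg)

theorem l7b_res {V : ValuationSubring C} (g : C ≃ₐ[k] C) (hg : ∀ z, g z ∈ V ↔ z ∈ V)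
    (z : C) (hz : z ∈ V) :
    l7b_r g hg (residue V ⟨z, hz⟩) = residue V ⟨g z, (hg z).2 hz⟩ := rfl

theorem l7b_inv {V : ValuationSubring C} {g : C ≃ₐ[k] C} (hg : ∀ z, g z ∈ V ↔ z ∈ V) (z : C) :
    g⁻¹ z ∈ V ↔ z ∈ V := by
  rw [← hg]
  have h1 : g (g⁻¹ z) = z := by rw [← AlgEquiv.mul_apply]; simp
  rw [h1]

theorem l7b_nonunits {V : ValuationSubring C} {g : C ≃ₐ[k] C} (hg : ∀ z, g z ∈ V ↔ z ∈ V) {w : C}
    (hw : w ∈ V.nonunits) : g w ∈ V.nonunits := by
  have hwV : w ∈ V := by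
    rw [ValuationSubring.mem_nonunits_iff] at hw
    exact (V.valuation_le_one_iff w).1 hw.le
  have h0 : w - 0 ∈ V.nonunits := by rwa [sub_zero]
  have h1 := a4_residue hwV V.zero_mem h0
  have h2 := congrArg (l7b_r g hg) h1
  rw [l7b_res, l7b_res] at h2
  have h3 := a4_nonunits _ _ h2
  rwa [map_zero, sub_zero] at h3

theorem frob_approx [IsGalois k C] {A : ValuationSubring k} [Finite (ResidueField A)]
    {V : ValuationSubring C} (h : Above A V) (φ : C ≃ₐ[k] C)
    (hφ : Frob (Nat.card (ResidueField A)) V φ) (g : C ≃ₐ[k] C) (hg : ∀ z, g z ∈ V ↔ z ∈ V)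
    (Z : Finset C) (hZ : ∀ z ∈ Z, ∀ τ : C ≃ₐ[k] C, Iner V τ → τ z = z) :
    ∃ m : ℕ, 0 < m ∧ ∀ z ∈ Z, (φ ^ m) z = g z := by
  let E : IntermediateField k C := IntermediateField.adjoin k (Z : Set C)
  have hEfin : FiniteDimensional k E := by
    refine IntermediateField.finiteDimensional_adjoin (fun x _ => ?_)
    exact (Algebra.IsAlgebraic.isAlgebraic (R := k) x).isIntegral
  have hZE : ∀ z ∈ Z, z ∈ E := fun z hz => IntermediateField.subset_adjoin k _ hz
  obtain ⟨n, hn, hres⟩ := finite_res h E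
  let _ := (a4k h).toAlgebra
  let G : ResidueField V ≃ₐ[ResidueField A] ResidueField V := AlgEquiv.ofRingEquiv (f := l7b_r g hg) (by
    intro a
    obtain ⟨⟨a, ha⟩, rfl⟩ := residue_surjective a
    change l7b_r g hg (residue V (a4f h ⟨a, ha⟩)) = residue V (a4f h ⟨a, ha⟩)
    have h1 : a4f h ⟨a, ha⟩ = (⟨algebraMap k C a, (h a).2 ha⟩ : V) := rfl
    rw [h1, l7b_res]
    congr 1
    exact Subtype.ext (g.commutes a))
  have hG : ∀ (z : C) (hz : z ∈ V), G (residue V ⟨z, hz⟩) = residue V ⟨g z, (hg z).2 hz⟩ :=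
    fun z hz => rfl
  obtain ⟨m, hm, hGm⟩ := l7b_ff G hn
  refine ⟨m, hm, ?_⟩
  have hφm := frob_pow hφ m
  -- `φ ^ m` and `g` agree on the residues of `V ∩ E`
  have hagree : ∀ (z : C) (hz : z ∈ V), z ∈ E →
      residue V ⟨(φ ^ m) z, (hφm.stab z).2 hz⟩ = residue V ⟨g z, (hg z).2 hz⟩ := by
    intro z hz hzE
    have h1 := a4_residue ((hφm.stab z).2 hz) (V.pow_mem hz _) (hφm.frob z hz)
    have h2 := a4_residue (V.pow_mem hz _) hz (hres z hzE hz)
    have h3 : (⟨z ^ Nat.card (ResidueField A) ^ n, V.pow_mem hz _⟩ : V) =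
      ⟨z, hz⟩ ^ Nat.card (ResidueField A) ^ n := rfl
    have h4 : (⟨z ^ Nat.card (ResidueField A) ^ m, V.pow_mem hz _⟩ : V) =
      ⟨z, hz⟩ ^ Nat.card (ResidueField A) ^ m := rfl
    rw [h3, map_pow] at h2
    rw [h1, h4, map_pow, ← hGm _ h2, hG]
  -- the element `g⁻¹ * φ ^ m`
  have hs : ∀ z, (g⁻¹ * φ ^ m) z ∈ V ↔ z ∈ V := by
    intro z
    rw [AlgEquiv.mul_apply, l7b_inv hg, hφm.stab]
  have htriv : ∀ (z : C) (hz : z ∈ V), z ∈ E →
      residue V ⟨(g⁻¹ * φ ^ m) z, (hs z).2 hz⟩ = residue V ⟨z, hz⟩ := by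
    intro z hz hzE
    have h1 := congrArg (l7b_r g⁻¹ (l7b_inv hg)) (hagree z hz hzE)
    rw [l7b_res, l7b_res] at h1
    have h2 : g⁻¹ (g z) = z := by rw [← AlgEquiv.mul_apply]; simp
    rw [show (⟨(g⁻¹ * φ ^ m) z, (hs z).2 hz⟩ : V) = ⟨g⁻¹ ((φ ^ m) z), _⟩ from rfl, h1]
    congr 1
    exact Subtype.ext h2
  -- lift
  let A' : ValuationSubring E := V.comap (algebraMap E C)
  have hab : Above A' V := fun a => Iff.rfl
  obtain ⟨ρ, hρ, hρ2⟩ := exists_lift hab (l7b_r (g⁻¹ * φ ^ m) hs) (by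
    intro a ha
    rw [l7b_res]
    exact htriv _ ha a.2)
  let ρ' : C ≃ₐ[k] C := ρ.restrictScalars k
  have hρ' : ∀ z, ρ' z ∈ V ↔ z ∈ V := hρ
  have hi : Iner V ((g⁻¹ * φ ^ m) * ρ'⁻¹) := by
    refine ⟨fun z => ?_, fun z hz => ?_⟩
    · rw [AlgEquiv.mul_apply, hs, l7b_inv hρ']
    · have hw : ρ'⁻¹ z ∈ V := (l7b_inv hρ' z).2 hz
      have h1 := hρ2 (ρ'⁻¹ z) hw
      rw [l7b_res] at h1
      have h2 : ρ (ρ'⁻¹ z) = z := by
        change ρ' (ρ'⁻¹ z) = z
        rw [← AlgEquiv.mul_apply]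
        simp
      have h3 := a4_nonunits _ _ h1
      rw [h2] at h3
      rw [AlgEquiv.mul_apply, ← neg_sub]
      rw [ValuationSubring.mem_nonunits_iff] at h3 ⊢
      rw [Valuation.map_neg]
      exact h3
  intro z hz
  have h1 := hZ z hz _ hi
  have h2 : ρ' z = z := ρ.commutes ⟨z, hZE z hz⟩
  have h3 : ρ'⁻¹ z = z := by
    conv_lhs => rw [← h2]
    rw [← AlgEquiv.mul_apply]
    simp
  rw [AlgEquiv.mul_apply, h3, AlgEquiv.mul_apply] at h1
  have h4 := congrArg g h1
  rw [← h4, ← AlgEquiv.mul_apply]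
  simp

end SC5
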