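import Pool.Agent.MP_c1dca2_ag.SC5.L2
import Pool.Agent.MP_c1dca2_ag.SC5.L6

/-!
# [SC5-L8] the sign of a power of Frobenius

`D : Loc A V f c x y (Fin n)` from `SC3.loc_exists` (file SC3/T0.lean), `a = D.r ia`, `b = D.r ib`, `r = D.r j`
(`root_iff`), pairwise different. `ψ = φ ^ m` fixes `a`, `b`, `r`. `ψ` permutes the roots (`SC2.f_perm`; `π : Fin n → Fin n`
injective, hence a permutation, `ψ (D.r i) = D.r (π i)`), and `n` is even (`D.even`). By `odd_cycle` there are an odd `l`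
and `i₃` different from `j, ia, ib` with `ψ^l (D.r i₃) = D.r i₃` (`SC2.f_iter` for the powers). Apply `SC3.four_roots`
(file SC3/T5.lean) to the four roots `![r, a, b, D.r i₃]`, the Frobenius element `φ^(m l) = ψ^l` for `q^(m l)`
(`SC2.frob_pow`, `SC2.card_odd`, file SC2/A4.lean: `q` odd, `q ≥ 2`, so `q^(m l)` is odd and at least `2`; `m l ≥ 1`), square roots
`S 0 = 1`, `S 1`, `S 2`, `S 3` with `SqQ x (the root) r (S i)` (`exists_sqq`), an inertia element `τ` with `τ √c = - √c`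
(`SC2.exists_tau`), for which `s τ (S i) = - S i`, `i ≠ 0` (`Sp.neg`), and `ρ = γ` (`γ² = (a - r)(b - r)`):
`s (ψ^l) (S 1 S 2) · γ = S 1 S 2 · ψ^l γ`. Now `ψ γ = ε₁ γ`, `ε₁ = ± 1` (`γ²` is fixed by `ψ`) and `s ψ W = ε₂ W` (`sqq_act`,
`sqq_sign`), so `ψ^l γ = ε₁ γ`, `s (ψ^l) W = ε₂ W` as `l` is odd (compare `SC3.t7_pow`, file SC3/T7.lean). `W · S 2 = ± S 1`
(`sqq_comp`), so `S 1 S 2 = ± W (S 2)²` and `(S 2)² = (x - b)/(x - r)` is fixed by `s (ψ^l)` (`s (ψ^l) (S 2) = ± S 2` by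
`sqq_act`, `sqq_sign`, as `ψ^l` fixes `b`, `r`). So `s (ψ^l) (S 1 S 2) = ε₂ S 1 S 2`, `ε₂ S 1 S 2 γ = ε₁ S 1 S 2 γ`, `ε₁ = ε₂`
(`S 1, S 2, γ ≠ 0`; characteristic `0`), which is the claim.
-/

set_option autoImplicit false

open Polynomial SC2 SC3 SEC IsLocalRing

noncomputable section

namespace SC5

variable {k K : Type} [Field k] [Field K] [Algebra k K]

theorem sign_frob [CharZero k] (f : k[X]) (hsep : f.Separable) (heven : Even f.natDegree)
    (h4 : 4 ≤ f.natDegree) (c : k) (hc : c ≠ 0) (x y : K) (hx : Transcendental k x)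
    (hxy : y ^ 2 = algebraMap k K c * aeval x f) (s : SEC.Sect k K) (A : ValuationSubring k)
    (hA : GoodAt A f) (V : ValuationSubring (kb k K)) (hV : Above A V) (hodd : ¬ EvA A c)
    (r : kb k K) (h : Sp f c x s V r) (φ : kb k K ≃ₐ[k] kb k K)
    (hφ : Frob (Nat.card (ResidueField A)) V φ) (hφr : φ r = r) (m : ℕ) (hm : 0 < m)
    (a b : kb k K) (ha : aeval a f = 0) (hb : aeval b f = 0) (hab : a ≠ b) (hra : r ≠ a)
    (hrb : r ≠ b) (hφa : (φ ^ m) a = a) (hφb : (φ ^ m) b = b) (W : Mnr k K)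
    (hW : SqQ x a b W) (γ : kb k K) (hγ : γ ^ 2 = (r - a) * (r - b)) :
    (s.toHom (φ ^ m) W : Om K) * (γ : Om K) = (W : Om K) * (((φ ^ m) γ : kb k K) : Om K) := by
  classical
  have hac : IsAlgClosed (kb k K) := kb_isAlgClosed
  have hgal : IsGalois k (kb k K) := kb_isGalois
  have hdvr := hA.dvr
  have hfin := hA.fin
  obtain ⟨n, ⟨D⟩⟩ := loc_exists f hA hV heven h4 c hc x y hx hxy
  have hl0 : D.l ≠ 0 := by
    intro h0
    have := D.hl
    rw [h0, map_zero, map_zero] at this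
    exact zero_ne_one this
  have hrinj : Function.Injective D.r := by
    intro i j hij
    by_contra hne
    have h1 := D.dist i j hne
    rw [hij, sub_self, map_zero] at h1
    exact zero_ne_one h1
  obtain ⟨ia, hia⟩ := (root_iff D a).1 ha
  obtain ⟨ib, hib⟩ := (root_iff D b).1 hb
  obtain ⟨j, hj⟩ := (root_iff D r).1 h.root
  have hjia : j ≠ ia := fun h1 => hra (by rw [hj, hia, h1])
  have hjib : j ≠ ib := fun h1 => hrb (by rw [hj, hib, h1])
  have hiab : ia ≠ ib := fun h1 => hab (by rw [hia, hib, h1])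
  set ψ : kb k K ≃ₐ[k] kb k K := φ ^ m with hψ
  have hψr : ψ r = r := by
    have h1 : ∀ n : ℕ, (φ ^ n) r = r := by
      intro n
      induction n with
      | zero => simp
      | succ n ih => rw [pow_succ', AlgEquiv.mul_apply, ih, hφr]
    exact h1 m
  -- the permutation of the roots
  choose π hπ using fun i => f_perm f D.l hl0 D.r D.fr ψ i
  have hπinj : Function.Injective π := by
    intro i i' hii
    apply hrinj
    apply ψ.injective
    rw [hπ, hπ, hii]
  have hπbij : Function.Bijective π := Finite.injective_iff_bijective.1 hπinj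
  let πe : Equiv.Perm (Fin n) := Equiv.ofBijective π hπbij
  have hfix : ∀ i, ψ (D.r i) = D.r i → πe i = i := by
    intro i hi
    apply hrinj
    change D.r (π i) = D.r i
    rw [← hπ, hi]
  obtain ⟨l, i₃, hl, h3j, h3a, h3b, h3⟩ := odd_cycle D.even πe j ia ib hjia hjib hiab
    (hfix j (by rw [← hj]; exact hψr)) (hfix ia (by rw [← hia]; exact hφa))
    (hfix ib (by rw [← hib]; exact hφb))
  have hit : ∀ (n' : ℕ) (i : Fin n), (πe ^ n') i = π^[n'] i := by
    intro n' i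
    induction n' with
    | zero => rfl
    | succ n' ih => rw [pow_succ', Equiv.Perm.mul_apply, ih, Function.iterate_succ_apply']; rfl
  have h3' : (ψ ^ l) (D.r i₃) = D.r i₃ := by
    rw [f_iter D.r ψ π hπ, ← hit, h3]
  have hpow : ∀ z, ψ z = z → (ψ ^ l) z = z := by
    intro z hz
    rw [t7_pow ψ z (Or.inl hz) l hl, hz]
  -- four roots
  set R : Fin 4 → kb k K := ![r, a, b, D.r i₃] with hR
  have hR0 : R 0 = r := rfl
  have hR1 : R 1 = a := rfl
  have hR2 : R 2 = b := rfl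
  have hR3 : R 3 = D.r i₃ := rfl
  let idx : Fin 4 → Fin n := ![j, ia, ib, i₃]
  have hidx : Function.Injective idx := by
    intro i i' hii
    fin_cases i <;> fin_cases i' <;> first
      | rfl
      | exact absurd hii hjia
      | exact absurd hii hjia.symm
      | exact absurd hii hjib
      | exact absurd hii hjib.symm
      | exact absurd hii hiab
      | exact absurd hii hiab.symm
      | exact absurd hii h3j
      | exact absurd hii h3j.symm
      | exact absurd hii h3a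
      | exact absurd hii h3a.symm
      | exact absurd hii h3b
      | exact absurd hii h3b.symm
  have hRidx : ∀ i, R i = D.r (idx i) := by
    intro i
    fin_cases i
    · exact hj
    · exact hia
    · exact hib
    · rfl
  have hroot : ∀ i, aeval (R i) f = 0 := fun i => (root_iff D _).2 ⟨idx i, hRidx i⟩
  have hRψ : ∀ i, (ψ ^ l) (R i) = R i := by
    intro i
    fin_cases i
    · exact hpow r hψr
    · exact hpow a hφa
    · exact hpow b hφb
    · exact h3'
  have hS : ∀ i, ∃ W : Mnr k K, SqQ x (R i) r W ∧ (i = 0 → W = 1) := by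
    intro i
    by_cases hi : i = 0
    · refine ⟨1, ?_, fun _ => rfl⟩
      rw [hi, hR0]
      simp [SqQ]
    · obtain ⟨W, hW⟩ := exists_sqq f hsep c hc x y hx hxy (R i) r (hroot i) h.root
      exact ⟨W, hW, fun h1 => absurd h1 hi⟩
  choose S hS hS1 using hS
  -- inertia
  obtain ⟨z, hz⟩ := IsAlgClosed.exists_pow_nat_eq (algebraMap k (kb k K) c) (n := 2)
    (by norm_num)
  obtain ⟨τ, hτ, hτz⟩ := exists_tau hV D.two c (fun b hb => hodd ⟨b, hb⟩) z hz
  have hτS : ∀ i, i ≠ 0 → s.toHom τ (S i) = -S i := by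
    intro i hi
    refine h.neg τ hτ z hz hτz (R i) (hroot i) ?_ (S i) (hS i)
    intro h1
    apply hi
    apply hidx
    apply hrinj
    rw [← hRidx, ← hRidx, h1, hR0]
  obtain ⟨hqodd, hq2⟩ := card_odd hV D.two
  have hl1 : 1 ≤ l := hl.pos
  have hml : m * l ≠ 0 := Nat.mul_ne_zero hm.ne' (by omega)
  have hq2' : 2 ≤ Nat.card (ResidueField A) ^ (m * l) :=
    hq2.trans (Nat.le_self_pow hml _)
  have hφl : φ ^ (m * l) = ψ ^ l := by rw [hψ, pow_mul]
  have hfrob : Frob (Nat.card (ResidueField A) ^ (m * l)) V (ψ ^ l) := by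
    rw [← hφl]
    exact frob_pow hφ (m * l)
  have hγ' : γ ^ 2 = (R 1 - R 0) * (R 2 - R 0) := by
    rw [hγ, hR0, hR1, hR2]
    ring
  have h4r := four_roots hV D.two s x hx R (fun i => by rw [hRidx]; exact D.int _)
    (fun i i' hii => by
      rw [hRidx, hRidx]
      exact D.dist _ _ (fun h1 => hii (hidx h1)))
    (fun σ hσ i => iner_root D σ hσ _ (hroot i)) S (fun i => hS i)
    (Nat.card (ResidueField A) ^ (m * l)) hqodd.pow hq2' (ψ ^ l) hfrob hRψ τ hτ hτS γ hγ'
  -- the signs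
  have hψγ : ψ γ = γ ∨ ψ γ = -γ := by
    apply sq_eq_sq_iff_eq_or_eq_neg.1
    rw [← map_pow, hγ, map_mul, map_sub, map_sub, hψr, hφa, hφb]
  have hγl : (ψ ^ l) γ = ψ γ := t7_pow ψ γ hψγ l hl
  have hWψ : s.toHom ψ W = W ∨ s.toHom ψ W = -W := by
    have h1 := sqq_act x s ψ a b W hW
    rw [hφa, hφb] at h1
    exact sqq_sign x hx a b W _ hW h1
  have hWl : s.toHom (ψ ^ l) W = s.toHom ψ W := by
    rw [map_pow]
    exact t7_pow (s.toHom ψ) W hWψ l hl
  have hS2 : (s.toHom (ψ ^ l) (S 2)) ^ 2 = (S 2) ^ 2 := by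
    have h1 := sqq_act x s (ψ ^ l) (R 2) r (S 2) (hS 2)
    rw [hRψ 2, hpow r hψr] at h1
    rcases sqq_sign x hx (R 2) r (S 2) _ (hS 2) h1 with h2 | h2 <;> rw [h2]
    ring
  have hS20 : S 2 ≠ 0 := sqq_ne x hx _ _ _ (hS 2)
  have hP0 : ((S 2 : Mnr k K) : Om K) ^ 2 ≠ 0 := by
    apply pow_ne_zero
    intro h1
    exact hS20 (Subtype.ext h1)
  have hcomp := sqq_comp x hx a b r W (S 1) (S 2) hW (hS 1) (hS 2)
  obtain ⟨ε, hε, hε0⟩ : ∃ ε : K, S 1 * S 2 = algebraMap K (Mnr k K) ε * (W * (S 2) ^ 2) ∧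
      ε ≠ 0 := by
    rcases hcomp with h1 | h1
    · refine ⟨1, ?_, one_ne_zero⟩
      rw [← h1, map_one]
      ring
    · refine ⟨-1, ?_, neg_ne_zero.2 one_ne_zero⟩
      rw [map_neg, map_one]
      linear_combination (S 2) * h1
  have hε0' : (algebraMap K (Om K) ε) ≠ 0 := (_root_.map_ne_zero _).2 hε0
  have e4 : s.toHom (ψ ^ l) ((S 2) ^ 2) = (S 2) ^ 2 :=
    (map_pow (s.toHom (ψ ^ l)) (S 2) 2).trans hS2
  have e3 : s.toHom (ψ ^ l) (S 1 * S 2) =
      algebraMap K (Mnr k K) ε * (s.toHom ψ W * (S 2) ^ 2) := by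
    rw [hε, map_mul (s.toHom (ψ ^ l)), AlgEquiv.commutes, map_mul (s.toHom (ψ ^ l)), hWl, e4]
  rw [e3, hε, hγl] at h4r
  have e1 : ((algebraMap K (Mnr k K) ε * (s.toHom ψ W * (S 2) ^ 2) : Mnr k K) : Om K) =
      algebraMap K (Om K) ε * ((s.toHom ψ W : Om K) * (S 2 : Om K) ^ 2) := rfl
  have e2 : ((algebraMap K (Mnr k K) ε * (W * (S 2) ^ 2) : Mnr k K) : Om K) =
      algebraMap K (Om K) ε * ((W : Om K) * (S 2 : Om K) ^ 2) := rfl
  rw [e1, e2] at h4r
  apply mul_left_cancel₀ (mul_ne_zero hε0' hP0)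
  linear_combination h4r

end SC5
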