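import Pool.Agent.MP_c1dca2_ag.SC5.L3
import Pool.Agent.MP_c1dca2_ag.SC5.L4
import Pool.Agent.MP_c1dca2_ag.SC5.L7b
import Pool.Agent.MP_c1dca2_ag.SC5.L8

/-!
# [SC5-L9] the data of a section

`δ` from `exists_del` (with `exists_sqq` for `hW₀`). `ρ V` = a special root at `V` if there is one, `0` otherwise
(`if h : ∃ r, Sp f c x s V r then h.choose else 0`).

* `ne`, `fix`: `exists_del`.
* `root`: `sp_exists`, `Sp.root` for `ρ V`.
* `eqv`: `ρ V` is special at `V` (`sp_exists`), so `g (ρ V)` is special at `V'` (`sp_conj`), and so is `ρ V'`: `sp_unique`.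
* `even`: let `W` with `SqQ x a b W` (`exists_sqq`). `w_fix` (a special root `r` is `ρ V` by `sp_unique`): `s τ W = W`; `τ` fixes `a`
  and `b` (`iner_root`), so `W z = W τ z` by `exists_del`, `W ≠ 0` (`sqq_ne`).
* `odd`: let `z₀² = c`; `SC2.exists_tau` (`¬ EvA A c`; `EvA A c` is `∃ b, A.valuation c = A.valuation b ^ 2`;
  `V.valuation 2 = 1` is `Loc.two`, or `SC2.f_two`) gives `τ`, `τ z₀ = - z₀`. `w_neg`: `s τ W = - W`, so `- W z = W τ z`, `τ z = - z`.
* `sgn`: let `φ` be a Frobenius element (`SC2.exists_frob`), `φ (ρ V) = ρ V` (by `sp_exists` and `sp_unique`). `z` is fixed by inertia (by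
  `even`), `γ` is fixed by inertia (`SC2.b6_mu`: `(ρ V - a)(ρ V - b)` is a unit of `V` fixed by inertia, `Loc.dist`, `root_iff`,
  `iner_root`), and so are `a`, `b`. `frob_approx` with `Z = {a, b, z, γ}` gives `m` with `ψ = φ^m`: `ψ a = g a = a`, `ψ b = b`,
  `ψ z = g z`, `ψ γ = g γ`. By `exists_del` `s ψ W · z = W · ψ z`, by `sign_frob` `s ψ W · γ = W · ψ γ`. So
  `W · ψ z · γ = s ψ W · z · γ = W · ψ γ · z`, and `g z · γ = z · g γ`.
-/

set_option autoImplicit false

open Polynomial SC2 SC3 SEC IsLocalRing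

noncomputable section

namespace SC5

theorem dat_of_sect {k K : Type} [Field k] [CharZero k] [Field K] [Algebra k K] (f : k[X])
    (hsep : f.Separable) (heven : Even f.natDegree) (h4 : 4 ≤ f.natDegree) (c : k) (hc : c ≠ 0)
    (x y : K) (hx : Transcendental k x) (hxy : y ^ 2 = algebraMap k K c * aeval x f)
    (s : SEC.Sect k K) : Nonempty (Dat k (kb k K) f c) := by
  classical
  have hac : IsAlgClosed (kb k K) := kb_isAlgClosed
  have hgal : IsGalois k (kb k K) := kb_isGalois
  have hsq := fun a b ha hb => exists_sqq f hsep c hc x y hx hxy a b ha hb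
  obtain ⟨δ, hδ⟩ := exists_del f x hx s (fun a b ha hb _ => hsq a b ha hb)
  let ρ : ValuationSubring (kb k K) → kb k K :=
    fun V => if h : ∃ r, Sp f c x s V r then h.choose else 0
  have hρ : ∀ (A : ValuationSubring k) (V : ValuationSubring (kb k K)), GoodAt A f → Above A V →
      ¬ EvA A c → Sp f c x s V (ρ V) := by
    intro A V hA hV hodd
    obtain ⟨r, hr, -⟩ := sp_exists f heven h4 c hc x y hx hxy s A hA V hV hodd
    have hex : ∃ r, Sp f c x s V r := ⟨r, hr⟩
    change Sp f c x s V (if h : ∃ r, Sp f c x s V r then h.choose else 0)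
    rw [dif_pos hex]
    exact hex.choose_spec
  have hroots : ∀ (A : ValuationSubring k) (V : ValuationSubring (kb k K)), GoodAt A f →
      Above A V → ∀ τ : kb k K ≃ₐ[k] kb k K, Iner V τ → ∀ a, aeval a f = 0 → τ a = a := by
    intro A V hA hV τ hτ a ha
    obtain ⟨n, ⟨D⟩⟩ := loc_exists f hA hV heven h4 c hc x y hx hxy
    exact iner_root D τ hτ a ha
  have hev : ∀ (A : ValuationSubring k) (V : ValuationSubring (kb k K)), GoodAt A f → Above A V →
      ∀ a b, aeval a f = 0 → aeval b f = 0 → a ≠ b → (¬ EvA A c → ρ V ≠ a ∧ ρ V ≠ b) →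
      ∀ z, z ^ 2 = δ a b → ∀ τ : kb k K ≃ₐ[k] kb k K, Iner V τ → τ z = z := by
    intro A V hA hV a b ha hb hab hr z hz τ hτ
    obtain ⟨W, hW⟩ := hsq a b ha hb
    have h1 : s.toHom τ W = W := by
      refine w_fix f hsep heven h4 c hc x y hx hxy s A hA V hV τ hτ a b ha hb hab ?_ W hW
      intro hodd r hr'
      rw [sp_unique f hsep heven h4 c hc x y hx hxy s A hA V hV hodd r (ρ V) hr'
        (hρ A V hA hV hodd)]
      exact hr hodd
    have h2 := (hδ a b ha hb hab).2.2 W hW z hz τ (hroots A V hA hV τ hτ a ha)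
      (hroots A V hA hV τ hτ b hb)
    rw [h1] at h2
    have h3 : (W : Om K) ≠ 0 := by
      intro h
      exact sqq_ne x hx a b W hW (Subtype.ext h)
    exact (Subtype.ext (mul_left_cancel₀ h3 h2)).symm
  refine ⟨{
    δ := δ
    ρ := ρ
    ne := fun a b ha hb hab => (hδ a b ha hb hab).1
    fix := fun a b ha hb hab => (hδ a b ha hb hab).2.1
    root := fun A V hA hV hodd => (hρ A V hA hV hodd).root
    eqv := ?_
    even := hev
    odd := ?_
    sgn := ?_ }⟩
  · intro A V V' hA hV hV' hodd g hg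
    exact sp_unique f hsep heven h4 c hc x y hx hxy s A hA V' hV' hodd _ _
      (hρ A V' hA hV' hodd) (sp_conj f c x s V V' g hg (ρ V) (hρ A V hA hV hodd))
  · intro A V hA hV a b ha hb hab hodd hr z hz
    have _ := hA.dvr
    have _ := hA.fin
    have h2 : V.valuation 2 = 1 := f_two hV hA.two
    obtain ⟨z₀, hz₀⟩ := IsAlgClosed.exists_pow_nat_eq (algebraMap k (kb k K) c) (n := 2)
      (by norm_num)
    obtain ⟨τ, hτ, hτz⟩ := exists_tau hV h2 c (fun b hb => hodd ⟨b, hb⟩) z₀ hz₀
    refine ⟨τ, hτ, ?_⟩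
    obtain ⟨W, hW⟩ := hsq a b ha hb
    have h1 := w_neg f c x hx s V (ρ V) (hρ A V hA hV hodd) τ hτ z₀ hz₀ hτz a b ha hb hab hr W hW
    have h3 := (hδ a b ha hb hab).2.2 W hW z hz τ (hroots A V hA hV τ hτ a ha)
      (hroots A V hA hV τ hτ b hb)
    rw [h1] at h3
    have h5 : (W : Om K) ≠ 0 := by
      intro h
      exact sqq_ne x hx a b W hW (Subtype.ext h)
    have h6' : (W : Om K) * (-(z : Om K)) = (W : Om K) * ((τ z : kb k K) : Om K) := by
      rw [← h3]
      push_cast
      ring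
    have h7 := mul_left_cancel₀ h5 h6'
    exact Subtype.ext h7.symm
  · intro A V hA hV a b ha hb hab hodd hra hrb g hg hga hgb z γ hz hγ
    have _ := hA.dvr
    have _ := hA.fin
    have h2 : V.valuation 2 = 1 := f_two hV hA.two
    obtain ⟨φ, hφ⟩ := exists_frob hV
    have hφr : φ (ρ V) = ρ V := by
      obtain ⟨r, hr, hfr⟩ := sp_exists f heven h4 c hc x y hx hxy s A hA V hV hodd
      have h1 := sp_unique f hsep heven h4 c hc x y hx hxy s A hA V hV hodd r (ρ V) hr
        (hρ A V hA hV hodd)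
      rw [← h1]
      exact hfr φ hφ
    have hI := hroots A V hA hV
    have hρr : aeval (ρ V) f = 0 := (hρ A V hA hV hodd).root
    obtain ⟨n, ⟨D⟩⟩ := loc_exists f hA hV heven h4 c hc x y hx hxy
    -- inertia fixes `γ`
    have hγI : ∀ τ : kb k K ≃ₐ[k] kb k K, Iner V τ → τ γ = γ := by
      intro τ hτ
      have hv : V.valuation γ = 1 := by
        obtain ⟨i, hi⟩ := (root_iff D a).1 ha
        obtain ⟨j, hj⟩ := (root_iff D b).1 hb
        obtain ⟨l, hl⟩ := (root_iff D (ρ V)).1 hρr
        have h5 : V.valuation γ ^ 2 = 1 ^ 2 := by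
          rw [← map_pow, hγ, map_mul, hl, hi, hj, D.dist l i, D.dist l j, one_pow, one_mul]
          · rintro rfl; exact hrb (hl.trans hj.symm)
          · rintro rfl; exact hra (hl.trans hi.symm)
        exact (pow_left_inj₀ zero_le zero_le two_ne_zero).1 h5
      have h5 : (τ γ) ^ 2 = γ ^ 2 := by
        rw [← map_pow, hγ, map_mul, map_sub, map_sub, hI τ hτ _ hρr, hI τ hτ a ha, hI τ hτ b hb]
      rcases sq_eq_sq_iff_eq_or_eq_neg.1 h5 with h6' | h6'
      · exact h6'
      · exfalso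
        have h7 := hτ.triv γ ((V.valuation_le_one_iff _).1 hv.le)
        rw [h6', V.mem_nonunits_iff] at h7
        have h8 : -γ - γ = -(2 * γ) := by ring
        rw [h8, Valuation.map_neg, map_mul, h2, hv, one_mul] at h7
        exact absurd h7 (lt_irrefl _)
    have hzI := hev A V hA hV a b ha hb hab (fun _ => ⟨hra, hrb⟩) z hz
    obtain ⟨m, hm, hψ⟩ := frob_approx hV φ hφ g hg ({a, b, z, γ} : Finset (kb k K)) (by
      intro w hw τ hτ
      simp only [Finset.mem_insert, Finset.mem_singleton] at hw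
      rcases hw with rfl | rfl | rfl | rfl
      · exact hI τ hτ _ ha
      · exact hI τ hτ _ hb
      · exact hzI τ hτ
      · exact hγI τ hτ)
    have hψa : (φ ^ m) a = a := (hψ a (by simp)).trans hga
    have hψb : (φ ^ m) b = b := (hψ b (by simp)).trans hgb
    have hψz : (φ ^ m) z = g z := hψ z (by simp)
    have hψγ : (φ ^ m) γ = g γ := hψ γ (by simp)
    obtain ⟨W, hW⟩ := hsq a b ha hb
    have h1 := (hδ a b ha hb hab).2.2 W hW z hz (φ ^ m) hψa hψb
    have h3 := sign_frob f hsep heven h4 c hc x y hx hxy s A hA V hV hodd (ρ V)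
      (hρ A V hA hV hodd) φ hφ hφr m hm a b ha hb hab hra hrb hψa hψb W hW γ hγ
    rw [hψz] at h1
    rw [hψγ] at h3
    have h5 : (W : Om K) ≠ 0 := by
      intro h
      exact sqq_ne x hx a b W hW (Subtype.ext h)
    have h7 : (W : Om K) * (((g z : kb k K) : Om K) * (γ : Om K)) =
        (W : Om K) * ((z : Om K) * ((g γ : kb k K) : Om K)) := by
      rw [← mul_assoc, ← h1, mul_right_comm, h3]
      ring
    have h8 := mul_left_cancel₀ h5 h7
    exact Subtype.ext h8

end SC5
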